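import Pool.Agent.Lib_helper17.RS.Bas
/-!
# Rubin-Stark, block EA: convergence of Euler products
-/

namespace Pool.Agent.RSK

open NumberField NumberField.InfinitePlace NumberField.Units IsDedekindDomain Filter Topology
  Complex

variable {k : Type} [Field k] [NumberField k]

variable (k) in
theorem ea_sum_tendsto_card : ∃ l : ℝ, Tendsto (fun n : ℕ =>
    (∑ j ∈ Finset.Icc 1 n, (Nat.card {I : Ideal (𝓞 k) // Ideal.absNorm I = j} : ℝ)) / n) atTop
      (𝓝 l) := by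
  refine ⟨_, ((NumberField.Ideal.tendsto_norm_le_div_atTop₀ k).comp
    tendsto_natCast_atTop_atTop).congr fun n => ?_⟩
  simp only [Function.comp_apply, Nat.cast_le, ← Nat.cast_sum]
  congr
  rw [← add_left_inj 1, ← Ideal.card_norm_le_eq_card_norm_le_add_one,
    show Finset.Icc 1 n = Finset.Ioc 0 n from Finset.Icc_succ_left_eq_Ioc _ _,
    show 1 = Nat.card {I : Ideal (𝓞 k) // Ideal.absNorm I = 0} by
      simp [Ideal.absNorm_eq_zero_iff],
    Finset.sum_Ioc_add_eq_sum_Icc (n.zero_le),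
    ← Finset.card_preimage_eq_sum_card_image_eq
      (fun k _ => Ideal.finite_setOfPred_absNorm_eq k)]
  simp [Set.coe_eq_subtype]

theorem ea_ideal_summable {A : ℝ} (hA : 1 < A) :
    Summable (fun 𝔠 : Ideal (𝓞 k) => (Ideal.absNorm 𝔠 : ℝ) ^ (-A)) := by
  obtain ⟨l, hl⟩ := ea_sum_tendsto_card k
  set a : ℕ → ℝ := fun j => (Nat.card {I : Ideal (𝓞 k) // Ideal.absNorm I = j} : ℝ) with ha
  have hO : (fun n : ℕ => ∑ j ∈ Finset.Icc 1 n, a j) =O[atTop] fun n => (n : ℝ) ^ (1 : ℝ) := by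
    have h1 := hl.isBigO_one ℝ
    have h2 : (fun n : ℕ => (∑ j ∈ Finset.Icc 1 n, a j) / (n : ℝ) * (n : ℝ)) =O[atTop]
        fun n => (1 : ℝ) * (n : ℝ) := h1.mul (Asymptotics.isBigO_refl _ _)
    refine (h2.congr' ?_ ?_)
    · filter_upwards [eventually_gt_atTop 0] with n hn
      field_simp
    · filter_upwards with n
      simp
  have hS : LSeriesSummable (fun n => ((a n : ℝ) : ℂ)) (A : ℂ) :=
    LSeriesSummable_of_sum_norm_bigO_and_nonneg hO (fun n => Nat.cast_nonneg _) zero_le_one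
      (by simpa using hA)
  have hA0 : -A ≠ 0 := by linarith
  have hS2 : Summable (fun n : ℕ => a n * (n : ℝ) ^ (-A)) := by
    refine hS.norm.congr fun n => ?_
    rw [LSeries.norm_term_eq]
    by_cases hn : n = 0
    · subst hn
      simp [Real.zero_rpow hA0]
    · rw [if_neg hn, Complex.norm_real, Real.norm_of_nonneg (Nat.cast_nonneg _), Complex.ofReal_re,
        Real.rpow_neg (Nat.cast_nonneg _), div_eq_mul_inv]
  rw [← (Equiv.sigmaFiberEquiv (fun I : Ideal (𝓞 k) => Ideal.absNorm I)).summable_iff]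
  rw [summable_sigma_of_nonneg (fun x => by
    simp only [Function.comp_apply]
    positivity)]
  refine ⟨fun n => ?_, ?_⟩
  · have : Finite {I : Ideal (𝓞 k) // Ideal.absNorm I = n} := Ideal.finite_setOfPred_absNorm_eq n
    exact Summable.of_finite
  · refine hS2.congr fun n => ?_
    have h : ∀ y : {I : Ideal (𝓞 k) // Ideal.absNorm I = n},
        ((fun 𝔠 : Ideal (𝓞 k) => (Ideal.absNorm 𝔠 : ℝ) ^ (-A)) ∘
          (Equiv.sigmaFiberEquiv (fun I : Ideal (𝓞 k) => Ideal.absNorm I))) ⟨n, y⟩ =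
            (n : ℝ) ^ (-A) := by
      intro y
      simp [Equiv.sigmaFiberEquiv, y.2]
    simp_rw [h, tsum_const, nsmul_eq_mul]
    rfl

theorem ea_two_le (v : HeightOneSpectrum (𝓞 k)) : 2 ≤ nv v := by
  have h0 : nv v ≠ 0 := by
    intro h
    exact v.ne_bot (Ideal.absNorm_eq_zero_iff.mp h)
  have h1 : nv v ≠ 1 := by
    intro h
    exact v.isPrime.ne_top (Ideal.absNorm_eq_one_iff.mp h)
  omega

theorem ea_norm (v : HeightOneSpectrum (𝓞 k)) (s : ℂ) :
    ‖(nv v : ℂ) ^ (-s)‖ = (nv v : ℝ) ^ (-s.re) := by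
  have := ea_two_le v
  rw [Complex.norm_natCast_cpow_of_pos (by omega), Complex.neg_re]

theorem summable_nv {s : ℂ} (hs : 1 < s.re) :
    Summable (fun v : HeightOneSpectrum (𝓞 k) => ‖(nv v : ℂ) ^ (-s)‖) := by
  have h1 := ea_ideal_summable (k := k) hs
  have hinj : Function.Injective (fun v : HeightOneSpectrum (𝓞 k) => v.asIdeal) :=
    fun v w h => HeightOneSpectrum.ext h
  refine (h1.comp_injective hinj).congr fun v => ?_
  rw [ea_norm]; rfl

theorem ea_norm_le {s : ℂ} (hs : 1 < s.re) (v : HeightOneSpectrum (𝓞 k)) :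
    ‖(nv v : ℂ) ^ (-s)‖ ≤ 1 / 2 := by
  rw [ea_norm]
  have h2 : (2 : ℝ) ≤ nv v := by exact_mod_cast ea_two_le v
  calc (nv v : ℝ) ^ (-s.re) ≤ (nv v : ℝ) ^ (-1 : ℝ) :=
        Real.rpow_le_rpow_of_exponent_le (by linarith) (by linarith)
    _ = (nv v : ℝ)⁻¹ := Real.rpow_neg_one _
    _ ≤ 1 / 2 := by
      rw [one_div]
      exact inv_anti₀ (by norm_num) h2

theorem mult_euler {s : ℂ} (hs : 1 < s.re) (P : HeightOneSpectrum (𝓞 k) → Prop)
    (a : HeightOneSpectrum (𝓞 k) → ℂ) (ha : ∀ v, ‖a v‖ ≤ 1) :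
    Multipliable (fun v : {v // P v} => (1 - a v.1 * (nv v.1 : ℂ) ^ (-s))⁻¹) ∧
      ∏' v : {v // P v}, (1 - a v.1 * (nv v.1 : ℂ) ^ (-s))⁻¹ ≠ 0 := by
  have hle : ∀ v : HeightOneSpectrum (𝓞 k), ‖a v * (nv v : ℂ) ^ (-s)‖ ≤ ‖(nv v : ℂ) ^ (-s)‖ := by
    intro v
    rw [norm_mul]
    exact mul_le_of_le_one_left (norm_nonneg _) (ha v)
  have h12 : ∀ v : HeightOneSpectrum (𝓞 k), ‖a v * (nv v : ℂ) ^ (-s)‖ ≤ 1 / 2 :=
    fun v => (hle v).trans (ea_norm_le hs v)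
  have hne : ∀ v : HeightOneSpectrum (𝓞 k), 1 - a v * (nv v : ℂ) ^ (-s) ≠ 0 := by
    intro v h
    have h3 := h12 v
    rw [← sub_eq_zero.mp h, norm_one] at h3
    norm_num at h3
  have hlow : ∀ v : HeightOneSpectrum (𝓞 k), 1 / 2 ≤ ‖1 - a v * (nv v : ℂ) ^ (-s)‖ := by
    intro v
    have h3 := norm_sub_norm_le (1 : ℂ) (a v * (nv v : ℂ) ^ (-s))
    rw [norm_one] at h3
    have := h12 v
    linarith
  let f : {v // P v} → ℂ := fun v =>
    a v.1 * (nv v.1 : ℂ) ^ (-s) * (1 - a v.1 * (nv v.1 : ℂ) ^ (-s))⁻¹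
  have hf : (fun v : {v // P v} => (1 - a v.1 * (nv v.1 : ℂ) ^ (-s))⁻¹) = fun v => 1 + f v := by
    funext v
    have := hne v.1
    show _ = 1 + a v.1 * (nv v.1 : ℂ) ^ (-s) * (1 - a v.1 * (nv v.1 : ℂ) ^ (-s))⁻¹
    field_simp
    ring
  have hsum : Summable (fun v => ‖f v‖) := by
    have h1 : Summable (fun v : {v // P v} => 2 * ‖(nv v.1 : ℂ) ^ (-s)‖) :=
      ((summable_nv (k := k) hs).comp_injective
        (Subtype.val_injective (p := P))).mul_left 2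
    refine h1.of_nonneg_of_le (fun v => norm_nonneg _) (fun v => ?_)
    show ‖a v.1 * (nv v.1 : ℂ) ^ (-s) * (1 - a v.1 * (nv v.1 : ℂ) ^ (-s))⁻¹‖ ≤ _
    rw [norm_mul, norm_inv, mul_comm (2 : ℝ)]
    have h2 : ‖1 - a v.1 * (nv v.1 : ℂ) ^ (-s)‖⁻¹ ≤ 2 := by
      have := inv_anti₀ (by norm_num : (0 : ℝ) < 1 / 2) (hlow v.1)
      simpa using this
    exact mul_le_mul (hle v.1) h2 (inv_nonneg.mpr (norm_nonneg _)) (norm_nonneg _)
  rw [hf]
  refine ⟨multipliable_one_add_of_summable hsum, ?_⟩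
  refine tprod_one_add_ne_zero_of_summable (fun v => ?_) hsum
  have h3 := congrFun hf v
  rw [← h3]
  exact inv_ne_zero (hne v.1)

end Pool.Agent.RSK
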