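import Pool.Agent.Lib_helper17.RS.Bas
/-! Rubin-Stark, block PF. -/

namespace Pool.Agent.RSK

open NumberField IsDedekindDomain Filter Topology Complex

section PF

variable {k : Type} [Field k] [NumberField k]

theorem nv_two_le (v : HeightOneSpectrum (𝓞 k)) : 2 ≤ nv v :=
  NumberField.HeightOneSpectrum.one_lt_absNorm v

theorem pf_toNNReal {e : NNReal} (he : e ≠ 0) {y : WithZero (Multiplicative ℤ)} (hy : y ≠ 0) :
    WithZeroMulInt.toNNReal he y = e ^ (WithZero.log y) := by
  rw [WithZeroMulInt.toNNReal_neg_apply he hy]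
  congr 1
  have h := WithZero.coe_unzero hy
  conv_rhs => rw [← h]
  rfl

theorem pf_abv (v : HeightOneSpectrum (𝓞 k)) {x : k} (hx : x ≠ 0) :
    NumberField.HeightOneSpectrum.adicAbv k v x = (nv v : ℝ) ^ (-(ordv v x)) := by
  have hv : v.valuation k x ≠ 0 := (map_ne_zero _).2 hx
  rw [NumberField.HeightOneSpectrum.adicAbv_def, pf_toNNReal _ hv, ordv, neg_neg]
  push_cast
  rfl

/-- `log |x|_v = -ord_v(x) log N v` -/
theorem lg_ordv (v : HeightOneSpectrum (𝓞 k)) {x : k} (hx : x ≠ 0) :
    lg (Sum.inr v) x = -(ordv v x) * Real.log (nv v) := by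
  show Real.log (NumberField.HeightOneSpectrum.adicAbv k v x) = _
  rw [pf_abv v hx, Real.log_zpow]
  push_cast
  ring

theorem pf_val {v : HeightOneSpectrum (𝓞 k)} {x : k} (h : v.valuation k x = 1) :
    NumberField.HeightOneSpectrum.adicAbv k v x = 1 := by
  rw [NumberField.HeightOneSpectrum.adicAbv_def, h, map_one]
  rfl

theorem sum_lg {S T : Finset (HeightOneSpectrum (𝓞 k))} {u : kˣ} (hu : u ∈ Un S T) :
    ∑ P : PS S, lg P.pl (u : k) = 0 := by
  classical
  have hu0 : (u : k) ≠ 0 := u.ne_zero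
  rw [Fintype.sum_sum_type]
  have h1 : ∑ w : InfinitePlace k, lg (PS.pl (S := S) (Sum.inl w)) (u : k) =
      Real.log (∏ w : InfinitePlace k, w (u : k) ^ w.mult) := by
    rw [Real.log_prod (fun w _ => pow_ne_zero _ (by
      rw [ne_eq, map_eq_zero]
      exact hu0))]
    apply Finset.sum_congr rfl
    intro w _
    rw [Real.log_pow]
    rfl
  have h2 : ∑ v : S, lg (PS.pl (S := S) (Sum.inr v)) (u : k) =
      Real.log (∏ v ∈ S, NumberField.HeightOneSpectrum.adicAbv k v (u : k)) := by
    rw [Real.log_prod (fun v _ => by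
      rw [ne_eq, map_eq_zero]
      exact hu0)]
    exact Finset.sum_coe_sort S
      (fun v => Real.log (NumberField.HeightOneSpectrum.adicAbv k v (u : k)))
  have h3 : ∏ᶠ w : FinitePlace k, w (u : k) =
      ∏ v ∈ S, NumberField.HeightOneSpectrum.adicAbv k v (u : k) := by
    have h4 : ∏ᶠ w : FinitePlace k, w (u : k) =
        ∏ᶠ v : HeightOneSpectrum (𝓞 k), (FinitePlace.mk v) (u : k) := by
      rw [← finprod_comp_equiv (FinitePlace.equivHeightOneSpectrum (K := k)).symm]
      rfl
    have h5 : ∀ v : HeightOneSpectrum (𝓞 k), (FinitePlace.mk v) (u : k) =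
        NumberField.HeightOneSpectrum.adicAbv k v (u : k) := by
      intro v
      rw [FinitePlace.mk_apply, NumberField.FinitePlace.norm_embedding]
    rw [h4]
    simp only [h5]
    apply finprod_eq_prod_of_mulSupport_subset
    intro v hv
    rw [Function.mem_mulSupport] at hv
    by_contra hvS
    exact hv (pf_val (hu.1 v hvS))
  have h6 := prod_abs_eq_one hu0
  rw [h3] at h6
  rw [h1, h2, ← Real.log_mul, h6, Real.log_one]
  · exact left_ne_zero_of_mul (by rw [h6]; exact one_ne_zero)
  · exact right_ne_zero_of_mul (by rw [h6]; exact one_ne_zero)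

end PF

end Pool.Agent.RSK
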