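import Pool.Agent.Lib_helper17.RS.Bas
import Pool.Agent.Lib_helper17.RS.P_PF
import Pool.Agent.Lib_helper17.RS.P_EA
import Pool.Agent.Lib_helper98.H4F.EU
import Pool.Agent.Lib_helper41.HZF.SUM
/-!
# Rubin-Stark, block EB: the Euler product of the Dedekind zeta function
-/

namespace Pool.Agent.RSK

open NumberField NumberField.InfinitePlace NumberField.Units IsDedekindDomain Filter Topology
  Complex

section EB

variable {k : Type} [Field k] [NumberField k]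

theorem eb_ne_zero {s : ℂ} (hs : 1 < s.re) : s ≠ 0 := by
  rintro rfl
  norm_num at hs

theorem eb_bot {s : ℂ} (hs : 1 < s.re) : (Ideal.absNorm (⊥ : Ideal (𝓞 k)) : ℂ) ^ (-s) = 0 := by
  rw [Ideal.absNorm_bot, Nat.cast_zero, Complex.zero_cpow (neg_ne_zero.2 (eb_ne_zero hs))]

theorem eb_pos {𝔞 : Ideal (𝓞 k)} (h : 𝔞 ≠ ⊥) : 0 < Ideal.absNorm 𝔞 := Nat.pos_of_ne_zero (by
  rw [Ne, Ideal.absNorm_eq_zero_iff]; exact h)

theorem eb_summable {s : ℂ} (hs : 1 < s.re) :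
    Summable (fun 𝔞 : Ideal (𝓞 k) => ‖(Ideal.absNorm 𝔞 : ℂ) ^ (-s)‖) := by
  refine Summable.of_norm_bounded (HZ.ideal_summable (K := k) hs) fun 𝔞 => ?_
  rw [norm_norm]
  by_cases h : 𝔞 = ⊥
  · subst h
    rw [eb_bot hs, norm_zero]
    positivity
  · rw [Complex.norm_natCast_cpow_of_pos (eb_pos h), Complex.neg_re]

theorem eb_series {s : ℂ} (hs : 1 < s.re) :
    ∑' 𝔞 : Ideal (𝓞 k), (Ideal.absNorm 𝔞 : ℂ) ^ (-s) = dedekindZeta k s := by
  classical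
  have hf : Summable (fun 𝔞 : Ideal (𝓞 k) => (Ideal.absNorm 𝔞 : ℂ) ^ (-s)) :=
    (eb_summable hs).of_norm
  rw [← (Equiv.sigmaFiberEquiv (fun I : Ideal (𝓞 k) => Ideal.absNorm I)).tsum_eq
    (fun 𝔞 : Ideal (𝓞 k) => (Ideal.absNorm 𝔞 : ℂ) ^ (-s))]
  have hf' := (Equiv.sigmaFiberEquiv (fun I : Ideal (𝓞 k) => Ideal.absNorm I)).summable_iff.2 hf
  refine Eq.trans hf'.tsum_sigma ?_
  rw [dedekindZeta, LSeries]
  refine tsum_congr fun n => ?_
  rw [LSeries.term_def]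
  have h1 : ∀ c : {I : Ideal (𝓞 k) // Ideal.absNorm I = n},
      (Ideal.absNorm ((Equiv.sigmaFiberEquiv (fun I : Ideal (𝓞 k) => Ideal.absNorm I)) ⟨n, c⟩) : ℂ)
          ^ (-s) = (n : ℂ) ^ (-s) := by
    intro c
    show (Ideal.absNorm c.1 : ℂ) ^ (-s) = _
    rw [c.2]
  simp only [Function.comp_apply]
  split_ifs with hn
  · subst hn
    rw [tsum_congr h1, Nat.cast_zero, Complex.zero_cpow (neg_ne_zero.2 (eb_ne_zero hs)), tsum_zero]
  · rw [tsum_congr h1]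
    have hfin : Finite {I : Ideal (𝓞 k) // Ideal.absNorm I = n} :=
      Ideal.finite_setOfPred_absNorm_eq n
    rw [tsum_const, nsmul_eq_mul, Complex.cpow_neg, div_eq_mul_inv]

/-- nonzero primes -/
def eb_equiv (k : Type) [Field k] [NumberField k] : HeightOneSpectrum (𝓞 k) ≃ H4.PI k where
  toFun v := ⟨v.asIdeal, v.isPrime, v.ne_bot⟩
  invFun 𝔭 := ⟨𝔭.1, 𝔭.2.1, 𝔭.2.2⟩
  left_inv v := rfl
  right_inv 𝔭 := rfl

theorem eb_lt {s : ℂ} (hs : 1 < s.re) (v : HeightOneSpectrum (𝓞 k)) : ‖(nv v : ℂ) ^ (-s)‖ < 1 := by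
  have h2 := nv_two_le v
  rw [Complex.norm_natCast_cpow_of_pos (by omega), Complex.neg_re]
  refine Real.rpow_lt_one_of_one_lt_of_neg ?_ (by linarith)
  have : (2 : ℝ) ≤ nv v := by exact_mod_cast h2
  linarith

theorem eb_hasProd {s : ℂ} (hs : 1 < s.re) :
    HasProd (fun v : HeightOneSpectrum (𝓞 k) => (1 - (nv v : ℂ) ^ (-s))⁻¹) (dedekindZeta k s) := by
  have h1 := H4.ideal_euler (K := k) (g := fun 𝔞 => (Ideal.absNorm 𝔞 : ℂ) ^ (-s))
    (by rw [Ideal.absNorm_top, Nat.cast_one, Complex.one_cpow])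
    (by
      intro 𝔞 𝔟 _
      rw [map_mul, Nat.cast_mul, Complex.natCast_mul_natCast_cpow])
    ((eb_summable hs).comp_injective Subtype.val_injective)
  have h2 : ∑' 𝔞 : H4.NI k, (Ideal.absNorm 𝔞.1 : ℂ) ^ (-s) = dedekindZeta k s := by
    rw [← eb_series hs]
    refine tsum_subtype_eq_of_support_subset (s := {𝔞 : Ideal (𝓞 k) | 𝔞 ≠ ⊥})
      (f := fun 𝔞 : Ideal (𝓞 k) => (Ideal.absNorm 𝔞 : ℂ) ^ (-s)) ?_
    intro 𝔞 h𝔞 h
    subst h
    exact h𝔞 (eb_bot hs)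
  rw [h2, ← (eb_equiv k).hasProd_iff] at h1
  convert h1 using 1
  funext v
  show _ = ∑' j : ℕ, (Ideal.absNorm (v.asIdeal ^ j) : ℂ) ^ (-s)
  rw [← tsum_geometric_of_norm_lt_one (eb_lt hs v)]
  refine tsum_congr fun j => ?_
  rw [map_pow, Nat.cast_pow]
  show _ = ((nv v : ℂ) ^ j) ^ (-s)
  induction j with
  | zero => rw [pow_zero, pow_zero, Complex.one_cpow]
  | succ j ih =>
    rw [pow_succ, pow_succ, ih]
    have e := Complex.natCast_mul_natCast_cpow (nv v ^ j) (nv v) (-s)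
    push_cast at e
    exact e.symm

theorem zST_eq (S T : Finset (HeightOneSpectrum (𝓞 k))) {s : ℂ} (hs : 1 < s.re) :
    zST S T s = dedekindZeta k s * (∏ v ∈ S, (1 - (nv v : ℂ) ^ (-s))) *
      ∏ v ∈ T, (1 - (nv v : ℂ) ^ (1 - s)) := by
  classical
  have h1 := (mult_euler (k := k) hs (fun v => v ∉ S) (fun _ => 1) (fun _ => by
    rw [norm_one])).1.hasProd
  simp only [one_mul] at h1
  have h2 := S.hasProd (fun v : HeightOneSpectrum (𝓞 k) => (1 - (nv v : ℂ) ^ (-s))⁻¹)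
  have h3 := h2.mul_compl (s := (S : Set (HeightOneSpectrum (𝓞 k))))
    (b := ∏' v : {v : HeightOneSpectrum (𝓞 k) // v ∉ S}, (1 - (nv v.1 : ℂ) ^ (-s))⁻¹) h1
  have h4 := h3.unique (eb_hasProd hs)
  have hne : ∀ v : HeightOneSpectrum (𝓞 k), 1 - (nv v : ℂ) ^ (-s) ≠ 0 := fun v h => by
    have h5 := eb_lt hs v
    rw [← sub_eq_zero.1 h, norm_one] at h5
    exact lt_irrefl _ h5
  have h6 : (∏ v ∈ S, (1 - (nv v : ℂ) ^ (-s))) ≠ 0 := Finset.prod_ne_zero_iff.2 fun v _ => hne v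
  rw [← h4, Finset.prod_inv_distrib, zST]
  field_simp

theorem zST_ne_zero (S T : Finset (HeightOneSpectrum (𝓞 k))) {s : ℂ} (hs : 1 < s.re) :
    zST S T s ≠ 0 := by
  have h1 := (mult_euler (k := k) hs (fun v => v ∉ S) (fun _ => 1) (fun _ => by
    rw [norm_one])).2
  simp only [one_mul] at h1
  refine mul_ne_zero (Finset.prod_ne_zero_iff.2 fun v _ h => ?_) h1
  have h2 := nv_two_le v
  have h3 : ‖(nv v : ℂ) ^ (1 - s)‖ < 1 := by
    rw [Complex.norm_natCast_cpow_of_pos (by omega), Complex.sub_re, Complex.one_re]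
    refine Real.rpow_lt_one_of_one_lt_of_neg ?_ (by linarith)
    have : (2 : ℝ) ≤ nv v := by exact_mod_cast h2
    linarith
  rw [← sub_eq_zero.1 h, norm_one] at h3
  exact lt_irrefl _ h3

end EB

end Pool.Agent.RSK
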