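import Pool.Agent.Lib_helper17.RS.Bas
import Pool.Agent.Lib_helper41.HZF.SFE
import Pool.Agent.Lib_helper41.HZF.LAM2

/-!
# Rubin-Stark: auxiliary definitions, the Dedekind zeta function
-/

namespace Pool.Agent.RSK

open NumberField NumberField.InfinitePlace NumberField.Units IsDedekindDomain Filter Topology
  Complex MeasureTheory
open Pool.Agent.HZ

variable (K : Type) [Field K] [NumberField K]

open scoped Classical in
/-- the trivial character of ideals -/
noncomputable def trv : Ideal (𝓞 K) →* ℂ where
  toFun 𝔞 := if 𝔞 = ⊥ then 0 else 1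
  map_one' := by rw [if_neg]; exact one_ne_zero
  map_mul' a b := by
    by_cases ha : a = ⊥
    · rw [ha, if_pos rfl, if_pos (by rw [← Ideal.zero_eq_bot, zero_mul]), zero_mul]
    · by_cases hb : b = ⊥
      · rw [hb, if_pos rfl, if_pos (by rw [← Ideal.zero_eq_bot, mul_zero]), mul_zero]
      · have hab : ¬ a * b = ⊥ := fun h => (mul_ne_zero ha hb) h
        rw [if_neg ha, if_neg hb, if_neg hab, one_mul]

/-- `D(u)` for the trivial character -/
noncomputable def Dz (u : ℝ) : ℂ := Dser (trv K) (Gf (K := K) (fun _ => 0) (fun _ => 0)) u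

/-- `h/w` -/
noncomputable def hw : ℝ := (classNumber K : ℝ) / torsionOrder K

end Pool.Agent.RSK
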