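import Pool.Agent.Lib_helper17.RS.Bas
import Pool.Agent.Lib_helper17.RS.BasZ
import Pool.Agent.Lib_helper41.HZF.FET
import Pool.Agent.Lib_helper41.HZF.CLS
import Pool.Agent.Lib_helper41.HZF.NFP
import Pool.Agent.Lib_helper41.HZF.UNF2
/-!
# RS block ZA: the functional equation of `D` for the trivial character
-/

namespace Pool.Agent.RSK

open NumberField NumberField.InfinitePlace NumberField.Units IsDedekindDomain Filter Topology
  Complex MeasureTheory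
open Pool.Agent.HZ

set_option linter.unusedSectionVars false

variable (K : Type) [Field K] [NumberField K]

theorem za_Gf (y : InfinitePlace K → ℝ) :
    Gf (K := K) (fun _ => 0) (fun _ => 0) y =
      ((∏ w : InfinitePlace K, Real.exp (-(Real.pi * w.mult * y w ^ 2)) : ℝ) : ℂ) := by
  unfold Gf
  rw [Complex.ofReal_prod]
  refine Finset.prod_congr rfl fun w _ => ?_
  rw [Complex.ofReal_exp]
  simp

theorem za_Hf (y : InfinitePlace K → ℝ) (hy : ∀ w, 0 < y w) (a : K) :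
    Hf (fun _ => 0) y a =
      ((∏ w : InfinitePlace K, Real.exp (-(Real.pi * w.mult * (y w * w a) ^ 2)) : ℝ) : ℂ) := by
  unfold Hf
  rw [Complex.ofReal_prod]
  refine Finset.prod_congr rfl fun w _ => ?_
  unfold hloc
  have h1 : ‖(y w : ℂ) * w.embedding a‖ = y w * w a := by
    rw [norm_mul, Complex.norm_real, Real.norm_of_nonneg (hy w).le,
      InfinitePlace.norm_embedding_eq]
  rw [h1, Complex.ofReal_exp]
  simp

theorem za_trv_bot : trv K ⊥ = 0 := by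
  simp [trv]

theorem za_trv_ne {𝔞 : Ideal (𝓞 K)} (h : 𝔞 ≠ ⊥) : trv K 𝔞 = 1 := by
  simp [trv, h]

theorem za_trv_le (𝔞 : Ideal (𝓞 K)) : ‖trv K 𝔞‖ ≤ 1 := by
  by_cases h : 𝔞 = ⊥
  · rw [h, za_trv_bot, norm_zero]; exact zero_le_one
  · rw [za_trv_ne K h, norm_one]

theorem za_Hf_zero (y : InfinitePlace K → ℝ) (hy : ∀ w, 0 < y w) :
    Hf (fun _ => 0) y (0 : K) = 1 := by
  rw [za_Hf K y hy]
  simp

theorem za_term (𝔟 : Ideal (𝓞 K)) (y : InfinitePlace K → ℝ) (hy : ∀ w, 0 < y w) (α : 𝔟) :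
    trv K (quo 𝔟 (α : 𝓞 K)) * Gf (K := K) (fun _ => 0) (fun _ => 0)
      (fun w => y w * w ((α : 𝓞 K) : K)) =
      Hf (fun _ => 0) y ((α : 𝓞 K) : K) - (open scoped Classical in if α = 0 then (1 : ℂ) else 0) := by
  classical
  by_cases h : α = 0
  · subst h
    have h1 : (((0 : 𝔟) : 𝓞 K) : K) = 0 := by simp
    have h2 : ((0 : 𝔟) : 𝓞 K) = 0 := rfl
    rw [h1, za_Hf_zero K y hy, h2, unf_quo_zero, za_trv_bot]
    simp
  · have h0 : (α : 𝓞 K) ≠ 0 := fun h' => h (Subtype.ext h')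
    have h1 : quo 𝔟 (α : 𝓞 K) ≠ ⊥ := by
      intro h'
      have h2 := quo_spec α.2 h0
      rw [h', Ideal.mul_bot] at h2
      exact h0 (Ideal.span_singleton_eq_bot.1 h2.symm)
    rw [za_trv_ne K h1, one_mul, za_Gf, za_Hf K y hy, if_neg h, sub_zero]

theorem za_sum (𝔟 : Ideal (𝓞 K)) (y : InfinitePlace K → ℝ) (hy : ∀ w, 0 < y w) :
    ∑' α : 𝔟, trv K (quo 𝔟 (α : 𝓞 K)) * Gf (K := K) (fun _ => 0) (fun _ => 0)
      (fun w => y w * w ((α : 𝓞 K) : K)) =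
      (∑' α : 𝔟, Hf (fun _ => 0) y ((α : 𝓞 K) : K)) - 1 := by
  classical
  rw [tsum_congr (za_term K 𝔟 y hy), Summable.tsum_sub]
  · rw [tsum_ite_eq]
  · exact (fet_Hf_summable (fun _ => 0) 𝔟 y hy).of_norm
  · exact summable_of_hasFiniteSupport (Set.Finite.subset (Set.finite_singleton (0 : 𝔟))
      (fun α hα => by
        by_contra h
        apply hα
        simp only [Set.mem_singleton_iff] at h
        simp [h]))

/-- the theta function is real and at least `1` -/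
theorem za_real (𝔟 : Ideal (𝓞 K)) (y : InfinitePlace K → ℝ) (hy : ∀ w, 0 < y w) :
    ∃ t : ℝ, 1 ≤ t ∧ ∑' α : 𝔟, Hf (fun _ => 0) y ((α : 𝓞 K) : K) = (t : ℂ) := by
  have hs : Summable (fun α : 𝔟 =>
      (∏ w : InfinitePlace K, Real.exp (-(Real.pi * w.mult * (y w * w ((α : 𝓞 K) : K)) ^ 2)))) := by
    have h1 := fet_Hf_summable (fun _ => 0) 𝔟 y hy
    refine h1.congr fun α => ?_
    rw [za_Hf K y hy, Complex.norm_real, Real.norm_of_nonneg]
    exact Finset.prod_nonneg fun w _ => (Real.exp_pos _).le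
  refine ⟨∑' α : 𝔟,
      (∏ w : InfinitePlace K, Real.exp (-(Real.pi * w.mult * (y w * w ((α : 𝓞 K) : K)) ^ 2))),
      ?_, ?_⟩
  · have h1 := hs.le_tsum (0 : 𝔟) (fun α _ => Finset.prod_nonneg fun w _ => (Real.exp_pos _).le)
    refine le_trans (le_of_eq ?_) h1
    simp
  · rw [Complex.ofReal_tsum]
    exact tsum_congr fun α => za_Hf K y hy _

theorem za_poisson : ∃ C₀ : ℝ, 0 < C₀ ∧ ∀ (N : ℕ) (_ : 0 < N) (𝔟 𝔟' : Ideal (𝓞 K))
    (_ : 𝔟 * 𝔟' * differentIdeal ℤ (𝓞 K) = Ideal.span {(N : 𝓞 K)}) (u : ℝ)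
    (x : Fin (rank K) → ℝ),
    ∑' α : 𝔟, Hf (fun _ => 0) (Yv K u x) ((α : 𝓞 K) : K) =
      ((C₀ * Real.exp (-u) / Ideal.absNorm 𝔟 : ℝ) : ℂ) *
        ∑' β : 𝔟', Hf (fun _ => 0)
          (Yv K (-u - Module.finrank ℚ K * Real.log N) (-x)) ((β : 𝓞 K) : K) := by
  obtain ⟨C₀, hC₀, hP⟩ := nf_poisson (K := K)
  refine ⟨C₀, hC₀, fun N hN 𝔟 𝔟' h u x => ?_⟩
  set y : InfinitePlace K → ℝ := Yv K u x with hy_def
  have hy : ∀ w, 0 < y w := fun w => Yv_pos u x w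
  have hNR : (0 : ℝ) < N := by exact_mod_cast hN
  have hy' : Yv K (-u - Module.finrank ℚ K * Real.log N) (-x) = fun w => 1 / (N * y w) := by
    funext w
    have h1 := Yv_add (K := K) (-u - Module.finrank ℚ K * Real.log N) u (-x) x w
    have h2 : Yv K (-u - Module.finrank ℚ K * Real.log N + u) (-x + x) w = 1 / N := by
      rw [neg_add_cancel]
      unfold Yv
      have hn : (Module.finrank ℚ K : ℝ) ≠ 0 := by
        exact_mod_cast (Module.finrank_pos (R := ℚ) (M := K)).ne'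
      have h3 : (-u - Module.finrank ℚ K * Real.log N + u) / Module.finrank ℚ K =
          -Real.log N := by
        field_simp
        ring
      rw [h3, Real.exp_neg, Real.exp_log hNR]
      simp
    rw [h2] at h1
    have h4 := (hy w).ne'
    rw [eq_div_iff (by positivity), mul_comm (N : ℝ), ← mul_assoc, ← h1]
    field_simp
  have hyy : ∀ w, 0 < 1 / ((N : ℝ) * y w) := fun w => by
    have := hy w
    positivity
  have h1 := hP (fun _ => 0) (fun _ _ => Or.inl rfl) 𝔟 𝔟' N hN h y hy 0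
  rw [hy']
  have e1 : ∑' l : 𝔟, Hf (fun _ => 0) y ((0 + (l : 𝓞 K) : 𝓞 K) : K) =
      ∑' α : 𝔟, Hf (fun _ => 0) y ((α : 𝓞 K) : K) :=
    tsum_congr fun α => by rw [zero_add]
  have e2 : ∑' β : 𝔟', ee (((Algebra.trace ℚ K (((0 : 𝓞 K) * (β : 𝓞 K) : 𝓞 K) : K) : ℚ) : ℝ) / N) *
          starRingEnd ℂ (Hf (fun _ => 0) (fun w => 1 / (N * y w)) ((β : 𝓞 K) : K)) =
      ∑' β : 𝔟', Hf (fun _ => 0) (fun w => 1 / (N * y w)) ((β : 𝓞 K) : K) :=
    tsum_congr fun β => by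
      rw [za_Hf K _ hyy, Complex.conj_ofReal]
      simp [ee]
  have e3 : (∑ w : InfinitePlace K, ((fun _ => 0 : InfinitePlace K → ℤ) w).natAbs) = 0 := by simp
  rw [e1, e2, e3, pow_zero, mul_one] at h1
  rw [h1]
  congr 2
  have hprod : ∏ w, y w ^ w.mult = Real.exp u := prod_Yv u x
  rw [hprod, Real.exp_neg]
  have := Real.exp_pos u
  field_simp

theorem za_norm {𝔟 𝔟' : Ideal (𝓞 K)} {N : ℕ}
    (h : 𝔟 * 𝔟' * differentIdeal ℤ (𝓞 K) = Ideal.span {(N : 𝓞 K)}) :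
    (Ideal.absNorm 𝔟 : ℝ) * Ideal.absNorm 𝔟' * |(discr K : ℝ)| = (N : ℝ) ^ Module.finrank ℚ K := by
  have h1 := congrArg Ideal.absNorm h
  rw [map_mul, map_mul, Ideal.absNorm_span_natCast, absNorm_differentIdeal (K := K),
    RingOfIntegers.rank] at h1
  have h2 := congrArg (Nat.cast : ℕ → ℝ) h1
  push_cast at h2
  rw [← h2]
  rw [Nat.cast_natAbs, Int.cast_abs]

theorem za_ne_bot {𝔟 𝔟' : Ideal (𝓞 K)} {N : ℕ} (hN : 0 < N)
    (h : 𝔟 * 𝔟' * differentIdeal ℤ (𝓞 K) = Ideal.span {(N : 𝓞 K)}) : 𝔟 ≠ ⊥ ∧ 𝔟' ≠ ⊥ := by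
  have h0 : Ideal.span {(N : 𝓞 K)} ≠ ⊥ := by
    rw [Ne, Ideal.span_singleton_eq_bot]
    exact_mod_cast hN.ne'
  constructor
  · rintro rfl
    apply h0
    rw [← h]
    simp
  · rintro rfl
    apply h0
    rw [← h]
    simp

/-- the class functional equation -/
theorem za_scl {C₀ : ℝ} (hC : 0 < C₀) (hP : ∀ (N : ℕ) (_ : 0 < N) (𝔟 𝔟' : Ideal (𝓞 K))
    (_ : 𝔟 * 𝔟' * differentIdeal ℤ (𝓞 K) = Ideal.span {(N : 𝓞 K)}) (u : ℝ)
    (x : Fin (rank K) → ℝ),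
    ∑' α : 𝔟, Hf (fun _ => 0) (Yv K u x) ((α : 𝓞 K) : K) =
      ((C₀ * Real.exp (-u) / Ideal.absNorm 𝔟 : ℝ) : ℂ) *
        ∑' β : 𝔟', Hf (fun _ => 0)
          (Yv K (-u - Module.finrank ℚ K * Real.log N) (-x)) ((β : 𝓞 K) : K))
    (N : ℕ) (hN : 0 < N) (𝔟 𝔟' : Ideal (𝓞 K))
    (h : 𝔟 * 𝔟' * differentIdeal ℤ (𝓞 K) = Ideal.span {(N : 𝓞 K)}) (u : ℝ) :
    (torsionOrder K : ℂ) * Scl 𝔟 (trv K) (Gf (fun _ => 0) (fun _ => 0)) u + 1 =
      ((C₀ * Real.exp (-u) : ℝ) : ℂ) * ((torsionOrder K : ℂ) *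
        Scl 𝔟' (trv K) (Gf (fun _ => 0) (fun _ => 0)) (-u - Real.log |(discr K : ℝ)|) + 1) := by
  obtain ⟨C, hCG⟩ := Gf_good (K := K) (fun _ => 0)
  have hG := hCG (fun _ => 0)
  obtain ⟨hb, hb'⟩ := za_ne_bot K hN h
  set v : ℝ := u - Real.log (Ideal.absNorm 𝔟) with hv
  set v' : ℝ := -v - Module.finrank ℚ K * Real.log N with hv'
  have h1 := unfold_units hb hG (za_trv_le K) (za_trv_bot K) 1 (Or.inl rfl) v
  have h2 := unfold_units hb' hG (za_trv_le K) (za_trv_bot K) (-1) (Or.inr rfl) v'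
  have hvol : ∫ _ in Set.Icc (0 : Fin (rank K) → ℝ) 1, (1 : ℂ) = 1 := by
    rw [integral_const]
    simp [Measure.real, Real.volume_Icc_pi]
  have hone : IntegrableOn (fun _ : Fin (rank K) → ℝ => (1 : ℂ)) (Set.Icc 0 1) :=
    continuous_const.integrableOn_Icc
  have key : ∀ (𝔠 : Ideal (𝓞 K)) (ε t : ℝ) (S : ℂ),
      IntegrableOn (fun x : Fin (rank K) → ℝ => ∑' α : 𝔠, trv K (quo 𝔠 α) *
        Gf (fun _ => 0) (fun _ => 0) (fun w => Yv K t (ε • x) w * w ((α : 𝓞 K) : K)))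
        (Set.Icc 0 1) →
      ∫ x in Set.Icc (0 : Fin (rank K) → ℝ) 1, ∑' α : 𝔠, trv K (quo 𝔠 α) *
        Gf (fun _ => 0) (fun _ => 0) (fun w => Yv K t (ε • x) w * w ((α : 𝓞 K) : K)) = S →
      ∫ x in Set.Icc (0 : Fin (rank K) → ℝ) 1,
        ∑' α : 𝔠, Hf (fun _ => 0) (Yv K t (ε • x)) ((α : 𝓞 K) : K) = S + 1 := by
    intro 𝔠 ε t S hi hS
    have h3 : ∀ x : Fin (rank K) → ℝ,
        ∑' α : 𝔠, Hf (fun _ => 0) (Yv K t (ε • x)) ((α : 𝓞 K) : K) =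
        (∑' α : 𝔠, trv K (quo 𝔠 α) *
        Gf (fun _ => 0) (fun _ => 0) (fun w => Yv K t (ε • x) w * w ((α : 𝓞 K) : K))) + 1 := by
      intro x
      have h4 := za_sum K 𝔠 (Yv K t (ε • x)) (fun w => Yv_pos _ _ w)
      rw [h4]
      ring
    simp only [h3]
    rw [integral_add hi hone, hS, hvol]
  have k1 := key 𝔟 1 v _ h1.1 h1.2
  have k2 := key 𝔟' (-1) v' _ h2.1 h2.2
  have h3 : ∀ x : Fin (rank K) → ℝ,
      ∑' α : 𝔟, Hf (fun _ => 0) (Yv K v ((1 : ℝ) • x)) ((α : 𝓞 K) : K) =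
      ((C₀ * Real.exp (-v) / Ideal.absNorm 𝔟 : ℝ) : ℂ) *
        ∑' β : 𝔟', Hf (fun _ => 0) (Yv K v' ((-1 : ℝ) • x)) ((β : 𝓞 K) : K) := by
    intro x
    rw [one_smul, neg_one_smul]
    exact hP N hN 𝔟 𝔟' h v x
  simp only [h3] at k1
  rw [integral_const_mul, k2] at k1
  have hn0 : (0 : ℝ) < Ideal.absNorm 𝔟 := by
    exact_mod_cast Nat.pos_of_ne_zero (Ideal.absNorm_eq_zero_iff.not.2 hb)
  have hn0' : (0 : ℝ) < Ideal.absNorm 𝔟' := by
    exact_mod_cast Nat.pos_of_ne_zero (Ideal.absNorm_eq_zero_iff.not.2 hb')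
  have hNR : (0 : ℝ) < N := by exact_mod_cast hN
  have hnorm := za_norm K h
  have hd : 0 < |(discr K : ℝ)| := by
    have h5 : 0 < (N : ℝ) ^ Module.finrank ℚ K := by positivity
    rw [← hnorm] at h5
    exact (pos_iff_pos_of_mul_pos h5).1 (by positivity)
  have hlog : Real.log (Ideal.absNorm 𝔟) + Real.log (Ideal.absNorm 𝔟') +
      Real.log |(discr K : ℝ)| = Module.finrank ℚ K * Real.log N := by
    rw [← Real.log_mul hn0.ne' hn0'.ne', ← Real.log_mul (by positivity) hd.ne', hnorm,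
      Real.log_pow]
  have e1 : v + Real.log (Ideal.absNorm 𝔟) = u := by rw [hv]; ring
  have e2 : v' + Real.log (Ideal.absNorm 𝔟') = -u - Real.log |(discr K : ℝ)| := by
    rw [hv', hv]
    linarith
  have e3 : C₀ * Real.exp (-v) / Ideal.absNorm 𝔟 = C₀ * Real.exp (-u) := by
    rw [hv, neg_sub, sub_eq_add_neg, Real.exp_add, Real.exp_log hn0]
    field_simp
  rw [e1, e2, e3] at k1
  exact k1.symm

theorem za_const {C₀ : ℝ} (hC : 0 < C₀) (hP : ∀ (N : ℕ) (_ : 0 < N) (𝔟 𝔟' : Ideal (𝓞 K))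
    (_ : 𝔟 * 𝔟' * differentIdeal ℤ (𝓞 K) = Ideal.span {(N : 𝓞 K)}) (u : ℝ)
    (x : Fin (rank K) → ℝ),
    ∑' α : 𝔟, Hf (fun _ => 0) (Yv K u x) ((α : 𝓞 K) : K) =
      ((C₀ * Real.exp (-u) / Ideal.absNorm 𝔟 : ℝ) : ℂ) *
        ∑' β : 𝔟', Hf (fun _ => 0)
          (Yv K (-u - Module.finrank ℚ K * Real.log N) (-x)) ((β : 𝓞 K) : K))
    (N : ℕ) (hN : 0 < N) (𝔟 𝔟' : Ideal (𝓞 K))
    (h : 𝔟 * 𝔟' * differentIdeal ℤ (𝓞 K) = Ideal.span {(N : 𝓞 K)}) :
    C₀ = Real.exp (-(Real.log |(discr K : ℝ)| / 2)) := by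
  obtain ⟨hb, hb'⟩ := za_ne_bot K hN h
  have hn0 : (0 : ℝ) < Ideal.absNorm 𝔟 := by
    exact_mod_cast Nat.pos_of_ne_zero (Ideal.absNorm_eq_zero_iff.not.2 hb)
  have hn0' : (0 : ℝ) < Ideal.absNorm 𝔟' := by
    exact_mod_cast Nat.pos_of_ne_zero (Ideal.absNorm_eq_zero_iff.not.2 hb')
  have hNR : (0 : ℝ) < N := by exact_mod_cast hN
  have hnorm := za_norm K h
  have hd : 0 < |(discr K : ℝ)| := by
    have h5 : 0 < (N : ℝ) ^ Module.finrank ℚ K := by positivity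
    rw [← hnorm] at h5
    exact (pos_iff_pos_of_mul_pos h5).1 (by positivity)
  have h' : 𝔟' * 𝔟 * differentIdeal ℤ (𝓞 K) = Ideal.span {(N : 𝓞 K)} := by
    rw [mul_comm 𝔟' 𝔟]; exact h
  set u' : ℝ := -0 - Module.finrank ℚ K * Real.log N with hu'
  have h1 := hP N hN 𝔟 𝔟' h 0 0
  have h2 := hP N hN 𝔟' 𝔟 h' u' (-0)
  obtain ⟨t, ht1, ht⟩ := za_real K 𝔟 (Yv K 0 0) (fun w => Yv_pos _ _ w)
  obtain ⟨t', ht1', ht'⟩ := za_real K 𝔟' (Yv K u' (-0)) (fun w => Yv_pos _ _ w)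
  have e0 : -u' - Module.finrank ℚ K * Real.log N = 0 := by rw [hu']; ring
  rw [ht', e0, neg_neg, ht] at h2
  rw [ht, ← hu', ht'] at h1
  have h1r : t = C₀ * Real.exp (-0) / Ideal.absNorm 𝔟 * t' := by exact_mod_cast h1
  have h2r : t' = C₀ * Real.exp (-u') / Ideal.absNorm 𝔟' * t := by exact_mod_cast h2
  have e1 : Real.exp (-u') = (N : ℝ) ^ Module.finrank ℚ K := by
    rw [hu', neg_zero, zero_sub, neg_neg, ← Real.log_pow, Real.exp_log (by positivity)]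
  rw [e1, ← hnorm] at h2r
  have h3 : C₀ ^ 2 * |(discr K : ℝ)| = 1 := by
    have ht0 : t ≠ 0 := by linarith
    have h4 : t = C₀ ^ 2 * |(discr K : ℝ)| * t := by
      rw [h2r] at h1r
      nth_rewrite 1 [h1r]
      rw [neg_zero, Real.exp_zero]
      field_simp
    have h5 : (C₀ ^ 2 * |(discr K : ℝ)| - 1) * t = 0 := by linarith
    rcases mul_eq_zero.1 h5 with h6 | h6
    · linarith
    · exact absurd h6 ht0
  have h4 : Real.log C₀ = -(Real.log |(discr K : ℝ)| / 2) := by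
    have h5 := congrArg Real.log h3
    rw [Real.log_mul (by positivity) hd.ne', Real.log_pow, Real.log_one] at h5
    push_cast at h5
    linarith
  rw [← h4, Real.exp_log hC]

theorem dz_fe (u : ℝ) :
    Dz K u + (hw K * Real.exp (u / 2) : ℝ) =
      Dz K (-u - Real.log |(discr K : ℝ)|) +
        (hw K * Real.exp ((-u - Real.log |(discr K : ℝ)|) / 2) : ℝ) := by
  classical
  obtain ⟨C₀, hC₀, hP⟩ := za_poisson K
  obtain ⟨C, hCG⟩ := Gf_good (K := K) (fun _ => 0)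
  have hG := hCG (fun _ => 0)
  have hle := za_trv_le K
  have hbot := za_trv_bot K
  have hsurj := ClassGroup.mk0_surjective (R := 𝓞 K)
  choose r hr using hsurj
  set rep : ClassGroup (𝓞 K) → Ideal (𝓞 K) := fun c => (r c : Ideal (𝓞 K)) with hrepd
  have h0 : ∀ c, rep c ≠ ⊥ := fun c => nonZeroDivisors.ne_zero (r c).2
  have hrep : ∀ c, ClassGroup.mk0 ⟨rep c, mem_nonZeroDivisors_of_ne_zero (h0 c)⟩ = c :=
    fun c => hr c
  have hdiff : differentIdeal ℤ (𝓞 K) ≠ ⊥ := differentIdeal_ne_bot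
  set J : Ideal (𝓞 K) := differentIdeal ℤ (𝓞 K) * ∏ c, rep c with hJ
  have hJ0 : J ≠ ⊥ := by
    rw [hJ]
    refine mul_ne_zero hdiff ?_
    exact Finset.prod_ne_zero_iff.2 fun c _ => h0 c
  set N : ℕ := Ideal.absNorm J with hN
  have hN0 : 0 < N := Nat.pos_of_ne_zero (Ideal.absNorm_eq_zero_iff.not.2 hJ0)
  have hJN : J ∣ Ideal.span {(N : 𝓞 K)} := by
    rw [Ideal.dvd_span_singleton]
    exact Ideal.absNorm_mem J
  have hex : ∀ c, ∃ b' : Ideal (𝓞 K),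
      rep c * b' * differentIdeal ℤ (𝓞 K) = Ideal.span {(N : 𝓞 K)} := by
    intro c
    have h1 : rep c * differentIdeal ℤ (𝓞 K) ∣ Ideal.span {(N : 𝓞 K)} := by
      refine dvd_trans ?_ hJN
      rw [hJ]
      have h2 : rep c ∣ ∏ c, rep c := Finset.dvd_prod_of_mem _ (Finset.mem_univ c)
      obtain ⟨t, ht⟩ := h2
      refine ⟨t, ?_⟩
      rw [ht]
      ring
    obtain ⟨t, ht⟩ := h1
    refine ⟨t, ?_⟩
    rw [ht]
    ring
  choose b' hb' using hex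
  have hb0 : ∀ c, b' c ≠ ⊥ := fun c => (za_ne_bot K hN0 (hb' c)).2
  set σ : ClassGroup (𝓞 K) → ClassGroup (𝓞 K) := fun c =>
    ClassGroup.mk0 ⟨b' c, mem_nonZeroDivisors_of_ne_zero (hb0 c)⟩ with hσ
  have hNne : Ideal.span {(N : 𝓞 K)} ≠ ⊥ := by
    rw [Ne, Ideal.span_singleton_eq_bot]
    exact_mod_cast hN0.ne'
  have hprod : ∀ c, c * σ c *
      ClassGroup.mk0 ⟨differentIdeal ℤ (𝓞 K), mem_nonZeroDivisors_of_ne_zero hdiff⟩ =
      ClassGroup.mk0 ⟨Ideal.span {(N : 𝓞 K)}, mem_nonZeroDivisors_of_ne_zero hNne⟩ := by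
    intro c
    have h1 : ClassGroup.mk0 ⟨rep c, mem_nonZeroDivisors_of_ne_zero (h0 c)⟩ *
        ClassGroup.mk0 ⟨b' c, mem_nonZeroDivisors_of_ne_zero (hb0 c)⟩ *
        ClassGroup.mk0 ⟨differentIdeal ℤ (𝓞 K), mem_nonZeroDivisors_of_ne_zero hdiff⟩ =
        ClassGroup.mk0 ⟨Ideal.span {(N : 𝓞 K)}, mem_nonZeroDivisors_of_ne_zero hNne⟩ := by
      rw [← map_mul, ← map_mul]
      congr 1
      exact Subtype.ext (hb' c)
    rw [hrep c] at h1
    exact h1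
  have hinj : Function.Injective σ := by
    intro c c' h
    have h1 := (hprod c).trans (hprod c').symm
    rw [h] at h1
    exact mul_right_cancel (mul_right_cancel h1)
  have hbij : Function.Bijective σ := Finite.injective_iff_bijective.1 hinj
  have hsum0 : ∀ v : ℝ, ∑ c, Scl (rep c) (trv K) (Gf (fun _ => 0) (fun _ => 0)) v =
      (Real.exp (-(v / 2)) : ℂ) * Dz K v := by
    intro v
    unfold Dz
    rw [Dser_classes rep h0 hrep hG hle hbot, ← mul_assoc, ← Complex.ofReal_mul, ← Real.exp_add,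
      neg_add_cancel, Real.exp_zero, Complex.ofReal_one, one_mul]
  have hsum1 : ∀ v : ℝ, ∑ c, Scl (b' c) (trv K) (Gf (fun _ => 0) (fun _ => 0)) v =
      (Real.exp (-(v / 2)) : ℂ) * Dz K v := by
    intro v
    rw [← hsum0 v, ← hbij.sum_comp (fun c => Scl (rep c) (trv K) (Gf (fun _ => 0) (fun _ => 0)) v)]
    refine Finset.sum_congr rfl fun c _ => ?_
    exact Scl_congr _ _ (hb0 c) (h0 (σ c)) (hrep (σ c)).symm _ _ _ hbot
  set L : ℝ := Real.log |(discr K : ℝ)| with hL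
  have hCe : C₀ = Real.exp (-(L / 2)) :=
    za_const K hC₀ hP N hN0 (rep 1) (b' 1) (hb' 1)
  have hmain : (torsionOrder K : ℂ) * ∑ c, Scl (rep c) (trv K) (Gf (fun _ => 0) (fun _ => 0)) u +
      (classNumber K : ℂ) = ((C₀ * Real.exp (-u) : ℝ) : ℂ) * ((torsionOrder K : ℂ) *
        ∑ c, Scl (b' c) (trv K) (Gf (fun _ => 0) (fun _ => 0)) (-u - L) + (classNumber K : ℂ)) := by
    have hcard : (classNumber K : ℂ) = ∑ _c : ClassGroup (𝓞 K), (1 : ℂ) := by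
      rw [Finset.sum_const, nsmul_eq_mul, mul_one, Finset.card_univ]
      rfl
    rw [hcard, Finset.mul_sum, Finset.mul_sum, ← Finset.sum_add_distrib, ← Finset.sum_add_distrib,
      Finset.mul_sum]
    exact Finset.sum_congr rfl fun c _ => za_scl K hC₀ hP N hN0 (rep c) (b' c) (hb' c) u
  rw [hsum0, hsum1] at hmain
  have ht : (torsionOrder K : ℂ) ≠ 0 := by
    have := torsionOrder_ne_zero (K := K)
    exact_mod_cast this
  have hhw : ((hw K : ℝ) : ℂ) = (classNumber K : ℂ) / (torsionOrder K : ℂ) := by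
    unfold hw
    push_cast
    rfl
  have E1 : (Real.exp (u / 2) : ℂ) * (Real.exp (-(u / 2)) : ℂ) = 1 := by
    rw [← Complex.ofReal_mul, ← Real.exp_add, add_neg_cancel, Real.exp_zero, Complex.ofReal_one]
  have E2 : (Real.exp (u / 2) : ℂ) * ((C₀ * Real.exp (-u) : ℝ) : ℂ) *
      (Real.exp (-((-u - L) / 2)) : ℂ) = 1 := by
    rw [hCe, ← Complex.ofReal_mul, ← Complex.ofReal_mul, ← Real.exp_add, ← Real.exp_add,
      ← Real.exp_add]
    have : u / 2 + (-(L / 2) + -u) + -((-u - L) / 2) = 0 := by ring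
    rw [this, Real.exp_zero, Complex.ofReal_one]
  have E3 : (Real.exp (u / 2) : ℂ) * ((C₀ * Real.exp (-u) : ℝ) : ℂ) =
      (Real.exp ((-u - L) / 2) : ℂ) := by
    rw [hCe, ← Complex.ofReal_mul, ← Real.exp_add, ← Real.exp_add]
    congr 2
    ring
  have hm2 := congrArg (fun z => (Real.exp (u / 2) : ℂ) * z / (torsionOrder K : ℂ)) hmain
  have hL1 : (Real.exp (u / 2) : ℂ) * ((torsionOrder K : ℂ) *
      ((Real.exp (-(u / 2)) : ℂ) * Dz K u) + (classNumber K : ℂ)) / (torsionOrder K : ℂ) =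
      Dz K u + (hw K * Real.exp (u / 2) : ℝ) := by
    rw [Complex.ofReal_mul, hhw]
    have : (Real.exp (u / 2) : ℂ) * ((torsionOrder K : ℂ) *
      ((Real.exp (-(u / 2)) : ℂ) * Dz K u) + (classNumber K : ℂ)) =
      (torsionOrder K : ℂ) * (((Real.exp (u / 2) : ℂ) * (Real.exp (-(u / 2)) : ℂ)) * Dz K u) +
        (classNumber K : ℂ) * (Real.exp (u / 2) : ℂ) := by ring
    rw [this, E1, one_mul]
    field_simp
  have hR1 : (Real.exp (u / 2) : ℂ) * (((C₀ * Real.exp (-u) : ℝ) : ℂ) * ((torsionOrder K : ℂ) *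
      ((Real.exp (-((-u - L) / 2)) : ℂ) * Dz K (-u - L)) + (classNumber K : ℂ))) /
        (torsionOrder K : ℂ) =
      Dz K (-u - L) + (hw K * Real.exp ((-u - L) / 2) : ℝ) := by
    have e0 : ((hw K * Real.exp ((-u - L) / 2) : ℝ) : ℂ) =
        (hw K : ℂ) * (Real.exp ((-u - L) / 2) : ℂ) := Complex.ofReal_mul _ _
    rw [e0, hhw, ← E3]
    have : (Real.exp (u / 2) : ℂ) * (((C₀ * Real.exp (-u) : ℝ) : ℂ) * ((torsionOrder K : ℂ) *
      ((Real.exp (-((-u - L) / 2)) : ℂ) * Dz K (-u - L)) + (classNumber K : ℂ))) =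
      (torsionOrder K : ℂ) * (((Real.exp (u / 2) : ℂ) * ((C₀ * Real.exp (-u) : ℝ) : ℂ) *
        (Real.exp (-((-u - L) / 2)) : ℂ)) * Dz K (-u - L)) +
        (classNumber K : ℂ) * ((Real.exp (u / 2) : ℂ) * ((C₀ * Real.exp (-u) : ℝ) : ℂ)) := by ring
    rw [this, E2, one_mul]
    field_simp
  rw [hL1, hR1] at hm2
  exact hm2

end Pool.Agent.RSK
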