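import Pool.Agent.Lib_helper17.RS.Bas
import Pool.Agent.Lib_helper17.RS.BasZ
import Pool.Agent.Lib_helper17.RS.P_ZA
import Pool.Agent.Lib_helper41.HZF.SUM
import Pool.Agent.Lib_helper41.HZF.KG
namespace Pool.Agent.RSK

open NumberField NumberField.InfinitePlace NumberField.Units IsDedekindDomain Filter Topology
  Complex MeasureTheory
open Pool.Agent.HZ

/-- half line Mellin transforms are entire -/
theorem zb_half {D : ℝ → ℂ} (hD : Continuous D) (c : ℝ)
    (hdec : ∀ A : ℝ, ∃ C : ℝ, ∀ u : ℝ, c ≤ u → ‖D u‖ ≤ C * Real.exp (-(A * |u|))) :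
    (∀ s : ℂ, IntegrableOn (fun u : ℝ => D u * cexp ((s - 1 / 2) * u)) (Set.Ioi c)) ∧
    Differentiable ℂ (fun s : ℂ => ∫ u in Set.Ioi c, D u * cexp ((s - 1 / 2) * u)) := by
  have hcont : ∀ s : ℂ, Continuous (fun u : ℝ => D u * cexp ((s - 1 / 2) * u)) := by
    intro s
    fun_prop
  have key : ∀ s₀ : ℂ, ∃ C : ℝ, (∀ s ∈ Metric.ball s₀ 1, ∀ u : ℝ, c ≤ u →
      ‖D u * (cexp ((s - 1 / 2) * u) * u)‖ ≤ C * Real.exp (-|u|)) ∧
      ∀ u : ℝ, c ≤ u → ‖D u * cexp ((s₀ - 1 / 2) * u)‖ ≤ C * Real.exp (-|u|) := by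
    intro s₀
    obtain ⟨C, hC⟩ := hdec (|s₀.re| + 4)
    have hexp : ∀ s ∈ Metric.ball s₀ 1, ∀ u : ℝ, ‖cexp ((s - 1 / 2) * u)‖ ≤
        Real.exp ((|s₀.re| + 2) * |u|) := by
      intro s hs u
      rw [Complex.norm_exp]
      apply Real.exp_le_exp.mpr
      have h1 : ((s - 1 / 2) * (u : ℂ)).re = (s.re - 1 / 2) * u := by
        rw [Complex.mul_re, Complex.ofReal_re, Complex.ofReal_im]
        simp
      rw [h1]
      calc (s.re - 1 / 2) * u ≤ |(s.re - 1 / 2) * u| := le_abs_self _
        _ = |s.re - 1 / 2| * |u| := abs_mul _ _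
        _ ≤ (|s₀.re| + 2) * |u| := by
            refine mul_le_mul_of_nonneg_right ?_ (abs_nonneg _)
            have h2 : |s.re - s₀.re| ≤ 1 := by
              have : |(s - s₀).re| ≤ ‖s - s₀‖ := Complex.abs_re_le_norm _
              rw [Complex.sub_re] at this
              rw [Metric.mem_ball, dist_eq_norm] at hs
              linarith
            have h3 : |s.re - 1 / 2| ≤ |s.re - s₀.re| + |s₀.re| + 1 / 2 := by
              rw [abs_le] at h2 ⊢
              have h4 := le_abs_self s₀.re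
              have h5 := neg_abs_le s₀.re
              have h6 := le_abs_self (s.re - s₀.re)
              have h7 := neg_abs_le (s.re - s₀.re)
              constructor <;> linarith
            linarith
    have hu : ∀ u : ℝ, |u| ≤ Real.exp |u| := fun u => by
      have := Real.add_one_le_exp |u|
      linarith
    refine ⟨C, ?_, ?_⟩
    · intro s hs u hcu
      rw [norm_mul, norm_mul, Complex.norm_real, Real.norm_eq_abs]
      have hC0 : 0 ≤ C * Real.exp (-((|s₀.re| + 4) * |u|)) := le_trans (norm_nonneg _) (hC u hcu)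
      calc ‖D u‖ * (‖cexp ((s - 1 / 2) * u)‖ * |u|)
          ≤ (C * Real.exp (-((|s₀.re| + 4) * |u|))) *
            (Real.exp ((|s₀.re| + 2) * |u|) * Real.exp |u|) := by
            refine mul_le_mul (hC u hcu) ?_ (by positivity) hC0
            exact mul_le_mul (hexp s hs u) (hu u) (abs_nonneg _) (by positivity)
        _ = C * Real.exp (-|u|) := by
            rw [mul_assoc, ← Real.exp_add, ← Real.exp_add]
            congr 2
            ring
    · intro u hcu
      rw [norm_mul]
      have hC0 : 0 ≤ C * Real.exp (-((|s₀.re| + 4) * |u|)) := le_trans (norm_nonneg _) (hC u hcu)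
      calc ‖D u‖ * ‖cexp ((s₀ - 1 / 2) * u)‖
          ≤ (C * Real.exp (-((|s₀.re| + 4) * |u|))) *
            (Real.exp ((|s₀.re| + 2) * |u|) * Real.exp |u|) := by
            refine mul_le_mul (hC u hcu) ?_ (by positivity) hC0
            refine le_trans (hexp s₀ (Metric.mem_ball_self one_pos) u) ?_
            exact le_mul_of_one_le_right (by positivity) (Real.one_le_exp (abs_nonneg _))
        _ = C * Real.exp (-|u|) := by
            rw [mul_assoc, ← Real.exp_add, ← Real.exp_add]
            congr 2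
            ring
  have hmem : ∀ᵐ u ∂(volume.restrict (Set.Ioi c)), c ≤ u := by
    filter_upwards [ae_restrict_mem measurableSet_Ioi] with u hu
    exact le_of_lt hu
  have hint : ∀ C : ℝ, Integrable (fun u : ℝ => C * Real.exp (-|u|)) (volume.restrict (Set.Ioi c)) :=
    fun C => (lam2_int_exp.const_mul C).restrict
  constructor
  · intro s
    obtain ⟨C, -, hC⟩ := key s
    refine (hint C).mono' (hcont s).aestronglyMeasurable ?_
    filter_upwards [hmem] with u hu
    exact hC u hu
  · intro s₀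
    obtain ⟨C, hbd, hbd0⟩ := key s₀
    have h := hasDerivAt_integral_of_dominated_loc_of_deriv_le (μ := volume.restrict (Set.Ioi c))
      (F := fun (s : ℂ) (u : ℝ) => D u * cexp ((s - 1 / 2) * u))
      (F' := fun (s : ℂ) (u : ℝ) => D u * (cexp ((s - 1 / 2) * u) * u))
      (x₀ := s₀) (s := Metric.ball s₀ 1) (bound := fun u => C * Real.exp (-|u|))
      (Metric.ball_mem_nhds s₀ one_pos)
      (Eventually.of_forall fun s => (hcont s).aestronglyMeasurable)
      ((hint C).mono' (hcont s₀).aestronglyMeasurable (by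
        filter_upwards [hmem] with u hu
        exact hbd0 u hu))
      (by
        apply Continuous.aestronglyMeasurable
        fun_prop)
      (by
        filter_upwards [hmem] with u hu s hs
        exact hbd s hs u hu) (hint C)
      (Eventually.of_forall fun u s _ => by
        have h1 : HasDerivAt (fun s : ℂ => (s - 1 / 2) * (u : ℂ)) (u : ℂ) s := by
          have := ((hasDerivAt_id s).sub_const (1 / 2 : ℂ)).mul_const (u : ℂ)
          simpa using this
        exact (h1.cexp).const_mul (D u))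
    exact h.2.differentiableAt

/-- Riemann's splitting -/
theorem zb_split {D : ℝ → ℂ} (hD : Continuous D) (h L : ℝ)
    (hle : ∀ A : ℝ, 1 / 2 < A → ∃ C : ℝ, 0 ≤ C ∧ ∀ u : ℝ, ‖D u‖ ≤ C * Real.exp (-(A * u)))
    (hfe : ∀ u : ℝ, D u + (h * Real.exp (u / 2) : ℝ) =
      D (-u - L) + (h * Real.exp ((-u - L) / 2) : ℝ)) :
    ∃ J : ℂ → ℂ, Differentiable ℂ J ∧ ∀ s : ℂ, 1 < s.re →
      ∫ u : ℝ, D u * cexp ((s - 1 / 2) * u) =
        J s + cexp ((1 / 2 - s) * L) * J (1 - s) +
          h * cexp (-s * (L / 2)) * (1 / (s - 1) - 1 / s) := by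
  set c : ℝ := -(L / 2) with hc
  have hdec : ∀ A : ℝ, ∃ C : ℝ, ∀ u : ℝ, c ≤ u → ‖D u‖ ≤ C * Real.exp (-(A * |u|)) := by
    intro A
    obtain ⟨C, hC, h1⟩ := hle (|A| + 1) (by have := abs_nonneg A; linarith)
    refine ⟨C * Real.exp (2 * (|A| + 1) * |c|), fun u hu => (h1 u).trans ?_⟩
    rw [mul_assoc, ← Real.exp_add]
    refine mul_le_mul_of_nonneg_left (Real.exp_le_exp.2 ?_) hC
    have hA := le_abs_self A
    have hA0 := abs_nonneg A
    have hu0 := abs_nonneg u
    rcases le_or_gt 0 u with h0 | h0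
    · rw [abs_of_nonneg h0] at *
      have : 0 ≤ 2 * (|A| + 1) * |c| := by positivity
      nlinarith
    · rw [abs_of_neg h0]
      have hc0 : |u| ≤ |c| := by
        rw [abs_of_neg h0, abs_of_neg (lt_of_le_of_lt hu h0)]
        linarith
      rw [abs_of_neg h0] at hc0
      nlinarith
  obtain ⟨hi, hJ⟩ := zb_half hD c hdec
  refine ⟨_, hJ, fun s hs => ?_⟩
  have hs0 : s ≠ 0 := by
    rintro rfl
    norm_num at hs
  have hs1 : s - 1 ≠ 0 := by
    intro h'
    have : s = 1 := by linear_combination h'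
    rw [this] at hs
    norm_num at hs
  -- the function on the left half line
  set F : ℝ → ℂ := fun v => D v * cexp ((1 / 2 - s) * (v + L)) with hF
  have hFi : IntegrableOn F (Set.Ioi c) := by
    have := (hi (1 - s)).const_mul (cexp ((1 / 2 - s) * L))
    refine this.congr (Eventually.of_forall fun v => ?_)
    simp only [hF]
    have e : (1 / 2 - s) * ((v : ℂ) + L) = (1 / 2 - s) * L + (1 - s - 1 / 2) * v := by ring
    rw [e, Complex.exp_add]
    ring
  have hFv : ∫ v in Set.Ioi c, F v = cexp ((1 / 2 - s) * L) *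
      ∫ u in Set.Ioi c, D u * cexp ((1 - s - 1 / 2) * u) := by
    rw [← integral_const_mul]
    refine integral_congr_ae (Eventually.of_forall fun v => ?_)
    simp only [hF]
    have e : (1 / 2 - s) * ((v : ℂ) + L) = (1 / 2 - s) * L + (1 - s - 1 / 2) * v := by ring
    rw [e, Complex.exp_add]
    ring
  have hmp : MeasurePreserving (fun u : ℝ => -L - u) volume volume :=
    Measure.measurePreserving_sub_left volume (-L)
  have hemb : MeasurableEmbedding (fun u : ℝ => -L - u) :=
    (Homeomorph.subLeft (-L : ℝ)).measurableEmbedding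
  have hpre : (fun u : ℝ => -L - u) ⁻¹' Set.Ioi c = Set.Iio c := by
    ext u
    simp only [Set.mem_preimage, Set.mem_Ioi, Set.mem_Iio, hc]
    constructor <;> intro h' <;> linarith
  have hFi' : IntegrableOn (fun u => F (-L - u)) (Set.Iio c) := by
    rw [← hpre]
    exact (hmp.integrableOn_comp_preimage hemb).2 hFi
  have hFv' : ∫ u in Set.Iio c, F (-L - u) = ∫ v in Set.Ioi c, F v := by
    rw [← hpre]
    exact hmp.setIntegral_preimage_emb hemb F _
  have hre1 : 0 < (s - 1).re := by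
    rw [Complex.sub_re, Complex.one_re]
    linarith
  have hre0 : 0 < s.re := by linarith
  have hE1 := integrableOn_exp_mul_complex_Iic hre1 c
  have hE0 := integrableOn_exp_mul_complex_Iic hre0 c
  have heq : ∀ u : ℝ, D u * cexp ((s - 1 / 2) * u) = F (-L - u) +
      ((h * Real.exp (-(L / 2)) : ℝ) : ℂ) * cexp ((s - 1) * u) - (h : ℂ) * cexp (s * u) := by
    intro u
    have h1 := hfe u
    have h2 : D u = D (-L - u) + (h * Real.exp ((-u - L) / 2) : ℝ) - (h * Real.exp (u / 2) : ℝ) := by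
      have : -L - u = -u - L := by ring
      rw [this]
      linear_combination h1
    simp only [hF]
    rw [h2]
    have e1 : (1 / 2 - s) * (((-L - u : ℝ) : ℂ) + L) = (s - 1 / 2) * u := by
      push_cast
      ring
    have e2 : cexp ((s - 1) * u) * ((Real.exp (-(L / 2)) : ℝ) : ℂ) =
        ((Real.exp ((-u - L) / 2) : ℝ) : ℂ) * cexp ((s - 1 / 2) * u) := by
      rw [Complex.ofReal_exp, Complex.ofReal_exp, ← Complex.exp_add, ← Complex.exp_add]
      congr 1
      push_cast
      ring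
    have e3 : cexp (s * u) = ((Real.exp (u / 2) : ℝ) : ℂ) * cexp ((s - 1 / 2) * u) := by
      rw [Complex.ofReal_exp, ← Complex.exp_add]
      congr 1
      push_cast
      ring
    rw [e1, e3]
    push_cast at e2 ⊢
    linear_combination (-(h : ℂ)) * e2
  have hleft : IntegrableOn (fun u : ℝ => D u * cexp ((s - 1 / 2) * u)) (Set.Iio c) ∧
      ∫ u in Set.Iio c, D u * cexp ((s - 1 / 2) * u) = (∫ v in Set.Ioi c, F v) +
        ((h * Real.exp (-(L / 2)) : ℝ) : ℂ) * (cexp ((s - 1) * c) / (s - 1)) -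
        (h : ℂ) * (cexp (s * c) / s) := by
    have hE1' : IntegrableOn (fun u : ℝ => cexp ((s - 1) * u)) (Set.Iio c) :=
      hE1.mono_set Set.Iio_subset_Iic_self
    have hE0' : IntegrableOn (fun u : ℝ => cexp (s * u)) (Set.Iio c) :=
      hE0.mono_set Set.Iio_subset_Iic_self
    have hv1 : ∫ u in Set.Iio c, cexp ((s - 1) * (u : ℂ)) = cexp ((s - 1) * c) / (s - 1) := by
      rw [← integral_Iic_eq_integral_Iio, integral_exp_mul_complex_Iic hre1 c]
    have hv0 : ∫ u in Set.Iio c, cexp (s * (u : ℂ)) = cexp (s * c) / s := by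
      rw [← integral_Iic_eq_integral_Iio, integral_exp_mul_complex_Iic hre0 c]
    have hfun : (fun u : ℝ => D u * cexp ((s - 1 / 2) * u)) = fun u : ℝ => F (-L - u) +
      ((h * Real.exp (-(L / 2)) : ℝ) : ℂ) * cexp ((s - 1) * u) - (h : ℂ) * cexp (s * u) :=
      funext heq
    rw [hfun]
    have hA : Integrable (fun u : ℝ => F (-L - u) +
        ((h * Real.exp (-(L / 2)) : ℝ) : ℂ) * cexp ((s - 1) * u)) (volume.restrict (Set.Iio c)) :=
      hFi'.add (hE1'.const_mul _)
    have hB : Integrable (fun u : ℝ => (h : ℂ) * cexp (s * u)) (volume.restrict (Set.Iio c)) :=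
      hE0'.const_mul _
    have hC : Integrable (fun u : ℝ => ((h * Real.exp (-(L / 2)) : ℝ) : ℂ) * cexp ((s - 1) * u))
      (volume.restrict (Set.Iio c)) := hE1'.const_mul _
    refine ⟨hA.sub hB, ?_⟩
    rw [integral_sub hA hB, integral_add hFi' hC, integral_const_mul, integral_const_mul, hv1, hv0,
      hFv']
  have hright := hi s
  have hIic : IntegrableOn (fun u : ℝ => D u * cexp ((s - 1 / 2) * u)) (Set.Iic c) :=
    hleft.1.congr_set_ae Iio_ae_eq_Iic.symm
  have htot : ∫ u : ℝ, D u * cexp ((s - 1 / 2) * u) =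
      (∫ u in Set.Iic c, D u * cexp ((s - 1 / 2) * u)) +
        ∫ u in Set.Ioi c, D u * cexp ((s - 1 / 2) * u) :=
    (intervalIntegral.integral_Iic_add_Ioi hIic hright).symm
  rw [htot, integral_Iic_eq_integral_Iio, hleft.2, hFv]
  have e1 : cexp ((s - 1) * c) = cexp (-s * (L / 2)) * cexp (L / 2) := by
    rw [← Complex.exp_add, hc]
    congr 1
    push_cast
    ring
  have e2 : ((h * Real.exp (-(L / 2)) : ℝ) : ℂ) * cexp (L / 2) = h := by
    push_cast
    rw [mul_assoc, ← Complex.exp_add]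
    simp
  have e3 : cexp (s * c) = cexp (-s * (L / 2)) := by
    rw [hc]
    congr 1
    push_cast
    ring
  rw [e1, e3]
  have e4 : ((h * Real.exp (-(L / 2)) : ℝ) : ℂ) * (cexp (-s * (L / 2)) * cexp (L / 2) / (s - 1)) =
      h * cexp (-s * (L / 2)) * (1 / (s - 1)) := by
    rw [← e2]
    field_simp
  rw [e4]
  field_simp
  ring

theorem zb_trv_le (K : Type) [Field K] [NumberField K] (𝔞 : Ideal (𝓞 K)) : ‖trv K 𝔞‖ ≤ 1 := by
  classical
  by_cases h : 𝔞 = ⊥
  · have : trv K 𝔞 = 0 := if_pos h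
    rw [this, norm_zero]
    exact zero_le_one
  · have : trv K 𝔞 = 1 := if_neg h
    rw [this, norm_one]

theorem zb_trv_bot (K : Type) [Field K] [NumberField K] : trv K ⊥ = 0 := by
  classical
  exact if_pos rfl

theorem dz_cont (K : Type) [Field K] [NumberField K] :
    ∃ (C₀ : ℝ) (Λ : ℂ → ℂ), 0 < C₀ ∧ MeromorphicOn Λ Set.univ ∧
    (∀ s : ℂ, 1 < s.re → Λ s = C₀ * gam (K := K) (fun _ => 0) (fun _ => 0) s *
      ∑' 𝔞 : Ideal (𝓞 K), trv K 𝔞 * (Ideal.absNorm 𝔞 : ℂ) ^ (-s)) ∧
    Tendsto (fun s : ℂ => s * Λ s) (𝓝[≠] 0) (𝓝 (-(hw K : ℂ))) ∧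
    Tendsto (fun s : ℂ => (s - 1) * Λ s) (𝓝[≠] 1)
      (𝓝 ((hw K : ℂ) / (Real.sqrt |(discr K : ℝ)| : ℂ))) := by
  obtain ⟨C₀, hC₀, hk⟩ := mellin_kint (K := K)
  obtain ⟨C, hgood⟩ := Gf_good (K := K) (fun _ => 0)
  have hG := hgood (fun _ => 0)
  have hDc : Continuous (Dz K) := Dser_continuous hG (zb_trv_le K) (zb_trv_bot K)
  obtain ⟨J, hJ, hsp⟩ := zb_split hDc (hw K) (Real.log |(discr K : ℝ)|)
    (fun A hA => Dser_le hG (zb_trv_le K) (zb_trv_bot K) hA) (fun u => dz_fe K u)
  set L : ℝ := Real.log |(discr K : ℝ)| with hL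
  have hJ1 : Differentiable ℂ (fun s : ℂ => J (1 - s)) :=
    hJ.comp (differentiable_const 1 |>.sub differentiable_id)
  set R : ℂ → ℂ := fun s => J s + cexp ((1 / 2 - s) * L) * J (1 - s) with hR
  have hRd : Differentiable ℂ R := by
    have h1 : Differentiable ℂ (fun s : ℂ => cexp ((1 / 2 - s) * L)) := by fun_prop
    exact hJ.add (h1.mul hJ1)
  have hEd : Differentiable ℂ (fun s : ℂ => (hw K : ℂ) * cexp (-s * (L / 2))) := by fun_prop
  refine ⟨C₀, fun s => R s + (hw K : ℂ) * cexp (-s * (L / 2)) * (1 / (s - 1) - 1 / s), hC₀,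
    ?_, ?_, ?_, ?_⟩
  · intro x _
    have h1 : MeromorphicAt R x := (hRd.analyticAt x).meromorphicAt
    have h2 : MeromorphicAt (fun s : ℂ => (hw K : ℂ) * cexp (-s * (L / 2))) x :=
      (hEd.analyticAt x).meromorphicAt
    have h3 : MeromorphicAt (fun s : ℂ => 1 / (s - 1) - 1 / s) x := by
      have a1 : MeromorphicAt (fun s : ℂ => s - 1) x := by
        have : Differentiable ℂ (fun s : ℂ => s - 1) := by fun_prop
        exact (this.analyticAt x).meromorphicAt
      have a2 : MeromorphicAt (fun s : ℂ => s) x := MeromorphicAt.id x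
      have a3 : MeromorphicAt (fun _ : ℂ => (1 : ℂ)) x := MeromorphicAt.const 1 x
      exact (a3.div a1).sub (a3.div a2)
    exact h1.add (h2.mul h3)
  · intro s hs
    rw [← (hk (fun _ => 0) (fun _ => 0) s (by linarith)).2, ← mellin_Dser (zb_trv_le K) (zb_trv_bot K) hs]
    exact (hsp s hs).symm
  · have h1 : Tendsto (fun s : ℂ => s * R s + (hw K : ℂ) * cexp (-s * (L / 2)) * (s / (s - 1) - 1))
        (𝓝 0) (𝓝 (0 * R 0 + (hw K : ℂ) * cexp (-0 * (L / 2)) * (0 / (0 - 1) - 1))) := by
      have c1 : ContinuousAt (fun s : ℂ => s * R s + (hw K : ℂ) * cexp (-s * (L / 2)) *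
          (s / (s - 1) - 1)) 0 := by
        have d1 : ContinuousAt R 0 := hRd.continuous.continuousAt
        have d2 : ContinuousAt (fun s : ℂ => s / (s - 1)) 0 := by
          refine ContinuousAt.div continuousAt_id (by fun_prop) ?_
          norm_num
        have d3 : ContinuousAt (fun s : ℂ => (hw K : ℂ) * cexp (-s * (L / 2))) 0 :=
          hEd.continuous.continuousAt
        exact (continuousAt_id.mul d1).add (d3.mul (d2.sub continuousAt_const))
      exact c1
    have h2 : (0 : ℂ) * R 0 + (hw K : ℂ) * cexp (-0 * (L / 2)) * (0 / (0 - 1) - 1) =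
        -(hw K : ℂ) := by
      simp
    rw [h2] at h1
    refine (h1.mono_left nhdsWithin_le_nhds).congr' ?_
    filter_upwards [self_mem_nhdsWithin] with s hs
    have hs0 : s ≠ 0 := hs
    have e : s * (1 / (s - 1) - 1 / s) = s / (s - 1) - 1 := by
      rw [mul_sub, mul_one_div, mul_one_div_cancel hs0]
    linear_combination (-((hw K : ℂ) * cexp (-s * (L / 2)))) * e
  · have h1 : Tendsto (fun s : ℂ => (s - 1) * R s + (hw K : ℂ) * cexp (-s * (L / 2)) *
        (1 - (s - 1) / s))
        (𝓝 1) (𝓝 ((1 - 1) * R 1 + (hw K : ℂ) * cexp (-1 * (L / 2)) * (1 - (1 - 1) / 1))) := by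
      have c1 : ContinuousAt (fun s : ℂ => (s - 1) * R s + (hw K : ℂ) * cexp (-s * (L / 2)) *
          (1 - (s - 1) / s)) 1 := by
        have d1 : ContinuousAt R 1 := hRd.continuous.continuousAt
        have d2 : ContinuousAt (fun s : ℂ => (s - 1) / s) 1 := by
          refine ContinuousAt.div (by fun_prop) continuousAt_id ?_
          norm_num
        have d3 : ContinuousAt (fun s : ℂ => (hw K : ℂ) * cexp (-s * (L / 2))) 1 :=
          hEd.continuous.continuousAt
        have d4 : ContinuousAt (fun s : ℂ => s - 1) 1 := by fun_prop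
        exact (d4.mul d1).add (d3.mul (continuousAt_const.sub d2))
      exact c1
    have hd : (0 : ℝ) < |(discr K : ℝ)| := by
      rw [abs_pos]
      exact_mod_cast discr_ne_zero K
    have h3 : cexp (-1 * (L / 2)) = 1 / (Real.sqrt |(discr K : ℝ)| : ℂ) := by
      have : (-1 * ((L : ℂ) / 2)) = ((-(L / 2) : ℝ) : ℂ) := by push_cast; ring
      rw [this, ← Complex.ofReal_exp, Real.exp_neg, ← Real.log_sqrt hd.le, Real.exp_log
        (Real.sqrt_pos.2 hd)]
      push_cast
      rw [one_div]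
    have h2 : ((1 : ℂ) - 1) * R 1 + (hw K : ℂ) * cexp (-1 * (L / 2)) * (1 - (1 - 1) / 1) =
        (hw K : ℂ) / (Real.sqrt |(discr K : ℝ)| : ℂ) := by
      rw [h3]
      simp [div_eq_mul_inv]
    rw [h2] at h1
    have hne : ∀ᶠ s : ℂ in 𝓝[≠] 1, s ≠ 0 := by
      have : ∀ᶠ s : ℂ in 𝓝 (1 : ℂ), s ≠ 0 := isOpen_ne.mem_nhds one_ne_zero
      exact this.filter_mono nhdsWithin_le_nhds
    refine (h1.mono_left nhdsWithin_le_nhds).congr' ?_
    filter_upwards [self_mem_nhdsWithin, hne] with s hs hs0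
    have hs1 : s - 1 ≠ 0 := sub_ne_zero.2 hs
    have e : (s - 1) * (1 / (s - 1) - 1 / s) = 1 - (s - 1) / s := by
      rw [mul_sub, mul_one_div_cancel hs1, mul_one_div]
    linear_combination (-((hw K : ℂ) * cexp (-s * (L / 2)))) * e

end Pool.Agent.RSK
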