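import Pool.Agent.Lib_helper17.RS.Bas
import Pool.Agent.Lib_helper17.RS.BasZ
import Pool.Agent.Lib_helper17.RS.P_ZB
/-! RS block ZC: the leading term of the Dedekind zeta function at `0`. -/

namespace Pool.Agent.RSK

open NumberField NumberField.InfinitePlace NumberField.Units IsDedekindDomain Filter Topology
  Complex MeasureTheory
open Pool.Agent.HZ

variable (K : Type) [Field K] [NumberField K]

/-- the sum over ideals is Mathlib's Dedekind zeta function -/
theorem zc_series {s : ℂ} (hs : 1 < s.re) :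
    ∑' 𝔞 : Ideal (𝓞 K), trv K 𝔞 * (Ideal.absNorm 𝔞 : ℂ) ^ (-s) = dedekindZeta K s := by
  classical
  have hf : Summable (fun 𝔞 : Ideal (𝓞 K) => trv K 𝔞 * (Ideal.absNorm 𝔞 : ℂ) ^ (-s)) := by
    refine Summable.of_norm_bounded (ideal_summable (K := K) hs) fun 𝔞 => ?_
    by_cases h : 𝔞 = ⊥
    · have h1 : trv K 𝔞 = 0 := if_pos h
      rw [h1, zero_mul, norm_zero]
      positivity
    · have h1 : trv K 𝔞 = 1 := if_neg h
      have h2 : 0 < Ideal.absNorm 𝔞 := Nat.pos_of_ne_zero (by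
        rw [Ne, Ideal.absNorm_eq_zero_iff]; exact h)
      rw [h1, one_mul, Complex.norm_natCast_cpow_of_pos h2, Complex.neg_re]
  rw [← (Equiv.sigmaFiberEquiv (fun I : Ideal (𝓞 K) => Ideal.absNorm I)).tsum_eq
    (fun 𝔞 : Ideal (𝓞 K) => trv K 𝔞 * (Ideal.absNorm 𝔞 : ℂ) ^ (-s))]
  have hf' := (Equiv.sigmaFiberEquiv (fun I : Ideal (𝓞 K) => Ideal.absNorm I)).summable_iff.2 hf
  refine Eq.trans hf'.tsum_sigma ?_
  rw [dedekindZeta, LSeries]
  refine tsum_congr fun n => ?_
  rw [LSeries.term_def]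
  split_ifs with hn
  · subst hn
    have h1 : ∀ c : {I : Ideal (𝓞 K) // Ideal.absNorm I = 0},
        trv K ((Equiv.sigmaFiberEquiv (fun I : Ideal (𝓞 K) => Ideal.absNorm I)) ⟨0, c⟩) *
          (Ideal.absNorm ((Equiv.sigmaFiberEquiv (fun I : Ideal (𝓞 K) => Ideal.absNorm I)) ⟨0, c⟩) : ℂ)
            ^ (-s) = 0 := by
      intro c
      have h2 : c.1 = ⊥ := Ideal.absNorm_eq_zero_iff.1 c.2
      have h3 : trv K c.1 = 0 := if_pos h2
      show trv K c.1 * _ = 0
      rw [h3, zero_mul]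
    simp only [Function.comp_apply]
    rw [tsum_congr h1, tsum_zero]
  · have h1 : ∀ c : {I : Ideal (𝓞 K) // Ideal.absNorm I = n},
        trv K ((Equiv.sigmaFiberEquiv (fun I : Ideal (𝓞 K) => Ideal.absNorm I)) ⟨n, c⟩) *
          (Ideal.absNorm ((Equiv.sigmaFiberEquiv (fun I : Ideal (𝓞 K) => Ideal.absNorm I)) ⟨n, c⟩) : ℂ)
            ^ (-s) = (n : ℂ) ^ (-s) := by
      intro c
      have h2 : c.1 ≠ ⊥ := by
        intro h
        have := c.2
        rw [h, Ideal.absNorm_bot] at this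
        exact hn this.symm
      have h3 : trv K c.1 = 1 := if_neg h2
      show trv K c.1 * (Ideal.absNorm c.1 : ℂ) ^ (-s) = _
      rw [h3, one_mul, c.2]
    simp only [Function.comp_apply]
    rw [tsum_congr h1]
    have hfin : Finite {I : Ideal (𝓞 K) // Ideal.absNorm I = n} :=
      Ideal.finite_setOfPred_absNorm_eq n
    rw [tsum_const, nsmul_eq_mul, Complex.cpow_neg, div_eq_mul_inv]

open scoped Classical in
/-- the inverse of the Gamma factor -/
noncomputable def zc_ginv (s : ℂ) : ℂ :=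
  ∏ w : InfinitePlace K, if w.IsReal then (Gammaℝ s)⁻¹ else (Gammaℂ s)⁻¹

theorem zc_ginv_eq (s : ℂ) : zc_ginv K s = (gam (K := K) (fun _ => 0) (fun _ => 0) s)⁻¹ := by
  classical
  unfold zc_ginv gam
  rw [← Finset.prod_inv_distrib]
  refine Finset.prod_congr rfl fun w _ => ?_
  split_ifs <;> simp

theorem zc_ginv_differentiable : Differentiable ℂ (zc_ginv K) := by
  classical
  unfold zc_ginv
  refine Differentiable.fun_finsetProd fun w _ => ?_
  split_ifs
  · exact differentiable_Gammaℝ_inv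
  · exact differentiable_Gammaℂ_inv

theorem zc_gammaC {s : ℂ} (hs : 0 < s.re) : Gammaℂ s ≠ 0 := by
  rw [Gammaℂ_def]
  refine mul_ne_zero (mul_ne_zero two_ne_zero ?_) (Gamma_ne_zero_of_re_pos hs)
  rw [Ne, Complex.cpow_eq_zero_iff]
  intro h
  have := h.1
  simp [Real.pi_ne_zero] at this

theorem zc_ginv_ne_zero {s : ℂ} (hs : 0 < s.re) : zc_ginv K s ≠ 0 := by
  classical
  unfold zc_ginv
  rw [Finset.prod_ne_zero_iff]
  intro w _
  split_ifs
  · exact inv_ne_zero (Gammaℝ_ne_zero_of_re_pos hs)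
  · exact inv_ne_zero (zc_gammaC hs)

theorem zc_ginv_one : zc_ginv K 1 = (Real.pi : ℂ) ^ nrComplexPlaces K := by
  classical
  unfold zc_ginv
  have h1 : ∀ w : InfinitePlace K, (if w.IsReal then (Gammaℝ (1 : ℂ))⁻¹ else (Gammaℂ (1 : ℂ))⁻¹) =
      if w.IsComplex then (Real.pi : ℂ) else 1 := by
    intro w
    by_cases h : w.IsReal
    · rw [if_pos h, if_neg (by rwa [not_isComplex_iff_isReal]), Gammaℝ_one, inv_one]
    · rw [if_neg h, if_pos (by rwa [← not_isReal_iff_isComplex]), Gammaℂ_one, one_div, inv_inv]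
  rw [Finset.prod_congr rfl fun w _ => h1 w, Finset.prod_ite, Finset.prod_const, Finset.prod_const_one,
    mul_one]
  congr 1
  rw [nrComplexPlaces, Fintype.card_subtype]

theorem zc_gammaC_zero : Tendsto (fun s : ℂ => s * Gammaℂ s) (𝓝[≠] 0) (𝓝 2) := by
  have h' : Tendsto (fun s : ℂ => 2 * (2 * Real.pi : ℂ) ^ (-s)) (𝓝[≠] 0) (𝓝 2) := by
    have h0 : (2 * Real.pi : ℂ) ≠ 0 := by simp [Real.pi_ne_zero]
    have h1 : ContinuousAt (fun s : ℂ => 2 * (2 * Real.pi : ℂ) ^ (-s)) 0 :=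
      continuousAt_const.mul ((continuousAt_const_cpow h0).comp (by fun_prop))
    have h2 := h1.tendsto
    rw [neg_zero, Complex.cpow_zero, mul_one] at h2
    exact h2.mono_left nhdsWithin_le_nhds
  have h := h'.mul tendsto_self_mul_Gamma_nhds_zero
  rw [mul_one] at h
  refine h.congr fun s => ?_
  rw [Gammaℂ_def]
  ring

theorem zc_ginv_zero : Tendsto (fun s : ℂ => zc_ginv K s / s ^ Fintype.card (InfinitePlace K))
    (𝓝[≠] 0) (𝓝 (((2 : ℂ)⁻¹) ^ Fintype.card (InfinitePlace K))) := by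
  classical
  have h1 : Tendsto (fun s : ℂ => ∏ w : InfinitePlace K,
      if w.IsReal then (s * Gammaℝ s)⁻¹ else (s * Gammaℂ s)⁻¹) (𝓝[≠] 0)
      (𝓝 (∏ _w : InfinitePlace K, (2 : ℂ)⁻¹)) := by
    refine tendsto_finsetProd _ fun w _ => ?_
    split_ifs
    · exact Gammaℝ_residue_zero.inv₀ two_ne_zero
    · exact zc_gammaC_zero.inv₀ two_ne_zero
  rw [Finset.prod_const, Finset.card_univ] at h1
  refine h1.congr fun s => ?_
  unfold zc_ginv
  rw [← Finset.card_univ, ← Finset.prod_const, ← Finset.prod_div_distrib]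
  refine Finset.prod_congr rfl fun w _ => ?_
  split_ifs
  · rw [mul_inv, div_eq_mul_inv, mul_comm]
  · rw [mul_inv, div_eq_mul_inv, mul_comm]

/-- The Dedekind zeta function has a meromorphic continuation, with
`ζ_K(s) ~ -(h R / w) s^{r_1 + r_2 - 1}` at `s = 0`. -/
theorem zeta_zero : ∃ Z : ℂ → ℂ, MeromorphicOn Z Set.univ ∧
    (∀ s : ℂ, 1 < s.re → Z s = dedekindZeta K s) ∧
    Tendsto (fun s : ℂ => Z s / s ^ rank K) (𝓝[≠] 0)
      (𝓝 (-((classNumber K * regulator K / torsionOrder K : ℝ) : ℂ))) := by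
  obtain ⟨C₀, Λ, hC, hmer, hser, h0, h1⟩ := dz_cont K
  have hC' : (C₀ : ℂ) ≠ 0 := by exact_mod_cast hC.ne'
  set Z : ℂ → ℂ := fun s => (C₀ : ℂ)⁻¹ * zc_ginv K s * Λ s with hZ
  have hZser : ∀ s : ℂ, 1 < s.re → Z s = dedekindZeta K s := by
    intro s hs
    have hg := zc_ginv_ne_zero K (s := s) (by linarith)
    rw [zc_ginv_eq] at hg
    have hg' : gam (K := K) (fun _ => 0) (fun _ => 0) s ≠ 0 := fun h => hg (by rw [h, inv_zero])
    simp only [hZ]
    rw [hser s hs, zc_series K hs, zc_ginv_eq]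
    field_simp
  refine ⟨Z, ?_, hZser, ?_⟩
  · intro s _
    have h2 : MeromorphicAt (zc_ginv K) s :=
      ((zc_ginv_differentiable K).analyticAt s).meromorphicAt
    exact ((MeromorphicAt.const _ s).mul h2).mul (hmer s (Set.mem_univ s))
  · -- the constant
    have hcard : 0 < Fintype.card (InfinitePlace K) := Fintype.card_pos
    have hrank : Fintype.card (InfinitePlace K) = rank K + 1 := by
      rw [rank]; omega
    set n := Fintype.card (InfinitePlace K) with hn
    have hlim0 : Tendsto (fun s : ℂ => Z s / s ^ rank K) (𝓝[≠] 0)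
        (𝓝 ((C₀ : ℂ)⁻¹ * ((2 : ℂ)⁻¹) ^ n * (-(hw K : ℂ)))) := by
      have h2 := ((zc_ginv_zero K).const_mul (C₀ : ℂ)⁻¹).mul h0
      refine h2.congr' ?_
      filter_upwards [self_mem_nhdsWithin] with s hs
      have hs' : s ≠ 0 := hs
      simp only [hZ]
      rw [← hn, hrank, pow_succ]
      field_simp
    -- the limit at 1
    have hlim1 : Tendsto (fun s : ℂ => (s - 1) * Z s) (𝓝[≠] 1)
        (𝓝 ((C₀ : ℂ)⁻¹ * (Real.pi : ℂ) ^ nrComplexPlaces K *
          ((hw K : ℂ) / (Real.sqrt |(discr K : ℝ)| : ℂ)))) := by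
      have h2 : Tendsto (fun s : ℂ => (C₀ : ℂ)⁻¹ * zc_ginv K s) (𝓝[≠] 1)
          (𝓝 ((C₀ : ℂ)⁻¹ * (Real.pi : ℂ) ^ nrComplexPlaces K)) := by
        rw [← zc_ginv_one K]
        exact (((zc_ginv_differentiable K).continuous.tendsto 1).mono_left
          nhdsWithin_le_nhds).const_mul _
      refine (h2.mul h1).congr fun s => ?_
      simp only [hZ]
      ring
    have hres : Tendsto (fun s : ℝ => ((s : ℂ) - 1) * Z s) (𝓝[>] 1)
        (𝓝 ((C₀ : ℂ)⁻¹ * (Real.pi : ℂ) ^ nrComplexPlaces K *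
          ((hw K : ℂ) / (Real.sqrt |(discr K : ℝ)| : ℂ)))) := by
      refine hlim1.comp ?_
      rw [tendsto_nhdsWithin_iff]
      constructor
      · have h3 : Tendsto (fun s : ℝ => (s : ℂ)) (𝓝 1) (𝓝 ((1 : ℝ) : ℂ)) :=
          Complex.continuous_ofReal.tendsto 1
        rw [Complex.ofReal_one] at h3
        exact h3.mono_left nhdsWithin_le_nhds
      · filter_upwards [self_mem_nhdsWithin] with s hs
        have hs' : (1 : ℝ) < s := hs
        intro h
        have h4 : (s : ℂ) = 1 := h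
        have h5 : s = 1 := by exact_mod_cast h4
        linarith
    have hres2 : Tendsto (fun s : ℝ => ((s : ℂ) - 1) * Z s) (𝓝[>] 1)
        (𝓝 (dedekindZeta_residue K : ℂ)) := by
      refine (tendsto_sub_one_mul_dedekindZeta_nhdsGT K).congr' ?_
      filter_upwards [self_mem_nhdsWithin] with s hs
      have hs' : (1 : ℝ) < s := hs
      rw [hZser (s : ℂ) (by rw [Complex.ofReal_re]; exact hs')]
    have heq := tendsto_nhds_unique hres hres2
    -- everything is real
    have hD : (0 : ℝ) < Real.sqrt |(discr K : ℝ)| :=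
      Real.sqrt_pos_of_pos (abs_pos.2 (Int.cast_ne_zero.2 (discr_ne_zero K)))
    have hh : (0 : ℝ) < classNumber K := by exact_mod_cast classNumber_pos K
    have hw0 : (0 : ℝ) < torsionOrder K := by exact_mod_cast torsionOrder_pos K
    have heqR : C₀⁻¹ * Real.pi ^ nrComplexPlaces K * (hw K / Real.sqrt |(discr K : ℝ)|) =
        dedekindZeta_residue K := by exact_mod_cast heq
    rw [dedekindZeta_residue_def, hw, mul_pow] at heqR
    have hpi : (0 : ℝ) < Real.pi ^ nrComplexPlaces K := by positivity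
    have hkey : C₀⁻¹ = 2 ^ n * regulator K := by
      have hcn : n = nrRealPlaces K + nrComplexPlaces K := by
        rw [hn]; exact card_eq_nrRealPlaces_add_nrComplexPlaces K
      rw [hcn, pow_add]
      field_simp at heqR ⊢
      linarith
    have hfin : (C₀ : ℂ)⁻¹ * ((2 : ℂ)⁻¹) ^ n * (-(hw K : ℂ)) =
        -((classNumber K * regulator K / torsionOrder K : ℝ) : ℂ) := by
      have h2 : C₀⁻¹ * ((2 : ℝ)⁻¹) ^ n * (-(hw K)) =
          -(classNumber K * regulator K / torsionOrder K : ℝ) := by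
        rw [hkey, hw, inv_pow]
        field_simp
      have h3 := congrArg (fun x : ℝ => (x : ℂ)) h2
      push_cast at h3 ⊢
      exact h3
    rw [← hfin]
    exact hlim0


end Pool.Agent.RSK
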