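import Pool.Agent.Lib_helper17.RS.Bas
/-!
# Rubin-Stark, block UP2: local degrees, transitivity, fixed units
-/

namespace Pool.Agent.RSK

open NumberField IsDedekindDomain Filter Topology Complex

set_option linter.unusedSectionVars false

section UP2

variable {F H : Type} [Field F] [NumberField F] [Field H] [NumberField H] [Algebra F H]

theorem ordv_act (σ : H ≃ₐ[F] H) (W : HeightOneSpectrum (𝓞 H)) (x : H) :
    ordv (HeightOneSpectrum.equivOfRingEquiv (RingOfIntegers.mapRingEquiv σ.toRingEquiv) W) (σ x) =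
      ordv W x := by
  unfold ordv
  have h := val_equiv σ.toRingEquiv W x
  have h2 : σ.toRingEquiv x = σ x := rfl
  rw [h2] at h
  rw [h]

theorem fixed_unit [IsGalois F H] (x : Hˣ) (hx : ∀ σ : H ≃ₐ[F] H, σ • x = x) :
    ∃ y : Fˣ, Units.map (algebraMap F H : F →* H) y = x := by
  have h1 : (x : H) ∈ Set.range (algebraMap F H) := by
    rw [IsGalois.mem_range_algebraMap_iff_fixed]
    intro σ
    have h2 := congrArg (fun u : Hˣ => (u : H)) (hx σ)
    exact h2
  obtain ⟨y, hy⟩ := h1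
  have hy0 : y ≠ 0 := by
    rintro rfl
    rw [map_zero] at hy
    exact x.ne_zero hy.symm
  refine ⟨Units.mk0 y hy0, ?_⟩
  ext
  simpa using hy

open scoped Pointwise

theorem up2_act_ideal (σ : H ≃ₐ[F] H) (W : HeightOneSpectrum (𝓞 H)) :
    (HeightOneSpectrum.equivOfRingEquiv (RingOfIntegers.mapRingEquiv σ.toRingEquiv) W).asIdeal =
      σ • W.asIdeal := by
  ext x
  show (RingOfIntegers.mapRingEquiv σ.toRingEquiv).symm x ∈ W.asIdeal ↔ x ∈ σ • W.asIdeal
  rw [Ideal.mem_pointwise_smul_iff_inv_smul_mem]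
  have : (RingOfIntegers.mapRingEquiv σ.toRingEquiv).symm x = σ⁻¹ • x := by
    ext
    rfl
  rw [this]

theorem act_trans [IsGalois F H] {W W' : Pl H} (h : dn F W = dn F W') :
    ∃ σ : H ≃ₐ[F] H, act σ W = W' := by
  rcases W with w | w <;> rcases W' with w' | w'
  · have h1 : w.comap (algebraMap F H) = w'.comap (algebraMap F H) := Sum.inl_injective h
    obtain ⟨σ, hσ⟩ := InfinitePlace.exists_smul_eq_of_comap_eq h1
    exact ⟨σ, by show Sum.inl (σ • w) = Sum.inl w'; rw [hσ]⟩
  · exact absurd h (by simp [dn])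
  · exact absurd h (by simp [dn])
  · have h1 : w.under (𝓞 F) = w'.under (𝓞 F) := Sum.inr_injective h
    have h2 : w.asIdeal.under (𝓞 F) = w'.asIdeal.under (𝓞 F) :=
      congrArg HeightOneSpectrum.asIdeal h1
    have : w.asIdeal.LiesOver (w.asIdeal.under (𝓞 F)) := ⟨rfl⟩
    have : w'.asIdeal.LiesOver (w.asIdeal.under (𝓞 F)) := ⟨h2⟩
    have := w.isPrime
    have := w'.isPrime
    obtain ⟨σ, hσ⟩ := Ideal.exists_smul_eq_of_isGaloisGroup (w.asIdeal.under (𝓞 F)) w.asIdeal
      w'.asIdeal (H ≃ₐ[F] H)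
    refine ⟨σ, ?_⟩
    show Sum.inr _ = Sum.inr _
    congr 1
    apply HeightOneSpectrum.ext
    rw [up2_act_ideal, hσ]

theorem up2_toNN {q : NNReal} (hq : q ≠ 0) (f : ℕ) (hqf : q ^ f ≠ 0)
    (a : WithZero (Multiplicative ℤ)) (hf : f ≠ 0) :
    WithZeroMulInt.toNNReal hqf a = WithZeroMulInt.toNNReal hq a ^ f := by
  by_cases ha : a = 0
  · rw [ha, map_zero, map_zero, zero_pow hf]
  · rw [WithZeroMulInt.toNNReal_neg_apply _ ha, WithZeroMulInt.toNNReal_neg_apply _ ha,
      ← zpow_natCast, ← zpow_natCast, ← zpow_mul, ← zpow_mul, mul_comm]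

theorem up2_fin (W : HeightOneSpectrum (𝓞 H)) (x : F) :
    Real.log (HeightOneSpectrum.adicAbv H W (algebraMap F H x)) =
      (((W.under (𝓞 F)).asIdeal.ramificationIdx' W.asIdeal *
        (W.under (𝓞 F)).asIdeal.inertiaDeg' W.asIdeal : ℕ) : ℝ) *
      Real.log (HeightOneSpectrum.adicAbv F (W.under (𝓞 F)) x) := by
  set v := W.under (𝓞 F) with hv
  have hlo : W.asIdeal.LiesOver v.asIdeal := ⟨rfl⟩
  have hmax : v.asIdeal.IsMaximal := v.isMaximal
  set e := v.asIdeal.ramificationIdx' W.asIdeal with he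
  set f := v.asIdeal.inertiaDeg' W.asIdeal with hf
  have hf0 : f ≠ 0 := Ideal.inertiaDeg'_ne_zero v.asIdeal W.asIdeal
  have h1 : v.valuation F x ^ e = W.valuation H (algebraMap F H x) :=
    HeightOneSpectrum.valuation_liesOver H v W x
  have h2 : Ideal.absNorm W.asIdeal = Ideal.absNorm v.asIdeal ^ f :=
    Ideal.absNorm_eq_pow_inertiaDeg'_of_liesOver W.asIdeal v.asIdeal v.isPrime v.ne_bot
  have h3 : HeightOneSpectrum.adicAbv H W (algebraMap F H x) =
      (HeightOneSpectrum.adicAbv F v x) ^ (e * f) := by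
    rw [HeightOneSpectrum.adicAbv_def, HeightOneSpectrum.adicAbv_def, ← h1, map_pow]
    have hq : (Ideal.absNorm v.asIdeal : NNReal) ≠ 0 := HeightOneSpectrum.absNorm_ne_zero v
    have key : ∀ (c : NNReal) (hc : c ≠ 0), c = (Ideal.absNorm v.asIdeal : NNReal) ^ f →
        WithZeroMulInt.toNNReal hc (v.valuation F x) =
          WithZeroMulInt.toNNReal hq (v.valuation F x) ^ f := by
      intro c hc hcq
      subst hcq
      exact up2_toNN hq f hc _ hf0
    rw [key _ (HeightOneSpectrum.absNorm_ne_zero W) (by rw [h2]; push_cast; rfl)]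
    push_cast
    rw [← pow_mul, mul_comm]
  rw [h3, Real.log_pow]

theorem up2_card [IsGalois F H] (W : HeightOneSpectrum (𝓞 H)) :
    Nat.card {σ : H ≃ₐ[F] H // act σ (Sum.inr W) = Sum.inr W} =
      (W.under (𝓞 F)).asIdeal.ramificationIdx' W.asIdeal *
        (W.under (𝓞 F)).asIdeal.inertiaDeg' W.asIdeal := by
  set v := W.under (𝓞 F) with hv
  have hlo : W.asIdeal.LiesOver v.asIdeal := ⟨rfl⟩
  have hmax : v.asIdeal.IsMaximal := v.isMaximal
  have hmaxW : W.asIdeal.IsMaximal := W.isMaximal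
  have hp := v.isPrime
  have hpW := W.isPrime
  have e1 : v.asIdeal.ramificationIdx' W.asIdeal = v.asIdeal.ramificationIdxIn (𝓞 H) := by
    rw [Ideal.ramificationIdx'_eq_ramificationIdx v.asIdeal W.asIdeal v.ne_bot,
      Ideal.ramificationIdxIn_eq_ramificationIdx v.asIdeal W.asIdeal (H ≃ₐ[F] H)]
  have e2 : v.asIdeal.inertiaDeg' W.asIdeal = v.asIdeal.inertiaDegIn (𝓞 H) := by
    rw [Ideal.inertiaDeg'_eq_inertiaDeg v.asIdeal W.asIdeal,
      Ideal.inertiaDegIn_eq_inertiaDeg v.asIdeal W.asIdeal (H ≃ₐ[F] H)]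
  have e3 : Nat.card {σ : H ≃ₐ[F] H // act σ (Sum.inr W) = Sum.inr W} =
      Nat.card (MulAction.stabilizer (H ≃ₐ[F] H) W.asIdeal) := by
    refine Nat.card_congr (Equiv.subtypeEquivRight fun σ => ?_)
    rw [MulAction.mem_stabilizer_iff]
    constructor
    · intro h
      have h1 : Sum.inr (HeightOneSpectrum.equivOfRingEquiv
        (RingOfIntegers.mapRingEquiv σ.toRingEquiv) W) = (Sum.inr W : Pl H) := h
      have h2 := congrArg HeightOneSpectrum.asIdeal (Sum.inr_injective h1)
      rwa [up2_act_ideal] at h2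
    · intro h
      show Sum.inr _ = Sum.inr _
      congr 1
      apply HeightOneSpectrum.ext
      rw [up2_act_ideal, h]
  have e4 := Nat.card_congr (MulAction.orbitProdStabilizerEquivGroup (H ≃ₐ[F] H) W.asIdeal)
  rw [Nat.card_prod] at e4
  have e5 : MulAction.orbit (H ≃ₐ[F] H) W.asIdeal = v.asIdeal.primesOver (𝓞 H) :=
    Algebra.IsInvariant.orbit_eq_primesOver (𝓞 F) (𝓞 H) (H ≃ₐ[F] H) v.asIdeal W.asIdeal
  have e6 := Ideal.ncard_primesOver_mul_ramificationIdxIn_mul_inertiaDegIn v.asIdeal (𝓞 H)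
    (H ≃ₐ[F] H)
  rw [e5, Nat.card_coe_set_eq] at e4
  rw [e3, e1, e2]
  have e7 : (v.asIdeal.primesOver (𝓞 H)).ncard ≠ 0 := IsDedekindDomain.primesOver_ncard_ne_zero _ _
  exact Nat.eq_of_mul_eq_mul_left (Nat.pos_of_ne_zero e7) (e4.trans e6.symm)

theorem up2_inf [IsGalois F H] (w : InfinitePlace H) (x : F) :
    (w.mult : ℝ) * Real.log (w (algebraMap F H x)) =
      Nat.card {σ : H ≃ₐ[F] H // act σ (Sum.inl w) = Sum.inl w} *
        (((w.comap (algebraMap F H)).mult : ℝ) * Real.log ((w.comap (algebraMap F H)) x)) := by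
  have e3 : Nat.card {σ : H ≃ₐ[F] H // act σ (Sum.inl w) = Sum.inl w} =
      Nat.card (MulAction.stabilizer (H ≃ₐ[F] H) w) := by
    refine Nat.card_congr (Equiv.subtypeEquivRight fun σ => ?_)
    rw [MulAction.mem_stabilizer_iff]
    constructor
    · intro h
      have h1 : Sum.inl (σ • w) = (Sum.inl w : Pl H) := h
      exact Sum.inl_injective h1
    · intro h
      show Sum.inl (σ • w) = Sum.inl w
      rw [h]
  rw [e3, InfinitePlace.comap_apply]
  by_cases h : InfinitePlace.IsUnramified F w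
  · rw [InfinitePlace.isUnramified_iff_card_stabilizer_eq_one.1 h, h.eq, Nat.cast_one, one_mul]
  · rw [InfinitePlace.not_isUnramified_iff_card_stabilizer_eq_two.1 h]
    rw [InfinitePlace.not_isUnramified_iff] at h
    have h1 : (w.comap (algebraMap F H)).mult = 1 := by
      simp [InfinitePlace.mult, h.2]
    have h2 : w.mult = 2 := by
      have : ¬ w.IsReal := InfinitePlace.not_isReal_iff_isComplex.2 h.1
      simp [InfinitePlace.mult, this]
    rw [h1, h2]
    push_cast
    ring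

/-- the local degree of a Galois extension is the order of the decomposition group -/
theorem lg_gal [IsGalois F H] (W : Pl H) (x : F) : lg W (algebraMap F H x) =
    Nat.card {σ : H ≃ₐ[F] H // act σ W = W} * lg (dn F W) x := by
  rcases W with w | w
  · exact up2_inf w x
  · rw [up2_card w]
    exact up2_fin w x

end UP2

end Pool.Agent.RSK
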