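import Pool.Agent.Lib_helper17.RS.Bas
/-!
# Rubin-Stark: block IF (fixed fields)
-/

namespace Pool.Agent.RSK

set_option linter.unusedSectionVars false

open NumberField IsDedekindDomain Filter Topology Complex
open scoped TensorProduct

section IF

variable {F H : Type} [Field F] [NumberField F] [Field H] [NumberField H] [Algebra F H]
  [IsGalois F H] {G : Type} [CommGroup G] [Fintype G] {p : ℕ} (ι : G ≃* (H ≃ₐ[F] H))

theorem if_normal (N : Subgroup G) : (N.map ι.toMonoidHom).Normal :=
  Subgroup.Normal.map inferInstance ι.toMonoidHom ι.surjective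

theorem kf_galois (N : Subgroup G) : IsGalois F (Kf ι N) := by
  have := if_normal ι N
  exact IsGalois.of_fixedField_normal_subgroup (N.map ι.toMonoidHom)

theorem kf_quo (N : Subgroup G) : ∃ ι' : (G ⧸ N) ≃* (Kf ι N ≃ₐ[F] Kf ι N),
    Quo ι ι' (QuotientGroup.mk' N) := by
  have hn := if_normal ι N
  refine ⟨(QuotientGroup.congr N (N.map ι.toMonoidHom) ι rfl).trans
    (IsGalois.normalAutEquivQuotient (N.map ι.toMonoidHom)), ?_, ?_⟩
  · exact QuotientGroup.mk'_surjective N
  · intro g x
    have h2 := AlgEquiv.restrictNormal_commutes (ι g)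
      (IntermediateField.fixedField (N.map ι.toMonoidHom)) x
    exact h2

end IF

end Pool.Agent.RSK
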