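import Pool.Agent.Lib_helper17.RS.Bas
/-!
# Rubin-Stark, block TW: towers
-/

namespace Pool.Agent.RSK

set_option linter.unusedSectionVars false

open NumberField IsDedekindDomain Filter Topology Complex

section TW

variable {F₀ F H : Type} [Field F₀] [NumberField F₀] [Field F] [NumberField F] [Field H]
  [NumberField H] [Algebra F₀ F] [Algebra F H] [Algebra F₀ H] [IsScalarTower F₀ F H]

theorem tw_under (W : HeightOneSpectrum (𝓞 H)) :
    (W.under (𝓞 F)).under (𝓞 F₀) = W.under (𝓞 F₀) := by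
  ext x
  show algebraMap (𝓞 F) (𝓞 H) (algebraMap (𝓞 F₀) (𝓞 F) x) ∈ W.asIdeal ↔
    algebraMap (𝓞 F₀) (𝓞 H) x ∈ W.asIdeal
  have h : algebraMap (𝓞 F) (𝓞 H) (algebraMap (𝓞 F₀) (𝓞 F) x) = algebraMap (𝓞 F₀) (𝓞 H) x := by
    ext
    exact (IsScalarTower.algebraMap_apply F₀ F H (x : F₀)).symm
  rw [h]

theorem dn_dn (W : Pl H) : dn F₀ (dn F W) = dn F₀ W := by
  rcases W with W | W
  · show Sum.inl ((W.comap (algebraMap F H)).comap (algebraMap F₀ F)) =
      Sum.inl (W.comap (algebraMap F₀ H))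
    congr 1
    rw [IsScalarTower.algebraMap_eq F₀ F H]
    rfl
  · show Sum.inr _ = Sum.inr _
    rw [tw_under]

theorem ovr_ovr (S : Finset (HeightOneSpectrum (𝓞 F₀))) : ovr H (ovr F S) = ovr H S := by
  ext W
  rw [mem_ovr, mem_ovr, mem_ovr, tw_under]

theorem act_restrict (σ : H ≃ₐ[F] H) (W : Pl H) : act (σ.restrictScalars F₀) W = act σ W := by
  rcases W with W | W
  · rfl
  · rfl

end TW

end Pool.Agent.RSK
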