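import Pool.Agent.Lib_helper17.RS.Bas
/-! RS, block UP1: places in extensions -/

namespace Pool.Agent.RSK

set_option linter.unusedSectionVars false

open NumberField IsDedekindDomain Filter Topology Complex

section UP

variable {F H : Type} [Field F] [NumberField F] [Field H] [NumberField H] [Algebra F H]

theorem up1_liesOver (W : HeightOneSpectrum (𝓞 H)) :
    W.asIdeal.LiesOver (W.under (𝓞 F)).asIdeal := ⟨rfl⟩

theorem up1_val (W : HeightOneSpectrum (𝓞 H)) : ∃ e : ℕ, 0 < e ∧ ∀ x : F,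
    W.valuation H (algebraMap F H x) = (W.under (𝓞 F)).valuation F x ^ e := by
  have := up1_liesOver (F := F) W
  refine ⟨(W.under (𝓞 F)).asIdeal.ramificationIdx' W.asIdeal, Nat.pos_of_ne_zero
    (Ideal.IsDedekindDomain.ramificationIdx'_ne_zero_of_liesOver W.asIdeal (W.under (𝓞 F)).ne_bot),
    fun x => ?_⟩
  exact (HeightOneSpectrum.valuation_liesOver (A := 𝓞 F) (B := 𝓞 H) H (W.under (𝓞 F)) W x).symm

theorem up1_nv (W : HeightOneSpectrum (𝓞 H)) : ∃ f : ℕ, 0 < f ∧
    nv W = nv (W.under (𝓞 F)) ^ f := by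
  have := up1_liesOver (F := F) W
  have hm : (W.under (𝓞 F)).asIdeal.IsMaximal := (W.under (𝓞 F)).isMaximal
  refine ⟨(W.under (𝓞 F)).asIdeal.inertiaDeg' W.asIdeal, Ideal.inertiaDeg'_pos _ _, ?_⟩
  exact Ideal.absNorm_eq_pow_inertiaDeg'_of_liesOver W.asIdeal (W.under (𝓞 F)).asIdeal
    (W.under (𝓞 F)).isPrime (W.under (𝓞 F)).ne_bot

theorem up1_one {W : HeightOneSpectrum (𝓞 H)} (x : F) :
    W.valuation H (algebraMap F H x) = 1 ↔ (W.under (𝓞 F)).valuation F x = 1 := by
  obtain ⟨e, he, h⟩ := up1_val (F := F) W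
  rw [h]
  exact pow_eq_one_iff_of_nonneg zero_le he.ne'

theorem up1_lt {W : HeightOneSpectrum (𝓞 H)} (x : F) :
    W.valuation H (algebraMap F H x) < 1 ↔ (W.under (𝓞 F)).valuation F x < 1 := by
  obtain ⟨e, he, h⟩ := up1_val (F := F) W
  rw [h]
  exact pow_lt_one_iff_of_nonneg zero_le he.ne'

theorem up1_surj (v : HeightOneSpectrum (𝓞 F)) : ∃ W : HeightOneSpectrum (𝓞 H),
    W.under (𝓞 F) = v := by
  have hm : v.asIdeal.IsMaximal := v.isMaximal
  obtain ⟨Q, hQ, hQv⟩ := Ideal.exists_maximal_ideal_liesOver_of_isIntegral (S := 𝓞 H) v.asIdeal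
  refine ⟨⟨Q, hQ.isPrime, ?_⟩, ?_⟩
  · intro h0
    subst h0
    exact v.ne_bot (hQv.over.trans (Ideal.comap_bot_of_injective _
      (FaithfulSMul.algebraMap_injective (𝓞 F) (𝓞 H))))
  · exact HeightOneSpectrum.ext hQv.over.symm

theorem kt_map {T : Finset (HeightOneSpectrum (𝓞 F))} (x : Fˣ) :
    Units.map (algebraMap F H : F →* H) x ∈ KT (ovr H T) ↔ x ∈ KT T := by
  constructor
  · intro h v hv
    obtain ⟨W, hW⟩ := up1_surj (H := H) v
    have h1 := h W (by rw [mem_ovr, hW]; exact hv)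
    have e : ((Units.map (algebraMap F H : F →* H) x : Hˣ) : H) - 1 =
        algebraMap F H ((x : F) - 1) := by simp
    rw [e, up1_lt, hW] at h1
    exact h1
  · intro h W hW
    rw [mem_ovr] at hW
    have h1 := h _ hW
    have e : ((Units.map (algebraMap F H : F →* H) x : Hˣ) : H) - 1 =
        algebraMap F H ((x : F) - 1) := by simp
    rw [e, up1_lt]
    exact h1

theorem un_map {S T : Finset (HeightOneSpectrum (𝓞 F))} (x : Fˣ) :
    Units.map (algebraMap F H : F →* H) x ∈ Un (ovr H S) (ovr H T) ↔ x ∈ Un S T := by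
  have hx : ∀ W : HeightOneSpectrum (𝓞 H),
      W.valuation H ((Units.map (algebraMap F H : F →* H) x : Hˣ) : H) = 1 ↔
        (W.under (𝓞 F)).valuation F (x : F) = 1 := fun W => up1_one (x : F)
  constructor
  · rintro ⟨h1, h2⟩
    refine ⟨fun v hv => ?_, (kt_map x).1 h2⟩
    obtain ⟨W, hW⟩ := up1_surj (H := H) v
    have h3 := h1 W (by rw [mem_ovr, hW]; exact hv)
    rw [hx, hW] at h3
    exact h3
  · rintro ⟨h1, h2⟩
    refine ⟨fun W hW => ?_, (kt_map x).2 h2⟩
    rw [mem_ovr] at hW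
    rw [hx]
    exact h1 _ hW

theorem up1_log {a : NNReal} (ha : a ≠ 0) (z : WithZero (Multiplicative ℤ)) :
    Real.log (WithZeroMulInt.toNNReal ha z : NNReal) = (WithZero.log z : ℤ) * Real.log a := by
  by_cases hz : z = 0
  · subst hz
    simp
  · rw [WithZeroMulInt.toNNReal_neg_apply ha hz]
    have e := WithZero.toAdd_unzero_eq_log hz
    rw [e, NNReal.coe_zpow, Real.log_zpow]

theorem up1_lg (v : HeightOneSpectrum (𝓞 H)) (x : H) :
    lg (Sum.inr v) x = (WithZero.log (v.valuation H x) : ℤ) * Real.log (nv v) := by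
  show Real.log (HeightOneSpectrum.adicAbv H v x) = _
  rw [HeightOneSpectrum.adicAbv_def, up1_log]
  rfl

theorem lg_up (W : Pl H) : ∃ n : ℕ, 0 < n ∧ ∀ x : F, lg W (algebraMap F H x) = n * lg (dn F W) x := by
  rcases W with w | W
  · have key : ∀ x : F, w (algebraMap F H x) = (w.comap (algebraMap F H)) x := fun x => rfl
    have h1 : ∃ n : ℕ, 0 < n ∧ w.mult = n * (w.comap (algebraMap F H)).mult := by
      by_cases hr : w.IsReal
      · have h2 : (w.comap (algebraMap F H)).IsReal := hr.comap _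
        refine ⟨1, one_pos, ?_⟩
        rw [one_mul, InfinitePlace.mult, InfinitePlace.mult, if_pos hr, if_pos h2]
      · by_cases h2 : (w.comap (algebraMap F H)).IsReal
        · refine ⟨2, two_pos, ?_⟩
          rw [InfinitePlace.mult, InfinitePlace.mult, if_neg hr, if_pos h2]
        · refine ⟨1, one_pos, ?_⟩
          rw [one_mul, InfinitePlace.mult, InfinitePlace.mult, if_neg hr, if_neg h2]
    obtain ⟨n, hn, hm⟩ := h1
    refine ⟨n, hn, fun x => ?_⟩
    show (w.mult : ℝ) * Real.log (w (algebraMap F H x)) =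
      n * ((w.comap (algebraMap F H)).mult * Real.log ((w.comap (algebraMap F H)) x))
    rw [key, hm]
    push_cast
    ring
  · obtain ⟨e, he, hv⟩ := up1_val (F := F) W
    obtain ⟨f, hf, hn⟩ := up1_nv (F := F) W
    refine ⟨e * f, Nat.mul_pos he hf, fun x => ?_⟩
    have h1 := up1_lg W (algebraMap F H x)
    have h2 := up1_lg (W.under (𝓞 F)) x
    show lg (Sum.inr W) (algebraMap F H x) = _ * lg (Sum.inr (W.under (𝓞 F))) x
    rw [h1, h2, hv, hn, WithZero.log_pow]
    push_cast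
    rw [Real.log_pow]
    simp only [nsmul_eq_mul]
    push_cast
    ring

theorem dn_surj (v : Pl F) : ∃ W : Pl H, dn F W = v := by
  rcases v with v | v
  · obtain ⟨w, hw⟩ := InfinitePlace.comap_surjective (k := F) (K := H) v
    exact ⟨Sum.inl w, congrArg Sum.inl hw⟩
  · obtain ⟨W, hW⟩ := up1_surj (H := H) v
    exact ⟨Sum.inr W, congrArg Sum.inr hW⟩

end UP

end Pool.Agent.RSK
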