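import Pool.Agent.Lib_helper17.RS.Bas
import Pool.Agent.Lib_helper17.RS.BasZ
import Pool.Agent.Lib_helper17.RS.P_PF
import Pool.Agent.Lib_helper17.RS.P_UP1
import Pool.Agent.Lib_helper17.RS.P_UP2
import Pool.Agent.Lib_helper17.RS.P_TW
import Pool.Agent.Lib_helper54.DSF.CHX
/-!
Block CB. Uses the wanted statements act_trans (UP2), dn_surj (UP1), dn_dn (TW).
-/

namespace Pool.Agent.RSK

set_option linter.unusedSectionVars false

open NumberField IsDedekindDomain Filter Topology Complex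
open scoped TensorProduct
open Pool.Agent.DS (Qbar GQ Induces)

/-- two coprime integers do not lie in a proper ideal -/
theorem cb_coprime {R : Type} [CommRing R] {I : Ideal R} (hI : I ≠ ⊤) {q n : ℕ} (hq : q.Prime)
    (h1 : (q : R) ∈ I) (h2 : (n : R) ∈ I) (hn : 0 < n) (hnq : n < q) : False := by
  have hc : Nat.Coprime q n := (Nat.Prime.coprime_iff_not_dvd hq).2 (Nat.not_dvd_of_pos_of_lt hn hnq)
  have h3 : IsCoprime (q : ℤ) (n : ℤ) := Nat.isCoprime_iff_coprime.2 hc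
  obtain ⟨a, b, hab⟩ := h3
  apply hI
  rw [Ideal.eq_top_iff_one]
  have h4 : ((a * q + b * n : ℤ) : R) = 1 := by rw [hab]; exact Int.cast_one
  rw [← h4]
  push_cast
  exact I.add_mem (I.mul_mem_left _ h1) (I.mul_mem_left _ h2)

theorem cb_char {k : Type} [Field k] [NumberField k] (v : HeightOneSpectrum (𝓞 k)) {q : ℕ} (hq : q.Prime)
    (h1 : (q : 𝓞 k) ∈ v.asIdeal) : ringChar (𝓞 k ⧸ v.asIdeal) = q := by
  have hmax : v.asIdeal.IsMaximal := v.isMaximal
  let _ : Field (𝓞 k ⧸ v.asIdeal) := Ideal.Quotient.field _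
  have h0 : ((q : ℕ) : 𝓞 k ⧸ v.asIdeal) = 0 := by
    have := (Ideal.Quotient.eq_zero_iff_mem (I := v.asIdeal) (a := (q : 𝓞 k))).2 h1
    simpa using this
  rcases (Nat.dvd_prime hq).mp (ringChar.dvd h0) with h3 | h3
  · exact absurd h3 CharP.ringChar_ne_one
  · exact h3

/-- the residue field has `q` elements if `f^q = f` for all its elements -/
theorem cb_card {k : Type} [Field k] [NumberField k] (v : HeightOneSpectrum (𝓞 k)) {q : ℕ} (hq : q.Prime)
    (h1 : (q : 𝓞 k) ∈ v.asIdeal) (h2 : ∀ f : 𝓞 k, f ^ q - f ∈ v.asIdeal) : nv v = q := by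
  classical
  have hmax : v.asIdeal.IsMaximal := v.isMaximal
  have hch := cb_char v hq h1
  let _ : Field (𝓞 k ⧸ v.asIdeal) := Ideal.Quotient.field _
  have hfin : Finite (𝓞 k ⧸ v.asIdeal) := Ring.HasFiniteQuotients.finiteQuotient v.ne_bot
  have := Fintype.ofFinite (𝓞 k ⧸ v.asIdeal)
  have hchar : CharP (𝓞 k ⧸ v.asIdeal) q := by
    rw [← hch]
    exact ringChar.charP _
  have hpow : ∀ y : 𝓞 k ⧸ v.asIdeal, y ^ q = y := by
    intro y
    obtain ⟨f, rfl⟩ := Ideal.Quotient.mk_surjective y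
    rw [← map_pow, Ideal.Quotient.eq]
    exact h2 f
  have hnv : nv v = Fintype.card (𝓞 k ⧸ v.asIdeal) := by
    unfold nv
    rw [Ideal.absNorm_apply, Submodule.cardQuot_apply, Nat.card_eq_fintype_card]
  rw [hnv]
  apply le_antisymm
  · have hne : (Polynomial.X ^ q - Polynomial.X : Polynomial (𝓞 k ⧸ v.asIdeal)) ≠ 0 :=
      FiniteField.X_pow_card_sub_X_ne_zero _ hq.one_lt
    have hsub : (Finset.univ : Finset (𝓞 k ⧸ v.asIdeal)) ⊆
        (Polynomial.X ^ q - Polynomial.X : Polynomial (𝓞 k ⧸ v.asIdeal)).roots.toFinset := by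
      intro y _
      rw [Multiset.mem_toFinset, Polynomial.mem_roots hne]
      simp [Polynomial.IsRoot, hpow y]
    calc Fintype.card (𝓞 k ⧸ v.asIdeal) = (Finset.univ : Finset (𝓞 k ⧸ v.asIdeal)).card := rfl
      _ ≤ (Polynomial.X ^ q - Polynomial.X : Polynomial (𝓞 k ⧸ v.asIdeal)).roots.toFinset.card :=
        Finset.card_le_card hsub
      _ ≤ Multiset.card (Polynomial.X ^ q - Polynomial.X : Polynomial (𝓞 k ⧸ v.asIdeal)).roots :=
        Multiset.toFinset_card_le _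
      _ ≤ (Polynomial.X ^ q - Polynomial.X : Polynomial (𝓞 k ⧸ v.asIdeal)).natDegree := Polynomial.card_roots' _
      _ = q := FiniteField.X_pow_card_sub_X_natDegree_eq _ hq.one_lt
  · obtain ⟨n, _, hn⟩ := FiniteField.card (𝓞 k ⧸ v.asIdeal) q
    rw [hn]
    exact Nat.le_self_pow n.ne_zero q

theorem cb_alg : Algebra.IsAlgebraic ℚ Qbar := AlgebraicClosure.isAlgebraic ℚ

theorem cb_ac : IsAlgClosure ℚ Qbar := ⟨inferInstance, cb_alg⟩

theorem cb_normal : Normal ℚ Qbar := by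
  have := cb_ac
  exact (IsAlgClosure.isGalois ℚ Qbar).to_normal

theorem cb_lift {H : Type} [Field H] [NumberField H] (γ : H ≃+* H) (j : H →ₐ[ℚ] Qbar) :
    ∃ a : GQ, ∀ z, a (j z) = j (γ z) := by
  let _ : Algebra H Qbar := j.toRingHom.toAlgebra
  have hst : IsScalarTower ℚ H Qbar := IsScalarTower.of_algebraMap_eq fun r => (j.commutes r).symm
  have hn := cb_normal
  let γ' : H ≃ₐ[ℚ] H := AlgEquiv.ofRingEquiv (f := γ) (fun r => by simp)
  exact ⟨γ'.liftNormal Qbar, fun z => AlgEquiv.liftNormal_commutes γ' Qbar z⟩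

theorem cb_root {l : ℕ} [NeZero l] {ζ : Qbar} (hζ : IsPrimitiveRoot ζ l) (a b : GQ) {ξ : Qbar} (hξ : ξ ^ l = 1) :
    a (b ξ) = b (a ξ) := by
  obtain ⟨k, _, rfl⟩ := hζ.eq_pow_of_pow_eq_one hξ
  obtain ⟨i, _, hi⟩ := hζ.eq_pow_of_pow_eq_one (ξ := a ζ) (by rw [← map_pow, hζ.pow_eq_one, map_one])
  obtain ⟨m, _, hm⟩ := hζ.eq_pow_of_pow_eq_one (ξ := b ζ) (by rw [← map_pow, hζ.pow_eq_one, map_one])
  rw [map_pow, map_pow, map_pow, map_pow, ← hm, ← hi, map_pow, map_pow, ← hm, ← hi, ← pow_mul ζ i m,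
    ← pow_mul ζ m i, mul_comm i m]

theorem cb_comm {l : ℕ} [NeZero l] {ζ : Qbar} (hζ : IsPrimitiveRoot ζ l) (a b : GQ) {ξ : Qbar} (hξ : ξ ^ l = 1) :
    (a * b * a⁻¹ * b⁻¹) ξ = ξ := by
  have h1 : (a⁻¹ (b⁻¹ ξ)) ^ l = 1 := by rw [← map_pow, ← map_pow, hξ, map_one, map_one]
  have h2 := cb_root hζ a b h1
  show a (b (a⁻¹ (b⁻¹ ξ))) = ξ
  rw [h2]
  have h3 : ∀ (c : GQ) (y : Qbar), c (c⁻¹ y) = y := fun c y => by
    show (c * c⁻¹) y = y
    rw [mul_inv_cancel]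
    rfl
  rw [h3, h3]

theorem cb_open (L : IntermediateField ℚ Qbar) [Normal ℚ L] [FiniteDimensional ℚ L] :
    IsOpen ((AlgEquiv.restrictNormalHom (F := ℚ) (K₁ := Qbar) L).ker : Set GQ) := by
  have h0 : IsOpen (L.fixingSubgroup : Set GQ) := by
    have h1 : L.fixingSubgroup ∈ {S : Subgroup GQ | IsOpen (S : Set GQ)} := by
      exact IntermediateField.fixingSubgroup_isOpen L
    exact h1
  refine Subgroup.isOpen_mono (H₁ := L.fixingSubgroup) ?_ h0
  intro σ hσ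
  rw [MonoidHom.mem_ker]
  ext x
  have h1 := AlgEquiv.restrictNormal_commutes σ L x
  rw [IntermediateField.mem_fixingSubgroup_iff] at hσ
  have h2 : σ (algebraMap L Qbar x) = algebraMap L Qbar x := hσ _ x.2
  rw [h2] at h1
  exact congrArg _ ((algebraMap L Qbar).injective h1)

theorem cb_nn (K : Type) [Field K] [Algebra ℚ K] [FiniteDimensional ℚ K] [h : Normal ℚ Qbar] :
    Normal ℚ (IntermediateField.normalClosure ℚ K Qbar) := by
  have := normalClosure.normal ℚ K Qbar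
  convert! this

theorem cb_ff (K : Type) [Field K] [Algebra ℚ K] [FiniteDimensional ℚ K] :
    FiniteDimensional ℚ (IntermediateField.normalClosure ℚ K Qbar) :=
  normalClosure.is_finiteDimensional ℚ K Qbar

theorem cb_agree (L : IntermediateField ℚ Qbar) [Normal ℚ L] {σ τ : GQ}
    (h : AlgEquiv.restrictNormalHom (F := ℚ) (K₁ := Qbar) L σ
      = AlgEquiv.restrictNormalHom (F := ℚ) (K₁ := Qbar) L τ)
    {x : Qbar} (hx : x ∈ L) : σ x = τ x := by
  have h1 := AlgEquiv.restrictNormal_commutes σ L ⟨x, hx⟩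
  have h2 := AlgEquiv.restrictNormal_commutes τ L ⟨x, hx⟩
  have h3 : σ.restrictNormal L = τ.restrictNormal L := h
  rw [h3] at h1
  exact h1.symm.trans h2

theorem cb_mod {l : ℕ} (hl : l.Prime) {q : ℕ} (hq : q.Prime) (hlq : l < q) {ζ : Qbar} (hζ : IsPrimitiveRoot ζ l)
    {𝔓 : Ideal (𝓞 Qbar)} (hP : 𝔓.IsPrime) (hqP : (q : 𝓞 Qbar) ∈ 𝔓) {σ : GQ} (hσ : Induces 𝔓 q σ)
    (hfix : σ ζ = ζ) : q ≡ 1 [MOD l] := by
  have hint : IsIntegral ℤ ζ := hζ.isIntegral hl.pos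
  obtain ⟨Z, hZ⟩ : ∃ Z : 𝓞 Qbar, (Z : Qbar) = ζ := ⟨⟨ζ, hint⟩, rfl⟩
  have h1 : Z - Z ^ q ∈ 𝔓 := hσ Z Z (by rw [hZ, hfix])
  have hZl : Z ^ l = 1 := by
    apply RingOfIntegers.coe_injective
    rw [map_pow, map_one]
    show (Z : Qbar) ^ l = 1
    rw [hZ, hζ.pow_eq_one]
  obtain ⟨d, hd⟩ : ∃ d, q = d + 1 := ⟨q - 1, by have := hq.pos; omega⟩
  obtain ⟨m, hm⟩ : ∃ m, l = m + 1 := ⟨l - 1, by have := hl.pos; omega⟩
  have h2 : 1 - Z ^ d ∈ 𝔓 := by
    have h3 : Z ^ m * (Z - Z ^ q) = 1 - Z ^ d := by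
      have h4 : Z ^ m * Z = 1 := by rw [← pow_succ, ← hm, hZl]
      rw [hd, pow_succ]
      linear_combination (1 - Z ^ d) * h4
    rw [← h3]
    exact 𝔓.mul_mem_left _ h1
  by_cases hη : Z ^ d = 1
  · have h5 : ζ ^ d = 1 := by
      rw [← hZ]
      have := congrArg (fun y : 𝓞 Qbar => (y : Qbar)) hη
      simpa using this
    have h6 : l ∣ d := hζ.dvd_of_pow_eq_one d h5
    rw [hd]
    exact ((Nat.modEq_zero_iff_dvd.2 h6).add_right 1)
  · exfalso
    have h7 : (∑ i ∈ Finset.range l, (Z ^ d) ^ i) = 0 := by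
      have h8 := geom_sum_mul (Z ^ d) l
      rw [← pow_mul, mul_comm d l, pow_mul, hZl, one_pow, sub_self] at h8
      exact (mul_eq_zero.1 h8).resolve_right (sub_ne_zero.2 hη)
    have h9 : ∀ i : ℕ, 1 - (Z ^ d) ^ i ∈ 𝔓 := by
      intro i
      have h10 := one_sub_dvd_one_sub_pow (Z ^ d) i
      exact 𝔓.mem_of_dvd h10 h2
    have h11 : (l : 𝓞 Qbar) ∈ 𝔓 := by
      have h12 : (l : 𝓞 Qbar) = ∑ i ∈ Finset.range l, (1 - (Z ^ d) ^ i) := by
        rw [Finset.sum_sub_distrib, h7]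
        simp
      rw [h12]
      exact 𝔓.sum_mem fun i _ => h9 i
    exact cb_coprime hP.ne_top hq hqP h11 hl.pos hlq

theorem cb_frob {H : Type} [Field H] [NumberField H] (α β : H ≃+* H) {l : ℕ} (hl : l.Prime) (M : ℕ)
    (hM : l ≤ M) : ∃ q : ℕ, q.Prime ∧ M < q ∧ q ≡ 1 [MOD l] ∧ ∃ w : HeightOneSpectrum (𝓞 H),
      (q : 𝓞 H) ∈ w.asIdeal ∧ ∀ z u : 𝓞 H, (u : H) = α (β (α.symm (β.symm z))) → u - z ^ q ∈ w.asIdeal := by
  have hnorm := cb_normal
  have hl0 : NeZero l := ⟨hl.ne_zero⟩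
  let j : H →ₐ[ℚ] Qbar := IsAlgClosed.lift
  obtain ⟨a, ha⟩ := cb_lift α j
  obtain ⟨b, hb⟩ := cb_lift β j
  have hinv : ∀ (c : GQ) (y : Qbar), c⁻¹ (c y) = y := fun c y => by
    show (c⁻¹ * c) y = y
    rw [inv_mul_cancel]
    rfl
  have hinv' : ∀ (c : GQ) (y : Qbar), c (c⁻¹ y) = y := fun c y => by
    show (c * c⁻¹) y = y
    rw [mul_inv_cancel]
    rfl
  have ha' : ∀ z, a⁻¹ (j z) = j (α.symm z) := fun z => by
    have := ha (α.symm z)
    rw [RingEquiv.apply_symm_apply] at this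
    rw [← this, hinv]
  have hb' : ∀ z, b⁻¹ (j z) = j (β.symm z) := fun z => by
    have := hb (β.symm z)
    rw [RingEquiv.apply_symm_apply] at this
    rw [← this, hinv]
  have hx : ∀ z, (a * b * a⁻¹ * b⁻¹) (j z) = j (α (β (α.symm (β.symm z)))) := fun z => by
    show a (b (a⁻¹ (b⁻¹ (j z)))) = _
    rw [hb', ha', hb, ha]
  obtain ⟨ζ, hζ⟩ := HasEnoughRootsOfUnity.exists_primitiveRoot Qbar l
  have hζint : IsIntegral ℚ ζ := (hζ.isIntegral hl.pos).tower_top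
  have hfd : FiniteDimensional ℚ (IntermediateField.adjoin ℚ {ζ}) := IntermediateField.adjoin.finiteDimensional hζint
  have hN1 := cb_nn H
  have hN2 := cb_nn (IntermediateField.adjoin ℚ {ζ})
  have hF1 := cb_ff H
  have hF2 := cb_ff (IntermediateField.adjoin ℚ {ζ})
  set M1 := IntermediateField.normalClosure ℚ H Qbar with hM1
  set M2 := IntermediateField.normalClosure ℚ (IntermediateField.adjoin ℚ {ζ}) Qbar with hM2
  have hopen : IsOpen ((((AlgEquiv.restrictNormalHom (F := ℚ) (K₁ := Qbar) M1).prod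
      (AlgEquiv.restrictNormalHom (F := ℚ) (K₁ := Qbar) M2)).ker : Subgroup GQ) : Set GQ) := by
    rw [MonoidHom.ker_prod]
    exact (cb_open M1).inter (cb_open M2)
  obtain ⟨q, hq, hqP, 𝔓, hP, hqP', σ, hσ, y, hy⟩ := Pool.Agent.DS.chx _ hopen (a * b * a⁻¹ * b⁻¹) (Finset.range (M + 1))
  have hMq : M < q := by
    rw [Finset.mem_range] at hqP
    omega
  have hy1 := congrArg Prod.fst hy
  have hy2 := congrArg Prod.snd hy
  have hζM : ζ ∈ M2 := AlgHom.fieldRange_le_normalClosure (IntermediateField.adjoin ℚ {ζ}).val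
    ⟨⟨ζ, IntermediateField.mem_adjoin_simple_self ℚ ζ⟩, rfl⟩
  have hσζ : σ ζ = ζ := by
    rw [cb_agree M2 hy2 hζM]
    show y ((a * b * a⁻¹ * b⁻¹) (y⁻¹ ζ)) = ζ
    rw [cb_comm hζ a b (by rw [← map_pow, hζ.pow_eq_one, map_one]), hinv']
  have hσj : ∀ z : H, σ (y (j z)) = y (j (α (β (α.symm (β.symm z))))) := fun z => by
    have hm : y (j z) ∈ M1 := AlgHom.fieldRange_le_normalClosure ((y : Qbar →ₐ[ℚ] Qbar).comp j) ⟨z, rfl⟩
    rw [cb_agree M1 hy1 hm]
    show y ((a * b * a⁻¹ * b⁻¹) (y⁻¹ (y (j z)))) = _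
    rw [hinv, hx]
  refine ⟨q, hq, hMq, cb_mod hl hq (by omega) hζ hP hqP' hσ hσζ, ?_⟩
  let φ : 𝓞 H →+* 𝓞 Qbar := RingOfIntegers.mapRingHom ((y : Qbar →ₐ[ℚ] Qbar).comp j).toRingHom
  have hφ : ∀ z : 𝓞 H, ((φ z : 𝓞 Qbar) : Qbar) = y (j z) := fun z => rfl
  have hqw : (q : 𝓞 H) ∈ 𝔓.comap φ := by
    rw [Ideal.mem_comap, map_natCast]
    exact hqP'
  have hprime : (𝔓.comap φ).IsPrime := Ideal.comap_isPrime φ 𝔓
  refine ⟨⟨𝔓.comap φ, hprime, ?_⟩, hqw, ?_⟩
  · intro hbot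
    rw [hbot, Ideal.mem_bot] at hqw
    exact hq.ne_zero (by exact_mod_cast hqw)
  · intro z u hu
    show u - z ^ q ∈ 𝔓.comap φ
    rw [Ideal.mem_comap, map_sub, map_pow]
    apply hσ
    rw [hφ, hφ, hσj, hu]

section AFG

variable {F₀ F L H : Type} [Field F₀] [NumberField F₀] [Field F] [NumberField F] [Field L]
  [NumberField L] [Field H] [NumberField H] [Algebra F₀ F] [Algebra F₀ L] [Algebra F₀ H]
  [Algebra F H] [Algebra L H] [IsScalarTower F₀ F H] [IsScalarTower F₀ L H] [IsGalois F₀ H]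
  [IsGalois F₀ F] [IsGalois F H] [IsGalois L H] {G : Type} [CommGroup G] [Fintype G] {p : ℕ}
  {ι : G ≃* (H ≃ₐ[F] H)} {S T : Finset (HeightOneSpectrum (𝓞 F))} {r : ℕ}
  {w : Fin r → Pl H} {fr : HeightOneSpectrum (𝓞 F) → G}

/-! ## CB: the density theorem -/

theorem cheb (hp2 : p ≠ 2) (hA : Afn F₀ F L H ι p) (B : Finset (HeightOneSpectrum (𝓞 F₀))) {l : ℕ}
    (hl : l.Prime) (hlp : l ≠ p) :
    ∃ v₀ : HeightOneSpectrum (𝓞 F₀), v₀ ∉ B ∧ ∀ v ∈ ovr F {v₀},
      Module.finrank ℚ F + 1 < ringChar (𝓞 F ⧸ v.asIdeal) ∧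
      ¬ l ∣ ∑ i ∈ Finset.range p, nv v ^ i ∧ ∀ g : G, IsFr v (ι g) → g ≠ 1 := by
  classical
  have hp := hA.prime
  -- two elements that do not commute
  obtain ⟨δ, g₀, x₀, hx₀⟩ : ∃ (δ : H ≃ₐ[L] H) (g : G) (x : H), δ (ι g x) ≠ ι g (δ x) := by
    by_contra hcon
    push Not at hcon
    have h1 : ∀ δ : H ≃ₐ[L] H, δ = 1 := fun δ => hA.cent δ fun g x => hcon δ g x
    have h2 : Nat.card (H ≃ₐ[L] H) ≤ 1 := by
      have : Subsingleton (H ≃ₐ[L] H) := ⟨fun a b => by rw [h1 a, h1 b]⟩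
      exact Finite.card_le_one_iff_subsingleton.2 this
    rw [hA.cardD] at h2
    have := hp.two_le
    omega
  set α : H ≃+* H := (ι g₀).toRingEquiv with hα
  set β : H ≃+* H := δ.toRingEquiv with hβ
  set γ : H → H := fun z => α (β (α.symm (β.symm z))) with hγ
  have hγint : ∀ z : 𝓞 H, ∃ u : 𝓞 H, (u : H) = γ z := fun z =>
    ⟨RingOfIntegers.mapRingEquiv α (RingOfIntegers.mapRingEquiv β (RingOfIntegers.mapRingEquiv α.symm
      (RingOfIntegers.mapRingEquiv β.symm z))), rfl⟩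
  -- `γ` is not the identity
  obtain ⟨z₀, u₀, hu₀, hne⟩ : ∃ z u : 𝓞 H, (u : H) = γ z ∧ u ≠ z := by
    by_contra hcon
    push Not at hcon
    have h1 : ∀ z : 𝓞 H, γ z = z := fun z => by
      obtain ⟨u, hu⟩ := hγint z
      rw [← hu, hcon z u hu]
    have h2 : ∀ z : H, γ z = z := fun z => by
      obtain ⟨a, b, hb, rfl⟩ := IsFractionRing.div_surjective (A := 𝓞 H) z
      have h3 : ∀ x y : H, γ (x / y) = γ x / γ y := fun x y => by
        simp only [hγ, map_div₀]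
      rw [h3]
      have h4 := h1 a
      have h5 := h1 b
      rw [show (algebraMap (𝓞 H) H a) = (a : H) from rfl, show (algebraMap (𝓞 H) H b) = (b : H) from rfl, h4, h5]
    have h6 := h2 (β (α x₀))
    simp only [hγ, RingEquiv.symm_apply_apply] at h6
    exact hx₀ h6.symm
  have hd0 : u₀ - z₀ ≠ 0 := sub_ne_zero.2 hne
  set n₀ := Ideal.absNorm (Ideal.span {u₀ - z₀}) with hn₀
  have hn₀pos : 0 < n₀ := by
    rw [hn₀]
    apply Nat.pos_of_ne_zero
    rw [Ne, Ideal.absNorm_eq_zero_iff, Ideal.span_singleton_eq_bot]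
    exact hd0
  set M : ℕ := Module.finrank ℚ F + 1 + l + n₀ + ∑ v ∈ B, nv v with hM
  obtain ⟨q, hq, hMq, hql, w', hqw', hw'⟩ := cb_frob α β hl M (by omega)
  have hq' : ∀ {k : Type} [Field k] [NumberField k] (v : HeightOneSpectrum (𝓞 k)), v.asIdeal ≠ ⊤ :=
    fun v => v.isPrime.ne_top
  -- membership in the conjugates of `w'`
  have hF : ∀ (τ : H ≃ₐ[F₀] H) (f : F), ∃ f' : F, τ (algebraMap F H f) = algebraMap F H f' := fun τ f =>
    ⟨τ.restrictNormal F f, (AlgEquiv.restrictNormal_commutes τ F f).symm⟩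
  have hγF : ∀ (f : F), γ (algebraMap F H f) = algebraMap F H f := fun f => by
    obtain ⟨f', hf'⟩ := hF (δ.symm.restrictScalars F₀) f
    have e1 : β.symm (algebraMap F H f) = algebraMap F H f' := hf'
    have e2 : α.symm (algebraMap F H f') = algebraMap F H f' := (ι g₀).symm.commutes f'
    have e3 : β (algebraMap F H f') = algebraMap F H f := by
      rw [← e1, RingEquiv.apply_symm_apply]
    have e4 : α (algebraMap F H f) = algebraMap F H f := (ι g₀).commutes f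
    show α (β (α.symm (β.symm (algebraMap F H f)))) = _
    rw [e1, e2, e3, e4]
  refine ⟨w'.under (𝓞 F₀), ?_, ?_⟩
  · intro hB
    have h1 : (q : 𝓞 F₀) ∈ (w'.under (𝓞 F₀)).asIdeal := by
      show algebraMap (𝓞 F₀) (𝓞 H) (q : 𝓞 F₀) ∈ w'.asIdeal
      rw [map_natCast]
      exact hqw'
    have h2 : ((nv (w'.under (𝓞 F₀)) : ℕ) : 𝓞 F₀) ∈ (w'.under (𝓞 F₀)).asIdeal := Ideal.absNorm_mem _
    have h3 : nv (w'.under (𝓞 F₀)) ≤ ∑ v ∈ B, nv v :=
      Finset.single_le_sum (f := fun v => nv v) (fun _ _ => Nat.zero_le _) hB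
    have h4 : 0 < nv (w'.under (𝓞 F₀)) := by
      have := nv_two_le (w'.under (𝓞 F₀))
      omega
    exact cb_coprime (hq' _) hq h1 h2 h4 (by omega)
  · intro v hv
    rw [mem_ovr, Finset.mem_singleton] at hv
    obtain ⟨W, hW⟩ := dn_surj (F := F) (H := H) (Sum.inr v)
    obtain ⟨w, rfl⟩ : ∃ w : HeightOneSpectrum (𝓞 H), W = Sum.inr w := by
      rcases W with W | W
      · exact absurd hW (by simp [dn])
      · exact ⟨W, rfl⟩
    have hwv : w.under (𝓞 F) = v := Sum.inr_injective hW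
    have hdn : dn F₀ (Sum.inr w' : Pl H) = dn F₀ (Sum.inr w : Pl H) := by
      rw [← dn_dn (F₀ := F₀) (F := F) (Sum.inr w : Pl H)]
      show Sum.inr (w'.under (𝓞 F₀)) = Sum.inr ((w.under (𝓞 F)).under (𝓞 F₀))
      rw [hwv, hv]
    obtain ⟨τ, hτ⟩ := act_trans hdn
    have hτ' : HeightOneSpectrum.equivOfRingEquiv (RingOfIntegers.mapRingEquiv τ.toRingEquiv) w' = w :=
      Sum.inr_injective hτ
    have hmem : ∀ z : 𝓞 H, z ∈ w.asIdeal ↔ (RingOfIntegers.mapRingEquiv τ.toRingEquiv).symm z ∈ w'.asIdeal := by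
      intro z
      rw [← hτ']
      rfl
    have hvmem : ∀ f : 𝓞 F, f ∈ v.asIdeal ↔ algebraMap (𝓞 F) (𝓞 H) f ∈ w.asIdeal := by
      intro f
      rw [← hwv]
      rfl
    have hqv : (q : 𝓞 F) ∈ v.asIdeal := by
      rw [hvmem, hmem, map_natCast, map_natCast]
      exact hqw'
    have hres : ∀ f : 𝓞 F, f ^ q - f ∈ v.asIdeal := by
      intro f
      rw [hvmem, hmem, map_sub, map_sub, map_pow, map_pow]
      set g := (RingOfIntegers.mapRingEquiv τ.toRingEquiv).symm (algebraMap (𝓞 F) (𝓞 H) f) with hg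
      have h1 : (g : H) = τ.symm (algebraMap F H f) := rfl
      obtain ⟨f', hf'⟩ := hF τ.symm (f : F)
      have h2 : g - g ^ q ∈ w'.asIdeal := by
        apply hw'
        rw [h1, hf']
        exact (hγF f').symm
      have h3 : g ^ q - g = -(g - g ^ q) := by ring
      rw [h3]
      exact w'.asIdeal.neg_mem h2
    have hnv : nv v = q := cb_card v hq hqv hres
    refine ⟨?_, ?_, ?_⟩
    · rw [cb_char v hq hqv]
      omega
    · rw [hnv]
      intro hdvd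
      have h1 : ∑ i ∈ Finset.range p, q ^ i ≡ ∑ i ∈ Finset.range p, 1 [MOD l] :=
        Nat.ModEq.sum fun i _ => by simpa using hql.pow i
      rw [Finset.sum_const, Finset.card_range, smul_eq_mul, mul_one] at h1
      have h2 : l ∣ p := (Nat.modEq_zero_iff_dvd.1 (h1.symm.trans (Nat.modEq_zero_iff_dvd.2 hdvd)))
      exact hlp ((Nat.prime_dvd_prime_iff_eq hl hp).1 h2)
    · intro g hg hg1
      rw [hg1] at hg
      have h1 : ∀ z : 𝓞 H, z - z ^ q ∈ w'.asIdeal := by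
        intro z
        have h2 := hg w hwv (RingOfIntegers.mapRingEquiv τ.toRingEquiv z)
        rw [hmem, hnv, map_sub, map_pow] at h2
        have h3 : (RingOfIntegers.mapRingEquiv τ.toRingEquiv).symm (RingOfIntegers.mapRingEquiv
            (ι 1).toRingEquiv (RingOfIntegers.mapRingEquiv τ.toRingEquiv z)) = z := by
          rw [RingEquiv.symm_apply_eq]
          ext
          show (ι 1) (τ z) = τ z
          rw [map_one]
          rfl
        rw [h3, RingEquiv.symm_apply_apply] at h2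
        exact h2
      have h4 : u₀ - z₀ ∈ w'.asIdeal := by
        have h5 := hw' z₀ u₀ hu₀
        have h6 : u₀ - z₀ = (u₀ - z₀ ^ q) - (z₀ - z₀ ^ q) := by ring
        rw [h6]
        exact w'.asIdeal.sub_mem h5 (h1 z₀)
      have h7 : (n₀ : 𝓞 H) ∈ w'.asIdeal := by
        have h8 : (n₀ : 𝓞 H) ∈ Ideal.span {u₀ - z₀} := Ideal.absNorm_mem _
        exact (Ideal.span_singleton_le_iff_mem _).2 h4 h8
      exact cb_coprime (hq' w') hq hqw' h7 hn₀pos (by omega)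

end AFG

end Pool.Agent.RSK
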