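import Pool.Agent.Lib_helper17.RS.Bas
/-!
# Rubin-Stark: block PX1 (products over the nontrivial characters)
-/

namespace Pool.Agent.RSK

set_option linter.unusedSectionVars false

open Filter Topology Complex
open scoped TensorProduct

section PX

variable {G : Type} [CommGroup G] [Fintype G]

theorem dual_finite : Finite (G →* ℂˣ) := by
  classical
  have h : Nat.card (G →* ℂˣ) = Nat.card G :=
    CommGroup.card_monoidHom_of_hasEnoughRootsOfUnity G ℂ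
  refine Nat.finite_of_card_ne_zero ?_
  rw [h]
  exact Nat.card_pos.ne'

theorem px1_card : Nat.card (G →* ℂˣ) = Nat.card G :=
  CommGroup.card_monoidHom_of_hasEnoughRootsOfUnity G ℂ

theorem px1_pX_eq [Fintype {χ : G →* ℂˣ // χ ≠ 1}] (φ : (G →* ℂˣ) → ℂ) :
    pX φ = ∏ χ : {χ : G →* ℂˣ // χ ≠ 1}, φ χ.1 := by
  unfold pX
  exact finprod_eq_prod_of_fintype _

theorem pX_mul (φ ψ : (G →* ℂˣ) → ℂ) : pX (fun χ => φ χ * ψ χ) = pX φ * pX ψ := by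
  classical
  have : Finite (G →* ℂˣ) := dual_finite
  have : Fintype {χ : G →* ℂˣ // χ ≠ 1} := Fintype.ofFinite _
  rw [px1_pX_eq, px1_pX_eq, px1_pX_eq, Finset.prod_mul_distrib]

theorem px1_inv_inv (χ : G →* ℂˣ) : χ⁻¹⁻¹ = χ := by
  ext g
  simp

theorem px1_inv_ne {χ : G →* ℂˣ} (h : χ ≠ 1) : χ⁻¹ ≠ 1 := by
  intro h1
  apply h
  rw [← px1_inv_inv χ, h1]
  ext g
  simp

theorem pX_inv (φ : (G →* ℂˣ) → ℂ) : pX (fun χ => φ χ⁻¹) = pX φ := by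
  unfold pX
  let e : {χ : G →* ℂˣ // χ ≠ 1} ≃ {χ : G →* ℂˣ // χ ≠ 1} :=
    { toFun := fun χ => ⟨χ.1⁻¹, px1_inv_ne χ.2⟩
      invFun := fun χ => ⟨χ.1⁻¹, px1_inv_ne χ.2⟩
      left_inv := fun χ => Subtype.ext (px1_inv_inv χ.1)
      right_inv := fun χ => Subtype.ext (px1_inv_inv χ.1) }
  exact finprod_comp_equiv (f := fun χ : {χ : G →* ℂˣ // χ ≠ 1} => φ χ.1) e

theorem pX_congr {φ ψ : (G →* ℂˣ) → ℂ} (h : ∀ χ, χ ≠ 1 → φ χ = ψ χ) : pX φ = pX ψ := by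
  unfold pX
  exact finprod_congr fun χ => h χ.1 χ.2

theorem pX_ne_zero {φ : (G →* ℂˣ) → ℂ} : pX φ ≠ 0 ↔ ∀ χ, χ ≠ 1 → φ χ ≠ 0 := by
  classical
  have : Finite (G →* ℂˣ) := dual_finite
  have : Fintype {χ : G →* ℂˣ // χ ≠ 1} := Fintype.ofFinite _
  rw [px1_pX_eq, Finset.prod_ne_zero_iff]
  constructor
  · intro h χ hχ
    exact h ⟨χ, hχ⟩ (Finset.mem_univ _)
  · intro h χ _
    exact h χ.1 χ.2

theorem pX_const {p : ℕ} (hG : Nat.card G = p) (z : ℂ) :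
    pX (fun _ : G →* ℂˣ => z) = z ^ (p - 1) := by
  classical
  have : Finite (G →* ℂˣ) := dual_finite
  have : Fintype (G →* ℂˣ) := Fintype.ofFinite _
  have : Fintype {χ : G →* ℂˣ // χ ≠ 1} := Fintype.ofFinite _
  rw [px1_pX_eq, Finset.prod_const]
  congr 1
  rw [Finset.card_univ, Fintype.card_subtype_compl, Fintype.card_subtype_eq,
    ← Nat.card_eq_fintype_card, px1_card, hG]

theorem pX_tendsto {f : (G →* ℂˣ) → ℂ → ℂ} {c : (G →* ℂˣ) → ℂ} {l : Filter ℂ}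
    (h : ∀ χ, χ ≠ 1 → Tendsto (f χ) l (𝓝 (c χ))) :
    Tendsto (fun s => pX (fun χ => f χ s)) l (𝓝 (pX c)) := by
  classical
  have : Finite (G →* ℂˣ) := dual_finite
  have : Fintype {χ : G →* ℂˣ // χ ≠ 1} := Fintype.ofFinite _
  simp only [px1_pX_eq]
  exact tendsto_finsetProd _ fun χ _ => h χ.1 χ.2

theorem finprod_pX (φ : (G →* ℂˣ) → ℂ) : ∏ᶠ χ : G →* ℂˣ, φ χ = φ 1 * pX φ := by
  classical
  have : Finite (G →* ℂˣ) := dual_finite
  have : Fintype (G →* ℂˣ) := Fintype.ofFinite _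
  have : Fintype {χ : G →* ℂˣ // χ ≠ 1} := Fintype.ofFinite _
  rw [px1_pX_eq, finprod_eq_prod_of_fintype, ← Finset.mul_prod_erase Finset.univ φ
    (Finset.mem_univ (1 : G →* ℂˣ))]
  congr 1
  rw [← Finset.prod_subtype (Finset.univ.erase (1 : G →* ℂˣ)) (p := fun χ => χ ≠ 1)]
  intro χ
  simp

end PX

end Pool.Agent.RSK
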