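import Pool.Agent.Lib_helper17.RS.Bas
/-!
# RS block PX2: characters of `ℚ[G]`
-/

namespace Pool.Agent.RSK

set_option linter.unusedSectionVars false

open Filter Topology Complex
open scoped TensorProduct

section PX2

variable {G : Type} [CommGroup G] [Fintype G]

theorem px2_evQ_apply (χ : G →* ℂˣ) (x : MonoidAlgebra ℚ G) :
    evQ χ x = ∑ g : G, ((x.coeff g : ℚ) : ℂ) * ((χ g : ℂˣ) : ℂ) := by
  unfold evQ
  rw [MonoidAlgebra.lift_apply, Finsupp.sum_fintype]
  · refine Finset.sum_congr rfl fun g _ => ?_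
    rw [Algebra.smul_def]
    rfl
  · intro g
    rw [zero_smul]

theorem px2_card : Nat.card (G →* ℂˣ) = Nat.card G :=
  CommGroup.card_monoidHom_of_hasEnoughRootsOfUnity G ℂ

theorem px2_finite : Finite (G →* ℂˣ) := by
  have h : Nat.card (G →* ℂˣ) ≠ 0 := by
    rw [px2_card]
    exact Nat.card_pos.ne'
  exact (Nat.card_ne_zero.1 h).2

set_option maxHeartbeats 4000000 in
theorem px2_span : Submodule.span ℂ (Set.range (fun (χ : G →* ℂˣ) (g : G) => ((χ g : ℂˣ) : ℂ))) =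
    ⊤ := by
  classical
  have := px2_finite (G := G)
  let _ : Fintype (G →* ℂˣ) := Fintype.ofFinite _
  have h1 := linearIndependent_monoidHom G ℂ
  have h2 : Function.Injective (fun χ : G →* ℂˣ => (Units.coeHom ℂ).comp χ) := by
    intro χ χ' h
    ext g
    exact DFunLike.congr_fun h g
  have h3 : LinearIndependent ℂ (fun (χ : G →* ℂˣ) (g : G) => ((χ g : ℂˣ) : ℂ)) :=
    h1.comp _ h2
  apply h3.span_eq_top_of_card_eq_finrank'
  rw [Module.finrank_fintype_fun_eq_card, Fintype.card_eq_nat_card, px2_card,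
    Nat.card_eq_fintype_card]

/-- the characters separate the elements of `ℚ[G]` -/
theorem evQ_inj {x y : MonoidAlgebra ℚ G} (h : ∀ χ : G →* ℂˣ, evQ χ x = evQ χ y) : x = y := by
  classical
  let L : (G → ℂ) →ₗ[ℂ] ℂ :=
    ∑ g : G, (((x.coeff g - y.coeff g : ℚ) : ℂ)) • LinearMap.proj g
  have hL : ∀ v : G → ℂ, L v = ∑ g : G, ((x.coeff g - y.coeff g : ℚ) : ℂ) * v g := by
    intro v
    simp [L]
  have h0 : ∀ v : G → ℂ, L v = 0 := by
    intro v
    have hv : v ∈ Submodule.span ℂ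
        (Set.range (fun (χ : G →* ℂˣ) (g : G) => ((χ g : ℂˣ) : ℂ))) := by
      rw [px2_span]; exact Submodule.mem_top
    induction hv using Submodule.span_induction with
    | mem v hv =>
      obtain ⟨χ, rfl⟩ := hv
      rw [hL]
      have h1 := h χ
      rw [px2_evQ_apply, px2_evQ_apply, ← sub_eq_zero, ← Finset.sum_sub_distrib] at h1
      rw [← h1]
      refine Finset.sum_congr rfl fun g _ => ?_
      push_cast
      ring
    | zero => exact map_zero L
    | add v w _ _ hv hw => rw [map_add, hv, hw, add_zero]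
    | smul c v _ hv => rw [map_smul, hv, smul_zero]
  ext g
  have h1 := h0 (Pi.single g 1)
  rw [hL, Finset.sum_eq_single g] at h1
  · rw [Pi.single_eq_same, mul_one] at h1
    have h2 : x.coeff g - y.coeff g = 0 := by exact_mod_cast h1
    exact sub_eq_zero.1 h2
  · intro b _ hb
    rw [Pi.single_eq_of_ne hb, mul_zero]
  · intro hg
    exact absurd (Finset.mem_univ g) hg

theorem px2_toQ_nrm : toQ G (nrm G) = ∑ g : G, MonoidAlgebra.single g (1 : ℚ) := by
  unfold nrm toQ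
  rw [map_sum]
  refine Finset.sum_congr rfl fun g _ => ?_
  simp

theorem px2_evQ_single (χ : G →* ℂˣ) (g : G) (q : ℚ) :
    evQ χ (MonoidAlgebra.single g q) = (q : ℂ) * ((χ g : ℂˣ) : ℂ) := by
  unfold evQ
  rw [MonoidAlgebra.lift_single, Algebra.smul_def]
  rfl

theorem px2_evQ_nrm_one : evQ (1 : G →* ℂˣ) (toQ G (nrm G)) = (Nat.card G : ℂ) := by
  rw [px2_toQ_nrm, map_sum]
  simp only [px2_evQ_single]
  simp

theorem px2_evQ_nrm {χ : G →* ℂˣ} (h : χ ≠ 1) : evQ χ (toQ G (nrm G)) = 0 := by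
  classical
  rw [px2_toQ_nrm, map_sum]
  simp only [px2_evQ_single]
  obtain ⟨g, hg⟩ : ∃ g, χ g ≠ 1 := by
    by_contra h'
    push Not at h'
    exact h (MonoidHom.ext h')
  have h1 : ((χ g : ℂˣ) : ℂ) * ∑ x : G, ((1 : ℚ) : ℂ) * ((χ x : ℂˣ) : ℂ) =
      ∑ x : G, ((1 : ℚ) : ℂ) * ((χ x : ℂˣ) : ℂ) := by
    rw [Finset.mul_sum, ← Equiv.sum_comp (Equiv.mulLeft g) (fun x => ((1 : ℚ) : ℂ) * ((χ x : ℂˣ) : ℂ))]
    refine Finset.sum_congr rfl fun x _ => ?_
    rw [Equiv.coe_mulLeft, map_mul, Units.val_mul]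
    ring
  have h2 : (((χ g : ℂˣ) : ℂ) - 1) * ∑ x : G, ((1 : ℚ) : ℂ) * ((χ x : ℂˣ) : ℂ) = 0 := by
    rw [sub_mul, h1, one_mul, sub_self]
  rcases mul_eq_zero.1 h2 with h3 | h3
  · exfalso
    apply hg
    ext
    rw [Units.val_one]
    linear_combination h3
  · exact h3

theorem evQ_one_nrm (x : MonoidAlgebra ℚ G) :
    toQ G (nrm G) * x = 0 ↔ evQ (1 : G →* ℂˣ) x = 0 := by
  constructor
  · intro h
    have h1 := congrArg (evQ (1 : G →* ℂˣ)) h
    rw [map_mul, px2_evQ_nrm_one, map_zero] at h1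
    rcases mul_eq_zero.1 h1 with h2 | h2
    · exfalso
      have h3 : (Nat.card G : ℂ) ≠ 0 := by
        exact_mod_cast (Nat.card_pos (α := G)).ne'
      exact h3 h2
    · exact h2
  · intro h
    apply evQ_inj
    intro χ
    rw [map_mul, map_zero]
    by_cases hχ : χ = 1
    · subst hχ
      rw [h, mul_zero]
    · rw [px2_evQ_nrm hχ, zero_mul]

/-- the cyclotomic field as a quotient of `ℚ[G]` -/
theorem px2_setup {p : ℕ} (hp : p.Prime) (hG : Nat.card G = p) :
    ∃ (L : Type) (_ : Field L) (_ : Algebra ℚ L) (_ : FiniteDimensional ℚ L)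
      (φ : MonoidAlgebra ℚ G →ₐ[ℚ] L) (e : (L →ₐ[ℚ] ℂ) ≃ {χ : G →* ℂˣ // χ ≠ 1}),
      Function.Surjective φ ∧ ∀ σ x, evQ (e σ).1 x = σ (φ x) := by
  classical
  have : Fact p.Prime := ⟨hp⟩
  have : NeZero p := ⟨hp.ne_zero⟩
  have hcyc : IsCyclic G := isCyclic_of_prime_card hG
  obtain ⟨g, hg⟩ := hcyc.exists_generator
  have hord : orderOf g = p := by rw [orderOf_eq_card_of_forall_mem_zpowers hg, hG]
  have : NeZero (p : ℚ) := ⟨by exact_mod_cast hp.ne_zero⟩
  obtain ⟨L, iF, iA, iC⟩ : ∃ (L : Type) (_ : Field L) (_ : Algebra ℚ L),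
      IsCyclotomicExtension {p} ℚ L :=
    ⟨CyclotomicField p ℚ, inferInstance, CyclotomicField.algebra p ℚ,
      CyclotomicField.isCyclotomicExtension p ℚ⟩
  set ζ : L := IsCyclotomicExtension.zeta p ℚ L with hζd
  have hζ : IsPrimitiveRoot ζ p := IsCyclotomicExtension.zeta_spec p ℚ L
  have hζ0 : ζ ≠ 0 := hζ.ne_zero hp.ne_zero
  set ζu : Lˣ := Units.mk0 ζ hζ0 with hζu
  have hζo : orderOf ζu ∣ orderOf g := by
    rw [hord]
    apply orderOf_dvd_of_pow_eq_one
    ext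
    rw [Units.val_pow_eq_pow_val, Units.val_mk0, hζ.pow_eq_one, Units.val_one]
  set ψ : G →* Lˣ := monoidHomOfForallMemZpowers hg hζo with hψ
  have hψg : ψ g = ζu := monoidHomOfForallMemZpowers_apply_gen hg hζo
  set φ : MonoidAlgebra ℚ G →ₐ[ℚ] L := MonoidAlgebra.lift ℚ L G ((Units.coeHom L).comp ψ) with hφ
  have hφs : ∀ (x : G) (q : ℚ), φ (MonoidAlgebra.single x q) = algebraMap ℚ L q * (ψ x : L) := by
    intro x q
    rw [hφ, MonoidAlgebra.lift_single, Algebra.smul_def]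
    rfl
  have hsurj : Function.Surjective φ := by
    have h1 : Algebra.adjoin ℚ {ζ} = ⊤ :=
      IsCyclotomicExtension.adjoin_primitive_root_eq_top hζ
    rw [← AlgHom.range_eq_top, eq_top_iff, ← h1, Algebra.adjoin_le_iff,
      Set.singleton_subset_iff]
    refine ⟨MonoidAlgebra.single g 1, ?_⟩
    show φ (MonoidAlgebra.single g 1) = ζ
    rw [hφs, hψg, map_one, one_mul, hζu, Units.val_mk0]
  have hinjζ : ∀ σ τ : L →ₐ[ℚ] ℂ, σ ζ = τ ζ → σ = τ := by
    intro σ τ h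
    have h1 : Algebra.adjoin ℚ {ζ} = ⊤ :=
      IsCyclotomicExtension.adjoin_primitive_root_eq_top hζ
    refine AlgHom.ext_of_adjoin_eq_top h1 ?_
    intro x hx
    rw [Set.mem_singleton_iff] at hx
    rw [hx, h]
  let e0 : (L →ₐ[ℚ] ℂ) → {χ : G →* ℂˣ // χ ≠ 1} := fun σ =>
    ⟨(Units.map (σ : L →* ℂ)).comp ψ, by
      intro h
      have h1 := DFunLike.congr_fun h g
      have h2 : σ ζ = 1 := by
        have h3 := congrArg (fun u : ℂˣ => (u : ℂ)) h1
        simpa [hψg, hζu] using h3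
      have h3 : σ ζ = σ 1 := by rw [h2, map_one]
      have h4 : ζ = 1 := σ.toRingHom.injective h3
      exact hζ.ne_one hp.one_lt h4⟩
  have he0 : ∀ σ (x : G), (((e0 σ).1 x : ℂˣ) : ℂ) = σ (ψ x : L) := fun σ x => rfl
  have hinj : Function.Injective e0 := by
    intro σ τ h
    apply hinjζ
    have h1 := he0 σ g
    rw [h, he0 τ g, hψg, hζu, Units.val_mk0] at h1
    exact h1.symm
  have := px2_finite (G := G)
  have hfd : FiniteDimensional ℚ L := IsCyclotomicExtension.finiteDimensional {p} ℚ L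
  have hcard : Nat.card {χ : G →* ℂˣ // χ ≠ 1} ≤ Nat.card (L →ₐ[ℚ] ℂ) := by
    have h1 : Nat.card (L →ₐ[ℚ] ℂ) = p - 1 := by
      rw [Nat.card_eq_fintype_card, AlgHom.card ℚ L ℂ,
        IsCyclotomicExtension.finrank L (Polynomial.cyclotomic.irreducible_rat hp.pos),
        Nat.totient_prime hp]
    have h2 : Nat.card {χ : G →* ℂˣ // χ ≠ 1} = p - 1 := by
      let _ : Fintype (G →* ℂˣ) := Fintype.ofFinite _
      rw [Nat.card_eq_fintype_card, Fintype.card_subtype_compl, Fintype.card_subtype_eq,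
        Fintype.card_eq_nat_card, px2_card, hG]
    rw [h1, h2]
  have hbij : Function.Bijective e0 := hinj.bijective_of_nat_card_le hcard
  refine ⟨L, inferInstance, inferInstance, hfd, φ, Equiv.ofBijective e0 hbij, hsurj, ?_⟩
  intro σ x
  rw [px2_evQ_apply]
  have h1 : φ x = ∑ y : G, algebraMap ℚ L (x.coeff y) * (ψ y : L) := by
    rw [hφ, MonoidAlgebra.lift_apply, Finsupp.sum_fintype]
    · refine Finset.sum_congr rfl fun y _ => ?_
      rw [Algebra.smul_def]
      rfl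
    · intro y
      rw [zero_smul]
  rw [h1, map_sum]
  refine Finset.sum_congr rfl fun y _ => ?_
  rw [map_mul, AlgHom.commutes, Equiv.ofBijective_apply, he0]
  rfl

/-- the norm from `ℚ(ζ_p)` of an element is rational -/
theorem pX_rat {p : ℕ} (hp : p.Prime) (hG : Nat.card G = p) (x : MonoidAlgebra ℚ G) :
    ∃ q : ℚ, pX (fun χ => evQ χ x) = q := by
  classical
  obtain ⟨L, _, _, _, φ, e, hφ, he⟩ := px2_setup hp hG
  refine ⟨Algebra.norm ℚ (φ x), ?_⟩
  have h1 := Algebra.norm_eq_prod_embeddings ℚ ℂ (φ x)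
  unfold pX
  rw [← finprod_comp_equiv e, finprod_eq_prod_of_fintype]
  simp only [he]
  rw [← h1]
  rfl

/-- an element with prescribed values at the nontrivial characters is rational, if it is a quotient
of rational elements -/
theorem div_exists {p : ℕ} (hp : p.Prime) (hG : Nat.card G = p) (x y : MonoidAlgebra ℚ G)
    (hy : ∀ χ : G →* ℂˣ, χ ≠ 1 → evQ χ y ≠ 0) :
    ∃ z : MonoidAlgebra ℚ G, toQ G (nrm G) * z = 0 ∧
      ∀ χ : G →* ℂˣ, χ ≠ 1 → evQ χ z * evQ χ y = evQ χ x := by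
  classical
  obtain ⟨L, _, _, _, φ, e, hφ, he⟩ := px2_setup hp hG
  have : Algebra.IsAlgebraic ℚ L := Algebra.IsAlgebraic.of_finite ℚ L
  have σ₀ : L →ₐ[ℚ] ℂ := IsAlgClosed.lift
  have hy0 : φ y ≠ 0 := by
    intro h
    have h1 := hy (e σ₀).1 (e σ₀).2
    apply h1
    rw [he, h, map_zero]
  obtain ⟨z₀, hz₀⟩ := hφ (φ x / φ y)
  have hp0 : (p : ℚ) ≠ 0 := by exact_mod_cast hp.ne_zero
  refine ⟨z₀ - MonoidAlgebra.single 1 (1 / (p : ℚ)) * (toQ G (nrm G) * z₀), ?_, ?_⟩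
  · rw [evQ_one_nrm, map_sub, map_mul, map_mul, px2_evQ_nrm_one, px2_evQ_single, hG]
    have hpc : (p : ℂ) ≠ 0 := by exact_mod_cast hp.ne_zero
    push_cast
    rw [MonoidHom.one_apply, Units.val_one]
    field_simp
    ring
  · intro χ hχ
    have h1 : evQ χ (z₀ - MonoidAlgebra.single 1 (1 / (p : ℚ)) * (toQ G (nrm G) * z₀)) =
        evQ χ z₀ := by
      rw [map_sub, map_mul, map_mul, px2_evQ_nrm hχ, zero_mul, mul_zero, sub_zero]
    rw [h1]
    obtain ⟨σ, hσ⟩ := e.surjective ⟨χ, hχ⟩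
    have h2 : (e σ).1 = χ := by rw [hσ]
    rw [← h2, he, he, he, ← map_mul, hz₀, div_mul_cancel₀ _ hy0]

end PX2

end Pool.Agent.RSK
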