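import Pool.Agent.Lib_helper17.RS.Bas
import Pool.Agent.Lib_helper17.RS.P_PX1
import Pool.Agent.Lib_helper17.RS.P_PX2
/-!
# Rubin-Stark, block AB: the local statement at `p`

Uses: PX1 (dual_finite), PX2 (pX_rat, evQ_one_nrm), nothing else.
-/

namespace Pool.Agent.RSK

set_option linter.unusedSectionVars false

open Filter Topology Complex

section AB

variable {G : Type} [CommGroup G] [Fintype G]

/-- the augmentation -/
noncomputable def ab_eps (G : Type) [CommGroup G] : MonoidAlgebra ℤ G →ₐ[ℤ] ℤ :=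
  MonoidAlgebra.lift ℤ ℤ G 1

theorem ab_eps_single (g : G) (n : ℤ) : ab_eps G (MonoidAlgebra.single g n) = n := by
  simp [ab_eps]

theorem ab_evZ_single (χ : G →* ℂˣ) (g : G) (n : ℤ) :
    evZ χ (MonoidAlgebra.single g n) = (n : ℂ) * ((χ g : ℂˣ) : ℂ) := by
  unfold evZ
  rw [RingHom.comp_apply]
  simp [toQ, evQ, Rat.smul_def]

theorem ab_evZ_one (a : MonoidAlgebra ℤ G) : evZ (1 : G →* ℂˣ) a = (ab_eps G a : ℂ) := by
  induction a using MonoidAlgebra.induction_linear with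
  | zero => simp
  | add x y hx hy => rw [map_add, hx, hy, map_add]; push_cast; rfl
  | single g n => rw [ab_evZ_single, ab_eps_single]; simp

/-- `a = ε(a) + (σ - 1) a'` -/
theorem ab_aug {p : ℕ} (hp : p.Prime) (hG : Nat.card G = p) {σ : G} (hσ : σ ≠ 1)
    (a : MonoidAlgebra ℤ G) : ∃ a' : MonoidAlgebra ℤ G,
      a = (ab_eps G a : MonoidAlgebra ℤ G) + (MonoidAlgebra.single σ 1 - 1) * a' := by
  have : Fact p.Prime := ⟨hp⟩
  induction a using MonoidAlgebra.induction_linear with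
  | zero => exact ⟨0, by simp⟩
  | add x y hx hy =>
    obtain ⟨x', hx'⟩ := hx
    obtain ⟨y', hy'⟩ := hy
    refine ⟨x' + y', ?_⟩
    rw [map_add, Int.cast_add, mul_add]
    linear_combination hx' + hy'
  | single g n =>
    have h1 : g ∈ Subgroup.zpowers σ := mem_zpowers_of_prime_card hG hσ
    obtain ⟨i, rfl⟩ := (mem_powers_iff_mem_zpowers.2 h1)
    have h2 := sub_dvd_pow_sub_pow (MonoidAlgebra.single σ (1 : ℤ)) 1 i
    obtain ⟨c, hc⟩ := h2
    refine ⟨n * c, ?_⟩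
    have h3 : MonoidAlgebra.single (σ ^ i) n = (n : MonoidAlgebra ℤ G) *
        (MonoidAlgebra.single σ (1 : ℤ)) ^ i := by
      rw [MonoidAlgebra.single_pow, one_pow]
      have : (n : MonoidAlgebra ℤ G) = MonoidAlgebra.single 1 n := by
        simp [MonoidAlgebra.intCast_def]
      rw [this, MonoidAlgebra.single_mul_single, one_mul, mul_one]
    show MonoidAlgebra.single (σ ^ i) n = _
    rw [ab_eps_single, h3]
    rw [one_pow] at hc
    linear_combination (n : MonoidAlgebra ℤ G) * hc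

/-- `a ^ p = ε(a) + p c` -/
theorem ab_frob {p : ℕ} (hp : p.Prime) (hG : Nat.card G = p) (a : MonoidAlgebra ℤ G) :
    ∃ c : MonoidAlgebra ℤ G, a ^ p = (ab_eps G a : MonoidAlgebra ℤ G) + (p : MonoidAlgebra ℤ G) * c := by
  have : Fact p.Prime := ⟨hp⟩
  induction a using MonoidAlgebra.induction_linear with
  | zero => exact ⟨0, by simp [hp.ne_zero]⟩
  | add x y hx hy =>
    obtain ⟨x', hx'⟩ := hx
    obtain ⟨y', hy'⟩ := hy
    obtain ⟨r, hr⟩ := exists_add_pow_prime_eq hp x y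
    refine ⟨x' + y' + x * y * r, ?_⟩
    rw [hr, hx', hy', map_add, Int.cast_add]
    ring
  | single g n =>
    have h1 : (p : ℤ) ∣ n ^ p - n := by
      rw [← Int.modEq_iff_dvd]
      have := (ZMod.intCast_eq_intCast_iff n (n ^ p) p).1 (by
        push_cast
        rw [ZMod.pow_card])
      exact this
    obtain ⟨m, hm⟩ := h1
    refine ⟨(m : MonoidAlgebra ℤ G), ?_⟩
    rw [MonoidAlgebra.single_pow, ab_eps_single]
    have h2 : g ^ p = 1 := by
      rw [← hG]; exact pow_card_eq_one'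
    have h3 : MonoidAlgebra.single (1 : G) (n ^ p) = ((n ^ p : ℤ) : MonoidAlgebra ℤ G) := by
      simp [MonoidAlgebra.intCast_def]
    rw [h2, h3, show n ^ p = n + p * m by linarith]
    push_cast
    ring

theorem ab_integral {p : ℕ} (hp : p.Prime) (hG : Nat.card G = p) (χ : G →* ℂˣ)
    (a : MonoidAlgebra ℤ G) : IsIntegral ℤ (evZ χ a) := by
  induction a using MonoidAlgebra.induction_linear with
  | zero => rw [map_zero]; exact isIntegral_zero
  | add x y hx hy => rw [map_add]; exact hx.add hy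
  | single g n =>
    rw [ab_evZ_single]
    refine IsIntegral.mul (isIntegral_intCast n) ?_
    have h2 : g ^ p = 1 := by
      rw [← hG]; exact pow_card_eq_one'
    refine IsIntegral.of_pow hp.pos ?_
    rw [← Units.val_pow_eq_pow_val, ← map_pow, h2, map_one, Units.val_one]
    exact isIntegral_one

theorem isIntegral_intCast' (n : ℤ) : IsIntegral ℤ (n : ℂ) := isIntegral_algebraMap (x := n)

theorem ab_prod_integral {I : Type} (s : Finset I) (f : I → ℂ) (h : ∀ i ∈ s, IsIntegral ℤ (f i)) :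
    IsIntegral ℤ (∏ i ∈ s, f i) := IsIntegral.prod _ h

theorem ab_int_of_rat {q : ℚ} (h : IsIntegral ℤ (q : ℂ)) : ∃ m : ℤ, (q : ℂ) = m := by
  have h1 : IsIntegral ℤ q := (isIntegral_algebraMap_iff (algebraMap ℚ ℂ).injective).1 h
  obtain ⟨m, hm⟩ := IsIntegrallyClosed.isIntegral_iff.1 h1
  refine ⟨m, ?_⟩
  rw [← hm]
  simp

theorem ab_norm_int {p : ℕ} (hp : p.Prime) (hG : Nat.card G = p) (a : MonoidAlgebra ℤ G) :
    ∃ m : ℤ, pX (fun χ : G →* ℂˣ => evZ χ a) = m := by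
  classical
  obtain ⟨q, hq⟩ := pX_rat hp hG (toQ G a)
  have h0 : pX (fun χ : G →* ℂˣ => evZ χ a) = q := hq
  have h1 : IsIntegral ℤ (pX (fun χ : G →* ℂˣ => evZ χ a)) := by
    have : Finite (G →* ℂˣ) := dual_finite
    have := Fintype.ofFinite {χ : G →* ℂˣ // χ ≠ 1}
    unfold pX
    rw [finprod_eq_prod_of_fintype]
    exact ab_prod_integral _ _ fun χ _ => ab_integral hp hG χ.1 a
  rw [h0] at h1 ⊢
  exact ab_int_of_rat h1

theorem ab_prod_mod {I : Type} [DecidableEq I] (s : Finset I) (e : ℤ) (p : ℕ) (c : I → ℂ)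
    (h : ∀ i ∈ s, IsIntegral ℤ (c i)) : ∃ z : ℂ, IsIntegral ℤ z ∧
      ∏ i ∈ s, ((e : ℂ) + p * c i) = (e : ℂ) ^ s.card + p * z := by
  induction s using Finset.induction_on with
  | empty => exact ⟨0, isIntegral_zero, by simp⟩
  | insert a s ha ih =>
    obtain ⟨z, hz, hz'⟩ := ih fun i hi => h i (Finset.mem_insert_of_mem hi)
    refine ⟨(e : ℂ) * z + c a * (e : ℂ) ^ s.card + c a * ((p : ℂ) * z), ?_, ?_⟩
    · have he : IsIntegral ℤ (e : ℂ) := isIntegral_intCast' e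
      have hp' : IsIntegral ℤ (p : ℂ) := by
        have := isIntegral_intCast' (p : ℤ)
        simpa using this
      have hc := h a (Finset.mem_insert_self _ _)
      exact ((he.mul hz).add (hc.mul (he.pow _))).add (hc.mul (hp'.mul hz))
    · rw [Finset.prod_insert ha, hz', Finset.card_insert_of_notMem ha]
      ring

/-- `N(a) ≡ 0` implies `ε(a) ≡ 0` modulo `p` -/
theorem ab_key {p : ℕ} (hp : p.Prime) (hG : Nat.card G = p) (a : MonoidAlgebra ℤ G) {m : ℤ}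
    (hm : pX (fun χ : G →* ℂˣ => evZ χ a) = m) (h : (p : ℤ) ∣ m) : (p : ℤ) ∣ ab_eps G a := by
  classical
  have : Finite (G →* ℂˣ) := dual_finite
  have := Fintype.ofFinite {χ : G →* ℂˣ // χ ≠ 1}
  obtain ⟨c, hc⟩ := ab_frob hp hG a
  have h1 : ∀ χ : G →* ℂˣ, evZ χ a ^ p = (ab_eps G a : ℂ) + p * evZ χ c := by
    intro χ
    have := congrArg (evZ χ) hc
    rw [map_pow, map_add, map_mul, map_intCast, map_natCast] at this
    exact this
  obtain ⟨z, hz, hz'⟩ := ab_prod_mod (Finset.univ : Finset {χ : G →* ℂˣ // χ ≠ 1})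
    (ab_eps G a) p (fun χ => evZ χ.1 c) fun χ _ => ab_integral hp hG χ.1 c
  have h2 : (m : ℂ) ^ p = (ab_eps G a : ℂ) ^ (Finset.univ : Finset {χ : G →* ℂˣ // χ ≠ 1}).card
      + p * z := by
    rw [← hz', ← hm]
    unfold pX
    rw [finprod_eq_prod_of_fintype, ← Finset.prod_pow]
    exact Finset.prod_congr rfl fun χ _ => h1 χ.1
  set k := (Finset.univ : Finset {χ : G →* ℂˣ // χ ≠ 1}).card with hk
  have hp0 : (p : ℂ) ≠ 0 := Nat.cast_ne_zero.2 hp.ne_zero
  have h3 : z = (((m ^ p - (ab_eps G a) ^ k : ℤ) / (p : ℚ) : ℚ) : ℂ) := by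
    push_cast
    rw [h2]
    field_simp
    ring
  rw [h3] at hz
  obtain ⟨n, hn⟩ := ab_int_of_rat hz
  have h4 : (m ^ p - (ab_eps G a) ^ k : ℤ) = p * n := by
    have h5 : (((m ^ p - (ab_eps G a) ^ k : ℤ) / (p : ℚ) : ℚ) : ℂ) = ((n : ℚ) : ℂ) := by
      rw [hn]; simp
    have h6 := (Rat.cast_injective (α := ℂ)) h5
    have hp1 : (p : ℚ) ≠ 0 := Nat.cast_ne_zero.2 hp.ne_zero
    rw [div_eq_iff hp1] at h6
    have h7 : ((m ^ p - (ab_eps G a) ^ k : ℤ) : ℚ) = ((p * n : ℤ) : ℚ) := by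
      rw [h6]; push_cast; ring
    exact_mod_cast h7
  have h8 : (p : ℤ) ∣ (ab_eps G a) ^ k := by
    have h9 : (ab_eps G a) ^ k = m ^ p - p * n := by linarith
    rw [h9]
    exact dvd_sub (dvd_pow h hp.ne_zero) (dvd_mul_right _ _)
  exact (Nat.prime_iff_prime_int.1 hp).dvd_of_dvd_pow h8

/-- `(σ-1)^p = p (σ-1) c` with `ε(c) = -1` -/
theorem ab_pi {p : ℕ} (hp : p.Prime) (hG : Nat.card G = p) (σ : G) :
    ∃ c : MonoidAlgebra ℤ G, (MonoidAlgebra.single σ (1 : ℤ) - 1) ^ p =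
      (p : MonoidAlgebra ℤ G) * ((MonoidAlgebra.single σ 1 - 1) * c) ∧ ab_eps G c = -1 := by
  set π : MonoidAlgebra ℤ G := MonoidAlgebra.single σ 1 - 1 with hπ
  have hε : ab_eps G π = 0 := by
    rw [hπ, map_sub, ab_eps_single, map_one, sub_self]
  have h1 := add_pow_prime_eq hp π 1
  have h2 : (π + 1) ^ p = 1 := by
    rw [hπ, sub_add_cancel, MonoidAlgebra.single_pow, one_pow]
    have : σ ^ p = 1 := by rw [← hG]; exact pow_card_eq_one'
    rw [this]
    rfl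
  rw [h2, one_pow, mul_one] at h1
  refine ⟨-(∑ k ∈ Finset.Ioo 0 p, π ^ (k - 1) * 1 ^ (p - k - 1) * ↑(p.choose k / p)), ?_, ?_⟩
  · linear_combination -h1
  · rw [map_neg, map_sum]
    have h3 : ∀ k ∈ Finset.Ioo 0 p, ab_eps G (π ^ (k - 1) * 1 ^ (p - k - 1) *
        ((p.choose k / p : ℕ) : MonoidAlgebra ℤ G)) = if k = 1 then 1 else 0 := by
      intro k hk
      rw [Finset.mem_Ioo] at hk
      rw [map_mul, map_mul, map_pow, hε, one_pow, map_one, mul_one, map_natCast]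
      rcases Nat.eq_or_lt_of_le (Nat.succ_le_of_lt hk.1) with h | h
      · rw [if_pos h.symm, ← h]
        simp [Nat.div_self hp.pos]
      · rw [if_neg (by omega), zero_pow (by omega), zero_mul]
    rw [Finset.sum_congr rfl h3, Finset.sum_ite_eq', if_pos]
    rw [Finset.mem_Ioo]
    exact ⟨one_pos, hp.one_lt⟩

theorem ab_pi_pow {p : ℕ} (hp : p.Prime) (hG : Nat.card G = p) (σ : G) (k : ℕ) :
    ∃ a : MonoidAlgebra ℤ G, (MonoidAlgebra.single σ (1 : ℤ) - 1) ^ ((p - 1) * k + 1) =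
      (p : MonoidAlgebra ℤ G) ^ k * ((MonoidAlgebra.single σ 1 - 1) * a) := by
  obtain ⟨c, hc, -⟩ := ab_pi hp hG σ
  induction k with
  | zero => exact ⟨1, by simp⟩
  | succ k ih =>
    obtain ⟨a, ha⟩ := ih
    refine ⟨c * a, ?_⟩
    have h1 : (p - 1) * (k + 1) + 1 = (p - 1) + ((p - 1) * k + 1) := by ring
    have h2 : (MonoidAlgebra.single σ (1 : ℤ) - 1) ^ (p - 1) *
        (MonoidAlgebra.single σ (1 : ℤ) - 1) = (MonoidAlgebra.single σ (1 : ℤ) - 1) ^ p := by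
      rw [← pow_succ, Nat.sub_add_cancel hp.one_le]
    rw [h1, pow_add, ha]
    rw [hc] at h2
    linear_combination (p : MonoidAlgebra ℤ G) ^ k * a * h2

theorem ab_pX_mul (a b : MonoidAlgebra ℤ G) : pX (fun χ : G →* ℂˣ => evZ χ (a * b)) =
    pX (fun χ : G →* ℂˣ => evZ χ a) * pX (fun χ : G →* ℂˣ => evZ χ b) := by
  rw [← pX_mul]
  exact pX_congr fun χ _ => map_mul _ _ _

theorem ab_pX_pow (a : MonoidAlgebra ℤ G) (k : ℕ) : pX (fun χ : G →* ℂˣ => evZ χ (a ^ k)) =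
    pX (fun χ : G →* ℂˣ => evZ χ a) ^ k := by
  induction k with
  | zero =>
    have : pX (fun χ : G →* ℂˣ => evZ χ ((a ^ 0 : MonoidAlgebra ℤ G))) = 1 := by
      have h : (fun χ : {χ : G →* ℂˣ // χ ≠ 1} => evZ χ.1 ((a ^ 0 : MonoidAlgebra ℤ G))) =
          fun _ => (1 : ℂ) := by
        funext χ
        rw [pow_zero, map_one]
      unfold pX
      rw [h, finprod_one]
    rw [this, pow_zero]
  | succ k ih => rw [pow_succ, ab_pX_mul, ih, pow_succ]

theorem ab_pi_ne {p : ℕ} (hp : p.Prime) (hG : Nat.card G = p) {σ : G} (hσ : σ ≠ 1)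
    (χ : G →* ℂˣ) (hχ : χ ≠ 1) : evZ χ (MonoidAlgebra.single σ (1 : ℤ) - 1) ≠ 0 := by
  have : Fact p.Prime := ⟨hp⟩
  intro h
  rw [map_sub, ab_evZ_single, map_one, Int.cast_one, one_mul, sub_eq_zero] at h
  apply hχ
  ext g
  have h1 : g ∈ Subgroup.zpowers σ := mem_zpowers_of_prime_card hG hσ
  obtain ⟨i, rfl⟩ := (mem_powers_iff_mem_zpowers.2 h1)
  show ((χ (σ ^ i) : ℂˣ) : ℂ) = _
  rw [map_pow, Units.val_pow_eq_pow_val, h]
  simp

/-- the norm of `σ - 1` is `p` times a unit at `p` -/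
theorem ab_norm_pi {p : ℕ} (hp : p.Prime) (hG : Nat.card G = p) {σ : G} (hσ : σ ≠ 1) :
    ∃ u : ℤ, pX (fun χ : G →* ℂˣ => evZ χ (MonoidAlgebra.single σ (1 : ℤ) - 1)) = (p : ℂ) * u ∧
      ¬ (p : ℤ) ∣ u := by
  obtain ⟨c, hc, hε⟩ := ab_pi hp hG σ
  obtain ⟨m, hm⟩ := ab_norm_int hp hG (MonoidAlgebra.single σ (1 : ℤ) - 1)
  obtain ⟨n, hn⟩ := ab_norm_int hp hG c
  have hnp : ¬ (p : ℤ) ∣ n := by
    intro h
    have h1 := ab_key hp hG c hn h
    rw [hε] at h1
    have h2 : (p : ℤ) ∣ 1 := (dvd_neg).1 h1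
    have h3 : p ∣ 1 := by exact_mod_cast h2
    exact hp.one_lt.ne' (Nat.dvd_one.1 h3)
  -- `m ^ (p-1) = p ^ (p-1) n`
  have h1 : (m : ℂ) ^ (p - 1) = (p : ℂ) ^ (p - 1) * n := by
    have h2 : pX (fun χ : G →* ℂˣ => evZ χ (MonoidAlgebra.single σ (1 : ℤ) - 1) ^ (p - 1)) =
        pX (fun χ : G →* ℂˣ => (p : ℂ) * evZ χ c) := by
      refine pX_congr fun χ hχ => ?_
      have h3 := congrArg (evZ χ) hc
      rw [map_pow, map_mul, map_natCast, map_mul] at h3
      have h4 := ab_pi_ne hp hG hσ χ hχ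
      have h5 : evZ χ (MonoidAlgebra.single σ (1 : ℤ) - 1) ^ p =
          evZ χ (MonoidAlgebra.single σ (1 : ℤ) - 1) ^ (p - 1) *
            evZ χ (MonoidAlgebra.single σ (1 : ℤ) - 1) := by
        rw [← pow_succ, Nat.sub_add_cancel hp.one_le]
      rw [h5] at h3
      apply mul_right_cancel₀ h4
      rw [h3]
      ring
    have h3 : pX (fun χ : G →* ℂˣ => evZ χ (MonoidAlgebra.single σ (1 : ℤ) - 1) ^ (p - 1)) =
        (m : ℂ) ^ (p - 1) := by
      rw [← hm, ← ab_pX_pow]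
      exact pX_congr fun χ _ => (map_pow _ _ _).symm
    rw [← h3, h2, pX_mul, pX_const hG, hn]
  have h2 : m ^ (p - 1) = (p : ℤ) ^ (p - 1) * n := by exact_mod_cast h1
  have hpi := Nat.prime_iff_prime_int.1 hp
  have hp1 : p - 1 ≠ 0 := by have := hp.two_le; omega
  have h3 : (p : ℤ) ∣ m := by
    refine hpi.dvd_of_dvd_pow (n := p - 1) ?_
    rw [h2]
    exact (dvd_pow_self _ hp1).mul_right _
  obtain ⟨u, rfl⟩ := h3
  refine ⟨u, by rw [hm]; push_cast; rfl, fun h => hnp ?_⟩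
  have h4 : (p : ℤ) ^ (p - 1) ≠ 0 := pow_ne_zero _ (by exact_mod_cast hp.ne_zero)
  rw [mul_pow] at h2
  have h5 := mul_left_cancel₀ h4 h2
  rw [← h5]
  exact dvd_pow h hp1

theorem ab_nrm_pi (σ : G) :
    (MonoidAlgebra.single σ (1 : ℤ) - 1) * nrm G = 0 := by
  unfold nrm
  rw [sub_mul, one_mul, Finset.mul_sum, sub_eq_zero]
  have : ∀ g : G, MonoidAlgebra.single σ (1 : ℤ) * MonoidAlgebra.single g 1 =
      MonoidAlgebra.single (σ * g) 1 := fun g => by
    rw [MonoidAlgebra.single_mul_single, one_mul]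
  simp only [this]
  exact Fintype.sum_equiv (Equiv.mulLeft σ) _ _ fun g => rfl

theorem ab_eps_nrm {p : ℕ} (hG : Nat.card G = p) : ab_eps G (nrm G) = p := by
  unfold nrm
  rw [map_sum]
  simp only [ab_eps_single]
  rw [Finset.sum_const, Finset.card_univ, ← Nat.card_eq_fintype_card, hG]
  simp

/-- descent -/
theorem ab_desc {p : ℕ} (hp : p.Prime) (hG : Nat.card G = p) {σ : G} (hσ : σ ≠ 1) (e : ℕ) :
    ∀ (a : MonoidAlgebra ℤ G) (m : ℤ), pX (fun χ : G →* ℂˣ => evZ χ a) = m → (p : ℤ) ^ e ∣ m →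
      ∃ a' : MonoidAlgebra ℤ G, (MonoidAlgebra.single σ (1 : ℤ) - 1) * a =
        (MonoidAlgebra.single σ (1 : ℤ) - 1) ^ (e + 1) * a' := by
  induction e with
  | zero => intro a m _ _; exact ⟨a, by ring⟩
  | succ e ih =>
    intro a m hm hd
    have hpm : (p : ℤ) ∣ m := (dvd_pow_self _ (Nat.succ_ne_zero e)).trans hd
    obtain ⟨c, hc⟩ := ab_key hp hG a hm hpm
    -- `a - c nrm` has augmentation zero
    obtain ⟨a₁, ha₁⟩ := ab_aug hp hG hσ (a - c * nrm G)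
    have h1 : ab_eps G (a - c * nrm G) = 0 := by
      rw [map_sub, map_mul, map_intCast, ab_eps_nrm hG, hc, Int.cast_id]
      ring
    rw [h1, Int.cast_zero, zero_add] at ha₁
    obtain ⟨u, hu, hup⟩ := ab_norm_pi hp hG hσ
    obtain ⟨n, hn⟩ := ab_norm_int hp hG a₁
    have h2 : (m : ℂ) = (p : ℂ) * u * n := by
      rw [← hm, ← hu, ← hn, ← ab_pX_mul]
      refine pX_congr fun χ hχ => ?_
      rw [← ha₁, map_sub, map_mul]
      have h3 : evZ χ (nrm G) = 0 := by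
        have h4 := congrArg (evZ χ) (ab_nrm_pi (G := G) σ)
        rw [map_mul, map_zero] at h4
        exact (mul_eq_zero.1 h4).resolve_left (ab_pi_ne hp hG hσ χ hχ)
      rw [h3, mul_zero, sub_zero]
    have h3 : m = p * (u * n) := by
      have : (m : ℂ) = ((p * (u * n) : ℤ) : ℂ) := by rw [h2]; push_cast; ring
      exact_mod_cast this
    have hpi := Nat.prime_iff_prime_int.1 hp
    have h4 : (p : ℤ) ^ e ∣ n := by
      rw [h3, pow_succ', mul_dvd_mul_iff_left (by exact_mod_cast hp.ne_zero)] at hd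
      refine (IsCoprime.pow_left ?_).dvd_of_dvd_mul_left hd
      exact (Prime.coprime_iff_not_dvd hpi).2 hup
    obtain ⟨a', ha'⟩ := ih a₁ n hn h4
    refine ⟨a', ?_⟩
    have h5 := ab_nrm_pi (G := G) σ
    rw [pow_succ', mul_assoc, ← ha', ← ha₁]
    linear_combination (c : MonoidAlgebra ℤ G) * h5

theorem ab_toQ_inj : Function.Injective (toQ G) := by
  intro a b h
  unfold toQ at h
  ext g
  have h1 := congrArg (fun x : MonoidAlgebra ℚ G => x.coeff g) h
  simp only [MonoidAlgebra.coeff_mapRingHom, eq_intCast] at h1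
  exact_mod_cast h1

theorem ab_natCast (n : ℕ) : MonoidAlgebra.single (1 : G) (n : ℚ) = toQ G (n : MonoidAlgebra ℤ G) := by
  rw [map_natCast]
  simp [MonoidAlgebra.natCast_def]

theorem ab_den (y : MonoidAlgebra ℚ G) : ∃ (N : ℕ) (a : MonoidAlgebra ℤ G), N ≠ 0 ∧
    MonoidAlgebra.single 1 (N : ℚ) * y = toQ G a := by
  induction y using MonoidAlgebra.induction_linear with
  | zero => exact ⟨1, 0, one_ne_zero, by simp⟩
  | add x y hx hy =>
    obtain ⟨N, a, hN, ha⟩ := hx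
    obtain ⟨N', a', hN', ha'⟩ := hy
    refine ⟨N * N', N' * a + N * a', mul_ne_zero hN hN', ?_⟩
    rw [map_add, map_mul, map_mul, ← ha, ← ha', ab_natCast, Nat.cast_mul, map_mul, ab_natCast,
      ab_natCast]
    ring
  | single g q =>
    refine ⟨q.den, MonoidAlgebra.single g q.num, q.den_ne_zero, ?_⟩
    rw [MonoidAlgebra.single_mul_single, one_mul, Rat.den_mul_eq_num]
    simp [toQ]

/-- Elements whose norm is divisible by `p ^ n` are divisible by `(σ - 1) ^ n`, locally at `p`. -/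
theorem alg_at {p : ℕ} (hp : p.Prime) (hG : Nat.card G = p) {σ : G} (hσ : σ ≠ 1)
    (y : MonoidAlgebra ℚ G) (hy : toQ G (nrm G) * y = 0) {n : ℕ} (hn : 0 < n)
    (hN : ∃ t : ℤ, pX (fun χ => evQ χ y) = (p : ℂ) ^ n * t) :
    ∃ (k : ℕ) (a : MonoidAlgebra ℤ G), ¬ p ∣ k ∧ MonoidAlgebra.single 1 (k : ℚ) * y =
      toQ G ((MonoidAlgebra.single σ 1 - 1) ^ n * a) := by
  obtain ⟨t, ht⟩ := hN
  obtain ⟨N, a₀, hN0, ha₀⟩ := ab_den y
  obtain ⟨j, k, hpk, hNk⟩ := Nat.exists_eq_pow_mul_and_not_dvd hN0 p hp.ne_one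
  have hpi := Nat.prime_iff_prime_int.1 hp
  have hp0 : (p : ℤ) ≠ 0 := by exact_mod_cast hp.ne_zero
  -- the augmentation of `a₀` vanishes
  have h1 : ab_eps G a₀ = 0 := by
    have h2 : nrm G * a₀ = 0 := by
      apply ab_toQ_inj (G := G)
      rw [map_mul, ← ha₀, map_zero, mul_left_comm, hy, mul_zero]
    have h3 := congrArg (ab_eps G) h2
    rw [map_mul, ab_eps_nrm hG, map_zero] at h3
    exact (mul_eq_zero.1 h3).resolve_left hp0
  obtain ⟨a₁, ha₁⟩ := ab_aug hp hG hσ a₀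
  rw [h1, Int.cast_zero, zero_add] at ha₁
  obtain ⟨u, hu, hup⟩ := ab_norm_pi hp hG hσ
  obtain ⟨m, hm⟩ := ab_norm_int hp hG a₁
  -- norms
  have h2 : (p : ℂ) * u * m = (N : ℂ) ^ (p - 1) * ((p : ℂ) ^ n * t) := by
    rw [← hu, ← hm, ← ab_pX_mul, ← ha₁, ← ht, ← pX_const (G := G) hG (N : ℂ), ← pX_mul]
    refine pX_congr fun χ _ => ?_
    have h3 : evZ χ a₀ = evQ χ (toQ G a₀) := rfl
    rw [h3, ← ha₀, map_mul]
    congr 1
    rw [ab_natCast, map_natCast, map_natCast]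
  have h3 : (p : ℤ) * (u * m) = (p : ℤ) * ((p : ℤ) ^ ((p - 1) * j + n - 1) *
      ((k : ℤ) ^ (p - 1) * t)) := by
    have h4 : (p : ℤ) * ((p : ℤ) ^ ((p - 1) * j + n - 1)) = (p : ℤ) ^ ((p - 1) * j + n) := by
      rw [← pow_succ']
      congr 1
      omega
    have h5 : (p : ℤ) * (u * m) = (N : ℤ) ^ (p - 1) * ((p : ℤ) ^ n * t) := by
      have : (((p : ℤ) * (u * m) : ℤ) : ℂ) = (((N : ℤ) ^ (p - 1) * ((p : ℤ) ^ n * t) : ℤ) : ℂ) := by
        push_cast
        rw [← h2]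
        ring
      exact_mod_cast this
    rw [h5, ← mul_assoc (p : ℤ), h4, hNk]
    push_cast
    rw [mul_pow, ← pow_mul, pow_add, mul_comm j (p - 1)]
    ring
  have h4 : (p : ℤ) ^ ((p - 1) * j + n - 1) ∣ m := by
    have h5 := mul_left_cancel₀ hp0 h3
    have h6 : (p : ℤ) ^ ((p - 1) * j + n - 1) ∣ u * m := by
      rw [h5]; exact dvd_mul_right _ _
    refine (IsCoprime.pow_left ?_).dvd_of_dvd_mul_left h6
    exact (Prime.coprime_iff_not_dvd hpi).2 hup
  obtain ⟨a', ha'⟩ := ab_desc hp hG hσ _ a₁ m hm h4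
  obtain ⟨a₂, ha₂⟩ := ab_pi_pow hp hG σ j
  have h5 : a₀ = (p : MonoidAlgebra ℤ G) ^ j *
      ((MonoidAlgebra.single σ 1 - 1) ^ n * (a₂ * a')) := by
    have e1 : (p - 1) * j + n - 1 + 1 = ((p - 1) * j + 1) + (n - 1) := by omega
    have e2 : (MonoidAlgebra.single σ (1 : ℤ) - 1) ^ n =
        (MonoidAlgebra.single σ (1 : ℤ) - 1) * (MonoidAlgebra.single σ (1 : ℤ) - 1) ^ (n - 1) := by
      rw [← pow_succ']
      congr 1
      omega
    rw [ha₁, ha', e1, pow_add, ha₂, e2]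
    ring
  refine ⟨k, a₂ * a', hpk, ?_⟩
  have hj : (p : ℚ) ^ j ≠ 0 := pow_ne_zero _ (Nat.cast_ne_zero.2 hp.ne_zero)
  have h6 : MonoidAlgebra.single (1 : G) ((p : ℚ) ^ j)⁻¹ *
      MonoidAlgebra.single (1 : G) ((p ^ j : ℕ) : ℚ) = 1 := by
    rw [MonoidAlgebra.single_mul_single, one_mul, Nat.cast_pow, inv_mul_cancel₀ hj]
    rfl
  have h7 : MonoidAlgebra.single (1 : G) ((p ^ j : ℕ) : ℚ) * (MonoidAlgebra.single 1 (k : ℚ) * y) =
      MonoidAlgebra.single (1 : G) ((p ^ j : ℕ) : ℚ) *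
        toQ G ((MonoidAlgebra.single σ 1 - 1) ^ n * (a₂ * a')) := by
    rw [ab_natCast (p ^ j), ab_natCast k, ← mul_assoc, ← map_mul, ← Nat.cast_mul, ← hNk,
      ← ab_natCast N, ha₀, h5, Nat.cast_pow, map_mul, map_mul]
  have h8 := congrArg (fun x => MonoidAlgebra.single (1 : G) ((p : ℚ) ^ j)⁻¹ * x) h7
  simp only [← mul_assoc, h6, one_mul] at h8
  simpa only [mul_assoc] using h8

end AB

end Pool.Agent.RSK
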