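import Pool.Agent.Lib_helper17.RS.Bas
set_option autoImplicit false

namespace Pool.Agent.RSK

set_option linter.unusedSectionVars false

open Filter Topology Complex
open scoped TensorProduct

section ALG

variable {G : Type} [CommGroup G] [Fintype G]

theorem ac_toQ_inj : Function.Injective (toQ G) := by
  intro x y h
  ext g
  have h1 := congrArg (fun z : MonoidAlgebra ℚ G => z.coeff g) h
  simp [toQ] at h1
  exact_mod_cast h1

theorem ac_single_int (m : ℤ) : (MonoidAlgebra.single (1 : G) m : MonoidAlgebra ℤ G) = (m : MonoidAlgebra ℤ G) := by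
  rw [MonoidAlgebra.intCast_def]
  simp

theorem ac_single_rat (m : ℤ) : (MonoidAlgebra.single (1 : G) (m : ℚ) : MonoidAlgebra ℚ G) = (m : MonoidAlgebra ℚ G) := by
  rw [MonoidAlgebra.intCast_def]

/-- `p - N` is divisible by `σ - 1` -/
theorem ac_q {p : ℕ} (hp : p.Prime) (hG : Nat.card G = p) {σ : G} (hσ : σ ≠ 1) :
    ∃ q : MonoidAlgebra ℤ G, (p : MonoidAlgebra ℤ G) - nrm G = (MonoidAlgebra.single σ 1 - 1) * q := by
  haveI := Fact.mk hp
  have h1 : ∀ g : G, ∃ q : MonoidAlgebra ℤ G, 1 - MonoidAlgebra.single g 1 = (MonoidAlgebra.single σ 1 - 1) * q := by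
    intro g
    obtain ⟨j, hj⟩ := mem_powers_of_prime_card (g' := g) hG hσ
    simp only at hj
    have h2 : (MonoidAlgebra.single σ 1 - 1 : MonoidAlgebra ℤ G) ∣ (MonoidAlgebra.single σ 1) ^ j - 1 ^ j :=
      sub_dvd_pow_sub_pow _ _ _
    obtain ⟨c, hc⟩ := h2
    refine ⟨-c, ?_⟩
    rw [MonoidAlgebra.single_pow, hj, one_pow, one_pow] at hc
    rw [mul_neg, ← hc]
    ring
  choose q hq using h1
  refine ⟨∑ g, q g, ?_⟩
  rw [Finset.mul_sum]
  rw [← Finset.sum_congr rfl (fun g _ => hq g), Finset.sum_sub_distrib]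
  congr 1
  rw [Finset.sum_const, Finset.card_univ, ← Nat.card_eq_fintype_card, hG]
  simp

theorem ac_nrm_mul {σ : G} : nrm G * (MonoidAlgebra.single σ 1 - 1) = 0 := by
  unfold nrm
  rw [mul_sub, Finset.sum_mul, mul_one, sub_eq_zero]
  simp only [MonoidAlgebra.single_mul_single, mul_one]
  exact Fintype.sum_equiv (Equiv.mulRight σ) _ _ (fun g => rfl)

/-- Local-global principle. -/
theorem alg_glue {p : ℕ} (hp : p.Prime) (hG : Nat.card G = p) {σ : G} (hσ : σ ≠ 1)
    (y : MonoidAlgebra ℚ G) (hy : toQ G (nrm G) * y = 0) {n : ℕ} (hn : 0 < n)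
    (h1 : ∃ (k : ℕ) (a : MonoidAlgebra ℤ G), ¬ p ∣ k ∧ MonoidAlgebra.single 1 (k : ℚ) * y =
      toQ G ((MonoidAlgebra.single σ 1 - 1) ^ n * a))
    (h2 : ∀ l : ℕ, l.Prime → l ≠ p → ∃ (k : ℕ) (a : MonoidAlgebra ℤ G), ¬ l ∣ k ∧
      MonoidAlgebra.single 1 (k : ℚ) * y = toQ G a) :
    ∃ a : MonoidAlgebra ℤ G, y = toQ G ((MonoidAlgebra.single σ 1 - 1) ^ n * a) := by
  set I : Ideal ℤ :=
    { carrier := {m : ℤ | ∃ a : MonoidAlgebra ℤ G, (m : MonoidAlgebra ℚ G) * y =
        toQ G ((MonoidAlgebra.single σ 1 - 1) ^ n * a)}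
      zero_mem' := ⟨0, by simp⟩
      add_mem' := by
        rintro u v ⟨a, ha⟩ ⟨b, hb⟩
        refine ⟨a + b, ?_⟩
        rw [mul_add, map_add, ← ha, ← hb]
        push_cast
        ring
      smul_mem' := by
        rintro u v ⟨a, ha⟩
        refine ⟨(u : MonoidAlgebra ℤ G) * a, ?_⟩
        have h3 : (MonoidAlgebra.single σ 1 - 1 : MonoidAlgebra ℤ G) ^ n * ((u : MonoidAlgebra ℤ G) * a)
            = (u : MonoidAlgebra ℤ G) * ((MonoidAlgebra.single σ 1 - 1) ^ n * a) := by ring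
        rw [h3, map_mul, ← ha, map_intCast, smul_eq_mul]
        push_cast
        ring } with hI
  have hmem : ∀ m : ℤ, m ∈ I ↔ ∃ a : MonoidAlgebra ℤ G, (m : MonoidAlgebra ℚ G) * y =
        toQ G ((MonoidAlgebra.single σ 1 - 1) ^ n * a) := fun m => Iff.rfl
  have hsq : ∀ k : ℕ, (MonoidAlgebra.single (1 : G) (k : ℚ) : MonoidAlgebra ℚ G) = ((k : ℤ) : MonoidAlgebra ℚ G) := by
    intro k
    have := ac_single_rat (G := G) (k : ℤ)
    push_cast at this ⊢
    exact this
  have hnot : ∀ l : ℕ, l.Prime → ∃ m ∈ I, ¬ (l : ℤ) ∣ m := by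
    intro l hl
    by_cases hlp : l = p
    · subst hlp
      obtain ⟨k, a, hk, ha⟩ := h1
      refine ⟨k, (hmem _).2 ⟨a, ?_⟩, ?_⟩
      · rw [← hsq, ha]
      · intro h
        exact hk (by exact_mod_cast h)
    · obtain ⟨k, a, hk, ha⟩ := h2 l hl hlp
      obtain ⟨q, hq⟩ := ac_q hp hG hσ
      have hNa : nrm G * a = 0 := by
        apply ac_toQ_inj
        rw [map_mul, ← ha, map_zero]
        calc toQ G (nrm G) * (MonoidAlgebra.single 1 (k : ℚ) * y)
            = MonoidAlgebra.single 1 (k : ℚ) * (toQ G (nrm G) * y) := by ring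
          _ = 0 := by rw [hy, mul_zero]
      have hpa : ∀ j : ℕ, (p : MonoidAlgebra ℤ G) ^ j * a = (MonoidAlgebra.single σ 1 - 1) ^ j * (q ^ j * a) := by
        intro j
        induction j with
        | zero => simp
        | succ j ih =>
          have h3 : (p : MonoidAlgebra ℤ G) * a = (MonoidAlgebra.single σ 1 - 1) * q * a := by
            rw [← hq, sub_mul, hNa, sub_zero]
          calc (p : MonoidAlgebra ℤ G) ^ (j + 1) * a = (p : MonoidAlgebra ℤ G) * ((p : MonoidAlgebra ℤ G) ^ j * a) := by ring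
            _ = (p : MonoidAlgebra ℤ G) * ((MonoidAlgebra.single σ 1 - 1) ^ j * (q ^ j * a)) := by rw [ih]
            _ = (MonoidAlgebra.single σ 1 - 1) ^ j * q ^ j * ((p : MonoidAlgebra ℤ G) * a) := by ring
            _ = (MonoidAlgebra.single σ 1 - 1) ^ j * q ^ j * ((MonoidAlgebra.single σ 1 - 1) * q * a) := by rw [h3]
            _ = (MonoidAlgebra.single σ 1 - 1) ^ (j + 1) * (q ^ (j + 1) * a) := by ring
      refine ⟨(p : ℤ) ^ n * k, (hmem _).2 ⟨q ^ n * a, ?_⟩, ?_⟩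
      · rw [← hpa, map_mul, ← ha, hsq, map_pow, map_natCast]
        push_cast
        ring
      · intro h
        have h4 : l ∣ p ^ n * k := by exact_mod_cast h
        rcases (Nat.Prime.dvd_mul hl).1 h4 with h5 | h5
        · exact hlp ((Nat.prime_dvd_prime_iff_eq hl hp).1 (hl.dvd_of_dvd_pow h5))
        · exact hk h5
  have hone : (1 : ℤ) ∈ I := by
    obtain ⟨d, hd⟩ := (inferInstance : I.IsPrincipal)
    have hd1 : d.natAbs = 1 := by
      by_contra hne
      obtain ⟨l, hl, hld⟩ := Nat.exists_prime_and_dvd hne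
      obtain ⟨m, hm, hlm⟩ := hnot l hl
      apply hlm
      rw [hd] at hm
      have h3 : d ∣ m := Ideal.mem_span_singleton.1 hm
      exact (Int.natCast_dvd.2 hld).trans h3
    rw [hd]
    apply Ideal.mem_span_singleton.2
    have h4 : IsUnit d := Int.isUnit_iff_natAbs_eq.2 hd1
    exact h4.dvd
  obtain ⟨a, ha⟩ := (hmem _).1 hone
  refine ⟨a, ?_⟩
  rw [← ha]
  simp

/-- polynomial identity modulo `p` -/
theorem ac_poly {p : ℕ} (hp : p.Prime) : ∃ e : Polynomial ℤ,
    (Polynomial.X - 1 : Polynomial ℤ) ^ (p - 1) = ∑ i ∈ Finset.range p, Polynomial.X ^ i + Polynomial.C (p : ℤ) * e := by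
  haveI := Fact.mk hp
  have h1 : Polynomial.C (p : ℤ) ∣ (Polynomial.X - 1 : Polynomial ℤ) ^ (p - 1) - ∑ i ∈ Finset.range p, Polynomial.X ^ i := by
    rw [Polynomial.C_dvd_iff_dvd_coeff]
    intro i
    rw [← ZMod.intCast_zmod_eq_zero_iff_dvd]
    have h2 : ((Polynomial.X - 1 : Polynomial ℤ) ^ (p - 1) - ∑ i ∈ Finset.range p, Polynomial.X ^ i).map (Int.castRingHom (ZMod p)) = 0 := by
      rw [Polynomial.map_sub, Polynomial.map_pow, Polynomial.map_sub, Polynomial.map_X, Polynomial.map_one,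
        Polynomial.map_sum, sub_eq_zero]
      simp only [Polynomial.map_pow, Polynomial.map_X]
      have h3 : (Polynomial.X - 1 : Polynomial (ZMod p)) ≠ 0 := by
        have := Polynomial.X_sub_C_ne_zero (1 : ZMod p)
        simpa using this
      apply mul_right_cancel₀ h3
      rw [geom_sum_mul, ← pow_succ, Nat.sub_add_cancel hp.one_le, sub_pow_char, one_pow]
    have h3 := congrArg (fun P : Polynomial (ZMod p) => P.coeff i) h2
    simp only [Polynomial.coeff_map, Polynomial.coeff_zero] at h3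
    exact h3
  obtain ⟨e, he⟩ := h1
  exact ⟨e, by rw [← he]; ring⟩

/-- `(σ-1) ^ ((p-1)k+1)` is divisible by `p ^ k` -/
theorem pi_pow {p : ℕ} (hp : p.Prime) (hG : Nat.card G = p) {σ : G} (hσ : σ ≠ 1) (k : ℕ) :
    ∃ a : MonoidAlgebra ℤ G, (MonoidAlgebra.single σ (1 : ℤ) - 1) ^ ((p - 1) * k + 1) =
      MonoidAlgebra.single 1 ((p : ℤ) ^ k) * ((MonoidAlgebra.single σ 1 - 1) * a) := by
  haveI := Fact.mk hp
  obtain ⟨e, he⟩ := ac_poly hp
  have h1 := congrArg (Polynomial.aeval (MonoidAlgebra.single σ (1 : ℤ) : MonoidAlgebra ℤ G)) he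
  simp only [map_pow, map_sub, map_add, map_mul, map_sum, map_one, Polynomial.aeval_X, Polynomial.aeval_C] at h1
  set s : MonoidAlgebra ℤ G := MonoidAlgebra.single σ (1 : ℤ) with hs
  set c : MonoidAlgebra ℤ G := Polynomial.aeval s e with hc
  have hsp : s ^ p = 1 := by
    rw [hs, MonoidAlgebra.single_pow, one_pow]
    have : σ ^ p = 1 := by
      rw [← hG]
      exact pow_card_eq_one'
    rw [this]
    rfl
  have h2 : (s - 1) ^ (p - 1) * (s - 1) = (p : MonoidAlgebra ℤ G) * ((s - 1) * c) := by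
    rw [h1, add_mul, geom_sum_mul, hsp, sub_self, zero_add]
    have : (algebraMap ℤ (MonoidAlgebra ℤ G)) (p : ℤ) = (p : MonoidAlgebra ℤ G) := by simp
    rw [this]
    ring
  induction k with
  | zero => exact ⟨1, by rw [ac_single_int]; simp⟩
  | succ k ih =>
    obtain ⟨a, ha⟩ := ih
    refine ⟨c * a, ?_⟩
    have h3 : (p - 1) * (k + 1) + 1 = ((p - 1) * k + 1) + (p - 1) := by ring
    rw [h3, pow_add, ha, ac_single_int, ac_single_int]
    calc (((p : ℤ) ^ k : ℤ) : MonoidAlgebra ℤ G) * ((s - 1) * a) * (s - 1) ^ (p - 1)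
        = (((p : ℤ) ^ k : ℤ) : MonoidAlgebra ℤ G) * a * ((s - 1) ^ (p - 1) * (s - 1)) := by ring
      _ = (((p : ℤ) ^ k : ℤ) : MonoidAlgebra ℤ G) * a * ((p : MonoidAlgebra ℤ G) * ((s - 1) * c)) := by rw [h2]
      _ = (((p : ℤ) ^ (k + 1) : ℤ) : MonoidAlgebra ℤ G) * ((s - 1) * (c * a)) := by
        push_cast
        ring

example : type_of% @alg_glue := @alg_glue
example : type_of% @pi_pow := @pi_pow

end ALG

end Pool.Agent.RSK
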