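import Pool.Agent.Lib_helper17.RS.Bas
/-!
# Rubin-Stark, block UP3: unramified places
-/

namespace Pool.Agent.RSK

set_option linter.unusedSectionVars false

open NumberField IsDedekindDomain Filter Topology Complex

section UP

variable {F H : Type} [Field F] [NumberField F] [Field H] [NumberField H] [Algebra F H]

theorem ordv_unr {W : HeightOneSpectrum (𝓞 H)} (hW : Algebra.IsUnramifiedAt (𝓞 F) W.asIdeal)
    (x : F) : ordv W (algebraMap F H x) = ordv (W.under (𝓞 F)) x := by
  have : W.asIdeal.LiesOver (W.under (𝓞 F)).asIdeal := ⟨rfl⟩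
  have : W.asIdeal.IsPrime := W.isPrime
  have h1 := HeightOneSpectrum.valuation_liesOver (K := F) H (W.under (𝓞 F)) W x
  have h2 : (W.under (𝓞 F)).asIdeal.ramificationIdx' W.asIdeal = 1 := by
    rw [Ideal.ramificationIdx'_eq_ramificationIdx _ _ (W.under (𝓞 F)).ne_bot]
    exact Ideal.ramificationIdx_eq_one _ _
  rw [h2, pow_one] at h1
  unfold ordv
  rw [h1]

end UP

end Pool.Agent.RSK
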