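import Pool.Agent.Lib_helper17.RS.Bas
import Pool.Agent.Lib_helper17.RS.P_PF
import Pool.Agent.Lib_helper17.RS.P_UP2
import Pool.Agent.Lib_helper17.RS.P_UP3
/-!
# Rubin-Stark, block DI: the data for larger sets (helper48)

Uses `lg_gal` (UP2), `ordv_unr` (UP3), `lg_ordv`, `nv_two_le` (PF).
-/

namespace Pool.Agent.RSK

set_option linter.unusedSectionVars false

open NumberField NumberField.InfinitePlace NumberField.Units IsDedekindDomain Filter Topology
  Complex

section GEN

variable {F H : Type} [Field F] [NumberField F] [Field H] [NumberField H] [Algebra F H]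
  [IsGalois F H] {G : Type} [CommGroup G] [Fintype G] {p : ℕ} {ι : G ≃* (H ≃ₐ[F] H)}
  {S T : Finset (HeightOneSpectrum (𝓞 F))} {r : ℕ} {w : Fin r → Pl H}
  {fr : HeightOneSpectrum (𝓞 F) → G}

theorem di_ins_mono {S S' : Finset (HeightOneSpectrum (𝓞 F))} (h : S ⊆ S') {P : Pl F}
    (hP : InS S P) : InS S' P := by
  rcases P with v | v
  · trivial
  · exact h hP

/-- a Frobenius automorphism fixes the places -/
theorem di_fr_fix {v : HeightOneSpectrum (𝓞 F)} {σ : H ≃ₐ[F] H} (hσ : IsFr v σ)
    {W : HeightOneSpectrum (𝓞 H)} (hW : W.under (𝓞 F) = v) :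
    act σ (Sum.inr W) = (Sum.inr W : Pl H) := by
  have hn : nv v ≠ 0 := by
    have := nv_two_le v
    omega
  set e : 𝓞 H ≃+* 𝓞 H := RingOfIntegers.mapRingEquiv σ.toRingEquiv with he
  have h1 : ∀ x ∈ W.asIdeal, e x ∈ W.asIdeal := fun x hx => by
    have h := hσ W hW x
    have h2 : x ^ nv v ∈ W.asIdeal := Ideal.pow_mem_of_mem _ hx _ (Nat.pos_of_ne_zero hn)
    have h3 := W.asIdeal.add_mem h h2
    rwa [sub_add_cancel] at h3
  have h2 : W.asIdeal ≤ W.asIdeal.comap (e : 𝓞 H →+* 𝓞 H) := fun x hx => h1 x hx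
  have hmax : W.asIdeal.IsMaximal := W.isMaximal
  have h3 : W.asIdeal = W.asIdeal.comap (e : 𝓞 H →+* 𝓞 H) := by
    refine hmax.eq_of_le ?_ h2
    exact Ideal.comap_ne_top _ hmax.ne_top
  show Sum.inr _ = Sum.inr _
  congr 1
  refine HeightOneSpectrum.ext ?_
  show Ideal.comap (e.symm : 𝓞 H →+* 𝓞 H) W.asIdeal = W.asIdeal
  ext x
  rw [Ideal.mem_comap]
  have h4 : (e.symm : 𝓞 H →+* 𝓞 H) x ∈ W.asIdeal ↔
      (e : 𝓞 H →+* 𝓞 H) ((e.symm : 𝓞 H →+* 𝓞 H) x) ∈ W.asIdeal := by
    conv_lhs => rw [h3]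
    rw [Ideal.mem_comap]
  rw [h4]
  have h5 : (e : 𝓞 H →+* 𝓞 H) ((e.symm : 𝓞 H →+* 𝓞 H) x) = x := e.apply_symm_apply x
  rw [h5]

/-- the decomposition group of an unramified place with trivial Frobenius is trivial -/
theorem di_split (hD : Data ι S T r w fr) {v : HeightOneSpectrum (𝓞 F)} (hv : v ∉ S)
    (hfr : fr v = 1) {W : HeightOneSpectrum (𝓞 H)} (hW : W.under (𝓞 F) = v) (σ : H ≃ₐ[F] H)
    (hσ : act σ (Sum.inr W) = (Sum.inr W : Pl H)) : σ = 1 := by
  have hmax : W.asIdeal.IsMaximal := W.isMaximal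
  let _ : Field (𝓞 H ⧸ W.asIdeal) := Ideal.Quotient.field _
  have hF := hD.frob v hv
  rw [hfr, map_one] at hF
  have h0 : 2 ≤ nv v := nv_two_le v
  have hfin : Finite (𝓞 H ⧸ W.asIdeal) := by
    refine Nat.finite_of_card_ne_zero ?_
    have h := nv_two_le W
    unfold nv at h
    rw [Ideal.absNorm_apply, Submodule.cardQuot_apply] at h
    omega
  have hle : nv W ≤ nv v := by
    have hcard : nv W = Nat.card (𝓞 H ⧸ W.asIdeal) := by
      unfold nv
      rw [Ideal.absNorm_apply, Submodule.cardQuot_apply]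
    rw [hcard]
    classical
    have := Fintype.ofFinite (𝓞 H ⧸ W.asIdeal)
    rw [Nat.card_eq_fintype_card, ← Finset.card_univ]
    have hne : (Polynomial.X ^ nv v - Polynomial.X : Polynomial (𝓞 H ⧸ W.asIdeal)) ≠ 0 :=
      FiniteField.X_pow_card_sub_X_ne_zero _ h0
    have hsub : (Finset.univ : Finset (𝓞 H ⧸ W.asIdeal)) ⊆
        (Polynomial.X ^ nv v - Polynomial.X : Polynomial (𝓞 H ⧸ W.asIdeal)).roots.toFinset := by
      intro y _
      rw [Multiset.mem_toFinset, Polynomial.mem_roots hne]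
      obtain ⟨x, rfl⟩ := Ideal.Quotient.mk_surjective y
      have h := hF W hW x
      have h' : x - x ^ nv v ∈ W.asIdeal := h
      have h2 := Ideal.Quotient.eq_zero_iff_mem.2 h'
      rw [map_sub, map_pow] at h2
      simp only [Polynomial.IsRoot.def, Polynomial.eval_sub, Polynomial.eval_pow,
        Polynomial.eval_X]
      rw [← sub_eq_zero.1 h2, sub_self]
    refine (Finset.card_le_card hsub).trans ((Multiset.toFinset_card_le _).trans ?_)
    refine (Polynomial.card_roots' _).trans ?_
    rw [FiniteField.X_pow_card_sub_X_natDegree_eq _ h0]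
  -- a uniformiser
  obtain ⟨x, hx⟩ := v.valuation_exists_uniformizer F
  have hx0 : x ≠ 0 := by
    rintro rfl
    rw [map_zero] at hx
    exact WithZero.exp_ne_zero hx.symm
  have hox : ordv v x = 1 := by
    unfold ordv
    rw [hx]
    simp
  have hox' : ordv W (algebraMap F H x) = 1 := by
    have hu := hD.unram W (by rw [hW]; exact hv)
    rw [ordv_unr hu, hW, hox]
  have hx0' : algebraMap F H x ≠ 0 := (map_ne_zero _).2 hx0
  have hg := lg_gal (F := F) (Sum.inr W : Pl H) x
  have hdn : dn F (Sum.inr W : Pl H) = Sum.inr v := by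
    show Sum.inr (W.under (𝓞 F)) = _
    rw [hW]
  rw [hdn, lg_ordv W hx0', lg_ordv v hx0, hox, hox'] at hg
  have hlog : 0 < Real.log (nv v) := Real.log_pos (by exact_mod_cast h0)
  have hlog' : Real.log (nv W) ≤ Real.log (nv v) := by
    refine Real.log_le_log ?_ (by exact_mod_cast hle)
    have := nv_two_le W
    exact_mod_cast (by omega : 0 < nv W)
  have hc : Nat.card {τ : H ≃ₐ[F] H // act τ (Sum.inr W : Pl H) = Sum.inr W} ≤ 1 := by
    by_contra hcon
    have h2 : (2 : ℝ) ≤ Nat.card {τ : H ≃ₐ[F] H // act τ (Sum.inr W : Pl H) = Sum.inr W} := by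
      exact_mod_cast (by omega : 2 ≤ Nat.card {τ : H ≃ₐ[F] H // act τ (Sum.inr W : Pl H) = Sum.inr W})
    push_cast at hg
    nlinarith
  have hsub : Subsingleton {τ : H ≃ₐ[F] H // act τ (Sum.inr W : Pl H) = Sum.inr W} := by
    rcases Nat.lt_or_ge (Nat.card {τ : H ≃ₐ[F] H // act τ (Sum.inr W : Pl H) = Sum.inr W}) 1 with h | h
    · exfalso
      have h' := Nat.lt_one_iff.1 h
      rcases Nat.card_eq_zero.1 h' with h' | h'
      · exact h'.false ⟨1, act_one _⟩
      · exact h'.not_finite inferInstance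
    · have := Nat.card_eq_one_iff_unique.1 (le_antisymm hc h)
      exact this.1
  have := hsub.elim ⟨σ, hσ⟩ ⟨1, act_one _⟩
  exact congrArg Subtype.val this

theorem data_non (hD : Data ι S T r w fr) {v : HeightOneSpectrum (𝓞 F)} (hv : v ∉ S)
    (hvT : v ∉ T) (hfr : fr v ≠ 1) : Data ι (Finset.cons v S hv) T r w fr where
  disj := by
    rw [Finset.disjoint_left]
    intro x hx hxT
    rcases Finset.mem_cons.1 hx with rfl | hx
    · exact hvT hxT
    · exact Finset.disjoint_left.1 hD.disj hx hxT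
  unram := fun W hW => hD.unram W fun h => hW (Finset.mem_cons_of_mem h)
  tors := hD.tors
  mem := fun i => di_ins_mono (Finset.subset_cons hv) (hD.mem i)
  split := hD.split
  inj := hD.inj
  all := by
    intro W hW hs
    by_cases h : InS S (dn F W)
    · exact hD.all W h hs
    · exfalso
      rcases W with W | W
      · exact h trivial
      · have h1 : W.under (𝓞 F) ∈ Finset.cons v S hv := hW
        have h2 : W.under (𝓞 F) ∉ S := h
        rcases Finset.mem_cons.1 h1 with h1 | h1
        · have h3 := hs _ (di_fr_fix (hD.frob v hv) h1)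
          exact hfr (ι.injective (by rw [h3, map_one]))
        · exact h2 h1
  card := by
    rw [Finset.card_cons]
    have := hD.card
    omega
  frob := fun v' hv' => hD.frob v' fun h => hv' (Finset.mem_cons_of_mem h)

theorem data_split (hD : Data ι S T r w fr) {v : HeightOneSpectrum (𝓞 F)} (hv : v ∉ S)
    (hvT : v ∉ T) (hfr : fr v = 1) {W : HeightOneSpectrum (𝓞 H)} (hW : W.under (𝓞 F) = v) :
    Data ι (Finset.cons v S hv) T (r + 1) (Fin.snoc (α := fun _ => Pl H) w (Sum.inr W)) fr := by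
  have hdn : dn F (Sum.inr W : Pl H) = Sum.inr v := by
    show Sum.inr (W.under (𝓞 F)) = _
    rw [hW]
  have hne : ∀ i, dn F (w i) ≠ Sum.inr v := fun i h => by
    have := hD.mem i
    rw [h] at this
    exact hv this
  refine ⟨?_, ?_, hD.tors, ?_, ?_, ?_, ?_, ?_, ?_⟩
  · rw [Finset.disjoint_left]
    intro x hx hxT
    rcases Finset.mem_cons.1 hx with rfl | hx
    · exact hvT hxT
    · exact Finset.disjoint_left.1 hD.disj hx hxT
  · exact fun W hW => hD.unram W fun h => hW (Finset.mem_cons_of_mem h)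
  · intro i
    refine Fin.lastCases ?_ (fun i => ?_) i
    · rw [Fin.snoc_last, hdn]
      exact Finset.mem_cons_self v S
    · rw [Fin.snoc_castSucc]
      exact di_ins_mono (Finset.subset_cons hv) (hD.mem i)
  · intro i
    refine Fin.lastCases ?_ (fun i => ?_) i
    · intro σ
      rw [Fin.snoc_last]
      exact di_split hD hv hfr hW σ
    · intro σ
      rw [Fin.snoc_castSucc]
      exact hD.split i σ
  · intro i j
    refine Fin.lastCases ?_ (fun i => ?_) i
    · refine Fin.lastCases ?_ (fun j => ?_) j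
      · intro _
        rfl
      · rw [Fin.snoc_last, Fin.snoc_castSucc, hdn]
        intro h
        exact absurd h.symm (hne j)
    · refine Fin.lastCases ?_ (fun j => ?_) j
      · rw [Fin.snoc_last, Fin.snoc_castSucc, hdn]
        intro h
        exact absurd h (hne i)
      · rw [Fin.snoc_castSucc, Fin.snoc_castSucc]
        intro h
        rw [hD.inj i j h]
  · intro W' hW' hs
    by_cases h : InS S (dn F W')
    · obtain ⟨i, hi⟩ := hD.all W' h hs
      refine ⟨Fin.castSucc i, ?_⟩
      rw [Fin.snoc_castSucc]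
      exact hi
    · rcases W' with W' | W'
      · exact absurd trivial h
      · have h1 : W'.under (𝓞 F) ∈ Finset.cons v S hv := hW'
        have h2 : W'.under (𝓞 F) ∉ S := h
        rcases Finset.mem_cons.1 h1 with h1 | h1
        · refine ⟨Fin.last r, ?_⟩
          rw [Fin.snoc_last, hdn]
          show Sum.inr (W'.under (𝓞 F)) = _
          rw [h1]
        · exact absurd h1 h2
  · rw [Finset.card_cons]
    have := hD.card
    omega
  · exact fun v' hv' => hD.frob v' fun h => hv' (Finset.mem_cons_of_mem h)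

theorem data_T (hD : Data ι S T r w fr) {v : HeightOneSpectrum (𝓞 F)} (hv : v ∉ T)
    (hvS : v ∉ S) : Data ι S (Finset.cons v T hv) r w fr where
  disj := by
    rw [Finset.disjoint_left]
    intro x hx hxT
    rcases Finset.mem_cons.1 hxT with rfl | hxT
    · exact hvS hx
    · exact Finset.disjoint_left.1 hD.disj hx hxT
  unram := hD.unram
  tors := by
    rcases hD.tors with ⟨u, hu, u', hu', h⟩ | ⟨u, hu, h⟩
    · exact Or.inl ⟨u, Finset.mem_cons_of_mem hu, u', Finset.mem_cons_of_mem hu', h⟩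
    · exact Or.inr ⟨u, Finset.mem_cons_of_mem hu, h⟩
  mem := hD.mem
  split := hD.split
  inj := hD.inj
  all := hD.all
  card := hD.card
  frob := hD.frob

end GEN

end Pool.Agent.RSK
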