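import Pool.Agent.Lib_helper17.RS.Bas
import Pool.Agent.Lib_helper17.RS.P_PF
import Pool.Agent.Lib_helper17.RS.P_EA
/-! Rubin-Stark, block LE: the L-functions for larger sets -/

namespace Pool.Agent.RSK

set_option linter.unusedSectionVars false

open NumberField NumberField.InfinitePlace NumberField.Units IsDedekindDomain Filter Topology
  Complex

section GEN

variable {F H : Type} [Field F] [NumberField F] [Field H] [NumberField H] [Algebra F H]
  [IsGalois F H] {G : Type} [CommGroup G] [Fintype G] {p : ℕ} {ι : G ≃* (H ≃ₐ[F] H)}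
  {S T : Finset (HeightOneSpectrum (𝓞 F))} {r : ℕ} {w : Fin r → Pl H}
  {fr : HeightOneSpectrum (𝓞 F) → G}

theorem le_norm (χ : G →* ℂˣ) (g : G) : ‖(χ g : ℂ)‖ = 1 := by
  have h1 : (χ g : ℂ) ^ Fintype.card G = 1 := by
    rw [← Units.val_pow_eq_pow_val, ← map_pow, pow_card_eq_one, map_one, Units.val_one]
  have h2 : ‖(χ g : ℂ)‖ ^ Fintype.card G = 1 := by
    rw [← _root_.norm_pow, h1, norm_one]
  exact (pow_eq_one_iff_of_nonneg (norm_nonneg _) Fintype.card_ne_zero).1 h2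

theorem le_nv_pos (v : HeightOneSpectrum (𝓞 F)) : (2 : ℝ) ≤ (nv v : ℝ) := by
  exact_mod_cast nv_two_le v

theorem le_nv_ne (v : HeightOneSpectrum (𝓞 F)) : (nv v : ℂ) ≠ 0 := by
  have := nv_two_le v
  have h : nv v ≠ 0 := by omega
  exact_mod_cast h

theorem le_nv_norm (v : HeightOneSpectrum (𝓞 F)) (s : ℂ) :
    ‖(nv v : ℂ) ^ s‖ = (nv v : ℝ) ^ s.re := by
  have := nv_two_le v
  exact Complex.norm_natCast_cpow_of_pos (by omega) s

/-- the Euler factor does not vanish -/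
theorem le_factor (v : HeightOneSpectrum (𝓞 F)) (χ : G →* ℂˣ) {s : ℂ} (hs : s.re < 0) :
    1 - (χ (fr v) : ℂ) * (nv v : ℂ) ^ s ≠ 0 := by
  intro h
  have h1 : (χ (fr v) : ℂ) * (nv v : ℂ) ^ s = 1 := (sub_eq_zero.1 h).symm
  have h2 := congrArg norm h1
  rw [norm_mul, le_norm, one_mul, le_nv_norm, norm_one] at h2
  have h3 : (nv v : ℝ) ^ s.re < 1 :=
    Real.rpow_lt_one_of_one_lt_of_neg (by linarith [le_nv_pos v]) hs
  linarith

theorem lst_consS {v : HeightOneSpectrum (𝓞 F)} (hv : v ∉ S) (χ : G →* ℂˣ) {s : ℂ}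
    (hs : 1 < s.re) : LST (Finset.cons v S hv) T fr χ s =
      (1 - (χ (fr v) : ℂ) * (nv v : ℂ) ^ (-s)) * LST S T fr χ s := by
  classical
  set f : HeightOneSpectrum (𝓞 F) → ℂ := fun v => (1 - (χ (fr v) : ℂ) * (nv v : ℂ) ^ (-s))⁻¹
    with hf
  have hf0 : 1 - (χ (fr v) : ℂ) * (nv v : ℂ) ^ (-s) ≠ 0 :=
    le_factor v χ (by rw [Complex.neg_re]; linarith)
  set A : Set (HeightOneSpectrum (𝓞 F)) := {v | v ∉ S} with hA
  set B : Set (HeightOneSpectrum (𝓞 F)) := {u | u ∉ Finset.cons v S hv} with hB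
  have hfun : (fun x => if x = v then 1 else A.mulIndicator f x) = B.mulIndicator f := by
    funext x
    by_cases hx : x = v
    · rw [if_pos hx]
      rw [Set.mulIndicator_of_notMem]
      rw [hB, Set.mem_ofPred_eq, not_not, hx]
      exact Finset.mem_cons_self _ _
    · rw [if_neg hx]
      by_cases hxS : x ∈ S
      · rw [Set.mulIndicator_of_notMem, Set.mulIndicator_of_notMem]
        · rw [hB, Set.mem_ofPred_eq, not_not]
          exact Finset.mem_cons_of_mem hxS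
        · rw [hA, Set.mem_ofPred_eq, not_not]
          exact hxS
      · rw [Set.mulIndicator_of_mem, Set.mulIndicator_of_mem]
        · rw [hB, Set.mem_ofPred_eq, Finset.mem_cons, not_or]
          exact ⟨hx, hxS⟩
        · exact hxS
  have hmB : Multipliable (B.mulIndicator f) := by
    rw [← multipliable_subtype_iff_mulIndicator]
    exact (mult_euler hs (fun u => u ∉ Finset.cons v S hv) (fun u => (χ (fr u) : ℂ))
      (fun u => (le_norm χ (fr u)).le)).1
  have hup : Function.update (A.mulIndicator f) v 1 = B.mulIndicator f := by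
    rw [← hfun]
    funext x
    by_cases hx : x = v
    · rw [hx, Function.update_self, if_pos rfl]
    · rw [Function.update_of_ne hx, if_neg hx]
  have key : ∏' x, A.mulIndicator f x = f v * ∏' x, B.mulIndicator f x := by
    have h1 := Multipliable.tprod_eq_mul_tprod_ite' (f := A.mulIndicator f) v
      (by rw [hup]; exact hmB)
    rw [h1, hfun, Set.mulIndicator_of_mem (show v ∈ A from hv)]
  have e1 : ∏' u : {u : HeightOneSpectrum (𝓞 F) // u ∉ S}, f u = ∏' x, A.mulIndicator f x :=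
    tprod_subtype A f
  have e2 : ∏' u : {u : HeightOneSpectrum (𝓞 F) // u ∉ Finset.cons v S hv}, f u =
      ∏' x, B.mulIndicator f x := tprod_subtype B f
  unfold LST
  rw [show (∏' u : {u : HeightOneSpectrum (𝓞 F) // u ∉ Finset.cons v S hv},
      (1 - (χ (fr u) : ℂ) * (nv u.1 : ℂ) ^ (-s))⁻¹) = ∏' x, B.mulIndicator f x from e2,
    show (∏' u : {u : HeightOneSpectrum (𝓞 F) // u ∉ S},
      (1 - (χ (fr u) : ℂ) * (nv u.1 : ℂ) ^ (-s))⁻¹) = ∏' x, A.mulIndicator f x from e1, key]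
  have hfv : f v = (1 - (χ (fr v) : ℂ) * (nv v : ℂ) ^ (-s))⁻¹ := rfl
  rw [hfv]
  field_simp

theorem lst_consT {v : HeightOneSpectrum (𝓞 F)} (hv : v ∉ T) (χ : G →* ℂˣ) (s : ℂ) :
    LST S (Finset.cons v T hv) fr χ s =
      (1 - (χ (fr v) : ℂ) * (nv v : ℂ) ^ (1 - s)) * LST S T fr χ s := by
  unfold LST
  rw [Finset.prod_cons, mul_assoc]

theorem le_mero_pow (v : HeightOneSpectrum (𝓞 F)) (a b : ℂ) :
    MeromorphicOn (fun s : ℂ => 1 - a * (nv v : ℂ) ^ (b - s)) Set.univ := by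
  intro s _
  apply AnalyticAt.meromorphicAt
  have h : Differentiable ℂ (fun s : ℂ => 1 - a * (nv v : ℂ) ^ (b - s)) := by
    refine (differentiable_const _).sub ((differentiable_const _).mul ?_)
    exact ((differentiable_const b).sub differentiable_id).const_cpow (Or.inl (le_nv_ne v))
  exact h.analyticAt s

theorem le_cont (v : HeightOneSpectrum (𝓞 F)) (a b : ℂ) :
    Tendsto (fun s : ℂ => 1 - a * (nv v : ℂ) ^ (b - s)) (𝓝[≠] 0) (𝓝 (1 - a * (nv v : ℂ) ^ b)) := by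
  have h : Differentiable ℂ (fun s : ℂ => 1 - a * (nv v : ℂ) ^ (b - s)) := by
    refine (differentiable_const _).sub ((differentiable_const _).mul ?_)
    exact ((differentiable_const b).sub differentiable_id).const_cpow (Or.inl (le_nv_ne v))
  have h1 := (h.continuous.tendsto 0).mono_left (nhdsWithin_le_nhds (s := {0}ᶜ))
  simpa using h1

theorem leadx_non (hp : p.Prime) (hG : Nat.card G = p) {v : HeightOneSpectrum (𝓞 F)}
    (hv : v ∉ S) (hfr : fr v ≠ 1) {c : (G →* ℂˣ) → ℂ} (hc : LeadX (Finset.cons v S hv) T r fr c) :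
    LeadX S T r fr (fun χ => c χ / (1 - (χ (fr v) : ℂ))) := by
  intro χ hχ
  obtain ⟨Λ, h1, h2, h3⟩ := hc χ hχ
  have hne : (1 : ℂ) - (χ (fr v) : ℂ) ≠ 0 := by
    intro h
    apply hχ
    have hp' : Fact p.Prime := ⟨hp⟩
    have h4 : χ (fr v) = 1 := by
      apply Units.ext
      rw [Units.val_one]
      exact (sub_eq_zero.1 h).symm
    ext g
    obtain ⟨n, hn⟩ := Subgroup.mem_zpowers_iff.1 (mem_zpowers_of_prime_card hG hfr (g' := g))
    rw [← hn, map_zpow, h4, one_zpow]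
    rfl
  refine ⟨fun s => Λ s / (1 - (χ (fr v) : ℂ) * (nv v : ℂ) ^ (0 - s)), ?_, ?_, ?_⟩
  · exact h1.div (le_mero_pow v _ 0)
  · intro s hs
    have hf0 : 1 - (χ (fr v) : ℂ) * (nv v : ℂ) ^ (-s) ≠ 0 :=
      le_factor v χ (by rw [Complex.neg_re]; linarith)
    beta_reduce
    rw [h2 s hs, lst_consS hv χ hs, zero_sub]
    field_simp
  · have h5 := h3.div (le_cont v (χ (fr v) : ℂ) 0) (by simpa using hne)
    simp only [Complex.cpow_zero, mul_one] at h5
    refine h5.congr fun s => ?_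
    show Λ s / s ^ r / _ = Λ s / _ / s ^ r
    rw [div_right_comm]

theorem leadx_split {v : HeightOneSpectrum (𝓞 F)} (hv : v ∉ S) (hfr : fr v = 1)
    {c : (G →* ℂˣ) → ℂ} (hc : LeadX (Finset.cons v S hv) T (r + 1) fr c) :
    LeadX S T r fr (fun χ => c χ / (Real.log (nv v) : ℂ)) := by
  intro χ hχ
  obtain ⟨Λ, h1, h2, h3⟩ := hc χ hχ
  have hlog : (0 : ℝ) < Real.log (nv v) := Real.log_pos (by linarith [le_nv_pos v])
  have hlog' : (Real.log (nv v) : ℂ) ≠ 0 := by exact_mod_cast hlog.ne'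
  have hχ1 : (χ (fr v) : ℂ) = 1 := by rw [hfr, map_one, Units.val_one]
  refine ⟨fun s => Λ s / (1 - (χ (fr v) : ℂ) * (nv v : ℂ) ^ (0 - s)), ?_, ?_, ?_⟩
  · exact h1.div (le_mero_pow v _ 0)
  · intro s hs
    have hf0 : 1 - (χ (fr v) : ℂ) * (nv v : ℂ) ^ (-s) ≠ 0 :=
      le_factor v χ (by rw [Complex.neg_re]; linarith)
    beta_reduce
    rw [h2 s hs, lst_consS hv χ hs, zero_sub]
    field_simp
  · -- the derivative of `1 - nv^{-s}` at `0`
    have hd : HasDerivAt (fun s : ℂ => 1 - (nv v : ℂ) ^ (0 - s)) (Real.log (nv v) : ℂ) 0 := by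
      have h4 : HasDerivAt (fun s : ℂ => (nv v : ℂ) ^ (0 - s))
          ((nv v : ℂ) ^ ((0 : ℂ) - 0) * Complex.log (nv v : ℂ) * (-1)) 0 := by
        have h5 : HasDerivAt (fun s : ℂ => (0 : ℂ) - s) (-1) 0 := by
          simpa using (hasDerivAt_id (0 : ℂ)).const_sub 0
        exact h5.const_cpow (Or.inl (le_nv_ne v))
      have h6 := h4.const_sub 1
      have h7 : -((nv v : ℂ) ^ ((0 : ℂ) - 0) * Complex.log (nv v : ℂ) * (-1)) =
          (Real.log (nv v) : ℂ) := by
        rw [sub_zero, Complex.cpow_zero, Complex.natCast_log]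
        ring
      rwa [h7] at h6
    have hs := hd.tendsto_slope
    have hs' : Tendsto (fun s : ℂ => (1 - (χ (fr v) : ℂ) * (nv v : ℂ) ^ (0 - s)) / s) (𝓝[≠] 0)
        (𝓝 (Real.log (nv v) : ℂ)) := by
      refine hs.congr fun s => ?_
      rw [slope_def_field, hχ1]
      simp
    have h5 := h3.div hs' hlog'
    refine h5.congr' ?_
    filter_upwards [self_mem_nhdsWithin] with s hs0
    have hs0' : s ≠ 0 := hs0
    show Λ s / s ^ (r + 1) / (_ / s) = Λ s / _ / s ^ r
    rw [pow_succ]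
    by_cases hz : (1 - (χ (fr v) : ℂ) * (nv v : ℂ) ^ (0 - s)) = 0
    · rw [hz]; simp
    · field_simp

theorem leadx_addT {v : HeightOneSpectrum (𝓞 F)} (hv : v ∉ T) {c : (G →* ℂˣ) → ℂ}
    (hc : LeadX S T r fr c) : LeadX S (Finset.cons v T hv) r fr
      (fun χ => (1 - (χ (fr v) : ℂ) * (nv v : ℂ)) * c χ) := by
  intro χ hχ
  obtain ⟨Λ, h1, h2, h3⟩ := hc χ hχ
  refine ⟨fun s => (1 - (χ (fr v) : ℂ) * (nv v : ℂ) ^ (1 - s)) * Λ s, ?_, ?_, ?_⟩
  · exact (le_mero_pow v _ 1).mul h1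
  · intro s hs
    beta_reduce
    rw [h2 s hs, lst_consT hv χ s]
  · have h5 := (le_cont v (χ (fr v) : ℂ) 1).mul h3
    simp only [Complex.cpow_one] at h5
    refine h5.congr fun s => ?_
    show _ * (Λ s / s ^ r) = _ * Λ s / s ^ r
    rw [mul_div_assoc]

theorem leadx_rmT {v : HeightOneSpectrum (𝓞 F)} (hv : v ∉ T) {c : (G →* ℂˣ) → ℂ}
    (hc : LeadX S (Finset.cons v T hv) r fr c) : LeadX S T r fr
      (fun χ => c χ / (1 - (χ (fr v) : ℂ) * (nv v : ℂ))) := by
  intro χ hχ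
  obtain ⟨Λ, h1, h2, h3⟩ := hc χ hχ
  have hne : 1 - (χ (fr v) : ℂ) * (nv v : ℂ) ≠ 0 := by
    intro h
    have h4 := congrArg norm (sub_eq_zero.1 h).symm
    rw [norm_mul, le_norm, one_mul, norm_one, Complex.norm_natCast] at h4
    linarith [le_nv_pos v]
  refine ⟨fun s => Λ s / (1 - (χ (fr v) : ℂ) * (nv v : ℂ) ^ (1 - s)), ?_, ?_, ?_⟩
  · exact h1.div (le_mero_pow v _ 1)
  · intro s hs
    have hf0 : 1 - (χ (fr v) : ℂ) * (nv v : ℂ) ^ (1 - s) ≠ 0 :=
      le_factor v χ (by rw [Complex.sub_re, Complex.one_re]; linarith)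
    beta_reduce
    rw [h2 s hs, lst_consT hv χ s]
    field_simp
  · have h5 := h3.div (le_cont v (χ (fr v) : ℂ) 1) (by simpa using hne)
    simp only [Complex.cpow_one] at h5
    refine h5.congr fun s => ?_
    show Λ s / s ^ r / _ = Λ s / _ / s ^ r
    rw [div_right_comm]

end GEN

end Pool.Agent.RSK
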