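import Pool.Agent.Lib_helper17.RS.Bas
import Pool.Agent.Lib_helper17.RS.BasZ
import Pool.Agent.Lib_helper17.RS.P_PF
import Pool.Agent.Lib_helper17.RS.P_LE
/-!
# Rubin-Stark: block L1
-/

namespace Pool.Agent.RSK

set_option linter.unusedSectionVars false

open NumberField NumberField.InfinitePlace NumberField.Units IsDedekindDomain Filter Topology
  Complex

section L1a

variable {G : Type} [CommGroup G] [Fintype G]

theorem l1_single_nrm (g : G) : MonoidAlgebra.single g (1 : ℤ) * nrm G = nrm G := by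
  unfold nrm
  rw [Finset.mul_sum, ← Equiv.sum_comp (Equiv.mulLeft g) (fun x => MonoidAlgebra.single x (1 : ℤ))]
  refine Finset.sum_congr rfl fun x _ => ?_
  rw [MonoidAlgebra.single_mul_single, one_mul, Equiv.coe_mulLeft]

theorem l1_evQ_single (χ : G →* ℂˣ) (g : G) (q : ℚ) :
    evQ χ (MonoidAlgebra.single g q) = q * (χ g : ℂ) := by
  rw [evQ, MonoidAlgebra.lift_single]
  rw [Algebra.smul_def]
  rfl

theorem l1_toQ_single (g : G) (n : ℤ) :
    toQ G (MonoidAlgebra.single g n) = MonoidAlgebra.single g (n : ℚ) := by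
  simp [toQ]

/-- the nontrivial characters kill the norm element -/
theorem l1_ev_nrm (χ : G →* ℂˣ) {g : G} (hg : χ g ≠ 1) : evQ χ (toQ G (nrm G)) = 0 := by
  have h := congrArg (fun a => evQ χ (toQ G a)) (l1_single_nrm g)
  simp only [map_mul] at h
  rw [l1_toQ_single, l1_evQ_single] at h
  have h2 : ((χ g : ℂ) - 1) * evQ χ (toQ G (nrm G)) = 0 := by
    push_cast at h
    linear_combination h
  rcases mul_eq_zero.1 h2 with h3 | h3
  · exfalso
    apply hg
    ext
    rw [Units.val_one]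
    linear_combination h3
  · exact h3

/-- `p / (1 - g)` -/
noncomputable def l1_h (p : ℕ) (g : G) : MonoidAlgebra ℤ G :=
  -∑ i ∈ Finset.range p, MonoidAlgebra.single (g ^ i) (i : ℤ)

theorem l1_sum (g : G) (n : ℕ) : (1 - MonoidAlgebra.single g (1 : ℤ)) *
    ∑ i ∈ Finset.range n, MonoidAlgebra.single (g ^ i) (i : ℤ) =
      ∑ i ∈ Finset.range n, MonoidAlgebra.single (g ^ i) (1 : ℤ) -
        MonoidAlgebra.single (g ^ n) (n : ℤ) +
          (MonoidAlgebra.single (g ^ n) (1 : ℤ) - 1) := by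
  induction n with
  | zero => simp [MonoidAlgebra.one_def]
  | succ n ih =>
    rw [Finset.sum_range_succ, mul_add, ih, Finset.sum_range_succ, sub_mul, one_mul,
      MonoidAlgebra.single_mul_single, one_mul, ← pow_succ']
    have : MonoidAlgebra.single (g ^ (n + 1)) ((n + 1 : ℕ) : ℤ) =
        MonoidAlgebra.single (g ^ (n + 1)) (n : ℤ) + MonoidAlgebra.single (g ^ (n + 1)) (1 : ℤ) := by
      rw [← MonoidAlgebra.single_add]
      push_cast
      rfl
    rw [this]
    abel

theorem l1_nrm_pow {p : ℕ} (hp : p.Prime) (hG : Nat.card G = p) {g : G} (hg : g ≠ 1) :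
    ∑ i ∈ Finset.range p, MonoidAlgebra.single (g ^ i) (1 : ℤ) = nrm G := by
  classical
  have : Fact p.Prime := ⟨hp⟩
  have ho : orderOf g = p := by
    have h1 : orderOf g ∣ p := hG ▸ orderOf_dvd_natCard g
    rcases (Nat.dvd_prime hp).1 h1 with h | h
    · exact absurd (orderOf_eq_one_iff.1 h) hg
    · exact h
  unfold nrm
  have hinj : Set.InjOn (fun i => g ^ i) (Finset.range p : Set ℕ) := by
    intro a ha b hb hab
    rw [Finset.coe_range] at ha hb
    exact pow_injOn_Iio_orderOf (by rw [ho]; exact ha) (by rw [ho]; exact hb) hab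
  have himg : (Finset.range p).image (fun i => g ^ i) = Finset.univ := by
    apply Finset.eq_univ_of_card
    rw [Finset.card_image_of_injOn hinj, Finset.card_range, ← hG, Nat.card_eq_fintype_card]
  rw [← himg, Finset.sum_image hinj]

theorem l1_h_mul {p : ℕ} (hp : p.Prime) (hG : Nat.card G = p) {g : G} (hg : g ≠ 1) :
    (1 - MonoidAlgebra.single g (1 : ℤ)) * l1_h p g = MonoidAlgebra.single 1 (p : ℤ) - nrm G := by
  have hgp : g ^ p = 1 := by
    rw [← hG]
    exact pow_card_eq_one'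
  rw [l1_h, mul_neg, l1_sum, l1_nrm_pow hp hG hg, hgp, ← MonoidAlgebra.one_def]
  abel

theorem l1_chi_ne {p : ℕ} (hp : p.Prime) (hG : Nat.card G = p) {g : G} (hg : g ≠ 1)
    {χ : G →* ℂˣ} (hχ : χ ≠ 1) : χ g ≠ 1 := by
  have : Fact p.Prime := ⟨hp⟩
  intro h
  apply hχ
  ext x
  obtain ⟨n, hn⟩ := Submonoid.mem_powers_iff _ _ |>.1
    (mem_powers_of_prime_card hG hg : x ∈ Submonoid.powers g)
  rw [← hn, map_pow, h, one_pow]
  rfl

theorem l1_scal (q : ℚ) (n : ℕ) : (MonoidAlgebra.single (1 : G) q) ^ n =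
    MonoidAlgebra.single 1 (q ^ n) := by
  rw [MonoidAlgebra.single_pow, one_pow]

end L1a

section L1b

variable {F H : Type} [Field F] [NumberField F] [Field H] [NumberField H] [Algebra F H]
  [IsGalois F H] {G : Type} [CommGroup G] [Fintype G] {p : ℕ} {ι : G ≃* (H ≃ₐ[F] H)}
  {S T : Finset (HeightOneSpectrum (𝓞 F))} {r : ℕ} {w : Fin r → Pl H}
  {fr : HeightOneSpectrum (𝓞 F) → G}

theorem l1_val_sum {A : Type} (s : Finset A) (f : A → UM ι S T) :
    (∑ a ∈ s, f a).val = ∏ a ∈ s, (f a).val := by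
  classical
  induction s using Finset.induction_on with
  | empty => rw [Finset.sum_empty, Finset.prod_empty, UM.val_zero]
  | insert a s ha ih => rw [Finset.sum_insert ha, Finset.prod_insert ha, UM.val_add, ih]

theorem l1_nrm_val (u : UM ι S T) : (nrm G • u).val = ∏ g : G, ι g • u.val := by
  unfold nrm
  rw [Finset.sum_smul, l1_val_sum]
  refine Finset.prod_congr rfl fun g _ => ?_
  rw [um_single_smul]

/-- The Frobenius fixes the places above `v`. -/
theorem l1_act_fr {v : HeightOneSpectrum (𝓞 F)} {g : G} (h : IsFr v (ι g))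
    {W : HeightOneSpectrum (𝓞 H)} (hW : W.under (𝓞 F) = v) :
    act (ι g) (Sum.inr W) = Sum.inr W := by
  show Sum.inr _ = Sum.inr W
  congr 1
  have hle : (HeightOneSpectrum.equivOfRingEquiv
      (RingOfIntegers.mapRingEquiv (ι g).toRingEquiv) W).asIdeal ≤ W.asIdeal := by
    intro x hx
    have hx' : (RingOfIntegers.mapRingEquiv (ι g).toRingEquiv).symm x ∈ W.asIdeal := hx
    have h1 := h W hW ((RingOfIntegers.mapRingEquiv (ι g).toRingEquiv).symm x)
    rw [RingEquiv.apply_symm_apply] at h1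
    have hnv : nv v ≠ 0 := by
      have := nv_two_le v
      omega
    have h2 := Ideal.pow_mem_of_mem W.asIdeal hx' (nv v) (Nat.pos_of_ne_zero hnv)
    have h3 := Ideal.add_mem _ h1 h2
    rwa [sub_add_cancel] at h3
  exact HeightOneSpectrum.ext ((HeightOneSpectrum.isMaximal _).eq_of_le W.isPrime.ne_top hle)

/-- nonsplit places are fixed by `G` -/
theorem l1_act_all (hp : p.Prime) (hG : Nat.card G = p) {v : HeightOneSpectrum (𝓞 F)} {g : G}
    (hg : g ≠ 1) (h : IsFr v (ι g)) {W : HeightOneSpectrum (𝓞 H)} (hW : W.under (𝓞 F) = v)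
    (g' : G) : act (ι g') (Sum.inr W) = Sum.inr W := by
  have : Fact p.Prime := ⟨hp⟩
  obtain ⟨n, hn⟩ := Submonoid.mem_powers_iff _ _ |>.1
    (mem_powers_of_prime_card hG hg : g' ∈ Submonoid.powers g)
  rw [← hn]
  clear hn
  induction n with
  | zero => rw [pow_zero, map_one, act_one]
  | succ n ih => rw [pow_succ, map_mul, act_mul, l1_act_fr h hW, ih]

/-- elements of norm zero are units at nonsplit places -/
theorem l1_unit (hp : p.Prime) (hG : Nat.card G = p) {v : HeightOneSpectrum (𝓞 F)} {g : G}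
    (hg : g ≠ 1) (h : IsFr v (ι g)) {W : HeightOneSpectrum (𝓞 H)} (hW : W.under (𝓞 F) = v)
    {u : Hˣ} (hu : ∏ g : G, ι g • u = 1) : W.valuation H (u : H) = 1 := by
  have h1 : ∀ g' : G, W.valuation H (((ι g' • u : Hˣ)) : H) = W.valuation H (u : H) := by
    intro g'
    have h2 : HeightOneSpectrum.equivOfRingEquiv
        (RingOfIntegers.mapRingEquiv (ι g').toRingEquiv) W = W :=
      Sum.inr_injective (l1_act_all hp hG hg h hW g')
    have h3 := val_equiv (ι g').toRingEquiv W (u : H)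
    rw [h2] at h3
    exact h3
  have h4 := congrArg (fun z : Hˣ => W.valuation H (z : H)) hu
  simp only [Units.coe_prod, map_prod, Units.val_one, map_one] at h4
  rw [Finset.prod_congr rfl (fun g' _ => h1 g'), Finset.prod_const, Finset.card_univ] at h4
  exact (pow_eq_one_iff.1 h4).resolve_right
    (by rw [← Nat.card_eq_fintype_card, hG]; exact hp.ne_zero)

theorem l1_mem (hp : p.Prime) (hG : Nat.card G = p) (hD : Data ι S T r w fr)
    {v : HeightOneSpectrum (𝓞 F)} (hv : v ∉ S) (hfr : fr v ≠ 1)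
    {u : UM ι (Finset.cons v S hv) T} (hu : nrm G • u = 0) : u.val ∈ Un (ovr H S) (ovr H T) := by
  refine ⟨fun W hW => ?_, u.val_mem.2⟩
  by_cases h : W.under (𝓞 F) = v
  · refine l1_unit hp hG hfr (hD.frob v hv) h ?_
    rw [← l1_nrm_val, hu, UM.val_zero]
  · refine u.val_mem.1 W fun h2 => ?_
    rw [mem_ovr, Finset.mem_cons] at h2
    rcases h2 with h2 | h2
    · exact h h2
    · exact hW (mem_ovr.2 h2)

theorem l1_smul_val {S' : Finset (HeightOneSpectrum (𝓞 F))} (a : MonoidAlgebra ℤ G)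
    (u : UM ι S T) (u' : UM ι S' T) (h : u.val = u'.val) : (a • u).val = (a • u').val := by
  induction a using MonoidAlgebra.induction_on with
  | of g =>
    have h1 : MonoidAlgebra.of ℤ G g = MonoidAlgebra.single g 1 := rfl
    rw [h1, um_single_smul, um_single_smul, h]
  | add a b ha hb => rw [add_smul, add_smul, UM.val_add, UM.val_add, ha, hb]
  | smul c a ha =>
    have key : ∀ (S : Finset (HeightOneSpectrum (𝓞 F))) (u : UM ι S T) (c : ℤ),
        (c • u).val = u.val ^ c := by
      intro S u c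
      rfl
    have h1 : (c • a) • u = c • (a • u) := smul_assoc c a u
    have h2 : (c • a) • u' = c • (a • u') := smul_assoc c a u'
    rw [h1, h2, key, key, ha]

/-- the map `u ↦ (p - nrm) u` -/
noncomputable def l1_map (hp : p.Prime) (hG : Nat.card G = p) (hD : Data ι S T r w fr)
    {v : HeightOneSpectrum (𝓞 F)} (hv : v ∉ S) (hfr : fr v ≠ 1) :
    UM ι (Finset.cons v S hv) T →ₗ[MonoidAlgebra ℤ G] UM ι S T where
  toFun u := UM.mk ((MonoidAlgebra.single 1 (p : ℤ) - nrm G : MonoidAlgebra ℤ G) • u).val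
    (l1_mem hp hG hD hv hfr (by
      rw [smul_smul]
      have h1 : nrm G * (MonoidAlgebra.single 1 (p : ℤ) - nrm G) = 0 := by
        have h2 : nrm G * nrm G = MonoidAlgebra.single 1 (p : ℤ) * nrm G := by
          have h3 : nrm G * nrm G = (∑ g : G, MonoidAlgebra.single g (1 : ℤ)) * nrm G := rfl
          rw [h3, Finset.sum_mul, Finset.sum_congr rfl (fun g _ => l1_single_nrm g), Finset.sum_const,
            Finset.card_univ, ← Nat.card_eq_fintype_card, hG]
          have : MonoidAlgebra.single (1 : G) (p : ℤ) = p • (1 : MonoidAlgebra ℤ G) := by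
            rw [MonoidAlgebra.one_def, MonoidAlgebra.smul_single]
            simp
          rw [this, smul_mul_assoc, one_mul]
        rw [mul_sub, h2]
        ring
      rw [h1, zero_smul]))
  map_add' u u' := UM.ext (by
    rw [UM.val_mk, UM.val_add, UM.val_mk, UM.val_mk, smul_add, UM.val_add])
  map_smul' a u := UM.ext (by
    rw [UM.val_mk, RingHom.id_apply, smul_comm]
    exact (l1_smul_val a _ _ rfl))

theorem lc_non (hp : p.Prime) (hG : Nat.card G = p) (hD : Data ι S T r w fr) {l : ℕ}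
    (hl : l.Prime) (hlp : l ≠ p) {v : HeightOneSpectrum (𝓞 F)} (hv : v ∉ S) (hvT : v ∉ T)
    (hfr : fr v ≠ 1) (h : LCore ι (Finset.cons v S hv) T w fr l) : LCore ι S T w fr l := by
  obtain ⟨c, hc, hne, b, x, hco, hint⟩ := h
  have hpQ : (p : ℚ) ≠ 0 := by exact_mod_cast hp.ne_zero
  have hpC : (p : ℂ) ≠ 0 := by exact_mod_cast hp.ne_zero
  have hg : (fr v)⁻¹ ≠ 1 := by simpa using hfr
  refine ⟨fun χ => c χ / (1 - (χ (fr v) : ℂ)), leadx_non hp hG hv hfr hc, fun χ hχ => ?_, ?_⟩
  · refine div_ne_zero (hne χ hχ) (fun h => l1_chi_ne hp hG hfr hχ ?_)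
    ext
    rw [Units.val_one]
    linear_combination -h
  · let b' : Fin r → UM ι S T := fun j => UM.mk (b j).val (l1_mem hp hG hD hv hfr (hco.minus j))
    have hb' : ∀ j, (b' j).val = (b j).val := fun j => rfl
    let x' : MonoidAlgebra ℚ G := MonoidAlgebra.single 1 ((p : ℚ)⁻¹) *
      (x * toQ G (l1_h p (fr v)⁻¹))
    have hw : wmat ι S T w b' = wmat ι (Finset.cons v S hv) T w b := by
      unfold wmat
      ext1 i j
      rfl
    refine ⟨b', x', ⟨fun j => ?_, ?_, fun χ hχ => ?_⟩, fun ψ => ?_⟩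
    · apply UM.ext
      rw [l1_smul_val (nrm G) (b' j) (b j) rfl, hco.minus j]
      rfl
    · show toQ G (nrm G) * (MonoidAlgebra.single 1 ((p : ℚ)⁻¹) * (x * toQ G (l1_h p (fr v)⁻¹))) = 0
      have h1 := hco.xminus
      calc _ = MonoidAlgebra.single 1 ((p : ℚ)⁻¹) * toQ G (l1_h p (fr v)⁻¹) *
            (toQ G (nrm G) * x) := by ring
        _ = 0 := by rw [h1, mul_zero]
    · have h1 := congrArg (fun a => evQ χ (toQ G a)) (l1_h_mul hp hG hg)
      simp only [map_mul, map_sub, map_one] at h1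
      rw [l1_toQ_single, l1_toQ_single, l1_evQ_single, l1_evQ_single,
        l1_ev_nrm χ (l1_chi_ne hp hG hfr hχ)] at h1
      have hχ' : χ⁻¹ ≠ 1 := fun h => hχ (by
        ext x
        have h2 := congrArg (fun f : G →* ℂˣ => f x) h
        have h3 : (χ x)⁻¹ = 1 := h2
        rw [inv_eq_one.1 h3]
        rfl)
      have h2 : (1 - ((χ⁻¹ (fr v) : ℂˣ) : ℂ)) ≠ 0 := fun h => l1_chi_ne hp hG hfr hχ' (by
        ext
        rw [Units.val_one]
        linear_combination -h)
      have h3 : ((χ (fr v)⁻¹ : ℂˣ) : ℂ) = ((χ⁻¹ (fr v) : ℂˣ) : ℂ) := by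
        rw [map_inv]
        rfl
      rw [h3] at h1
      have h4 := hco.value χ hχ
      show evQ χ (MonoidAlgebra.single 1 ((p : ℚ)⁻¹) * (x * toQ G (l1_h p (fr v)⁻¹))) *
        evR χ (wmat ι S T w b').det = c χ⁻¹ / (1 - ((χ⁻¹ (fr v) : ℂˣ) : ℂ))
      rw [hw, map_mul, map_mul, l1_evQ_single, eq_div_iff h2, ← h4, map_one, Units.val_one]
      push_cast at h1 ⊢
      rw [map_one, Units.val_one] at h1
      have h5 : (p : ℂ)⁻¹ * p = 1 := inv_mul_cancel₀ hpC
      linear_combination (evQ χ x * evR χ (wmat ι (Finset.cons v S hv) T w b).det * (p : ℂ)⁻¹) * h1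
        + (evQ χ x * evR χ (wmat ι (Finset.cons v S hv) T w b).det) * h5
    · obtain ⟨k, a, hk, hka⟩ := hint (fun i => (ψ i).comp (l1_map hp hG hD hv hfr))
      have h1 : ∀ j, l1_map hp hG hD hv hfr (b j) = (MonoidAlgebra.single 1 (p : ℤ) : MonoidAlgebra ℤ G) • b' j := by
        intro j
        apply UM.ext
        show ((MonoidAlgebra.single 1 (p : ℤ) - nrm G : MonoidAlgebra ℤ G) • b j).val = _
        rw [sub_smul, hco.minus j, sub_zero]
        exact l1_smul_val _ _ _ rfl
      have h2 : pmat (fun i => (ψ i).comp (l1_map hp hG hD hv hfr)) b =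
          (MonoidAlgebra.single 1 (p : ℤ) : MonoidAlgebra ℤ G) • pmat ψ b' := by
        ext1 i j
        show ψ i (l1_map hp hG hD hv hfr (b j)) = _
        rw [h1, map_smul]
        rfl
      rw [h2, Matrix.det_smul, Fintype.card_fin, map_mul, map_pow, l1_toQ_single, l1_scal] at hka
      refine ⟨k * p ^ (r + 1), a * l1_h p (fr v)⁻¹, ?_, ?_⟩
      · rw [hl.dvd_mul]
        rintro (h | h)
        · exact hk h
        · exact hlp ((Nat.prime_dvd_prime_iff_eq hl hp).1 (hl.dvd_of_dvd_pow h))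
      · rw [map_mul, ← hka]
        have e1 : MonoidAlgebra.single (1 : G) ((k * p ^ (r + 1) : ℕ) : ℚ) =
            MonoidAlgebra.single (1 : G) (k : ℚ) * MonoidAlgebra.single (1 : G) (((p : ℤ) : ℚ) ^ r) *
              MonoidAlgebra.single (1 : G) (p : ℚ) := by
          rw [MonoidAlgebra.single_mul_single, MonoidAlgebra.single_mul_single, one_mul, one_mul]
          push_cast
          rw [pow_succ]
          ring_nf
        have e2 : MonoidAlgebra.single (1 : G) (p : ℚ) * MonoidAlgebra.single (1 : G) ((p : ℚ)⁻¹) = 1 := by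
          rw [MonoidAlgebra.single_mul_single, one_mul, mul_inv_cancel₀ hpQ]
          rfl
        rw [e1]
        show _ * (MonoidAlgebra.single 1 ((p : ℚ)⁻¹) * (x * toQ G (l1_h p (fr v)⁻¹)) *
          toQ G (pmat ψ b').det) = _
        linear_combination (MonoidAlgebra.single (1 : G) (k : ℚ) *
          MonoidAlgebra.single (1 : G) (((p : ℤ) : ℚ) ^ r) * x * toQ G (l1_h p (fr v)⁻¹) *
          toQ G (pmat ψ b').det) * e2

end L1b

end Pool.Agent.RSK
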