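import Pool.Agent.Lib_helper17.RS.Bas
/-! Rubin-Stark, block EX1: extension of homomorphisms to a larger lattice. -/

namespace Pool.Agent.RSK

set_option linter.unusedSectionVars false

section EX1

variable {G : Type} [CommGroup G] [Fintype G]

/-- Extension of an integer valued map. -/
theorem ex1_int {M₁ : Type} [AddCommGroup M₁] [Module.Finite ℤ M₁] (N : Submodule ℤ M₁)
    (hsat : ∀ (n : ℤ) (u : M₁), n ≠ 0 → n • u ∈ N → u ∈ N) (φ : N →ₗ[ℤ] ℤ) :
    ∃ Φ : M₁ →ₗ[ℤ] ℤ, ∀ u : N, Φ u = φ u := by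
  have htf : Module.IsTorsionFree ℤ (M₁ ⧸ N) := by
    rw [Module.isTorsionFree_iff_smul_eq_zero]
    intro n u h
    by_cases hn : n = 0
    · left; exact hn
    · right
      obtain ⟨u, rfl⟩ := N.mkQ_surjective u
      rw [← map_smul] at h
      have h1 : n • u ∈ N := by
        rwa [Submodule.mkQ_apply, Submodule.Quotient.mk_eq_zero] at h
      rw [Submodule.mkQ_apply, Submodule.Quotient.mk_eq_zero]
      exact hsat n u hn h1
  have hfree : Module.Free ℤ (M₁ ⧸ N) := Module.free_of_finite_type_torsion_free'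
  obtain ⟨s, hs⟩ := Module.projective_lifting_property N.mkQ (LinearMap.id) N.mkQ_surjective
  have hρ : ∀ u : M₁, u - s (N.mkQ u) ∈ N := by
    intro u
    rw [← Submodule.Quotient.mk_eq_zero, ← Submodule.mkQ_apply, map_sub]
    have h1 : N.mkQ (s (N.mkQ u)) = N.mkQ u := LinearMap.congr_fun hs (N.mkQ u)
    rw [h1, sub_self]
  let ρ : M₁ →ₗ[ℤ] N := LinearMap.codRestrict N (LinearMap.id - s ∘ₗ N.mkQ) hρ
  refine ⟨φ ∘ₗ ρ, ?_⟩
  intro u
  have h1 : ρ u = u := by
    apply Subtype.ext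
    show (u : M₁) - s (N.mkQ u) = u
    have : N.mkQ (u : M₁) = 0 := by
      rw [Submodule.mkQ_apply, Submodule.Quotient.mk_eq_zero]; exact u.2
    rw [this, map_zero, sub_zero]
  rw [LinearMap.comp_apply, h1]

/-- the homomorphism with given coefficient of the identity -/
theorem ex1_map {M₁ : Type} [AddCommGroup M₁] [Module (MonoidAlgebra ℤ G) M₁]
    (Φ : M₁ →+ ℤ) : ∃ ψ₁ : M₁ →ₗ[MonoidAlgebra ℤ G] MonoidAlgebra ℤ G, ∀ u (g : G),
      (ψ₁ u).coeff g = Φ ((MonoidAlgebra.single g⁻¹ (1 : ℤ) : MonoidAlgebra ℤ G) • u) := by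
  classical
  let f : M₁ → MonoidAlgebra ℤ G := fun u =>
    ∑ g : G, MonoidAlgebra.single g (Φ ((MonoidAlgebra.single g⁻¹ (1 : ℤ) : MonoidAlgebra ℤ G) • u))
  have hf : ∀ u (g : G), (f u).coeff g =
      Φ ((MonoidAlgebra.single g⁻¹ (1 : ℤ) : MonoidAlgebra ℤ G) • u) := by
    intro u g
    show (∑ g : G, MonoidAlgebra.single g
      (Φ ((MonoidAlgebra.single g⁻¹ (1 : ℤ) : MonoidAlgebra ℤ G) • u))).coeff g = _
    rw [MonoidAlgebra.coeff_sum, Finsupp.finsetSum_apply]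
    simp only [MonoidAlgebra.coeff_single, Finsupp.single_apply]
    rw [Finset.sum_ite_eq' Finset.univ g]
    simp
  have hadd : ∀ u v, f (u + v) = f u + f v := by
    intro u v
    apply MonoidAlgebra.ext
    ext g
    rw [hf, MonoidAlgebra.coeff_add, Finsupp.add_apply, hf, hf, smul_add, map_add]
  have hsm : ∀ (a : MonoidAlgebra ℤ G) (u : M₁), f (a • u) = a • f u := by
    intro a u
    let F : M₁ →+ MonoidAlgebra ℤ G := AddMonoidHom.mk' f hadd
    have hF : ∀ u, F u = f u := fun u => rfl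
    induction a using MonoidAlgebra.induction_linear with
    | zero => rw [zero_smul, zero_smul, ← hF, map_zero]
    | add a b ha hb => rw [add_smul, hadd, ha, hb, add_smul]
    | single h c =>
      apply MonoidAlgebra.ext
      ext g
      rw [hf, smul_smul, MonoidAlgebra.single_mul_single, one_mul, smul_eq_mul,
        MonoidAlgebra.coeff_single_mul_apply, hf]
      have h1 : (MonoidAlgebra.single (g⁻¹ * h) c : MonoidAlgebra ℤ G) =
          c • (MonoidAlgebra.single (h⁻¹ * g)⁻¹ (1 : ℤ) : MonoidAlgebra ℤ G) := by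
        rw [MonoidAlgebra.smul_single, smul_eq_mul, mul_one]
        congr 1
        group
      rw [h1, zsmul_eq_mul, mul_smul, Int.cast_smul_eq_zsmul, map_zsmul, smul_eq_mul]
  exact ⟨{ toFun := f, map_add' := hadd, map_smul' := hsm }, hf⟩

theorem ext_lat {M M₁ : Type} [AddCommGroup M] [Module (MonoidAlgebra ℤ G) M] [AddCommGroup M₁]
    [Module (MonoidAlgebra ℤ G) M₁] [Module.Finite ℤ M₁] (j : M →ₗ[MonoidAlgebra ℤ G] M₁)
    (hj : Function.Injective j)
    (hsat : ∀ (n : ℤ) (u : M₁), n ≠ 0 → n • u ∈ LinearMap.range j → u ∈ LinearMap.range j)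
    (ψ : M →ₗ[MonoidAlgebra ℤ G] MonoidAlgebra ℤ G) :
    ∃ ψ₁ : M₁ →ₗ[MonoidAlgebra ℤ G] MonoidAlgebra ℤ G, ∀ u, ψ₁ (j u) = ψ u := by
  classical
  let jz : M →ₗ[ℤ] M₁ := j.toAddMonoidHom.toIntLinearMap
  have hjz : ∀ u, jz u = j u := fun u => rfl
  have hjzi : Function.Injective jz := hj
  let e : M ≃ₗ[ℤ] LinearMap.range jz := LinearEquiv.ofInjective jz hjzi
  let cψ : M →+ ℤ :=
    { toFun := fun u => (ψ u).coeff 1
      map_zero' := by rw [map_zero]; rfl
      map_add' := fun u v => by rw [map_add, MonoidAlgebra.coeff_add, Finsupp.add_apply] }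
  have hrange : ∀ u, u ∈ LinearMap.range jz ↔ u ∈ LinearMap.range j := by
    intro u
    rfl
  obtain ⟨Φ, hΦ⟩ := ex1_int (LinearMap.range jz)
    (fun n u hn h => (hrange u).2 (hsat n u hn ((hrange _).1 h)))
    (cψ.toIntLinearMap ∘ₗ (e.symm : LinearMap.range jz →ₗ[ℤ] M))
  obtain ⟨ψ₁, hψ₁⟩ := ex1_map (G := G) Φ.toAddMonoidHom
  refine ⟨ψ₁, ?_⟩
  intro u
  apply MonoidAlgebra.ext
  ext g
  rw [hψ₁, ← map_smul]
  have h1 := hΦ (e ((MonoidAlgebra.single g⁻¹ (1 : ℤ) : MonoidAlgebra ℤ G) • u))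
  rw [LinearMap.comp_apply, LinearEquiv.coe_coe, e.symm_apply_apply] at h1
  refine h1.trans ?_
  show (ψ ((MonoidAlgebra.single g⁻¹ (1 : ℤ) : MonoidAlgebra ℤ G) • u)).coeff 1 = _
  rw [map_smul, smul_eq_mul, MonoidAlgebra.coeff_single_mul_apply, inv_inv, mul_one, one_mul]

end EX1

end Pool.Agent.RSK

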