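import Pool.Agent.Lib_helper17.RS.Bas
/-! Rubin-Stark, block XA1. -/

namespace Pool.Agent.RSK

open NumberField NumberField.InfinitePlace NumberField.Units IsDedekindDomain Filter Topology
  Complex

variable {k : Type} [Field k] [NumberField k]

theorem xa1_ordv_iff (v : HeightOneSpectrum (𝓞 k)) {x : k} (hx : x ≠ 0) :
    ordv v x = 0 ↔ v.valuation k x = 1 := by
  have hv : v.valuation k x ≠ 0 := (map_ne_zero _).2 hx
  rw [ordv, neg_eq_zero]
  constructor
  · intro h
    rw [← WithZero.exp_log hv, h, WithZero.exp_zero]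
  · intro h
    rw [h, WithZero.log_one]

/-- the divisor of `x` has finite support -/
theorem dvx_finite (x : kˣ) : (Function.support (dvx x)).Finite := by
  have h1 := (FinitePlace.hasFiniteMulSupport (K := k) x.ne_zero)
  have h2 : (Function.support (dvx x)) ⊆
      (fun v : HeightOneSpectrum (𝓞 k) => FinitePlace.mk v) ⁻¹'
        (Function.mulSupport (fun w : FinitePlace k => w (x : k))) := by
    intro v hv
    rw [Function.mem_support, dvx, Ne, xa1_ordv_iff v x.ne_zero] at hv
    rw [Set.mem_preimage, Function.mem_mulSupport, FinitePlace.mk_apply,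
      NumberField.FinitePlace.norm_embedding, NumberField.HeightOneSpectrum.adicAbv_def]
    intro h
    apply hv
    have h3 : WithZeroMulInt.toNNReal (NumberField.HeightOneSpectrum.absNorm_ne_zero v)
        (v.valuation k (x : k)) = 1 := by exact_mod_cast h
    exact (WithZeroMulInt.toNNReal_eq_one_iff _ _
      (NumberField.HeightOneSpectrum.one_lt_absNorm_nnreal v).ne').mp h3
  refine Set.Finite.subset (Set.Finite.preimage ?_ h1) h2
  intro v _ w _ h
  exact (FinitePlace.mk_eq_iff).mp h

theorem dvx_zero_iff (x : kˣ) : (∀ v, ordv v (x : k) = 0) ↔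
    ∃ u : (𝓞 k)ˣ, Units.map (algebraMap (𝓞 k) k : 𝓞 k →* k) u = x := by
  constructor
  · intro h
    have h1 : ∀ v : HeightOneSpectrum (𝓞 k), v.valuation k (x : k) = 1 := fun v =>
      (xa1_ordv_iff v x.ne_zero).mp (h v)
    obtain ⟨a, ha⟩ := HeightOneSpectrum.mem_integers_of_valuation_le_one k (x : k)
      (fun v => (h1 v).le)
    obtain ⟨b, hb⟩ := HeightOneSpectrum.mem_integers_of_valuation_le_one k ((x⁻¹ : kˣ) : k)
      (fun v => by
        rw [Units.val_inv_eq_inv_val, map_inv₀, h1 v, inv_one])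
    have hab : a * b = 1 := by
      apply FaithfulSMul.algebraMap_injective (𝓞 k) k
      rw [map_mul, ha, hb, map_one, Units.mul_inv]
    have hba : b * a = 1 := by rw [mul_comm, hab]
    refine ⟨⟨a, b, hab, hba⟩, ?_⟩
    apply Units.ext
    exact ha
  · rintro ⟨u, rfl⟩ v
    rw [xa1_ordv_iff v (Units.ne_zero _)]
    apply le_antisymm
    · exact v.valuation_le_one (u : 𝓞 k)
    · have h1 : v.valuation k (algebraMap (𝓞 k) k ((u⁻¹ : (𝓞 k)ˣ) : 𝓞 k)) ≤ 1 :=
        v.valuation_le_one _
      have h2 : v.valuation k (algebraMap (𝓞 k) k (u : 𝓞 k)) *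
          v.valuation k (algebraMap (𝓞 k) k ((u⁻¹ : (𝓞 k)ˣ) : 𝓞 k)) = 1 := by
        rw [← map_mul, ← map_mul, Units.mul_inv, map_one, map_one]
      show 1 ≤ v.valuation k (algebraMap (𝓞 k) k (u : 𝓞 k))
      by_contra hcon
      rw [not_le] at hcon
      have h3 := mul_lt_one_of_lt_of_le hcon h1
      rw [h2] at h3
      exact lt_irrefl _ h3

end Pool.Agent.RSK
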