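import Pool.Agent.Lib_helper17.RS.Bas
/-!
# Rubin-Stark: block XA2, divisors prime to `T` and the class group
-/

namespace Pool.Agent.RSK

open NumberField NumberField.InfinitePlace NumberField.Units IsDedekindDomain Filter Topology
  Complex
open scoped nonZeroDivisors

variable {k : Type} [Field k] [NumberField k]

open scoped Classical in
theorem xa2_int (v : HeightOneSpectrum (𝓞 k)) {a : 𝓞 k} (ha : a ≠ 0) :
    ordv v (algebraMap (𝓞 k) k a) =
      FractionalIdeal.count k v (FractionalIdeal.spanSingleton (𝓞 k)⁰ (algebraMap (𝓞 k) k a)) := by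
  have h1 : (Ideal.span {a} : Ideal (𝓞 k)) ≠ 0 := by
    simpa using ha
  rw [← FractionalIdeal.coeIdeal_span_singleton, FractionalIdeal.count_coe k v h1]
  unfold ordv
  rw [HeightOneSpectrum.valuation_of_algebraMap, HeightOneSpectrum.intValuation_if_neg v ha,
    WithZero.log_exp, neg_neg]

theorem xa2_ordv (v : HeightOneSpectrum (𝓞 k)) (x : kˣ) :
    ordv v (x : k) = FractionalIdeal.count k v (FractionalIdeal.spanSingleton (𝓞 k)⁰ (x : k)) := by
  obtain ⟨a, b, hb, hx⟩ := IsFractionRing.div_surjective (A := 𝓞 k) (x : k)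
  have hb0 : b ≠ 0 := nonZeroDivisors.ne_zero hb
  have hbk : algebraMap (𝓞 k) k b ≠ 0 := by simpa using hb0
  have hxb : (x : k) * algebraMap (𝓞 k) k b = algebraMap (𝓞 k) k a := by
    rw [← hx]
    field_simp
  have ha0 : a ≠ 0 := by
    rintro rfl
    rw [map_zero] at hxb
    exact mul_ne_zero x.ne_zero hbk hxb
  have h1 : ordv v (x : k) + ordv v (algebraMap (𝓞 k) k b) = ordv v (algebraMap (𝓞 k) k a) := by
    have h := ordv_mul v x (Units.mk0 _ hbk)
    rw [Units.val_mul, Units.val_mk0, hxb] at h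
    exact h.symm
  have h2 : FractionalIdeal.count k v (FractionalIdeal.spanSingleton (𝓞 k)⁰ (x : k)) +
      FractionalIdeal.count k v (FractionalIdeal.spanSingleton (𝓞 k)⁰ (algebraMap (𝓞 k) k b)) =
      FractionalIdeal.count k v (FractionalIdeal.spanSingleton (𝓞 k)⁰ (algebraMap (𝓞 k) k a)) := by
    rw [← FractionalIdeal.count_mul k v, FractionalIdeal.spanSingleton_mul_spanSingleton, hxb]
    · exact FractionalIdeal.spanSingleton_ne_zero_iff.2 x.ne_zero
    · exact FractionalIdeal.spanSingleton_ne_zero_iff.2 hbk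
  rw [xa2_int v ha0, xa2_int v hb0] at h1
  linarith

/-- the fractional ideal of a divisor -/
noncomputable def xa2Phi (k : Type) [Field k] [NumberField k] :
    (HeightOneSpectrum (𝓞 k) →₀ ℤ) →+ Additive (FractionalIdeal (𝓞 k)⁰ k)ˣ :=
  Finsupp.liftAddHom (fun v => zmultiplesHom (Additive (FractionalIdeal (𝓞 k)⁰ k)ˣ)
    (Additive.ofMul (Units.mk0 (v.asIdeal : FractionalIdeal (𝓞 k)⁰ k)
      (FractionalIdeal.coeIdeal_ne_zero.mpr v.ne_bot))))

theorem xa2Phi_val (D : HeightOneSpectrum (𝓞 k) →₀ ℤ) :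
    ((Additive.toMul (xa2Phi k D) : (FractionalIdeal (𝓞 k)⁰ k)ˣ) : FractionalIdeal (𝓞 k)⁰ k) =
      D.prod (fun v n => (v.asIdeal : FractionalIdeal (𝓞 k)⁰ k) ^ n) := by
  unfold xa2Phi
  rw [Finsupp.liftAddHom_apply]
  unfold Finsupp.sum Finsupp.prod
  rw [toMul_sum, Units.coe_prod]
  refine Finset.prod_congr rfl fun v _ => ?_
  show ((Additive.toMul (zmultiplesHom (Additive (FractionalIdeal (𝓞 k)⁰ k)ˣ)
    (Additive.ofMul (Units.mk0 (v.asIdeal : FractionalIdeal (𝓞 k)⁰ k)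
      (FractionalIdeal.coeIdeal_ne_zero.mpr v.ne_bot))) (D v)) : (FractionalIdeal (𝓞 k)⁰ k)ˣ) :
        FractionalIdeal (𝓞 k)⁰ k) = (v.asIdeal : FractionalIdeal (𝓞 k)⁰ k) ^ (D v)
  rw [zmultiplesHom_apply, toMul_zsmul, toMul_ofMul, Units.val_zpow_eq_zpow_val, Units.val_mk0]

theorem xa2Phi_count (D : HeightOneSpectrum (𝓞 k) →₀ ℤ) (v : HeightOneSpectrum (𝓞 k)) :
    FractionalIdeal.count k v ((Additive.toMul (xa2Phi k D) : (FractionalIdeal (𝓞 k)⁰ k)ˣ) :
      FractionalIdeal (𝓞 k)⁰ k) = D v := by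
  rw [xa2Phi_val, FractionalIdeal.count_finsuppProd]

theorem xa2_ext {I J : FractionalIdeal (𝓞 k)⁰ k} (hI : I ≠ 0) (hJ : J ≠ 0)
    (h : ∀ v : HeightOneSpectrum (𝓞 k), FractionalIdeal.count k v I = FractionalIdeal.count k v J) :
    I = J := by
  rw [← FractionalIdeal.finprod_heightOneSpectrum_factorization' k hI,
    ← FractionalIdeal.finprod_heightOneSpectrum_factorization' k hJ]
  exact finprod_congr fun v => by rw [h v]

/-- the class of a divisor prime to `T` -/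
noncomputable def xa2Psi (T : Finset (HeightOneSpectrum (𝓞 k))) :
    Dv T →+ Additive (ClassGroup (𝓞 k)) :=
  (MonoidHom.toAdditive (ClassGroup.mk (R := 𝓞 k) (K := k))).comp
    ((xa2Phi k).comp (Dv T).subtype)

theorem xa2Psi_apply (T : Finset (HeightOneSpectrum (𝓞 k))) (D : Dv T) :
    Additive.toMul (xa2Psi T D) =
      ClassGroup.mk (R := 𝓞 k) (K := k)
        (Additive.toMul (xa2Phi k D.1) : (FractionalIdeal (𝓞 k)⁰ k)ˣ) := rfl

theorem xa2_ker (T : Finset (HeightOneSpectrum (𝓞 k))) :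
    (xa2Psi T).ker = (P0 T).addSubgroupOf (Dv T) := by
  ext D
  rw [AddMonoidHom.mem_ker, AddSubgroup.mem_addSubgroupOf]
  have h0 : xa2Psi T D = 0 ↔
      ClassGroup.mk (R := 𝓞 k) (K := k)
        (Additive.toMul (xa2Phi k D.1) : (FractionalIdeal (𝓞 k)⁰ k)ˣ) = 1 := by
    rw [← xa2Psi_apply]
    rfl
  rw [h0, ClassGroup.mk_eq_one_iff]
  constructor
  · rintro ⟨x, hx⟩
    have hx' : ((Additive.toMul (xa2Phi k D.1) : (FractionalIdeal (𝓞 k)⁰ k)ˣ) :
        FractionalIdeal (𝓞 k)⁰ k) = FractionalIdeal.spanSingleton (𝓞 k)⁰ x := by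
      apply FractionalIdeal.coeToSubmodule_injective
      exact hx.trans (FractionalIdeal.coe_spanSingleton (𝓞 k)⁰ x).symm
    have hx0 : x ≠ 0 := by
      rintro rfl
      rw [FractionalIdeal.spanSingleton_zero] at hx'
      exact Units.ne_zero _ hx'
    have hc : ∀ v, D.1 v = ordv v x := fun v => by
      have h := xa2_ordv v (Units.mk0 x hx0)
      rw [Units.val_mk0] at h
      rw [h, ← hx', xa2Phi_count]
    refine ⟨D.2, Units.mk0 x hx0, fun v hv => ?_, fun v => ?_⟩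
    · have h1 : ordv v x = 0 := by rw [← hc v, D.2 v hv]
      unfold ordv at h1
      rw [neg_eq_zero] at h1
      have h2 : v.valuation k x ≠ 0 := (Valuation.ne_zero_iff _).2 hx0
      rw [Units.val_mk0, ← WithZero.exp_log h2, h1, WithZero.exp_zero]
    · rw [Units.val_mk0]
      exact hc v
  · rintro ⟨-, x, -, hx⟩
    refine ⟨(x : k), ?_⟩
    have hx' : ((Additive.toMul (xa2Phi k D.1) : (FractionalIdeal (𝓞 k)⁰ k)ˣ) :
        FractionalIdeal (𝓞 k)⁰ k) = FractionalIdeal.spanSingleton (𝓞 k)⁰ (x : k) := by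
      refine xa2_ext (Units.ne_zero _) (FractionalIdeal.spanSingleton_ne_zero_iff.2 x.ne_zero)
        fun v => ?_
      rw [xa2Phi_count, ← xa2_ordv]
      exact hx v
    rw [hx', FractionalIdeal.coe_spanSingleton]

theorem xa2_coprime (T : Finset (HeightOneSpectrum (𝓞 k))) (c : ClassGroup (𝓞 k)) :
    ∃ A : (Ideal (𝓞 k))⁰, ClassGroup.mk0 A = c ∧ ∀ v ∈ T, ¬ A.1 ≤ v.asIdeal := by
  obtain ⟨I, hI⟩ := ClassGroup.mk0_surjective c⁻¹
  have hI0 : I.1 ≠ 0 := nonZeroDivisors.ne_zero I.2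
  have hP0 : (∏ v ∈ T, v.asIdeal) ≠ 0 := Finset.prod_ne_zero_iff.2 fun v _ => v.ne_bot
  have hex : ∃ a : 𝓞 k, a ≠ 0 ∧ I.1 * (∏ v ∈ T, v.asIdeal) ⊔ Ideal.span {a} = I.1 := by
    obtain ⟨a, ha⟩ := IsDedekindDomain.exists_sup_span_eq
      (I := I.1 * (∏ v ∈ T, v.asIdeal)) (J := I.1) Ideal.mul_le_left (mul_ne_zero hI0 hP0)
    by_cases ha0 : a = 0
    · obtain ⟨a', ha', ha'0⟩ := Submodule.exists_mem_ne_zero_of_ne_bot hI0
      refine ⟨a', ha'0, ?_⟩
      subst ha0
      rw [Ideal.span_singleton_zero, sup_bot_eq] at ha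
      rw [ha]
      exact sup_eq_left.2 ((Ideal.span_singleton_le_iff_mem _).2 ha')
    · exact ⟨a, ha0, ha⟩
  obtain ⟨a, ha0, ha⟩ := hex
  have hle : Ideal.span {a} ≤ I.1 := by
    rw [← ha]
    exact le_sup_right
  obtain ⟨A, hA⟩ := Ideal.dvd_iff_le.2 hle
  have hA0 : A ≠ 0 := by
    rintro rfl
    rw [mul_zero] at hA
    exact ha0 (by simpa using hA)
  have htop : (∏ v ∈ T, v.asIdeal) ⊔ A = ⊤ := by
    have h1 : I.1 * ((∏ v ∈ T, v.asIdeal) ⊔ A) = I.1 * ⊤ := by
      rw [Ideal.mul_sup, ← hA, ha, Ideal.mul_top]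
    exact mul_left_cancel₀ hI0 h1
  refine ⟨⟨A, mem_nonZeroDivisors_of_ne_zero hA0⟩, ?_, fun v hv hle => ?_⟩
  · have h1 : ClassGroup.mk0 (I * ⟨A, mem_nonZeroDivisors_of_ne_zero hA0⟩) = 1 := by
      have h2 : (I * ⟨A, mem_nonZeroDivisors_of_ne_zero hA0⟩ : (Ideal (𝓞 k))⁰) =
          ⟨Ideal.span {a}, mem_nonZeroDivisors_of_ne_zero (by simpa using ha0)⟩ :=
        Subtype.ext hA.symm
      rw [h2, ClassGroup.mk0_eq_one_iff]
      exact ⟨⟨a, rfl⟩⟩
    rw [map_mul, hI] at h1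
    exact inv_mul_eq_one.1 h1 |>.symm
  · have h1 : (⊤ : Ideal (𝓞 k)) ≤ v.asIdeal := by
      rw [← htop]
      refine sup_le ?_ hle
      exact Ideal.le_of_dvd (Finset.dvd_prod_of_mem _ hv)
    exact v.isPrime.ne_top (top_le_iff.1 h1)

open scoped Classical in
theorem xa2_surj (T : Finset (HeightOneSpectrum (𝓞 k))) : Function.Surjective (xa2Psi T) := by
  intro c
  obtain ⟨A, hA, hT⟩ := xa2_coprime T (Additive.toMul c)
  have hA0 : A.1 ≠ 0 := nonZeroDivisors.ne_zero A.2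
  have hfin : (Function.support (fun v : HeightOneSpectrum (𝓞 k) =>
      FractionalIdeal.count k v (A.1 : FractionalIdeal (𝓞 k)⁰ k))).Finite :=
    FractionalIdeal.finite_factors (K := k) (A.1 : FractionalIdeal (𝓞 k)⁰ k)
  set D : HeightOneSpectrum (𝓞 k) →₀ ℤ := Finsupp.ofSupportFinite _ hfin with hD
  have hDv : ∀ v, D v = FractionalIdeal.count k v (A.1 : FractionalIdeal (𝓞 k)⁰ k) := fun v => rfl
  have hDT : D ∈ Dv T := by
    intro v hv
    rw [hDv, FractionalIdeal.count_coe k v hA0]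
    by_contra h
    have h1 : (Associates.mk v.asIdeal).count (Associates.mk A.1).factors ≠ 0 := by
      exact_mod_cast h
    rw [Associates.count_ne_zero_iff_dvd hA0 v.irreducible] at h1
    exact hT v hv (Ideal.le_of_dvd h1)
  refine ⟨⟨D, hDT⟩, ?_⟩
  apply Additive.toMul.injective
  rw [xa2Psi_apply, ← hA, ← ClassGroup.mk_mk0 k]
  congr 1
  apply Units.ext
  refine xa2_ext (Units.ne_zero _) (Units.ne_zero _) fun v => ?_
  rw [xa2Phi_count, FractionalIdeal.coe_mk0]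
  exact hDv v

/-- the divisors of the elements prime to `T` have index `h` in the divisors prime to `T` -/
theorem index_class (T : Finset (HeightOneSpectrum (𝓞 k))) :
    (P0 T).relIndex (Dv T) = classNumber k := by
  rw [AddSubgroup.relIndex, ← xa2_ker, AddSubgroup.index_ker,
    AddMonoidHom.range_eq_top.2 (xa2_surj T)]
  rw [classNumber, ← Nat.card_eq_fintype_card]
  exact Nat.card_congr ((AddSubgroup.topEquiv (G := Additive (ClassGroup (𝓞 k)))).toEquiv.trans
    Additive.toMul)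

end Pool.Agent.RSK
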