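import Pool.Agent.Lib_helper17.RS.Bas
/-!
# Rubin-Stark: block XB, the residue classes
-/

namespace Pool.Agent.RSK

open NumberField NumberField.InfinitePlace NumberField.Units IsDedekindDomain Filter Topology
  Complex

variable {k : Type} [Field k] [NumberField k]

theorem xb_approx (T : Finset (HeightOneSpectrum (𝓞 k))) (x : T → 𝓞 k) :
    ∃ y : 𝓞 k, ∀ v : T, y - x v ∈ v.1.asIdeal := by
  obtain ⟨y, hy⟩ := IsDedekindDomain.exists_forall_sub_mem_ideal (s := T)
    (fun v : HeightOneSpectrum (𝓞 k) => v.asIdeal) (fun _ => 1) (fun v _ => v.prime)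
    (fun v _ v' _ h => fun h' => h (HeightOneSpectrum.ext h')) x
  exact ⟨y, fun v => by simpa using hy v.1 v.2⟩

theorem xb_val_one {T : Finset (HeightOneSpectrum (𝓞 k))}
    (z : (v : T) → (𝓞 k ⧸ v.1.asIdeal)ˣ) {y : 𝓞 k}
    (hy : ∀ v : T, Ideal.Quotient.mk v.1.asIdeal y = (z v : 𝓞 k ⧸ v.1.asIdeal)) (v : T) :
    v.1.valuation k (y : k) = 1 := by
  have : v.1.asIdeal.IsPrime := v.1.isPrime
  rw [show ((y : 𝓞 k) : k) = algebraMap (𝓞 k) k y from rfl,
    HeightOneSpectrum.valuation_eq_one_iff_notMem]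
  intro h
  have h0 := Ideal.Quotient.eq_zero_iff_mem.2 h
  rw [hy v] at h0
  exact (z v).ne_zero h0

theorem xb_lift (T : Finset (HeightOneSpectrum (𝓞 k)))
    (z : (v : T) → (𝓞 k ⧸ v.1.asIdeal)ˣ) :
    ∃ y : 𝓞 k, y ≠ 0 ∧ ∀ v : T, Ideal.Quotient.mk v.1.asIdeal y = (z v : 𝓞 k ⧸ v.1.asIdeal) := by
  by_cases hT : T = ∅
  · subst hT
    exact ⟨1, one_ne_zero, fun v => (Finset.notMem_empty _ v.2).elim⟩
  · have hs : ∀ v : T, ∃ a : 𝓞 k, Ideal.Quotient.mk v.1.asIdeal a = (z v : 𝓞 k ⧸ v.1.asIdeal) :=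
      fun v => Ideal.Quotient.mk_surjective _
    choose a ha using hs
    obtain ⟨y, hy⟩ := xb_approx T a
    have hy' : ∀ v : T, Ideal.Quotient.mk v.1.asIdeal y = (z v : 𝓞 k ⧸ v.1.asIdeal) := fun v => by
      rw [← ha v]
      exact Ideal.Quotient.eq.2 (hy v)
    refine ⟨y, ?_, hy'⟩
    rintro rfl
    obtain ⟨v, hv⟩ := Finset.nonempty_iff_ne_empty.2 hT
    have h := xb_val_one z hy' ⟨v, hv⟩
    simp at h

theorem xb_lt_iff {v : HeightOneSpectrum (𝓞 k)} (a b : 𝓞 k) :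
    v.valuation k ((a : k) - (b : k)) < 1 ↔ a - b ∈ v.asIdeal := by
  have e : algebraMap (𝓞 k) k (a - b) = (a : k) - (b : k) := map_sub (algebraMap (𝓞 k) k) a b
  have h : v.valuation k (algebraMap (𝓞 k) k (a - b)) < 1 ↔ a - b ∈ v.asIdeal :=
    HeightOneSpectrum.valuation_lt_one_iff_mem (K := k) v (a - b)
  rwa [e] at h

theorem xb_div {v : HeightOneSpectrum (𝓞 k)} {x y : kˣ} (hy : v.valuation k (y : k) = 1) :
    v.valuation k (((y⁻¹ * x : kˣ) : k) - 1) = v.valuation k ((x : k) - y) := by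
  have e : ((y⁻¹ * x : kˣ) : k) - 1 = (y : k)⁻¹ * ((x : k) - y) := by
    rw [Units.val_mul, Units.val_inv_eq_inv_val]
    field_simp
  rw [e, map_mul, map_inv₀, hy, inv_one, one_mul]

theorem index_KT (T : Finset (HeightOneSpectrum (𝓞 k))) :
    (KT T).relIndex (K0 T) = ∏ v ∈ T, (nv v - 1) := by
  classical
  choose y hy0 hy using fun z : ((v : T) → (𝓞 k ⧸ v.1.asIdeal)ˣ) => xb_lift T z
  have hyk : ∀ z, ((y z : 𝓞 k) : k) ≠ 0 := fun z => by
    intro h
    exact hy0 z (by exact_mod_cast h)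
  set s : ((v : T) → (𝓞 k ⧸ v.1.asIdeal)ˣ) → K0 T := fun z =>
    ⟨Units.mk0 (y z : k) (hyk z), fun v hv => xb_val_one z (hy z) ⟨v, hv⟩⟩ with hs
  have hbij : Function.Bijective (fun z => (QuotientGroup.mk (s z) :
      (K0 T) ⧸ (KT T).subgroupOf (K0 T))) := by
    constructor
    · intro z z' h
      have h1 := (QuotientGroup.eq.1 h)
      rw [Subgroup.mem_subgroupOf] at h1
      funext v
      have h2 := h1 v.1 v.2
      have h3 : v.1.valuation k ((y z' : k) - (y z : k)) < 1 := by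
        have h4 := xb_div (v := v.1) (x := (s z' : kˣ)) (y := (s z : kˣ)) ((s z).2 v.1 v.2)
        have h5 : (((s z)⁻¹ * s z' : K0 T) : kˣ) = (s z : kˣ)⁻¹ * (s z' : kˣ) := rfl
        rw [h5, h4] at h2
        exact h2
      have h6 : y z' - y z ∈ v.1.asIdeal := (xb_lt_iff _ _).1 h3
      refine Units.ext ?_
      rw [← hy z v, ← hy z' v]
      exact (Ideal.Quotient.eq.2 h6).symm
    · intro q
      obtain ⟨x, rfl⟩ := QuotientGroup.mk_surjective q
      have h1 : ∀ v : T, ∃ a : 𝓞 k, v.1.valuation k ((a : k) - ((x : kˣ) : k)) < 1 := fun v => by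
        obtain ⟨a, ha⟩ := HeightOneSpectrum.exists_valuation_sub_lt_of_integer (v := v.1) (K := k)
          (x := ((x : kˣ) : k)) (le_of_eq (x.2 v.1 v.2)) (γ := 1)
        exact ⟨a, by simpa using ha⟩
      choose a ha using h1
      obtain ⟨b, hb⟩ := xb_approx T a
      have hb2 : ∀ v : T, v.1.valuation k ((b : k) - ((x : kˣ) : k)) < 1 := fun v => by
        have e : (b : k) - ((x : kˣ) : k) = ((b : k) - (a v : k)) + ((a v : k) - ((x : kˣ) : k)) := by
          ring
        rw [e]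
        refine Valuation.map_add_lt _ ?_ (ha v)
        exact (xb_lt_iff _ _).2 (hb v)
      have hb3 : ∀ v : T, v.1.valuation k (b : k) = 1 := fun v => by
        have e : (b : k) = ((b : k) - ((x : kˣ) : k)) + ((x : kˣ) : k) := by ring
        rw [e, Valuation.map_add_eq_of_lt_right _ (by rw [x.2 v.1 v.2]; exact hb2 v), x.2 v.1 v.2]
      have hu : ∀ v : T, IsUnit (Ideal.Quotient.mk v.1.asIdeal b) := fun v => by
        have : v.1.asIdeal.IsMaximal := v.1.isMaximal
        let _ := Ideal.Quotient.field v.1.asIdeal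
        refine IsUnit.mk0 _ ?_
        intro h0
        have h1 := Ideal.Quotient.eq_zero_iff_mem.1 h0
        exact (HeightOneSpectrum.valuation_eq_one_iff_notMem (K := k) v.1).1 (hb3 v) h1
      refine ⟨fun v => (hu v).unit, ?_⟩
      refine QuotientGroup.eq.2 ?_
      rw [Subgroup.mem_subgroupOf]
      intro v hv
      set z : ((v : T) → (𝓞 k ⧸ v.1.asIdeal)ˣ) := fun v => (hu v).unit with hz
      have h4 := xb_div (v := v) (x := (x : kˣ)) (y := (s z : kˣ)) ((s z).2 v hv)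
      have h5 : (((s z)⁻¹ * x : K0 T) : kˣ) = (s z : kˣ)⁻¹ * (x : kˣ) := rfl
      rw [h5, h4]
      have h6 : Ideal.Quotient.mk v.asIdeal (y z) = Ideal.Quotient.mk v.asIdeal b :=
        hy z ⟨v, hv⟩
      have h7 := (xb_lt_iff (v := v) (y z) b).2 (Ideal.Quotient.eq.1 h6)
      have e : ((x : kˣ) : k) - ((s z : kˣ) : k) =
          -(((y z : k) - (b : k)) + ((b : k) - ((x : kˣ) : k))) := by
        show ((x : kˣ) : k) - (y z : k) = _
        ring
      rw [e, Valuation.map_neg]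
      exact Valuation.map_add_lt _ h7 (hb2 ⟨v, hv⟩)
  rw [Subgroup.relIndex, Subgroup.index, ← Nat.card_congr (Equiv.ofBijective _ hbij), Nat.card_pi,
    ← Finset.prod_coe_sort T]
  refine Finset.prod_congr rfl fun v _ => ?_
  have : v.1.asIdeal.IsMaximal := v.1.isMaximal
  let _ := Ideal.Quotient.field v.1.asIdeal
  rw [Nat.card_units]
  unfold nv
  rw [Ideal.absNorm_apply, Submodule.cardQuot_apply]

end Pool.Agent.RSK
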