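import Pool.Agent.Lib_helper17.RS.Bas
import Pool.Agent.Lib_helper17.RS.P_XA1
import Pool.Agent.Lib_helper17.RS.P_XA2
import Pool.Agent.Lib_helper17.RS.P_XB
/-!
# Rubin-Stark, block XC: the `T`-class number
-/

namespace Pool.Agent.RSK

open NumberField NumberField.InfinitePlace NumberField.Units IsDedekindDomain Filter Topology
  Complex

variable {k : Type} [Field k] [NumberField k]

theorem xc_ordv_zero {v : HeightOneSpectrum (𝓞 k)} {x : kˣ} :
    ordv v (x : k) = 0 ↔ v.valuation k (x : k) = 1 := by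
  unfold ordv
  have h0 : v.valuation k (x : k) ≠ 0 := (map_ne_zero _).2 x.ne_zero
  constructor
  · intro h
    have h1 : WithZero.log (v.valuation k (x : k)) = 0 := by linarith
    have h2 := WithZero.exp_log h0
    rw [h1, WithZero.exp_zero] at h2
    exact h2.symm
  · intro h
    rw [h, WithZero.log_one, neg_zero]

theorem xc_KT_val {T : Finset (HeightOneSpectrum (𝓞 k))} {x : kˣ} (hx : x ∈ KT T)
    {v : HeightOneSpectrum (𝓞 k)} (hv : v ∈ T) : v.valuation k (x : k) = 1 := by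
  have h1 := hx v hv
  have e : (x : k) = ((x : k) - 1) + 1 := by ring
  rw [e, Valuation.map_add_eq_of_lt_right _ (by rw [map_one]; exact h1), map_one]

/-- the divisor map -/
noncomputable def xc_div : kˣ →* Multiplicative (HeightOneSpectrum (𝓞 k) →₀ ℤ) where
  toFun x := Multiplicative.ofAdd (Finsupp.ofSupportFinite (dvx x) (dvx_finite x))
  map_one' := by
    have h : Finsupp.ofSupportFinite (dvx (1 : kˣ)) (dvx_finite (1 : kˣ)) = 0 := by
      ext v
      show ordv v (((1 : kˣ)) : k) = 0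
      rw [Units.val_one, ordv_one]
    rw [h, ofAdd_zero]
  map_mul' x y := by
    rw [← ofAdd_add]
    congr 1
    ext v
    show ordv v ((x * y : kˣ) : k) = ordv v (x : k) + ordv v (y : k)
    exact ordv_mul v x y

theorem xc_div_apply (x : kˣ) (v : HeightOneSpectrum (𝓞 k)) :
    (Multiplicative.toAdd (xc_div x)) v = ordv v (x : k) := rfl

/-- the units -/
def xc_U (k : Type) [Field k] [NumberField k] : Subgroup kˣ :=
  (Units.map (algebraMap (𝓞 k) k : 𝓞 k →* k)).range

theorem xc_map_K0 (T : Finset (HeightOneSpectrum (𝓞 k))) :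
    (K0 T).map xc_div = AddSubgroup.toSubgroup (P0 T) := by
  ext D
  constructor
  · rintro ⟨x, hx, rfl⟩
    refine ⟨fun v hv => ?_, x, hx, fun v => rfl⟩
    show ordv v (x : k) = 0
    exact xc_ordv_zero.2 (hx v hv)
  · rintro ⟨_, x, hx, hD⟩
    refine ⟨x, hx, ?_⟩
    apply Multiplicative.toAdd.injective
    ext v
    exact (hD v).symm

theorem xc_comap_Pr (T : Finset (HeightOneSpectrum (𝓞 k))) :
    (AddSubgroup.toSubgroup (Pr ∅ T)).comap xc_div = KT T ⊔ xc_U k := by
  ext x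
  constructor
  · rintro ⟨_, y, hy, hD⟩
    have hD' : ∀ v, ordv v (x : k) = ordv v (y : k) := fun v => hD v (Finset.notMem_empty v)
    obtain ⟨u, hu⟩ := (dvx_zero_iff (y⁻¹ * x)).1 (fun v => by
      rw [ordv_mul, ordv_inv, hD' v]
      ring)
    rw [Subgroup.mem_sup]
    refine ⟨y, hy, y⁻¹ * x, ⟨u, hu⟩, by rw [mul_inv_cancel_left]⟩
  · intro hx
    rw [Subgroup.mem_sup] at hx
    obtain ⟨y, hy, z, hz, rfl⟩ := hx
    have hz0 : ∀ v, ordv v (z : k) = 0 := (dvx_zero_iff z).2 hz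
    have h1 : ∀ v, ordv v ((y * z : kˣ) : k) = ordv v (y : k) := fun v => by
      rw [ordv_mul, hz0 v, add_zero]
    refine ⟨fun v hv => ?_, y, hy, fun v _ => h1 v⟩
    show ordv v ((y * z : kˣ) : k) = 0
    rw [h1 v]
    exact xc_ordv_zero.2 (xc_KT_val hy hv)

theorem hA_T (T : Finset (HeightOneSpectrum (𝓞 k))) :
    hA ∅ T * (ET T).index = classNumber k * ∏ v ∈ T, (nv v - 1) := by
  have h1 : (Pr ∅ T).relIndex (P0 T) * (P0 T).relIndex (Dv T) = (Pr ∅ T).relIndex (Dv T) := by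
    refine AddSubgroup.relIndex_mul_relIndex _ _ _ ?_ ?_
    · rintro D ⟨hD, x, hx, hDx⟩
      exact ⟨hD, x, fun v hv => xc_KT_val hx hv, fun v => hDx v (Finset.notMem_empty v)⟩
    · rintro D ⟨hD, -⟩
      exact hD
  have hle : KT T ⊔ xc_U k ≤ K0 T := by
    refine sup_le (fun x hx v hv => xc_KT_val hx hv) ?_
    intro x hx v _
    exact xc_ordv_zero.1 ((dvx_zero_iff x).2 hx v)
  have h2 : (KT T).relIndex (KT T ⊔ xc_U k) * (KT T ⊔ xc_U k).relIndex (K0 T) =
      (KT T).relIndex (K0 T) := Subgroup.relIndex_mul_relIndex _ _ _ le_sup_left hle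
  have h3 : (KT T ⊔ xc_U k).relIndex (K0 T) = (Pr ∅ T).relIndex (P0 T) := by
    rw [← xc_comap_Pr, Subgroup.relIndex_comap, xc_map_K0, AddSubgroup.relIndex_toSubgroup]
  have h4 : (KT T).relIndex (KT T ⊔ xc_U k) = (ET T).index := by
    rw [Subgroup.relIndex_sup_left, ET, Subgroup.index_comap]
    rfl
  rw [h3, h4, index_KT] at h2
  rw [index_class] at h1
  unfold hA
  rw [← h1, ← h2]
  ring

end Pool.Agent.RSK
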