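import Pool.Agent.Lib_helper17.RS.Bas
import Pool.Agent.Lib_helper17.RS.P_PF
import Pool.Agent.Lib_helper17.RS.P_XA1
import Pool.Agent.Lib_helper17.RS.P_XC
/-! Rubin-Stark, block XD: bases and the `S`-class number (uses XA1, XC, PF) -/

namespace Pool.Agent.RSK

open NumberField NumberField.InfinitePlace NumberField.Units IsDedekindDomain Filter Topology
  Complex

variable {k : Type} [Field k] [NumberField k]

/-! ### generalities -/

theorem xd_finrank {M : Type} [AddCommGroup M] [Module.Finite ℤ M] (N : Submodule ℤ M)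
    (h : ∀ x : M, ∃ n : ℕ, 0 < n ∧ n • x ∈ N) : Module.finrank ℤ N = Module.finrank ℤ M := by
  have h1 := N.finrank_quotient_add_finrank
  have h2 : Module.finrank ℤ (M ⧸ N) = 0 := by
    rw [Module.finrank_eq_zero_iff_isTorsion]
    intro x
    induction x using Submodule.Quotient.induction_on with
    | _ x =>
      obtain ⟨n, hn, hx⟩ := h x
      refine ⟨⟨(n : ℤ), ?_⟩, ?_⟩
      · rw [mem_nonZeroDivisors_iff_ne_zero]
        exact_mod_cast hn.ne'
      · show (n : ℤ) • (Submodule.Quotient.mk x : M ⧸ N) = 0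
        rw [← Submodule.Quotient.mk_smul, Submodule.Quotient.mk_eq_zero]
        rwa [natCast_zsmul]
  omega

theorem xd_ordv_zero (v : HeightOneSpectrum (𝓞 k)) {x : k} (hx : x ≠ 0) :
    ordv v x = 0 ↔ v.valuation k x = 1 := by
  unfold ordv
  have h0 : v.valuation k x ≠ 0 := (map_ne_zero _).2 hx
  constructor
  · intro h
    have h1 : WithZero.log (v.valuation k x) = 0 := by linarith
    have h2 := WithZero.exp_log h0
    rw [h1, WithZero.exp_zero] at h2
    exact h2.symm
  · intro h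
    rw [h, WithZero.log_one, neg_zero]

theorem xd_kt_val {T : Finset (HeightOneSpectrum (𝓞 k))} {x : kˣ} (hx : x ∈ KT T)
    {v : HeightOneSpectrum (𝓞 k)} (hv : v ∈ T) : v.valuation k (x : k) = 1 := by
  have h1 := hx v hv
  have e : (x : k) = ((x : k) - 1) + 1 := by ring
  rw [e, Valuation.map_add_eq_of_lt_right _ (by rw [map_one]; exact h1), map_one]

theorem xd_le (S T : Finset (HeightOneSpectrum (𝓞 k))) : Un ∅ T ≤ Un S T := by
  intro x hx
  exact ⟨fun v _ => hx.1 v (by simp), hx.2⟩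

/-! ### the units `U_{∅,T}` -/

/-- the map from the units of `𝓞 k` congruent to `1` modulo `T` -/
noncomputable def xd_g (T : Finset (HeightOneSpectrum (𝓞 k))) : ET T →* kˣ :=
  (Units.map (algebraMap (𝓞 k) k : 𝓞 k →* k)).comp (ET T).subtype

theorem xd_g_inj (T : Finset (HeightOneSpectrum (𝓞 k))) : Function.Injective (xd_g T) := by
  intro a b hab
  refine Subtype.ext ?_
  exact Units.map_injective (f := (algebraMap (𝓞 k) k : 𝓞 k →* k))
    (FaithfulSMul.algebraMap_injective (𝓞 k) k) hab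

theorem xd_g_range (T : Finset (HeightOneSpectrum (𝓞 k))) : (xd_g T).range = Un ∅ T := by
  ext x
  constructor
  · rintro ⟨u, rfl⟩
    refine ⟨fun v _ => ?_, u.2⟩
    have h := (dvx_zero_iff (xd_g T u)).2 ⟨u.1, rfl⟩ v
    exact (xd_ordv_zero v (Units.ne_zero _)).1 h
  · intro hx
    obtain ⟨u, hu⟩ := (dvx_zero_iff x).1
      (fun v => (xd_ordv_zero v x.ne_zero).2 (hx.1 v (by simp)))
    have hu' : u ∈ ET T := by
      show Units.map (algebraMap (𝓞 k) k : 𝓞 k →* k) u ∈ KT T
      rw [hu]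
      exact hx.2
    exact ⟨⟨u, hu'⟩, hu⟩

theorem xd_hA_ne (T : Finset (HeightOneSpectrum (𝓞 k))) : hA ∅ T ≠ 0 ∧ (ET T).index ≠ 0 := by
  have h := hA_T T
  have h1 : classNumber k * ∏ v ∈ T, (nv v - 1) ≠ 0 := by
    refine mul_ne_zero (classNumber_ne_zero k) ?_
    rw [Finset.prod_ne_zero_iff]
    intro v _
    have := nv_two_le v
    omega
  rw [← h] at h1
  exact ⟨left_ne_zero_of_mul h1, right_ne_zero_of_mul h1⟩

/-- `U_{∅,T}` is isomorphic to a subgroup of finite index of the units -/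
noncomputable def xd_e (T : Finset (HeightOneSpectrum (𝓞 k))) :
    Additive (Un ∅ T) ≃ₗ[ℤ] AddSubgroup.toIntSubmodule (Subgroup.toAddSubgroup (ET T)) :=
  AddEquiv.toIntLinearEquiv (AddEquiv.symm (MulEquiv.toAdditive
    ((MonoidHom.ofInjective (xd_g_inj T)).trans (MulEquiv.subgroupCongr (xd_g_range T)))))

theorem xd_basis0 {T : Finset (HeightOneSpectrum (𝓞 k))}
    (htf : ∀ x ∈ Un ∅ T, ∀ n : ℕ, 0 < n → x ^ n = 1 → x = 1) :
    Nonempty (Module.Basis (Fin (rank k)) ℤ (Additive (Un ∅ T))) := by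
  have hfin : Module.Finite ℤ (Additive (Un ∅ T)) :=
    Module.Finite.equiv (xd_e T).symm
  have htor : Module.IsTorsionFree ℤ (Additive (Un ∅ T)) := by
    constructor
    intro n hn x y hxy
    have hn0 : n ≠ 0 := by
      rintro rfl
      exact not_isRegular_zero hn
    have h1 : n • (x - y) = 0 := by
      rw [zsmul_sub]
      exact sub_eq_zero.2 hxy
    have h2 : n.natAbs • (x - y) = 0 := by
      rcases Int.natAbs_eq n with h | h
      · rw [h, natCast_zsmul] at h1
        exact h1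
      · rw [h, neg_smul, natCast_zsmul, neg_eq_zero] at h1
        exact h1
    have h3 : (Additive.toMul (x - y) : Un ∅ T) ^ n.natAbs = 1 := h2
    have h4 : ((Additive.toMul (x - y) : Un ∅ T) : kˣ) ^ n.natAbs = 1 := by
      have := congrArg (Subtype.val) h3
      simpa using this
    have h5 := htf _ (Additive.toMul (x - y) : Un ∅ T).2 n.natAbs (Int.natAbs_pos.2 hn0) h4
    have h6 : (Additive.toMul (x - y) : Un ∅ T) = 1 := Subtype.ext h5
    have h7 : x - y = 0 := h6
    exact sub_eq_zero.1 h7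
  have hrank : Module.finrank ℤ (Additive (Un ∅ T)) = rank k := by
    rw [(xd_e T).finrank_eq, xd_finrank, finrank_eq]
    intro x
    obtain ⟨n, hn, _, hx⟩ := Subgroup.exists_pow_mem_of_index_ne_zero (xd_hA_ne T).2
      (Additive.toMul x)
    exact ⟨n, hn, hx⟩
  exact ⟨Module.finBasisOfFinrankEq ℤ _ hrank⟩

/-! ### the valuations at `S` -/

/-- the map `x ↦ (ord_v(x))_{v ∈ S}` -/
noncomputable def xd_phi (S T : Finset (HeightOneSpectrum (𝓞 k))) :
    Additive (Un S T) →ₗ[ℤ] (S → ℤ) :=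
  AddMonoidHom.toIntLinearMap
    { toFun := fun x v => ordv v.1 (((Additive.toMul x : Un S T) : kˣ) : k)
      map_zero' := by
        funext v
        exact ordv_one v.1
      map_add' := fun x y => by
        funext v
        exact ordv_mul v.1 _ _ }

theorem xd_phi_apply (S T : Finset (HeightOneSpectrum (𝓞 k))) (x : Additive (Un S T)) (v : S) :
    xd_phi S T x v = ordv v.1 (((Additive.toMul x : Un S T) : kˣ) : k) := rfl

/-- the inclusion -/
noncomputable def xd_f (S T : Finset (HeightOneSpectrum (𝓞 k))) :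
    Additive (Un ∅ T) →ₗ[ℤ] Additive (Un S T) :=
  AddMonoidHom.toIntLinearMap (MonoidHom.toAdditive (Subgroup.inclusion (xd_le S T)))

theorem xd_f_val (S T : Finset (HeightOneSpectrum (𝓞 k))) (x : Additive (Un ∅ T)) :
    ((Additive.toMul (xd_f S T x) : Un S T) : kˣ) = ((Additive.toMul x : Un ∅ T) : kˣ) := rfl

theorem xd_f_inj (S T : Finset (HeightOneSpectrum (𝓞 k))) : Function.Injective (xd_f S T) := by
  intro x y hxy
  have h : ((Additive.toMul (xd_f S T x) : Un S T) : kˣ) =
      ((Additive.toMul (xd_f S T y) : Un S T) : kˣ) := by rw [hxy]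
  rw [xd_f_val, xd_f_val] at h
  exact Subtype.ext h

theorem xd_ker (S T : Finset (HeightOneSpectrum (𝓞 k))) (x : Additive (Un S T)) :
    xd_phi S T x = 0 ↔ ∃ y, xd_f S T y = x := by
  constructor
  · intro h
    refine ⟨Additive.ofMul (⟨((Additive.toMul x : Un S T) : kˣ), ?_⟩ : Un ∅ T), rfl⟩
    refine ⟨fun v _ => ?_, (Additive.toMul x : Un S T).2.2⟩
    by_cases hv : v ∈ S
    · have h1 := congrFun h ⟨v, hv⟩
      rw [xd_phi_apply] at h1
      exact (xd_ordv_zero v (Units.ne_zero _)).1 h1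
    · exact (Additive.toMul x : Un S T).2.1 v hv
  · rintro ⟨y, rfl⟩
    funext v
    rw [xd_phi_apply, xd_f_val]
    exact (xd_ordv_zero v.1 (Units.ne_zero _)).2 ((Additive.toMul y : Un ∅ T).2.1 v.1 (by simp))

/-! ### divisors -/

open scoped Classical in
/-- the divisors supported on `S` -/
noncomputable def xd_D (S : Finset (HeightOneSpectrum (𝓞 k))) :
    (S → ℤ) →+ (HeightOneSpectrum (𝓞 k) →₀ ℤ) where
  toFun n := Finsupp.onFinset S (fun v => if h : v ∈ S then n ⟨v, h⟩ else 0) (by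
    intro v hv
    by_contra h
    exact hv (dif_neg h))
  map_zero' := by
    ext v
    simp [Finsupp.onFinset_apply]
  map_add' := fun a b => by
    ext v
    rw [Finsupp.add_apply, Finsupp.onFinset_apply, Finsupp.onFinset_apply,
      Finsupp.onFinset_apply]
    split_ifs with h
    · rfl
    · rfl

open scoped Classical in
theorem xd_D_mem (S : Finset (HeightOneSpectrum (𝓞 k))) (n : S → ℤ) (v : S) :
    xd_D S n v.1 = n v := by
  show (if h : v.1 ∈ S then n ⟨v.1, h⟩ else 0) = n v
  rw [dif_pos v.2]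

open scoped Classical in
theorem xd_D_not (S : Finset (HeightOneSpectrum (𝓞 k))) (n : S → ℤ)
    {v : HeightOneSpectrum (𝓞 k)} (hv : v ∉ S) : xd_D S n v = 0 := by
  show (if h : v ∈ S then n ⟨v, h⟩ else 0) = 0
  rw [dif_neg hv]

theorem xd_D_pr {S T : Finset (HeightOneSpectrum (𝓞 k))} (hST : Disjoint S T) (n : S → ℤ) :
    xd_D S n ∈ Pr S T := by
  refine ⟨fun v hv => xd_D_not S n (Finset.disjoint_right.1 hST hv), 1, (KT T).one_mem,
    fun v hv => ?_⟩
  rw [xd_D_not S n hv, Units.val_one, ordv_one]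

/-- the map to the quotient -/
noncomputable def xd_h {S T : Finset (HeightOneSpectrum (𝓞 k))} (hST : Disjoint S T) :
    (S → ℤ) →+ (Pr S T) ⧸ (Pr ∅ T).addSubgroupOf (Pr S T) :=
  (QuotientAddGroup.mk' ((Pr ∅ T).addSubgroupOf (Pr S T))).comp
    ((xd_D S).codRestrict (Pr S T) (xd_D_pr hST))

theorem xd_h_ker {S T : Finset (HeightOneSpectrum (𝓞 k))} (hST : Disjoint S T) (n : S → ℤ) :
    xd_h hST n = 0 ↔ ∃ x, xd_phi S T x = n := by
  have h0 : xd_h hST n = 0 ↔ xd_D S n ∈ Pr ∅ T := by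
    unfold xd_h
    rw [AddMonoidHom.comp_apply, QuotientAddGroup.mk'_apply, QuotientAddGroup.eq_zero_iff,
      AddSubgroup.mem_addSubgroupOf]
    rfl
  rw [h0]
  constructor
  · rintro ⟨_, x, hx, hd⟩
    have hU : x ∈ Un S T := by
      refine ⟨fun v hv => ?_, hx⟩
      have h1 := hd v (by simp)
      rw [xd_D_not S n hv] at h1
      exact (xd_ordv_zero v x.ne_zero).1 h1.symm
    refine ⟨Additive.ofMul (⟨x, hU⟩ : Un S T), ?_⟩
    funext v
    rw [xd_phi_apply]
    have h1 := hd v.1 (by simp)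
    rw [xd_D_mem] at h1
    exact h1.symm
  · rintro ⟨x, rfl⟩
    refine ⟨fun v hv => xd_D_not S _ (Finset.disjoint_right.1 hST hv),
      ((Additive.toMul x : Un S T) : kˣ), (Additive.toMul x : Un S T).2.2, fun v _ => ?_⟩
    by_cases hv : v ∈ S
    · rw [show v = (⟨v, hv⟩ : S).1 from rfl, xd_D_mem]
      rfl
    · rw [xd_D_not S _ hv]
      exact ((xd_ordv_zero v (Units.ne_zero _)).2 ((Additive.toMul x : Un S T).2.1 v hv)).symm

theorem xd_h_surj {S T : Finset (HeightOneSpectrum (𝓞 k))} (hST : Disjoint S T) :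
    Function.Surjective (xd_h hST) := by
  intro q
  induction q using QuotientAddGroup.induction_on with
  | H D =>
    obtain ⟨D, hD⟩ := D
    obtain ⟨hT, x, hx, hd⟩ := id hD
    set dv : HeightOneSpectrum (𝓞 k) →₀ ℤ := Finsupp.onFinset (dvx_finite x).toFinset (dvx x)
      (by intro v hv; rw [Set.Finite.mem_toFinset]; exact hv) with hdv
    have hdva : ∀ v, dv v = ordv v (x : k) := fun v => rfl
    have hdvT : ∀ v ∈ T, dv v = 0 := fun v hv => by
      rw [hdva, xd_ordv_zero v x.ne_zero]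
      exact xd_kt_val hx hv
    refine ⟨fun v => D v.1 - dv v.1, ?_⟩
    unfold xd_h
    rw [AddMonoidHom.comp_apply, QuotientAddGroup.mk'_apply]
    rw [QuotientAddGroup.eq]
    rw [AddSubgroup.mem_addSubgroupOf]
    have e : (((-(AddMonoidHom.codRestrict (xd_D S) (Pr S T) (xd_D_pr hST)
        (fun v => D v.1 - dv v.1)) + ⟨D, hD⟩ : Pr S T) : HeightOneSpectrum (𝓞 k) →₀ ℤ)) = dv := by
      show -(xd_D S (fun v => D v.1 - dv v.1)) + D = dv
      ext v
      rw [Finsupp.add_apply, Finsupp.neg_apply]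
      by_cases hv : v ∈ S
      · rw [show v = (⟨v, hv⟩ : S).1 from rfl, xd_D_mem]
        ring
      · rw [xd_D_not S _ hv, hdva, hd v hv]
        ring
    rw [e]
    exact ⟨hdvT, x, hx, fun v _ => hdva v⟩

theorem xd_index {S T : Finset (HeightOneSpectrum (𝓞 k))} (hST : Disjoint S T) :
    hA S T * (xd_phi S T).range.toAddSubgroup.index = hA ∅ T := by
  have h1 : (xd_phi S T).range.toAddSubgroup = (xd_h hST).ker := by
    ext n
    rw [AddMonoidHom.mem_ker, xd_h_ker hST]
    rfl
  have h2 : (xd_h hST).ker.index = (Pr ∅ T).relIndex (Pr S T) := by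
    rw [AddSubgroup.index_ker, AddMonoidHom.range_eq_top.2 (xd_h_surj hST)]
    rw [Nat.card_congr (AddSubgroup.topEquiv).toEquiv]
    rfl
  rw [h1, h2]
  unfold hA
  rw [mul_comm]
  refine AddSubgroup.relIndex_mul_relIndex _ _ _ ?_ ?_
  · rintro D ⟨hT, x, hx, hd⟩
    exact ⟨hT, x, hx, fun v _ => hd v (by simp)⟩
  · rintro D ⟨hT, _⟩
    exact hT

/-! ### the bases -/

open scoped Classical in
theorem un_basis {S T : Finset (HeightOneSpectrum (𝓞 k))} (hST : Disjoint S T)
    (htf : ∀ x ∈ Un S T, ∀ n : ℕ, 0 < n → x ^ n = 1 → x = 1) :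
    ∃ (ε : Module.Basis (Fin (rank k)) ℤ (Additive (Un (∅ : Finset (HeightOneSpectrum (𝓞 k))) T)))
      (b : Module.Basis (Fin (rank k) ⊕ S) ℤ (Additive (Un S T))),
      (∀ i, ((Additive.toMul (b (Sum.inl i)) : Un S T) : kˣ) =
        ((Additive.toMul (ε i) : Un (∅ : Finset (HeightOneSpectrum (𝓞 k))) T) : kˣ)) ∧
      hA S T * (Matrix.det (Matrix.of fun v v' : S =>
        ordv v.1 (((Additive.toMul (b (Sum.inr v')) : Un S T) : kˣ) : k))).natAbs = hA ∅ T := by
  obtain ⟨ε⟩ := xd_basis0 (T := T) (fun x hx => htf x (xd_le S T hx))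
  -- the image
  set R : Submodule ℤ (S → ℤ) := (xd_phi S T).range with hR
  have hidx := xd_index hST
  have hidx0 : R.toAddSubgroup.index ≠ 0 := by
    intro h
    rw [← hR, h, mul_zero] at hidx
    exact (xd_hA_ne T).1 hidx.symm
  have hrk : Module.finrank ℤ R = Fintype.card S := by
    rw [xd_finrank, Module.finrank_fintype_fun_eq_card]
    intro x
    obtain ⟨n, hn, _, hx⟩ := AddSubgroup.exists_nsmul_mem_of_index_ne_zero hidx0 x
    exact ⟨n, hn, hx⟩
  let c : Module.Basis S ℤ R :=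
    (Module.finBasisOfFinrankEq ℤ R hrk).reindex (Fintype.equivFin S).symm
  -- a section
  obtain ⟨s, hs⟩ := LinearMap.exists_rightInverse_of_surjective (xd_phi S T).rangeRestrict
    (LinearMap.range_rangeRestrict _)
  have hs' : ∀ r : R, xd_phi S T (s r) = r := by
    intro r
    have := LinearMap.congr_fun hs r
    exact congrArg Subtype.val this
  let e0 : (Additive (Un ∅ T) × R) →ₗ[ℤ] Additive (Un S T) := (xd_f S T).coprod s
  have hphif : ∀ y, xd_phi S T (xd_f S T y) = 0 := fun y => (xd_ker S T _).2 ⟨y, rfl⟩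
  have hinj : Function.Injective e0 := by
    rw [injective_iff_map_eq_zero]
    rintro ⟨y, r⟩ h
    have h1 : xd_f S T y + s r = 0 := h
    have h2 := congrArg (xd_phi S T) h1
    rw [map_add, hphif, hs', zero_add, map_zero] at h2
    have h3 : r = 0 := Subtype.ext h2
    rw [h3, map_zero, add_zero] at h1
    have h4 : y = 0 := xd_f_inj S T (by rw [h1, map_zero])
    rw [h3, h4]
    rfl
  have hsurj : Function.Surjective e0 := by
    intro m
    set r : R := ⟨xd_phi S T m, ⟨m, rfl⟩⟩ with hr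
    have h1 : xd_phi S T (m - s r) = 0 := by
      rw [map_sub, hs', sub_self]
    obtain ⟨y, hy⟩ := (xd_ker S T _).1 h1
    refine ⟨(y, r), ?_⟩
    show xd_f S T y + s r = m
    rw [hy, sub_add_cancel]
  let e : (Additive (Un ∅ T) × R) ≃ₗ[ℤ] Additive (Un S T) :=
    LinearEquiv.ofBijective e0 ⟨hinj, hsurj⟩
  refine ⟨ε, (ε.prod c).map e, fun i => ?_, ?_⟩
  · have h1 : ((ε.prod c).map e) (Sum.inl i) = xd_f S T (ε i) := by
      rw [Module.Basis.map_apply, Module.Basis.prod_apply]
      show xd_f S T (ε i) + s 0 = _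
      rw [map_zero, add_zero]
    rw [h1, xd_f_val]
  · have h1 : ∀ v' : S, ((ε.prod c).map e) (Sum.inr v') = s (c v') := by
      intro v'
      rw [Module.Basis.map_apply, Module.Basis.prod_apply]
      show xd_f S T 0 + s (c v') = _
      rw [map_zero, zero_add]
    have h2 : (Matrix.of fun v v' : S =>
        ordv v.1 (((Additive.toMul (((ε.prod c).map e) (Sum.inr v')) : Un S T) : kˣ) : k)) =
        (Pi.basisFun ℤ S).toMatrix (fun v' => ((c v' : R) : S → ℤ)) := by
      ext v v'
      rw [Matrix.of_apply, h1, ← xd_phi_apply, hs', Module.Basis.toMatrix_apply,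
        Pi.basisFun_repr]
    rw [h2, ← Module.Basis.det_apply]
    have h3 := AddSubgroup.index_eq_natAbs_det (Pi.basisFun ℤ S) R.toAddSubgroup c
    have h4 : ((Pi.basisFun ℤ S).det fun v' => ((c v' : R) : S → ℤ)).natAbs =
        R.toAddSubgroup.index := h3.symm
    rw [h4]
    exact hidx

example : type_of% @un_basis := @un_basis

end Pool.Agent.RSK
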