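import Pool.Agent.Lib_helper17.RS.Bas
namespace Pool.Agent.RSK

section AD

variable {P Q R : Type} [Fintype P] [Fintype Q] [Fintype R]

theorem ad1_pos (M : P → Q → ℝ) (h : Nonempty (P ≃ Q)) : ∃ f : Q ≃ P, ∀ [DecidableEq Q],
    adet M = |Matrix.det (Matrix.of fun i j : Q => M (f i) j)| := by
  refine ⟨h.some.symm, ?_⟩
  intro inst
  have hi : inst = fun a b => Classical.propDecidable (a = b) := Subsingleton.elim _ _
  subst hi
  unfold adet
  rw [dif_pos h]

theorem ad1_neg (M : P → Q → ℝ) (h : ¬ Nonempty (P ≃ Q)) : adet M = 0 := by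
  unfold adet
  rw [dif_neg h]

theorem adet_eq [DecidableEq Q] (M : P → Q → ℝ) (e : Q ≃ P) :
    adet M = |Matrix.det (Matrix.of fun i j : Q => M (e i) j)| := by
  obtain ⟨f, hf⟩ := ad1_pos M ⟨e.symm⟩
  rw [hf]
  have h1 : (Matrix.of fun i j : Q => M (f i) j) =
      (Matrix.of fun i j : Q => M (e i) j).submatrix (f.trans e.symm) (Equiv.refl Q) := by
    ext i j
    simp
  rw [h1, Matrix.abs_det_submatrix_equiv_equiv]

theorem adet_nonneg (M : P → Q → ℝ) : 0 ≤ adet M := by
  unfold adet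
  split_ifs
  · exact abs_nonneg _
  · exact le_rfl

theorem adet_reindex {P' Q' : Type} [Fintype P'] [Fintype Q'] (e : P' ≃ P) (f : Q' ≃ Q)
    (M : P → Q → ℝ) : adet (fun i j => M (e i) (f j)) = adet M := by
  classical
  by_cases h : Nonempty (P ≃ Q)
  · obtain ⟨g⟩ := h
    rw [adet_eq M g.symm, adet_eq (fun i j => M (e i) (f j)) ((f.trans g.symm).trans e.symm)]
    have h1 : (Matrix.of fun i j : Q' => M (e (((f.trans g.symm).trans e.symm) i)) (f j)) =
        (Matrix.of fun i j : Q => M (g.symm i) j).submatrix f f := by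
      ext i j
      simp
    rw [h1, Matrix.abs_det_submatrix_equiv_equiv]
  · rw [ad1_neg M h, ad1_neg]
    rintro ⟨g⟩
    exact h ⟨(e.symm.trans g).trans f⟩

theorem adet_mul [DecidableEq Q] (M : P → Q → ℝ) (N : Matrix Q Q ℝ) :
    adet (fun i j => ∑ l, M i l * N l j) = adet M * |N.det| := by
  by_cases h : Nonempty (P ≃ Q)
  · obtain ⟨g⟩ := h
    rw [adet_eq M g.symm, adet_eq _ g.symm, ← abs_mul, ← Matrix.det_mul]
    congr 1
  · rw [ad1_neg M h, ad1_neg _ h, zero_mul]

theorem adet_mul' [DecidableEq P] (N : Matrix P P ℝ) (M : P → Q → ℝ) :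
    adet (fun i j => ∑ l, N i l * M l j) = |N.det| * adet M := by
  classical
  by_cases h : Nonempty (P ≃ Q)
  · obtain ⟨g⟩ := h
    rw [adet_eq M g.symm, adet_eq _ g.symm, ← Matrix.det_submatrix_equiv_self g.symm N,
      ← abs_mul, ← Matrix.det_mul]
    congr 2
    ext i j
    simp only [Matrix.of_apply, Matrix.mul_apply, Matrix.submatrix_apply]
    exact (Equiv.sum_comp g.symm (fun l => N (g.symm i) l * M l j)).symm
  · rw [ad1_neg M h, ad1_neg _ h, mul_zero]

/-- A column can be scaled. -/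
theorem adet_scale (M : P → Q → ℝ) (c : Q → ℝ) :
    adet (fun i j => c j * M i j) = (∏ j, |c j|) * adet M := by
  classical
  by_cases h : Nonempty (P ≃ Q)
  · obtain ⟨g⟩ := h
    rw [adet_eq M g.symm, adet_eq _ g.symm, ← Finset.abs_prod, ← abs_mul,
      ← Matrix.det_mul_row]
    congr 1
  · rw [ad1_neg M h, ad1_neg _ h, mul_zero]

end AD

end Pool.Agent.RSK
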