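import Pool.Agent.Lib_helper17.RS.Bas
import Pool.Agent.Lib_helper17.RS.P_AD1
namespace Pool.Agent.RSK

section AD

variable {P Q R : Type} [Fintype P] [Fintype Q] [Fintype R]

theorem ad2_neg (M : P → Q → ℝ) (h : ¬ Nonempty (P ≃ Q)) : adet M = 0 := by
  unfold adet
  rw [dif_neg h]

/-- block triangular matrices -/
theorem adet_block {P' Q' : Type} [Fintype P'] [Fintype Q'] (M : P ⊕ P' → Q ⊕ Q' → ℝ)
    (h : ∀ i j, M (Sum.inr i) (Sum.inl j) = 0) (hc : Fintype.card P = Fintype.card Q) :
    adet M = adet (fun i j => M (Sum.inl i) (Sum.inl j)) *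
      adet (fun i j => M (Sum.inr i) (Sum.inr j)) := by
  classical
  obtain ⟨e⟩ : Nonempty (Q ≃ P) := Fintype.card_eq.1 hc.symm
  by_cases hP : Nonempty (P' ≃ Q')
  · obtain ⟨g⟩ := hP
    rw [adet_eq M (e.sumCongr g.symm), adet_eq (fun i j => M (Sum.inl i) (Sum.inl j)) e,
      adet_eq (fun i j => M (Sum.inr i) (Sum.inr j)) g.symm, ← abs_mul]
    have h1 : (Matrix.of fun i j : Q ⊕ Q' => M ((e.sumCongr g.symm) i) j) =
        Matrix.fromBlocks (Matrix.of fun i j : Q => M (Sum.inl (e i)) (Sum.inl j))
          (Matrix.of fun (i : Q) (j : Q') => M (Sum.inl (e i)) (Sum.inr j)) 0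
          (Matrix.of fun i j : Q' => M (Sum.inr (g.symm i)) (Sum.inr j)) := by
      ext i j
      rcases i with i | i <;> rcases j with j | j <;> simp [h]
    rw [h1, Matrix.det_fromBlocks_zero₂₁]
  · rw [ad2_neg (fun i j => M (Sum.inr i) (Sum.inr j)) hP, mul_zero, ad2_neg]
    rintro ⟨g⟩
    apply hP
    have h1 := Fintype.card_congr g
    rw [Fintype.card_sum, Fintype.card_sum] at h1
    exact Fintype.card_eq.1 (by omega)

/-- Change of the additional column, if the other columns have sum zero. -/
theorem adet_col (M : P → Q → ℝ) (hM : ∀ j, ∑ i, M i j = 0)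
    (hc : Fintype.card P = Fintype.card Q + 1) (e : P → ℝ) :
    adet (fun i (j : Option Q) => j.elim (e i) (M i)) * Fintype.card P =
      |∑ i, e i| * adet (fun i (j : Option Q) => j.elim 1 (M i)) := by
  classical
  obtain ⟨g⟩ : Nonempty (Option Q ≃ P) := Fintype.card_eq.1 (by rw [Fintype.card_option]; omega)
  rw [adet_eq (fun i (j : Option Q) => j.elim (e i) (M i)) g,
    adet_eq (fun i (j : Option Q) => j.elim 1 (M i)) g]
  set A : Matrix (Option Q) (Option Q) ℝ := Matrix.of fun i (j : Option Q) => j.elim 0 (M (g i)) with hA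
  have hcol : ∀ b : P → ℝ, (Matrix.of fun i (j : Option Q) => j.elim (b (g i)) (M (g i))) =
      A.updateCol none (fun i => b (g i)) := by
    intro b
    ext i j
    rcases j with _ | j
    · simp
    · rw [Matrix.updateCol_ne (by simp)]
      simp [hA]
  have hD : ∀ b : P → ℝ, (Matrix.of fun i (j : Option Q) => j.elim (b (g i)) (M (g i))).det =
      A.cramer (fun i => b (g i)) none := by
    intro b
    rw [hcol, Matrix.cramer_apply]
  have h1 := hD e
  have h2 := hD (fun _ => 1)
  -- the column with sum zero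
  have h3 : ∀ b : P → ℝ, ∑ i, b i = 0 → A.cramer (fun i => b (g i)) none = 0 := by
    intro b hb
    rw [← hD]
    apply Matrix.exists_vecMul_eq_zero_iff.1
    refine ⟨fun _ => 1, ?_, ?_⟩
    · intro h
      have := congrFun h none
      simp at this
    · funext j
      simp only [Matrix.vecMul, dotProduct, Matrix.of_apply, one_mul, Pi.zero_apply]
      rcases j with _ | j
      · simp only [Option.elim_none]
        rw [Equiv.sum_comp g b, hb]
      · simp only [Option.elim_some]
        rw [Equiv.sum_comp g (fun i => M i j), hM]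
  have h4 := h3 (fun i => e i * Fintype.card P - ∑ k, e k) (by
    rw [Finset.sum_sub_distrib, ← Finset.sum_mul, Finset.sum_const, Finset.card_univ, nsmul_eq_mul]
    ring)
  have h5 : (fun i : Option Q => e (g i) * (Fintype.card P : ℝ) - ∑ k, e k) =
      (Fintype.card P : ℝ) • (fun i => e (g i)) - (∑ k, e k) • (fun _ => (1 : ℝ)) := by
    funext i
    simp
    ring
  rw [h5, map_sub, map_smul, map_smul, Pi.sub_apply, Pi.smul_apply, Pi.smul_apply, ← h1, ← h2,
    smul_eq_mul, smul_eq_mul, sub_eq_zero] at h4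
  have h6 : |Matrix.det (Matrix.of fun i (j : Option Q) => j.elim (e (g i)) (M (g i)))| *
      (Fintype.card P : ℝ) = |(Fintype.card P : ℝ) *
        Matrix.det (Matrix.of fun i (j : Option Q) => j.elim (e (g i)) (M (g i)))| := by
    rw [abs_mul, abs_of_nonneg (by positivity : (0 : ℝ) ≤ (Fintype.card P : ℝ)), mul_comm]
  rw [h6, h4, abs_mul]

/-- The maximal minors, if the columns have sum zero. -/
theorem adet_minor [DecidableEq P] (M : P → Q → ℝ) (hM : ∀ j, ∑ i, M i j = 0)
    (hc : Fintype.card P = Fintype.card Q + 1) (i₀ : P) :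
    adet (fun (i : {i : P // i ≠ i₀}) j => M i.1 j) * Fintype.card P =
      adet (fun i (j : Option Q) => j.elim 1 (M i)) := by
  classical
  have h1 := adet_col M hM hc (fun i => if i = i₀ then 1 else 0)
  rw [Finset.sum_ite_eq' Finset.univ i₀ (fun _ => (1 : ℝ)), if_pos (Finset.mem_univ _), abs_one,
    one_mul] at h1
  rw [← h1]
  congr 1
  -- reindexing
  let f : Unit ⊕ {i : P // i ≠ i₀} ≃ P :=
    { toFun := Sum.elim (fun _ => i₀) (fun i => i.1)
      invFun := fun i => if h : i = i₀ then Sum.inl () else Sum.inr ⟨i, h⟩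
      left_inv := by
        rintro (_ | ⟨i, hi⟩)
        · simp
        · simp [hi]
      right_inv := by
        intro i
        by_cases h : i = i₀
        · simp [h]
        · simp [h] }
  let k : Unit ⊕ Q ≃ Option Q := (Equiv.sumComm _ _).trans (Equiv.optionEquivSumPUnit Q).symm
  rw [← adet_reindex f k, adet_block]
  · have h2 : adet (fun (i : Unit) (j : Unit) => (k (Sum.inl j)).elim
        (if f (Sum.inl i) = i₀ then (1 : ℝ) else 0) (M (f (Sum.inl i)))) = 1 := by
      rw [adet_eq _ (Equiv.refl Unit), Matrix.det_unique]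
      simp [f, k]
    rw [h2, one_mul]
    rfl
  · rintro ⟨i, hi⟩ _
    simp [f, k, hi]
  · simp

end AD

end Pool.Agent.RSK
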