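import Pool.Agent.Lib_helper17.RS.Bas
import Pool.Agent.Lib_helper17.RS.P_AD1
import Pool.Agent.Lib_helper17.RS.P_AD2
import Pool.Agent.Lib_helper17.RS.P_PF
/-! Rubin-Stark, block XE1: the regulator of the units congruent to 1 modulo T -/

namespace Pool.Agent.RSK

open NumberField NumberField.InfinitePlace NumberField.Units IsDedekindDomain Filter Topology
  Complex

variable {k : Type} [Field k] [NumberField k]

/-- elements of `U_{∅,T}` are units of the ring of integers -/
theorem xe1_unit {x : kˣ} (hx : ∀ v : HeightOneSpectrum (𝓞 k), v.valuation k (x : k) = 1) :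
    ∃ u : (𝓞 k)ˣ, Units.map (algebraMap (𝓞 k) k : 𝓞 k →* k) u = x := by
  obtain ⟨a, ha⟩ := HeightOneSpectrum.mem_integers_of_valuation_le_one k (x : k)
    (fun v => (hx v).le)
  obtain ⟨b, hb⟩ := HeightOneSpectrum.mem_integers_of_valuation_le_one k ((x⁻¹ : kˣ) : k)
    (fun v => by rw [Units.val_inv_eq_inv_val, map_inv₀, hx v, inv_one])
  have hinj : Function.Injective (algebraMap (𝓞 k) k) := FaithfulSMul.algebraMap_injective _ _
  have hab : a * b = 1 := by
    apply hinj
    rw [map_mul, ha, hb, map_one, ← Units.val_mul, mul_inv_cancel, Units.val_one]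
  refine ⟨⟨a, b, hab, by rw [mul_comm]; exact hab⟩, ?_⟩
  ext
  exact ha

theorem xe1_val (u : (𝓞 k)ˣ) (v : HeightOneSpectrum (𝓞 k)) :
    v.valuation k ((Units.map (algebraMap (𝓞 k) k : 𝓞 k →* k) u : kˣ) : k) = 1 := by
  have h1 : v.valuation k (algebraMap (𝓞 k) k (u : 𝓞 k)) ≤ 1 := v.valuation_le_one _
  have h2 : v.valuation k (algebraMap (𝓞 k) k ((u⁻¹ : (𝓞 k)ˣ) : 𝓞 k)) ≤ 1 :=
    v.valuation_le_one _
  have h3 : v.valuation k (algebraMap (𝓞 k) k (u : 𝓞 k)) *
      v.valuation k (algebraMap (𝓞 k) k ((u⁻¹ : (𝓞 k)ˣ) : 𝓞 k)) = 1 := by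
    rw [← map_mul, ← map_mul, ← Units.val_mul, mul_inv_cancel, Units.val_one, map_one, map_one]
  show v.valuation k (algebraMap (𝓞 k) k (u : 𝓞 k)) = 1
  apply le_antisymm h1
  calc (1 : WithZero (Multiplicative ℤ)) = v.valuation k (algebraMap (𝓞 k) k (u : 𝓞 k)) *
      v.valuation k (algebraMap (𝓞 k) k ((u⁻¹ : (𝓞 k)ˣ) : 𝓞 k)) := h3.symm
    _ ≤ v.valuation k (algebraMap (𝓞 k) k (u : 𝓞 k)) * 1 := mul_le_mul_right h2 _
    _ = _ := mul_one _

theorem xe1_ET {T : Finset (HeightOneSpectrum (𝓞 k))} (u : (𝓞 k)ˣ) :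
    u ∈ ET T ↔ Units.map (algebraMap (𝓞 k) k : 𝓞 k →* k) u ∈
      Un (∅ : Finset (HeightOneSpectrum (𝓞 k))) T := by
  constructor
  · intro h
    exact ⟨fun v _ => xe1_val u v, h⟩
  · intro h
    exact h.2

/-- units of the ring of integers which generate `U_{∅,T}` -/
theorem xe1_closure {T : Finset (HeightOneSpectrum (𝓞 k))} {n : ℕ}
    (ε : Module.Basis (Fin n) ℤ (Additive (Un (∅ : Finset (HeightOneSpectrum (𝓞 k))) T)))
    (u : Fin n → (𝓞 k)ˣ) (hu : ∀ i, Units.map (algebraMap (𝓞 k) k : 𝓞 k →* k) (u i) =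
      ((Additive.toMul (ε i) : Un (∅ : Finset (HeightOneSpectrum (𝓞 k))) T) : kˣ)) :
    Subgroup.closure (Set.range u) = ET T := by
  have hinj : Function.Injective (Units.map (algebraMap (𝓞 k) k : 𝓞 k →* k)) :=
    Units.map_injective (FaithfulSMul.algebraMap_injective _ _)
  apply le_antisymm
  · rw [Subgroup.closure_le]
    rintro _ ⟨i, rfl⟩
    rw [SetLike.mem_coe, xe1_ET, hu]
    exact Subtype.prop _
  · intro x hx
    rw [xe1_ET] at hx
    set y : Un (∅ : Finset (HeightOneSpectrum (𝓞 k))) T :=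
      ⟨Units.map (algebraMap (𝓞 k) k : 𝓞 k →* k) x, hx⟩ with hy
    have h1 := ε.sum_repr (Additive.ofMul y)
    have h2 : Units.map (algebraMap (𝓞 k) k : 𝓞 k →* k) x =
        Units.map (algebraMap (𝓞 k) k : 𝓞 k →* k)
          (∏ i, u i ^ (ε.repr (Additive.ofMul y) i)) := by
      rw [map_prod]
      have h3 := congrArg (fun z : Additive (Un (∅ : Finset (HeightOneSpectrum (𝓞 k))) T) =>
        ((Additive.toMul z : Un (∅ : Finset (HeightOneSpectrum (𝓞 k))) T) : kˣ)) h1
      simp only [toMul_sum, toMul_zsmul, Subgroup.val_finsetProd, Subgroup.coe_zpow,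
        toMul_ofMul] at h3
      rw [hy] at h3
      rw [hy]
      simp only at h3
      refine h3.symm.trans ?_
      refine Finset.prod_congr rfl fun i _ => ?_
      rw [map_zpow, hu]
    rw [hinj h2]
    exact Subgroup.prod_mem _ fun i _ => Subgroup.zpow_mem _
      (Subgroup.subset_closure (Set.mem_range_self i)) _

/-- the index of `E_T` -/
theorem xe1_index {T : Finset (HeightOneSpectrum (𝓞 k))}
    (htf : ∀ x ∈ Un (∅ : Finset (HeightOneSpectrum (𝓞 k))) T, ∀ n : ℕ, 0 < n → x ^ n = 1 →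
      x = 1) : (ET T).index = torsionOrder k * (ET T ⊔ torsion k).index := by
  have hbot : ET T ⊓ torsion k = ⊥ := by
    rw [eq_bot_iff]
    rintro x ⟨h1, h2⟩
    rw [Subgroup.mem_bot]
    have h3 : IsOfFinOrder x := (CommGroup.mem_torsion (G := (𝓞 k)ˣ) x).mp h2
    obtain ⟨n, hn, hx⟩ := isOfFinOrder_iff_pow_eq_one.mp h3
    have hinj : Function.Injective (Units.map (algebraMap (𝓞 k) k : 𝓞 k →* k)) :=
      Units.map_injective (FaithfulSMul.algebraMap_injective _ _)
    apply hinj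
    rw [map_one]
    exact htf _ ((xe1_ET x).mp h1) n hn (by rw [← map_pow, hx, map_one])
  rw [← Subgroup.relIndex_mul_index (le_sup_left : ET T ≤ ET T ⊔ torsion k)]
  congr 1
  rw [Subgroup.relIndex_sup_left, ← Subgroup.inf_relIndex_right, hbot, Subgroup.relIndex_bot_left]
  rfl

theorem xe1_lmat (S : Finset (HeightOneSpectrum (𝓞 k))) {Q : Type} (u : Q → kˣ) :
    lmat S u = fun (i : PS S) (j : Option Q) => j.elim 1 ((fun (P : PS S) (q : Q) =>
      lg P.pl (u q : k)) i) := by
  funext P j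
  rcases j with _ | j
  · rfl
  · rfl

theorem xe1_card : Fintype.card (PS (∅ : Finset (HeightOneSpectrum (𝓞 k)))) = rank k + 1 := by
  unfold PS
  rw [Fintype.card_sum, Fintype.card_coe, Finset.card_empty]
  have : 0 < Fintype.card (InfinitePlace k) := Fintype.card_pos
  unfold rank
  omega

open scoped Classical in
theorem xe1_reg (u : Fin (rank k) → (𝓞 k)ˣ) :
    regS ∅ (fun i => Units.map (algebraMap (𝓞 k) k : 𝓞 k →* k) (u i)) = regOfFamily u := by
  obtain ⟨w₀⟩ : Nonempty (InfinitePlace k) := inferInstance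
  set v : Fin (rank k) → kˣ := fun i => Units.map (algebraMap (𝓞 k) k : 𝓞 k →* k) (u i) with hv
  have hv' : ∀ i, v i ∈ Un (∅ : Finset (HeightOneSpectrum (𝓞 k)))
      (∅ : Finset (HeightOneSpectrum (𝓞 k))) := fun i =>
    ⟨fun P _ => xe1_val (u i) P, fun P hP => absurd hP (by simp)⟩
  have h := adet_minor (fun (P : PS (∅ : Finset (HeightOneSpectrum (𝓞 k)))) (q : Fin (rank k)) =>
    lg P.pl (v q : k)) (fun j => sum_lg (hv' j))
    (by rw [xe1_card, Fintype.card_fin]) (Sum.inl w₀)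
  have h0 : regS ∅ v = adet (fun (i : {i : PS (∅ : Finset (HeightOneSpectrum (𝓞 k))) //
      i ≠ Sum.inl w₀}) (j : Fin (rank k)) => lg i.1.pl (v j : k)) := by
    unfold regS
    rw [xe1_lmat, ← h]
    have : (Fintype.card (PS (∅ : Finset (HeightOneSpectrum (𝓞 k)))) : ℝ) ≠ 0 := by
      rw [xe1_card]
      positivity
    field_simp
  have hc : Fintype.card {w : InfinitePlace k // w ≠ w₀} = Fintype.card (Fin (rank k)) := by
    rw [Fintype.card_fin]
    have := Fintype.card_subtype_compl (fun w : InfinitePlace k => w = w₀)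
    simp only [Fintype.card_subtype_eq] at this
    unfold rank
    exact this
  set e : {w : InfinitePlace k // w ≠ w₀} ≃ Fin (rank k) := Fintype.equivOfCardEq hc with he
  have hE : Function.Bijective (fun w : {w : InfinitePlace k // w ≠ w₀} =>
      (⟨Sum.inl w.1, fun h => w.2 (Sum.inl_injective h)⟩ :
        {i : PS (∅ : Finset (HeightOneSpectrum (𝓞 k))) // i ≠ Sum.inl w₀})) := by
    constructor
    · intro a b hab
      have := congrArg Subtype.val hab
      exact Subtype.ext (Sum.inl_injective this)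
    · rintro ⟨w | P, hw⟩
      · exact ⟨⟨w, fun h' => hw (by rw [h'])⟩, rfl⟩
      · exact absurd P.2 (Finset.notMem_empty _)
  rw [h0, adet_eq _ (e.symm.trans (Equiv.ofBijective _ hE)), regOfFamily_eq_det u w₀ e]
  congr 1
  rw [← Matrix.det_transpose, ← Matrix.det_submatrix_equiv_self e]
  congr 1
  ext i j
  simp only [Matrix.submatrix_apply, Matrix.transpose_apply, Matrix.of_apply, Equiv.trans_apply,
    Equiv.symm_apply_apply, Equiv.ofBijective_apply]
  rfl

theorem reg_eps {T : Finset (HeightOneSpectrum (𝓞 k))}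
    (htf : ∀ x ∈ Un (∅ : Finset (HeightOneSpectrum (𝓞 k))) T, ∀ n : ℕ, 0 < n → x ^ n = 1 → x = 1)
    (ε : Module.Basis (Fin (rank k)) ℤ (Additive (Un (∅ : Finset (HeightOneSpectrum (𝓞 k))) T))) :
    regS ∅ (fun i => ((Additive.toMul (ε i) : Un (∅ : Finset (HeightOneSpectrum (𝓞 k))) T) : kˣ)) *
      torsionOrder k = regulator k * (ET T).index := by
  have hex : ∀ i, ∃ u : (𝓞 k)ˣ, Units.map (algebraMap (𝓞 k) k : 𝓞 k →* k) u =
      ((Additive.toMul (ε i) : Un (∅ : Finset (HeightOneSpectrum (𝓞 k))) T) : kˣ) := fun i =>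
    xe1_unit (fun v => (Additive.toMul (ε i) : Un (∅ : Finset (HeightOneSpectrum (𝓞 k))) T).2.1 v
      (by simp))
  choose u hu using hex
  have h1 : (fun i => ((Additive.toMul (ε i) : Un (∅ : Finset (HeightOneSpectrum (𝓞 k))) T) : kˣ))
      = fun i => Units.map (algebraMap (𝓞 k) k : 𝓞 k →* k) (u i) := by
    funext i
    rw [hu]
  rw [h1, xe1_reg]
  have h2 := regOfFamily_div_regulator u
  rw [xe1_closure ε u hu] at h2
  rw [xe1_index htf]
  have h3 : regOfFamily u = regulator k * ((ET T ⊔ torsion k).index : ℝ) := by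
    rw [← h2]
    have := regulator_ne_zero k
    field_simp
  rw [h3]
  push_cast
  ring

end Pool.Agent.RSK
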