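import Pool.Agent.Lib_helper17.RS.Bas
import Pool.Agent.Lib_helper17.RS.P_AD1
import Pool.Agent.Lib_helper17.RS.P_AD2
import Pool.Agent.Lib_helper17.RS.P_PF
/-! Rubin-Stark, block XE2: regulators of adapted bases -/

namespace Pool.Agent.RSK

open NumberField NumberField.InfinitePlace NumberField.Units IsDedekindDomain Filter Topology
  Complex

variable {k : Type} [Field k] [NumberField k]

theorem xe2_lmat (S : Finset (HeightOneSpectrum (𝓞 k))) {Q : Type} (u : Q → kˣ) :
    lmat S u = fun (i : PS S) (j : Option Q) => j.elim 1 ((fun (P : PS S) (q : Q) =>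
      lg P.pl (u q : k)) i) := by
  funext P j
  rcases j with _ | j
  · rfl
  · rfl

theorem xe2_card (S : Finset (HeightOneSpectrum (𝓞 k))) :
    Fintype.card (PS S) = rank k + 1 + S.card := by
  unfold PS
  rw [Fintype.card_sum, Fintype.card_coe]
  have : 0 < Fintype.card (InfinitePlace k) := Fintype.card_pos
  unfold rank
  omega

theorem xe2_reg (S : Finset (HeightOneSpectrum (𝓞 k))) [DecidableEq (PS S)] {Q : Type} [Fintype Q]
    (u : Q → kˣ) (hQ : Fintype.card (PS S) = Fintype.card Q + 1)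
    (hu : ∀ j, ∑ P : PS S, lg P.pl (u j : k) = 0) (w₀ : InfinitePlace k) :
    regS S u = adet (fun (i : {i : PS S // i ≠ Sum.inl w₀}) (j : Q) => lg i.1.pl (u j : k)) := by
  have h := adet_minor (fun (P : PS S) (q : Q) => lg P.pl (u q : k)) hu hQ (Sum.inl w₀)
  unfold regS
  rw [xe2_lmat, ← h]
  have : (Fintype.card (PS S) : ℝ) ≠ 0 := by
    rw [hQ]
    positivity
  field_simp

/-- the rows different from `w₀` -/
noncomputable def xe2_e (S : Finset (HeightOneSpectrum (𝓞 k))) (w₀ : InfinitePlace k) :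
    {w : InfinitePlace k // w ≠ w₀} ⊕ S ≃ {i : PS S // i ≠ Sum.inl w₀} where
  toFun := fun x => x.elim (fun w => ⟨Sum.inl w.1, fun h => w.2 (Sum.inl_injective h)⟩)
    (fun v => ⟨Sum.inr v, fun h => by cases h⟩)
  invFun := fun x => match x with
    | ⟨Sum.inl w, h⟩ => Sum.inl ⟨w, fun h' => h (by rw [h'])⟩
    | ⟨Sum.inr v, _⟩ => Sum.inr v
  left_inv := by
    rintro (w | v)
    · rfl
    · rfl
  right_inv := by
    rintro ⟨w | v, h⟩
    · rfl
    · rfl

theorem xe2_sum {S T : Finset (HeightOneSpectrum (𝓞 k))} {x : kˣ} (hx : x ∈ Un S T) :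
    ∑ P : PS S, lg P.pl (x : k) = 0 := sum_lg hx

theorem xe2_mem {S T : Finset (HeightOneSpectrum (𝓞 k))} {x : kˣ}
    (hx : x ∈ Un (∅ : Finset (HeightOneSpectrum (𝓞 k))) T) : x ∈ Un S T :=
  ⟨fun v _ => hx.1 v (by simp), hx.2⟩

theorem xe2_ordv {T : Finset (HeightOneSpectrum (𝓞 k))} {x : kˣ}
    (hx : x ∈ Un (∅ : Finset (HeightOneSpectrum (𝓞 k))) T) (v : HeightOneSpectrum (𝓞 k)) :
    ordv v (x : k) = 0 := by
  unfold ordv
  rw [hx.1 v (by simp), WithZero.log_one, neg_zero]

theorem xe2_log (v : HeightOneSpectrum (𝓞 k)) : 0 ≤ Real.log (nv v) := by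
  have := nv_two_le v
  exact Real.log_nonneg (by exact_mod_cast (by omega : 1 ≤ nv v))

open scoped Classical in
theorem xe2_det {S : Finset (HeightOneSpectrum (𝓞 k))} (u : S → kˣ) :
    adet (fun (v v' : S) => lg (Sum.inr v.1) (u v' : k)) =
      (∏ v ∈ S, Real.log (nv v)) *
      |(Matrix.det (Matrix.of fun v v' : S => (ordv v.1 (u v' : k) : ℝ)))| := by
  rw [adet_eq _ (Equiv.refl S)]
  have h : (Matrix.of fun i j : S => lg (Sum.inr ((Equiv.refl S) i).1) (u j : k)) =
      Matrix.of fun i j : S => Real.log (nv i.1) *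
        (-(Matrix.of fun v v' : S => (ordv v.1 (u v' : k) : ℝ))) i j := by
    ext i j
    simp only [Matrix.of_apply, Equiv.refl_apply, Matrix.neg_apply]
    rw [lg_ordv i.1 (u j).ne_zero]
    ring
  rw [h, Matrix.det_mul_column, abs_mul, Matrix.det_neg, abs_mul, abs_pow, abs_neg, abs_one,
    one_pow, one_mul]
  congr 1
  rw [← Finset.prod_coe_sort S (fun v => Real.log (nv v)), abs_of_nonneg]
  exact Finset.prod_nonneg fun v _ => xe2_log v.1

open scoped Classical in
theorem reg_ST {S T : Finset (HeightOneSpectrum (𝓞 k))}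
    (ε : Fin (rank k) → kˣ) (u : S → kˣ)
    (hε : ∀ i, ε i ∈ Un (∅ : Finset (HeightOneSpectrum (𝓞 k))) T) (hu : ∀ v, u v ∈ Un S T) :
    regS S (Sum.elim ε u) = regS ∅ ε * (∏ v ∈ S, Real.log (nv v)) *
      |(Matrix.det (Matrix.of fun v v' : S => (ordv v.1 (u v' : k) : ℝ)))| := by
  obtain ⟨w₀⟩ : Nonempty (InfinitePlace k) := inferInstance
  have h1 : regS S (Sum.elim ε u) = adet (fun (i : {i : PS S // i ≠ Sum.inl w₀})
      (j : Fin (rank k) ⊕ S) => lg i.1.pl ((Sum.elim ε u j : kˣ) : k)) := by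
    apply xe2_reg
    · rw [xe2_card, Fintype.card_sum, Fintype.card_fin, Fintype.card_coe]
      omega
    · rintro (j | v)
      · exact xe2_sum (xe2_mem (hε j))
      · exact xe2_sum (hu v)
  have h2 : regS ∅ ε = adet (fun (i : {i : PS (∅ : Finset (HeightOneSpectrum (𝓞 k))) //
      i ≠ Sum.inl w₀}) (j : Fin (rank k)) => lg i.1.pl (ε j : k)) := by
    apply xe2_reg
    · rw [xe2_card, Fintype.card_fin, Finset.card_empty]
    · intro j
      exact xe2_sum (hε j)
  have h3 : regS ∅ ε = adet (fun (w : {w : InfinitePlace k // w ≠ w₀}) (j : Fin (rank k)) =>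
      lg (Sum.inl w.1) (ε j : k)) := by
    rw [h2, ← adet_reindex ((Equiv.sumEmpty _ _).symm.trans
      (xe2_e (∅ : Finset (HeightOneSpectrum (𝓞 k))) w₀)) (Equiv.refl (Fin (rank k)))]
    rfl
  rw [h1, ← adet_reindex (xe2_e S w₀) (Equiv.refl (Fin (rank k) ⊕ S)), adet_block, h3,
    mul_assoc, ← xe2_det]
  · rfl
  · intro v j
    show lg (Sum.inr v.1) (ε j : k) = 0
    rw [lg_ordv v.1 (ε j).ne_zero, xe2_ordv (hε j)]
    simp
  · rw [Fintype.card_fin]
    have := Fintype.card_subtype_compl (fun w : InfinitePlace k => w = w₀)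
    simp only [Fintype.card_subtype_eq] at this
    unfold rank
    exact this

end Pool.Agent.RSK
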