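import Pool.Agent.Lib_helper17.RS.Bas
import Pool.Agent.Lib_helper17.RS.P_AD1
/-!
# Rubin-Stark: block XF, change of basis and finite index
-/

namespace Pool.Agent.RSK

set_option linter.unusedSectionVars false

open NumberField NumberField.InfinitePlace NumberField.Units IsDedekindDomain Filter Topology
  Complex

section Gen

variable {M : Type} [AddCommGroup M] {Q : Type} [Fintype Q]

theorem xf_index (b : Module.Basis Q ℤ M) (f : M →ₗ[ℤ] M) :
    (LinearMap.det f).natAbs = (LinearMap.range f).toAddSubgroup.index := by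
  classical
  have : Module.Free ℤ M := Module.Free.of_basis b
  have : Module.Finite ℤ M := Module.Finite.of_basis b
  by_cases h : LinearMap.det f = 0
  · rw [h, Int.natAbs_zero]
    symm
    by_contra hne
    set n := (LinearMap.range f).toAddSubgroup.index with hn
    have hmem : ∀ i, ∃ y, f y = (n : ℤ) • b i := fun i => by
      have h1 : n • b i ∈ (LinearMap.range f).toAddSubgroup :=
        AddSubgroup.nsmul_index_mem (LinearMap.range f).toAddSubgroup (b i)
      obtain ⟨y, hy⟩ := h1
      exact ⟨y, by rw [hy, natCast_zsmul]⟩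
    choose y hy using hmem
    have h2 : f ∘ₗ (b.constr ℤ y) = (n : ℤ) • LinearMap.id := b.ext fun i => by
      rw [LinearMap.comp_apply, b.constr_basis, hy, LinearMap.smul_apply, LinearMap.id_apply]
    have h3 := congrArg LinearMap.det h2
    rw [LinearMap.det_comp, h, zero_mul, LinearMap.det_smul, LinearMap.det_id, mul_one] at h3
    exact hne (by exact_mod_cast (eq_zero_of_pow_eq_zero h3.symm : (n : ℤ) = 0))
  · have hk : LinearMap.ker f = ⊥ := by
      by_contra hk
      exact h (LinearMap.det_eq_zero_iff_ker_ne_bot.2 hk)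
    let e : M ≃ₗ[ℤ] LinearMap.range f := LinearEquiv.ofInjective f (LinearMap.ker_eq_bot.1 hk)
    have h1 := Submodule.natAbs_det_equiv (LinearMap.range f) e
    have h2 : (LinearMap.range f).subtype ∘ₗ
        AddMonoidHom.toIntLinearMap ((e : M ≃ₗ[ℤ] LinearMap.range f) : M →+ LinearMap.range f) = f :=
      LinearMap.ext fun x => rfl
    rw [h2] at h1
    rw [h1]
    rfl

end Gen

section Log

variable {k : Type} [Field k] [NumberField k]

theorem xf_lg_mul (w : Pl k) (x y : kˣ) :
    lg w ((x * y : kˣ) : k) = lg w (x : k) + lg w (y : k) := by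
  rcases w with w | v
  · show (w.mult : ℝ) * Real.log (w ((x * y : kˣ) : k)) =
      w.mult * Real.log (w x) + w.mult * Real.log (w y)
    rw [Units.val_mul, map_mul, Real.log_mul ((map_ne_zero w).2 x.ne_zero)
      ((map_ne_zero w).2 y.ne_zero), mul_add]
  · show Real.log (HeightOneSpectrum.adicAbv k v ((x * y : kˣ) : k)) =
      Real.log (HeightOneSpectrum.adicAbv k v x) + Real.log (HeightOneSpectrum.adicAbv k v y)
    rw [Units.val_mul, map_mul, Real.log_mul ((map_ne_zero _).2 x.ne_zero)
      ((map_ne_zero _).2 y.ne_zero)]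

/-- the logarithm as a homomorphism -/
noncomputable def xfL (w : Pl k) (U : Subgroup kˣ) : Additive U →+ ℝ where
  toFun x := lg w (((Additive.toMul x : U) : kˣ) : k)
  map_zero' := by
    have h := xf_lg_mul w 1 1
    rw [mul_one] at h
    show lg w ((1 : kˣ) : k) = 0
    linarith
  map_add' x y := xf_lg_mul w _ _

theorem xf_det {Q : Type} [Fintype Q] [DecidableEq Q] (N : Matrix Q Q ℝ) :
    Matrix.det (Matrix.of fun i j : Option Q => i.elim (j.elim 1 (fun _ => 0))
      (fun i => j.elim 0 (fun j => N i j))) = N.det := by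
  rw [← Matrix.det_reindex_self (Equiv.optionEquivSumPUnit.{0} Q)]
  have h : (Matrix.reindex (Equiv.optionEquivSumPUnit.{0} Q) (Equiv.optionEquivSumPUnit.{0} Q))
      (Matrix.of fun i j : Option Q => i.elim (j.elim (1 : ℝ) (fun _ => 0))
      (fun i => j.elim 0 (fun j => N i j))) = Matrix.fromBlocks N 0 0 1 := by
    ext i j
    rcases i with i | i <;> rcases j with j | j <;> simp [Matrix.one_apply]
  rw [h, Matrix.det_fromBlocks_zero₂₁, Matrix.det_one, mul_one]

theorem xf_key {S : Finset (HeightOneSpectrum (𝓞 k))} {U : Subgroup kˣ}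
    {Q : Type} [Fintype Q] (b : Module.Basis Q ℤ (Additive U)) (u : Q → U) :
    regS S (fun j => (u j : kˣ)) =
      (Subgroup.closure (Set.range u)).index *
        regS S (fun i => ((Additive.toMul (b i) : U) : kˣ)) := by
  classical
  set N : Matrix Q Q ℤ := b.toMatrix (fun j => Additive.ofMul (u j)) with hN
  have hdet : N.det.natAbs = (Subgroup.closure (Set.range u)).index := by
    have h1 : N.det = LinearMap.det (b.constr ℤ (fun j => Additive.ofMul (u j))) := by
      rw [← LinearMap.det_toMatrix b]
      congr 1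
      ext i j
      rw [LinearMap.toMatrix_apply, b.constr_basis]
      rfl
    rw [h1, xf_index b, b.constr_range, ← Subgroup.index_toAddSubgroup,
      Subgroup.toAddSubgroup_closure, Submodule.span_int_eq_addSubgroupClosure]
    rfl
  have hlog : ∀ (P : PS S) (j : Q), lg P.pl ((u j : kˣ) : k) =
      ∑ i, lg P.pl (((Additive.toMul (b i) : U) : kˣ) : k) * (N i j : ℝ) := fun P j => by
    have h1 := congrArg (xfL P.pl U) (b.sum_repr (Additive.ofMul (u j)))
    rw [map_sum] at h1
    have h2 : xfL P.pl U (Additive.ofMul (u j)) = lg P.pl ((u j : kˣ) : k) := rfl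
    rw [← h2, ← h1]
    refine Finset.sum_congr rfl fun i _ => ?_
    rw [map_zsmul, zsmul_eq_mul, mul_comm]
    rfl
  have hmat : lmat S (fun j => (u j : kˣ)) = fun i j => ∑ l : Option Q,
      lmat S (fun i => ((Additive.toMul (b i) : U) : kˣ)) i l *
        (Matrix.of fun i j : Option Q => i.elim (j.elim (1 : ℝ) (fun _ => 0))
          (fun i => j.elim 0 (fun j => (N.map (Int.cast : ℤ → ℝ)) i j))) l j := by
    funext P j
    rw [Fintype.sum_option]
    rcases j with _ | j
    · simp [lmat]
    · have := hlog P j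
      simpa [lmat] using this
  unfold regS
  rw [hmat, adet_mul, xf_det]
  have h3 : |(N.map (Int.cast : ℤ → ℝ)).det| = ((Subgroup.closure (Set.range u)).index : ℝ) := by
    rw [← hdet]
    have h4 : (N.map (Int.cast : ℤ → ℝ)).det = (N.det : ℝ) := by
      have := (Int.castRingHom ℝ).map_det N
      exact this.symm
    rw [h4, Nat.cast_natAbs, Int.cast_abs]
  rw [h3]
  ring

end Log

variable {k : Type} [Field k] [NumberField k]

theorem xf_gen {S : Finset (HeightOneSpectrum (𝓞 k))} {U : Subgroup kˣ}
    {Q Q' : Type} [Fintype Q] [Fintype Q'] (b : Module.Basis Q ℤ (Additive U)) (u : Q' → U)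
    (hQ : Fintype.card Q = Fintype.card Q') :
    regS S (fun j => (u j : kˣ)) =
      (Subgroup.closure (Set.range u)).index *
        regS S (fun i => ((Additive.toMul (b i) : U) : kˣ)) := by
  classical
  let e : Q ≃ Q' := Fintype.equivOfCardEq hQ
  have h := xf_key (S := S) b (fun j => u (e j))
  have h1 : Set.range (fun j => u (e j)) = Set.range u := e.surjective.range_comp u
  rw [h1] at h
  rw [← h]
  unfold regS
  congr 1
  have h2 := adet_reindex (Equiv.refl (PS S)) (Equiv.optionCongr e)
    (lmat S (fun j => (u j : kˣ)))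
  rw [← h2]
  congr 1
  funext P j
  rcases j with _ | j <;> rfl

theorem reg_index {S : Finset (HeightOneSpectrum (𝓞 k))} {n : ℕ} {U : Subgroup kˣ}
    {Q Q' : Type} [Fintype Q] [Fintype Q'] (b : Module.Basis Q ℤ (Additive U)) (u : Q' → U)
    (hQ : Fintype.card Q = Fintype.card Q') (hn : n = (Subgroup.closure (Set.range u)).index)
    (hfin : n ≠ 0) :
    regS S (fun j => (u j : kˣ)) =
      n * regS S (fun i => ((Additive.toMul (b i) : U) : kˣ)) := by
  rw [hn]
  exact xf_gen b u hQ

/-- if the index is infinite, the regulator vanishes -/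
theorem reg_index_zero {S : Finset (HeightOneSpectrum (𝓞 k))} {U : Subgroup kˣ}
    {Q Q' : Type} [Fintype Q] [Fintype Q'] (b : Module.Basis Q ℤ (Additive U)) (u : Q' → U)
    (hQ : Fintype.card Q = Fintype.card Q')
    (h0 : (Subgroup.closure (Set.range u)).index = 0) :
    regS S (fun j => (u j : kˣ)) = 0 := by
  rw [xf_gen b u hQ, h0, Nat.cast_zero, zero_mul]

end Pool.Agent.RSK
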