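import Pool.Agent.Lib_helper17.RS.Bas
import Pool.Agent.Lib_helper17.RS.BasZ
import Pool.Agent.Lib_helper17.RS.P_PF
import Pool.Agent.Lib_helper17.RS.P_ZC
import Pool.Agent.Lib_helper17.RS.P_XC
import Pool.Agent.Lib_helper17.RS.P_XD
import Pool.Agent.Lib_helper17.RS.P_XE1
import Pool.Agent.Lib_helper17.RS.P_XE2
import Pool.Agent.Lib_helper17.RS.P_XF
import Pool.Agent.Lib_helper17.RS.P_EB
/-!
# Rubin-Stark, block CN: the `(S,T)`-class number formula
-/

namespace Pool.Agent.RSK

set_option linter.unusedSectionVars false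

open NumberField NumberField.InfinitePlace NumberField.Units IsDedekindDomain Filter Topology
  Complex

section CN

variable {k : Type} [Field k] [NumberField k]

theorem un_exists {S T : Finset (HeightOneSpectrum (𝓞 k))} (hST : Disjoint S T)
    (htf : TFree S T) : ∃ n : ℕ, Nonempty (Module.Basis (Fin n) ℤ (Additive (Un S T))) := by
  classical
  obtain ⟨ε, b, -, -⟩ := un_basis hST htf
  exact ⟨Fintype.card (Fin (rank k) ⊕ S), ⟨b.reindex (Fintype.equivFin _)⟩⟩

theorem cn_slope {q : ℕ} (hq : 2 ≤ q) :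
    Tendsto (fun s : ℂ => (1 - (q : ℂ) ^ (-s)) / s) (𝓝[≠] 0) (𝓝 ((Real.log q : ℝ) : ℂ)) := by
  have hq0 : (q : ℂ) ≠ 0 := by
    have : q ≠ 0 := by omega
    exact_mod_cast this
  have h1 : HasDerivAt (fun s : ℂ => 1 - (q : ℂ) ^ (-s)) (Complex.log q) 0 := by
    have h2 : HasDerivAt (fun s : ℂ => -s) (-1) 0 := (hasDerivAt_id (0 : ℂ)).neg
    have h3 := (h2.const_cpow (c := (q : ℂ)) (Or.inl hq0)).const_sub 1
    rw [neg_zero, Complex.cpow_zero] at h3
    have e : -(1 * Complex.log (q : ℂ) * -1) = Complex.log (q : ℂ) := by ring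
    rw [e] at h3
    exact h3
  have h4 := hasDerivAt_iff_tendsto_slope.1 h1
  rw [← Complex.natCast_log] at h4
  refine h4.congr fun s => ?_
  rw [slope_def_field]
  simp

theorem cn_prod {S T : Finset (HeightOneSpectrum (𝓞 k))} :
    ∃ Z : ℂ → ℂ, MeromorphicOn Z Set.univ ∧ (∀ s : ℂ, 1 < s.re → Z s = zST S T s) ∧
      Tendsto (fun s : ℂ => Z s / s ^ (rank k + S.card)) (𝓝[≠] 0)
        (𝓝 (-((classNumber k * regulator k / torsionOrder k : ℝ) : ℂ) *
          (∏ v ∈ S, ((Real.log (nv v) : ℝ) : ℂ)) * ∏ v ∈ T, (1 - (nv v : ℂ)))) := by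
  obtain ⟨Z, hZm, hZe, hZt⟩ := zeta_zero k
  refine ⟨fun s => Z s * (∏ v ∈ S, (1 - (nv v : ℂ) ^ (-s))) *
      ∏ v ∈ T, (1 - (nv v : ℂ) ^ (1 - s)), ?_, fun s hs => ?_, ?_⟩
  · have hnv : ∀ v : HeightOneSpectrum (𝓞 k), (nv v : ℂ) ≠ 0 := fun v => by
      have := nv_two_le v
      have h2 : nv v ≠ 0 := by omega
      exact_mod_cast h2
    have hA : ∀ v : HeightOneSpectrum (𝓞 k), Differentiable ℂ (fun s : ℂ => 1 - (nv v : ℂ) ^ (-s)) :=
      fun v => by
        have : NeZero (nv v : ℂ) := ⟨hnv v⟩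
        fun_prop
    have hB : ∀ v : HeightOneSpectrum (𝓞 k),
        Differentiable ℂ (fun s : ℂ => 1 - (nv v : ℂ) ^ (1 - s)) :=
      fun v => by
        have : NeZero (nv v : ℂ) := ⟨hnv v⟩
        fun_prop
    refine MeromorphicOn.mul (MeromorphicOn.mul hZm ?_) ?_
    · refine fun s _ => AnalyticAt.meromorphicAt ?_
      have h : Differentiable ℂ (fun s : ℂ => ∏ v ∈ S, (1 - (nv v : ℂ) ^ (-s))) := by
        have := Differentiable.fun_finsetProd (u := S) (fun v _ => hA v)
        exact this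
      exact h.analyticAt s
    · refine fun s _ => AnalyticAt.meromorphicAt ?_
      have h : Differentiable ℂ (fun s : ℂ => ∏ v ∈ T, (1 - (nv v : ℂ) ^ (1 - s))) := by
        have := Differentiable.fun_finsetProd (u := T) (fun v _ => hB v)
        exact this
      exact h.analyticAt s
  · rw [zST_eq S T hs, ← hZe s hs]
  · have h1 : Tendsto (fun s : ℂ => ∏ v ∈ S, ((1 - (nv v : ℂ) ^ (-s)) / s)) (𝓝[≠] 0)
        (𝓝 (∏ v ∈ S, ((Real.log (nv v) : ℝ) : ℂ))) :=
      tendsto_finsetProd _ fun v _ => cn_slope (nv_two_le v)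
    have h2 : Tendsto (fun s : ℂ => ∏ v ∈ T, (1 - (nv v : ℂ) ^ (1 - s))) (𝓝[≠] 0)
        (𝓝 (∏ v ∈ T, (1 - (nv v : ℂ)))) := by
      refine tendsto_finsetProd _ fun v _ => ?_
      have hnv : (nv v : ℂ) ≠ 0 := by
        have := nv_two_le v
        have h2 : nv v ≠ 0 := by omega
        exact_mod_cast h2
      have hc : Continuous (fun s : ℂ => 1 - (nv v : ℂ) ^ (1 - s)) := by
        have : NeZero (nv v : ℂ) := ⟨hnv⟩
        have hd : Differentiable ℂ (fun s : ℂ => 1 - (nv v : ℂ) ^ (1 - s)) := by fun_prop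
        exact hd.continuous
      have h3 := (hc.tendsto 0).mono_left (nhdsWithin_le_nhds (s := {0}ᶜ))
      simpa using h3
    refine ((hZt.mul h1).mul h2).congr fun s => ?_
    rw [Finset.prod_div_distrib, Finset.prod_const, pow_add]
    rw [div_mul_div_comm, div_mul_eq_mul_div]

theorem cnf {S T : Finset (HeightOneSpectrum (𝓞 k))} (hST : Disjoint S T) (htf : TFree S T)
    {n : ℕ} (b : Module.Basis (Fin n) ℤ (Additive (Un S T))) :
    n + 1 = Fintype.card (PS S) ∧ 0 < regS S (bu b) ∧ 0 < hA S T ∧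
    ∃ Z : ℂ → ℂ, MeromorphicOn Z Set.univ ∧ (∀ s : ℂ, 1 < s.re → Z s = zST S T s) ∧
      Tendsto (fun s : ℂ => Z s / s ^ n) (𝓝[≠] 0)
        (𝓝 ((-1) ^ (T.card + 1) * ((hA S T * regS S (bu b) : ℝ) : ℂ))) := by
  classical
  obtain ⟨ε, b', hε, hdet⟩ := un_basis hST htf
  -- the rank
  have hn : n = rank k + S.card := by
    have h1 : Fintype.card (Fin n) = Fintype.card (Fin (rank k) ⊕ S) :=
      Fintype.card_congr (b.indexEquiv b')
    rw [Fintype.card_fin, Fintype.card_sum, Fintype.card_fin, Fintype.card_coe] at h1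
    exact h1
  have hn1 : n + 1 = Fintype.card (PS S) := by
    have h1 : Fintype.card (PS S) = Fintype.card (InfinitePlace k) + S.card := by
      show Fintype.card (InfinitePlace k ⊕ S) = _
      rw [Fintype.card_sum, Fintype.card_coe]
    have h2 : 0 < Fintype.card (InfinitePlace k) := Fintype.card_pos
    have h3 : rank k = Fintype.card (InfinitePlace k) - 1 := rfl
    omega
  -- change of basis
  have hreg1 : regS S (fun j : Fin (rank k) ⊕ S => ((Additive.toMul (b' j) : Un S T) : kˣ)) =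
      regS S (bu b) := by
    have hcl : Subgroup.closure (Set.range fun j : Fin (rank k) ⊕ S =>
        (Additive.toMul (b' j) : Un S T)) = ⊤ := by
      have h1 := b'.span_eq
      have h2 := congrArg Submodule.toAddSubgroup h1
      rw [Submodule.span_int_eq_addSubgroupClosure, Submodule.top_toAddSubgroup] at h2
      rw [eq_top_iff]
      intro x _
      have h3 : (Additive.ofMul x : Additive (Un S T)) ∈
          AddSubgroup.closure (Set.range (b' : (Fin (rank k) ⊕ S) → Additive (Un S T))) := by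
        rw [h2]
        exact AddSubgroup.mem_top _
      have h4 := AddSubgroup.toSubgroup' (G := Un S T)
        (AddSubgroup.closure (Set.range (b' : (Fin (rank k) ⊕ S) → Additive (Un S T))))
      refine AddSubgroup.closure_induction
        (p := fun y _ => (Additive.toMul y : Un S T) ∈ Subgroup.closure (Set.range
          fun j : Fin (rank k) ⊕ S => (Additive.toMul (b' j) : Un S T))) ?_ ?_ ?_ ?_ h3
      · rintro _ ⟨j, rfl⟩
        exact Subgroup.subset_closure ⟨j, rfl⟩
      · exact Subgroup.one_mem _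
      · intro a c _ _ ha hc
        exact Subgroup.mul_mem _ ha hc
      · intro a _ ha
        exact Subgroup.inv_mem _ ha
    have h := reg_index (S := S) (n := 1) b
      (fun j : Fin (rank k) ⊕ S => (Additive.toMul (b' j) : Un S T))
      (Fintype.card_congr (b.indexEquiv b')) (by rw [hcl, Subgroup.index_top]) one_ne_zero
    rw [h, Nat.cast_one, one_mul]
    rfl
  have hfam : (fun j : Fin (rank k) ⊕ S => ((Additive.toMul (b' j) : Un S T) : kˣ)) =
      Sum.elim (fun i => ((Additive.toMul (ε i) :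
          Un (∅ : Finset (HeightOneSpectrum (𝓞 k))) T) : kˣ))
        (fun v : S => ((Additive.toMul (b' (Sum.inr v)) : Un S T) : kˣ)) := by
    funext j
    rcases j with i | v
    · exact hε i
    · rfl
  have hreg2 := reg_ST (S := S) (T := T)
    (fun i => ((Additive.toMul (ε i) : Un (∅ : Finset (HeightOneSpectrum (𝓞 k))) T) : kˣ))
    (fun v : S => ((Additive.toMul (b' (Sum.inr v)) : Un S T) : kˣ))
    (fun i => (Additive.toMul (ε i) : Un (∅ : Finset (HeightOneSpectrum (𝓞 k))) T).2)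
    (fun v => (Additive.toMul (b' (Sum.inr v)) : Un S T).2)
  rw [← hfam, hreg1] at hreg2
  have htf0 : ∀ x ∈ Un (∅ : Finset (HeightOneSpectrum (𝓞 k))) T, ∀ n : ℕ, 0 < n → x ^ n = 1 →
      x = 1 := by
    intro x hx n hn h
    refine htf x ⟨fun v _ => hx.1 v (Finset.notMem_empty v), hx.2⟩ n hn h
  have hreg3 := reg_eps htf0 ε
  have hhT := hA_T T
  set R0 := regS ∅ (fun i => ((Additive.toMul (ε i) :
    Un (∅ : Finset (HeightOneSpectrum (𝓞 k))) T) : kˣ)) with hR0
  set D : ℝ := |(Matrix.det (Matrix.of fun v v' : S =>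
    (ordv v.1 (((Additive.toMul (b' (Sum.inr v')) : Un S T) : kˣ) : k) : ℝ)))| with hDdef
  have hdet' : (hA S T : ℝ) * D = hA ∅ T := by
    have h1 := congrArg (Nat.cast : ℕ → ℝ) hdet
    rw [Nat.cast_mul] at h1
    rw [← h1]
    congr 1
    rw [hDdef, Nat.cast_natAbs, Int.cast_abs]
    congr 1
    have h2 := RingHom.map_det (Int.castRingHom ℝ) (Matrix.of fun v v' : S =>
        ordv v.1 (((Additive.toMul (b' (Sum.inr v')) : Un S T) : kˣ) : k))
    rw [eq_intCast] at h2
    rw [h2]
    rfl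
  have hw : (0 : ℝ) < torsionOrder k := by
    exact_mod_cast torsionOrder_pos k
  have hprodT : ((∏ v ∈ T, (nv v - 1) : ℕ) : ℝ) = ∏ v ∈ T, ((nv v : ℝ) - 1) := by
    rw [Nat.cast_prod]
    refine Finset.prod_congr rfl fun v _ => ?_
    have := nv_two_le v
    rw [Nat.cast_sub (by omega), Nat.cast_one]
  have hmain : (hA S T : ℝ) * regS S (bu b) = (classNumber k * regulator k / torsionOrder k) *
      (∏ v ∈ S, Real.log (nv v)) * ∏ v ∈ T, ((nv v : ℝ) - 1) := by
    have hh : (hA ∅ T : ℝ) * (ET T).index = classNumber k * ∏ v ∈ T, ((nv v : ℝ) - 1) := by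
      rw [← hprodT]
      exact_mod_cast hhT
    have e1 : (hA S T : ℝ) * regS S (bu b) = (hA S T * D) * R0 * ∏ v ∈ S, Real.log (nv v) := by
      rw [hreg2]
      ring
    have e2 : R0 = regulator k * (ET T).index / torsionOrder k := by
      rw [eq_div_iff hw.ne']
      exact hreg3
    rw [e1, hdet', e2]
    have e3 : (hA ∅ T : ℝ) * (regulator k * (ET T).index / torsionOrder k) *
        ∏ v ∈ S, Real.log (nv v) = (hA ∅ T * (ET T).index) * regulator k / torsionOrder k *
        ∏ v ∈ S, Real.log (nv v) := by ring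
    rw [e3, hh]
    ring
  have hpos : 0 < (hA S T : ℝ) * regS S (bu b) := by
    rw [hmain]
    have h1 : (0 : ℝ) < classNumber k := by
      exact_mod_cast classNumber_pos k
    have h2 : 0 < regulator k := regulator_pos k
    have h3 : 0 < ∏ v ∈ S, Real.log (nv v) := Finset.prod_pos fun v _ => by
      have := nv_two_le v
      refine Real.log_pos ?_
      have : (2 : ℝ) ≤ nv v := by exact_mod_cast this
      linarith
    have h4 : 0 < ∏ v ∈ T, ((nv v : ℝ) - 1) := Finset.prod_pos fun v _ => by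
      have := nv_two_le v
      have : (2 : ℝ) ≤ nv v := by exact_mod_cast this
      linarith
    positivity
  have hA0 : 0 < hA S T := by
    rcases Nat.eq_zero_or_pos (hA S T) with h | h
    · rw [h, Nat.cast_zero, zero_mul] at hpos
      exact absurd hpos (lt_irrefl _)
    · exact h
  have hR : 0 < regS S (bu b) := by
    have : (0 : ℝ) < hA S T := by exact_mod_cast hA0
    exact (mul_pos_iff_of_pos_left this).1 hpos
  refine ⟨hn1, hR, hA0, ?_⟩
  obtain ⟨Z, hZm, hZe, hZt⟩ := cn_prod (S := S) (T := T)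
  refine ⟨Z, hZm, hZe, ?_⟩
  have hZt' : Tendsto (fun s : ℂ => Z s / s ^ n) (𝓝[≠] 0)
        (𝓝 (-((classNumber k * regulator k / torsionOrder k : ℝ) : ℂ) *
          (∏ v ∈ S, ((Real.log (nv v) : ℝ) : ℂ)) * ∏ v ∈ T, (1 - (nv v : ℂ)))) := by
    simp only [hn]
    exact hZt
  convert hZt' using 2
  rw [hmain]
  push_cast
  have e4 : ∏ v ∈ T, (1 - (nv v : ℂ)) = (-1) ^ T.card * ∏ v ∈ T, ((nv v : ℂ) - 1) := by
    rw [← Finset.prod_const, ← Finset.prod_mul_distrib]
    refine Finset.prod_congr rfl fun v _ => ?_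
    ring
  rw [e4, pow_succ]
  ring

end CN

end Pool.Agent.RSK
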