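import Pool.Agent.Lib_helper17.RS.Bas
import Pool.Agent.Lib_helper17.RS.P_UP1
import Pool.Agent.Lib_helper17.RS.P_UP2
/-!
# Rubin-Stark, block PH: the places of `H` for `H/F` cyclic of prime degree
-/

namespace Pool.Agent.RSK

open NumberField IsDedekindDomain Filter Topology Complex

section PHaux

variable {k : Type} [Field k] [NumberField k] {S : Finset (HeightOneSpectrum (𝓞 k))}

theorem ph_pl_inj : Function.Injective (PS.pl (S := S)) := by
  intro P Q h
  rcases P with P | P <;> rcases Q with Q | Q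
  · have h' : P = Q := Sum.inl.inj h
    rw [h']
  · exact absurd h (by intro h; cases h)
  · exact absurd h (by intro h; cases h)
  · have h' : P.1 = Q.1 := Sum.inr.inj h
    rw [Subtype.ext h']

theorem ph_inS (P : PS S) : InS S P.pl := by
  rcases P with P | P
  · trivial
  · exact P.2

/-- the element of `PS S` -/
def ph_mk : (W : Pl k) → InS S W → PS S
  | Sum.inl w, _ => Sum.inl w
  | Sum.inr v, h => Sum.inr ⟨v, h⟩

theorem ph_mk_pl (W : Pl k) (h : InS S W) : (ph_mk W h).pl = W := by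
  rcases W with w | v
  · rfl
  · rfl

end PHaux

section PHaux2

variable {F H : Type} [Field F] [NumberField F] [Field H] [NumberField H] [Algebra F H]

theorem ph_inS_ovr {S : Finset (HeightOneSpectrum (𝓞 F))} (W : Pl H) :
    InS (ovr H S) W ↔ InS S (dn F W) := by
  rcases W with w | w
  · exact Iff.rfl
  · exact mem_ovr

/-- the decomposition group -/
def ph_stab (W : Pl H) : Subgroup (H ≃ₐ[F] H) where
  carrier := {σ | act σ W = W}
  one_mem' := act_one W
  mul_mem' := fun {a b} ha hb => by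
    show act (a * b) W = W
    rw [act_mul, show act b W = W from hb, show act a W = W from ha]
  inv_mem' := fun {a} ha => by
    show act a⁻¹ W = W
    have h : act a W = W := ha
    have h2 : act (a⁻¹ * a) W = W := by rw [inv_mul_cancel, act_one]
    rw [act_mul, h] at h2
    exact h2

theorem ph_act_inj {W : Pl H} (hs : ∀ σ : H ≃ₐ[F] H, act σ W = W → σ = 1) {σ τ : H ≃ₐ[F] H}
    (h : act σ W = act τ W) : σ = τ := by
  have h2 : act (τ⁻¹ * σ) W = W := by
    rw [act_mul, h, ← act_mul, inv_mul_cancel, act_one]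
  have h3 := hs _ h2
  rw [inv_mul_eq_one] at h3
  exact h3.symm

theorem ph_dich {p : ℕ} (hp : p.Prime) (hG : Nat.card (H ≃ₐ[F] H) = p) (W : Pl H) :
    (∀ σ : H ≃ₐ[F] H, act σ W = W → σ = 1) ∨ (∀ σ : H ≃ₐ[F] H, act σ W = W) := by
  have : Fact (Nat.card (H ≃ₐ[F] H)).Prime := ⟨by rw [hG]; exact hp⟩
  rcases (ph_stab (F := F) W).eq_bot_or_eq_top_of_prime_card with h | h
  · left
    intro σ hσ
    have : σ ∈ ph_stab (F := F) W := hσ
    rw [h, Subgroup.mem_bot] at this
    exact this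
  · right
    intro σ
    have : σ ∈ ph_stab (F := F) W := by rw [h]; exact Subgroup.mem_top σ
    exact this

theorem ph_card_one {W : Pl H} (hs : ∀ σ : H ≃ₐ[F] H, act σ W = W → σ = 1) :
    Nat.card {σ : H ≃ₐ[F] H // act σ W = W} = 1 := by
  rw [Nat.card_eq_one_iff_unique]
  refine ⟨⟨fun a b => Subtype.ext ?_⟩, ⟨⟨1, act_one W⟩⟩⟩
  rw [hs a.1 a.2, hs b.1 b.2]

theorem ph_card_all {W : Pl H} (hs : ∀ σ : H ≃ₐ[F] H, act σ W = W) :
    Nat.card {σ : H ≃ₐ[F] H // act σ W = W} = Nat.card (H ≃ₐ[F] H) :=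
  Nat.card_congr (Equiv.subtypeUnivEquiv hs)

end PHaux2

section PH

variable {F H : Type} [Field F] [NumberField F] [Field H] [NumberField H] [Algebra F H]
  [IsGalois F H] {G : Type} [CommGroup G] [Fintype G]

open scoped Classical in
/-- The places of `H` above `S`: the `γ w_i` and the places which do not split. -/
theorem places_HF {p : ℕ} (hp : p.Prime) (hG : Nat.card G = p) {ι : G ≃* (H ≃ₐ[F] H)}
    {S T : Finset (HeightOneSpectrum (𝓞 F))} {r : ℕ} {w : Fin r → Pl H}
    {fr : HeightOneSpectrum (𝓞 F) → G} (hD : Data ι S T r w fr) :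
    ∃ (m : ℕ) (eH : (Fin r × G) ⊕ Fin m ≃ PS (ovr H S)) (eF : Fin r ⊕ Fin m ≃ PS S),
      (∀ i γ, (eH (Sum.inl (i, γ))).pl = act (ι γ) (w i)) ∧
      (∀ i, (eF (Sum.inl i)).pl = dn F (w i)) ∧
      (∀ q, (eF (Sum.inr q)).pl = dn F (eH (Sum.inr q)).pl) ∧
      (∀ q (σ : H ≃ₐ[F] H), act σ (eH (Sum.inr q)).pl = (eH (Sum.inr q)).pl) ∧
      (∀ i γ (x : F), lg (act (ι γ) (w i)) (algebraMap F H x) = lg (dn F (w i)) x) ∧
      (∀ q (x : F), lg (eH (Sum.inr q)).pl (algebraMap F H x) =
        p * lg (dn F (eH (Sum.inr q)).pl) x) := by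
  have hG' : Nat.card (H ≃ₐ[F] H) = p := by rw [← hG]; exact (Nat.card_congr ι.toEquiv).symm
  set B := {P : PS (ovr H S) // ∀ σ : H ≃ₐ[F] H, act σ P.pl = P.pl} with hB
  set m := Fintype.card B with hm
  let eB : Fin m ≃ B := (Fintype.equivFin B).symm
  have hmemγ : ∀ i γ, InS (ovr H S) (act (ι γ) (w i)) := fun i γ => by
    rw [ph_inS_ovr, dn_act]
    exact hD.mem i
  let fH : (Fin r × G) ⊕ Fin m → PS (ovr H S) :=
    Sum.elim (fun x => ph_mk (act (ι x.2) (w x.1)) (hmemγ x.1 x.2)) (fun q => (eB q).1)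
  have fHl : ∀ i γ, (fH (Sum.inl (i, γ))).pl = act (ι γ) (w i) := fun i γ => ph_mk_pl _ _
  have fHr : ∀ q, fH (Sum.inr q) = (eB q).1 := fun q => rfl
  have hp1 : ∃ σ : H ≃ₐ[F] H, σ ≠ 1 := by
    have : Nontrivial (H ≃ₐ[F] H) := by
      have : Finite (H ≃ₐ[F] H) := Nat.finite_of_card_ne_zero (by rw [hG']; exact hp.ne_zero)
      rw [← Finite.one_lt_card_iff_nontrivial, hG']
      exact hp.one_lt
    exact exists_ne 1
  obtain ⟨σ₀, hσ₀⟩ := hp1
  have hnot : ∀ i γ q, act (ι γ) (w i) ≠ (eB q).1.pl := by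
    intro i γ q h
    have h1 := (eB q).2 (ι γ * σ₀ * (ι γ)⁻¹)
    rw [← h, ← act_mul, inv_mul_cancel_right] at h1
    have h2 := ph_act_inj (hD.split i) h1
    apply hσ₀
    exact mul_eq_left.1 h2
  have hfix : ∀ {W W' : Pl H}, (∀ σ : H ≃ₐ[F] H, act σ W = W) → dn F W = dn F W' → W = W' := by
    intro W W' h1 h2
    obtain ⟨σ, hσ⟩ := act_trans h2
    rw [← hσ, h1 σ]
  have bH : Function.Bijective fH := by
    constructor
    · rintro (⟨i, γ⟩ | q) (⟨j, δ⟩ | q') h
      · have h1 := congrArg PS.pl h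
        rw [fHl, fHl] at h1
        have h2 := congrArg (dn F) h1
        rw [dn_act, dn_act] at h2
        have h3 := hD.inj i j h2
        subst h3
        have h4 := ph_act_inj (hD.split i) h1
        rw [ι.injective h4]
      · have h1 := congrArg PS.pl h
        rw [fHl, fHr] at h1
        exact absurd h1 (hnot i γ q')
      · have h1 := congrArg PS.pl h
        rw [fHl, fHr] at h1
        exact absurd h1.symm (hnot j δ q)
      · rw [fHr, fHr] at h
        rw [eB.injective (Subtype.ext h)]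
    · intro P
      rcases ph_dich hp hG' P.pl with h | h
      · obtain ⟨i, hi⟩ := hD.all P.pl (by rw [← ph_inS_ovr]; exact ph_inS P) h
        obtain ⟨σ, hσ⟩ := act_trans hi.symm
        refine ⟨Sum.inl (i, ι.symm σ), ph_pl_inj ?_⟩
        rw [fHl, MulEquiv.apply_symm_apply, hσ]
      · refine ⟨Sum.inr (eB.symm ⟨P, h⟩), ?_⟩
        rw [fHr, Equiv.apply_symm_apply]
  let fF : Fin r ⊕ Fin m → PS S :=
    Sum.elim (fun i => ph_mk (dn F (w i)) (hD.mem i))
      (fun q => ph_mk (dn F (eB q).1.pl) (by rw [← ph_inS_ovr]; exact ph_inS _))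
  have fFl : ∀ i, (fF (Sum.inl i)).pl = dn F (w i) := fun i => ph_mk_pl _ _
  have fFr : ∀ q, (fF (Sum.inr q)).pl = dn F (eB q).1.pl := fun q => ph_mk_pl _ _
  have bF : Function.Bijective fF := by
    constructor
    · rintro (i | q) (j | q') h
      · have h1 := congrArg PS.pl h
        rw [fFl, fFl] at h1
        rw [hD.inj i j h1]
      · have h1 := congrArg PS.pl h
        rw [fFl, fFr] at h1
        have h2 := hfix (eB q').2 h1.symm
        exact absurd (by rw [map_one, act_one, h2]) (hnot i 1 q')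
      · have h1 := congrArg PS.pl h
        rw [fFl, fFr] at h1
        have h2 := hfix (eB q).2 h1
        exact absurd (by rw [map_one, act_one, h2]) (hnot j 1 q)
      · have h1 := congrArg PS.pl h
        rw [fFr, fFr] at h1
        have h2 := hfix (eB q).2 h1
        rw [eB.injective (Subtype.ext (ph_pl_inj h2))]
    · intro P
      obtain ⟨W, hW⟩ := dn_surj (H := H) P.pl
      have hWS : InS S (dn F W) := by rw [hW]; exact ph_inS P
      rcases ph_dich hp hG' W with h | h
      · obtain ⟨i, hi⟩ := hD.all W hWS h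
        refine ⟨Sum.inl i, ph_pl_inj ?_⟩
        rw [fFl, ← hi, hW]
      · have hW' : InS (ovr H S) W := by rw [ph_inS_ovr]; exact hWS
        refine ⟨Sum.inr (eB.symm ⟨ph_mk W hW', fun σ => by rw [ph_mk_pl]; exact h σ⟩),
          ph_pl_inj ?_⟩
        rw [fFr, Equiv.apply_symm_apply]
        show dn F (ph_mk W hW').pl = P.pl
        rw [ph_mk_pl, hW]
  refine ⟨m, Equiv.ofBijective fH bH, Equiv.ofBijective fF bF, fHl, fFl, fFr,
    fun q σ => (eB q).2 σ, fun i γ x => ?_, fun q x => ?_⟩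
  · have hs : ∀ σ : H ≃ₐ[F] H, act σ (act (ι γ) (w i)) = act (ι γ) (w i) → σ = 1 := by
      intro σ h
      rw [← act_mul] at h
      exact mul_eq_right.1 (ph_act_inj (hD.split i) h)
    rw [lg_gal, ph_card_one hs, dn_act, Nat.cast_one, one_mul]
  · have hs : ∀ σ : H ≃ₐ[F] H, act σ (eB q).1.pl = (eB q).1.pl := (eB q).2
    show lg (eB q).1.pl (algebraMap F H x) = p * lg (dn F (eB q).1.pl) x
    rw [lg_gal, ph_card_all hs, hG']

end PH

end Pool.Agent.RSK
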