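import Pool.Agent.Lib_helper17.RS.Bas
import Pool.Agent.Lib_helper17.RS.P_UP1
import Pool.Agent.Lib_helper17.RS.P_UP3
/-!
# Rubin-Stark, block TF: torsion-freeness
-/

namespace Pool.Agent.RSK

set_option linter.unusedSectionVars false

open NumberField IsDedekindDomain Filter Topology Complex

section TF

/-- If `z` is a primitive `l`-th root of unity with `z ≡ 1 mod I`, then `l ∈ I ^ (l - 1)`. -/
theorem tf_mem_pow {R : Type} [CommRing R] [IsDomain R] {l : ℕ} (hl : 0 < l) {z : R}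
    (hz : IsPrimitiveRoot z l) {I : Ideal R} (hI : z - 1 ∈ I) : (l : R) ∈ I ^ (l - 1) := by
  obtain ⟨n, rfl⟩ : ∃ n, l = n + 1 := ⟨l - 1, by omega⟩
  have h := hz.prod_one_sub_pow_eq_order
  rw [Nat.cast_add, Nat.cast_one, ← h, Nat.add_sub_cancel]
  have h2 : ∏ k ∈ Finset.range n, (1 - z ^ (k + 1)) ∈ ∏ _k ∈ Finset.range n, I := by
    refine Ideal.prod_mem_prod fun k _ => ?_
    have h3 : z - 1 ∣ z ^ (k + 1) - 1 := by
      have := sub_dvd_pow_sub_pow z 1 (k + 1)
      rwa [one_pow] at this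
    have h4 : z ^ (k + 1) - 1 ∈ I := I.mem_of_dvd h3 hI
    have h5 := I.neg_mem h4
    rwa [neg_sub] at h5
  rwa [Finset.prod_const, Finset.card_range] at h2

/-- the residue characteristic -/
theorem tf_char {k : Type} [Field k] [NumberField k] (v : HeightOneSpectrum (𝓞 k)) {l : ℕ}
    (hl : l.Prime) (h : (l : 𝓞 k) ∈ v.asIdeal) : ringChar (𝓞 k ⧸ v.asIdeal) = l := by
  have : Nontrivial (𝓞 k ⧸ v.asIdeal) := Ideal.Quotient.nontrivial_iff.2 v.isPrime.ne_top
  have h1 : ((l : ℕ) : 𝓞 k ⧸ v.asIdeal) = 0 := by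
    rw [← map_natCast (Ideal.Quotient.mk v.asIdeal), Ideal.Quotient.eq_zero_iff_mem]
    exact h
  have h2 : ringChar (𝓞 k ⧸ v.asIdeal) ∣ l := ringChar.dvd h1
  rcases (Nat.dvd_prime hl).1 h2 with h3 | h3
  · exact absurd h3 CharP.ringChar_ne_one
  · exact h3

/-- `l ∈ v ^ n` implies `n ≤ [F : ℚ]`. -/
theorem tf_le {k : Type} [Field k] [NumberField k] (v : HeightOneSpectrum (𝓞 k)) {l n : ℕ}
    (hl : l.Prime) (h : (l : 𝓞 k) ∈ v.asIdeal ^ n) : n ≤ Module.finrank ℚ k := by
  have h1 : Ideal.absNorm (v.asIdeal ^ n) ∣ Ideal.absNorm (Ideal.span {(l : 𝓞 k)}) :=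
    Ideal.absNorm_dvd_absNorm_of_le ((Ideal.span_singleton_le_iff_mem _).2 h)
  rw [Ideal.absNorm_span_natCast, map_pow, RingOfIntegers.rank] at h1
  rcases Nat.eq_zero_or_pos n with hn | hn
  · omega
  obtain ⟨f, -, hf⟩ := (Nat.dvd_prime_pow hl).1 ((dvd_pow_self _ hn.ne').trans h1)
  have hf0 : f ≠ 0 := by
    rintro rfl
    rw [pow_zero] at hf
    exact v.isPrime.ne_top (Ideal.absNorm_eq_one_iff.1 hf)
  rw [hf, ← pow_mul] at h1
  have h2 := (Nat.pow_dvd_pow_iff_le_right hl.one_lt).1 h1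
  calc n = 1 * n := (one_mul n).symm
    _ ≤ f * n := Nat.mul_le_mul_right n (Nat.pos_of_ne_zero hf0)
    _ ≤ _ := h2

variable {F H : Type} [Field F] [NumberField F] [Field H] [NumberField H] [Algebra F H]
  {G : Type} [CommGroup G] [Fintype G]

theorem un_torsion {ι : G ≃* (H ≃ₐ[F] H)} {S T : Finset (HeightOneSpectrum (𝓞 F))} {r : ℕ}
    {w : Fin r → Pl H} {fr : HeightOneSpectrum (𝓞 F) → G} (hD : Data ι S T r w fr) {x : Hˣ}
    (hx : x ∈ Un (ovr H S) (ovr H T)) {n : ℕ} (hn : 0 < n) (h : x ^ n = 1) : x = 1 := by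
  by_contra hx1
  have hfin : IsOfFinOrder x := isOfFinOrder_iff_pow_eq_one.2 ⟨n, hn, h⟩
  have ho : orderOf x ≠ 1 := fun h => hx1 (orderOf_eq_one_iff.1 h)
  obtain ⟨l, hl, hlo⟩ := Nat.exists_prime_and_dvd ho
  obtain ⟨m, hm⟩ := hlo
  have hm0 : m ≠ 0 := by
    rintro rfl
    rw [mul_zero] at hm
    exact hfin.orderOf_pos.ne' hm
  -- an element of order `l`
  have hyo : orderOf (x ^ m) = l := by
    rw [orderOf_pow_of_dvd hm0 (by rw [hm]; exact dvd_mul_left m l), hm,
      Nat.mul_div_cancel _ (Nat.pos_of_ne_zero hm0)]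
  have hy : x ^ m ∈ Un (ovr H S) (ovr H T) := Subgroup.pow_mem _ hx m
  set y := x ^ m with hydef
  have hyp : IsPrimitiveRoot (y : H) l := by
    have h1 : IsPrimitiveRoot y l := by
      rw [← hyo]
      exact IsPrimitiveRoot.orderOf y
    exact IsPrimitiveRoot.coe_units_iff.2 h1
  have hint : IsIntegral ℤ (y : H) := hyp.isIntegral hl.pos
  obtain ⟨z, hz⟩ : ∃ z : 𝓞 H, (algebraMap (𝓞 H) H z) = (y : H) :=
    ⟨⟨(y : H), hint⟩, rfl⟩
  have hzp : IsPrimitiveRoot z l :=
    IsPrimitiveRoot.of_map_of_injective (f := algebraMap (𝓞 H) H) (by rw [hz]; exact hyp)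
      (RingOfIntegers.coe_injective)
  -- the places above `T`
  have key : ∀ W : HeightOneSpectrum (𝓞 H), W.under (𝓞 F) ∈ T →
      (l : 𝓞 H) ∈ W.asIdeal ^ (l - 1) := by
    intro W hW
    refine tf_mem_pow hl.pos hzp ?_
    have h1 := hy.2 W (mem_ovr.2 hW)
    rw [← hz, ← map_one (algebraMap (𝓞 H) H), ← map_sub, HeightOneSpectrum.valuation_of_algebraMap,
      HeightOneSpectrum.intValuation_lt_one_iff_mem] at h1
    exact h1
  have key2 : ∀ v ∈ T, ringChar (𝓞 F ⧸ v.asIdeal) = l := by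
    intro v hv
    obtain ⟨W, hW⟩ := dn_surj (F := F) (H := H) (Sum.inr v)
    rcases W with W | W
    · exact absurd hW (by simp [dn])
    · have hW' : W.under (𝓞 F) = v := Sum.inr_injective hW
      refine tf_char v hl ?_
      have h1 := key W (by rw [hW']; exact hv)
      have h2 : (l : 𝓞 H) ∈ W.asIdeal := by
        have h3 := Ideal.pow_le_self (I := W.asIdeal) (n := l - 1)
          (by have := hl.two_le; omega) h1
        exact h3
      rw [← hW']
      show algebraMap (𝓞 F) (𝓞 H) (l : 𝓞 F) ∈ W.asIdeal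
      rw [map_natCast]
      exact h2
  rcases hD.tors with ⟨v, hv, v', hv', hvv⟩ | ⟨v, hv, hvl⟩
  · exact hvv (by rw [key2 v hv, key2 v' hv'])
  · rw [key2 v hv] at hvl
    obtain ⟨W, hW⟩ := dn_surj (F := F) (H := H) (Sum.inr v)
    rcases W with W | W
    · exact absurd hW (by simp [dn])
    · have hW' : W.under (𝓞 F) = v := Sum.inr_injective hW
      have h1 := key W (by rw [hW']; exact hv)
      have hun := hD.unram W (by
        rw [hW']
        exact fun hS => Finset.disjoint_left.1 hD.disj hS hv)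
      have h2 := ordv_unr hun (l : F)
      rw [hW', map_natCast] at h2
      have hl0 : (l : 𝓞 F) ≠ 0 := Nat.cast_ne_zero.2 hl.ne_zero
      have hl0' : (l : 𝓞 H) ≠ 0 := Nat.cast_ne_zero.2 hl.ne_zero
      have h3 : WithZero.log (W.valuation H (l : H)) = WithZero.log (v.valuation F (l : F)) := by
        unfold ordv at h2
        linarith
      rw [show (l : H) = algebraMap (𝓞 H) H (l : 𝓞 H) from (map_natCast _ _).symm,
        show (l : F) = algebraMap (𝓞 F) F (l : 𝓞 F) from (map_natCast _ _).symm,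
        HeightOneSpectrum.valuation_of_algebraMap, HeightOneSpectrum.valuation_of_algebraMap] at h3
      rw [← HeightOneSpectrum.intValuation_le_pow_iff_mem,
        ← WithZero.log_le_iff_le_exp (HeightOneSpectrum.intValuation_ne_zero _ _ hl0'), h3,
        WithZero.log_le_iff_le_exp (HeightOneSpectrum.intValuation_ne_zero _ _ hl0),
        HeightOneSpectrum.intValuation_le_pow_iff_mem] at h1
      have h4 := tf_le v hl h1
      omega

end TF

end Pool.Agent.RSK
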