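import Pool.Agent.Lib_helper17.RS.Bas
import Pool.Agent.Lib_helper17.RS.BasZ
import Pool.Agent.Lib_helper17.RS.P_PF
import Pool.Agent.Lib_helper17.RS.P_UP2
import Pool.Agent.Lib_helper17.RS.P_UP3
import Pool.Agent.Lib_helper17.RS.P_PX2
import Pool.Agent.Lib_helper17.RS.P_UR
import Pool.Agent.Lib_helper17.RS.P_EX1
import Pool.Agent.Lib_helper17.RS.P_DI
import Pool.Agent.Lib_helper17.RS.P_LE
/-!
# Rubin-Stark: block L2 (helper75): adding a split place.
Uses: leadx_split (LE), data_split (DI), ext_lat (EX1), um_finite (UR), lg_ordv (PF), evQ_inj, evQ_one_nrm,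
div_exists (PX2), and lg_gal, ordv_unr, act_trans, ordv_act (UP1-3).
-/

namespace Pool.Agent.RSK

set_option linter.unusedSectionVars false

open NumberField NumberField.InfinitePlace NumberField.Units IsDedekindDomain Filter Topology
  Complex

/-! ### linear algebra -/

/-- elimination with the last row -/
theorem l2_alg {K : Type} [CommRing K] {r : ℕ} (N : Matrix (Fin (r + 1)) (Fin (r + 1)) K) (t : K)
    (φ : Fin (r + 1) → K) (j₀ : Fin (r + 1)) (hN : ∀ j, N (Fin.last r) j = t * φ j) :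
    (-1) ^ (r + (j₀ : ℕ)) * (t * φ j₀) * (Matrix.of fun i j : Fin r =>
      φ j₀ * N i.castSucc (j₀.succAbove j) - φ (j₀.succAbove j) * N i.castSucc j₀).det =
      φ j₀ ^ r * N.det := by
  classical
  set B : Matrix (Fin (r + 1)) (Fin (r + 1)) K :=
    Matrix.of fun i j => (if j = j₀ then 1 else φ j₀) * N i j with hB
  set A : Matrix (Fin (r + 1)) (Fin (r + 1)) K :=
    Matrix.of fun i j => B i j + (if j = j₀ then 0 else -φ j) * B i j₀ with hA
  have h1 : B.det = φ j₀ ^ r * N.det := by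
    rw [hB, Matrix.det_mul_row (fun j => if j = j₀ then 1 else φ j₀) N, Fin.prod_univ_succAbove _ j₀]
    simp [Fin.succAbove_ne]
  have h2 : A.det = B.det := by
    rw [← Matrix.det_transpose A, ← Matrix.det_transpose B]
    apply Matrix.det_eq_of_forall_row_eq_smul_add_const (fun j => if j = j₀ then 0 else -φ j) j₀
    · simp
    · intro i j
      rfl
  have h3 : A.det = (-1) ^ (r + (j₀ : ℕ)) * (t * φ j₀) * (Matrix.of fun i j : Fin r =>
      φ j₀ * N i.castSucc (j₀.succAbove j) - φ (j₀.succAbove j) * N i.castSucc j₀).det := by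
    rw [Matrix.det_succ_row A (Fin.last r), Finset.sum_eq_single j₀]
    · have h4 : A (Fin.last r) j₀ = t * φ j₀ := by
        rw [hA, hB]
        simp [hN]
      rw [h4, Fin.val_last]
      congr 1
      congr 1
      ext i j
      rw [Matrix.submatrix_apply, Fin.succAbove_last, hA, hB]
      simp only [Matrix.of_apply, if_neg (Fin.succAbove_ne j₀ j), if_true, one_mul]
      ring
    · intro j _ hj
      have h4 : A (Fin.last r) j = 0 := by
        rw [hA, hB]
        simp only [Matrix.of_apply, if_neg hj, if_true, one_mul, hN]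
        ring
      rw [h4]
      ring
    · intro h
      exact absurd (Finset.mem_univ _) h
  rw [← h3, h2, h1]

section GRP

variable {G : Type} [CommGroup G] [Fintype G]

theorem l2_toQ_single (g : G) (n : ℤ) :
    toQ G (MonoidAlgebra.single g n) = MonoidAlgebra.single g (n : ℚ) := by
  simp [toQ]

theorem l2_evQ_single (χ : G →* ℂˣ) (g : G) (a : ℚ) :
    evQ χ (MonoidAlgebra.single g a) = (a : ℂ) * (χ g : ℂ) := by
  unfold evQ
  rw [MonoidAlgebra.lift_single]
  simp [Algebra.smul_def]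

theorem l2_evZ_single (χ : G →* ℂˣ) (g : G) (n : ℤ) :
    evZ χ (MonoidAlgebra.single g n) = (n : ℂ) * (χ g : ℂ) := by
  unfold evZ
  rw [RingHom.comp_apply, l2_toQ_single]
  have h := l2_evQ_single χ g (n : ℚ)
  push_cast at h
  exact h

theorem l2_evR_single (χ : G →* ℂˣ) (g : G) (a : ℝ) :
    evR χ (MonoidAlgebra.single g a) = (a : ℂ) * (χ g : ℂ) := by
  unfold evR
  rw [MonoidAlgebra.lift_single]
  simp [Algebra.smul_def]

theorem l2_evQ_toQ (χ : G →* ℂˣ) (a : MonoidAlgebra ℤ G) : evQ χ (toQ G a) = evZ χ a := rfl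

theorem l2_evR_toR (χ : G →* ℂˣ) (a : MonoidAlgebra ℤ G) : evR χ (toR G a) = evZ χ a := by
  induction a using MonoidAlgebra.induction_on with
  | of g =>
    have h : MonoidAlgebra.of ℤ G g = MonoidAlgebra.single g 1 := rfl
    rw [h, l2_evZ_single]
    have h2 : toR G (MonoidAlgebra.single g 1) = MonoidAlgebra.single g (1 : ℝ) := by
      simp [toR]
    rw [h2, l2_evR_single]
    push_cast
    rfl
  | add a b ha hb => rw [map_add, map_add, map_add, ha, hb]
  | smul c a ha => rw [map_zsmul, map_zsmul, map_zsmul, ha]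

/-- if one nontrivial character does not vanish, then no one does -/
theorem l2_ne {p : ℕ} (hp : p.Prime) (hG : Nat.card G = p) (a : MonoidAlgebra ℤ G)
    {χ₀ : G →* ℂˣ} (hχ₀ : χ₀ ≠ 1) (h : evZ χ₀ a ≠ 0) {χ : G →* ℂˣ} (hχ : χ ≠ 1) : evZ χ a ≠ 0 := by
  have hpp : Fact p.Prime := ⟨hp⟩
  -- a generator
  obtain ⟨σ, hσ⟩ : ∃ σ : G, σ ≠ 1 := by
    by_contra hc
    push Not at hc
    apply hχ
    ext g
    rw [hc g, map_one, map_one]
  have hgen : ∀ g : G, ∃ k : ℕ, σ ^ k = g := by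
    intro g
    have h1 : g ∈ Submonoid.powers σ := by
      have h2 : g ∈ Subgroup.zpowers σ := mem_zpowers_of_prime_card hG hσ
      exact mem_powers_iff_mem_zpowers.mpr h2
    exact (Submonoid.mem_powers_iff g σ).mp h1
  have hprim : ∀ ψ : G →* ℂˣ, ψ ≠ 1 → IsPrimitiveRoot ((ψ σ : ℂˣ) : ℂ) p := by
    intro ψ hψ
    rw [IsPrimitiveRoot.coe_units_iff]
    have hσp : σ ^ p = 1 := by
      rw [← hG]
      exact pow_card_eq_one'
    have h1 : (ψ σ) ^ p = 1 := by
      rw [← map_pow, hσp, map_one]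
    have h2 : ψ σ ≠ 1 := by
      intro h
      apply hψ
      ext g
      obtain ⟨k, rfl⟩ := hgen g
      rw [map_pow, h, one_pow]
      rfl
    have h3 := IsPrimitiveRoot.orderOf (ψ σ)
    rwa [orderOf_eq_prime h1 h2] at h3
  -- every element is a polynomial in the generator
  obtain ⟨P, hP⟩ : ∃ P : Polynomial ℚ, ∀ ψ : G →* ℂˣ, evZ ψ a = Polynomial.aeval ((ψ σ : ℂˣ) : ℂ) P := by
    clear h
    induction a using MonoidAlgebra.induction_on with
    | of g =>
      obtain ⟨k, rfl⟩ := hgen g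
      refine ⟨Polynomial.X ^ k, fun ψ => ?_⟩
      have h : MonoidAlgebra.of ℤ G (σ ^ k) = MonoidAlgebra.single (σ ^ k) 1 := rfl
      rw [h, l2_evZ_single, map_pow, Polynomial.aeval_X_pow]
      push_cast
      ring
    | add a b ha hb =>
      obtain ⟨P, hP⟩ := ha
      obtain ⟨Q, hQ⟩ := hb
      exact ⟨P + Q, fun ψ => by rw [map_add, map_add, hP, hQ]⟩
    | smul c a ha =>
      obtain ⟨P, hP⟩ := ha
      exact ⟨c • P, fun ψ => by rw [map_zsmul, map_zsmul, hP]⟩
  intro h0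
  apply h
  rw [hP] at h0 ⊢
  have h1 : minpoly ℚ ((χ σ : ℂˣ) : ℂ) ∣ P := minpoly.dvd ℚ _ h0
  rw [← Polynomial.cyclotomic_eq_minpoly_rat (hprim χ hχ) hp.pos,
    Polynomial.cyclotomic_eq_minpoly_rat (hprim χ₀ hχ₀) hp.pos] at h1
  obtain ⟨Q, rfl⟩ := h1
  rw [map_mul, minpoly.aeval, zero_mul]

theorem l2_exists_chi {p : ℕ} (hp : p.Prime) (hG : Nat.card G = p) : ∃ χ : G →* ℂˣ, χ ≠ 1 := by
  by_contra hc
  push Not at hc
  have h1 : Nat.card (G →* ℂˣ) = p := by
    rw [CommGroup.card_monoidHom_of_hasEnoughRootsOfUnity, hG]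
  have h2 : Subsingleton (G →* ℂˣ) := ⟨fun a b => by rw [hc a, hc b]⟩
  have h3 : Nat.card (G →* ℂˣ) = 1 := Nat.card_eq_one_iff_unique.mpr ⟨h2, ⟨1⟩⟩
  rw [h1] at h3
  exact hp.one_lt.ne' h3

end GRP

section UMS

variable {F H : Type} [Field F] [NumberField F] [Field H] [NumberField H] [Algebra F H]
  {G : Type} [CommGroup G] [Fintype G] {ι : G ≃* (H ≃ₐ[F] H)}
  {S T : Finset (HeightOneSpectrum (𝓞 F))}

theorem l2_smul_of {A B : Type} [AddCommGroup A] [Module (MonoidAlgebra ℤ G) A] [AddCommGroup B]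
    [Module (MonoidAlgebra ℤ G) B] (φ : A →+ B)
    (h : ∀ (g : G) (u : A), φ (MonoidAlgebra.single g (1 : ℤ) • u) =
      MonoidAlgebra.single g (1 : ℤ) • φ u) (a : MonoidAlgebra ℤ G) (u : A) :
    φ (a • u) = a • φ u := by
  induction a using MonoidAlgebra.induction_on with
  | of g =>
    have h' : MonoidAlgebra.of ℤ G g = MonoidAlgebra.single g 1 := rfl
    rw [h', h]
  | add a b ha hb => rw [add_smul, map_add, add_smul, ha, hb]
  | smul c a ha =>
    have h1 : (c • a) • u = c • (a • u) := smul_assoc c a u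
    have h2 : (c • a) • φ u = c • (a • φ u) := smul_assoc c a (φ u)
    rw [h1, map_zsmul, ha, h2]

/-- the place `γ W` -/
noncomputable def l2_pl (ι : G ≃* (H ≃ₐ[F] H)) (W : HeightOneSpectrum (𝓞 H)) (γ : G) :
    HeightOneSpectrum (𝓞 H) :=
  HeightOneSpectrum.equivOfRingEquiv (RingOfIntegers.mapRingEquiv (ι γ).toRingEquiv) W

theorem l2_act (W : HeightOneSpectrum (𝓞 H)) (γ : G) :
    act (ι γ) (Sum.inr W : Pl H) = Sum.inr (l2_pl ι W γ) := rfl

theorem l2_pl_mul (W : HeightOneSpectrum (𝓞 H)) (g γ : G) :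
    l2_pl ι W (g * γ) = HeightOneSpectrum.equivOfRingEquiv
      (RingOfIntegers.mapRingEquiv (ι g).toRingEquiv) (l2_pl ι W γ) := by
  have h := act_mul (ι g) (ι γ) (Sum.inr W : Pl H)
  rw [← map_mul, l2_act, l2_act] at h
  exact Sum.inr_injective h

/-- the additive map `u ↦ ∑_γ ord_{γ W}(u) γ` -/
noncomputable def l2_fAdd (ι : G ≃* (H ≃ₐ[F] H)) (S T : Finset (HeightOneSpectrum (𝓞 F)))
    (W : HeightOneSpectrum (𝓞 H)) : UM ι S T →+ MonoidAlgebra ℤ G where
  toFun u := ∑ γ : G, MonoidAlgebra.single γ (ordv (l2_pl ι W γ) (u.val : H))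
  map_zero' := by
    refine Finset.sum_eq_zero fun γ _ => ?_
    rw [UM.val_zero, Units.val_one, ordv_one, MonoidAlgebra.single_zero]
  map_add' u v := by
    rw [← Finset.sum_add_distrib]
    refine Finset.sum_congr rfl fun γ _ => ?_
    rw [UM.val_add, ordv_mul, MonoidAlgebra.single_add]

theorem l2_fAdd_single (W : HeightOneSpectrum (𝓞 H)) (g : G) (u : UM ι S T) :
    l2_fAdd ι S T W (MonoidAlgebra.single g (1 : ℤ) • u) =
      MonoidAlgebra.single g (1 : ℤ) * l2_fAdd ι S T W u := by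
  show ∑ γ : G, MonoidAlgebra.single γ (ordv (l2_pl ι W γ)
    ((MonoidAlgebra.single g (1 : ℤ) • u : UM ι S T).val : H)) =
      MonoidAlgebra.single g (1 : ℤ) * ∑ γ : G, MonoidAlgebra.single γ (ordv (l2_pl ι W γ) (u.val : H))
  rw [Finset.mul_sum, ← Equiv.sum_comp (Equiv.mulLeft g)]
  refine Finset.sum_congr rfl fun γ _ => ?_
  rw [Equiv.coe_mulLeft, MonoidAlgebra.single_mul_single, one_mul, um_single_smul, l2_pl_mul]
  have h : ((ι g • u.val : Hˣ) : H) = ι g (u.val : H) := rfl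
  rw [h, ordv_act]

/-- the map `u ↦ ∑_γ ord_{γ W}(u) γ` -/
noncomputable def l2_f (ι : G ≃* (H ≃ₐ[F] H)) (S T : Finset (HeightOneSpectrum (𝓞 F)))
    (W : HeightOneSpectrum (𝓞 H)) : UM ι S T →ₗ[MonoidAlgebra ℤ G] MonoidAlgebra ℤ G where
  toFun := l2_fAdd ι S T W
  map_add' := map_add _
  map_smul' a u := l2_smul_of (l2_fAdd ι S T W) (fun g u => l2_fAdd_single W g u) a u

theorem l2_f_apply (W : HeightOneSpectrum (𝓞 H)) (u : UM ι S T) :
    l2_f ι S T W u = ∑ γ : G, MonoidAlgebra.single γ (ordv (l2_pl ι W γ) (u.val : H)) := rfl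

theorem l2_wl_apply (W : Pl H) (u : UM ι S T) :
    wl ι S T W u = ∑ γ : G, MonoidAlgebra.single γ (lg (act (ι γ) W) (u.val : H)) := rfl

theorem l2_evR_wl (χ : G →* ℂˣ) (W : HeightOneSpectrum (𝓞 H)) (u : UM ι S T) :
    evR χ (wl ι S T (Sum.inr W) u) = (-(Real.log (nv W) : ℝ) : ℂ) * evZ χ (l2_f ι S T W u) := by
  rw [l2_wl_apply, l2_f_apply, map_sum, map_sum, Finset.mul_sum]
  apply Finset.sum_congr rfl
  intro γ _
  rw [l2_evR_single, l2_evZ_single, l2_act, lg_ordv _ u.val.ne_zero]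
  have h : nv (l2_pl ι W γ) = nv W := nv_equiv _ W
  rw [h]
  push_cast
  ring

theorem l2_ordv_zero {v : HeightOneSpectrum (𝓞 H)} {x : H} (hx : x ≠ 0) (h : ordv v x = 0) :
    v.valuation H x = 1 := by
  unfold ordv at h
  rw [neg_eq_zero] at h
  have h1 : v.valuation H x ≠ 0 := (map_ne_zero _).mpr hx
  have h2 := WithZero.exp_log h1
  rw [h, WithZero.exp_zero] at h2
  exact h2.symm

theorem l2_f_zero [IsGalois F H] {v : HeightOneSpectrum (𝓞 F)} {hv : v ∉ S} {W : HeightOneSpectrum (𝓞 H)}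
    (hW : W.under (𝓞 F) = v) (u : UM ι (Finset.cons v S hv) T)
    (h : l2_f ι (Finset.cons v S hv) T W u = 0) : u.val ∈ Un (ovr H S) (ovr H T) := by
  classical
  have hmem := u.val_mem
  refine ⟨fun w hw => ?_, hmem.2⟩
  by_cases hwv : w.under (𝓞 F) = v
  · have hdn : dn F (Sum.inr W : Pl H) = dn F (Sum.inr w : Pl H) := by
      show (Sum.inr (W.under (𝓞 F)) : Pl F) = Sum.inr (w.under (𝓞 F))
      rw [hW, hwv]
    obtain ⟨τ, hτ⟩ := act_trans hdn
    obtain ⟨γ, rfl⟩ := ι.surjective τ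
    rw [l2_act] at hτ
    have hγ : l2_pl ι W γ = w := Sum.inr_injective hτ
    have h1 : ordv (l2_pl ι W γ) (u.val : H) = 0 := by
      have h2 := congrArg (fun a : MonoidAlgebra ℤ G => a.coeff γ) h
      rw [l2_f_apply] at h2
      simp only [MonoidAlgebra.coeff_sum, MonoidAlgebra.coeff_single, Finsupp.finsetSum_apply,
        Finsupp.single_apply, MonoidAlgebra.coeff_zero, Finsupp.coe_zero, Pi.zero_apply,
        Finset.sum_ite_eq', Finset.mem_univ, if_true] at h2
      exact h2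
    rw [hγ] at h1
    exact l2_ordv_zero u.val.ne_zero h1
  · apply hmem.1
    rw [mem_ovr] at hw ⊢
    rw [Finset.mem_cons, not_or]
    exact ⟨hwv, hw⟩

/-- the inclusion -/
noncomputable def l2_inc (ι : G ≃* (H ≃ₐ[F] H)) (T : Finset (HeightOneSpectrum (𝓞 F)))
    {v : HeightOneSpectrum (𝓞 F)} (hv : v ∉ S) :
    UM ι S T →ₗ[MonoidAlgebra ℤ G] UM ι (Finset.cons v S hv) T where
  toFun u := UM.mk u.val ⟨fun w hw => u.val_mem.1 w (fun hc => hw (by
    rw [mem_ovr] at hc ⊢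
    exact Finset.mem_cons_of_mem hc)), u.val_mem.2⟩
  map_add' u u' := UM.ext rfl
  map_smul' a u := by
    let φ : UM ι S T →+ UM ι (Finset.cons v S hv) T :=
      { toFun := fun u => UM.mk u.val ⟨fun w hw => u.val_mem.1 w (fun hc => hw (by
          rw [mem_ovr] at hc ⊢
          exact Finset.mem_cons_of_mem hc)), u.val_mem.2⟩
        map_zero' := UM.ext rfl
        map_add' := fun u u' => UM.ext rfl }
    exact l2_smul_of φ (fun g u => UM.ext (by
      rw [um_single_smul]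
      show (MonoidAlgebra.single g (1 : ℤ) • u : UM ι S T).val = ι g • u.val
      rw [um_single_smul])) a u

theorem l2_inc_val {v : HeightOneSpectrum (𝓞 F)} (hv : v ∉ S) (u : UM ι S T) :
    (l2_inc ι T hv u).val = u.val := rfl

theorem l2_inc_inj {v : HeightOneSpectrum (𝓞 F)} (hv : v ∉ S) :
    Function.Injective (l2_inc (S := S) ι T hv) := by
  intro u u' h
  apply UM.ext
  have h1 := congrArg UM.val h
  rwa [l2_inc_val, l2_inc_val] at h1

theorem l2_f_inc {v : HeightOneSpectrum (𝓞 F)} (hv : v ∉ S) {W : HeightOneSpectrum (𝓞 H)}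
    (hW : W.under (𝓞 F) = v) (u : UM ι S T) :
    l2_f ι (Finset.cons v S hv) T W (l2_inc ι T hv u) = 0 := by
  rw [l2_f_apply]
  apply Finset.sum_eq_zero
  intro γ _
  have h1 : (l2_pl ι W γ).under (𝓞 F) = v := by
    have h2 := dn_act (ι γ) (Sum.inr W : Pl H)
    rw [l2_act] at h2
    have h3 : (Sum.inr ((l2_pl ι W γ).under (𝓞 F)) : Pl F) = Sum.inr (W.under (𝓞 F)) := h2
    rw [Sum.inr_injective h3, hW]
  have h4 : (l2_pl ι W γ).valuation H (u.val : H) = 1 := by
    apply u.val_mem.1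
    rw [mem_ovr, h1]
    exact hv
  have h5 : ordv (l2_pl ι W γ) ((l2_inc ι T hv u).val : H) = 0 := by
    rw [l2_inc_val]
    unfold ordv
    rw [h4, WithZero.log_one, neg_zero]
  rw [h5, MonoidAlgebra.single_zero]

theorem l2_mem_range [IsGalois F H] {v : HeightOneSpectrum (𝓞 F)} (hv : v ∉ S)
    {W : HeightOneSpectrum (𝓞 H)} (hW : W.under (𝓞 F) = v) (u : UM ι (Finset.cons v S hv) T)
    (h : l2_f ι (Finset.cons v S hv) T W u = 0) : ∃ u' : UM ι S T, l2_inc ι T hv u' = u :=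
  ⟨UM.mk u.val (l2_f_zero hW u h), UM.ext rfl⟩

theorem l2_sat [IsGalois F H] {v : HeightOneSpectrum (𝓞 F)} (hv : v ∉ S)
    {W : HeightOneSpectrum (𝓞 H)} (hW : W.under (𝓞 F) = v) (n : ℤ)
    (u : UM ι (Finset.cons v S hv) T) (hn : n ≠ 0) (h : n • u ∈ LinearMap.range (l2_inc (S := S) ι T hv)) :
    u ∈ LinearMap.range (l2_inc (S := S) ι T hv) := by
  obtain ⟨u', hu'⟩ := h
  have h1 := l2_f_inc (ι := ι) (T := T) hv hW u'
  rw [hu', map_zsmul] at h1
  have h2 : l2_f ι (Finset.cons v S hv) T W u = 0 := by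
    ext g
    have h3 := congrArg (fun a : MonoidAlgebra ℤ G => a.coeff g) h1
    simp only [MonoidAlgebra.coeff_smul, Finsupp.smul_apply, MonoidAlgebra.coeff_zero,
      Finsupp.coe_zero, Pi.zero_apply, smul_eq_mul] at h3
    rcases mul_eq_zero.mp h3 with h4 | h4
    · exact absurd h4 hn
    · rw [h4]
      rfl
  obtain ⟨u'', hu''⟩ := l2_mem_range hv hW u h2
  exact ⟨u'', hu''⟩

theorem l2_nv [IsGalois F H] {r : ℕ} {w : Fin r → Pl H} {fr : HeightOneSpectrum (𝓞 F) → G}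
    (hD : Data ι S T r w fr) {v : HeightOneSpectrum (𝓞 F)} (hv : v ∉ S)
    {W : HeightOneSpectrum (𝓞 H)} (hW : W.under (𝓞 F) = v)
    (hsplit : ∀ σ : H ≃ₐ[F] H, act σ (Sum.inr W : Pl H) = Sum.inr W → σ = 1) :
    Real.log (nv W) = Real.log (nv v) := by
  obtain ⟨x, hx⟩ := v.valuation_exists_uniformizer F
  have hx0 : x ≠ 0 := by
    rintro rfl
    rw [map_zero] at hx
    exact WithZero.exp_ne_zero hx.symm
  have h1 := lg_gal (F := F) (Sum.inr W : Pl H) x
  have hcard : Nat.card {σ : H ≃ₐ[F] H // act σ (Sum.inr W : Pl H) = Sum.inr W} = 1 := by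
    rw [Nat.card_eq_one_iff_unique]
    refine ⟨⟨fun a b => Subtype.ext ?_⟩, ⟨⟨1, act_one _⟩⟩⟩
    rw [hsplit a.1 a.2, hsplit b.1 b.2]
  have hdn : dn F (Sum.inr W : Pl H) = Sum.inr v := by
    show (Sum.inr (W.under (𝓞 F)) : Pl F) = Sum.inr v
    rw [hW]
  have hx0' : algebraMap F H x ≠ 0 := by
    rw [Ne, map_eq_zero]
    exact hx0
  rw [hcard, hdn, lg_ordv _ hx0', lg_ordv _ hx0] at h1
  have hun : Algebra.IsUnramifiedAt (𝓞 F) W.asIdeal := hD.unram W (by rw [hW]; exact hv)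
  rw [ordv_unr hun, hW] at h1
  have hord : ordv v x = 1 := by
    unfold ordv
    rw [hx, WithZero.log_exp]
    norm_num
  rw [hord] at h1
  push_cast at h1
  linarith

end UMS

section MAIN

variable {F H : Type} [Field F] [NumberField F] [Field H] [NumberField H] [Algebra F H]
  [IsGalois F H] {G : Type} [CommGroup G] [Fintype G] {p : ℕ} {ι : G ≃* (H ≃ₐ[F] H)}
  {S T : Finset (HeightOneSpectrum (𝓞 F))} {r : ℕ} {w : Fin r → Pl H}
  {fr : HeightOneSpectrum (𝓞 F) → G}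

theorem lc_split (hp : p.Prime) (hG : Nat.card G = p) (hD : Data ι S T r w fr) {l : ℕ}
    (hl : l.Prime) {v : HeightOneSpectrum (𝓞 F)} (hv : v ∉ S) (hvT : v ∉ T)
    (hfr : fr v = 1) {W : HeightOneSpectrum (𝓞 H)} (hW : W.under (𝓞 F) = v)
    (h : LCore ι (Finset.cons v S hv) T (Fin.snoc (α := fun _ => Pl H) w (Sum.inr W)) fr l) :
    LCore ι S T w fr l := by
  classical
  obtain ⟨c₁, hc₁, hne₁, b₁, x₁, hcore, hint⟩ := h
  have hD₁ := data_split hD hv hvT hfr hW
  have hfin : Module.Finite ℤ (UM ι (Finset.cons v S hv) T) := um_finite hD₁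
  have hspl : ∀ σ : H ≃ₐ[F] H, act σ (Sum.inr W : Pl H) = Sum.inr W → σ = 1 := by
    have h1 := hD₁.split (Fin.last r)
    rw [Fin.snoc_last] at h1
    exact h1
  have hlog := l2_nv hD hv hW hspl
  have hL0 : Real.log (nv v) ≠ 0 := by
    have h2 := nv_two_le v
    have h3 : (1 : ℝ) < nv v := by exact_mod_cast (show 1 < nv v by omega)
    exact (Real.log_pos h3).ne'
  have hL0' : ((Real.log (nv v) : ℝ) : ℂ) ≠ 0 := by exact_mod_cast hL0
  set f := l2_f ι (Finset.cons v S hv) T W with hf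
  set φ : Fin (r + 1) → MonoidAlgebra ℤ G := fun j => f (b₁ j) with hφd
  -- the matrices of logarithms
  set N : (G →* ℂˣ) → Matrix (Fin (r + 1)) (Fin (r + 1)) ℂ := fun χ =>
    (wmat ι (Finset.cons v S hv) T (Fin.snoc (α := fun _ => Pl H) w (Sum.inr W)) b₁).map (evR χ) with hN
  have hNdet : ∀ χ, evR χ (wmat ι (Finset.cons v S hv) T
      (Fin.snoc (α := fun _ => Pl H) w (Sum.inr W)) b₁).det = (N χ).det := by
    intro χ
    exact RingHom.map_det (evR χ : MonoidAlgebra ℝ G →+* ℂ) _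
  have hNlast : ∀ χ j, N χ (Fin.last r) j = (-(Real.log (nv v) : ℝ) : ℂ) * evZ χ (φ j) := by
    intro χ j
    have h1 := l2_evR_wl (ι := ι) (S := Finset.cons v S hv) (T := T) χ W (b₁ j)
    rw [hlog] at h1
    show evR χ (wl ι (Finset.cons v S hv) T
      (Fin.snoc (α := fun _ => Pl H) w (Sum.inr W) (Fin.last r)) (b₁ j)) = _
    rw [Fin.snoc_last]
    exact h1
  have hdetne : ∀ χ, χ ≠ 1 → (N χ).det ≠ 0 := by
    intro χ hχ h0
    have h1 := hcore.value χ hχ
    rw [hNdet, h0, mul_zero] at h1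
    refine hne₁ χ⁻¹ (fun h2 => hχ ?_) h1.symm
    ext g
    have h3 := congrArg (fun ψ : G →* ℂˣ => ψ g) h2
    simp only [MonoidHom.inv_apply, MonoidHom.one_apply, inv_eq_one] at h3
    rw [h3]
    rfl
  obtain ⟨χ₀, hχ₀⟩ := l2_exists_chi hp hG
  obtain ⟨j₀, hj₀⟩ : ∃ j₀, evZ χ₀ (φ j₀) ≠ 0 := by
    by_contra hc
    push Not at hc
    apply hdetne χ₀ hχ₀
    apply Matrix.det_eq_zero_of_row_eq_zero (Fin.last r)
    intro j
    rw [hNlast, hc j, mul_zero]
  have hφ : ∀ χ : G →* ℂˣ, χ ≠ 1 → evZ χ (φ j₀) ≠ 0 := fun χ hχ => l2_ne hp hG _ hχ₀ hj₀ hχ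
  -- the new elements
  set y : Fin r → UM ι (Finset.cons v S hv) T := fun j =>
    φ j₀ • b₁ (j₀.succAbove j) - φ (j₀.succAbove j) • b₁ j₀ with hy
  have hyf : ∀ j, f (y j) = 0 := by
    intro j
    rw [hy]
    simp only [map_sub, map_smul, smul_eq_mul]
    show φ j₀ * φ (j₀.succAbove j) - φ (j₀.succAbove j) * φ j₀ = 0
    ring
  have hyex : ∀ j, ∃ u' : UM ι S T, l2_inc ι T hv u' = y j := fun j => l2_mem_range hv hW (y j) (hyf j)
  choose b hb using hyex
  set s := r + (j₀ : ℕ) with hs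
  obtain ⟨z, hz1, hz2⟩ := div_exists hp hG ((-1) ^ (s + 1) * (x₁ * toQ G (φ j₀))) (toQ G (φ j₀ ^ r))
    (fun χ hχ => by
      rw [l2_evQ_toQ, map_pow]
      exact pow_ne_zero r (hφ χ hχ))
  have hz3 : ∀ χ : G →* ℂˣ, χ ≠ 1 → evQ χ z * evZ χ (φ j₀) ^ r =
      (-1) ^ (s + 1) * (evQ χ x₁ * evZ χ (φ j₀)) := by
    intro χ hχ
    have h1 := hz2 χ hχ
    rw [l2_evQ_toQ, map_pow, map_mul, map_mul, map_pow, map_neg, map_one, l2_evQ_toQ] at h1
    exact h1
  refine ⟨fun χ => c₁ χ / (Real.log (nv v) : ℂ), leadx_split hv hfr hc₁,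
    fun χ hχ => div_ne_zero (hne₁ χ hχ) hL0', b, z, ⟨?_, hz1, ?_⟩, ?_⟩
  · -- norm zero
    intro j
    apply l2_inc_inj (S := S) (ι := ι) (T := T) hv
    rw [map_smul, hb, map_zero, hy]
    simp only
    rw [smul_sub, smul_comm, hcore.minus, smul_zero, smul_comm (nrm G), hcore.minus, smul_zero,
      sub_zero]
  · -- the value
    intro χ hχ
    have hwl : ∀ (i : Fin r) (j : Fin r), evR χ (wl ι S T (w i) (b j)) =
        evZ χ (φ j₀) * N χ i.castSucc (j₀.succAbove j) - evZ χ (φ (j₀.succAbove j)) * N χ i.castSucc j₀ := by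
      intro i j
      have h1 : wl ι S T (w i) (b j) = wl ι (Finset.cons v S hv) T (w i) (y j) := by
        rw [← hb j]
        rfl
      have h2 : ∀ k, N χ i.castSucc k = evR χ (wl ι (Finset.cons v S hv) T (w i) (b₁ k)) := by
        intro k
        show evR χ (wl ι (Finset.cons v S hv) T
          (Fin.snoc (α := fun _ => Pl H) w (Sum.inr W) i.castSucc) (b₁ k)) = _
        rw [Fin.snoc_castSucc]
      have h3 : ∀ (a : MonoidAlgebra ℤ G) (q : MonoidAlgebra ℝ G), evR χ (a • q) = evZ χ a * evR χ q := by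
        intro a q
        have h4 : a • q = toR G a * q := rfl
        rw [h4, map_mul, l2_evR_toR]
      rw [h1, h2, h2, hy]
      simp only [map_sub, map_smul, h3]
    have hdet : evR χ (wmat ι S T w b).det = (Matrix.of fun i j : Fin r =>
        evZ χ (φ j₀) * N χ i.castSucc (j₀.succAbove j) -
          evZ χ (φ (j₀.succAbove j)) * N χ i.castSucc j₀).det := by
      have h1 := RingHom.map_det (evR χ : MonoidAlgebra ℝ G →+* ℂ) (wmat ι S T w b)
      refine h1.trans ?_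
      congr 1
      ext i j
      exact hwl i j
    have halg := l2_alg (N χ) (-(Real.log (nv v) : ℝ) : ℂ) (fun j => evZ χ (φ j)) j₀ (hNlast χ)
    rw [← hdet] at halg
    have hval := hcore.value χ hχ
    rw [hNdet] at hval
    have h5 := hz3 χ hχ
    have hφr : evZ χ (φ j₀) ^ r ≠ 0 := pow_ne_zero r (hφ χ hχ)
    rw [eq_div_iff hL0']
    apply mul_left_cancel₀ hφr
    generalize evR χ (wmat ι S T w b).det = D at *
    generalize (N χ).det = D₁ at *
    generalize evZ χ (φ j₀) = a at *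
    generalize evQ χ z = z' at *
    generalize evQ χ x₁ = x' at *
    generalize ((Real.log (nv v) : ℝ) : ℂ) = L at *
    rw [pow_succ] at h5
    linear_combination D * L * h5 + x' * halg + a ^ r * hval
  · -- integrality
    intro ψ
    have hext : ∀ i, ∃ ψ₁ : UM ι (Finset.cons v S hv) T →ₗ[MonoidAlgebra ℤ G] MonoidAlgebra ℤ G,
        ∀ u, ψ₁ (l2_inc ι T hv u) = ψ i u := fun i =>
      ext_lat (l2_inc ι T hv) (l2_inc_inj hv) (fun n u hn hu => l2_sat hv hW n u hn hu) (ψ i)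
    choose ψ₁ hψ₁ using hext
    set ψ' : Fin (r + 1) → (UM ι (Finset.cons v S hv) T →ₗ[MonoidAlgebra ℤ G] MonoidAlgebra ℤ G) :=
      Fin.snoc (α := fun _ => UM ι (Finset.cons v S hv) T →ₗ[MonoidAlgebra ℤ G] MonoidAlgebra ℤ G)
        ψ₁ f with hψ'
    obtain ⟨k, a, hk, ha⟩ := hint ψ'
    refine ⟨k, -a, hk, ?_⟩
    have halg := l2_alg (pmat ψ' b₁) 1 φ j₀ (fun j => by
      show ψ' (Fin.last r) (b₁ j) = 1 * φ j
      rw [hψ', Fin.snoc_last, one_mul])
    have hdet : (Matrix.of fun i j : Fin r => φ j₀ * pmat ψ' b₁ i.castSucc (j₀.succAbove j) -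
        φ (j₀.succAbove j) * pmat ψ' b₁ i.castSucc j₀) = pmat ψ b := by
      ext1 i j
      show φ j₀ * ψ' i.castSucc (b₁ (j₀.succAbove j)) - φ (j₀.succAbove j) * ψ' i.castSucc (b₁ j₀) =
        ψ i (b j)
      rw [hψ', Fin.snoc_castSucc, ← hψ₁ i (b j), hb j, hy]
      simp only [map_sub, map_smul, smul_eq_mul]
    rw [hdet] at halg
    have hkey : z * toQ G (pmat ψ b).det = -(x₁ * toQ G (pmat ψ' b₁).det) := by
      apply evQ_inj
      intro χ
      by_cases hχ : χ = 1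
      · subst hχ
        rw [map_mul, map_neg, map_mul, (evQ_one_nrm z).mp hz1, (evQ_one_nrm x₁).mp hcore.xminus]
        ring
      · have h5 := hz3 χ hχ
        have hφr : evZ χ (φ j₀) ^ r ≠ 0 := pow_ne_zero r (hφ χ hχ)
        have h6 := congrArg (evZ χ) halg
        simp only [map_mul, map_pow, map_neg, map_one] at h6
        rw [map_mul, map_neg, map_mul, l2_evQ_toQ, l2_evQ_toQ]
        apply mul_left_cancel₀ hφr
        rw [pow_succ] at h5
        generalize evZ χ (pmat ψ b).det = D at *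
        generalize evZ χ (pmat ψ' b₁).det = D₁ at *
        generalize evZ χ (φ j₀) = a at *
        linear_combination D * h5 - evQ χ x₁ * h6
    rw [hkey, map_neg, ← ha]
    ring

end MAIN

end Pool.Agent.RSK
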