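import Pool.Agent.Lib_helper17.RS.Bas
import Pool.Agent.Lib_helper17.RS.P_EX1
/-! Rubin-Stark, block EX2: the kernel of a homomorphism to a cyclic module. -/

namespace Pool.Agent.RSK

set_option linter.unusedSectionVars false

section EX2

/-- Rank one update of a determinant. -/
theorem ex2_det {r : ℕ} {R : Type*} [CommRing R] (B : Matrix (Fin r) (Fin r) R)
    (c v : Fin r → R) :
    Matrix.det (Matrix.of fun i j => B i j + c i * v j) =
      B.det + ∑ k, c k * (B.updateRow k v).det := by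
  classical
  have key : ∀ s : Finset (Fin r),
      Matrix.det (Matrix.of fun i j => B i j + (if i ∈ s then c i else 0) * v j) =
      B.det + ∑ k ∈ s, c k * (B.updateRow k v).det := by
    intro s
    induction s using Finset.induction_on with
    | empty => simp; rfl
    | insert k s hk ih =>
      set A0 : Matrix (Fin r) (Fin r) R :=
        Matrix.of fun i j => B i j + (if i ∈ s then c i else 0) * v j with hA0
      have hA : (Matrix.of fun i j => B i j + (if i ∈ insert k s then c i else 0) * v j) =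
          A0.updateRow k (A0 k + c k • v) := by
        ext i j
        rw [Matrix.updateRow_apply]
        by_cases hi : i = k
        · subst hi
          simp [hA0, hk]
        · simp [hA0, hi, Finset.mem_insert]
      have h2 : (A0.updateRow k v).det = (B.updateRow k v).det := by
        apply Matrix.det_eq_of_forall_row_eq_smul_add_const (fun i => if i ∈ s then c i else 0) k
          (by simp [hk])
        intro i j
        rw [Matrix.updateRow_apply, Matrix.updateRow_apply, Matrix.updateRow_self]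
        by_cases hi : i = k
        · subst hi; simp [hk]
        · simp [hA0, hi]
      rw [hA, Matrix.det_updateRow_add, Matrix.det_updateRow_smul, Matrix.updateRow_eq_self, ih,
        h2, Finset.sum_insert hk]
      ring
  have := key Finset.univ
  simpa using this

variable {G : Type} [CommGroup G] [Fintype G]

theorem ex2_fin : IsNoetherian ℤ (MonoidAlgebra ℤ G) := by
  have : Module.Finite ℤ (MonoidAlgebra ℤ G) := inferInstance
  infer_instance

theorem ex2_tf (n : ℤ) (hn : n ≠ 0) (a : MonoidAlgebra ℤ G) (h : n • a = 0) : a = 0 := by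
  apply MonoidAlgebra.ext
  ext g
  have h1 : (n • a).coeff g = 0 := by rw [h]; rfl
  rw [MonoidAlgebra.coeff_smul, Finsupp.smul_apply, smul_eq_mul] at h1
  exact (mul_eq_zero.1 h1).resolve_left hn

/-- The fibre product. -/
noncomputable def ex2_P {M Q : Type} [AddCommGroup M] [Module (MonoidAlgebra ℤ G) M] [AddCommGroup Q]
    [Module (MonoidAlgebra ℤ G) Q] (f : M →ₗ[MonoidAlgebra ℤ G] Q)
    (q : MonoidAlgebra ℤ G →ₗ[MonoidAlgebra ℤ G] Q) :
    Submodule (MonoidAlgebra ℤ G) (M × MonoidAlgebra ℤ G) :=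
  LinearMap.ker (f ∘ₗ LinearMap.fst _ _ _ - q ∘ₗ LinearMap.snd _ _ _)

theorem ex2_memP {M Q : Type} [AddCommGroup M] [Module (MonoidAlgebra ℤ G) M] [AddCommGroup Q]
    [Module (MonoidAlgebra ℤ G) Q] (f : M →ₗ[MonoidAlgebra ℤ G] Q)
    (q : MonoidAlgebra ℤ G →ₗ[MonoidAlgebra ℤ G] Q) (m : M) (a : MonoidAlgebra ℤ G) :
    (m, a) ∈ ex2_P f q ↔ f m = q a := by
  rw [ex2_P, LinearMap.mem_ker, LinearMap.sub_apply, sub_eq_zero]
  rfl

/-- `P` is finite. -/
theorem ex2_Pfin {M Q : Type} [AddCommGroup M] [Module (MonoidAlgebra ℤ G) M] [AddCommGroup Q]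
    [Module (MonoidAlgebra ℤ G) Q] [Module.Finite ℤ M] (f : M →ₗ[MonoidAlgebra ℤ G] Q)
    (q : MonoidAlgebra ℤ G →ₗ[MonoidAlgebra ℤ G] Q) : Module.Finite ℤ (ex2_P f q) := by
  have h1 : IsNoetherian ℤ M := inferInstance
  have h2 : IsNoetherian ℤ (MonoidAlgebra ℤ G) := ex2_fin
  have h3 : IsNoetherian ℤ (M × MonoidAlgebra ℤ G) := inferInstance
  exact Module.Finite.of_injective (N := M × MonoidAlgebra ℤ G)
    ((ex2_P f q).subtype.toAddMonoidHom.toIntLinearMap) (Subtype.val_injective)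

/-- descending along the surjection `P -> M` -/
theorem ex2_desc {M Q : Type} [AddCommGroup M] [Module (MonoidAlgebra ℤ G) M] [AddCommGroup Q]
    [Module (MonoidAlgebra ℤ G) Q] {δ : MonoidAlgebra ℤ G}
    (f : M →ₗ[MonoidAlgebra ℤ G] Q)
    (q : MonoidAlgebra ℤ G →ₗ[MonoidAlgebra ℤ G] Q) (hq : Function.Surjective q)
    (hqk : ∀ a, q a = 0 ↔ ∃ b, a = δ * b) (χ : ex2_P f q →ₗ[MonoidAlgebra ℤ G] MonoidAlgebra ℤ G)
    (hχ : ∀ (a : MonoidAlgebra ℤ G) (h : ((0 : M), δ * a) ∈ ex2_P f q), χ ⟨(0, δ * a), h⟩ = 0) :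
    ∃ ψ : M →ₗ[MonoidAlgebra ℤ G] MonoidAlgebra ℤ G,
      ∀ (m : M) (a : MonoidAlgebra ℤ G) (h : (m, a) ∈ ex2_P f q), ψ m = χ ⟨(m, a), h⟩ := by
  classical
  let pr : ex2_P f q →ₗ[MonoidAlgebra ℤ G] M := LinearMap.fst _ _ _ ∘ₗ (ex2_P f q).subtype
  have hpr : Function.Surjective pr := by
    intro m
    obtain ⟨a, ha⟩ := hq (f m)
    exact ⟨⟨(m, a), (ex2_memP f q m a).2 ha.symm⟩, rfl⟩
  have hker : LinearMap.ker pr ≤ LinearMap.ker χ := by
    rintro ⟨⟨m, a⟩, h⟩ hm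
    have hm0 : m = 0 := hm
    subst hm0
    have h1 := (ex2_memP f q 0 a).1 h
    rw [map_zero] at h1
    obtain ⟨b, rfl⟩ := (hqk a).1 h1.symm
    exact hχ b h
  let ψ : M →ₗ[MonoidAlgebra ℤ G] MonoidAlgebra ℤ G :=
    ((LinearMap.ker pr).liftQ χ hker) ∘ₗ
      ((pr.quotKerEquivOfSurjective hpr).symm : M →ₗ[MonoidAlgebra ℤ G] _)
  refine ⟨ψ, ?_⟩
  intro m a h
  have h1 : (pr.quotKerEquivOfSurjective hpr).symm m =
      (LinearMap.ker pr).mkQ ⟨(m, a), h⟩ := by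
    rw [LinearEquiv.symm_apply_eq]
    rfl
  show ((LinearMap.ker pr).liftQ χ hker) ((pr.quotKerEquivOfSurjective hpr).symm m) = _
  rw [h1]
  rfl

/-- The kernel of a homomorphism to a cyclic module, general form. -/
theorem ex2_main {M M' Q : Type} [AddCommGroup M] [Module (MonoidAlgebra ℤ G) M]
    [AddCommGroup M'] [Module (MonoidAlgebra ℤ G) M'] [AddCommGroup Q]
    [Module (MonoidAlgebra ℤ G) Q]
    [Module.Finite ℤ M] [Module.IsTorsionFree ℤ M] {δ : MonoidAlgebra ℤ G}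
    (hδ : ∀ a : MonoidAlgebra ℤ G, δ * a = 0 → a = 0)
    (f : M →ₗ[MonoidAlgebra ℤ G] Q)
    (q : MonoidAlgebra ℤ G →ₗ[MonoidAlgebra ℤ G] Q) (hq : Function.Surjective q)
    (hqk : ∀ a, q a = 0 ↔ ∃ b, a = δ * b)
    (j : M' →ₗ[MonoidAlgebra ℤ G] M) (hj : Function.Injective j)
    (hker : ∀ u, f u = 0 ↔ u ∈ LinearMap.range j) :
    ∃ (φ0 : M' →ₗ[MonoidAlgebra ℤ G] MonoidAlgebra ℤ G)
      (ψ0 : M →ₗ[MonoidAlgebra ℤ G] MonoidAlgebra ℤ G),
      (∀ u, δ * φ0 u = ψ0 (j u)) ∧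
      ∀ φ : M' →ₗ[MonoidAlgebra ℤ G] MonoidAlgebra ℤ G, ∃ (c : MonoidAlgebra ℤ G)
        (ψ : M →ₗ[MonoidAlgebra ℤ G] MonoidAlgebra ℤ G), ∀ u, φ u = ψ (j u) + c * φ0 u := by
  classical
  have hfin := ex2_Pfin f q
  -- the first inclusion
  have hmem1 : ∀ a : MonoidAlgebra ℤ G, ((0 : M), δ * a) ∈ ex2_P f q := by
    intro a
    rw [ex2_memP, map_zero]
    exact ((hqk _).2 ⟨a, rfl⟩).symm
  let j1 : MonoidAlgebra ℤ G →ₗ[MonoidAlgebra ℤ G] ex2_P f q :=
    LinearMap.codRestrict _ (LinearMap.prod 0 (LinearMap.mulLeft _ δ)) hmem1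
  have hj1 : ∀ a, j1 a = ⟨(0, δ * a), hmem1 a⟩ := fun a => rfl
  have hj1i : Function.Injective j1 := by
    intro a b hab
    rw [hj1, hj1, Subtype.mk.injEq, Prod.mk.injEq] at hab
    have h2 := hδ (a - b) (by rw [mul_sub, hab.2, sub_self])
    exact sub_eq_zero.1 h2
  have hsat1 : ∀ (n : ℤ) (u : ex2_P f q), n ≠ 0 → n • u ∈ LinearMap.range j1 →
      u ∈ LinearMap.range j1 := by
    rintro n ⟨⟨m, a⟩, h⟩ hn ⟨b, hb⟩
    rw [hj1] at hb
    have hb1 : (0 : M) = n • m := congrArg (fun x => x.1.1) hb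
    have hm : m = 0 := (smul_eq_zero.1 hb1.symm).resolve_left hn
    subst hm
    have h1 := (ex2_memP f q 0 a).1 h
    rw [map_zero] at h1
    obtain ⟨b, rfl⟩ := (hqk a).1 h1.symm
    exact ⟨b, rfl⟩
  obtain ⟨θ, hθ⟩ := ext_lat j1 hj1i hsat1 LinearMap.id
  have hθ' : ∀ (a : MonoidAlgebra ℤ G) (h : ((0 : M), δ * a) ∈ ex2_P f q),
      θ ⟨(0, δ * a), h⟩ = a := fun a h => hθ a
  -- the second inclusion
  have hmem2 : ∀ u : M', (j u, (0 : MonoidAlgebra ℤ G)) ∈ ex2_P f q := by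
    intro u
    rw [ex2_memP, map_zero]
    exact (hker _).2 ⟨u, rfl⟩
  let j2 : M' →ₗ[MonoidAlgebra ℤ G] ex2_P f q :=
    LinearMap.codRestrict _ (LinearMap.prod j 0) hmem2
  have hj2 : ∀ a, j2 a = ⟨(j a, 0), hmem2 a⟩ := fun a => rfl
  have hj2i : Function.Injective j2 := by
    intro a b hab
    rw [hj2, hj2, Subtype.mk.injEq, Prod.mk.injEq] at hab
    exact hj hab.1
  have hsat2 : ∀ (n : ℤ) (u : ex2_P f q), n ≠ 0 → n • u ∈ LinearMap.range j2 →
      u ∈ LinearMap.range j2 := by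
    rintro n ⟨⟨m, a⟩, h⟩ hn ⟨b, hb⟩
    rw [hj2] at hb
    have hb1 : (0 : MonoidAlgebra ℤ G) = n • a := congrArg (fun x => x.1.2) hb
    have ha : a = 0 := ex2_tf n hn a hb1.symm
    subst ha
    have h1 := (ex2_memP f q m 0).1 h
    rw [map_zero] at h1
    obtain ⟨b, rfl⟩ := (hker m).1 h1
    exact ⟨b, rfl⟩
  -- psi0
  let snd : ex2_P f q →ₗ[MonoidAlgebra ℤ G] MonoidAlgebra ℤ G :=
    LinearMap.snd _ _ _ ∘ₗ (ex2_P f q).subtype
  obtain ⟨ψ0, hψ0⟩ := ex2_desc f q hq hqk (δ • θ - snd) (by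
    intro a h
    rw [LinearMap.sub_apply, LinearMap.smul_apply, hθ' a h, smul_eq_mul]
    exact sub_self _)
  refine ⟨θ ∘ₗ j2, ψ0, ?_, ?_⟩
  · intro u
    rw [hψ0 (j u) 0 (hmem2 u), LinearMap.sub_apply, LinearMap.smul_apply, smul_eq_mul]
    show _ = δ * θ (j2 u) - 0
    rw [sub_zero]
    rfl
  · intro φ
    obtain ⟨φ', hφ'⟩ := ext_lat j2 hj2i hsat2 φ
    set c : MonoidAlgebra ℤ G := φ' (j1 1) with hc
    obtain ⟨ψ, hψ⟩ := ex2_desc f q hq hqk (φ' - c • θ) (by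
      intro a h
      rw [LinearMap.sub_apply, LinearMap.smul_apply, hθ' a h, smul_eq_mul]
      have h1 : φ' ⟨(0, δ * a), h⟩ = φ' (a • j1 1) := by
        rw [← map_smul, smul_eq_mul, mul_one]
        rfl
      rw [h1, map_smul, smul_eq_mul, mul_comm]
      exact sub_self _)
    refine ⟨c, ψ, ?_⟩
    intro u
    rw [hψ (j u) 0 (hmem2 u), LinearMap.sub_apply, LinearMap.smul_apply, smul_eq_mul]
    have h1 : φ' ⟨(j u, 0), hmem2 u⟩ = φ u := hφ' u
    rw [h1]
    show φ u = φ u - c * θ (j2 u) + c * θ (j2 u)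
    ring

/-- The kernel of a homomorphism to a cyclic module. -/
theorem ext_T {M M' : Type} [AddCommGroup M] [Module (MonoidAlgebra ℤ G) M]
    [AddCommGroup M'] [Module (MonoidAlgebra ℤ G) M']
    [Module.Finite ℤ M] [Module.IsTorsionFree ℤ M] {δ : MonoidAlgebra ℤ G}
    (hδ : ∀ a : MonoidAlgebra ℤ G, δ * a = 0 → a = 0)
    (f : M →ₗ[MonoidAlgebra ℤ G] (MonoidAlgebra ℤ G ⧸ Ideal.span {δ}))
    (j : M' →ₗ[MonoidAlgebra ℤ G] M) (hj : Function.Injective j)
    (hker : ∀ u, f u = 0 ↔ u ∈ LinearMap.range j) {r : ℕ}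
    (ψ' : Fin r → (M' →ₗ[MonoidAlgebra ℤ G] MonoidAlgebra ℤ G))
    (e : Fin r → M) (n : ℤ) (hn : n ≠ 0) (e' : Fin r → M') (he : ∀ i, j (e' i) = n • e i) :
    ∃ (a : Option (Fin r) → MonoidAlgebra ℤ G)
      (ψ : Option (Fin r) → Fin r → (M →ₗ[MonoidAlgebra ℤ G] MonoidAlgebra ℤ G)),
      δ * Matrix.det (Matrix.of fun i j => ψ' i (e' j)) =
        n ^ r • ∑ k, a k * Matrix.det (Matrix.of fun i j => ψ k i (e j)) := by
  classical
  obtain ⟨φ0, ψ0, h0, h1⟩ := ex2_main hδ f (Submodule.mkQ (Ideal.span {δ}))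
    (Submodule.mkQ_surjective _) (by
      intro a
      rw [Submodule.mkQ_apply, Submodule.Quotient.mk_eq_zero, Ideal.mem_span_singleton']
      constructor
      · rintro ⟨b, hb⟩; exact ⟨b, by rw [← hb, mul_comm]⟩
      · rintro ⟨b, hb⟩; exact ⟨b, by rw [hb, mul_comm]⟩) j hj hker
  choose c ψ hψ using h1
  have hmat : (Matrix.of fun i k => ψ' i (e' k)) =
      Matrix.of fun i k => (Matrix.of fun i k => n • ψ (ψ' i) (e k)) i k + c (ψ' i) * φ0 (e' k) := by
    ext1 i k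
    show ψ' i (e' k) = n • ψ (ψ' i) (e k) + c (ψ' i) * φ0 (e' k)
    rw [hψ (ψ' i) (e' k), he, map_zsmul]
  refine ⟨fun k => k.elim δ (fun i => c (ψ' i)),
    fun k => k.elim (fun i => ψ (ψ' i)) (fun l i => if i = l then ψ0 else ψ (ψ' i)), ?_⟩
  rw [hmat, ex2_det, Fintype.sum_option, mul_add, Finset.mul_sum, smul_add, Finset.smul_sum]
  congr 1
  · show δ * (Matrix.of fun i k => n • ψ (ψ' i) (e k)).det =
      n ^ r • (δ * (Matrix.of fun i k => ψ (ψ' i) (e k)).det)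
    have : (Matrix.of fun i k => n • ψ (ψ' i) (e k)) =
        (n : MonoidAlgebra ℤ G) • (Matrix.of fun i k => ψ (ψ' i) (e k)) := by
      ext1 i k
      show n • ψ (ψ' i) (e k) = (n : MonoidAlgebra ℤ G) * ψ (ψ' i) (e k)
      rw [zsmul_eq_mul]
    rw [this, Matrix.det_smul, Fintype.card_fin, zsmul_eq_mul, Int.cast_pow]
    ring
  · apply Finset.sum_congr rfl
    intro l _
    show δ * (c (ψ' l) * (Matrix.updateRow (Matrix.of fun i k => n • ψ (ψ' i) (e k)) l
      (fun k => φ0 (e' k))).det) = n ^ r • (c (ψ' l) *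
        (Matrix.of fun i k => (if i = l then ψ0 else ψ (ψ' i)) (e k)).det)
    have h2 : δ * (Matrix.updateRow (Matrix.of fun i k => n • ψ (ψ' i) (e k)) l
        (fun k => φ0 (e' k))).det =
        (Matrix.updateRow (Matrix.of fun i k => n • ψ (ψ' i) (e k)) l
        (δ • (fun k => φ0 (e' k)))).det := by
      rw [Matrix.det_updateRow_smul]
    have h3 : (Matrix.updateRow (Matrix.of fun i k => n • ψ (ψ' i) (e k)) l
        (δ • (fun k => φ0 (e' k)))) = (n : MonoidAlgebra ℤ G) •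
        (Matrix.of fun i k => (if i = l then ψ0 else ψ (ψ' i)) (e k)) := by
      ext1 i k
      rw [Matrix.updateRow_apply, Matrix.smul_apply, Matrix.of_apply, Matrix.of_apply, smul_eq_mul]
      by_cases hi : i = l
      · rw [if_pos hi, if_pos hi, Pi.smul_apply, smul_eq_mul, h0, he, map_zsmul, zsmul_eq_mul]
      · rw [if_neg hi, if_neg hi, zsmul_eq_mul]
    rw [mul_left_comm, h2, h3, Matrix.det_smul, Fintype.card_fin, zsmul_eq_mul, Int.cast_pow]
    ring

end EX2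

end Pool.Agent.RSK
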