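import Pool.Agent.Lib_helper17.RS.Bas
import Pool.Agent.Lib_helper17.RS.P_PF
import Pool.Agent.Lib_helper17.RS.P_UP1
import Pool.Agent.Lib_helper17.RS.P_UP2
/-!
# RS block RT (helper37): the residue classes modulo a place of `T`.
Uses: UP2 (act_trans), UP1 (dn_surj), PF (nv_two_le).
-/

namespace Pool.Agent.RSK

set_option linter.unusedSectionVars false

open NumberField NumberField.InfinitePlace NumberField.Units IsDedekindDomain Filter Topology
  Complex

section RT1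

variable {H : Type} [Field H] [NumberField H]

theorem rt_ex (W : HeightOneSpectrum (𝓞 H)) {x : H} (hx : W.valuation H x ≤ 1) :
    ∃ a : 𝓞 H, W.valuation H (algebraMap (𝓞 H) H a - x) < 1 := by
  obtain ⟨a, ha⟩ := HeightOneSpectrum.exists_valuation_sub_lt_of_integer W hx 1
  exact ⟨a, by simpa using ha⟩

open scoped Classical in
/-- the residue class of an element which is integral at `W` -/
noncomputable def rt_res (W : HeightOneSpectrum (𝓞 H)) (x : H) : 𝓞 H ⧸ W.asIdeal :=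
  if h : W.valuation H x ≤ 1 then Ideal.Quotient.mk _ (rt_ex W h).choose else 0

theorem rt_val_lt (W : HeightOneSpectrum (𝓞 H)) (a : 𝓞 H) :
    W.valuation H (algebraMap (𝓞 H) H a) < 1 ↔ a ∈ W.asIdeal :=
  HeightOneSpectrum.valuation_lt_one_iff_mem W a

theorem rt_res_eq {W : HeightOneSpectrum (𝓞 H)} {x : H} (hx : W.valuation H x ≤ 1) {a : 𝓞 H}
    (ha : W.valuation H (algebraMap (𝓞 H) H a - x) < 1) :
    rt_res W x = Ideal.Quotient.mk W.asIdeal a := by
  unfold rt_res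
  rw [dif_pos hx, Ideal.Quotient.eq, ← rt_val_lt W, map_sub]
  have h1 := (rt_ex W hx).choose_spec
  have e : algebraMap (𝓞 H) H (rt_ex W hx).choose - algebraMap (𝓞 H) H a =
      (algebraMap (𝓞 H) H (rt_ex W hx).choose - x) - (algebraMap (𝓞 H) H a - x) := by ring
  rw [e]
  exact lt_of_le_of_lt (Valuation.map_sub _ _ _) (max_lt h1 ha)

theorem rt_res_spec {W : HeightOneSpectrum (𝓞 H)} {x : H} (hx : W.valuation H x ≤ 1) :
    ∃ a : 𝓞 H, W.valuation H (algebraMap (𝓞 H) H a - x) < 1 ∧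
      rt_res W x = Ideal.Quotient.mk W.asIdeal a := by
  obtain ⟨a, ha⟩ := rt_ex W hx
  exact ⟨a, ha, rt_res_eq hx ha⟩

theorem rt_res_mul {W : HeightOneSpectrum (𝓞 H)} {x y : H} (hx : W.valuation H x ≤ 1)
    (hy : W.valuation H y ≤ 1) : rt_res W (x * y) = rt_res W x * rt_res W y := by
  obtain ⟨a, ha, ha'⟩ := rt_res_spec hx
  obtain ⟨b, hb, hb'⟩ := rt_res_spec hy
  rw [ha', hb', ← map_mul]
  refine rt_res_eq (by rw [map_mul]; exact mul_le_one' hx hy) ?_
  have e : algebraMap (𝓞 H) H (a * b) - x * y =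
      (algebraMap (𝓞 H) H b - y) * algebraMap (𝓞 H) H a + (algebraMap (𝓞 H) H a - x) * y := by
    rw [map_mul]; ring
  rw [e]
  refine Valuation.map_add_lt _ ?_ ?_
  · rw [map_mul]
    exact mul_lt_one_of_lt_of_le hb (HeightOneSpectrum.valuation_le_one W a)
  · rw [map_mul]
    exact mul_lt_one_of_lt_of_le ha hy

theorem rt_res_one (W : HeightOneSpectrum (𝓞 H)) : rt_res W (1 : H) = 1 := by
  rw [rt_res_eq (a := 1) (by rw [map_one]) (by rw [map_one, sub_self, map_zero]; exact zero_lt_one),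
    map_one]

theorem rt_res_eq_one_iff {W : HeightOneSpectrum (𝓞 H)} {x : H} (hx : W.valuation H x ≤ 1) :
    rt_res W x = 1 ↔ W.valuation H (x - 1) < 1 := by
  obtain ⟨a, ha, ha'⟩ := rt_res_spec hx
  rw [ha', ← map_one (Ideal.Quotient.mk W.asIdeal), Ideal.Quotient.eq, ← rt_val_lt W, map_sub,
    map_one]
  constructor
  · intro h
    have e : x - 1 = (algebraMap (𝓞 H) H a - 1) - (algebraMap (𝓞 H) H a - x) := by ring
    rw [e]
    exact lt_of_le_of_lt (Valuation.map_sub _ _ _) (max_lt h ha)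
  · intro h
    have e : algebraMap (𝓞 H) H a - 1 = (x - 1) + (algebraMap (𝓞 H) H a - x) := by ring
    rw [e]
    exact Valuation.map_add_lt _ h ha

instance rt_max (W : HeightOneSpectrum (𝓞 H)) : W.asIdeal.IsMaximal := W.isMaximal

noncomputable instance rt_field (W : HeightOneSpectrum (𝓞 H)) : Field (𝓞 H ⧸ W.asIdeal) :=
  Ideal.Quotient.field W.asIdeal

instance rt_finite (W : HeightOneSpectrum (𝓞 H)) : Finite (𝓞 H ⧸ W.asIdeal) :=
  Ideal.finiteQuotientOfFreeOfNeBot W.asIdeal W.ne_bot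

theorem rt_card (W : HeightOneSpectrum (𝓞 H)) : Nat.card (𝓞 H ⧸ W.asIdeal) = nv W := by
  unfold nv
  rw [Ideal.absNorm_apply, Submodule.cardQuot_apply]

theorem rt_card_units (W : HeightOneSpectrum (𝓞 H)) :
    Nat.card (𝓞 H ⧸ W.asIdeal)ˣ = nv W - 1 := by
  rw [← rt_card W, Nat.card_units]

/-- the group of the elements which are units at `W` -/
def rt_U (W : HeightOneSpectrum (𝓞 H)) : Subgroup Hˣ where
  carrier := {x | W.valuation H (x : H) = 1}
  one_mem' := by simp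
  mul_mem' := fun {x y} hx hy => by
    show W.valuation H ((x * y : Hˣ) : H) = 1
    rw [Units.val_mul, map_mul, show W.valuation H (x : H) = 1 from hx,
      show W.valuation H (y : H) = 1 from hy, mul_one]
  inv_mem' := fun {x} hx => by
    show W.valuation H ((x⁻¹ : Hˣ) : H) = 1
    rw [Units.val_inv_eq_inv_val, map_inv₀, show W.valuation H (x : H) = 1 from hx, inv_one]

/-- the reduction of the units at `W` -/
noncomputable def rt_red (W : HeightOneSpectrum (𝓞 H)) : rt_U W →* (𝓞 H ⧸ W.asIdeal)ˣ :=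
  MonoidHom.toHomUnits
    { toFun := fun x => rt_res W ((x : Hˣ) : H)
      map_one' := by
        show rt_res W (((1 : rt_U W) : Hˣ) : H) = 1
        exact rt_res_one W
      map_mul' := fun x y => by
        have hx : W.valuation H ((x : Hˣ) : H) = 1 := x.2
        have hy : W.valuation H ((y : Hˣ) : H) = 1 := y.2
        exact rt_res_mul hx.le hy.le }

theorem rt_red_val (W : HeightOneSpectrum (𝓞 H)) (x : rt_U W) :
    ((rt_red W x : (𝓞 H ⧸ W.asIdeal)ˣ) : 𝓞 H ⧸ W.asIdeal) = rt_res W ((x : Hˣ) : H) := rfl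

theorem rt_red_one_iff (W : HeightOneSpectrum (𝓞 H)) (x : rt_U W) :
    rt_red W x = 1 ↔ W.valuation H (((x : Hˣ) : H) - 1) < 1 := by
  have hx : W.valuation H ((x : Hˣ) : H) = 1 := x.2
  rw [← rt_res_eq_one_iff hx.le, ← rt_red_val, Units.val_eq_one]

/-- the discrete logarithm -/
theorem rt_dlog (W : HeightOneSpectrum (𝓞 H)) {N : ℕ} (hN : 0 < N) (hd : nv W - 1 ∣ N) :
    ∃ L : (𝓞 H ⧸ W.asIdeal)ˣ →* Multiplicative (ZMod N), Function.Injective L := by
  set n : ℕ := nv W - 1 with hn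
  have hcard : Nat.card (𝓞 H ⧸ W.asIdeal)ˣ = n := rt_card_units W
  obtain ⟨m, hm⟩ := hd
  have hm0 : m ≠ 0 := by
    rintro rfl
    rw [hm, mul_zero] at hN
    exact lt_irrefl _ hN
  have hf : (zmultiplesHom (ZMod N) (m : ZMod N)) (n : ℤ) = 0 := by
    rw [zmultiplesHom_apply, natCast_zsmul, nsmul_eq_mul, ← Nat.cast_mul, ← hm, ZMod.natCast_self]
  set f : ZMod n →+ ZMod N := ZMod.lift n ⟨zmultiplesHom (ZMod N) (m : ZMod N), hf⟩ with hfdef
  have hfinj : Function.Injective f := by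
    rw [hfdef, ZMod.lift_injective]
    intro k hk
    have hk' : ((k * m : ℤ) : ZMod N) = 0 := by
      rw [Int.cast_mul, Int.cast_natCast]
      have h1 : (zmultiplesHom (ZMod N) (m : ZMod N)) k = 0 := hk
      rwa [zmultiplesHom_apply, zsmul_eq_mul] at h1
    rw [ZMod.intCast_zmod_eq_zero_iff_dvd, hm] at hk'
    rw [ZMod.intCast_zmod_eq_zero_iff_dvd]
    push_cast at hk'
    exact Int.dvd_of_mul_dvd_mul_right (by exact_mod_cast hm0) hk'
  have hcyc : IsCyclic (𝓞 H ⧸ W.asIdeal)ˣ := inferInstance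
  have e : (𝓞 H ⧸ W.asIdeal)ˣ ≃* Multiplicative (ZMod n) :=
    ((zmodCyclicMulEquiv hcyc).symm.trans (by rw [hcard]))
  refine ⟨(AddMonoidHom.toMultiplicative f).comp e.toMonoidHom, ?_⟩
  exact hfinj.comp e.injective

end RT1

section RT2

variable {F H : Type} [Field F] [NumberField F] [Field H] [NumberField H] [Algebra F H]

/-- `|x|_{σ⁻¹ W} = |σ x|_W` -/
theorem rt_val_act (σ : H ≃ₐ[F] H) (W : HeightOneSpectrum (𝓞 H)) (x : H) :
    W.valuation H (σ x) = (HeightOneSpectrum.equivOfRingEquiv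
      (RingOfIntegers.mapRingEquiv σ.symm.toRingEquiv) W).valuation H x := by
  have h := val_equiv σ.symm.toRingEquiv W (σ x)
  have h2 : σ.symm.toRingEquiv (σ x) = x := σ.symm_apply_apply x
  rw [h2] at h
  exact h.symm

/-- the Frobenius automorphism fixes the places -/
theorem rt_fr_fix {v : HeightOneSpectrum (𝓞 F)} {σ : H ≃ₐ[F] H} (hσ : IsFr v σ)
    {W : HeightOneSpectrum (𝓞 H)} (hW : W.under (𝓞 F) = v) :
    HeightOneSpectrum.equivOfRingEquiv
      (RingOfIntegers.mapRingEquiv σ.symm.toRingEquiv) W = W := by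
  refine HeightOneSpectrum.ext ?_
  ext x
  have h1 : x ∈ (HeightOneSpectrum.equivOfRingEquiv
      (RingOfIntegers.mapRingEquiv σ.symm.toRingEquiv) W).asIdeal ↔
      RingOfIntegers.mapRingEquiv σ.toRingEquiv x ∈ W.asIdeal := Iff.rfl
  rw [h1]
  have h2 := hσ W hW x
  constructor
  · intro h
    have h3 : x ^ nv v ∈ W.asIdeal := by
      have h4 := W.asIdeal.sub_mem h h2
      rwa [sub_sub_cancel] at h4
    exact W.isPrime.mem_of_pow_mem _ h3
  · intro h
    have h0 : nv v ≠ 0 := HeightOneSpectrum.absNorm_ne_zero v ∘ fun h => by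
      unfold nv at h
      exact_mod_cast h
    have h3 : x ^ nv v ∈ W.asIdeal := Ideal.pow_mem_of_mem _ h _ (Nat.pos_of_ne_zero h0)
    have h4 := W.asIdeal.add_mem h2 h3
    rwa [sub_add_cancel] at h4

/-- the Frobenius automorphism acts as `x ↦ x ^ q` on the residue field -/
theorem rt_fr_red {v : HeightOneSpectrum (𝓞 F)} {σ : H ≃ₐ[F] H} (hσ : IsFr v σ)
    {W : HeightOneSpectrum (𝓞 H)} (hW : W.under (𝓞 F) = v) (x : rt_U W) (hx : σ • (x : Hˣ) ∈ rt_U W) :
    rt_red W ⟨σ • (x : Hˣ), hx⟩ = rt_red W x ^ nv v := by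
  refine Units.ext ?_
  rw [Units.val_pow_eq_pow_val, rt_red_val, rt_red_val]
  have hx1 : W.valuation H ((x : Hˣ) : H) = 1 := x.2
  have hx2 : W.valuation H (σ ((x : Hˣ) : H)) = 1 := hx
  obtain ⟨a, ha, ha'⟩ := rt_res_spec hx1.le
  rw [ha', ← map_pow]
  have h3 : rt_res W (((⟨σ • (x : Hˣ), hx⟩ : rt_U W) : Hˣ) : H) =
      Ideal.Quotient.mk W.asIdeal (RingOfIntegers.mapRingEquiv σ.toRingEquiv a) := by
    refine rt_res_eq (x := σ ((x : Hˣ) : H)) hx2.le ?_
    have e : algebraMap (𝓞 H) H (RingOfIntegers.mapRingEquiv σ.toRingEquiv a) -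
        σ ((x : Hˣ) : H) = σ (algebraMap (𝓞 H) H a - ((x : Hˣ) : H)) := by
      rw [map_sub]
      rfl
    rw [e, rt_val_act, rt_fr_fix hσ hW]
    exact ha
  rw [h3, Ideal.Quotient.eq]
  exact hσ W hW a

variable {G : Type} [CommGroup G] [Fintype G] {ι : G ≃* (H ≃ₐ[F] H)}
  {S T : Finset (HeightOneSpectrum (𝓞 F))}

theorem rt_lin {Q : Type} [AddCommGroup Q] [Module (MonoidAlgebra ℤ G) Q] (f : UM ι S T →+ Q)
    (hf : ∀ (g : G) (u : UM ι S T), f (MonoidAlgebra.single g (1 : ℤ) • u) =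
      MonoidAlgebra.single g (1 : ℤ) • f u) :
    ∃ f' : UM ι S T →ₗ[MonoidAlgebra ℤ G] Q, ∀ u, f' u = f u := by
  refine ⟨{ toFun := f, map_add' := map_add f, map_smul' := ?_ }, fun u => rfl⟩
  intro a u
  show f (a • u) = a • f u
  induction a using MonoidAlgebra.induction_on with
  | of g => exact hf g u
  | add a b ha hb => rw [add_smul, map_add, add_smul, ha, hb]
  | smul c a ha =>
    rw [smul_assoc, map_zsmul, ha, smul_assoc]

theorem rt_um_U {v : HeightOneSpectrum (𝓞 F)} (hvS : v ∉ S) {W : HeightOneSpectrum (𝓞 H)}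
    (hW : W.under (𝓞 F) = v) {x : Hˣ} (hx : x ∈ Un (ovr H S) (ovr H T)) : x ∈ rt_U W :=
  hx.1 W (by rw [mem_ovr, hW]; exact hvS)

theorem rt_mem_un {v : HeightOneSpectrum (𝓞 F)} (hv : v ∉ T) (u : UM ι S T) :
    u.val ∈ Un (ovr H S) (ovr H (Finset.cons v T hv)) ↔
      ∀ W : HeightOneSpectrum (𝓞 H), W.under (𝓞 F) = v → W.valuation H ((u.val : H) - 1) < 1 := by
  constructor
  · intro h W hW
    exact h.2 W (by rw [mem_ovr, hW]; exact Finset.mem_cons_self _ _)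
  · intro h
    refine ⟨u.val_mem.1, fun W hW => ?_⟩
    rw [mem_ovr, Finset.mem_cons] at hW
    rcases hW with hW | hW
    · exact h W hW
    · exact u.val_mem.2 W (by rw [mem_ovr]; exact hW)

/-- the logarithm of `g u` in the residue field of `W` -/
noncomputable def rt_A {v : HeightOneSpectrum (𝓞 F)} (hvS : v ∉ S) {W : HeightOneSpectrum (𝓞 H)}
    (hW : W.under (𝓞 F) = v) {N : ℕ} (L : (𝓞 H ⧸ W.asIdeal)ˣ →* Multiplicative (ZMod N)) (g : G) :
    UM ι S T →+ ZMod N where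
  toFun u := Multiplicative.toAdd
    (L (rt_red W ⟨ι g • u.val, rt_um_U hvS hW (un_smul (ι g) u.val_mem)⟩))
  map_zero' := by
    have h : (⟨ι g • (0 : UM ι S T).val, rt_um_U hvS hW (un_smul (ι g) (UM.val_mem 0))⟩ : rt_U W) =
        1 := Subtype.ext (by
      show ι g • (0 : UM ι S T).val = 1
      rw [UM.val_zero, smul_one])
    rw [h, map_one, map_one]
    rfl
  map_add' u u' := by
    have h : (⟨ι g • (u + u').val, rt_um_U hvS hW (un_smul (ι g) (UM.val_mem _))⟩ : rt_U W) =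
        ⟨ι g • u.val, rt_um_U hvS hW (un_smul (ι g) u.val_mem)⟩ *
          ⟨ι g • u'.val, rt_um_U hvS hW (un_smul (ι g) u'.val_mem)⟩ := Subtype.ext (by
      show ι g • (u + u').val = (ι g • u.val) * (ι g • u'.val)
      rw [UM.val_add, smul_mul'])
    rw [h, map_mul, map_mul, toAdd_mul]

theorem rt_A_zero {v : HeightOneSpectrum (𝓞 F)} (hvS : v ∉ S) {W : HeightOneSpectrum (𝓞 H)}
    (hW : W.under (𝓞 F) = v) {N : ℕ} (L : (𝓞 H ⧸ W.asIdeal)ˣ →* Multiplicative (ZMod N))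
    (hL : Function.Injective L) (g : G) (u : UM ι S T) :
    rt_A hvS hW L g u = 0 ↔ (HeightOneSpectrum.equivOfRingEquiv
      (RingOfIntegers.mapRingEquiv (ι g).symm.toRingEquiv) W).valuation H ((u.val : H) - 1) < 1 := by
  have h1 : rt_A hvS hW L g u = 0 ↔
      L (rt_red W ⟨ι g • u.val, rt_um_U hvS hW (un_smul (ι g) u.val_mem)⟩) = 1 := Iff.rfl
  have e : (ι g) ((u.val : H) - 1) = ((ι g • u.val : Hˣ) : H) - 1 := by
    rw [map_sub, map_one]
    rfl
  rw [h1, ← map_one L, hL.eq_iff, rt_red_one_iff, ← rt_val_act, e]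

theorem rt_A_smul {v : HeightOneSpectrum (𝓞 F)} (hvS : v ∉ S) {W : HeightOneSpectrum (𝓞 H)}
    (hW : W.under (𝓞 F) = v) {N : ℕ} (L : (𝓞 H ⧸ W.asIdeal)ˣ →* Multiplicative (ZMod N)) (g h : G)
    (u : UM ι S T) : rt_A hvS hW L g (MonoidAlgebra.single h (1 : ℤ) • u) =
      rt_A hvS hW L (g * h) u := by
  show Multiplicative.toAdd (L (rt_red W _)) = Multiplicative.toAdd (L (rt_red W _))
  congr 3
  refine Subtype.ext ?_
  show ι g • (MonoidAlgebra.single h (1 : ℤ) • u).val = ι (g * h) • u.val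
  rw [um_single_smul, map_mul, mul_smul]

theorem rt_A_fr {v : HeightOneSpectrum (𝓞 F)} (hvS : v ∉ S) {W : HeightOneSpectrum (𝓞 H)}
    (hW : W.under (𝓞 F) = v) {N : ℕ} (L : (𝓞 H ⧸ W.asIdeal)ˣ →* Multiplicative (ZMod N)) (g : G)
    {φ : G} (hφ : IsFr v (ι φ)) (u : UM ι S T) :
    rt_A hvS hW L (φ * g) u = (nv v : ZMod N) * rt_A hvS hW L g u := by
  have h1 : rt_A hvS hW L (φ * g) u = Multiplicative.toAdd
    (L (rt_red W ⟨ι g • u.val, rt_um_U hvS hW (un_smul (ι g) u.val_mem)⟩ ^ nv v)) := by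
    rw [← rt_fr_red hφ hW]
    · show Multiplicative.toAdd (L (rt_red W _)) = Multiplicative.toAdd (L (rt_red W _))
      congr 3
      refine Subtype.ext ?_
      show ι (φ * g) • u.val = ι φ • ι g • u.val
      rw [map_mul, mul_smul]
    · exact rt_um_U hvS hW (un_smul (ι φ) (un_smul (ι g) u.val_mem))
  rw [h1, map_pow, toAdd_pow, nsmul_eq_mul]
  rfl

end RT2

section GEN

variable {F H : Type} [Field F] [NumberField F] [Field H] [NumberField H] [Algebra F H]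
  [IsGalois F H] {G : Type} [CommGroup G] [Fintype G] {p : ℕ} {ι : G ≃* (H ≃ₐ[F] H)}
  {S T : Finset (HeightOneSpectrum (𝓞 F))} {r : ℕ} {w : Fin r → Pl H}
  {fr : HeightOneSpectrum (𝓞 F) → G}

theorem rt_all {v : HeightOneSpectrum (𝓞 F)} {W₀ : HeightOneSpectrum (𝓞 H)}
    (hW₀ : W₀.under (𝓞 F) = v) (x : H) :
    (∀ W : HeightOneSpectrum (𝓞 H), W.under (𝓞 F) = v → W.valuation H x < 1) ↔
      ∀ g : G, (HeightOneSpectrum.equivOfRingEquiv
        (RingOfIntegers.mapRingEquiv (ι g).symm.toRingEquiv) W₀).valuation H x < 1 := by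
  constructor
  · intro h g
    exact h _ (by rw [under_equiv, hW₀])
  · intro h W hW
    obtain ⟨σ, hσ⟩ := act_trans (F := F) (W := (Sum.inr W₀ : Pl H)) (W' := (Sum.inr W : Pl H)) (by
      show Sum.inr _ = Sum.inr _
      rw [hW₀, hW])
    have h1 : HeightOneSpectrum.equivOfRingEquiv
        (RingOfIntegers.mapRingEquiv σ.toRingEquiv) W₀ = W := Sum.inr_injective hσ
    have h2 := h (ι.symm σ⁻¹)
    rw [MulEquiv.apply_symm_apply] at h2
    rw [← h1]
    exact h2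

theorem rt_dn_surj (v : HeightOneSpectrum (𝓞 F)) : ∃ W : HeightOneSpectrum (𝓞 H),
    W.under (𝓞 F) = v := by
  obtain ⟨W, hW⟩ := dn_surj (H := H) (Sum.inr v : Pl F)
  rcases W with W | W
  · exact absurd hW (by simp [dn])
  · exact ⟨W, Sum.inr_injective hW⟩

/-- exponent of the residue field -/
theorem rt_exp {v : HeightOneSpectrum (𝓞 F)} {W : HeightOneSpectrum (𝓞 H)}
    (hW : W.under (𝓞 F) = v) {φ : G} (hφ : IsFr v (ι φ)) {k : ℕ} (hk : φ ^ k = 1) :
    nv W - 1 ∣ nv v ^ k - 1 := by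
  have h1 : ∀ (j : ℕ) (x : 𝓞 H), RingOfIntegers.mapRingEquiv (ι (φ ^ j)).toRingEquiv x -
      x ^ (nv v ^ j) ∈ W.asIdeal := by
    intro j
    induction j with
    | zero =>
      intro x
      have h : RingOfIntegers.mapRingEquiv (ι (φ ^ 0)).toRingEquiv x = x := by
        rw [pow_zero, map_one]
        rfl
      rw [h, pow_zero, pow_one, sub_self]
      exact W.asIdeal.zero_mem
    | succ j ih =>
      intro x
      have h : RingOfIntegers.mapRingEquiv (ι (φ ^ (j + 1))).toRingEquiv x =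
          RingOfIntegers.mapRingEquiv (ι φ).toRingEquiv
            (RingOfIntegers.mapRingEquiv (ι (φ ^ j)).toRingEquiv x) := by
        rw [pow_succ', map_mul]
        rfl
      rw [h]
      set y := RingOfIntegers.mapRingEquiv (ι (φ ^ j)).toRingEquiv x with hy
      have h2 := hφ W hW y
      have h3 : y ^ nv v - (x ^ (nv v ^ j)) ^ nv v ∈ W.asIdeal := by
        obtain ⟨c, hc⟩ := sub_dvd_pow_sub_pow y (x ^ (nv v ^ j)) (nv v)
        rw [hc]
        exact Ideal.mul_mem_right _ _ (ih x)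
      have h4 := W.asIdeal.add_mem h2 h3
      rwa [sub_add_sub_cancel, ← pow_mul, ← pow_succ] at h4
  rw [← rt_card_units W]
  have hcyc : IsCyclic (𝓞 H ⧸ W.asIdeal)ˣ := inferInstance
  rw [← IsCyclic.exponent_eq_card, Monoid.exponent_dvd_iff_forall_pow_eq_one]
  intro x
  obtain ⟨a, ha⟩ := Ideal.Quotient.mk_surjective (x : 𝓞 H ⧸ W.asIdeal)
  have h2 := h1 k a
  have h3 : RingOfIntegers.mapRingEquiv (ι (φ ^ k)).toRingEquiv a = a := by
    rw [hk, map_one]
    rfl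
  rw [h3, ← Ideal.Quotient.eq, map_pow, ha] at h2
  have h0 : 0 < nv v ^ k := by
    refine pow_pos (Nat.pos_of_ne_zero ?_) _
    intro h
    exact HeightOneSpectrum.absNorm_ne_zero v (by unfold nv at h; exact_mod_cast h)
  have h4 : x = x ^ (nv v ^ k - 1) * x := by
    refine Units.ext ?_
    rw [← pow_succ, Nat.sub_add_cancel h0, Units.val_pow_eq_pow_val]
    exact h2
  exact (mul_eq_right.1 h4.symm)

/-- the map `ZMod N → R/(δ)`, `c ↦ c g` -/
noncomputable def rt_E {N : ℕ} {δ : MonoidAlgebra ℤ G} (hN : δ ∣ MonoidAlgebra.single 1 (N : ℤ))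
    (g : G) : ZMod N →+ (MonoidAlgebra ℤ G ⧸ Ideal.span {δ}) :=
  ZMod.lift N ⟨{ toFun := fun c : ℤ => Ideal.Quotient.mk (Ideal.span {δ}) (MonoidAlgebra.single g c)
                 map_zero' := by rw [MonoidAlgebra.single_zero, map_zero]
                 map_add' := fun a b => by rw [MonoidAlgebra.single_add, map_add] }, by
    show Ideal.Quotient.mk (Ideal.span {δ}) (MonoidAlgebra.single g (N : ℤ)) = 0
    rw [Ideal.Quotient.eq_zero_iff_mem, Ideal.mem_span_singleton]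
    have h : (MonoidAlgebra.single g (N : ℤ) : MonoidAlgebra ℤ G) =
        MonoidAlgebra.single 1 (N : ℤ) * MonoidAlgebra.single g 1 := by
      rw [MonoidAlgebra.single_mul_single, one_mul, mul_one]
    rw [h]
    exact hN.mul_right _⟩

theorem rt_E_coe {N : ℕ} {δ : MonoidAlgebra ℤ G} (hN : δ ∣ MonoidAlgebra.single 1 (N : ℤ))
    (g : G) (c : ℤ) : rt_E hN g (c : ZMod N) =
      Ideal.Quotient.mk (Ideal.span {δ}) (MonoidAlgebra.single g c) := ZMod.lift_coe _ _ _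

theorem rt_smul_mk {δ : MonoidAlgebra ℤ G} (a b : MonoidAlgebra ℤ G) :
    a • (Ideal.Quotient.mk (Ideal.span {δ}) b) = Ideal.Quotient.mk (Ideal.span {δ}) (a * b) := rfl

theorem rt_E_smul {N : ℕ} {δ : MonoidAlgebra ℤ G} (hN : δ ∣ MonoidAlgebra.single 1 (N : ℤ))
    (g h : G) (c : ZMod N) :
    (MonoidAlgebra.single h (1 : ℤ) : MonoidAlgebra ℤ G) • rt_E hN g c = rt_E hN (h * g) c := by
  obtain ⟨c, rfl⟩ := ZMod.intCast_surjective c
  rw [rt_E_coe, rt_E_coe, rt_smul_mk, MonoidAlgebra.single_mul_single, one_mul]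

/-- the ring homomorphism `ℤ[G] → (ℤ/N)[G]` -/
theorem rt_E_inj {N : ℕ} {δ : MonoidAlgebra ℤ G} (hN : δ ∣ MonoidAlgebra.single 1 (N : ℤ))
    (hδ : MonoidAlgebra.single 1 (N : ℤ) ∣ δ) (c : G → ZMod N) (h : ∑ g, rt_E hN g (c g) = 0) :
    ∀ g, c g = 0 := by
  have h1 : ∀ g, ∃ k : ℤ, (k : ZMod N) = c g := fun g => ZMod.intCast_surjective (c g)
  choose k hk using h1
  have h2 : ∑ g, rt_E hN g (c g) = Ideal.Quotient.mk (Ideal.span {δ})
      (∑ g, MonoidAlgebra.single g (k g)) := by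
    rw [map_sum]
    refine Finset.sum_congr rfl fun g _ => ?_
    rw [← hk g, rt_E_coe]
  rw [h2, Ideal.Quotient.eq_zero_iff_mem, Ideal.mem_span_singleton] at h
  obtain ⟨b, hb⟩ := hδ.trans h
  intro g
  have h3 := congrArg (fun x : MonoidAlgebra ℤ G => x.coeff g) hb
  simp only [MonoidAlgebra.coeff_single_one_mul, MonoidAlgebra.coeff_sum, Finsupp.coe_finsetSum,
    Finset.sum_apply, MonoidAlgebra.coeff_single] at h3
  have h4 : ∑ x : G, (Finsupp.single x (k x)) g = k g := by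
    classical
    rw [Finset.sum_eq_single g]
    · rw [Finsupp.single_eq_same]
    · intro x _ hx
      rw [Finsupp.single_eq_of_ne (Ne.symm hx)]
    · intro h
      exact absurd (Finset.mem_univ g) h
  rw [h4] at h3
  rw [← hk g, h3, Int.cast_mul, Int.cast_natCast, ZMod.natCast_self, zero_mul]

/-- `ZMod N → R/(1 - φ⁻¹ q)` is injective, `N = q ^ p - 1` -/
theorem rt_E_inj' (hp : p.Prime) (hG : Nat.card G = p) {φ : G} (hφ : φ ≠ 1) {q : ℕ} (hq : 0 < q)
    (hN : (1 - MonoidAlgebra.single φ⁻¹ (q : ℤ) : MonoidAlgebra ℤ G) ∣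
      MonoidAlgebra.single 1 ((q ^ p - 1 : ℕ) : ℤ)) {c : ZMod (q ^ p - 1)}
    (h : rt_E hN 1 c = 0) : c = 0 := by
  obtain ⟨c, rfl⟩ := ZMod.intCast_surjective c
  rw [rt_E_coe, Ideal.Quotient.eq_zero_iff_mem, Ideal.mem_span_singleton] at h
  obtain ⟨b, hb⟩ := h
  have hpf : Fact p.Prime := ⟨hp⟩
  have hqp : (q : ZMod (q ^ p - 1)) ^ p = 1 := by
    have h1 : ((q ^ p - 1 : ℕ) : ZMod (q ^ p - 1)) = 0 := ZMod.natCast_self _
    rw [Nat.cast_sub (Nat.one_le_pow _ _ hq), Nat.cast_pow, Nat.cast_one, sub_eq_zero] at h1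
    exact h1
  set Q : (ZMod (q ^ p - 1))ˣ := Units.ofPowEqOne (q : ZMod (q ^ p - 1)) p hqp hp.ne_zero with hQ
  have hQv : (Q : ZMod (q ^ p - 1)) = q := rfl
  have hgen : ∀ x : G, x ∈ Subgroup.zpowers φ := fun x => mem_zpowers_of_prime_card hG hφ
  have hord : orderOf Q ∣ orderOf φ := by
    rw [orderOf_eq_card_of_forall_mem_zpowers hgen, hG]
    refine orderOf_dvd_of_pow_eq_one (Units.ext ?_)
    rw [Units.val_pow_eq_pow_val, hQv, hqp]
    rfl
  set κ : G →* (ZMod (q ^ p - 1))ˣ := monoidHomOfForallMemZpowers hgen hord with hκ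
  have hκφ : κ φ = Q := monoidHomOfForallMemZpowers_apply_gen hgen hord
  set ρ : MonoidAlgebra ℤ G →ₐ[ℤ] ZMod (q ^ p - 1) :=
    MonoidAlgebra.lift ℤ (ZMod (q ^ p - 1)) G ((Units.coeHom _).comp κ) with hρ
  have hρs : ∀ (g : G) (a : ℤ), ρ (MonoidAlgebra.single g a) = a * (κ g : ZMod (q ^ p - 1)) := by
    intro g a
    rw [hρ, MonoidAlgebra.lift_single, zsmul_eq_mul]
    rfl
  have h1 := congrArg ρ hb
  rw [hρs, map_mul, map_sub, map_one, hρs, map_one, map_inv, hκφ] at h1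
  have h2 : ((q : ℤ) : ZMod (q ^ p - 1)) * ((Q⁻¹ : (ZMod (q ^ p - 1))ˣ) : ZMod (q ^ p - 1)) = 1 := by
    rw [Int.cast_natCast, ← hQv, Units.mul_inv]
  rw [h2, sub_self, zero_mul, Units.val_one, mul_one] at h1
  exact h1

theorem rt_nv_pos (v : HeightOneSpectrum (𝓞 F)) : 0 < nv v := by
  refine Nat.pos_of_ne_zero ?_
  intro h
  exact HeightOneSpectrum.absNorm_ne_zero v (by unfold nv at h; exact_mod_cast h)

theorem rt_res_one' (hD : Data ι S T r w fr) {v : HeightOneSpectrum (𝓞 F)} (hv : v ∉ T)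
    (hvS : v ∉ S) (hfr : fr v = 1) :
    ∃ f : UM ι S T →ₗ[MonoidAlgebra ℤ G] (MonoidAlgebra ℤ G ⧸ Ideal.span
        {(1 - MonoidAlgebra.single (fr v)⁻¹ (nv v : ℤ) : MonoidAlgebra ℤ G)}),
      ∀ u, f u = 0 ↔ u.val ∈ Un (ovr H S) (ovr H (Finset.cons v T hv)) := by
  obtain ⟨W₀, hW₀⟩ := rt_dn_surj (H := H) v
  have hFr : IsFr v (ι (fr v)) := hD.frob v hvS
  have h2 : 2 ≤ nv v := nv_two_le v
  set N : ℕ := nv v - 1 with hNdef
  have hN0 : 0 < N := by omega
  have hdvd : nv W₀ - 1 ∣ N := by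
    have h := rt_exp hW₀ hFr (k := 1) (by rw [hfr, one_pow])
    rwa [pow_one] at h
  obtain ⟨L, hL⟩ := rt_dlog W₀ hN0 hdvd
  have hcast : (N : ℤ) = nv v - 1 := by
    rw [hNdef, Nat.cast_sub (by omega)]
    rfl
  have hδ : (1 - MonoidAlgebra.single (fr v)⁻¹ (nv v : ℤ) : MonoidAlgebra ℤ G) =
      - MonoidAlgebra.single 1 (N : ℤ) := by
    rw [hfr, inv_one, hcast, MonoidAlgebra.single_sub, MonoidAlgebra.one_def]
    ring
  have hN : (1 - MonoidAlgebra.single (fr v)⁻¹ (nv v : ℤ) : MonoidAlgebra ℤ G) ∣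
      MonoidAlgebra.single 1 (N : ℤ) := by
    rw [hδ]
    exact (neg_dvd).2 dvd_rfl
  have hN' : MonoidAlgebra.single 1 (N : ℤ) ∣
      (1 - MonoidAlgebra.single (fr v)⁻¹ (nv v : ℤ) : MonoidAlgebra ℤ G) := by
    rw [hδ]
    exact (dvd_neg).2 dvd_rfl
  set f₀ : UM ι S T →+ (MonoidAlgebra ℤ G ⧸ Ideal.span
        {(1 - MonoidAlgebra.single (fr v)⁻¹ (nv v : ℤ) : MonoidAlgebra ℤ G)}) :=
    ∑ g : G, (rt_E hN g).comp (rt_A hvS hW₀ L g⁻¹) with hf₀
  have hf₀a : ∀ u, f₀ u = ∑ g : G, rt_E hN g (rt_A hvS hW₀ L g⁻¹ u) := by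
    intro u
    rw [hf₀, AddMonoidHom.finsetSum_apply]
    rfl
  obtain ⟨f, hf⟩ := rt_lin f₀ (by
    intro h u
    rw [hf₀a, hf₀a, Finset.smul_sum, ← Equiv.sum_comp (Equiv.mulLeft h)]
    refine Finset.sum_congr rfl fun g _ => ?_
    rw [Equiv.coe_mulLeft, rt_A_smul, rt_E_smul, mul_inv_rev, inv_mul_cancel_right])
  refine ⟨f, fun u => ?_⟩
  rw [hf, hf₀a, rt_mem_un, rt_all (ι := ι) hW₀]
  constructor
  · intro h g
    have h1 := rt_E_inj hN hN' _ h g⁻¹
    rw [inv_inv] at h1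
    exact (rt_A_zero hvS hW₀ L hL g u).1 h1
  · intro h
    refine Finset.sum_eq_zero fun g _ => ?_
    rw [(rt_A_zero hvS hW₀ L hL g⁻¹ u).2 (h _), map_zero]

theorem rt_res_ne (hp : p.Prime) (hG : Nat.card G = p) (hD : Data ι S T r w fr)
    {v : HeightOneSpectrum (𝓞 F)} (hv : v ∉ T) (hvS : v ∉ S) (hfr : fr v ≠ 1) :
    ∃ f : UM ι S T →ₗ[MonoidAlgebra ℤ G] (MonoidAlgebra ℤ G ⧸ Ideal.span
        {(1 - MonoidAlgebra.single (fr v)⁻¹ (nv v : ℤ) : MonoidAlgebra ℤ G)}),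
      ∀ u, f u = 0 ↔ u.val ∈ Un (ovr H S) (ovr H (Finset.cons v T hv)) := by
  have hpf : Fact p.Prime := ⟨hp⟩
  obtain ⟨W₀, hW₀⟩ := rt_dn_surj (H := H) v
  have hFr : IsFr v (ι (fr v)) := hD.frob v hvS
  have h2 : 2 ≤ nv v := nv_two_le v
  have hpow : (fr v) ^ p = 1 := by rw [← hG, pow_card_eq_one']
  have hN0 : 0 < nv v ^ p - 1 := by
    have := Nat.one_lt_pow hp.ne_zero (by omega : 1 < nv v)
    omega
  obtain ⟨L, hL⟩ := rt_dlog W₀ hN0 (rt_exp hW₀ hFr hpow)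
  have hN : (1 - MonoidAlgebra.single (fr v)⁻¹ (nv v : ℤ) : MonoidAlgebra ℤ G) ∣
      MonoidAlgebra.single 1 ((nv v ^ p - 1 : ℕ) : ℤ) := by
    have h1 := sub_dvd_pow_sub_pow (1 : MonoidAlgebra ℤ G)
      (MonoidAlgebra.single (fr v)⁻¹ (nv v : ℤ)) p
    rw [MonoidAlgebra.single_pow, inv_pow, hpow, inv_one, one_pow] at h1
    have h3 : (MonoidAlgebra.single 1 ((nv v ^ p - 1 : ℕ) : ℤ) : MonoidAlgebra ℤ G) =
        - (1 - MonoidAlgebra.single 1 ((nv v : ℤ) ^ p)) := by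
      rw [Nat.cast_sub (Nat.one_le_pow _ _ (by omega)), MonoidAlgebra.single_sub,
        MonoidAlgebra.one_def, Nat.cast_pow, Nat.cast_one]
      ring
    rw [h3]
    exact (dvd_neg).2 h1
  set f₀ : UM ι S T →+ (MonoidAlgebra ℤ G ⧸ Ideal.span
        {(1 - MonoidAlgebra.single (fr v)⁻¹ (nv v : ℤ) : MonoidAlgebra ℤ G)}) :=
    (rt_E hN 1).comp (rt_A hvS hW₀ L 1) with hf₀
  have hf₀a : ∀ u, f₀ u = rt_E hN 1 (rt_A hvS hW₀ L 1 u) := fun u => rfl
  have hA : ∀ (k : ℕ) (u : UM ι S T), rt_A hvS hW₀ L ((fr v) ^ k) u =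
      (nv v : ZMod (nv v ^ p - 1)) ^ k * rt_A hvS hW₀ L 1 u := by
    intro k u
    induction k with
    | zero => rw [pow_zero, pow_zero, one_mul]
    | succ k ih => rw [pow_succ', rt_A_fr hvS hW₀ L _ hFr, ih, pow_succ', mul_assoc]
  have hE1 : ∀ c : ZMod (nv v ^ p - 1), rt_E hN 1 ((nv v : ZMod (nv v ^ p - 1)) * c) =
      (MonoidAlgebra.single (fr v) (1 : ℤ) : MonoidAlgebra ℤ G) • rt_E hN 1 c := by
    intro c
    obtain ⟨c, rfl⟩ := ZMod.intCast_surjective c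
    have e : (nv v : ZMod (nv v ^ p - 1)) * (c : ZMod (nv v ^ p - 1)) =
        (((nv v : ℤ) * c : ℤ) : ZMod (nv v ^ p - 1)) := by push_cast; rfl
    rw [e, rt_E_coe, rt_E_coe, rt_smul_mk, Ideal.Quotient.eq, Ideal.mem_span_singleton,
      MonoidAlgebra.single_mul_single, one_mul, mul_one]
    refine ⟨- MonoidAlgebra.single (fr v) c, ?_⟩
    rw [sub_mul, one_mul, mul_neg, MonoidAlgebra.single_mul_single, inv_mul_cancel]
    ring
  have hE : ∀ (k : ℕ) (c : ZMod (nv v ^ p - 1)),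
      rt_E hN 1 ((nv v : ZMod (nv v ^ p - 1)) ^ k * c) =
      (MonoidAlgebra.single ((fr v) ^ k) (1 : ℤ) : MonoidAlgebra ℤ G) • rt_E hN 1 c := by
    intro k c
    induction k with
    | zero => rw [pow_zero, pow_zero, one_mul, rt_E_smul, one_mul]
    | succ k ih =>
      rw [pow_succ', mul_assoc, hE1, ih, smul_smul, MonoidAlgebra.single_mul_single, ← pow_succ',
        one_mul]
  have hgen : ∀ x : G, ∃ k : ℕ, (fr v) ^ k = x := fun x => mem_powers_of_prime_card hG hfr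
  obtain ⟨f, hf⟩ := rt_lin f₀ (by
    intro h u
    obtain ⟨k, rfl⟩ := hgen h
    rw [hf₀a, hf₀a, rt_A_smul, one_mul, hA, hE])
  refine ⟨f, fun u => ?_⟩
  rw [hf, hf₀a, rt_mem_un, rt_all (ι := ι) hW₀]
  constructor
  · intro h g
    have h1 := rt_E_inj' hp hG hfr (by omega) hN h
    refine (rt_A_zero hvS hW₀ L hL g u).1 ?_
    obtain ⟨k, rfl⟩ := hgen g
    rw [hA, h1, mul_zero]
  · intro h
    rw [(rt_A_zero hvS hW₀ L hL 1 u).2 (h _), map_zero]

theorem res_T (hp : p.Prime) (hG : Nat.card G = p) (hD : Data ι S T r w fr)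
    {v : HeightOneSpectrum (𝓞 F)} (hv : v ∉ T) (hvS : v ∉ S) :
    ∃ f : UM ι S T →ₗ[MonoidAlgebra ℤ G] (MonoidAlgebra ℤ G ⧸ Ideal.span
        {(1 - MonoidAlgebra.single (fr v)⁻¹ (nv v : ℤ) : MonoidAlgebra ℤ G)}),
      ∀ u, f u = 0 ↔ u.val ∈ Un (ovr H S) (ovr H (Finset.cons v T hv)) := by
  by_cases hfr : fr v = 1
  · exact rt_res_one' hD hv hvS hfr
  · exact rt_res_ne hp hG hD hv hvS hfr

end GEN

end Pool.Agent.RSK
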