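import Pool.Agent.Lib_helper17.RS.Bas
import Pool.Agent.Lib_helper17.RS.BasZ
import Pool.Agent.Lib_helper17.RS.P_PF
import Pool.Agent.Lib_helper17.RS.P_UR
import Pool.Agent.Lib_helper17.RS.P_EX2
import Pool.Agent.Lib_helper17.RS.P_LE
import Pool.Agent.Lib_helper17.RS.P_RT
/-!
# Rubin-Stark: block L3
-/

namespace Pool.Agent.RSK

set_option linter.unusedSectionVars false

open NumberField NumberField.InfinitePlace NumberField.Units IsDedekindDomain Filter Topology
  Complex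

section L3a

variable {G : Type} [CommGroup G] [Fintype G]

theorem l3_evQ_single (χ : G →* ℂˣ) (g : G) (q : ℚ) :
    evQ χ (MonoidAlgebra.single g q) = q * (χ g : ℂ) := by
  rw [evQ, MonoidAlgebra.lift_single]
  rw [Algebra.smul_def]
  rfl

theorem l3_toQ_single (g : G) (n : ℤ) :
    toQ G (MonoidAlgebra.single g n) = MonoidAlgebra.single g (n : ℚ) := by
  simp [toQ]

/-- `(1 - g q) ∑ g^i q^i = 1 - q^p` -/
theorem l3_geom {p : ℕ} (hG : Nat.card G = p) (g : G) (q : ℤ) :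
    (1 - MonoidAlgebra.single g q) * ∑ i ∈ Finset.range p, (MonoidAlgebra.single g q) ^ i =
      MonoidAlgebra.single 1 (1 - q ^ p) := by
  rw [mul_neg_geom_sum, MonoidAlgebra.single_pow]
  have hgp : g ^ p = 1 := by
    rw [← hG]
    exact pow_card_eq_one'
  rw [hgp, MonoidAlgebra.single_sub, ← MonoidAlgebra.one_def]

theorem l3_pow_ne {p : ℕ} (hp : p.Prime) {n : ℕ} (hn : 2 ≤ n) : (1 - (n : ℤ) ^ p) ≠ 0 := by
  have h1 : (1 : ℤ) < (n : ℤ) ^ p := by
    apply one_lt_pow₀ _ hp.ne_zero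
    exact_mod_cast hn
  omega

theorem l3_scal_mul (n : ℤ) (a : MonoidAlgebra ℤ G) : MonoidAlgebra.single 1 n * a = n • a := by
  have : MonoidAlgebra.single (1 : G) n = n • (1 : MonoidAlgebra ℤ G) := by
    rw [MonoidAlgebra.one_def, MonoidAlgebra.smul_single]
    simp
  rw [this, smul_mul_assoc, one_mul]

/-- `1 - g q` is not a zero divisor -/
theorem l3_nzd {p : ℕ} (hp : p.Prime) (hG : Nat.card G = p) (g : G) {q : ℕ} (hq : 2 ≤ q)
    (a : MonoidAlgebra ℤ G) (ha : (1 - MonoidAlgebra.single g (q : ℤ)) * a = 0) : a = 0 := by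
  have h1 : (1 - (q : ℤ) ^ p) • a = 0 := by
    rw [← l3_scal_mul, ← l3_geom hG g (q : ℤ)]
    linear_combination (∑ i ∈ Finset.range p, (MonoidAlgebra.single g (q : ℤ)) ^ i) * ha
  exact (smul_eq_zero.1 h1).resolve_left (l3_pow_ne hp hq)

theorem l3_chi_norm (χ : G →* ℂˣ) (g : G) : ‖(χ g : ℂ)‖ = 1 := by
  have h1 : (χ g : ℂ) ^ Fintype.card G = 1 := by
    rw [← Units.val_pow_eq_pow_val, ← map_pow, pow_card_eq_one, map_one, Units.val_one]
  exact Complex.norm_eq_one_of_pow_eq_one h1 Fintype.card_ne_zero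

theorem l3_ne (χ : G →* ℂˣ) (g : G) {q : ℕ} (hq : 2 ≤ q) : (1 - (χ g : ℂ) * (q : ℂ)) ≠ 0 := by
  intro h
  have h1 : (χ g : ℂ) * (q : ℂ) = 1 := by linear_combination -h
  have h2 := congrArg norm h1
  rw [norm_mul, l3_chi_norm, one_mul, norm_one, Complex.norm_natCast] at h2
  have h3 : q = 1 := by exact_mod_cast h2
  omega

end L3a

section L3b

variable {F H : Type} [Field F] [NumberField F] [Field H] [NumberField H] [Algebra F H]
  [IsGalois F H] {G : Type} [CommGroup G] [Fintype G] {p : ℕ} {ι : G ≃* (H ≃ₐ[F] H)}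
  {S T : Finset (HeightOneSpectrum (𝓞 F))} {r : ℕ} {w : Fin r → Pl H}
  {fr : HeightOneSpectrum (𝓞 F) → G}

theorem l3_zsmul_val {T' : Finset (HeightOneSpectrum (𝓞 F))} (u : UM ι S T') (c : ℤ) :
    (c • u).val = u.val ^ c := rfl

theorem l3_smul_val {T' : Finset (HeightOneSpectrum (𝓞 F))} (a : MonoidAlgebra ℤ G)
    (u : UM ι S T) (u' : UM ι S T') (h : u.val = u'.val) : (a • u).val = (a • u').val := by
  induction a using MonoidAlgebra.induction_on with
  | of g =>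
    have h1 : MonoidAlgebra.of ℤ G g = MonoidAlgebra.single g 1 := rfl
    rw [h1, um_single_smul, um_single_smul, h]
  | add a b ha hb => rw [add_smul, add_smul, UM.val_add, UM.val_add, ha, hb]
  | smul c a ha =>
    have h1 : (c • a) • u = c • (a • u) := smul_assoc c a u
    have h2 : (c • a) • u' = c • (a • u') := smul_assoc c a u'
    rw [h1, h2, l3_zsmul_val, l3_zsmul_val, ha]

theorem l3_sub {v : HeightOneSpectrum (𝓞 F)} (hv : v ∉ T) {x : Hˣ}
    (hx : x ∈ Un (ovr H S) (ovr H (Finset.cons v T hv))) : x ∈ Un (ovr H S) (ovr H T) := by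
  refine ⟨hx.1, fun W hW => hx.2 W ?_⟩
  rw [mem_ovr] at hW ⊢
  exact Finset.mem_cons_of_mem hW

/-- the inclusion -/
noncomputable def l3_inc (ι : G ≃* (H ≃ₐ[F] H)) (S T : Finset (HeightOneSpectrum (𝓞 F)))
    {v : HeightOneSpectrum (𝓞 F)} (hv : v ∉ T) :
    UM ι S (Finset.cons v T hv) →ₗ[MonoidAlgebra ℤ G] UM ι S T where
  toFun u := UM.mk u.val (l3_sub hv u.val_mem)
  map_add' u u' := UM.ext (by
    rw [UM.val_mk, UM.val_add, UM.val_add, UM.val_mk, UM.val_mk])
  map_smul' a u := UM.ext (by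
    rw [UM.val_mk, RingHom.id_apply]
    exact l3_smul_val a _ _ rfl)

theorem l3_inc_val {v : HeightOneSpectrum (𝓞 F)} (hv : v ∉ T)
    (u : UM ι S (Finset.cons v T hv)) : (l3_inc ι S T hv u).val = u.val := rfl

theorem l3_inc_inj {v : HeightOneSpectrum (𝓞 F)} (hv : v ∉ T) :
    Function.Injective (l3_inc ι S T hv) := by
  intro u u' h
  have h1 := congrArg (fun z : UM ι S T => z.val) h
  exact UM.ext h1

theorem l3_inc_range {v : HeightOneSpectrum (𝓞 F)} (hv : v ∉ T) (u : UM ι S T) :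
    u ∈ LinearMap.range (l3_inc ι S T hv) ↔ u.val ∈ Un (ovr H S) (ovr H (Finset.cons v T hv)) := by
  constructor
  · rintro ⟨u', rfl⟩
    exact u'.val_mem
  · intro h
    exact ⟨UM.mk u.val h, UM.ext rfl⟩

theorem l3_wl {v : HeightOneSpectrum (𝓞 F)} (hv : v ∉ T) (W : Pl H)
    (u : UM ι S (Finset.cons v T hv)) : wl ι S (Finset.cons v T hv) W u =
      wl ι S T W (l3_inc ι S T hv u) := rfl

theorem lc_addT (hp : p.Prime) (hG : Nat.card G = p) (hD : Data ι S T r w fr) {l : ℕ}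
    (hl : l.Prime) {v : HeightOneSpectrum (𝓞 F)} (hv : v ∉ T) (hvS : v ∉ S)
    (h : LCore ι S T w fr l) : LCore ι S (Finset.cons v T hv) w fr l := by
  obtain ⟨c, hc, hne, b, x, hco, hint⟩ := h
  have hfin := um_finite hD
  have htf := um_tf hD
  have hq := nv_two_le v
  set δ : MonoidAlgebra ℤ G := 1 - MonoidAlgebra.single (fr v)⁻¹ (nv v : ℤ) with hδ
  have hres : ∃ f : UM ι S T →ₗ[MonoidAlgebra ℤ G] (MonoidAlgebra ℤ G ⧸ Ideal.span {δ}),
      ∀ u, f u = 0 ↔ u.val ∈ Un (ovr H S) (ovr H (Finset.cons v T hv)) := res_T hp hG hD hv hvS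
  obtain ⟨f, hf⟩ := hres
  set n : ℤ := 1 - (nv v : ℤ) ^ p with hn
  have hn0 : n ≠ 0 := l3_pow_ne hp hq
  have hnQ : (n : ℚ) ≠ 0 := by exact_mod_cast hn0
  have hnC : (n : ℂ) ≠ 0 := by exact_mod_cast hn0
  have hmem : ∀ u : UM ι S T, (n • u).val ∈ Un (ovr H S) (ovr H (Finset.cons v T hv)) := by
    intro u
    rw [← hf]
    have h1 : n • u = (MonoidAlgebra.single (1 : G) n) • u := by
      have h2 : MonoidAlgebra.single (1 : G) n = n • (1 : MonoidAlgebra ℤ G) := by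
        rw [MonoidAlgebra.one_def, MonoidAlgebra.smul_single]
        simp
      rw [h2, smul_assoc, one_smul]
    rw [h1, map_smul, hn, ← l3_geom hG (fr v)⁻¹ (nv v : ℤ)]
    obtain ⟨a, ha⟩ := Ideal.Quotient.mk_surjective (f u)
    rw [← ha]
    show Ideal.Quotient.mk (Ideal.span {δ}) (δ * _ * a) = 0
    rw [Ideal.Quotient.eq_zero_iff_mem, mul_assoc]
    exact Ideal.mul_mem_right _ _ (Ideal.mem_span_singleton_self δ)
  let b' : Fin r → UM ι S (Finset.cons v T hv) := fun j => UM.mk (n • b j).val (hmem (b j))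
  have hb' : ∀ j, l3_inc ι S T hv (b' j) = n • b j := fun j => UM.ext rfl
  let x' : MonoidAlgebra ℚ G := MonoidAlgebra.single 1 (((n : ℚ) ^ r)⁻¹) * (x * toQ G δ)
  have hw : wmat ι S (Finset.cons v T hv) w b' =
      (algebraMap ℝ (MonoidAlgebra ℝ G) (n : ℝ)) • wmat ι S T w b := by
    ext1 i j
    show wl ι S (Finset.cons v T hv) (w i) (b' j) =
      algebraMap ℝ (MonoidAlgebra ℝ G) (n : ℝ) * wl ι S T (w i) (b j)
    rw [l3_wl, hb', map_zsmul, ← Algebra.smul_def, Int.cast_smul_eq_zsmul]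
  refine ⟨fun χ => (1 - (χ (fr v) : ℂ) * (nv v : ℂ)) * c χ, leadx_addT hv hc,
    fun χ hχ => mul_ne_zero (l3_ne χ (fr v) hq) (hne χ hχ), b', x',
    ⟨fun j => ?_, ?_, fun χ hχ => ?_⟩, fun ψ => ?_⟩
  · apply l3_inc_inj hv
    rw [map_smul, hb', smul_comm, hco.minus j, smul_zero, map_zero]
  · show toQ G (nrm G) * (MonoidAlgebra.single 1 (((n : ℚ) ^ r)⁻¹) * (x * toQ G δ)) = 0
    have h1 := hco.xminus
    calc _ = MonoidAlgebra.single 1 (((n : ℚ) ^ r)⁻¹) * toQ G δ * (toQ G (nrm G) * x) := by ring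
      _ = 0 := by rw [h1, mul_zero]
  · show evQ χ (MonoidAlgebra.single 1 (((n : ℚ) ^ r)⁻¹) * (x * toQ G δ)) *
      evR χ (wmat ι S (Finset.cons v T hv) w b').det =
        (1 - ((χ⁻¹ (fr v) : ℂˣ) : ℂ) * (nv v : ℂ)) * c χ⁻¹
    have h1 : evQ χ (toQ G δ) = 1 - ((χ⁻¹ (fr v) : ℂˣ) : ℂ) * (nv v : ℂ) := by
      rw [hδ, map_sub, map_sub, map_one, map_one, l3_toQ_single, l3_evQ_single, map_inv]
      push_cast
      have : (((χ (fr v))⁻¹ : ℂˣ) : ℂ) = ((χ⁻¹ (fr v) : ℂˣ) : ℂ) := rfl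
      rw [← this]
      push_cast
      ring
    rw [hw, Matrix.det_smul, Fintype.card_fin, map_mul, map_mul, map_mul, map_pow, l3_evQ_single,
      h1, ← hco.value χ hχ, AlgHom.commutes, map_one, Units.val_one]
    have h2 : algebraMap ℝ ℂ (n : ℝ) = (n : ℂ) := by simp
    rw [h2]
    push_cast
    have h5 : ((n : ℂ) ^ r)⁻¹ * (n : ℂ) ^ r = 1 := inv_mul_cancel₀ (pow_ne_zero _ hnC)
    linear_combination (evQ χ x * evR χ (wmat ι S T w b).det *
      (1 - ((χ⁻¹ (fr v) : ℂˣ) : ℂ) * (nv v : ℂ))) * h5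
  · obtain ⟨a, ψ₁, hψ⟩ := ext_T (fun a ha => l3_nzd hp hG (fr v)⁻¹ hq a ha) f
      (l3_inc ι S T hv) (l3_inc_inj hv) (fun u => (hf u).trans (l3_inc_range hv u).symm) ψ b n hn0
      b' hb'
    choose k d hk hkd using fun t : Option (Fin r) => hint (ψ₁ t)
    refine ⟨∏ t, k t, ∑ t, a t * MonoidAlgebra.single 1 ((∏ s ∈ Finset.univ.erase t, k s : ℕ) : ℤ) *
      d t, ?_, ?_⟩
    · rw [hl.prime.dvd_finsetProd_iff]
      rintro ⟨t, _, ht⟩
      exact hk t ht
    · have e1 : x' * toQ G (pmat ψ b').det = ∑ t, toQ G (a t) * (x * toQ G (pmat (ψ₁ t) b).det) := by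
        have h3 : toQ G (δ * (pmat ψ b').det) =
            toQ G (n ^ r • ∑ t, a t * (pmat (ψ₁ t) b).det) := congrArg (toQ G) hψ
        rw [map_mul, map_zsmul, map_sum] at h3
        show MonoidAlgebra.single 1 (((n : ℚ) ^ r)⁻¹) * (x * toQ G δ) * toQ G (pmat ψ b').det = _
        have h4 : MonoidAlgebra.single (1 : G) (((n : ℚ) ^ r)⁻¹) *
            MonoidAlgebra.single (1 : G) ((n : ℚ) ^ r) = 1 := by
          rw [MonoidAlgebra.single_mul_single, one_mul,
            inv_mul_cancel₀ (pow_ne_zero _ hnQ)]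
          rfl
        have h5 : (n ^ r) • ∑ t, toQ G (a t * (pmat (ψ₁ t) b).det) =
            MonoidAlgebra.single (1 : G) ((n : ℚ) ^ r) * ∑ t, toQ G (a t * (pmat (ψ₁ t) b).det) := by
          have h6 : MonoidAlgebra.single (1 : G) ((n : ℚ) ^ r) =
              (n ^ r) • (1 : MonoidAlgebra ℚ G) := by
            rw [MonoidAlgebra.one_def, MonoidAlgebra.smul_single]
            simp
          rw [h6, smul_mul_assoc, one_mul]
        rw [h5] at h3
        calc _ = MonoidAlgebra.single 1 (((n : ℚ) ^ r)⁻¹) * x *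
              (toQ G δ * toQ G (pmat ψ b').det) := by ring
          _ = (MonoidAlgebra.single (1 : G) (((n : ℚ) ^ r)⁻¹) *
              MonoidAlgebra.single (1 : G) ((n : ℚ) ^ r)) * x *
                ∑ t, toQ G (a t * (pmat (ψ₁ t) b).det) := by rw [h3]; ring
          _ = ∑ t, toQ G (a t) * (x * toQ G (pmat (ψ₁ t) b).det) := by
            rw [h4, one_mul, Finset.mul_sum]
            refine Finset.sum_congr rfl fun t _ => ?_
            rw [map_mul]
            ring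
      rw [e1, Finset.mul_sum, map_sum]
      refine Finset.sum_congr rfl fun t _ => ?_
      rw [map_mul, map_mul, ← hkd t, l3_toQ_single, ← Finset.mul_prod_erase _ _ (Finset.mem_univ t)]
      have e2 : MonoidAlgebra.single (1 : G) ((k t * ∏ s ∈ Finset.univ.erase t, k s : ℕ) : ℚ) =
          MonoidAlgebra.single (1 : G) (k t : ℚ) *
            MonoidAlgebra.single (1 : G) (((∏ s ∈ Finset.univ.erase t, k s : ℕ) : ℤ) : ℚ) := by
        rw [MonoidAlgebra.single_mul_single, one_mul]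
        push_cast
        rfl
      rw [e2]
      ring

end L3b

end Pool.Agent.RSK
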