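import Pool.Agent.Lib_helper17.RS.Bas
import Pool.Agent.Lib_helper17.RS.BasZ
import Pool.Agent.Lib_helper17.RS.P_LE
/-!
# Rubin-Stark, block L4: removing a place from `T`
-/

namespace Pool.Agent.RSK

set_option linter.unusedSectionVars false

open NumberField NumberField.InfinitePlace NumberField.Units IsDedekindDomain Filter Topology
  Complex

section L4

variable {F H : Type} [Field F] [NumberField F] [Field H] [NumberField H] [Algebra F H]
  [IsGalois F H] {G : Type} [CommGroup G] [Fintype G] {p : ℕ} {ι : G ≃* (H ≃ₐ[F] H)}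
  {S T : Finset (HeightOneSpectrum (𝓞 F))} {r : ℕ} {w : Fin r → Pl H}
  {fr : HeightOneSpectrum (𝓞 F) → G}

theorem l4_mem {T' : Finset (HeightOneSpectrum (𝓞 F))} (hT : T ⊆ T') {x : Hˣ}
    (hx : x ∈ Un (ovr H S) (ovr H T')) : x ∈ Un (ovr H S) (ovr H T) := by
  refine ⟨hx.1, fun W hW => hx.2 W ?_⟩
  rw [mem_ovr] at hW ⊢
  exact hT hW

/-- the inclusion as an additive map -/
noncomputable def l4_incA (ι : G ≃* (H ≃ₐ[F] H)) (S : Finset (HeightOneSpectrum (𝓞 F)))
    {T T' : Finset (HeightOneSpectrum (𝓞 F))} (hT : T ⊆ T') : UM ι S T' →+ UM ι S T where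
  toFun u := UM.mk u.val (l4_mem hT u.val_mem)
  map_zero' := UM.ext (by rw [UM.val_mk, UM.val_zero, UM.val_zero])
  map_add' u v := UM.ext (by rw [UM.val_mk, UM.val_add, UM.val_add, UM.val_mk, UM.val_mk])

theorem l4_incA_val {T' : Finset (HeightOneSpectrum (𝓞 F))} (hT : T ⊆ T') (u : UM ι S T') :
    (l4_incA ι S hT u).val = u.val := rfl

/-- the inclusion -/
noncomputable def l4_inc (ι : G ≃* (H ≃ₐ[F] H)) (S : Finset (HeightOneSpectrum (𝓞 F)))
    {T T' : Finset (HeightOneSpectrum (𝓞 F))} (hT : T ⊆ T') :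
    UM ι S T' →ₗ[MonoidAlgebra ℤ G] UM ι S T where
  toFun := l4_incA ι S hT
  map_add' := map_add _
  map_smul' a u := by
    show l4_incA ι S hT (a • u) = a • l4_incA ι S hT u
    induction a using MonoidAlgebra.induction_on with
    | of g =>
      have h : MonoidAlgebra.of ℤ G g = MonoidAlgebra.single g 1 := rfl
      refine UM.ext ?_
      rw [h, l4_incA_val, um_single_smul, um_single_smul, l4_incA_val]
    | add a b ha hb => rw [add_smul, map_add, ha, hb, add_smul]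
    | smul c a ha =>
      have h : (c • a) • u = c • (a • u) := smul_assoc c a u
      have h' : (c • a) • (l4_incA ι S hT u) = c • (a • (l4_incA ι S hT u)) := smul_assoc c a _
      rw [h, map_zsmul, ha, h']

theorem l4_inc_val {T' : Finset (HeightOneSpectrum (𝓞 F))} (hT : T ⊆ T') (u : UM ι S T') :
    (l4_inc ι S hT u).val = u.val := rfl

theorem l4_wl {T' : Finset (HeightOneSpectrum (𝓞 F))} (hT : T ⊆ T') (W : Pl H) (u : UM ι S T') :
    wl ι S T W (l4_inc ι S hT u) = wl ι S T' W u := rfl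

/-- the element `h` with `(1 - g⁻¹ q) h = ∑_{i < p} q ^ i` modulo the norm element -/
noncomputable def l4_h (p q : ℕ) (g : G) : MonoidAlgebra ℤ G :=
  -∑ i ∈ Finset.range p, MonoidAlgebra.single (g⁻¹ ^ i) (∑ j ∈ Finset.range i, (q : ℤ) ^ j)

theorem l4_ev_single (χ : G →* ℂˣ) (g : G) (n : ℤ) :
    evQ χ (toQ G (MonoidAlgebra.single g n)) = (n : ℂ) * (χ g : ℂ) := by
  have h1 : toQ G (MonoidAlgebra.single g n) = MonoidAlgebra.single g (n : ℚ) := by
    simp [toQ]
  rw [h1]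
  unfold evQ
  rw [MonoidAlgebra.lift_single]
  show (n : ℚ) • ((χ g : ℂˣ) : ℂ) = _
  rw [Rat.smul_def]
  push_cast
  ring

theorem l4_chi (hp : p.Prime) (hG : Nat.card G = p) {g : G} (hg : g ≠ 1) {χ : G →* ℂˣ}
    (hχ : χ ≠ 1) : (χ g⁻¹ : ℂ) ≠ 1 ∧ ((χ g⁻¹ : ℂˣ) : ℂ) ^ p = 1 := by
  constructor
  · intro h
    refine hχ ?_
    ext x
    haveI : Fact p.Prime := ⟨hp⟩
    have hmem : x ∈ Subgroup.zpowers g⁻¹ := mem_zpowers_of_prime_card hG (by simpa using hg)
    obtain ⟨n, rfl⟩ := Subgroup.mem_zpowers_iff.mp hmem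
    have h1 : χ g⁻¹ = 1 := Units.ext h
    rw [map_zpow, h1, one_zpow]
    rfl
  · have h1 : g⁻¹ ^ p = 1 := by rw [← hG, pow_card_eq_one']
    rw [← Units.val_pow_eq_pow_val, ← map_pow, h1, map_one, Units.val_one]

theorem l4_geom {z q : ℂ} {p : ℕ} (hz : z ≠ 1) (hzp : z ^ p = 1) :
    (-∑ i ∈ Finset.range p, (∑ j ∈ Finset.range i, q ^ j) * z ^ i) * (1 - z * q) =
      ∑ i ∈ Finset.range p, q ^ i := by
  have h0 : ∑ i ∈ Finset.range p, z ^ i = 0 := by
    have h := geom_sum_mul z p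
    rw [hzp, sub_self] at h
    exact (mul_eq_zero.mp h).resolve_right (sub_ne_zero.mpr hz)
  -- the general identity
  have key : ∀ n : ℕ, (-∑ i ∈ Finset.range n, (∑ j ∈ Finset.range i, q ^ j) * z ^ i) * (1 - z * q) =
      (∑ j ∈ Finset.range n, q ^ j) * z ^ n - ∑ i ∈ Finset.range n, z ^ (i + 1) := by
    intro n
    induction n with
    | zero => simp
    | succ n ih =>
      rw [Finset.sum_range_succ, neg_add, add_mul, ih]
      have h1 : ∑ j ∈ Finset.range (n + 1), q ^ j = 1 + q * ∑ j ∈ Finset.range n, q ^ j := by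
        rw [Finset.sum_range_succ', Finset.mul_sum, pow_zero, add_comm]
        congr 1
        exact Finset.sum_congr rfl fun j _ => by rw [pow_succ']
      rw [Finset.sum_range_succ (fun i => z ^ (i + 1)), h1, pow_succ z n]
      ring
  rw [key, hzp, mul_one]
  have h1 : ∑ i ∈ Finset.range p, z ^ (i + 1) = 0 := by
    have : ∑ i ∈ Finset.range p, z ^ (i + 1) = z * ∑ i ∈ Finset.range p, z ^ i := by
      rw [Finset.mul_sum]
      exact Finset.sum_congr rfl fun j _ => by rw [pow_succ']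
    rw [this, h0, mul_zero]
  rw [h1, sub_zero]

theorem l4_ev_h (hp : p.Prime) (hG : Nat.card G = p) {g : G} (hg : g ≠ 1) {χ : G →* ℂˣ}
    (hχ : χ ≠ 1) (q : ℕ) : evQ χ (toQ G (l4_h p q g)) * (1 - (χ g⁻¹ : ℂ) * (q : ℂ)) =
      ∑ i ∈ Finset.range p, (q : ℂ) ^ i := by
  obtain ⟨h1, h2⟩ := l4_chi hp hG hg hχ
  rw [← l4_geom h1 h2]
  congr 1
  unfold l4_h
  rw [map_neg, map_neg, map_sum, map_sum]
  congr 1
  refine Finset.sum_congr rfl fun i _ => ?_
  rw [l4_ev_single, map_pow, Units.val_pow_eq_pow_val]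
  push_cast
  ring

theorem lc_rmT (hp : p.Prime) (hG : Nat.card G = p) (hD : Data ι S T r w fr) {l : ℕ}
    (hl : l.Prime) {v : HeightOneSpectrum (𝓞 F)} (hv : v ∉ T) (hvS : v ∉ S) (hfr : fr v ≠ 1)
    (hlv : ¬ l ∣ ∑ i ∈ Finset.range p, nv v ^ i)
    (h : LCore ι S (Finset.cons v T hv) w fr l) : LCore ι S T w fr l := by
  obtain ⟨c, hc, hc0, b, x, hx, hint⟩ := h
  have hTT : T ⊆ Finset.cons v T hv := Finset.subset_cons hv
  set N : ℕ := ∑ i ∈ Finset.range p, nv v ^ i with hN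
  have hN0 : (N : ℂ) ≠ 0 := by
    have : N ≠ 0 := fun h => hlv (by rw [h]; exact dvd_zero _)
    exact_mod_cast this
  have hN0' : (N : ℚ) ≠ 0 := by exact_mod_cast hN0
  set h := l4_h p (nv v) (fr v) with hh
  have hhv : ∀ χ : G →* ℂˣ, χ ≠ 1 →
      evQ χ (toQ G h) * (1 - (χ⁻¹ (fr v) : ℂ) * (nv v : ℂ)) = N := by
    intro χ hχ
    have h1 := l4_ev_h hp hG hfr hχ (nv v)
    have h2 : (χ⁻¹ (fr v) : ℂ) = (χ (fr v)⁻¹ : ℂ) := by rw [MonoidHom.inv_apply, map_inv]
    rw [h2, h1, hN]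
    push_cast
    rfl
  have hden : ∀ χ : G →* ℂˣ, χ ≠ 1 → (1 - (χ⁻¹ (fr v) : ℂ) * (nv v : ℂ)) ≠ 0 := by
    intro χ hχ h0
    have h1 := hhv χ hχ
    rw [h0, mul_zero] at h1
    exact hN0 h1.symm
  refine ⟨fun χ => c χ / (1 - (χ (fr v) : ℂ) * (nv v : ℂ)), leadx_rmT hv hc, fun χ hχ => ?_,
    fun j => l4_inc ι S hTT (b j), x * (toQ G h * MonoidAlgebra.single 1 ((N : ℚ)⁻¹)), ?_, ?_⟩
  · have hχ' : χ⁻¹ ≠ 1 := by
      intro h0
      apply hχ
      ext g
      have := DFunLike.congr_fun h0 g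
      rw [MonoidHom.inv_apply, MonoidHom.one_apply, inv_eq_one] at this
      rw [this, MonoidHom.one_apply]
    have h1 := hden χ⁻¹ hχ'
    have h2 : (χ⁻¹)⁻¹ (fr v) = χ (fr v) := by
      rw [MonoidHom.inv_apply, MonoidHom.inv_apply, inv_inv]
    rw [h2] at h1
    exact div_ne_zero (hc0 χ hχ) h1
  · refine ⟨fun j => ?_, ?_, fun χ hχ => ?_⟩
    · rw [← map_smul, hx.minus j, map_zero]
    · rw [← mul_assoc, hx.xminus, zero_mul]
    · have hw : wmat ι S T w (fun j => l4_inc ι S hTT (b j)) =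
          wmat ι S (Finset.cons v T hv) w b := by
        unfold wmat
        ext i j
        rfl
      have hs : evQ χ (MonoidAlgebra.single (1 : G) ((N : ℚ)⁻¹)) = (N : ℂ)⁻¹ := by
        unfold evQ
        rw [MonoidAlgebra.lift_single, map_one, Rat.smul_def, mul_one]
        push_cast
        rfl
      rw [hw, map_mul, map_mul, hs, mul_right_comm, hx.value χ hχ]
      have h1 := hhv χ hχ
      have h2 := hden χ hχ
      rw [div_eq_mul_inv]
      congr 1
      rw [← h1]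
      have h3 : evQ χ (toQ G h) ≠ 0 := by
        intro h0
        rw [h0, zero_mul] at h1
        exact hN0 h1.symm
      field_simp
  · intro ψ
    obtain ⟨k, a, hk, ha⟩ := hint (fun i => (ψ i).comp (l4_inc ι S hTT))
    refine ⟨k * N, a * h, fun hd => ?_, ?_⟩
    · rcases (Nat.Prime.dvd_mul hl).mp hd with h1 | h1
      · exact hk h1
      · exact hlv h1
    · have hpm : pmat ψ (fun j => l4_inc ι S hTT (b j)) =
          pmat (fun i => (ψ i).comp (l4_inc ι S hTT)) b := by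
        unfold pmat
        ext i j
        rfl
      rw [hpm, map_mul, ← ha]
      have h1 : MonoidAlgebra.single (1 : G) ((k * N : ℕ) : ℚ) =
          MonoidAlgebra.single 1 (k : ℚ) * MonoidAlgebra.single 1 (N : ℚ) := by
        rw [MonoidAlgebra.single_mul_single, one_mul, Nat.cast_mul]
      have h2 : MonoidAlgebra.single (1 : G) (N : ℚ) * MonoidAlgebra.single 1 ((N : ℚ)⁻¹) = 1 := by
        rw [MonoidAlgebra.single_mul_single, one_mul, mul_inv_cancel₀ hN0']
        rfl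
      rw [h1]
      calc _ = MonoidAlgebra.single 1 (k : ℚ) * (x * toQ G (pmat (fun i => (ψ i).comp
          (l4_inc ι S hTT)) b).det) * toQ G h *
          (MonoidAlgebra.single (1 : G) (N : ℚ) * MonoidAlgebra.single 1 ((N : ℚ)⁻¹)) := by ring
        _ = _ := by rw [h2, mul_one]

end L4

end Pool.Agent.RSK
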