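import Pool.Agent.Lib_helper17.RS.Bas
import Pool.Agent.Lib_helper17.RS.P_PX1
import Pool.Agent.Lib_helper17.RS.P_PX2
namespace Pool.Agent.RSK

set_option linter.unusedSectionVars false

open Filter Topology Complex
open scoped TensorProduct

section ALG

variable {G : Type} [CommGroup G] [Fintype G]

theorem aa_ev (χ : G →* ℂˣ) (x : MonoidAlgebra ℚ G) :
    evQ χ x = ∑ h : G, (x.coeff h : ℂ) * (χ h : ℂ) := by
  unfold evQ
  rw [MonoidAlgebra.lift_apply', Finsupp.sum_fintype _ _ (by simp)]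
  rfl

open scoped Classical in
theorem aa_orth [Fintype (G →* ℂˣ)] (h : G) :
    ∑ χ : G →* ℂˣ, (χ h : ℂ) = if h = 1 then (Nat.card G : ℂ) else 0 := by
  split_ifs with hh
  · subst hh
    simp only [map_one, Units.val_one, Finset.sum_const, Finset.card_univ, nsmul_eq_mul, mul_one]
    rw [← Nat.card_eq_fintype_card, CommGroup.card_monoidHom_of_hasEnoughRootsOfUnity]
  · obtain ⟨ψ, hψ⟩ := CommGroup.exists_apply_ne_one_of_hasEnoughRootsOfUnity G ℂ hh
    have h1 : ∑ χ : G →* ℂˣ, (χ h : ℂ) = (ψ h : ℂ) * ∑ χ : G →* ℂˣ, (χ h : ℂ) := by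
      rw [Finset.mul_sum]
      have := Equiv.sum_comp (Equiv.mulLeft ψ) (fun χ : G →* ℂˣ => (χ h : ℂ))
      rw [← this]
      refine Finset.sum_congr rfl fun χ _ => ?_
      simp
    have h2 : ((ψ h : ℂ) - 1) * ∑ χ : G →* ℂˣ, (χ h : ℂ) = 0 := by linear_combination -h1
    rcases mul_eq_zero.1 h2 with h3 | h3
    · exfalso
      apply hψ
      ext
      rw [Units.val_one]
      exact sub_eq_zero.1 h3
    · exact h3

open scoped Classical in
theorem aa_inv [Fintype (G →* ℂˣ)] (x : MonoidAlgebra ℚ G) (g : G) :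
    ∑ χ : G →* ℂˣ, evQ χ x * (χ g⁻¹ : ℂ) = (Nat.card G : ℂ) * (x.coeff g : ℂ) := by
  have h1 : ∀ χ : G →* ℂˣ, evQ χ x * (χ g⁻¹ : ℂ) = ∑ h : G, (x.coeff h : ℂ) * (χ (h * g⁻¹) : ℂ) := by
    intro χ
    rw [aa_ev, Finset.sum_mul]
    refine Finset.sum_congr rfl fun h _ => ?_
    rw [map_mul, Units.val_mul]
    ring
  rw [Finset.sum_congr rfl fun χ _ => h1 χ, Finset.sum_comm]
  have h2 : ∀ h : G, ∑ χ : G →* ℂˣ, (x.coeff h : ℂ) * (χ (h * g⁻¹) : ℂ)
      = if h = g then (x.coeff h : ℂ) * (Nat.card G : ℂ) else 0 := by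
    intro h
    rw [← Finset.mul_sum, aa_orth]
    by_cases hh : h = g
    · rw [if_pos hh, if_pos (by rw [hh, mul_inv_cancel])]
    · rw [if_neg hh, if_neg (fun h3 => hh (mul_inv_eq_one.1 h3)), mul_zero]
  rw [Finset.sum_congr rfl fun h _ => h2 h, Finset.sum_ite_eq' Finset.univ g, if_pos (Finset.mem_univ _)]
  ring

theorem aa_inj {p : ℕ} (hp : p.Prime) (hG : Nat.card G = p) {χ : G →* ℂˣ} (hχ : χ ≠ 1) :
    Function.Injective χ := by
  have : Fact p.Prime := ⟨hp⟩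
  have : Fact (Nat.card G).Prime := ⟨by rw [hG]; exact hp⟩
  rw [← MonoidHom.ker_eq_bot_iff]
  rcases Subgroup.eq_bot_or_eq_top_of_prime_card χ.ker with h | h
  · exact h
  · exfalso
    apply hχ
    ext g
    have : g ∈ χ.ker := by rw [h]; exact Subgroup.mem_top g
    rw [MonoidHom.mem_ker] at this
    rw [this, MonoidHom.one_apply]

theorem aa_range {p : ℕ} (hp : p.Prime) (hG : Nat.card G = p) {χ : G →* ℂˣ} (hχ : χ ≠ 1) :
    χ.range = rootsOfUnity p ℂ := by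
  have : NeZero p := ⟨hp.ne_zero⟩
  apply Subgroup.eq_of_le_of_card_ge
  · rintro z ⟨g, rfl⟩
    rw [_root_.mem_rootsOfUnity, ← map_pow, ← hG, pow_card_eq_one', map_one]
  · refine (card_rootsOfUnity ℂ p).trans ?_
    have h1 : Nat.card χ.range = Nat.card G :=
      Nat.card_congr (MonoidHom.ofInjective (aa_inj hp hG hχ)).toEquiv.symm
    rw [h1, hG]

theorem aa_aut {p : ℕ} (hp : p.Prime) (hG : Nat.card G = p) {χ ψ : G →* ℂˣ} (hχ : χ ≠ 1) (hψ : ψ ≠ 1) :
    ∃ e : MulAut G, ∀ g, χ (e g) = ψ g := by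
  refine ⟨(MonoidHom.ofInjective (aa_inj hp hG hψ)).trans ((MulEquiv.subgroupCongr
    ((aa_range hp hG hψ).trans (aa_range hp hG hχ).symm)).trans
      (MonoidHom.ofInjective (aa_inj hp hG hχ)).symm), fun g => ?_⟩
  have h1 := MulEquiv.apply_symm_apply (MonoidHom.ofInjective (aa_inj hp hG hχ))
    (MulEquiv.subgroupCongr ((aa_range hp hG hψ).trans (aa_range hp hG hχ).symm)
      (MonoidHom.ofInjective (aa_inj hp hG hψ) g))
  have h2 := congrArg (fun z : χ.range => (z : ℂˣ)) h1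
  exact h2

theorem aa_map (χ : G →* ℂˣ) (e : MulAut G) (x : MonoidAlgebra ℚ G) :
    evQ χ (MonoidAlgebra.mapDomain e x) = evQ (χ.comp e.toMonoidHom) x := by
  have h : ((evQ χ).toRingHom.comp (MonoidAlgebra.mapDomainRingHom ℚ e.toMonoidHom)) = (evQ (χ.comp e.toMonoidHom)).toRingHom := by
    apply MonoidAlgebra.ringHom_ext
    · intro r
      simp [evQ]
    · intro g
      simp [evQ]
  exact RingHom.congr_fun h x

/-- Symmetric elements whose norm is integral outside `p` are integral outside `p`. -/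
theorem alg_away {p : ℕ} (hp : p.Prime) (hG : Nat.card G = p) (x : MonoidAlgebra ℚ G)
    (hx : toQ G (nrm G) * x = 0)
    (hsym : ∀ e : MulAut G, ∃ (g : G) (ε : ℤ), (ε = 1 ∨ ε = -1) ∧
      MonoidAlgebra.mapDomain e x = MonoidAlgebra.single g (ε : ℚ) * x)
    (hN : ∃ (a : ℕ) (n : ℤ), (p : ℂ) ^ a * pX (fun χ => evQ χ x) = n) :
    ∃ (k : ℕ) (a : MonoidAlgebra ℤ G), MonoidAlgebra.single 1 ((p : ℚ) ^ k) * x = toQ G a := by
  obtain ⟨A, n, hn⟩ := hN
  have hfin : Finite (G →* ℂˣ) := dual_finite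
  have : Fintype (G →* ℂˣ) := Fintype.ofFinite _
  have hx1 : evQ (1 : G →* ℂˣ) x = 0 := (evQ_one_nrm x).1 hx
  -- the `2p`-th powers of the values agree
  have hpow : ∀ χ ψ : G →* ℂˣ, χ ≠ 1 → ψ ≠ 1 → (evQ ψ x) ^ (2 * p) = (evQ χ x) ^ (2 * p) := by
    intro χ ψ hχ hψ
    obtain ⟨e, he⟩ := aa_aut hp hG hχ hψ
    obtain ⟨g, ε, hε, h1⟩ := hsym e
    have h2 := congrArg (evQ χ) h1
    rw [aa_map, map_mul] at h2
    have h3 : χ.comp e.toMonoidHom = ψ := by
      ext g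
      exact congrArg Units.val (he g)
    rw [h3] at h2
    have h4 : evQ χ (MonoidAlgebra.single g (ε : ℚ)) = (ε : ℂ) * (χ g : ℂ) := by
      simp [evQ, Algebra.smul_def]
    have h5 : (χ g : ℂ) ^ (2 * p) = 1 := by
      have : (χ g) ^ (2 * p) = 1 := by
        rw [← map_pow, mul_comm, pow_mul, ← hG, pow_card_eq_one', one_pow, map_one]
      rw [← Units.val_pow_eq_pow_val, this, Units.val_one]
    have h6 : (ε : ℂ) ^ (2 * p) = 1 := by
      rcases hε with h | h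
      · rw [h]
        simp
      · rw [h, pow_mul]
        simp
    rw [h2, h4, mul_pow, mul_pow, h5, h6]
    ring
  have hprod : ∀ χ : G →* ℂˣ, χ ≠ 1 → ((evQ χ x) ^ (2 * p)) ^ (p - 1) = (pX (fun χ => evQ χ x)) ^ (2 * p) := by
    intro χ hχ
    rw [← pX_const (G := G) hG, pX_congr (fun ψ hψ => (hpow χ ψ hχ hψ).symm)]
    unfold pX
    rw [finprod_pow (Set.toFinite _)]
  have hint : ∀ χ : G →* ℂˣ, IsIntegral ℤ ((p : ℂ) ^ A * evQ χ x) := by
    intro χ
    by_cases hχ : χ = 1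
    · rw [hχ, hx1, mul_zero]
      exact isIntegral_zero
    · have hp2 := hp.two_le
      obtain ⟨q, rfl⟩ : ∃ q, p = q + 2 := ⟨p - 2, by omega⟩
      have h1 : ((((q + 2 : ℕ) : ℂ) ^ A * evQ χ x) ^ (2 * (q + 2))) ^ (q + 1)
          = ((((((q + 2 : ℕ) : ℤ) ^ A) ^ (2 * (q + 2))) ^ q * n ^ (2 * (q + 2)) : ℤ) : ℂ) := by
        have h2 := hprod χ hχ
        rw [show q + 2 - 1 = q + 1 by omega] at h2
        rw [mul_pow, mul_pow, h2]
        push_cast
        rw [← hn]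
        push_cast
        ring
      have h3 : IsIntegral ℤ (((((q + 2 : ℕ) : ℂ) ^ A * evQ χ x) ^ (2 * (q + 2))) ^ (q + 1)) := by
        rw [h1]
        exact isIntegral_algebraMap (R := ℤ) (A := ℂ)
      exact IsIntegral.of_pow (by omega) (IsIntegral.of_pow (by omega) h3)
  have hcoef : ∀ g : G, ∃ m : ℤ, (m : ℚ) = (p : ℚ) ^ (A + 1) * x.coeff g := by
    intro g
    have h1 : (((p : ℚ) ^ (A + 1) * x.coeff g : ℚ) : ℂ) = ∑ χ : G →* ℂˣ, ((p : ℂ) ^ A * evQ χ x) * (χ g⁻¹ : ℂ) := by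
      have h2 : ∀ χ : G →* ℂˣ, ((p : ℂ) ^ A * evQ χ x) * (χ g⁻¹ : ℂ) = (p : ℂ) ^ A * (evQ χ x * (χ g⁻¹ : ℂ)) := by
        intro χ
        ring
      rw [Finset.sum_congr rfl fun χ _ => h2 χ, ← Finset.mul_sum, aa_inv, hG]
      push_cast
      ring
    have h3 : IsIntegral ℤ (((p : ℚ) ^ (A + 1) * x.coeff g : ℚ) : ℂ) := by
      rw [h1]
      refine IsIntegral.sum _ fun χ _ => (hint χ).mul ?_
      refine IsIntegral.of_pow (n := p) hp.pos ?_
      have : (χ g⁻¹) ^ p = 1 := by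
        rw [← map_pow, ← hG, pow_card_eq_one', map_one]
      rw [← Units.val_pow_eq_pow_val, this, Units.val_one]
      exact isIntegral_one
    have h4 : IsIntegral ℤ ((p : ℚ) ^ (A + 1) * x.coeff g : ℚ) :=
      (isIntegral_algebraMap_iff (R := ℤ) (A := ℚ) (B := ℂ) (algebraMap ℚ ℂ).injective).1 h3
    obtain ⟨m, hm⟩ := IsIntegrallyClosed.isIntegral_iff.1 h4
    exact ⟨m, hm⟩
  choose m hm using hcoef
  refine ⟨A + 1, MonoidAlgebra.ofCoeff (Finsupp.equivFunOnFinite.symm m), ?_⟩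
  ext g
  rw [MonoidAlgebra.coeff_single_one_mul, ← hm g]
  simp [toQ]

end ALG

end Pool.Agent.RSK
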