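import Pool.Agent.Lib_helper17.RS.Bas
/-! Rubin-Stark, block GC: conjugation -/

namespace Pool.Agent.RSK

set_option linter.unusedSectionVars false

open NumberField NumberField.InfinitePlace NumberField.Units IsDedekindDomain Filter Topology
  Complex

section GCG

variable {F₀ F L H : Type} [Field F₀] [Field F] [Field L] [Field H] [Algebra F₀ F]
  [Algebra F₀ L] [Algebra F₀ H] [Algebra F H] [Algebra L H] [IsScalarTower F₀ F H]
  [IsScalarTower F₀ L H] {G : Type} [CommGroup G] {ι : G ≃* (H ≃ₐ[F] H)}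

/-- an automorphism over `L` as an automorphism over `F₀` -/
def gc_up (F₀ : Type) {L H : Type} [Field F₀] [Field L] [Field H] [Algebra F₀ L] [Algebra F₀ H]
    [Algebra L H] [IsScalarTower F₀ L H] : (H ≃ₐ[L] H) →* (H ≃ₐ[F₀] H) where
  toFun δ := δ.restrictScalars F₀
  map_one' := by ext x; rfl
  map_mul' := by intro a b; ext x; rfl

/-- the automorphism `δ σ δ⁻¹` over `F` -/
noncomputable def gc_conj (F₀ : Type) {F L H : Type} [Field F₀] [Field F] [Field L] [Field H]
    [Algebra F₀ F] [Algebra F₀ L] [Algebra F₀ H]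
    [Algebra F H] [Algebra L H] [IsScalarTower F₀ F H] [IsScalarTower F₀ L H] [Normal F₀ F]
    (δ : H ≃ₐ[L] H) (σ : H ≃ₐ[F] H) : H ≃ₐ[F] H :=
  { (δ.symm.toRingEquiv.trans (σ.toRingEquiv.trans δ.toRingEquiv)) with
    commutes' := by
      intro x
      show δ (σ (δ.symm (algebraMap F H x))) = algebraMap F H x
      have h1 : δ.symm (algebraMap F H x) =
          algebraMap F H (((δ.symm).restrictScalars F₀).restrictNormal F x) :=
        (AlgEquiv.restrictNormal_commutes ((δ.symm).restrictScalars F₀) F x).symm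
      rw [h1, σ.commutes, ← h1]
      exact δ.apply_symm_apply _ }

theorem gc_conj_apply [Normal F₀ F] (δ : H ≃ₐ[L] H) (σ : H ≃ₐ[F] H) (x : H) :
    gc_conj F₀ δ σ x = δ (σ (δ.symm x)) := rfl

/-- the action on `G` -/
noncomputable def gc_fun (F₀ : Type) {F L H : Type} [Field F₀] [Field F] [Field L] [Field H]
    [Algebra F₀ F] [Algebra F₀ L] [Algebra F₀ H]
    [Algebra F H] [Algebra L H] [IsScalarTower F₀ F H] [IsScalarTower F₀ L H] [Normal F₀ F]
    {G : Type} [CommGroup G] (ι : G ≃* (H ≃ₐ[F] H)) (δ : H ≃ₐ[L] H) (g : G) : G :=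
  ι.symm (gc_conj F₀ δ (ι g))

theorem gc_fun_spec [Normal F₀ F] (δ : H ≃ₐ[L] H) (g : G) (x : H) :
    δ (ι g x) = ι (gc_fun F₀ ι δ g) (δ x) := by
  unfold gc_fun
  rw [MulEquiv.apply_symm_apply, gc_conj_apply, AlgEquiv.symm_apply_apply]

theorem gc_fun_mul [Normal F₀ F] (δ ε : H ≃ₐ[L] H) (g : G) :
    gc_fun F₀ ι (δ * ε) g = gc_fun F₀ ι δ (gc_fun F₀ ι ε g) := by
  unfold gc_fun
  congr 1
  rw [MulEquiv.apply_symm_apply]
  ext x
  rfl

theorem gc_fun_one [Normal F₀ F] (g : G) : gc_fun F₀ ι (1 : H ≃ₐ[L] H) g = g := by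
  unfold gc_fun
  rw [MulEquiv.symm_apply_eq]
  ext x
  rfl

theorem gc_fun_map [Normal F₀ F] (δ : H ≃ₐ[L] H) (g h : G) :
    gc_fun F₀ ι δ (g * h) = gc_fun F₀ ι δ g * gc_fun F₀ ι δ h := by
  unfold gc_fun
  rw [← map_mul]
  congr 1
  rw [map_mul]
  ext x
  rw [AlgEquiv.mul_apply, gc_conj_apply, gc_conj_apply, gc_conj_apply,
    AlgEquiv.symm_apply_apply]
  rfl

/-- the homomorphism -/
noncomputable def gc_hom (F₀ : Type) {F L H : Type} [Field F₀] [Field F] [Field L] [Field H]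
    [Algebra F₀ F] [Algebra F₀ L] [Algebra F₀ H]
    [Algebra F H] [Algebra L H] [IsScalarTower F₀ F H] [IsScalarTower F₀ L H] [Normal F₀ F]
    {G : Type} [CommGroup G] (ι : G ≃* (H ≃ₐ[F] H)) : (H ≃ₐ[L] H) →* MulAut G where
  toFun δ :=
    { toFun := gc_fun F₀ ι δ
      invFun := gc_fun F₀ ι δ⁻¹
      left_inv := fun g => by rw [← gc_fun_mul, inv_mul_cancel, gc_fun_one]
      right_inv := fun g => by rw [← gc_fun_mul, mul_inv_cancel, gc_fun_one]
      map_mul' := fun g h => gc_fun_map δ g h }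
  map_one' := by
    ext g
    exact gc_fun_one g
  map_mul' := by
    intro δ ε
    ext g
    exact gc_fun_mul δ ε g

end GCG

section AFF

variable {F₀ F L H : Type} [Field F₀] [NumberField F₀] [Field F] [NumberField F] [Field L]
  [NumberField L] [Field H] [NumberField H] [Algebra F₀ F] [Algebra F₀ L] [Algebra F₀ H]
  [Algebra F H] [Algebra L H] [IsScalarTower F₀ F H] [IsScalarTower F₀ L H] [IsGalois F₀ H]
  [IsGalois F₀ F] [IsGalois F H] [IsGalois L H] {G : Type} [CommGroup G] [Fintype G] {p : ℕ}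
  {ι : G ≃* (H ≃ₐ[F] H)} {S₀ T₀ : Finset (HeightOneSpectrum (𝓞 F₀))} {r : ℕ}
  {w : Fin r → Pl H} {fr : HeightOneSpectrum (𝓞 F) → G}

theorem conj_exists (hA : Afn F₀ F L H ι p) :
    ∃ c : (H ≃ₐ[L] H) →* MulAut G, Function.Bijective c ∧
      (∀ (δ : H ≃ₐ[L] H) (g : G) (x : H), δ (ι g x) = ι (c δ g) (δ x)) ∧
      ∀ δ : H ≃ₐ[L] H, δ ≠ 1 → Function.Injective (fun g : G => g⁻¹ * c δ g) := by
  have hspec : ∀ (δ : H ≃ₐ[L] H) (g : G) (x : H),
      δ (ι g x) = ι (gc_hom F₀ ι δ g) (δ x) := fun δ g x => gc_fun_spec δ g x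
  have hker : ∀ δ : H ≃ₐ[L] H, (∀ g : G, gc_hom F₀ ι δ g = g) → δ = 1 := by
    intro δ h
    apply hA.cent
    intro g x
    rw [hspec, h]
  have : Fact p.Prime := ⟨hA.prime⟩
  have hcyc : IsCyclic G := isCyclic_of_prime_card hA.cardG
  have hinj : Function.Injective (gc_hom (L := L) F₀ ι) := by
    rw [injective_iff_map_eq_one]
    intro δ h
    apply hker
    intro g
    rw [h]
    rfl
  refine ⟨gc_hom F₀ ι, ?_, hspec, ?_⟩
  · refine hinj.bijective_of_nat_card_le ?_
    rw [IsCyclic.card_mulAut, hA.cardG, hA.cardD, Nat.totient_prime hA.prime]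
  · intro δ hδ
    set φ : G →* G :=
      { toFun := fun g => g⁻¹ * gc_hom F₀ ι δ g
        map_one' := by simp
        map_mul' := by
          intro a b
          rw [map_mul, mul_inv]
          exact mul_mul_mul_comm _ _ _ _ } with hφ
    have hφa : ∀ g, φ g = g⁻¹ * gc_hom F₀ ι δ g := fun g => rfl
    have : Function.Injective φ := by
      rw [← MonoidHom.ker_eq_bot_iff]
      have : Fact (Nat.card G).Prime := ⟨by rw [hA.cardG]; exact hA.prime⟩
      rcases φ.ker.eq_bot_or_eq_top_of_prime_card with h | h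
      · exact h
      · exfalso
        apply hδ
        apply hker
        intro g
        have hg : g ∈ φ.ker := by rw [h]; trivial
        rw [MonoidHom.mem_ker, hφa] at hg
        exact (inv_mul_eq_one.1 hg).symm
    exact this

end AFF

end Pool.Agent.RSK
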