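import Pool.Agent.Lib_helper17.RS.Bas
/-!
# Rubin-Stark: block IA (`idx_pi`, `idx_one`)
-/

namespace Pool.Agent.RSK

set_option linter.unusedSectionVars false

/-! ## The polynomial identity -/

section Poly

open Polynomial

theorem ia_poly {p : ℕ} (hp : p.Prime) : ∃ W : ℤ[X],
    ∑ i ∈ Finset.range p, (X + 1 : ℤ[X]) ^ i = X ^ (p - 1) + (p : ℤ[X]) * (1 + X * W) := by
  obtain ⟨r, hr⟩ := exists_add_pow_prime_eq hp (X : ℤ[X]) 1
  have h1 : (∑ i ∈ Finset.range p, (X + 1 : ℤ[X]) ^ i) * X = (X + 1) ^ p - 1 := by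
    have h := geom_sum_mul (X + 1 : ℤ[X]) p
    rwa [add_sub_cancel_right] at h
  have hX : (X : ℤ[X]) ^ p = X ^ (p - 1) * X := by
    rw [← pow_succ, Nat.sub_add_cancel hp.one_le]
  have h2 : ∑ i ∈ Finset.range p, (X + 1 : ℤ[X]) ^ i = X ^ (p - 1) + (p : ℤ[X]) * r := by
    apply mul_right_cancel₀ (X_ne_zero (R := ℤ))
    rw [h1, hr, hX]
    ring
  have h3 : r.eval 0 = 1 := by
    have h := congrArg (Polynomial.eval 0) h2
    rw [Polynomial.eval_finsetSum] at h
    have h0 : (0 : ℤ) ^ (p - 1) = 0 := zero_pow (Nat.sub_ne_zero_of_lt hp.one_lt)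
    simp only [eval_pow, eval_add, eval_X, eval_one, zero_add, one_pow, Finset.sum_const,
      Finset.card_range, nsmul_eq_mul, mul_one, eval_mul, eval_natCast, h0] at h
    have hp0 : (p : ℤ) ≠ 0 := by exact_mod_cast hp.ne_zero
    exact (mul_left_cancel₀ hp0 (by rw [mul_one]; exact h)).symm
  obtain ⟨W, hW⟩ : X ∣ r - 1 := by
    rw [Polynomial.X_dvd_iff, Polynomial.coeff_zero_eq_eval_zero]
    simp [h3]
  refine ⟨W, ?_⟩
  rw [h2, ← hW]
  ring

end Poly

theorem ia_unit {A : Type} [CommRing A] {p : ℕ} {t n W : A}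
    (hn : n = t ^ (p - 1) + (p : A) * (1 + t * W)) :
    ∃ u c : A, (1 + t * W) * u = 1 + n * c := by
  obtain ⟨s, hs⟩ := sub_dvd_pow_sub_pow (1 : A) (-(t * W)) (p - 1)
  refine ⟨s - (p : A) * (-W) ^ (p - 1), - (-W) ^ (p - 1), ?_⟩
  have e1 : (1 + t * W) * s = 1 - (-(t * W)) ^ (p - 1) := by
    rw [one_pow] at hs
    rw [hs]
    ring
  have e2 : (-(t * W)) ^ (p - 1) = (-W) ^ (p - 1) * t ^ (p - 1) := by
    rw [← mul_pow]
    congr 1
    ring
  have e3 : t ^ (p - 1) = n - (p : A) * (1 + t * W) := by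
    rw [hn]
    ring
  rw [mul_sub, e1, e2, e3]
  ring

/-! ## Indices and determinants -/

theorem ia_index_range {E : Type} [AddCommGroup E] [Module.Free ℤ E] [Module.Finite ℤ E]
    (f : E →ₗ[ℤ] E) : (LinearMap.range f).toAddSubgroup.index = (LinearMap.det f).natAbs := by
  classical
  by_cases h : LinearMap.det f = 0
  · rw [h, Int.natAbs_zero]
    by_contra hne
    set n := (LinearMap.range f).toAddSubgroup.index with hndef
    have hmem : ∀ x : E, ∃ y : E, f y = (n : ℤ) • x := fun x => by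
      have h1 := (LinearMap.range f).toAddSubgroup.nsmul_index_mem x
      obtain ⟨y, hy⟩ := h1
      exact ⟨y, by rw [hy, natCast_zsmul]⟩
    choose g hg using hmem
    let b := Module.Free.chooseBasis ℤ E
    let G : E →ₗ[ℤ] E := b.constr ℤ (fun i => g (b i))
    have hfG : f ∘ₗ G = (n : ℤ) • LinearMap.id := by
      apply b.ext
      intro i
      rw [LinearMap.comp_apply, Module.Basis.constr_basis, hg, LinearMap.smul_apply,
        LinearMap.id_apply]
    have hdet := congrArg LinearMap.det hfG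
    rw [LinearMap.det_comp, h, zero_mul, LinearMap.det_smul, LinearMap.det_id, mul_one] at hdet
    exact pow_ne_zero _ (by exact_mod_cast hne) hdet.symm
  · have hk : LinearMap.ker f = ⊥ := by
      by_contra hk
      exact h (LinearMap.det_eq_zero_iff_ker_ne_bot.2 hk)
    have hinj : Function.Injective f := LinearMap.ker_eq_bot.1 hk
    let e : E ≃ₗ[ℤ] LinearMap.range f := LinearEquiv.ofInjective f hinj
    have h1 := Submodule.natAbs_det_equiv (LinearMap.range f) e
    have h2 : (LinearMap.range f).subtype ∘ₗ AddMonoidHom.toIntLinearMap (e : E →+ LinearMap.range f)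
        = f := by
      ext x
      rfl
    rw [h2] at h1
    rw [h1]
    rfl

section Pi

variable {G : Type} [CommGroup G] [Fintype G]

theorem ia_nrm {p : ℕ} (hp : p.Prime) (hG : Nat.card G = p) {g : G} (hg : g ≠ 1) :
    nrm G = ∑ i ∈ Finset.range p, (MonoidAlgebra.single g (1 : ℤ)) ^ i := by
  classical
  have : Fact p.Prime := ⟨hp⟩
  have hz : ∀ x : G, x ∈ Subgroup.zpowers g := fun x => mem_zpowers_of_prime_card hG hg
  have himg := IsCyclic.image_range_orderOf hz
  have ho : orderOf g = p := by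
    rw [orderOf_eq_card_of_forall_mem_zpowers hz, hG]
  unfold nrm
  rw [← himg, ho, Finset.sum_image]
  · refine Finset.sum_congr rfl fun i _ => ?_
    rw [MonoidAlgebra.single_pow, one_pow]
  · intro i hi j hj hij
    have hi' : i < orderOf g := by rw [ho]; simpa using hi
    have hj' : j < orderOf g := by rw [ho]; simpa using hj
    exact pow_injOn_Iio_orderOf hi' hj' hij

/-- `nrm = (g-1)^(p-1) + p (1 + (g-1) W)` -/
theorem ia_nrm_eq {p : ℕ} (hp : p.Prime) (hG : Nat.card G = p) {g : G} (hg : g ≠ 1) :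
    ∃ W : MonoidAlgebra ℤ G, nrm G = (MonoidAlgebra.single g (1 : ℤ) - 1) ^ (p - 1) +
      (p : MonoidAlgebra ℤ G) * (1 + (MonoidAlgebra.single g (1 : ℤ) - 1) * W) := by
  obtain ⟨W, hW⟩ := ia_poly hp
  refine ⟨Polynomial.aeval (MonoidAlgebra.single g (1 : ℤ) - 1) W, ?_⟩
  have h := congrArg (Polynomial.aeval (MonoidAlgebra.single g (1 : ℤ) - 1 : MonoidAlgebra ℤ G)) hW
  simp only [map_sum, map_pow, map_add, map_mul, map_one, Polynomial.aeval_X, map_natCast,
    sub_add_cancel] at h
  rw [ia_nrm hp hG hg, h]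

variable {N : Type} [AddCommGroup N] [Module (MonoidAlgebra ℤ G) N]

/-- multiplication by `x` as a `ℤ`-linear map -/
noncomputable def iaMul (N : Type) [AddCommGroup N] [Module (MonoidAlgebra ℤ G) N] :
    MonoidAlgebra ℤ G →+* (N →ₗ[ℤ] N) where
  toFun x := (DistribSMul.toAddMonoidHom N x).toIntLinearMap
  map_one' := by ext u; exact one_smul _ u
  map_mul' x y := by ext u; exact mul_smul x y u
  map_zero' := by ext u; exact zero_smul _ u
  map_add' x y := by ext u; exact add_smul x y u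

theorem iaMul_apply (x : MonoidAlgebra ℤ G) (u : N) : iaMul N x u = x • u := rfl

theorem ia_pi [Module.Free ℤ N] [Module.Finite ℤ N] {p : ℕ} (hp : p.Prime)
    (hG : Nat.card G = p) {g : G} (hg : g ≠ 1) {r : ℕ} (hr : Module.finrank ℤ N = r * (p - 1))
    (hN : ∀ u : N, nrm G • u = 0) :
    (DistribSMul.toAddMonoidHom N
      (MonoidAlgebra.single g (1 : ℤ) - 1 : MonoidAlgebra ℤ G)).range.index = p ^ r := by
  obtain ⟨W, hW⟩ := ia_nrm_eq hp hG hg
  set t : MonoidAlgebra ℤ G := MonoidAlgebra.single g (1 : ℤ) - 1 with ht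
  obtain ⟨u, c, huc⟩ := ia_unit hW
  have hn0 : iaMul N (nrm G) = 0 := by ext x; exact hN x
  have h1 : (DistribSMul.toAddMonoidHom N t).range =
      (LinearMap.range (iaMul N t)).toAddSubgroup := by
    ext x
    rfl
  rw [h1, ia_index_range]
  have hv : IsUnit (LinearMap.det (iaMul N (1 + t * W))) := by
    have h2 : LinearMap.det (iaMul N ((1 + t * W) * u)) = LinearMap.det (iaMul N (1 + nrm G * c)) :=
      by rw [huc]
    have h3 : iaMul N (1 + nrm G * c) = 1 := by
      rw [map_add, map_mul, hn0, zero_mul, add_zero, map_one]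
    rw [h3, map_mul (iaMul N), map_mul, map_one] at h2
    exact IsUnit.of_mul_eq_one _ h2
  have hv' : (LinearMap.det (iaMul N (1 + t * W))).natAbs = 1 := Int.isUnit_iff_natAbs_eq.1 hv
  have h4 : iaMul N t ^ (p - 1) = (-(p : ℤ)) • iaMul N (1 + t * W) := by
    have h5 : iaMul N (nrm G) = iaMul N (t ^ (p - 1) + (p : MonoidAlgebra ℤ G) * (1 + t * W)) :=
      congrArg _ hW
    rw [hn0, map_add, map_mul, map_natCast, map_pow] at h5
    rw [eq_neg_of_add_eq_zero_left h5.symm]
    ext x
    simp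
    abel
  have h6 := congrArg (fun f => (LinearMap.det f).natAbs) h4
  simp only [map_pow, LinearMap.det_smul, Int.natAbs_mul, Int.natAbs_pow, Int.natAbs_neg,
    Int.natAbs_natCast, hv', mul_one, hr] at h6
  rw [pow_mul] at h6
  exact Nat.pow_left_injective (Nat.sub_ne_zero_of_lt hp.one_lt) h6

end Pi

/-! ## The submodule -/

section IDX

variable {G : Type} [CommGroup G] [Fintype G] {M : Type} [AddCommGroup M]
  [Module (MonoidAlgebra ℤ G) M]

/-- the kernel of the norm as a submodule -/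
noncomputable def iaN (G M : Type) [CommGroup G] [Fintype G] [AddCommGroup M]
    [Module (MonoidAlgebra ℤ G) M] : Submodule (MonoidAlgebra ℤ G) M where
  toAddSubmonoid := (mMinus G M).toAddSubmonoid
  smul_mem' := fun a u hu => by
    show nrm G • a • u = 0
    rw [smul_comm, show nrm G • u = 0 from hu, smul_zero]

theorem ia_mem {u : M} : u ∈ iaN G M ↔ nrm G • u = 0 := Iff.rfl

theorem ia_toAddSubgroup : (iaN G M).toAddSubgroup = mMinus G M := rfl

theorem ia_map_top : (⊤ : AddSubgroup (iaN G M)).map (iaN G M).subtype.toAddMonoidHom =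
    mMinus G M := by
  ext u
  constructor
  · rintro ⟨x, -, rfl⟩
    exact x.2
  · intro hu
    exact ⟨⟨u, hu⟩, trivial, rfl⟩

theorem ia_map_range (x : MonoidAlgebra ℤ G) :
    (DistribSMul.toAddMonoidHom (iaN G M) x).range.map (iaN G M).subtype.toAddMonoidHom =
    (mMinus G M).map (DistribSMul.toAddMonoidHom M x) := by
  ext u
  constructor
  · rintro ⟨_, ⟨y, rfl⟩, rfl⟩
    exact ⟨y, y.2, rfl⟩
  · rintro ⟨y, hy, rfl⟩
    exact ⟨_, ⟨⟨y, hy⟩, rfl⟩, rfl⟩

theorem ia_relIndex (H : AddSubgroup (iaN G M)) :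
    (H.map (iaN G M).subtype.toAddMonoidHom).relIndex (mMinus G M) = H.index := by
  rw [← ia_map_top, AddSubgroup.relIndex_map_map_of_injective _ _ (Subtype.val_injective),
    AddSubgroup.relIndex_top_right]

theorem ia_finrank : Module.finrank ℤ (iaN G M) = Module.finrank ℤ (mMinus G M) := by
  let e : (iaN G M) ≃+ (mMinus G M) :=
    { toFun := fun u => ⟨u.1, u.2⟩
      invFun := fun u => ⟨u.1, u.2⟩
      left_inv := fun _ => rfl
      right_inv := fun _ => rfl
      map_add' := fun _ _ => rfl }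
  exact e.toIntLinearEquiv.finrank_eq

variable [Module.Finite ℤ M] [Module.IsTorsionFree ℤ M]

theorem ia_finite (N : Submodule (MonoidAlgebra ℤ G) M) : Module.Finite ℤ N := by
  have : Module.Finite ℤ (N.toAddSubgroup.toIntSubmodule) := inferInstance
  let e : (N.toAddSubgroup.toIntSubmodule) ≃+ N :=
    { toFun := fun u => ⟨u.1, u.2⟩
      invFun := fun u => ⟨u.1, u.2⟩
      left_inv := fun _ => rfl
      right_inv := fun _ => rfl
      map_add' := fun _ _ => rfl }
  exact Module.Finite.equiv e.toIntLinearEquiv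

theorem ia_free (N : Submodule (MonoidAlgebra ℤ G) M) : Module.Free ℤ N := by
  have : Module.Free ℤ (N.toAddSubgroup.toIntSubmodule) := inferInstance
  let e : (N.toAddSubgroup.toIntSubmodule) ≃+ N :=
    { toFun := fun u => ⟨u.1, u.2⟩
      invFun := fun u => ⟨u.1, u.2⟩
      left_inv := fun _ => rfl
      right_inv := fun _ => rfl
      map_add' := fun _ _ => rfl }
  exact Module.Free.of_equiv e.toIntLinearEquiv

/-- `g - 1` on the kernel of the norm -/
theorem idx_pi {p : ℕ} (hp : p.Prime) (hG : Nat.card G = p) {g : G} (hg : g ≠ 1) {r : ℕ}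
    (hr : Module.finrank ℤ (mMinus G M) = r * (p - 1)) :
    ((mMinus G M).map (DistribSMul.toAddMonoidHom M
      (MonoidAlgebra.single g (1 : ℤ) - 1 : MonoidAlgebra ℤ G))).relIndex (mMinus G M) = p ^ r := by
  have := ia_finite (iaN G M)
  have := ia_free (iaN G M)
  rw [← ia_map_range, ia_relIndex]
  refine ia_pi hp hG hg (by rw [ia_finrank, hr]) fun u => ?_
  exact Subtype.ext u.2

theorem idx_one {p : ℕ} (hp : p.Prime) (hG : Nat.card G = p) {g : G} (hg : g ≠ 1) {r : ℕ}
    (hr : Module.finrank ℤ (mMinus G M) = r * (p - 1)) (b : Fin r → M)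
    (hb : ∀ j, b j ∈ mMinus G M) :
    (mPlus G M ⊔ mSpn G b).index * (mSub M g).relIndex (mMinus G M) =
      p ^ r * (mSpn G b).relIndex (mMinus G M) := by
  have hfact : Fact p.Prime := ⟨hp⟩
  set T := DistribSMul.toAddMonoidHom M (MonoidAlgebra.single g (1 : ℤ) - 1 : MonoidAlgebra ℤ G)
    with hT
  have hTap : ∀ u : M, T u = MonoidAlgebra.single g (1 : ℤ) • u - u := fun u => by
    show (MonoidAlgebra.single g (1 : ℤ) - 1 : MonoidAlgebra ℤ G) • u = _
    rw [sub_smul, one_smul]
  have hker : T.ker = mPlus G M := by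
    ext u
    rw [AddMonoidHom.mem_ker, hTap, sub_eq_zero]
    constructor
    · intro hu x
      obtain ⟨n, rfl⟩ : x ∈ Submonoid.powers g := mem_powers_of_prime_card hG hg
      show MonoidAlgebra.single (g ^ n) (1 : ℤ) • u = u
      induction n with
      | zero =>
        rw [pow_zero]
        exact one_smul _ u
      | succ n ih =>
        have e : (MonoidAlgebra.single (g ^ (n + 1)) (1 : ℤ)) =
            MonoidAlgebra.single (g ^ n) 1 * MonoidAlgebra.single g 1 := by
          rw [MonoidAlgebra.single_mul_single, one_mul, pow_succ]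
        rw [e, mul_smul, hu, ih]
    · intro hu
      exact hu g
  have hnt : nrm G * (MonoidAlgebra.single g (1 : ℤ) - 1) = 0 := by
    rw [ia_nrm hp hG hg, geom_sum_mul, MonoidAlgebra.single_pow, one_pow,
      show g ^ p = 1 by rw [← hG]; exact pow_card_eq_one', MonoidAlgebra.one_def, sub_self]
  have hrange : T.range ≤ mMinus G M := by
    rintro _ ⟨u, rfl⟩
    show nrm G • (MonoidAlgebra.single g (1 : ℤ) - 1 : MonoidAlgebra ℤ G) • u = 0
    rw [← mul_smul, hnt, zero_smul]
  have hspn : mSpn G b ≤ mMinus G M := by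
    show Submodule.span (MonoidAlgebra ℤ G) (Set.range b) ≤ iaN G M
    rw [Submodule.span_le]
    rintro _ ⟨j, rfl⟩
    exact hb j
  -- `M⁺ ∩ M⁻ = 0`
  have hcap : mPlus G M ⊓ mMinus G M = ⊥ := by
    rw [eq_bot_iff]
    rintro u ⟨h1, h2⟩
    have h3 : nrm G • u = (p : ℤ) • u := by
      unfold nrm
      rw [Finset.sum_smul, Finset.sum_congr rfl fun x _ => (h1 x : _ = u), Finset.sum_const,
        Finset.card_univ, ← Nat.card_eq_fintype_card, hG, natCast_zsmul]
    have h4 : nrm G • u = 0 := h2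
    rw [h3] at h4
    rcases smul_eq_zero.1 h4 with h5 | h5
    · exact absurd h5 (by exact_mod_cast hp.ne_zero)
    · exact h5
  have e1 : (mPlus G M ⊔ mSpn G b).relIndex (mPlus G M ⊔ mMinus G M) =
      (mSpn G b).relIndex (mMinus G M) := by
    have h1 : mPlus G M ⊔ mMinus G M = (mPlus G M ⊔ mSpn G b) ⊔ mMinus G M := by
      rw [sup_assoc, sup_eq_right.2 hspn]
    rw [h1, AddSubgroup.relIndex_sup_left, ← AddSubgroup.inf_relIndex_right]
    congr 1
    rw [sup_comm, sup_inf_assoc_of_le _ hspn, hcap, sup_bot_eq]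
  have e2 : (mPlus G M ⊔ mMinus G M).index =
      ((mMinus G M).map T).relIndex T.range := by
    rw [← AddSubgroup.index_comap, AddSubgroup.comap_map_eq, hker, sup_comm]
  have e3 : ((mMinus G M).map T).relIndex T.range * T.range.relIndex (mMinus G M) = p ^ r := by
    rw [AddSubgroup.relIndex_mul_relIndex _ _ _ ?_ hrange]
    · exact idx_pi hp hG hg hr
    · rintro _ ⟨u, -, rfl⟩
      exact ⟨u, rfl⟩
  have e4 : (mPlus G M ⊔ mSpn G b).index =
      (mSpn G b).relIndex (mMinus G M) * (mPlus G M ⊔ mMinus G M).index := by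
    rw [← e1, AddSubgroup.relIndex_mul_index]
    exact sup_le_sup_left hspn _
  have e5 : mSub M g = T.range := rfl
  rw [e4, e2, e5, mul_assoc, e3, mul_comm]

end IDX

end Pool.Agent.RSK
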