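import Pool.Agent.Lib_helper17.RS.Bas
/-!
# Rubin-Stark, block IC: modules with an action of a group of automorphisms
-/

namespace Pool.Agent.RSK

set_option linter.unusedSectionVars false

open Filter Topology Complex
open scoped TensorProduct

section IDX

variable {G : Type} [CommGroup G] [Fintype G] {M : Type} [AddCommGroup M]
  [Module (MonoidAlgebra ℤ G) M] [Module.Finite ℤ M] [Module.IsTorsionFree ℤ M]

theorem ic_single_smul (g h : G) (u : M) :
    (MonoidAlgebra.single g (1 : ℤ)) • (MonoidAlgebra.single h (1 : ℤ)) • u =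
      (MonoidAlgebra.single (g * h) (1 : ℤ)) • u := by
  rw [smul_smul, MonoidAlgebra.single_mul_single, mul_one]

theorem ic_nrm (u : M) : nrm G • u = ∑ g : G, MonoidAlgebra.single g (1 : ℤ) • u := by
  rw [nrm, Finset.sum_smul]

theorem ic_nrm_single (g : G) (u : M) : nrm G • MonoidAlgebra.single g (1 : ℤ) • u =
    MonoidAlgebra.single g (1 : ℤ) • nrm G • u := by
  rw [smul_smul, smul_smul, mul_comm]

theorem ic_nrm_act {Δ : Type} [Group Δ] (A : Δ →* AddMonoid.End M) (c : Δ →* MulAut G)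
    (hact : ∀ (δ : Δ) (g : G) (u : M),
      A δ (MonoidAlgebra.single g (1 : ℤ) • u) = MonoidAlgebra.single (c δ g) (1 : ℤ) • A δ u)
    (δ : Δ) (u : M) : nrm G • A δ u = A δ (nrm G • u) := by
  rw [ic_nrm, ic_nrm, map_sum]
  simp_rw [hact]
  exact (Equiv.sum_comp (c δ).toEquiv (fun g => MonoidAlgebra.single g (1 : ℤ) • A δ u)).symm

/-- `p u = ∑_g g⁻¹ ∑_δ δ(g u)` -/
theorem pow_dec {p : ℕ} (hG : Nat.card G = p) {Δ : Type} [Group Δ] [Fintype Δ]
    (A : Δ →* AddMonoid.End M) (c : Δ →* MulAut G)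
    (hc : ∀ δ : Δ, δ ≠ 1 → Function.Injective (fun g : G => g⁻¹ * c δ g))
    (hact : ∀ (δ : Δ) (g : G) (u : M),
      A δ (MonoidAlgebra.single g (1 : ℤ) • u) = MonoidAlgebra.single (c δ g) (1 : ℤ) • A δ u)
    {u : M} (hu : u ∈ mMinus G M) :
    ∃ y : G → M, (∀ g, y g ∈ mMinus G M ∧ ∀ δ : Δ, A δ (y g) = y g) ∧
      p • u = ∑ g : G, MonoidAlgebra.single g⁻¹ (1 : ℤ) • y g := by
  classical
  have hu' : nrm G • u = 0 := hu
  refine ⟨fun g => ∑ δ : Δ, A δ (MonoidAlgebra.single g (1 : ℤ) • u), fun g => ⟨?_, ?_⟩, ?_⟩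
  · show nrm G • (∑ δ : Δ, A δ (MonoidAlgebra.single g (1 : ℤ) • u)) = 0
    rw [Finset.smul_sum]
    refine Finset.sum_eq_zero fun δ _ => ?_
    rw [ic_nrm_act A c hact, ic_nrm_single, hu', smul_zero, map_zero]
  · intro δ'
    show A δ' (∑ δ : Δ, A δ (MonoidAlgebra.single g (1 : ℤ) • u)) = _
    rw [map_sum]
    have h1 : ∀ δ : Δ, A δ' (A δ (MonoidAlgebra.single g (1 : ℤ) • u)) =
        A (δ' * δ) (MonoidAlgebra.single g (1 : ℤ) • u) := by
      intro δ
      rw [map_mul]; rfl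
    simp_rw [h1]
    exact Equiv.sum_comp (Equiv.mulLeft δ') (fun δ => A δ (MonoidAlgebra.single g (1 : ℤ) • u))
  · simp_rw [Finset.smul_sum]
    rw [Finset.sum_comm]
    have h2 : ∀ δ : Δ, δ ≠ 1 → ∑ g : G, MonoidAlgebra.single g⁻¹ (1 : ℤ) •
        A δ (MonoidAlgebra.single g (1 : ℤ) • u) = 0 := by
      intro δ hδ
      simp_rw [hact, ic_single_smul]
      have hb : Function.Bijective (fun g : G => g⁻¹ * c δ g) :=
        Finite.injective_iff_bijective.mp (hc δ hδ)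
      have h3 := Equiv.sum_comp (Equiv.ofBijective _ hb)
        (fun g => MonoidAlgebra.single g (1 : ℤ) • A δ u)
      rw [show (∑ g : G, MonoidAlgebra.single (g⁻¹ * (c δ) g) (1 : ℤ) • A δ u) =
        ∑ g : G, MonoidAlgebra.single g (1 : ℤ) • A δ u from h3, ← ic_nrm,
        ic_nrm_act A c hact, hu', map_zero]
    rw [Finset.sum_eq_single (1 : Δ) (fun δ _ hδ => h2 δ hδ)
      (fun h => absurd (Finset.mem_univ _) h)]
    have h4 : ∀ g : G, MonoidAlgebra.single g⁻¹ (1 : ℤ) •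
        A 1 (MonoidAlgebra.single g (1 : ℤ) • u) = u := by
      intro g
      rw [map_one]
      show MonoidAlgebra.single g⁻¹ (1 : ℤ) • (MonoidAlgebra.single g (1 : ℤ) • u) = u
      rw [ic_single_smul, inv_mul_cancel]
      exact one_smul _ u
    simp_rw [h4]
    rw [Finset.sum_const, Finset.card_univ, ← Nat.card_eq_fintype_card, hG]

theorem ic_vec_pow {Q : Type} [AddCommGroup Q] {p : ℕ} [Fact p.Prime] [Module (ZMod p) Q]
    [Module.Finite (ZMod p) Q] : Nat.card Q = p ^ Module.finrank (ZMod p) Q := by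
  have h : Nat.card Q = Nat.card (ZMod p) ^ Module.finrank (ZMod p) Q :=
    Module.natCard_eq_pow_finrank
  rw [h, Nat.card_zmod]

theorem ic_quot_pow {Q : Type} [AddCommGroup Q] [Module.Finite ℤ Q] {p : ℕ} (hp : p.Prime)
    (h : ∀ x : Q, p • x = 0) : ∃ e : ℕ, Nat.card Q = p ^ e := by
  have hF : Fact p.Prime := ⟨hp⟩
  let hM : Module (ZMod p) Q := AddCommGroup.zmodModule h
  have hf : Module.Finite (ZMod p) Q := Module.Finite.of_restrictScalars_finite ℤ (ZMod p) Q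
  have := @ic_vec_pow Q _ p hF hM hf
  exact ⟨_, this⟩

/-- The `ℤ[G]`-module generated by the `Δ`-invariants of norm zero has `p`-power index. -/
theorem idx_pow {p : ℕ} (hp : p.Prime) (hG : Nat.card G = p) {Δ : Type} [Group Δ] [Fintype Δ]
    (A : Δ →* AddMonoid.End M) (c : Δ →* MulAut G)
    (hc : ∀ δ : Δ, δ ≠ 1 → Function.Injective (fun g : G => g⁻¹ * c δ g))
    (hact : ∀ (δ : Δ) (g : G) (u : M),
      A δ (MonoidAlgebra.single g (1 : ℤ) • u) = MonoidAlgebra.single (c δ g) (1 : ℤ) • A δ u)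
    {r : ℕ} (b : Fin r → M) (hb : ∀ j, b j ∈ mMinus G M)
    (hgen : ∀ u ∈ mMinus G M, (∀ δ : Δ, A δ u = u) → u ∈ AddSubgroup.closure (Set.range b)) :
    ∃ e : ℕ, (mSpn G b).relIndex (mMinus G M) = p ^ e := by
  have hcl : ∀ u ∈ AddSubgroup.closure (Set.range b), u ∈ mSpn G b := by
    intro u hu
    refine (AddSubgroup.closure_le _).mpr ?_ hu
    rintro _ ⟨j, rfl⟩
    exact Submodule.subset_span ⟨j, rfl⟩
  have hpM : ∀ u ∈ mMinus G M, p • u ∈ mSpn G b := by
    intro u hu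
    obtain ⟨y, hy, hsum⟩ := pow_dec hG A c hc hact hu
    rw [hsum]
    refine AddSubgroup.sum_mem _ fun g _ => ?_
    exact Submodule.smul_mem _ _ (hcl _ (hgen _ (hy g).1 (hy g).2))
  have : Module.Finite ℤ (mMinus G M) :=
    inferInstanceAs (Module.Finite ℤ (AddSubgroup.toIntSubmodule (mMinus G M)))
  have : Module.Finite ℤ (mMinus G M ⧸ (mSpn G b).addSubgroupOf (mMinus G M)) :=
    Module.Finite.of_surjective
      (QuotientAddGroup.mk' ((mSpn G b).addSubgroupOf (mMinus G M))).toIntLinearMap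
      (QuotientAddGroup.mk'_surjective _)
  obtain ⟨e, he⟩ := ic_quot_pow (Q := mMinus G M ⧸ (mSpn G b).addSubgroupOf (mMinus G M)) hp (by
    intro x
    obtain ⟨u, rfl⟩ := QuotientAddGroup.mk'_surjective _ x
    rw [← map_nsmul]
    rw [QuotientAddGroup.mk'_apply, QuotientAddGroup.eq_zero_iff, AddSubgroup.mem_addSubgroupOf]
    exact hpM u.1 u.2)
  exact ⟨e, he⟩

end IDX

end Pool.Agent.RSK
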