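import Pool.Agent.Lib_helper17.RS.Bas
import Pool.Agent.Lib_helper17.RS.P_EA
/-!
# Rubin-Stark, block EC: grouping the places
-/

namespace Pool.Agent.RSK

open NumberField NumberField.InfinitePlace NumberField.Units IsDedekindDomain Filter Topology
  Complex

section EC

variable {F H : Type} [Field F] [NumberField F] [Field H] [NumberField H] [Algebra F H]

open scoped Classical in
theorem prod_fiber (T : Finset (HeightOneSpectrum (𝓞 F))) (g : HeightOneSpectrum (𝓞 H) → ℂ) :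
    ∏ w ∈ ovr H T, g w = ∏ v ∈ T, ∏ w ∈ ovr H {v}, g w := by
  rw [← Finset.prod_fiberwise_of_maps_to (s := ovr H T) (t := T)
    (g := fun w : HeightOneSpectrum (𝓞 H) => w.under (𝓞 F)) (fun w hw => mem_ovr.mp hw)]
  refine Finset.prod_congr rfl fun v hv => Finset.prod_congr ?_ fun _ _ => rfl
  ext w
  rw [Finset.mem_filter, mem_ovr, mem_ovr, Finset.mem_singleton]
  exact ⟨fun h => h.2, fun h => ⟨by rw [h]; exact hv, h⟩⟩

/-- the places outside `S`, grouped by the place below -/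
noncomputable def ec_equiv (S : Finset (HeightOneSpectrum (𝓞 F))) :
    (Σ v : {v : HeightOneSpectrum (𝓞 F) // v ∉ S}, {w : HeightOneSpectrum (𝓞 H) // w ∈ ovr H {v.1}}) ≃
      {w : HeightOneSpectrum (𝓞 H) // w ∉ ovr H S} where
  toFun q := ⟨q.2.1, by
    have h := mem_ovr.mp q.2.2
    rw [Finset.mem_singleton] at h
    rw [mem_ovr, h]
    exact q.1.2⟩
  invFun w := ⟨⟨w.1.under (𝓞 F), fun h => w.2 (mem_ovr.mpr h)⟩, ⟨w.1, by
    rw [mem_ovr, Finset.mem_singleton]⟩⟩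
  left_inv := by
    rintro ⟨⟨v, hv⟩, ⟨w, hw⟩⟩
    have h := mem_ovr.mp hw
    rw [Finset.mem_singleton] at h
    simp only at h
    subst h
    rfl
  right_inv w := rfl

theorem tprod_fiber (S : Finset (HeightOneSpectrum (𝓞 F))) {s : ℂ} (hs : 1 < s.re) :
    Multipliable (fun v : {v : HeightOneSpectrum (𝓞 F) // v ∉ S} =>
      ∏ w ∈ ovr H {v.1}, (1 - (nv w : ℂ) ^ (-s))⁻¹) ∧
    ∏' w : {w : HeightOneSpectrum (𝓞 H) // w ∉ ovr H S}, (1 - (nv w.1 : ℂ) ^ (-s))⁻¹ =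
      ∏' v : {v : HeightOneSpectrum (𝓞 F) // v ∉ S}, ∏ w ∈ ovr H {v.1},
        (1 - (nv w : ℂ) ^ (-s))⁻¹ := by
  have h1 := (mult_euler (k := H) hs (fun w => w ∉ ovr H S) (fun _ => 1)
    (fun _ => by rw [norm_one])).1.hasProd
  simp only [one_mul] at h1
  have h2 := (ec_equiv (H := H) S).hasProd_iff.mpr h1
  have h3 : HasProd (fun v : {v : HeightOneSpectrum (𝓞 F) // v ∉ S} =>
      ∏ w ∈ ovr H {v.1}, (1 - (nv w : ℂ) ^ (-s))⁻¹)
      (∏' w : {w : HeightOneSpectrum (𝓞 H) // w ∉ ovr H S}, (1 - (nv w.1 : ℂ) ^ (-s))⁻¹) := by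
    refine h2.sigma fun v => ?_
    have h4 := hasProd_fintype (fun w : {w : HeightOneSpectrum (𝓞 H) // w ∈ ovr H {v.1}} =>
      (1 - (nv w.1 : ℂ) ^ (-s))⁻¹)
    rw [Finset.prod_coe_sort (ovr H {v.1}) (fun w => (1 - (nv w : ℂ) ^ (-s))⁻¹)] at h4
    exact h4
  exact ⟨h3.multipliable, h3.tprod_eq.symm⟩

end EC

end Pool.Agent.RSK
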