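import Pool.Agent.Lib_helper17.RS.Bas
/-! RS, block ED: local factors for `H/F` (helper6) -/

namespace Pool.Agent.RSK

open NumberField NumberField.InfinitePlace NumberField.Units IsDedekindDomain Filter Topology
  Complex
open scoped Pointwise

section ED

variable {F H : Type} [Field F] [NumberField F] [Field H] [NumberField H] [Algebra F H]
variable [IsGalois F H]

theorem ed_liesOver {v : HeightOneSpectrum (𝓞 F)} {w : HeightOneSpectrum (𝓞 H)}
    (h : w.under (𝓞 F) = v) : w.asIdeal.LiesOver v.asIdeal := by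
  constructor
  rw [← h]
  rfl

theorem ed_exists (v : HeightOneSpectrum (𝓞 F)) :
    ∃ w : HeightOneSpectrum (𝓞 H), w.under (𝓞 F) = v := by
  obtain ⟨⟨P, hP, hPv⟩⟩ := (inferInstance : Nonempty (v.asIdeal.primesOver (𝓞 H)))
  have hne : P ≠ ⊥ := by
    rintro rfl
    have h1 := hPv.over
    apply v.ne_bot
    rw [h1]
    exact Ideal.comap_bot_of_injective _ (FaithfulSMul.algebraMap_injective (𝓞 F) (𝓞 H))
  refine ⟨⟨P, hP, hne⟩, ?_⟩
  apply HeightOneSpectrum.ext
  exact hPv.over.symm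

/-- the residue degree -/
noncomputable def ed_f (H : Type) [Field H] [NumberField H] [Algebra F H]
    (v : HeightOneSpectrum (𝓞 F)) : ℕ := v.asIdeal.inertiaDegIn (𝓞 H)

theorem ed_nv {v : HeightOneSpectrum (𝓞 F)} {w : HeightOneSpectrum (𝓞 H)}
    (h : w.under (𝓞 F) = v) : nv w = nv v ^ ed_f H v := by
  have h1 := ed_liesOver h
  have := v.isMaximal
  have := w.isMaximal
  have h2 := Ideal.absNorm_eq_pow_inertiaDeg'_of_liesOver w.asIdeal v.asIdeal v.isPrime v.ne_bot
  rw [nv, nv, h2, Ideal.inertiaDeg'_eq_inertiaDeg, ed_f,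
    Ideal.inertiaDegIn_eq_inertiaDeg v.asIdeal w.asIdeal (H ≃ₐ[F] H)]

theorem ed_count (v : HeightOneSpectrum (𝓞 F))
    (hv : ∀ W : HeightOneSpectrum (𝓞 H), W.under (𝓞 F) = v →
      Algebra.IsUnramifiedAt (𝓞 F) W.asIdeal) :
    (ovr H {v}).card * ed_f H v = Nat.card (H ≃ₐ[F] H) := by
  have h1 := Ideal.ncard_primesOver_mul_ramificationIdxIn_mul_inertiaDegIn v.asIdeal (𝓞 H)
    (H ≃ₐ[F] H)
  obtain ⟨w, hw⟩ := ed_exists (H := H) v
  have h2 := ed_liesOver hw
  have h3 := hv w hw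
  have h4 : v.asIdeal.ramificationIdxIn (𝓞 H) = 1 := by
    rw [Ideal.ramificationIdxIn_eq_ramificationIdx v.asIdeal w.asIdeal (H ≃ₐ[F] H)]
    exact Ideal.ramificationIdx_eq_one_of_isUnramifiedAt
  rw [h4, one_mul] at h1
  rw [← h1, ed_f]
  congr 1
  have h5 : (v.asIdeal.primesOver (𝓞 H)) = (fun w : HeightOneSpectrum (𝓞 H) => w.asIdeal) ''
      (ovr H {v} : Finset (HeightOneSpectrum (𝓞 H))) := by
    ext P
    constructor
    · rintro ⟨hP, hPv⟩
      have hne : P ≠ ⊥ := by
        rintro rfl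
        have h1 := hPv.over
        apply v.ne_bot
        rw [h1]
        exact Ideal.comap_bot_of_injective _ (FaithfulSMul.algebraMap_injective (𝓞 F) (𝓞 H))
      refine ⟨⟨P, hP, hne⟩, ?_, rfl⟩
      rw [Finset.mem_coe, mem_ovr, Finset.mem_singleton]
      apply HeightOneSpectrum.ext
      exact hPv.over.symm
    · rintro ⟨w, hw, rfl⟩
      rw [Finset.mem_coe, mem_ovr, Finset.mem_singleton] at hw
      exact ⟨w.isPrime, ed_liesOver hw⟩
  rw [h5, Set.ncard_image_of_injective _ (fun a b hab => HeightOneSpectrum.ext hab),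
    Set.ncard_coe_finset]

theorem ed_nv_two (v : HeightOneSpectrum (𝓞 F)) : 2 ≤ nv v := by
  have h1 : nv v ≠ 0 := by
    rw [nv, Ne, Ideal.absNorm_eq_zero_iff]
    exact v.ne_bot
  have h2 : nv v ≠ 1 := by
    rw [nv, Ne, Ideal.absNorm_eq_one_iff]
    exact v.isPrime.ne_top
  omega

/-- the trivial Frobenius gives residue degree one -/
theorem ed_triv (v : HeightOneSpectrum (𝓞 F)) (hg : IsFr v (1 : H ≃ₐ[F] H)) : ed_f H v = 1 := by
  classical
  obtain ⟨w, hw⟩ := ed_exists (H := H) v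
  have hmax := w.isMaximal
  have h1 := ed_nv hw
  have h0 := ed_nv_two v
  let _ : Field (𝓞 H ⧸ w.asIdeal) := Ideal.Quotient.field w.asIdeal
  have hcard : Nat.card (𝓞 H ⧸ w.asIdeal) = nv w := by
    rw [nv, Ideal.absNorm_apply, Submodule.cardQuot_apply]
  have hfin : Finite (𝓞 H ⧸ w.asIdeal) := by
    apply Nat.finite_of_card_ne_zero
    rw [hcard]
    have := ed_nv_two w
    omega
  have hroot : ∀ y : 𝓞 H ⧸ w.asIdeal, y ^ nv v = y := by
    intro y
    obtain ⟨x, rfl⟩ := Ideal.Quotient.mk_surjective y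
    have h2 := hg w hw x
    have h3 : RingOfIntegers.mapRingEquiv (1 : H ≃ₐ[F] H).toRingEquiv x = x := by
      ext
      rfl
    rw [h3] at h2
    rw [← map_pow]
    exact (Ideal.Quotient.mk_eq_mk_iff_sub_mem _ _).2 (by
      have := w.asIdeal.neg_mem h2
      rwa [neg_sub] at this)
  have hle : Nat.card (𝓞 H ⧸ w.asIdeal) ≤ nv v := by
    let _ : Fintype (𝓞 H ⧸ w.asIdeal) := Fintype.ofFinite _
    set P : Polynomial (𝓞 H ⧸ w.asIdeal) := Polynomial.X ^ nv v - Polynomial.X with hP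
    have hP0 : P ≠ 0 := by
      intro h
      have := congrArg (fun Q => Polynomial.coeff Q (nv v)) h
      simp only [hP, Polynomial.coeff_sub, Polynomial.coeff_X_pow_self, Polynomial.coeff_zero,
        Polynomial.coeff_X] at this
      rw [if_neg (by omega)] at this
      simp at this
    have hsub : (Finset.univ : Finset (𝓞 H ⧸ w.asIdeal)) ⊆ P.roots.toFinset := by
      intro y _
      rw [Multiset.mem_toFinset, Polynomial.mem_roots hP0, Polynomial.IsRoot, hP]
      simp [hroot y]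
    rw [Nat.card_eq_fintype_card, ← Finset.card_univ]
    refine le_trans (Finset.card_le_card hsub) (le_trans (Multiset.toFinset_card_le _) ?_)
    refine le_trans (Polynomial.card_roots' P) ?_
    rw [hP]
    refine le_trans (Polynomial.natDegree_sub_le _ _) ?_
    rw [Polynomial.natDegree_X_pow, Polynomial.natDegree_X]
    omega
  rw [hcard, h1] at hle
  have hf0 : ed_f H v ≠ 0 := by
    rw [ed_f]
    exact Ideal.inertiaDegIn_ne_zero (H ≃ₐ[F] H)
  by_contra hne
  have h2 : 2 ≤ ed_f H v := by omega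
  have h3 : nv v ^ 2 ≤ nv v ^ ed_f H v := Nat.pow_le_pow_right (by omega) h2
  nlinarith

/-- residue degree one forces a trivial Frobenius -/
theorem ed_one (v : HeightOneSpectrum (𝓞 F))
    (hv : ∀ W : HeightOneSpectrum (𝓞 H), W.under (𝓞 F) = v →
      Algebra.IsUnramifiedAt (𝓞 F) W.asIdeal) {σ : H ≃ₐ[F] H} (hg : IsFr v σ)
    (hf : ed_f H v = 1) : σ = 1 := by
  classical
  obtain ⟨w, hw⟩ := ed_exists (H := H) v
  have hmax := w.isMaximal
  have hlo := ed_liesOver hw
  have hun := hv w hw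
  have h4 : v.asIdeal.ramificationIdxIn (𝓞 H) = 1 := by
    rw [Ideal.ramificationIdxIn_eq_ramificationIdx v.asIdeal w.asIdeal (H ≃ₐ[F] H)]
    exact Ideal.ramificationIdx_eq_one_of_isUnramifiedAt
  have hmv := v.isMaximal
  have hst := Ideal.card_stabilizer_eq (G := (H ≃ₐ[F] H)) v.asIdeal w.asIdeal
  rw [h4, one_mul, ← ed_f, hf] at hst
  have hsub : w.asIdeal ≤ σ⁻¹ • w.asIdeal := by
    intro x hx
    rw [Ideal.mem_inv_pointwise_smul_iff]
    have h5 := hg w hw x
    have h6 : x ^ nv v ∈ w.asIdeal :=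
      Ideal.pow_mem_of_mem _ hx _ (lt_of_lt_of_le (by norm_num) (ed_nv_two v))
    have h7 : RingOfIntegers.mapRingEquiv σ.toRingEquiv x ∈ w.asIdeal := by
      have := w.asIdeal.add_mem h5 h6
      rwa [sub_add_cancel] at this
    exact h7
  have hne : σ⁻¹ • w.asIdeal ≠ ⊤ := by
    intro h
    have h8 : (1 : 𝓞 H) ∈ σ⁻¹ • w.asIdeal := by rw [h]; trivial
    rw [Ideal.mem_inv_pointwise_smul_iff, smul_one] at h8
    exact w.isPrime.ne_top ((Ideal.eq_top_iff_one _).2 h8)
  have heq := hmax.eq_of_le hne hsub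
  have hmem : σ⁻¹ ∈ MulAction.stabilizer (H ≃ₐ[F] H) w.asIdeal := heq.symm
  have hsing := (Nat.card_eq_one_iff_unique.1 hst).1
  have h9 : (⟨σ⁻¹, hmem⟩ : MulAction.stabilizer (H ≃ₐ[F] H) w.asIdeal) = 1 :=
    Subsingleton.elim _ _
  have h10 : σ⁻¹ = 1 := congrArg Subtype.val h9
  exact inv_eq_one.1 h10

end ED

section EDG

variable {G : Type} [CommGroup G] [Fintype G]

theorem ed_card_char : Nat.card (G →* ℂˣ) = Nat.card G := by
  have : NeZero (Monoid.exponent G) := ⟨Monoid.exponent_ne_zero_of_finite⟩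
  have : NeZero ((Monoid.exponent G : ℕ) : ℂ) := ⟨by
    exact_mod_cast Monoid.exponent_ne_zero_of_finite (G := G)⟩
  exact CommGroup.card_monoidHom_of_hasEnoughRootsOfUnity G ℂ

theorem ed_finite_char : Finite (G →* ℂˣ) := by
  apply Nat.finite_of_card_ne_zero
  rw [ed_card_char]
  exact Nat.card_pos.ne'

theorem ed_prod_one {p : ℕ} (hG : Nat.card G = p) (X : ℂ) :
    ∏ᶠ χ : G →* ℂˣ, (1 - (χ 1 : ℂ) * X) = (1 - X) ^ p := by
  have := ed_finite_char (G := G)
  let _ : Fintype (G →* ℂˣ) := Fintype.ofFinite _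
  rw [finprod_eq_prod_of_fintype]
  simp only [map_one, Units.val_one, one_mul]
  rw [Finset.prod_const, Finset.card_univ, ← Nat.card_eq_fintype_card, ed_card_char, hG]

theorem ed_prod_gen {p : ℕ} (hp : p.Prime) (hG : Nat.card G = p) {g : G} (hg : g ≠ 1) (X : ℂ) :
    ∏ᶠ χ : G →* ℂˣ, (1 - (χ g : ℂ) * X) = 1 - X ^ p := by
  classical
  have := ed_finite_char (G := G)
  let _ : Fintype (G →* ℂˣ) := Fintype.ofFinite _
  have hfp : Fact p.Prime := ⟨hp⟩
  rw [finprod_eq_prod_of_fintype]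
  have hinj : Function.Injective (fun χ : G →* ℂˣ => (χ g : ℂ)) := by
    intro χ χ' h
    have h1 : χ g = χ' g := Units.ext h
    ext x
    have h2 : x ∈ Subgroup.zpowers g := mem_zpowers_of_prime_card hG hg
    obtain ⟨n, rfl⟩ := h2
    simp only [map_zpow, h1]
  have himg : Finset.univ.image (fun χ : G →* ℂˣ => (χ g : ℂ)) =
      Polynomial.nthRootsFinset p (1 : ℂ) := by
    apply Finset.eq_of_subset_of_card_le
    · intro ζ hζ
      rw [Finset.mem_image] at hζ
      obtain ⟨χ, _, rfl⟩ := hζ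
      rw [Polynomial.mem_nthRootsFinset hp.pos, ← Units.val_pow_eq_pow_val, ← map_pow]
      have : g ^ p = 1 := by rw [← hG]; exact pow_card_eq_one'
      rw [this]
      simp
    · rw [Finset.card_image_of_injective _ hinj, Finset.card_univ, ← Nat.card_eq_fintype_card,
        ed_card_char, hG]
      have hprim := Complex.isPrimitiveRoot_exp p hp.ne_zero
      rw [hprim.card_nthRootsFinset]
  have hprim := Complex.isPrimitiveRoot_exp p hp.ne_zero
  have h3 := hprim.pow_sub_pow_eq_prod_sub_mul (1 : ℂ) X hp.pos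
  rw [one_pow, ← himg, Finset.prod_image (fun χ _ χ' _ h => hinj h)] at h3
  exact h3.symm

end EDG

section EDF

variable {F H : Type} [Field F] [NumberField F] [Field H] [NumberField H] [Algebra F H]
variable [IsGalois F H] {G : Type} [CommGroup G] [Fintype G]

theorem local_HF {p : ℕ} (hp : p.Prime) (hG : Nat.card G = p) (ι : G ≃* (H ≃ₐ[F] H))
    {v : HeightOneSpectrum (𝓞 F)} (hv : ∀ W : HeightOneSpectrum (𝓞 H), W.under (𝓞 F) = v →
      Algebra.IsUnramifiedAt (𝓞 F) W.asIdeal) {g : G} (hg : IsFr v (ι g)) (t : ℂ) :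
    ∏ w ∈ ovr H {v}, (1 - (nv w : ℂ) ^ t) =
      ∏ᶠ χ : G →* ℂˣ, (1 - (χ g : ℂ) * (nv v : ℂ) ^ t) := by
  have hcount := ed_count v hv
  have hGal : Nat.card (H ≃ₐ[F] H) = p := by
    rw [← hG]
    exact (Nat.card_congr ι.toEquiv).symm
  rw [hGal] at hcount
  have hpow : ∀ n : ℕ, ((nv v ^ n : ℕ) : ℂ) ^ t = ((nv v : ℂ) ^ t) ^ n := by
    intro n
    induction n with
    | zero => simp
    | succ n ih =>
      rw [pow_succ, Nat.cast_mul, Complex.natCast_mul_natCast_cpow, ih, pow_succ]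
  have hL : ∏ w ∈ ovr H {v}, (1 - (nv w : ℂ) ^ t) =
      (1 - ((nv v : ℂ) ^ t) ^ ed_f H v) ^ (ovr H {v}).card := by
    rw [← Finset.prod_const]
    refine Finset.prod_congr rfl fun w hw => ?_
    rw [mem_ovr, Finset.mem_singleton] at hw
    rw [ed_nv hw, hpow]
  rw [hL]
  by_cases hg1 : g = 1
  · subst hg1
    rw [map_one] at hg
    have hf := ed_triv v hg
    rw [hf, mul_one] at hcount
    rw [hf, hcount, pow_one, ed_prod_one hG]
  · have hf1 : ed_f H v ≠ 1 := by
      intro hf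
      have := ed_one v hv hg hf
      rw [← map_one ι] at this
      exact hg1 (ι.injective this)
    have hdvd : ed_f H v ∣ p := ⟨(ovr H {v}).card, by rw [mul_comm]; exact hcount.symm⟩
    have hfp : ed_f H v = p := ((Nat.dvd_prime hp).1 hdvd).resolve_left hf1
    rw [hfp] at hcount
    have hr : (ovr H {v}).card = 1 := by
      have := hp.pos
      exact Nat.eq_of_mul_eq_mul_right this (by rw [hcount, one_mul])
    rw [hfp, hr, pow_one, ed_prod_gen hp hG hg1]

end EDF

end Pool.Agent.RSK
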