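import Pool.Agent.Lib_helper17.RS.Bas
import Pool.Agent.Lib_helper17.RS.P_EA
import Pool.Agent.Lib_helper17.RS.P_EC
import Pool.Agent.Lib_helper17.RS.P_ED
/-! RS block EF: the product over the characters. -/

namespace Pool.Agent.RSK

open NumberField NumberField.InfinitePlace NumberField.Units IsDedekindDomain Filter Topology
  Complex

section EC

variable {F H : Type} [Field F] [NumberField F] [Field H] [NumberField H] [Algebra F H]

variable [IsGalois F H] {G : Type} [CommGroup G] [Fintype G]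

theorem ef_finite (G : Type) [CommGroup G] [Fintype G] : Finite (G →* ℂˣ) := by
  have : HasEnoughRootsOfUnity ℂ (Monoid.exponent G) := inferInstance
  obtain ⟨e⟩ := CommGroup.monoidHom_mulEquiv_of_hasEnoughRootsOfUnity G ℂ
  exact Finite.of_equiv G e.symm.toEquiv

theorem ef_norm (χ : G →* ℂˣ) (g : G) : ‖((χ g : ℂˣ) : ℂ)‖ = 1 := by
  refine Complex.norm_eq_one_of_pow_eq_one (n := Fintype.card G) ?_ Fintype.card_ne_zero
  rw [← Units.val_pow_eq_pow_val, ← map_pow, pow_card_eq_one, map_one, Units.val_one]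

theorem lst_prod {p : ℕ} (hp : p.Prime) (hG : Nat.card G = p) {ι : G ≃* (H ≃ₐ[F] H)}
    {S T : Finset (HeightOneSpectrum (𝓞 F))} (hST : Disjoint S T)
    (hunr : ∀ W : HeightOneSpectrum (𝓞 H), W.under (𝓞 F) ∉ S →
      Algebra.IsUnramifiedAt (𝓞 F) W.asIdeal)
    {fr : HeightOneSpectrum (𝓞 F) → G} (hfr : ∀ v, v ∉ S → IsFr v (ι (fr v)))
    {s : ℂ} (hs : 1 < s.re) :
    ∏ᶠ χ : G →* ℂˣ, LST S T fr χ s = zST (ovr H S) (ovr H T) s := by
  classical
  have hfin : Finite (G →* ℂˣ) := ef_finite G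
  have hft : Fintype (G →* ℂˣ) := Fintype.ofFinite _
  have hloc : ∀ v : HeightOneSpectrum (𝓞 F), v ∉ S → ∀ t : ℂ,
      ∏ χ : G →* ℂˣ, (1 - (χ (fr v) : ℂ) * (nv v : ℂ) ^ t) = ∏ w ∈ ovr H {v}, (1 - (nv w : ℂ) ^ t) := by
    intro v hv t
    rw [local_HF hp hG ι (fun W hW => hunr W (by rw [hW]; exact hv)) (hfr v hv) t,
      finprod_eq_prod_of_fintype]
  rw [finprod_eq_prod_of_fintype]
  unfold LST zST
  rw [Finset.prod_mul_distrib]
  congr 1
  · rw [Finset.prod_comm, prod_fiber]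
    refine Finset.prod_congr rfl fun v hv => ?_
    exact hloc v (Finset.disjoint_right.1 hST hv) (1 - s)
  · have hm : ∀ χ ∈ (Finset.univ : Finset (G →* ℂˣ)),
        Multipliable (fun v : {v : HeightOneSpectrum (𝓞 F) // v ∉ S} =>
          (1 - (χ (fr v.1) : ℂ) * (nv v.1 : ℂ) ^ (-s))⁻¹) := fun χ _ =>
      (mult_euler hs (fun v => v ∉ S) (fun v => (χ (fr v) : ℂ)) (fun v => (ef_norm χ _).le)).1
    rw [← Multipliable.tprod_finsetProd hm, (tprod_fiber S hs).2]
    refine tprod_congr fun v => ?_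
    rw [Finset.prod_inv_distrib, Finset.prod_inv_distrib, hloc v.1 v.2 (-s)]

theorem lst_one (S T : Finset (HeightOneSpectrum (𝓞 F))) (fr : HeightOneSpectrum (𝓞 F) → G)
    (s : ℂ) : LST S T fr 1 s = zST S T s := by
  unfold LST zST
  simp

end EC


end Pool.Agent.RSK
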