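import Pool.Agent.Lib_helper17.RS.Bas
/-!
# Rubin-Stark: block EG (identity theorem for meromorphic functions)
-/

namespace Pool.Agent.RSK

open Filter Topology Complex

theorem eg_aux {h : ℂ → ℂ} (hh : MeromorphicOn h Set.univ)
    (h1 : ∀ s : ℂ, 1 < s.re → h s = 0) (s₀ : ℂ) : ∀ᶠ s in 𝓝[≠] s₀, h s = 0 := by
  rw [← meromorphicOrderAt_eq_top_iff]
  by_contra hne
  have h2 := hh.meromorphicOrderAt_ne_top_of_isPreconnected (x := s₀) (y := (2 : ℂ))
    isPreconnected_univ (Set.mem_univ _) (Set.mem_univ _) hne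
  apply h2
  rw [meromorphicOrderAt_eq_top_iff]
  refine Filter.Eventually.filter_mono nhdsWithin_le_nhds ?_
  have h3 : {s : ℂ | 1 < s.re} ∈ 𝓝 (2 : ℂ) :=
    (isOpen_lt continuous_const Complex.continuous_re).mem_nhds (by simp)
  filter_upwards [h3] with s hs
  exact h1 s hs

theorem mero_ext {f g : ℂ → ℂ} (hf : MeromorphicOn f Set.univ) (hg : MeromorphicOn g Set.univ)
    (h : ∀ s : ℂ, 1 < s.re → f s = g s) (s₀ : ℂ) : ∀ᶠ s in 𝓝[≠] s₀, f s = g s := by
  have h1 := eg_aux (h := f - g) (hf.sub hg) (fun s hs => by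
    rw [Pi.sub_apply, h s hs, sub_self]) s₀
  exact h1.mono fun s hs => by
    rw [Pi.sub_apply, sub_eq_zero] at hs
    exact hs

end Pool.Agent.RSK
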