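import Pool.Agent.Lib_helper17.RS.Bas
import Pool.Agent.Lib_helper17.RS.P_PF
import Pool.Agent.Lib_helper17.RS.P_UP1
import Pool.Agent.Lib_helper17.RS.P_UP2
import Pool.Agent.Lib_helper17.RS.P_TW
/-!
# RS, block EE: local factors for `L/F₀`

Cites the wanted statements `nv_two_le`, `dn_surj`, `act_trans`, `dn_dn` of WPl (blocks PF, UP, TW).
-/

namespace Pool.Agent.RSK

open NumberField NumberField.InfinitePlace NumberField.Units IsDedekindDomain Filter Topology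
  Complex
open scoped Pointwise

set_option linter.unusedSectionVars false

section EEG

variable {Γ : Type} [Group Γ] {N Δ : Subgroup Γ} {p : ℕ}

theorem ee_gen (hp : p.Prime) (hN : Nat.card N = p) {n : Γ} (hn : n ∈ N) (h1 : n ≠ 1) {m : Γ}
    (hm : m ∈ N) : ∃ k : ℤ, n ^ k = m := by
  have : Fact p.Prime := ⟨hp⟩
  have h2 : (⟨n, hn⟩ : N) ≠ 1 := fun h => h1 (congrArg Subtype.val h)
  have h3 : (⟨m, hm⟩ : N) ∈ Subgroup.zpowers (⟨n, hn⟩ : N) := mem_zpowers_of_prime_card hN h2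
  obtain ⟨k, hk⟩ := h3
  exact ⟨k, congrArg Subtype.val hk⟩

theorem ee_comm (hp : p.Prime) (hN : Nat.card N = p) {a b : Γ} (ha : a ∈ N) (hb : b ∈ N) :
    a * b = b * a := by
  by_cases h1 : a = 1
  · rw [h1, one_mul, mul_one]
  · obtain ⟨k, rfl⟩ := ee_gen hp hN ha h1 hb
    exact (Commute.self_zpow a k).eq

theorem ee_K1 (hp : p.Prime) (hN : Nat.card N = p) (hcent : ∀ γ : Γ, (∀ n ∈ N, γ * n = n * γ) → γ ∈ N)
    {x n : Γ} (hx : x ∉ N) (hn : n ∈ N) (h : x * n = n * x) : n = 1 := by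
  by_contra h1
  apply hx
  refine hcent x fun m hm => ?_
  obtain ⟨k, rfl⟩ := ee_gen hp hN hn h1 hm
  have h2 : Commute x n := h
  exact (h2.zpow_right k).eq

theorem ee_K2 [Finite Γ] (hp : p.Prime) (hN : Nat.card N = p) [N.Normal]
    (hcent : ∀ γ : Γ, (∀ n ∈ N, γ * n = n * γ) → γ ∈ N) {x g : Γ} (hx : x ∉ N) (hg : g ∈ N) :
    ∃ h ∈ N, x * h * x⁻¹ * h⁻¹ = g := by
  have hmem : ∀ h : N, x * h * x⁻¹ * (h : Γ)⁻¹ ∈ N := fun h =>
    N.mul_mem (Subgroup.Normal.conj_mem inferInstance _ h.2 x) (N.inv_mem h.2)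
  set φ : N → N := fun h => ⟨x * h * x⁻¹ * (h : Γ)⁻¹, hmem h⟩ with hφ
  have hinj : Function.Injective φ := by
    intro a b hab
    have h1 : x * a * x⁻¹ * (a : Γ)⁻¹ = x * b * x⁻¹ * (b : Γ)⁻¹ := congrArg Subtype.val hab
    have ha : x * a * x⁻¹ ∈ N := Subgroup.Normal.conj_mem inferInstance _ a.2 x
    have hb : x * b * x⁻¹ ∈ N := Subgroup.Normal.conj_mem inferInstance _ b.2 x
    have h2 : (b : Γ)⁻¹ * a = 1 := by
      refine ee_K1 hp hN hcent hx (N.mul_mem (N.inv_mem b.2) a.2) ?_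
      have h3 : x * ((b : Γ)⁻¹ * a) * x⁻¹ = (x * b * x⁻¹)⁻¹ * (x * a * x⁻¹) := by group
      have h4 : x * a * x⁻¹ = x * b * x⁻¹ * (b : Γ)⁻¹ * a := by rw [← h1]; group
      have h5 : x * ((b : Γ)⁻¹ * a) * x⁻¹ = (b : Γ)⁻¹ * a := by rw [h3, h4]; group
      calc x * ((b : Γ)⁻¹ * a) = (x * ((b : Γ)⁻¹ * a) * x⁻¹) * x := by group
        _ = _ := by rw [h5]
    have h3 : (a : Γ) = b := by
      have := congrArg (fun y => (b : Γ) * y) h2
      simpa using this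
    exact Subtype.ext h3
  have hsurj : Function.Surjective φ := Finite.surjective_of_injective hinj
  obtain ⟨h, hh⟩ := hsurj ⟨g, hg⟩
  exact ⟨h, h.2, congrArg Subtype.val hh⟩

theorem ee_K3 (hp : p.Prime) (hN : Nat.card N = p) [N.Normal] (hND : N ⊓ Δ = ⊥)
    (hdec : ∀ γ : Γ, ∃ n ∈ N, ∃ δ ∈ Δ, γ = n * δ)
    (hcent : ∀ γ : Γ, (∀ n ∈ N, γ * n = n * γ) → γ ∈ N) {δ z : Γ} (hδ : δ ∈ Δ) (h1 : δ ≠ 1)
    (hz : z * δ = δ * z) : z ∈ Δ := by
  obtain ⟨n, hn, d, hd, rfl⟩ := hdec z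
  have hδN : δ ∉ N := fun h => h1 (by
    have : δ ∈ N ⊓ Δ := ⟨h, hδ⟩
    rwa [hND, Subgroup.mem_bot] at this)
  have h2 : n⁻¹ * (δ * n * δ⁻¹) = d * δ * d⁻¹ * δ⁻¹ := by
    have : n⁻¹ * (δ * n * δ⁻¹) = n⁻¹ * (δ * (n * d)) * d⁻¹ * δ⁻¹ := by group
    rw [this, ← hz]
    group
  have h3 : n⁻¹ * (δ * n * δ⁻¹) ∈ N :=
    N.mul_mem (N.inv_mem hn) (Subgroup.Normal.conj_mem inferInstance _ hn δ)
  have h4 : d * δ * d⁻¹ * δ⁻¹ ∈ Δ :=
    Δ.mul_mem (Δ.mul_mem (Δ.mul_mem hd hδ) (Δ.inv_mem hd)) (Δ.inv_mem hδ)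
  have h5 : n⁻¹ * (δ * n * δ⁻¹) = 1 := by
    have : n⁻¹ * (δ * n * δ⁻¹) ∈ N ⊓ Δ := ⟨h3, h2 ▸ h4⟩
    rwa [hND, Subgroup.mem_bot] at this
  have h6 : δ * n = n * δ := by
    calc δ * n = n * (n⁻¹ * (δ * n * δ⁻¹)) * δ := by group
      _ = _ := by rw [h5, mul_one]
  have h7 := ee_K1 hp hN hcent hδN hn h6
  rw [h7, one_mul]
  exact hd

theorem ee_K4 (hp : p.Prime) (hN : Nat.card N = p) [N.Normal]
    (hcent : ∀ γ : Γ, (∀ n ∈ N, γ * n = n * γ) → γ ∈ N) (x y : Γ) :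
    (y * x)⁻¹ * (x * y) ∈ N := by
  have : Fact p.Prime := ⟨hp⟩
  have : Finite N := Nat.finite_of_card_ne_zero (by rw [hN]; exact hp.pos.ne')
  have : Nontrivial N := by
    rw [← Finite.one_lt_card_iff_nontrivial, hN]
    exact hp.one_lt
  obtain ⟨⟨n, hn⟩, hn1⟩ := exists_ne (1 : N)
  have hn1' : n ≠ 1 := fun h => hn1 (Subtype.ext h)
  have hx : x * n * x⁻¹ ∈ N := Subgroup.Normal.conj_mem inferInstance _ hn x
  have hy : y * n * y⁻¹ ∈ N := Subgroup.Normal.conj_mem inferInstance _ hn y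
  obtain ⟨a, ha⟩ := ee_gen hp hN hn hn1' hx
  obtain ⟨b, hb⟩ := ee_gen hp hN hn hn1' hy
  have h1 : (x * y) * n * (x * y)⁻¹ = n ^ (a * b) := by
    have : (x * y) * n * (x * y)⁻¹ = x * (y * n * y⁻¹) * x⁻¹ := by group
    rw [this, ← hb, ← conj_zpow, ← ha, zpow_mul]
  have h2 : (y * x) * n * (y * x)⁻¹ = n ^ (a * b) := by
    have : (y * x) * n * (y * x)⁻¹ = y * (x * n * x⁻¹) * y⁻¹ := by group
    rw [this, ← ha, ← conj_zpow, ← hb, ← zpow_mul, mul_comm]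
  refine hcent _ fun m hm => ?_
  obtain ⟨k, rfl⟩ := ee_gen hp hN hn hn1' hm
  have h3 : Commute ((y * x)⁻¹ * (x * y)) n := by
    have h4 : (x * y) * n * (x * y)⁻¹ = (y * x) * n * (y * x)⁻¹ := by rw [h1, h2]
    show (y * x)⁻¹ * (x * y) * n = n * ((y * x)⁻¹ * (x * y))
    calc (y * x)⁻¹ * (x * y) * n = (y * x)⁻¹ * ((x * y) * n * (x * y)⁻¹) * (x * y) := by group
      _ = (y * x)⁻¹ * ((y * x) * n * (y * x)⁻¹) * (x * y) := by rw [h4]
      _ = _ := by group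
  exact (h3.zpow_right k).eq

/-- the abstract situation -/
structure EeS (Γ : Type) [Group Γ] (N Δ : Subgroup Γ) (p : ℕ) : Prop where
  hp : p.Prime
  hN : Nat.card N = p
  hΔ : Nat.card Δ = p - 1
  nrm : N.Normal
  hND : N ⊓ Δ = ⊥
  hdec : ∀ γ : Γ, ∃ n ∈ N, ∃ δ ∈ Δ, γ = n * δ
  hcent : ∀ γ : Γ, (∀ n ∈ N, γ * n = n * γ) → γ ∈ N

variable {Ω A B : Type} [MulAction Γ Ω] {πA : Ω → A} {πB : Ω → B}

/-- a place whose decomposition group lies in the complement -/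
theorem ee_exists [Finite Γ] (h : EeS Γ N Δ p) {W : Ω} (hW : MulAction.stabilizer Γ W ⊓ N = ⊥) :
    ∃ W' : Ω, MulAction.stabilizer Γ W' ≤ Δ := by
  have := h.nrm
  by_cases hD : MulAction.stabilizer Γ W = ⊥
  · exact ⟨W, by rw [hD]; exact bot_le⟩
  obtain ⟨⟨x, hx⟩, hx2⟩ := Subgroup.ne_bot_iff_exists_ne_one.1 hD
  have hx1 : x ≠ 1 := fun h => hx2 (Subtype.ext h)
  have hxN : x ∉ N := fun hn => hx1 (by
    have : x ∈ MulAction.stabilizer Γ W ⊓ N := ⟨hx, hn⟩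
    rwa [hW, Subgroup.mem_bot] at this)
  obtain ⟨g, hg, δ, hδ, hxe⟩ := h.hdec x
  obtain ⟨n, hn, hne⟩ := ee_K2 h.hp h.hN h.hcent hxN hg
  -- `n x n⁻¹ ∈ Δ`
  have h1 : n * x * n⁻¹ = δ := by
    have h2 : x = x * n * x⁻¹ * n⁻¹ * δ := by rw [hne]; exact hxe
    have hc : x * n * x⁻¹ ∈ N := Subgroup.Normal.conj_mem inferInstance _ hn x
    have h3 := ee_comm h.hp h.hN hc (N.inv_mem hn)
    have h4 : x * n⁻¹ = n⁻¹ * δ * 1 → n * x * n⁻¹ = δ := fun h => by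
      rw [mul_assoc, h]; group
    apply h4
    have h5 : δ = n * (x * n⁻¹ * x⁻¹) * x := by
      calc δ = (x * n * x⁻¹ * n⁻¹)⁻¹ * x := by
            rw [eq_inv_mul_iff_mul_eq]
            exact h2.symm
        _ = (n⁻¹ * (x * n * x⁻¹))⁻¹ * x := by rw [← h3]
        _ = (x * n * x⁻¹)⁻¹ * n * x := by group
        _ = n * (x * n * x⁻¹)⁻¹ * x := by
            rw [ee_comm h.hp h.hN (N.inv_mem hc) hn]
        _ = _ := by group
    rw [h5]
    group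
  refine ⟨n • W, fun y hy => ?_⟩
  rw [MulAction.stabilizer_smul_eq_stabilizer_map_conj] at hy
  obtain ⟨z, hz, rfl⟩ := hy
  have hcz : x * z = z * x := by
    have h6 := ee_K4 h.hp h.hN h.hcent x z
    have h7 : (z * x)⁻¹ * (x * z) ∈ MulAction.stabilizer Γ W ⊓ N :=
      ⟨Subgroup.mul_mem _ (Subgroup.inv_mem _ (Subgroup.mul_mem _ hz hx))
        (Subgroup.mul_mem _ hx hz), h6⟩
    rw [hW, Subgroup.mem_bot, inv_mul_eq_one] at h7
    exact h7.symm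
  have hδ1 : δ ≠ 1 := by
    intro h8
    rw [h8] at h1
    apply hx1
    have := congrArg (fun y => n⁻¹ * y * n) h1
    simpa [mul_assoc] using this
  refine ee_K3 h.hp h.hN h.hND h.hdec h.hcent hδ hδ1 ?_
  rw [← h1]
  simp only [MulEquiv.coe_toMonoidHom, MulAut.conj_apply]
  calc n * z * n⁻¹ * (n * x * n⁻¹) = n * (z * x) * n⁻¹ := by group
    _ = n * (x * z) * n⁻¹ := by rw [hcz]
    _ = _ := by group

/-- the other places in the same orbit -/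
theorem ee_other (h : EeS Γ N Δ p) {W : Ω} (hW : MulAction.stabilizer Γ W ⊓ N = ⊥)
    (hD : MulAction.stabilizer Γ W ≤ Δ) {n : Γ} (hn : n ∈ N) (hn1 : n ≠ 1) :
    MulAction.stabilizer Γ (n • W) ⊓ Δ = ⊥ := by
  have := h.nrm
  rw [Subgroup.eq_bot_iff_forall]
  rintro y ⟨hy, hyΔ⟩
  rw [SetLike.mem_coe, MulAction.stabilizer_smul_eq_stabilizer_map_conj] at hy
  obtain ⟨x, hx, rfl⟩ := hy
  simp only [MulEquiv.coe_toMonoidHom, MulAut.conj_apply] at hyΔ ⊢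
  by_cases hx1 : x = 1
  · rw [hx1]; group
  exfalso
  have hxΔ := hD hx
  have hxN : x ∉ N := fun hn => hx1 (by
    have : x ∈ MulAction.stabilizer Γ W ⊓ N := ⟨hx, hn⟩
    rwa [hW, Subgroup.mem_bot] at this)
  apply hn1
  refine ee_K1 h.hp h.hN h.hcent hxN hn ?_
  have h1 : n * (x * n⁻¹ * x⁻¹) ∈ N :=
    N.mul_mem hn (Subgroup.Normal.conj_mem inferInstance _ (N.inv_mem hn) x)
  have h2 : n * (x * n⁻¹ * x⁻¹) ∈ Δ := by
    have : n * (x * n⁻¹ * x⁻¹) = n * x * n⁻¹ * x⁻¹ := by group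
    rw [this]
    exact Δ.mul_mem hyΔ (Δ.inv_mem hxΔ)
  have h3 : n * (x * n⁻¹ * x⁻¹) = 1 := by
    have : n * (x * n⁻¹ * x⁻¹) ∈ N ⊓ Δ := ⟨h1, h2⟩
    rwa [h.hND, Subgroup.mem_bot] at this
  calc x * n = (n * (x * n⁻¹ * x⁻¹)) * (x * n) := by rw [h3, one_mul]
    _ = n * x := by group

theorem ee_conj_le {W : Ω} {δ : Γ} (hδ : δ ∈ Δ)
    (hD : MulAction.stabilizer Γ W ≤ Δ) : MulAction.stabilizer Γ (δ • W) ≤ Δ := by
  intro y hy
  rw [MulAction.stabilizer_smul_eq_stabilizer_map_conj] at hy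
  obtain ⟨x, hx, rfl⟩ := hy
  simp only [MulEquiv.coe_toMonoidHom, MulAut.conj_apply]
  exact Δ.mul_mem (Δ.mul_mem hδ (hD hx)) (Δ.inv_mem hδ)

theorem ee_conj_bot {W : Ω} {δ : Γ} (hδ : δ ∈ Δ)
    (hD : MulAction.stabilizer Γ W ⊓ Δ = ⊥) : MulAction.stabilizer Γ (δ • W) ⊓ Δ = ⊥ := by
  rw [Subgroup.eq_bot_iff_forall]
  rintro y ⟨hy, hyΔ⟩
  rw [SetLike.mem_coe, MulAction.stabilizer_smul_eq_stabilizer_map_conj] at hy
  obtain ⟨x, hx, rfl⟩ := hy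
  simp only [MulEquiv.coe_toMonoidHom, MulAut.conj_apply] at hyΔ ⊢
  have h1 : x ∈ MulAction.stabilizer Γ W ⊓ Δ := by
    refine ⟨hx, ?_⟩
    have : x = δ⁻¹ * (δ * x * δ⁻¹) * δ := by group
    rw [this]
    exact Δ.mul_mem (Δ.mul_mem (Δ.inv_mem hδ) hyΔ) hδ
  rw [hD, Subgroup.mem_bot] at h1
  rw [h1]
  group

/-- the first case -/
theorem ee_case1 [Finite Γ] [Finite Ω] [Nonempty Ω] (h : EeS Γ N Δ p)
    (htr : ∀ W W' : Ω, ∃ γ : Γ, γ • W = W')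
    (hA : Function.Surjective πA) (hB : Function.Surjective πB)
    (hfA : ∀ W W' : Ω, πA W = πA W' ↔ ∃ n ∈ N, n • W = W')
    (hfB : ∀ W W' : Ω, πB W = πB W' ↔ ∃ δ ∈ Δ, δ • W = W')
    (hD : ∀ W : Ω, MulAction.stabilizer Γ W ⊓ N = ⊥) :
    Nat.card B = Nat.card A + 1 ∧ ∃ b₁ : B, ∀ W : Ω,
      (πB W = b₁ → MulAction.stabilizer Γ W ≤ Δ) ∧
      (πB W ≠ b₁ → MulAction.stabilizer Γ W ⊓ Δ = ⊥) := by
  have := h.nrm
  obtain ⟨W₀⟩ := ‹Nonempty Ω›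
  obtain ⟨W₁, hW₁⟩ := ee_exists h (hD W₀)
  have hdec' : ∀ γ : Γ, ∃ δ ∈ Δ, ∃ n ∈ N, γ = δ * n := fun γ => by
    obtain ⟨n, hn, δ, hδ, he⟩ := h.hdec γ⁻¹
    refine ⟨δ⁻¹, Δ.inv_mem hδ, n⁻¹, N.inv_mem hn, ?_⟩
    rw [← inv_inj, he]
    group
  have hprop : ∀ W : Ω, (πB W = πB W₁ → MulAction.stabilizer Γ W ≤ Δ) ∧
      (πB W ≠ πB W₁ → MulAction.stabilizer Γ W ⊓ Δ = ⊥) := by
    intro W
    constructor
    · intro h1
      obtain ⟨δ, hδ, rfl⟩ := (hfB W₁ W).1 h1.symm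
      exact ee_conj_le hδ hW₁
    · intro h1
      obtain ⟨γ, rfl⟩ := htr W₁ W
      obtain ⟨δ, hδ, n, hn, rfl⟩ := hdec' γ
      rw [mul_smul]
      refine ee_conj_bot hδ ?_
      refine ee_other h (hD W₁) hW₁ hn ?_
      rintro rfl
      apply h1
      rw [mul_smul, one_smul]
      exact ((hfB W₁ _).2 ⟨δ, hδ, rfl⟩).symm
  refine ⟨?_, πB W₁, hprop⟩
  -- counting
  have : Finite A := Finite.of_surjective πA hA
  have : Finite B := Finite.of_surjective πB hB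
  have c1 : Nat.card Ω = Nat.card A * p := by
    rw [← h.hN, ← Nat.card_prod]
    symm
    refine Nat.card_congr (Equiv.ofBijective
      (fun q : A × N => (q.2 : Γ) • Function.surjInv hA q.1) ⟨?_, ?_⟩)
    · rintro ⟨a, n⟩ ⟨a', n'⟩ he
      simp only at he
      have h1 : πA (Function.surjInv hA a) = πA (Function.surjInv hA a') := by
        rw [(hfA _ _).2 ⟨n, n.2, rfl⟩, he, ← (hfA _ _).2 ⟨n', n'.2, rfl⟩]
      rw [Function.surjInv_eq hA, Function.surjInv_eq hA] at h1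
      subst h1
      have h2 : ((n' : Γ)⁻¹ * n) ∈ MulAction.stabilizer Γ (Function.surjInv hA a) ⊓ N := by
        refine ⟨?_, N.mul_mem (N.inv_mem n'.2) n.2⟩
        show _ ∈ MulAction.stabilizer Γ (Function.surjInv hA a)
        rw [MulAction.mem_stabilizer_iff, mul_smul, he, inv_smul_smul]
      rw [hD, Subgroup.mem_bot, inv_mul_eq_one] at h2
      rw [Prod.mk.injEq]
      exact ⟨rfl, Subtype.ext h2.symm⟩
    · intro W
      obtain ⟨n, hn, he⟩ := (hfA (Function.surjInv hA (πA W)) W).1 (Function.surjInv_eq hA _)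
      exact ⟨(πA W, ⟨n, hn⟩), he⟩
  have c2 : Nat.card {W : Ω // πB W = πB W₁} = Nat.card A := by
    refine Nat.card_congr (Equiv.ofBijective (fun W : {W : Ω // πB W = πB W₁} => πA W.1) ⟨?_, ?_⟩)
    · rintro ⟨W, hW⟩ ⟨W', hW'⟩ he
      simp only at he
      obtain ⟨n, hn, rfl⟩ := (hfA W W').1 he
      obtain ⟨δ, hδ, he2⟩ := (hfB W (n • W)).1 (by rw [hW, hW'])
      have h1 : δ⁻¹ * n ∈ MulAction.stabilizer Γ W := by
        rw [MulAction.mem_stabilizer_iff, mul_smul, ← he2, inv_smul_smul]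
      have h2 : n ∈ N ⊓ Δ := by
        refine ⟨hn, ?_⟩
        have h3 := (hprop W).1 hW h1
        have : n = δ * (δ⁻¹ * n) := by group
        rw [this]
        exact Δ.mul_mem hδ h3
      rw [h.hND, Subgroup.mem_bot] at h2
      subst h2
      exact Subtype.ext (one_smul _ _).symm
    · intro a
      obtain ⟨W, rfl⟩ := hA a
      obtain ⟨γ, rfl⟩ := htr W₁ W
      obtain ⟨n, hn, δ, hδ, rfl⟩ := h.hdec γ
      refine ⟨⟨δ • W₁, ((hfB _ _).2 ⟨δ, hδ, rfl⟩).symm⟩, ?_⟩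
      rw [mul_smul]
      exact (hfA _ _).2 ⟨n, hn, rfl⟩
  have c3 : Nat.card {W : Ω // πB W ≠ πB W₁} = Nat.card {b : B // b ≠ πB W₁} * (p - 1) := by
    rw [← h.hΔ, ← Nat.card_prod]
    symm
    have hm : ∀ q : {b : B // b ≠ πB W₁} × Δ,
        πB ((q.2 : Γ) • Function.surjInv hB q.1.1) ≠ πB W₁ := fun q => by
      rw [← (hfB _ _).2 ⟨q.2, q.2.2, rfl⟩, Function.surjInv_eq hB]
      exact q.1.2
    refine Nat.card_congr (Equiv.ofBijective
      (fun q : {b : B // b ≠ πB W₁} × Δ => (⟨(q.2 : Γ) • Function.surjInv hB q.1.1, hm q⟩ :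
        {W : Ω // πB W ≠ πB W₁})) ⟨?_, ?_⟩)
    · rintro ⟨⟨b, hb⟩, n⟩ ⟨⟨b', hb'⟩, n'⟩ he
      have he' := congrArg Subtype.val he
      simp only at he'
      have h1 : πB (Function.surjInv hB b) = πB (Function.surjInv hB b') := by
        rw [(hfB _ _).2 ⟨n, n.2, rfl⟩, he', ← (hfB _ _).2 ⟨n', n'.2, rfl⟩]
      rw [Function.surjInv_eq hB, Function.surjInv_eq hB] at h1
      subst h1
      have h2 : ((n' : Γ)⁻¹ * n) ∈ MulAction.stabilizer Γ (Function.surjInv hB b) ⊓ Δ := by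
        refine ⟨?_, Δ.mul_mem (Δ.inv_mem n'.2) n.2⟩
        show _ ∈ MulAction.stabilizer Γ (Function.surjInv hB b)
        rw [MulAction.mem_stabilizer_iff, mul_smul, he', inv_smul_smul]
      rw [(hprop _).2 (by rw [Function.surjInv_eq hB]; exact hb), Subgroup.mem_bot,
        inv_mul_eq_one] at h2
      rw [Prod.mk.injEq]
      exact ⟨rfl, Subtype.ext h2.symm⟩
    · rintro ⟨W, hW⟩
      obtain ⟨n, hn, he⟩ := (hfB (Function.surjInv hB (πB W)) W).1 (Function.surjInv_eq hB _)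
      exact ⟨(⟨πB W, hW⟩, ⟨n, hn⟩), Subtype.ext he⟩
  classical
  have c4 : Nat.card Ω = Nat.card {W : Ω // πB W = πB W₁} + Nat.card {W : Ω // πB W ≠ πB W₁} := by
    rw [← Nat.card_sum]
    exact Nat.card_congr (Equiv.sumCompl (fun W : Ω => πB W = πB W₁)).symm
  have c5 : Nat.card B = 1 + Nat.card {b : B // b ≠ πB W₁} := by
    have h1 : Nat.card B = Nat.card {b : B // b = πB W₁} + Nat.card {b : B // b ≠ πB W₁} := by
      rw [← Nat.card_sum]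
      exact Nat.card_congr (Equiv.sumCompl (fun b : B => b = πB W₁)).symm
    rw [h1]
    congr 1
    exact Nat.card_unique
  rw [c1, c2, c3] at c4
  have hp2 := h.hp.two_le
  obtain ⟨k, rfl⟩ : ∃ k, p = k + 1 := ⟨p - 1, by omega⟩
  rw [Nat.add_sub_cancel] at c4
  have hk : 0 < k := by omega
  have h2 : Nat.card A * k = Nat.card {b : B // b ≠ πB W₁} * k := by
    have : Nat.card A * (k + 1) = Nat.card A * k + Nat.card A := by ring
    omega
  have h3 := Nat.eq_of_mul_eq_mul_right hk h2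
  rw [c5, ← h3, add_comm]

/-- the second case -/
theorem ee_case2 [Nonempty Ω] (h : EeS Γ N Δ p)
    (htr : ∀ W W' : Ω, ∃ γ : Γ, γ • W = W')
    (hA : Function.Surjective πA) (hB : Function.Surjective πB)
    (hfA : ∀ W W' : Ω, πA W = πA W' ↔ ∃ n ∈ N, n • W = W')
    (hfB : ∀ W W' : Ω, πB W = πB W' ↔ ∃ δ ∈ Δ, δ • W = W')
    (hD : ∀ W : Ω, MulAction.stabilizer Γ W = N) :
    (∀ b b' : B, b = b') ∧ Nat.card A = p - 1 := by
  have := h.nrm
  have hdec' : ∀ γ : Γ, ∃ δ ∈ Δ, ∃ n ∈ N, γ = δ * n := fun γ => by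
    obtain ⟨n, hn, δ, hδ, he⟩ := h.hdec γ⁻¹
    refine ⟨δ⁻¹, Δ.inv_mem hδ, n⁻¹, N.inv_mem hn, ?_⟩
    rw [← inv_inj, he]
    group
  constructor
  · intro b b'
    obtain ⟨W, rfl⟩ := hB b
    obtain ⟨W', rfl⟩ := hB b'
    obtain ⟨γ, rfl⟩ := htr W W'
    obtain ⟨δ, hδ, n, hn, rfl⟩ := hdec' γ
    rw [hfB]
    refine ⟨δ, hδ, ?_⟩
    have : n • W = W := by
      rw [← MulAction.mem_stabilizer_iff, hD]
      exact hn
    rw [mul_smul, this]
  · obtain ⟨W₀⟩ := ‹Nonempty Ω›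
    rw [← h.hΔ]
    symm
    refine Nat.card_congr (Equiv.ofBijective (fun δ : Δ => πA ((δ : Γ) • W₀)) ⟨?_, ?_⟩)
    · intro δ δ' he
      simp only at he
      obtain ⟨n, hn, he2⟩ := (hfA _ _).1 he
      have h1 : (δ' : Γ)⁻¹ * (n * δ) ∈ N := by
        rw [← hD W₀, MulAction.mem_stabilizer_iff, mul_smul, mul_smul, he2, inv_smul_smul]
      have h2 : (δ' : Γ)⁻¹ * δ ∈ N ⊓ Δ := by
        refine ⟨?_, Δ.mul_mem (Δ.inv_mem δ'.2) δ.2⟩
        have : (δ' : Γ)⁻¹ * δ = (δ' : Γ)⁻¹ * (n * δ) * ((δ : Γ)⁻¹ * n⁻¹ * (δ : Γ)⁻¹⁻¹) := by group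
        show _ ∈ N
        rw [this]
        exact N.mul_mem h1 (Subgroup.Normal.conj_mem inferInstance _ (N.inv_mem hn) _)
      rw [h.hND, Subgroup.mem_bot, inv_mul_eq_one] at h2
      exact Subtype.ext h2.symm
    · intro a
      obtain ⟨W, rfl⟩ := hA a
      obtain ⟨γ, rfl⟩ := htr W₀ W
      obtain ⟨n, hn, δ, hδ, rfl⟩ := h.hdec γ
      refine ⟨⟨δ, hδ⟩, ?_⟩
      rw [mul_smul]
      exact (hfA _ _).2 ⟨n, hn, rfl⟩

end EEG


section EEN

variable {k H : Type} [Field k] [NumberField k] [Field H] [NumberField H] [Algebra k H]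

theorem ee_smul (σ : H ≃ₐ[k] H) (x : 𝓞 H) :
    RingOfIntegers.mapRingEquiv σ.toRingEquiv x = σ • x := rfl

theorem ee_asIdeal (σ : H ≃ₐ[k] H) (W : HeightOneSpectrum (𝓞 H)) :
    (HeightOneSpectrum.equivOfRingEquiv (RingOfIntegers.mapRingEquiv σ.toRingEquiv) W).asIdeal =
      σ • W.asIdeal := by
  rw [Ideal.pointwise_smul_def]
  show Ideal.comap (((RingOfIntegers.mapRingEquiv σ.toRingEquiv).symm : 𝓞 H ≃+* 𝓞 H) :
    𝓞 H →+* 𝓞 H) W.asIdeal = _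
  exact Ideal.comap_symm _

theorem ee_f [IsGalois k H] (W : HeightOneSpectrum (𝓞 H)) :
    ∃ f : ℕ, 0 < f ∧ nv W = nv (W.under (𝓞 k)) ^ f ∧
      Nat.card (MulAction.stabilizer (H ≃ₐ[k] H) W.asIdeal) =
        Nat.card (W.asIdeal.inertia (H ≃ₐ[k] H)) * f := by
  have h1 : W.asIdeal.LiesOver (W.under (𝓞 k)).asIdeal := ⟨rfl⟩
  have h2 : (W.under (𝓞 k)).asIdeal.IsPrime := (W.under (𝓞 k)).isPrime
  have h3 : (W.under (𝓞 k)).asIdeal.IsMaximal := (W.under (𝓞 k)).isMaximal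
  have h4 : W.asIdeal.IsMaximal := W.isMaximal
  refine ⟨W.asIdeal.inertiaDeg (𝓞 k), Ideal.inertiaDeg_pos _ _, ?_, ?_⟩
  · unfold nv
    rw [← Ideal.inertiaDeg'_eq_inertiaDeg (W.under (𝓞 k)).asIdeal W.asIdeal]
    exact Ideal.absNorm_eq_pow_inertiaDeg'_of_liesOver _ _ h2 (W.under (𝓞 k)).ne_bot
  · exact Ideal.card_stabilizer_eq_card_inertia_mul_finrank (W.under (𝓞 k)).asIdeal W.asIdeal

theorem ee_nv (v : HeightOneSpectrum (𝓞 k)) : nv v = Nat.card (𝓞 k ⧸ v.asIdeal) := by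
  unfold nv
  rw [Ideal.absNorm_apply, Submodule.cardQuot_apply]

/-- uniqueness of the Frobenius automorphism -/
theorem ee_uniq [IsGalois k H] {W : HeightOneSpectrum (𝓞 H)}
    (hW : Algebra.IsUnramifiedAt (𝓞 k) W.asIdeal) {σ τ : H ≃ₐ[k] H}
    (h1 : ∀ x : 𝓞 H, σ • x - x ^ nv (W.under (𝓞 k)) ∈ W.asIdeal)
    (h2 : ∀ x : 𝓞 H, τ • x - x ^ nv (W.under (𝓞 k)) ∈ W.asIdeal) : σ = τ := by
  have hcomm : SMulCommClass (H ≃ₐ[k] H) (𝓞 k) (𝓞 H) := IsGaloisGroup.commutes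
  have hf : FaithfulSMul (H ≃ₐ[k] H) (𝓞 H) := IsGaloisGroup.faithful (𝓞 k)
  have e : nv (W.under (𝓞 k)) = Nat.card (𝓞 k ⧸ W.asIdeal.under (𝓞 k)) := ee_nv _
  rw [e] at h1 h2
  have h3 : (MulSemiringAction.toAlgHom (𝓞 k) (𝓞 H) σ) =
      (MulSemiringAction.toAlgHom (𝓞 k) (𝓞 H) τ) := by
    refine AlgHom.IsArithFrobAt.eq_of_isUnramifiedAt (Q := W.asIdeal) h1 h2 ?_
    intro x hx
    rw [mem_nonZeroDivisors_iff_ne_zero]
    rintro rfl
    exact hx W.asIdeal.zero_mem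
  refine eq_of_smul_eq_smul fun x : 𝓞 H => ?_
  exact DFunLike.congr_fun h3 x

theorem ee_inertia [IsGalois k H] {W : HeightOneSpectrum (𝓞 H)}
    (hW : Algebra.IsUnramifiedAt (𝓞 k) W.asIdeal) {τ : H ≃ₐ[k] H}
    (h2 : ∀ x : 𝓞 H, τ • x - x ^ nv (W.under (𝓞 k)) ∈ W.asIdeal) :
    W.asIdeal.inertia (H ≃ₐ[k] H) = ⊥ := by
  rw [Subgroup.eq_bot_iff_forall]
  intro σ hσ
  have h3 : σ * τ = τ := by
    refine ee_uniq hW (fun x => ?_) h2
    have e : (σ * τ) • x - x ^ nv (W.under (𝓞 k)) =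
        (σ • (τ • x) - τ • x) + (τ • x - x ^ nv (W.under (𝓞 k))) := by
      rw [mul_smul]
      ring
    rw [e]
    exact W.asIdeal.add_mem (hσ (τ • x)) (h2 x)
  exact mul_eq_right.1 h3

theorem ee_frob_ne [IsGalois k H] {W : HeightOneSpectrum (𝓞 H)} {n : ℕ} (hn : 2 ≤ n)
    (h : nv W = nv (W.under (𝓞 k)) ^ n) {τ : H ≃ₐ[k] H}
    (h2 : ∀ x : 𝓞 H, τ • x - x ^ nv (W.under (𝓞 k)) ∈ W.asIdeal) : τ ≠ 1 := by
  rintro rfl
  have hW : W.asIdeal.IsMaximal := W.isMaximal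
  set q := nv (W.under (𝓞 k)) with hq
  have hq2 : 2 ≤ q := nv_two_le _
  let : Field (𝓞 H ⧸ W.asIdeal) := Ideal.Quotient.field W.asIdeal
  have hfin : Finite (𝓞 H ⧸ W.asIdeal) := inferInstance
  let : Fintype (𝓞 H ⧸ W.asIdeal) := Fintype.ofFinite _
  have h3 : ∀ y : 𝓞 H ⧸ W.asIdeal, y ^ q = y := by
    intro y
    obtain ⟨x, rfl⟩ := Ideal.Quotient.mk_surjective y
    rw [← map_pow, eq_comm, Ideal.Quotient.eq]
    have := h2 x
    rwa [one_smul] at this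
  have h4 : Fintype.card (𝓞 H ⧸ W.asIdeal) ≤ q := by
    classical
    have hne : (Polynomial.X ^ q - Polynomial.X : Polynomial (𝓞 H ⧸ W.asIdeal)) ≠ 0 :=
      FiniteField.X_pow_card_sub_X_ne_zero _ (by omega)
    have h5 : (Polynomial.X ^ q - Polynomial.X : Polynomial (𝓞 H ⧸ W.asIdeal)).natDegree = q :=
      FiniteField.X_pow_card_sub_X_natDegree_eq _ (by omega)
    rw [← h5, ← Finset.card_univ]
    refine le_trans (Finset.card_le_card (t := (Polynomial.X ^ q - Polynomial.X :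
      Polynomial (𝓞 H ⧸ W.asIdeal)).roots.toFinset) ?_)
      ((Multiset.toFinset_card_le _).trans (Polynomial.card_roots' _))
    intro y _
    rw [Multiset.mem_toFinset, Polynomial.mem_roots hne]
    simp [h3 y]
  have h6 : Fintype.card (𝓞 H ⧸ W.asIdeal) = q ^ n := by
    rw [← h, ee_nv, Nat.card_eq_fintype_card]
  rw [h6] at h4
  have h7 : q ^ 2 ≤ q ^ n := Nat.pow_le_pow_right (by omega) hn
  nlinarith

end EEN

section EET

variable {F₀ K H : Type} [Field F₀] [NumberField F₀] [Field K] [NumberField K] [Field H]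
  [NumberField H] [Algebra F₀ K] [Algebra F₀ H] [Algebra K H] [IsScalarTower F₀ K H]

/-- the subgroup of an intermediate field -/
noncomputable def eeR (F₀ K H : Type) [Field F₀] [Field K] [Field H] [Algebra F₀ K] [Algebra F₀ H]
    [Algebra K H] [IsScalarTower F₀ K H] : Subgroup (H ≃ₐ[F₀] H) :=
  (AlgEquiv.restrictScalarsHom (S := K) (A := H) F₀).range

theorem ee_inj : Function.Injective (AlgEquiv.restrictScalarsHom (S := K) (A := H) F₀) :=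
  AlgEquiv.restrictScalars_injective F₀

theorem ee_card (S : Subgroup (H ≃ₐ[F₀] H)) :
    Nat.card (S.comap (AlgEquiv.restrictScalarsHom (S := K) (A := H) F₀)) =
      Nat.card (S ⊓ eeR F₀ K H : Subgroup (H ≃ₐ[F₀] H)) := by
  rw [← Subgroup.card_map_of_injective (ee_inj (F₀ := F₀) (K := K) (H := H)),
    Subgroup.map_comap_eq, inf_comm]
  rfl

theorem ee_card_R : Nat.card (eeR F₀ K H) = Nat.card (H ≃ₐ[K] H) := by
  have h := ee_card (F₀ := F₀) (K := K) (H := H) ⊤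
  rw [Subgroup.comap_top, top_inf_eq, Subgroup.card_top] at h
  exact h.symm

theorem ee_stab (W : HeightOneSpectrum (𝓞 H)) :
    MulAction.stabilizer (H ≃ₐ[K] H) W.asIdeal =
      (MulAction.stabilizer (H ≃ₐ[F₀] H) W.asIdeal).comap
        (AlgEquiv.restrictScalarsHom (S := K) (A := H) F₀) := by
  ext σ
  rfl

theorem ee_inert (W : HeightOneSpectrum (𝓞 H)) :
    W.asIdeal.inertia (H ≃ₐ[K] H) = (W.asIdeal.inertia (H ≃ₐ[F₀] H)).comap
      (AlgEquiv.restrictScalarsHom (S := K) (A := H) F₀) := by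
  ext σ
  rfl

/-- the residue degrees -/
theorem ee_f' [IsGalois F₀ H] (W : HeightOneSpectrum (𝓞 H)) :
    ∃ f : ℕ, 0 < f ∧ nv W = nv (W.under (𝓞 K)) ^ f ∧
      Nat.card (MulAction.stabilizer (H ≃ₐ[F₀] H) W.asIdeal ⊓ eeR F₀ K H :
        Subgroup (H ≃ₐ[F₀] H)) =
      Nat.card (W.asIdeal.inertia (H ≃ₐ[F₀] H) ⊓ eeR F₀ K H : Subgroup (H ≃ₐ[F₀] H)) * f := by
  have : IsGalois K H := IsGalois.tower_top_of_isGalois F₀ K H
  obtain ⟨f, h1, h2, h3⟩ := ee_f (k := K) W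
  refine ⟨f, h1, h2, ?_⟩
  rw [ee_stab (F₀ := F₀), ee_inert (F₀ := F₀), ee_card, ee_card] at h3
  exact h3

theorem ee_mem_R {γ : H ≃ₐ[F₀] H} :
    γ ∈ eeR F₀ K H ↔ ∀ x : K, γ (algebraMap K H x) = algebraMap K H x := by
  constructor
  · rintro ⟨σ, rfl⟩ x
    exact σ.commutes x
  · intro h
    exact ⟨AlgEquiv.ofRingEquiv (f := γ.toRingEquiv) h, rfl⟩

end EET


section EEM

variable {F₀ F L H : Type} [Field F₀] [NumberField F₀] [Field F] [NumberField F] [Field L]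
  [NumberField L] [Field H] [NumberField H] [Algebra F₀ F] [Algebra F₀ L] [Algebra F₀ H]
  [Algebra F H] [Algebra L H] [IsScalarTower F₀ F H] [IsScalarTower F₀ L H] [IsGalois F₀ H]
  [IsGalois F₀ F] {G : Type} [CommGroup G] [Fintype G]

theorem ee_EeS {p : ℕ} {ι : G ≃* (H ≃ₐ[F] H)} (hA : Afn F₀ F L H ι p) :
    EeS (H ≃ₐ[F₀] H) (eeR F₀ F H) (eeR F₀ L H) p where
  hp := hA.prime
  hN := by
    rw [ee_card_R, ← hA.cardG]
    exact (Nat.card_congr ι.toEquiv).symm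
  hΔ := by rw [ee_card_R, hA.cardD]
  nrm := by
    refine ⟨fun n hn γ => ?_⟩
    rw [ee_mem_R] at hn ⊢
    intro x
    have h1 := AlgEquiv.restrictNormal_commutes (γ⁻¹ : H ≃ₐ[F₀] H) F x
    show γ (n (γ⁻¹ (algebraMap F H x))) = _
    rw [← h1, hn, h1]
    exact AlgEquiv.apply_symm_apply γ _
  hND := by
    rw [Subgroup.eq_bot_iff_forall]
    rintro γ ⟨⟨σ, rfl⟩, hL'⟩
    have hL := ee_mem_R.1 (show _ ∈ eeR F₀ L H from hL')
    have h1 : ι.symm σ = 1 := hA.triv (ι.symm σ) fun x => by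
      rw [MulEquiv.apply_symm_apply]
      exact hL x
    have h2 : σ = 1 := by
      rw [← ι.apply_symm_apply σ, h1, map_one]
    rw [h2, map_one]
  hdec γ := by
    obtain ⟨g, δ, h⟩ := hA.dec γ
    refine ⟨AlgEquiv.restrictScalarsHom F₀ (ι g), ⟨ι g, rfl⟩,
      AlgEquiv.restrictScalarsHom F₀ δ, ⟨δ, rfl⟩, ?_⟩
    ext x
    exact h x
  hcent γ hγ := by
    obtain ⟨g, δ, h⟩ := hA.dec γ
    have hδ : δ = 1 := by
      refine hA.cent δ fun g' x => ?_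
      have h1 := hγ (AlgEquiv.restrictScalarsHom F₀ (ι g')) ⟨ι g', rfl⟩
      have h2 : γ (ι g' x) = ι g' (γ x) := DFunLike.congr_fun h1 x
      rw [h, h] at h2
      have h3 : ι g' (ι g (δ x)) = ι g (ι g' (δ x)) := by
        have : ι g' * ι g = ι g * ι g' := by rw [← map_mul, ← map_mul, mul_comm]
        exact DFunLike.congr_fun this (δ x)
      rw [h3] at h2
      exact (ι g).injective h2
    refine ⟨ι g, ?_⟩
    ext x
    have h1 := h x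
    rw [hδ] at h1
    exact h1.symm

end EEM

section EEA

variable {F₀ K H : Type} [Field F₀] [NumberField F₀] [Field K] [NumberField K] [Field H]
  [NumberField H] [Algebra F₀ K] [Algebra F₀ H] [Algebra K H] [IsScalarTower F₀ K H]

/-- the action on the places above `v₀` -/
@[reducible] noncomputable def ee_act (v₀ : HeightOneSpectrum (𝓞 F₀)) :
    MulAction (H ≃ₐ[F₀] H) (ovr H {v₀}) where
  smul σ W := ⟨HeightOneSpectrum.equivOfRingEquiv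
    (RingOfIntegers.mapRingEquiv σ.toRingEquiv) W.1, by
      rw [mem_ovr, under_equiv]
      exact mem_ovr.1 W.2⟩
  one_smul W := Subtype.ext (Sum.inr.inj (act_one (F := F₀) (H := H) (Sum.inr W.1)))
  mul_smul σ τ W := Subtype.ext (Sum.inr.inj (act_mul σ τ (Sum.inr W.1)))

attribute [local instance] ee_act

theorem ee_smul_val {v₀ : HeightOneSpectrum (𝓞 F₀)} (σ : H ≃ₐ[F₀] H) (W : ovr H {v₀}) :
    (σ • W).1 = HeightOneSpectrum.equivOfRingEquiv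
      (RingOfIntegers.mapRingEquiv σ.toRingEquiv) W.1 := rfl

theorem ee_stabO {v₀ : HeightOneSpectrum (𝓞 F₀)} (W : ovr H {v₀}) :
    MulAction.stabilizer (H ≃ₐ[F₀] H) W = MulAction.stabilizer (H ≃ₐ[F₀] H) W.1.asIdeal := by
  ext σ
  rw [MulAction.mem_stabilizer_iff, MulAction.mem_stabilizer_iff, Subtype.ext_iff, ee_smul_val,
    HeightOneSpectrum.ext_iff, ee_asIdeal]

theorem ee_under_under (W : HeightOneSpectrum (𝓞 H)) :
    (W.under (𝓞 K)).under (𝓞 F₀) = W.under (𝓞 F₀) :=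
  Sum.inr.inj (dn_dn (F₀ := F₀) (F := K) (Sum.inr W))

variable (K) in
/-- the place below -/
noncomputable def ee_pi {v₀ : HeightOneSpectrum (𝓞 F₀)} (W : ovr H {v₀}) : ovr K {v₀} :=
  ⟨W.1.under (𝓞 K), by
    rw [mem_ovr, ee_under_under]
    exact mem_ovr.1 W.2⟩

theorem ee_pi_surj {v₀ : HeightOneSpectrum (𝓞 F₀)} :
    Function.Surjective (ee_pi K : ovr H {v₀} → ovr K {v₀}) := by
  rintro ⟨v, hv⟩
  obtain ⟨W, hW⟩ := dn_surj (F := K) (H := H) (Sum.inr v)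
  rcases W with W | W
  · exact absurd hW (by simp [dn])
  · have h1 : W.under (𝓞 K) = v := Sum.inr.inj hW
    refine ⟨⟨W, ?_⟩, Subtype.ext h1⟩
    rw [mem_ovr, ← ee_under_under (F₀ := F₀) (K := K), h1]
    exact mem_ovr.1 hv

theorem ee_pi_iff [IsGalois F₀ H] {v₀ : HeightOneSpectrum (𝓞 F₀)} (W W' : ovr H {v₀}) :
    ee_pi K W = ee_pi K W' ↔ ∃ n ∈ eeR F₀ K H, n • W = W' := by
  have : IsGalois K H := IsGalois.tower_top_of_isGalois F₀ K H
  constructor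
  · intro h
    have h1 : dn K (Sum.inr W.1) = dn K (Sum.inr W'.1) :=
      congrArg Sum.inr (congrArg Subtype.val h)
    obtain ⟨σ, hσ⟩ := act_trans (F := K) (H := H) h1
    exact ⟨AlgEquiv.restrictScalarsHom F₀ σ, ⟨σ, rfl⟩, Subtype.ext (Sum.inr.inj hσ)⟩
  · rintro ⟨_, ⟨σ, rfl⟩, rfl⟩
    refine Subtype.ext ?_
    exact (under_equiv σ W.1).symm

theorem ee_tr [IsGalois F₀ H] {v₀ : HeightOneSpectrum (𝓞 F₀)} (W W' : ovr H {v₀}) :
    ∃ γ : H ≃ₐ[F₀] H, γ • W = W' := by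
  have h1 : dn F₀ (Sum.inr W.1) = dn F₀ (Sum.inr W'.1) := by
    have e1 := mem_ovr.1 W.2
    have e2 := mem_ovr.1 W'.2
    rw [Finset.mem_singleton] at e1 e2
    exact congrArg Sum.inr (e1.trans e2.symm)
  obtain ⟨σ, hσ⟩ := act_trans (F := F₀) (H := H) h1
  exact ⟨σ, Subtype.ext (Sum.inr.inj hσ)⟩

theorem ee_nonempty {v₀ : HeightOneSpectrum (𝓞 F₀)} : Nonempty (ovr H {v₀}) := by
  obtain ⟨W, hW⟩ := dn_surj (F := F₀) (H := H) (Sum.inr v₀)
  rcases W with W | W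
  · exact absurd hW (by simp [dn])
  · refine ⟨⟨W, ?_⟩⟩
    rw [mem_ovr, Finset.mem_singleton]
    exact Sum.inr.inj hW

theorem ee_v0 {v₀ : HeightOneSpectrum (𝓞 F₀)} (W : ovr H {v₀}) : W.1.under (𝓞 F₀) = v₀ := by
  have e1 := mem_ovr.1 W.2
  rwa [Finset.mem_singleton] at e1

/-- trivial intersection with the decomposition group -/
theorem ee_nv_bot [IsGalois F₀ H] {v₀ : HeightOneSpectrum (𝓞 F₀)} (W : ovr H {v₀})
    (h : MulAction.stabilizer (H ≃ₐ[F₀] H) W ⊓ eeR F₀ K H = ⊥) :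
    nv (W.1.under (𝓞 K)) = nv W.1 := by
  obtain ⟨f, h1, h2, h3⟩ := ee_f' (F₀ := F₀) (K := K) W.1
  rw [← ee_stabO, h, Subgroup.card_bot] at h3
  have hf : f = 1 := Nat.eq_one_of_mul_eq_one_left h3.symm
  rw [h2, hf, pow_one]

/-- the decomposition group is contained in the subgroup -/
theorem ee_nv_le [IsGalois F₀ H] {v₀ : HeightOneSpectrum (𝓞 F₀)} (W : ovr H {v₀})
    (h : MulAction.stabilizer (H ≃ₐ[F₀] H) W ≤ eeR F₀ K H) :
    nv (W.1.under (𝓞 K)) = nv v₀ := by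
  obtain ⟨f, h1, h2, h3⟩ := ee_f' (F₀ := F₀) (K := K) W.1
  obtain ⟨f', h1', h2', h3'⟩ := ee_f (k := F₀) W.1
  rw [ee_stabO] at h
  have h4 : W.1.asIdeal.inertia (H ≃ₐ[F₀] H) ≤ eeR F₀ K H :=
    (Ideal.inertia_le_stabilizer W.1.asIdeal).trans h
  rw [inf_eq_left.2 h, inf_eq_left.2 h4, h3'] at h3
  have h5 : 0 < Nat.card (W.1.asIdeal.inertia (H ≃ₐ[F₀] H)) := Nat.card_pos
  have h6 : f' = f := Nat.eq_of_mul_eq_mul_left h5 h3
  subst h6
  rw [h2', ee_v0] at h2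
  exact (Nat.pow_left_injective h1.ne' h2).symm

theorem ee_nv_eq [IsGalois F₀ H] {v₀ : HeightOneSpectrum (𝓞 F₀)} (W W' : ovr H {v₀}) :
    nv W.1 = nv W'.1 := by
  obtain ⟨γ, rfl⟩ := ee_tr W W'
  exact (nv_equiv _ _).symm

end EEA

section EEZ

attribute [local instance] ee_act

variable {F₀ F L H : Type} [Field F₀] [NumberField F₀] [Field F] [NumberField F] [Field L]
  [NumberField L] [Field H] [NumberField H] [Algebra F₀ F] [Algebra F₀ L] [Algebra F₀ H]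
  [Algebra F H] [Algebra L H] [IsScalarTower F₀ F H] [IsScalarTower F₀ L H] [IsGalois F₀ H]
  [IsGalois F₀ F] {G : Type} [CommGroup G] [Fintype G]

/-- the first case -/
theorem ee_first {p : ℕ} {ι : G ≃* (H ≃ₐ[F] H)} (hA : Afn F₀ F L H ι p)
    {v₀ : HeightOneSpectrum (𝓞 F₀)}
    {fr : HeightOneSpectrum (𝓞 F) → G} (hfr : ∀ v ∈ ovr F {v₀}, IsFr v (ι (fr v)))
    {χ : G →* ℂˣ} (t : ℂ)
    (hD : ∀ W : ovr H {v₀}, MulAction.stabilizer (H ≃ₐ[F₀] H) W ⊓ eeR F₀ F H = ⊥) :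
    ∏ w ∈ ovr L {v₀}, (1 - (nv w : ℂ) ^ t) =
      (1 - (nv v₀ : ℂ) ^ t) * ∏ v ∈ ovr F {v₀}, (1 - (χ (fr v) : ℂ) * (nv v : ℂ) ^ t) := by
  classical
  have := ee_nonempty (H := H) (v₀ := v₀)
  obtain ⟨hcard, b₁, hb⟩ := ee_case1 (Ω := ovr H {v₀}) (ee_EeS hA) ee_tr
    (πA := ee_pi F) (πB := ee_pi L) ee_pi_surj ee_pi_surj ee_pi_iff ee_pi_iff hD
  obtain ⟨W₀⟩ := this
  set M := nv W₀.1 with hM
  have hF : ∀ v ∈ ovr F {v₀}, nv v = M := by
    intro v hv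
    obtain ⟨W, hW⟩ := ee_pi_surj (H := H) ⟨v, hv⟩
    have h1 : W.1.under (𝓞 F) = v := congrArg Subtype.val hW
    rw [← h1, ee_nv_bot W (hD W), hM]
    exact ee_nv_eq _ _
  have hfr1 : ∀ v ∈ ovr F {v₀}, fr v = 1 := by
    intro v hv
    obtain ⟨W, hW⟩ := ee_pi_surj (H := H) ⟨v, hv⟩
    have h1 : W.1.under (𝓞 F) = v := congrArg Subtype.val hW
    have h2 := hfr v hv W.1 h1
    have : IsGalois F H := IsGalois.tower_top_of_isGalois F₀ F H
    have hcomm : SMulCommClass (H ≃ₐ[F] H) (𝓞 F) (𝓞 H) := IsGaloisGroup.commutes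
    have h3 : IsArithFrobAt (𝓞 F) (ι (fr v)) W.1.asIdeal := by
      intro x
      have e : nv v = Nat.card (𝓞 F ⧸ W.1.asIdeal.under (𝓞 F)) := by
        rw [← h1]
        exact ee_nv _
      rw [← e]
      exact h2 x
    have h4 := h3.mem_stabilizer
    have h5 : AlgEquiv.restrictScalarsHom F₀ (ι (fr v)) ∈
        MulAction.stabilizer (H ≃ₐ[F₀] H) W ⊓ eeR F₀ F H := by
      refine ⟨?_, ⟨_, rfl⟩⟩
      rw [ee_stabO]
      exact h4
    rw [hD, Subgroup.mem_bot] at h5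
    have h6 : ι (fr v) = 1 := ee_inj (F₀ := F₀) (by rw [h5, map_one])
    exact (map_eq_one_iff ι ι.injective).1 h6
  have hb1 : nv b₁.1 = nv v₀ := by
    obtain ⟨W, hW⟩ := ee_pi_surj (H := H) b₁
    have h1 : W.1.under (𝓞 L) = b₁.1 := congrArg Subtype.val hW
    rw [← h1]
    exact ee_nv_le W ((hb W).1 hW)
  have hL : ∀ w ∈ (ovr L {v₀}).erase b₁.1, nv w = M := by
    intro w hw
    rw [Finset.mem_erase] at hw
    obtain ⟨W, hW⟩ := ee_pi_surj (H := H) ⟨w, hw.2⟩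
    have h1 : W.1.under (𝓞 L) = w := congrArg Subtype.val hW
    rw [← h1, ee_nv_bot W ((hb W).2 (by
      rw [hW]
      exact fun h => hw.1 (congrArg Subtype.val h))), hM]
    exact ee_nv_eq _ _
  have e1 : ∏ v ∈ ovr F {v₀}, (1 - (χ (fr v) : ℂ) * (nv v : ℂ) ^ t) =
      (1 - (M : ℂ) ^ t) ^ (ovr F {v₀}).card := by
    rw [← Finset.prod_const]
    refine Finset.prod_congr rfl fun v hv => ?_
    rw [hfr1 v hv, hF v hv, map_one, Units.val_one, one_mul]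
  have e2 : ∏ w ∈ (ovr L {v₀}).erase b₁.1, (1 - (nv w : ℂ) ^ t) =
      (1 - (M : ℂ) ^ t) ^ (ovr F {v₀}).card := by
    have hc : ((ovr L {v₀}).erase b₁.1).card = (ovr F {v₀}).card := by
      rw [Finset.card_erase_of_mem b₁.2]
      rw [Nat.card_eq_fintype_card, Nat.card_eq_fintype_card, Fintype.card_coe,
        Fintype.card_coe] at hcard
      omega
    rw [← hc, ← Finset.prod_const]
    refine Finset.prod_congr rfl fun w hw => ?_
    rw [hL w hw]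
  rw [← Finset.mul_prod_erase _ _ b₁.2, e1, e2, hb1]

theorem ee_prod {p : ℕ} (hp : p.Prime) (hG : Nat.card G = p) {χ : G →* ℂˣ} (hχ : χ ≠ 1) (X : ℂ) :
    ∏ g : G, (1 - (χ g : ℂ) * X) = 1 - X ^ p := by
  classical
  have : Fact p.Prime := ⟨hp⟩
  have hinj : Function.Injective χ := by
    rw [injective_iff_map_eq_one]
    intro g hg
    by_contra h1
    apply hχ
    ext h
    have h2 := mem_zpowers_of_prime_card (g := g) (g' := h) hG h1
    obtain ⟨k, rfl⟩ := h2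
    simp [hg]
  obtain ⟨g₀, hg₀⟩ : ∃ g₀ : G, χ g₀ ≠ 1 := by
    by_contra h
    push Not at h
    exact hχ (MonoidHom.ext h)
  have hpow : ∀ g : G, (χ g : ℂ) ^ p = 1 := by
    intro g
    have h1 : g ^ p = 1 := by rw [← hG]; exact pow_card_eq_one'
    have h2 : χ g ^ p = 1 := by rw [← map_pow, h1, map_one]
    have := congrArg (Units.val) h2
    simpa using this
  have hζ : IsPrimitiveRoot (χ g₀ : ℂ) p := by
    refine IsPrimitiveRoot.mk_of_lt _ hp.pos (hpow g₀) fun l hl hlp h => ?_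
    have h1 : orderOf (χ g₀ : ℂ) = p := orderOf_eq_prime (hpow g₀) (by
      intro h
      exact hg₀ (Units.ext h))
    have h2 := orderOf_dvd_of_pow_eq_one h
    rw [h1] at h2
    exact absurd (Nat.le_of_dvd hl h2) (by omega)
  have h1 := IsPrimitiveRoot.pow_sub_pow_eq_prod_sub_mul (1 : ℂ) X hp.pos hζ
  rw [one_pow] at h1
  rw [h1]
  have himg : Polynomial.nthRootsFinset p (1 : ℂ) =
      (Finset.univ : Finset G).image (fun g => (χ g : ℂ)) := by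
    symm
    refine Finset.eq_of_subset_of_card_le ?_ ?_
    · intro z hz
      rw [Finset.mem_image] at hz
      obtain ⟨g, -, rfl⟩ := hz
      rw [Polynomial.mem_nthRootsFinset hp.pos]
      exact hpow g
    · rw [hζ.card_nthRootsFinset, Finset.card_image_of_injective, Finset.card_univ,
        ← Nat.card_eq_fintype_card, hG]
      exact fun a b hab => hinj (Units.ext hab)
  rw [himg, Finset.prod_image]
  exact fun a _ b _ hab => hinj (Units.ext hab)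

/-- conjugation of Frobenius automorphisms -/
theorem ee_conj {ι : G ≃* (H ≃ₐ[F] H)} {v₀ : HeightOneSpectrum (𝓞 F₀)}
    (hN : (eeR F₀ F H).Normal)
    (hv : ∀ W : HeightOneSpectrum (𝓞 H), W.under (𝓞 F₀) = v₀ →
      Algebra.IsUnramifiedAt (𝓞 F) W.asIdeal)
    {fr : HeightOneSpectrum (𝓞 F) → G} (hfr : ∀ v ∈ ovr F {v₀}, IsFr v (ι (fr v)))
    (W : ovr H {v₀}) (γ : H ≃ₐ[F₀] H)
    (hn : nv ((γ • W).1.under (𝓞 F)) = nv (W.1.under (𝓞 F))) :
    γ * AlgEquiv.restrictScalarsHom F₀ (ι (fr (W.1.under (𝓞 F)))) * γ⁻¹ =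
      AlgEquiv.restrictScalarsHom F₀ (ι (fr ((γ • W).1.under (𝓞 F)))) := by
  have : IsGalois F H := IsGalois.tower_top_of_isGalois F₀ F H
  obtain ⟨σ, hσ⟩ := hN.conj_mem (AlgEquiv.restrictScalarsHom F₀ (ι (fr (W.1.under (𝓞 F)))))
    ⟨_, rfl⟩ γ
  have h0 := (ee_pi F W).2
  have h0' := (ee_pi F (γ • W)).2
  have h1 : ∀ x : 𝓞 H, σ • x - x ^ nv ((γ • W).1.under (𝓞 F)) ∈ (γ • W).1.asIdeal := by
    intro x
    have e1 : σ • x = γ • ((ι (fr (W.1.under (𝓞 F)))) • (γ⁻¹ • x)) := by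
      have h2 : (AlgEquiv.restrictScalarsHom F₀ σ) • x =
          (γ * AlgEquiv.restrictScalarsHom F₀ (ι (fr (W.1.under (𝓞 F)))) * γ⁻¹) • x := by
        rw [hσ]
      rw [mul_smul, mul_smul] at h2
      exact h2
    have e2 : x = γ • (γ⁻¹ • x) := (smul_inv_smul γ x).symm
    have h2 := hfr _ h0 W.1 rfl (γ⁻¹ • x)
    rw [hn, e1]
    nth_rewrite 2 [e2]
    rw [← smul_pow', ← smul_sub]
    have h3 : (γ • W).1.asIdeal = γ • W.1.asIdeal := ee_asIdeal γ W.1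
    rw [h3]
    exact Ideal.smul_mem_pointwise_smul γ _ _ h2
  have h2 : σ = ι (fr ((γ • W).1.under (𝓞 F))) :=
    ee_uniq (hv _ (ee_v0 _)) h1 (hfr _ h0' (γ • W).1 rfl)
  rw [← hσ, h2]

/-- the second case -/
theorem ee_second {p : ℕ} {ι : G ≃* (H ≃ₐ[F] H)} (hA : Afn F₀ F L H ι p)
    {v₀ : HeightOneSpectrum (𝓞 F₀)}
    (hv : ∀ W : HeightOneSpectrum (𝓞 H), W.under (𝓞 F₀) = v₀ →
      Algebra.IsUnramifiedAt (𝓞 F) W.asIdeal)
    {fr : HeightOneSpectrum (𝓞 F) → G} (hfr : ∀ v ∈ ovr F {v₀}, IsFr v (ι (fr v)))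
    {χ : G →* ℂˣ} (hχ : χ ≠ 1) (t : ℂ)
    (hD : ∀ W : ovr H {v₀}, eeR F₀ F H ≤ MulAction.stabilizer (H ≃ₐ[F₀] H) W) :
    ∏ w ∈ ovr L {v₀}, (1 - (nv w : ℂ) ^ t) =
      (1 - (nv v₀ : ℂ) ^ t) * ∏ v ∈ ovr F {v₀}, (1 - (χ (fr v) : ℂ) * (nv v : ℂ) ^ t) := by
  classical
  have hS := ee_EeS hA
  have hp := hA.prime
  have hGF : IsGalois F H := IsGalois.tower_top_of_isGalois F₀ F H
  have hN : (eeR F₀ F H).Normal := hS.nrm
  -- the inertia group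
  have hI : ∀ W : ovr H {v₀}, W.1.asIdeal.inertia (H ≃ₐ[F₀] H) ⊓ eeR F₀ F H = ⊥ := by
    intro W
    have h1 := ee_inertia (k := F) (hv _ (ee_v0 W)) (hfr _ (ee_pi F W).2 W.1 rfl)
    rw [Subgroup.eq_bot_iff_forall]
    rintro γ ⟨hγ, ⟨σ, rfl⟩⟩
    have h2 : σ ∈ W.1.asIdeal.inertia (H ≃ₐ[F] H) := hγ
    rw [h1, Subgroup.mem_bot] at h2
    rw [h2, map_one]
  have hnF : ∀ W : ovr H {v₀}, nv W.1 = nv (W.1.under (𝓞 F)) ^ p := by
    intro W
    obtain ⟨f, h1, h2, h3⟩ := ee_f' (F₀ := F₀) (K := F) W.1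
    rw [← ee_stabO, inf_eq_right.2 (hD W), hI, hS.hN, Subgroup.card_bot, one_mul] at h3
    rw [h3, h2]
  have hne : ∀ W : ovr H {v₀}, AlgEquiv.restrictScalarsHom F₀ (ι (fr (W.1.under (𝓞 F)))) ≠ 1 := by
    intro W h
    have h1 : ι (fr (W.1.under (𝓞 F))) = 1 := ee_inj (F₀ := F₀) (by rw [h, map_one])
    exact ee_frob_ne hp.two_le (hnF W) (hfr _ (ee_pi F W).2 W.1 rfl) h1
  have hcomm : ∀ (W : ovr H {v₀}) (γ : H ≃ₐ[F₀] H),
      γ * AlgEquiv.restrictScalarsHom F₀ (ι (fr (W.1.under (𝓞 F)))) =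
      AlgEquiv.restrictScalarsHom F₀ (ι (fr (W.1.under (𝓞 F)))) * γ → γ ∈ eeR F₀ F H := by
    intro W γ h
    by_contra h1
    exact hne W (ee_K1 hp hS.hN hS.hcent h1 ⟨_, rfl⟩ h)
  -- the decomposition group
  have hst : ∀ W : ovr H {v₀}, MulAction.stabilizer (H ≃ₐ[F₀] H) W = eeR F₀ F H := by
    intro W
    refine le_antisymm (fun γ hγ => ?_) (hD W)
    rw [MulAction.mem_stabilizer_iff] at hγ
    have h1 := ee_conj hN hv hfr W γ (by rw [hγ])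
    rw [hγ] at h1
    refine hcomm W γ ?_
    nth_rewrite 2 [← h1]
    group
  have := ee_nonempty (H := H) (v₀ := v₀)
  obtain ⟨hB, hcA⟩ := ee_case2 (Ω := ovr H {v₀}) hS ee_tr
    (πA := ee_pi F) (πB := ee_pi L) ee_pi_surj ee_pi_surj ee_pi_iff ee_pi_iff hst
  obtain ⟨W₀⟩ := this
  have hnv : ∀ v ∈ ovr F {v₀}, nv v = nv v₀ := by
    intro v hv1
    obtain ⟨W, hW⟩ := ee_pi_surj (H := H) ⟨v, hv1⟩
    have h1 : W.1.under (𝓞 F) = v := congrArg Subtype.val hW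
    rw [← h1]
    exact ee_nv_le W (hst W).le
  have hnL : nv (W₀.1.under (𝓞 L)) = nv v₀ ^ p := by
    rw [ee_nv_bot W₀ (by rw [hst, hS.hND]), hnF, hnv (W₀.1.under (𝓞 F)) (ee_pi F W₀).2]
  have e1 : ovr L {v₀} = {W₀.1.under (𝓞 L)} := by
    ext w
    rw [Finset.mem_singleton]
    constructor
    · intro hw
      exact congrArg Subtype.val (hB ⟨w, hw⟩ (ee_pi L W₀))
    · rintro rfl
      exact (ee_pi L W₀).2
  rw [e1, Finset.prod_singleton, hnL]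
  -- the Frobenius automorphisms
  have hinj : Set.InjOn fr (ovr F {v₀} : Finset (HeightOneSpectrum (𝓞 F))) := by
    intro v hv1 v' hv2 he
    obtain ⟨W, hW⟩ := ee_pi_surj (H := H) ⟨v, hv1⟩
    obtain ⟨W', hW'⟩ := ee_pi_surj (H := H) ⟨v', hv2⟩
    have h1 : W.1.under (𝓞 F) = v := congrArg Subtype.val hW
    have h1' : W'.1.under (𝓞 F) = v' := congrArg Subtype.val hW'
    obtain ⟨γ, rfl⟩ := ee_tr W W'
    have h2 := ee_conj hN hv hfr W γ (by rw [h1, h1', hnv _ hv1, hnv _ hv2])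
    rw [h1', ← he, ← h1] at h2
    have h3 : γ ∈ eeR F₀ F H := by
      refine hcomm W γ ?_
      nth_rewrite 2 [← h2]
      group
    have h4 := (ee_pi_iff (K := F) W (γ • W)).2 ⟨γ, h3, rfl⟩
    rw [hW, hW'] at h4
    exact congrArg Subtype.val h4
  have himg : (ovr F {v₀}).image fr = Finset.univ.erase (1 : G) := by
    refine Finset.eq_of_subset_of_card_le ?_ ?_
    · intro g hg
      rw [Finset.mem_image] at hg
      obtain ⟨v, hv1, rfl⟩ := hg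
      rw [Finset.mem_erase]
      refine ⟨?_, Finset.mem_univ _⟩
      obtain ⟨W, hW⟩ := ee_pi_surj (H := H) ⟨v, hv1⟩
      have h1 : W.1.under (𝓞 F) = v := congrArg Subtype.val hW
      intro h2
      apply hne W
      rw [h1, h2, map_one, map_one]
    · rw [Finset.card_image_of_injOn hinj, Finset.card_erase_of_mem (Finset.mem_univ _),
        Finset.card_univ, ← Nat.card_eq_fintype_card, hA.cardG]
      rw [Nat.card_eq_fintype_card, Fintype.card_coe] at hcA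
      rw [hcA]
  have e2 : ∏ v ∈ ovr F {v₀}, (1 - (χ (fr v) : ℂ) * (nv v : ℂ) ^ t) =
      ∏ g ∈ Finset.univ.erase (1 : G), (1 - (χ g : ℂ) * (nv v₀ : ℂ) ^ t) := by
    rw [← himg, Finset.prod_image hinj]
    refine Finset.prod_congr rfl fun v hv1 => ?_
    rw [hnv v hv1]
  rw [e2]
  have e3 : (1 - (nv v₀ : ℂ) ^ t) = (1 - (χ 1 : ℂ) * (nv v₀ : ℂ) ^ t) := by
    rw [map_one, Units.val_one, one_mul]
  rw [e3, Finset.mul_prod_erase _ (fun g : G => (1 - (χ g : ℂ) * (nv v₀ : ℂ) ^ t))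
    (Finset.mem_univ 1), ee_prod hp hA.cardG hχ]
  congr 1
  have e4 : ∀ n : ℕ, ((nv v₀ ^ n : ℕ) : ℂ) ^ t = ((nv v₀ : ℂ) ^ t) ^ n := by
    intro n
    induction n with
    | zero => simp
    | succ n ih =>
      rw [pow_succ (nv v₀), Nat.cast_mul, natCast_mul_natCast_cpow, ih, pow_succ]
  exact e4 p

/-- decomposition groups: either all places of `F` above `v₀` split completely in `H` or `v₀`
splits completely in `F` and all places of `F` above it are inert in `H` -/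
theorem local_L {p : ℕ} {ι : G ≃* (H ≃ₐ[F] H)} (hA : Afn F₀ F L H ι p)
    {v₀ : HeightOneSpectrum (𝓞 F₀)}
    (hv : ∀ W : HeightOneSpectrum (𝓞 H), W.under (𝓞 F₀) = v₀ →
      Algebra.IsUnramifiedAt (𝓞 F) W.asIdeal)
    {fr : HeightOneSpectrum (𝓞 F) → G} (hfr : ∀ v ∈ ovr F {v₀}, IsFr v (ι (fr v)))
    {χ : G →* ℂˣ} (hχ : χ ≠ 1) (t : ℂ) :
    ∏ w ∈ ovr L {v₀}, (1 - (nv w : ℂ) ^ t) =
      (1 - (nv v₀ : ℂ) ^ t) * ∏ v ∈ ovr F {v₀}, (1 - (χ (fr v) : ℂ) * (nv v : ℂ) ^ t) := by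
  have hS := ee_EeS hA
  have hN : (eeR F₀ F H).Normal := hS.nrm
  obtain ⟨W₀⟩ := ee_nonempty (H := H) (v₀ := v₀)
  by_cases h0 : MulAction.stabilizer (H ≃ₐ[F₀] H) W₀ ⊓ eeR F₀ F H = ⊥
  · refine ee_first hA hfr t fun W => ?_
    obtain ⟨γ, rfl⟩ := ee_tr W₀ W
    rw [Subgroup.eq_bot_iff_forall]
    rintro y ⟨hy, hyN⟩
    have h1 : γ⁻¹ * y * γ ∈ MulAction.stabilizer (H ≃ₐ[F₀] H) W₀ ⊓ eeR F₀ F H := by
      refine ⟨?_, ?_⟩
      · show _ ∈ MulAction.stabilizer (H ≃ₐ[F₀] H) W₀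
        have h2 : y • γ • W₀ = γ • W₀ := hy
        rw [MulAction.mem_stabilizer_iff, mul_smul, mul_smul, h2, inv_smul_smul]
      · have := hN.conj_mem y hyN γ⁻¹
        rwa [inv_inv] at this
    rw [h0, Subgroup.mem_bot] at h1
    calc y = γ * (γ⁻¹ * y * γ) * γ⁻¹ := by group
      _ = 1 := by rw [h1]; group
  · refine ee_second hA hv hfr hχ t fun W => ?_
    obtain ⟨⟨x, hx⟩, hx2⟩ := Subgroup.ne_bot_iff_exists_ne_one.1 h0
    have hx1 : x ≠ 1 := fun h => hx2 (Subtype.ext h)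
    have h1 : eeR F₀ F H ≤ MulAction.stabilizer (H ≃ₐ[F₀] H) W₀ := by
      intro m hm
      obtain ⟨k, rfl⟩ := ee_gen hS.hp hS.hN hx.2 hx1 hm
      exact Subgroup.zpow_mem _ hx.1 k
    obtain ⟨γ, rfl⟩ := ee_tr W₀ W
    intro m hm
    have h2 := h1 (show γ⁻¹ * m * γ ∈ eeR F₀ F H by
      have := hN.conj_mem m hm γ⁻¹
      rwa [inv_inv] at this)
    rw [MulAction.mem_stabilizer_iff, mul_smul, mul_smul] at h2
    rw [MulAction.mem_stabilizer_iff]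
    exact inv_smul_eq_iff.1 h2

end EEZ

end Pool.Agent.RSK
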