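import Pool.Agent.Lib_helper17.RS.Bas
import Pool.Agent.Lib_helper17.RS.P_TW
import Pool.Agent.Lib_helper17.RS.P_EA
import Pool.Agent.Lib_helper17.RS.P_EC
import Pool.Agent.Lib_helper17.RS.P_EE
/-! RS block EH: the L-function of a nontrivial character (uses also `dn_dn` of block TW). -/

namespace Pool.Agent.RSK

open NumberField NumberField.InfinitePlace NumberField.Units IsDedekindDomain Filter Topology
  Complex

section EHF

variable {F H : Type} [Field F] [NumberField F] [Field H] [NumberField H] [Algebra F H]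

/-- the places outside `S`, grouped by the place below -/
def eh_map (S : Finset (HeightOneSpectrum (𝓞 F))) :
    (Σ v : {v : HeightOneSpectrum (𝓞 F) // v ∉ S},
      {w : HeightOneSpectrum (𝓞 H) // w ∈ ovr H {v.1}}) →
      {w : HeightOneSpectrum (𝓞 H) // w ∉ ovr H S} := fun x =>
  ⟨x.2.1, by
    have h1 := x.2.2
    rw [mem_ovr, Finset.mem_singleton] at h1
    rw [mem_ovr, h1]
    exact x.1.2⟩

theorem eh_bij (S : Finset (HeightOneSpectrum (𝓞 F))) :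
    Function.Bijective (eh_map (H := H) S) := by
  constructor
  · rintro ⟨⟨v, hv⟩, ⟨w, hw⟩⟩ ⟨⟨v', hv'⟩, ⟨w', hw'⟩⟩ h
    have h1 : w = w' := congrArg Subtype.val h
    subst h1
    have h2 : v = v' := by
      rw [mem_ovr, Finset.mem_singleton] at hw hw'
      exact hw.symm.trans hw'
    subst h2
    rfl
  · rintro ⟨w, hw⟩
    rw [mem_ovr] at hw
    refine ⟨⟨⟨w.under (𝓞 F), hw⟩, ⟨w, ?_⟩⟩, rfl⟩
    rw [mem_ovr]
    exact Finset.mem_singleton_self _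

theorem eh_fiber (S : Finset (HeightOneSpectrum (𝓞 F))) (f : HeightOneSpectrum (𝓞 H) → ℂ)
    (hf : Multipliable fun w : {w : HeightOneSpectrum (𝓞 H) // w ∉ ovr H S} => f w.1) :
    HasProd (fun v : {v : HeightOneSpectrum (𝓞 F) // v ∉ S} => ∏ w ∈ ovr H {v.1}, f w)
      (∏' w : {w : HeightOneSpectrum (𝓞 H) // w ∉ ovr H S}, f w.1) := by
  have h1 := (Equiv.ofBijective _ (eh_bij (H := H) S)).hasProd_iff.2 hf.hasProd
  refine HasProd.sigma h1 fun v => ?_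
  exact Finset.hasProd (ovr H {v.1}) f

end EHF

section EL

variable {F₀ F L H : Type} [Field F₀] [NumberField F₀] [Field F] [NumberField F] [Field L]
  [NumberField L] [Field H] [NumberField H] [Algebra F₀ F] [Algebra F₀ L] [Algebra F₀ H]
  [Algebra F H] [Algebra L H] [IsScalarTower F₀ F H] [IsScalarTower F₀ L H] [IsGalois F₀ H]
  [IsGalois F₀ F] {G : Type} [CommGroup G] [Fintype G]

theorem eh_norm (χ : G →* ℂˣ) (g : G) : ‖((χ g : ℂˣ) : ℂ)‖ = 1 := by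
  refine Complex.norm_eq_one_of_pow_eq_one (n := Fintype.card G) ?_ Fintype.card_ne_zero
  rw [← Units.val_pow_eq_pow_val, ← map_pow, pow_card_eq_one, map_one, Units.val_one]

theorem lst_L {p : ℕ} {ι : G ≃* (H ≃ₐ[F] H)} (hA : Afn F₀ F L H ι p)
    {S₀ T₀ : Finset (HeightOneSpectrum (𝓞 F₀))} (hST : Disjoint S₀ T₀)
    (hunr : ∀ W : HeightOneSpectrum (𝓞 H), W.under (𝓞 F) ∉ ovr F S₀ →
      Algebra.IsUnramifiedAt (𝓞 F) W.asIdeal)
    {fr : HeightOneSpectrum (𝓞 F) → G} (hfr : ∀ v, v ∉ ovr F S₀ → IsFr v (ι (fr v)))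
    {χ : G →* ℂˣ} (hχ : χ ≠ 1) {s : ℂ} (hs : 1 < s.re) :
    LST (ovr F S₀) (ovr F T₀) fr χ s * zST S₀ T₀ s = zST (ovr L S₀) (ovr L T₀) s := by
  classical
  have hdn : ∀ W : HeightOneSpectrum (𝓞 H), (W.under (𝓞 F)).under (𝓞 F₀) = W.under (𝓞 F₀) := by
    intro W
    have h1 := dn_dn (F₀ := F₀) (F := F) (Sum.inr W : Pl H)
    have h2 : (Sum.inr ((W.under (𝓞 F)).under (𝓞 F₀)) : Pl F₀) = Sum.inr (W.under (𝓞 F₀)) := h1
    exact Sum.inr_injective h2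
  have hloc : ∀ v₀ : HeightOneSpectrum (𝓞 F₀), v₀ ∉ S₀ → ∀ t : ℂ,
      ∏ w ∈ ovr L {v₀}, (1 - (nv w : ℂ) ^ t) =
        (1 - (nv v₀ : ℂ) ^ t) * ∏ v ∈ ovr F {v₀}, (1 - (χ (fr v) : ℂ) * (nv v : ℂ) ^ t) := by
    intro v₀ hv₀ t
    refine local_L hA (fun W hW => hunr W ?_) (fun v hv => hfr v ?_) hχ t
    · rw [mem_ovr, hdn, hW]
      exact hv₀
    · rw [mem_ovr, Finset.mem_singleton] at hv
      rw [mem_ovr, hv]
      exact hv₀
  unfold LST zST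
  have e1 : (∏ v ∈ ovr F T₀, (1 - (χ (fr v) : ℂ) * (nv v : ℂ) ^ (1 - s))) *
      ∏ v ∈ T₀, (1 - (nv v : ℂ) ^ (1 - s)) = ∏ v ∈ ovr L T₀, (1 - (nv v : ℂ) ^ (1 - s)) := by
    rw [prod_fiber T₀ (fun v => 1 - (χ (fr v) : ℂ) * (nv v : ℂ) ^ (1 - s)), prod_fiber T₀
      (fun v : HeightOneSpectrum (𝓞 L) => 1 - (nv v : ℂ) ^ (1 - s)), ← Finset.prod_mul_distrib]
    refine Finset.prod_congr rfl fun v₀ hv₀ => ?_
    rw [hloc v₀ (Finset.disjoint_right.1 hST hv₀) (1 - s), mul_comm]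
  have hm1 := (mult_euler (k := F) hs (fun v => v ∉ ovr F S₀) (fun v => (χ (fr v) : ℂ))
    (fun v => (eh_norm χ _).le)).1
  have hm2 := (mult_euler (k := F₀) hs (fun v => v ∉ S₀) (fun _ => 1)
    (fun _ => by rw [norm_one])).1
  simp only [one_mul] at hm2
  have hp1 := eh_fiber S₀ (fun v : HeightOneSpectrum (𝓞 F) =>
    (1 - (χ (fr v) : ℂ) * (nv v : ℂ) ^ (-s))⁻¹) hm1
  have e2 : (∏' v : {v : HeightOneSpectrum (𝓞 F) // v ∉ ovr F S₀},
        (1 - (χ (fr v.1) : ℂ) * (nv v.1 : ℂ) ^ (-s))⁻¹) *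
      ∏' v : {v : HeightOneSpectrum (𝓞 F₀) // v ∉ S₀}, (1 - (nv v.1 : ℂ) ^ (-s))⁻¹ =
      ∏' w : {w : HeightOneSpectrum (𝓞 L) // w ∉ ovr L S₀}, (1 - (nv w.1 : ℂ) ^ (-s))⁻¹ := by
    rw [(tprod_fiber S₀ hs).2, ← (hp1.mul hm2.hasProd).tprod_eq]
    refine tprod_congr fun v => ?_
    rw [Finset.prod_inv_distrib, Finset.prod_inv_distrib, hloc v.1 v.2 (-s), mul_inv, mul_comm]
  rw [← e1, ← e2]
  ring

end EL


end Pool.Agent.RSK
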