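import Pool.Agent.Lib_helper17.RS.Bas
import Pool.Agent.Lib_helper17.RS.BasZ
import Pool.Agent.Lib_helper17.RS.P_TW
import Pool.Agent.Lib_helper17.RS.P_PH
import Pool.Agent.Lib_helper17.RS.P_EB
import Pool.Agent.Lib_helper17.RS.P_EF
import Pool.Agent.Lib_helper17.RS.P_EH
import Pool.Agent.Lib_helper17.RS.P_EG
import Pool.Agent.Lib_helper17.RS.P_PX1
import Pool.Agent.Lib_helper17.RS.P_CN
import Pool.Agent.Lib_helper17.RS.P_UR
/-!
# Rubin-Stark: block LL (the leading terms for affine extensions)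
-/

namespace Pool.Agent.RSK

set_option linter.unusedSectionVars false

open NumberField NumberField.InfinitePlace NumberField.Units IsDedekindDomain Filter Topology
  Complex

theorem ll_lt {f : ℂ → ℂ} {a b : ℕ} {A B : ℂ} (hA : A ≠ 0)
    (h1 : Tendsto (fun s : ℂ => f s / s ^ a) (𝓝[≠] 0) (𝓝 A))
    (h2 : Tendsto (fun s : ℂ => f s / s ^ b) (𝓝[≠] 0) (𝓝 B)) : ¬ a < b := by
  intro hab
  obtain ⟨d, rfl⟩ : ∃ d, b = a + (d + 1) := ⟨b - a - 1, by omega⟩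
  have h3 : Tendsto (fun s : ℂ => s ^ (d + 1)) (𝓝[≠] 0) (𝓝 0) := by
    have h : Tendsto (fun s : ℂ => s ^ (d + 1)) (𝓝 0) (𝓝 (0 ^ (d + 1))) :=
      (continuous_pow (d + 1)).tendsto 0
    rw [zero_pow (Nat.succ_ne_zero d)] at h
    exact h.mono_left nhdsWithin_le_nhds
  have h4 := h2.mul h3
  rw [mul_zero] at h4
  have h5 : (fun s : ℂ => f s / s ^ (a + (d + 1)) * s ^ (d + 1)) =ᶠ[𝓝[≠] 0]
      fun s : ℂ => f s / s ^ a := by
    filter_upwards [self_mem_nhdsWithin] with s hs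
    have hs' : s ≠ 0 := hs
    have h6 : s ^ (d + 1) ≠ 0 := pow_ne_zero _ hs'
    rw [pow_add, ← div_div, div_mul_cancel₀ _ h6]
  exact hA (tendsto_nhds_unique h1 (h4.congr' h5))

theorem ll_eq {f : ℂ → ℂ} {a b : ℕ} {A B : ℂ} (hA : A ≠ 0) (hB : B ≠ 0)
    (h1 : Tendsto (fun s : ℂ => f s / s ^ a) (𝓝[≠] 0) (𝓝 A))
    (h2 : Tendsto (fun s : ℂ => f s / s ^ b) (𝓝[≠] 0) (𝓝 B)) : a = b := by
  have h3 := ll_lt hA h1 h2
  have h4 := ll_lt hB h2 h1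
  omega

/-- leading terms of products -/
theorem ll_mul {f g : ℂ → ℂ} {a b : ℕ} {A B : ℂ}
    (h1 : Tendsto (fun s : ℂ => f s / s ^ a) (𝓝[≠] 0) (𝓝 A))
    (h2 : Tendsto (fun s : ℂ => g s / s ^ b) (𝓝[≠] 0) (𝓝 B)) :
    Tendsto (fun s : ℂ => (f s * g s) / s ^ (a + b)) (𝓝[≠] 0) (𝓝 (A * B)) := by
  refine (h1.mul h2).congr fun s => ?_
  rw [pow_add, div_mul_div_comm]

theorem ll_pow {f : ℂ → ℂ} {a : ℕ} {A : ℂ}
    (h1 : Tendsto (fun s : ℂ => f s / s ^ a) (𝓝[≠] 0) (𝓝 A)) (n : ℕ) :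
    Tendsto (fun s : ℂ => (f s) ^ n / s ^ (a * n)) (𝓝[≠] 0) (𝓝 (A ^ n)) := by
  refine (h1.pow n).congr fun s => ?_
  rw [div_pow, pow_mul]

section LLdisj

variable {F H : Type} [Field F] [NumberField F] [Field H] [NumberField H] [Algebra F H]

theorem ll_disj {S T : Finset (HeightOneSpectrum (𝓞 F))} (h : Disjoint S T) :
    Disjoint (ovr H S) (ovr H T) := by
  rw [Finset.disjoint_left] at h ⊢
  intro w hw hw'
  rw [mem_ovr] at hw hw'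
  exact h hw hw'

end LLdisj

section DEGP

variable {F H : Type} [Field F] [NumberField F] [Field H] [NumberField H] [Algebra F H]
  [IsGalois F H] {G : Type} [CommGroup G] [Fintype G] {p : ℕ} {ι : G ≃* (H ≃ₐ[F] H)}
  {S T : Finset (HeightOneSpectrum (𝓞 F))} {r : ℕ} {w : Fin r → Pl H}
  {fr : HeightOneSpectrum (𝓞 F) → G}

theorem ll_rank (hp : p.Prime) (hG : Nat.card G = p) (hD : Data ι S T r w fr) {nF nH : ℕ}
    (hnF : nF + 1 = Fintype.card (PS S)) (hnH : nH + 1 = Fintype.card (PS (ovr H S))) :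
    nH = nF + r * (p - 1) := by
  obtain ⟨m, eH, eF, -⟩ := places_HF hp hG hD
  have h1 := Fintype.card_congr eH
  have h2 := Fintype.card_congr eF
  have hG' : Fintype.card G = p := by rw [← Nat.card_eq_fintype_card, hG]
  rw [Fintype.card_sum, Fintype.card_prod, Fintype.card_fin, Fintype.card_fin, hG'] at h1
  rw [Fintype.card_sum, Fintype.card_fin, Fintype.card_fin] at h2
  have h3 : r * p = r + r * (p - 1) := by
    obtain ⟨q, hq⟩ : ∃ q, p = q + 1 := ⟨p - 1, by have := hp.pos; omega⟩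
    subst hq
    rw [Nat.add_sub_cancel]
    ring
  omega

end DEGP

section AFF

variable {F₀ F L H : Type} [Field F₀] [NumberField F₀] [Field F] [NumberField F] [Field L]
  [NumberField L] [Field H] [NumberField H] [Algebra F₀ F] [Algebra F₀ L] [Algebra F₀ H]
  [Algebra F H] [Algebra L H] [IsScalarTower F₀ F H] [IsScalarTower F₀ L H] [IsGalois F₀ H]
  [IsGalois F₀ F] [IsGalois F H] [IsGalois L H] {G : Type} [CommGroup G] [Fintype G] {p : ℕ}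
  {ι : G ≃* (H ≃ₐ[F] H)} {S₀ T₀ : Finset (HeightOneSpectrum (𝓞 F₀))} {r : ℕ}
  {w : Fin r → Pl H} {fr : HeightOneSpectrum (𝓞 F) → G}

theorem lead_L (hA : Afn F₀ F L H ι p) (hST : Disjoint S₀ T₀)
    (hD : Data ι (ovr F S₀) (ovr F T₀) r w fr) {n₀ nL : ℕ}
    (b₀ : Module.Basis (Fin n₀) ℤ (Additive (Un S₀ T₀)))
    (bL : Module.Basis (Fin nL) ℤ (Additive (Un (ovr L S₀) (ovr L T₀)))) :
    nL = n₀ + r ∧ ∃ c₀ : ℝ, c₀ ≠ 0 ∧
      |c₀| * (Pool.Agent.RSK.hA S₀ T₀ * regS S₀ (bu b₀)) =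
        Pool.Agent.RSK.hA (ovr L S₀) (ovr L T₀) * regS (ovr L S₀) (bu bL) ∧
      LeadX (ovr F S₀) (ovr F T₀) r fr (fun _ => (c₀ : ℂ)) := by
  have hp : p.Prime := hA.prime
  have hG : Nat.card G = p := hA.cardG
  obtain ⟨htH, hdH⟩ := tf_H hD
  have htF : TFree (ovr F S₀) (ovr F T₀) := tf_F (H := H) htH
  have htH' := htH
  rw [ovr_ovr, ovr_ovr] at htH'
  have ht₀ : TFree S₀ T₀ := tf_F (H := H) htH'
  have htL : TFree (ovr L S₀) (ovr L T₀) := by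
    refine tf_F (H := H) ?_
    rw [ovr_ovr, ovr_ovr]
    exact htH'
  obtain ⟨nF, ⟨bF⟩⟩ := un_exists (ll_disj (H := F) hST) htF
  obtain ⟨nH, ⟨bH⟩⟩ := un_exists hdH htH
  obtain ⟨hn₀, hr₀, hh₀, Z₀, hZ₀, hZ₀1, hZ₀2⟩ := cnf hST ht₀ b₀
  obtain ⟨hnL, hrL, hhL, ZL, hZL, hZL1, hZL2⟩ := cnf (ll_disj (H := L) hST) htL bL
  obtain ⟨hnF, hrF, hhF, ZF, hZF, hZF1, hZF2⟩ := cnf (ll_disj (H := F) hST) htF bF
  obtain ⟨hnH, hrH, hhH, ZH, hZH, hZH1, hZH2⟩ := cnf hdH htH bH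
  have hn := ll_rank hp hG hD hnF hnH
  -- the quotient
  have hlst : ∀ χ : G →* ℂˣ, χ ≠ 1 → ∀ s : ℂ, 1 < s.re →
      LST (ovr F S₀) (ovr F T₀) fr χ s = ZL s / Z₀ s := by
    intro χ hχ s hs
    have h1 := lst_L hA hST hD.unram hD.frob hχ hs
    have h2 : Z₀ s ≠ 0 := by
      rw [hZ₀1 s hs]
      exact zST_ne_zero S₀ T₀ hs
    rw [eq_div_iff h2, hZ₀1 s hs, hZL1 s hs, h1]
  -- nonzero leading terms
  have ne : ∀ {k : Type} [Field k] [NumberField k] (S T : Finset (HeightOneSpectrum (𝓞 k))) (x : ℝ)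
      (n : ℕ), 0 < Pool.Agent.RSK.hA S T → 0 < x →
      ((-1 : ℂ) ^ n * ((Pool.Agent.RSK.hA S T * x : ℝ) : ℂ)) ≠ 0 := by
    intro k _ _ S T x n h1 h2
    refine mul_ne_zero (pow_ne_zero _ (by norm_num)) (Complex.ofReal_ne_zero.2 (by positivity))
  have ne₀ := ne S₀ T₀ _ (T₀.card + 1) hh₀ hr₀
  have neL := ne (ovr L S₀) (ovr L T₀) _ ((ovr L T₀).card + 1) hhL hrL
  have neF := ne (ovr F S₀) (ovr F T₀) _ ((ovr F T₀).card + 1) hhF hrF
  have neH := ne (ovr H (ovr F S₀)) (ovr H (ovr F T₀)) _ ((ovr H (ovr F T₀)).card + 1) hhH hrH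
  -- the order
  have hprod : ∀ s : ℂ, 1 < s.re → ZH s * (Z₀ s) ^ (p - 1) = ZF s * (ZL s) ^ (p - 1) := by
    intro s hs
    have h2 : Z₀ s ≠ 0 := by
      rw [hZ₀1 s hs]
      exact zST_ne_zero S₀ T₀ hs
    rw [hZH1 s hs, hZF1 s hs, ← lst_prod hp hG hD.disj hD.unram hD.frob hs, finprod_pX, lst_one]
    have h3 : pX (fun χ : G →* ℂˣ => LST (ovr F S₀) (ovr F T₀) fr χ s) =
        (ZL s / Z₀ s) ^ (p - 1) := by
      rw [← pX_const hG]
      exact pX_congr fun χ hχ => hlst χ hχ s hs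
    rw [h3, div_pow, mul_assoc, div_mul_cancel₀ _ (pow_ne_zero _ h2)]
  have hev : ∀ᶠ s in 𝓝[≠] (0 : ℂ), ZH s * (Z₀ s) ^ (p - 1) = ZF s * (ZL s) ^ (p - 1) :=
    mero_ext (hZH.mul (hZ₀.pow (p - 1))) (hZF.mul (hZL.pow (p - 1))) hprod 0
  have hr : nL = n₀ + r := by
    have h1 := ll_mul hZH2 (ll_pow hZ₀2 (p - 1))
    have h2 := ll_mul hZF2 (ll_pow hZL2 (p - 1))
    have h3 : (fun s : ℂ => (ZH s * (Z₀ s) ^ (p - 1)) / s ^ (nH + n₀ * (p - 1))) =ᶠ[𝓝[≠] 0]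
        fun s : ℂ => (ZF s * (ZL s) ^ (p - 1)) / s ^ (nH + n₀ * (p - 1)) := by
      filter_upwards [hev] with s hs
      rw [hs]
    have h4 := ll_eq (mul_ne_zero neH (pow_ne_zero _ ne₀)) (mul_ne_zero neF (pow_ne_zero _ neL))
      (h1.congr' h3) h2
    rw [hn] at h4
    have h5 : (n₀ + r) * (p - 1) = nL * (p - 1) := by
      rw [add_mul]
      omega
    have h6 : 0 < p - 1 := by have := hp.one_lt; omega
    exact (Nat.eq_of_mul_eq_mul_right h6 h5).symm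
  refine ⟨hr, ?_⟩
  -- the constant
  set a₀ : ℝ := (-1) ^ (T₀.card + 1) * (Pool.Agent.RSK.hA S₀ T₀ * regS S₀ (bu b₀)) with ha₀
  set aL : ℝ := (-1) ^ ((ovr L T₀).card + 1) *
    (Pool.Agent.RSK.hA (ovr L S₀) (ovr L T₀) * regS (ovr L S₀) (bu bL)) with haL
  have ha₀' : (a₀ : ℂ) = (-1 : ℂ) ^ (T₀.card + 1) *
      ((Pool.Agent.RSK.hA S₀ T₀ * regS S₀ (bu b₀) : ℝ) : ℂ) := by
    rw [ha₀]
    push_cast
    ring
  have haL' : (aL : ℂ) = (-1 : ℂ) ^ ((ovr L T₀).card + 1) *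
      ((Pool.Agent.RSK.hA (ovr L S₀) (ovr L T₀) * regS (ovr L S₀) (bu bL) : ℝ) : ℂ) := by
    rw [haL]
    push_cast
    ring
  have ha₀0 : a₀ ≠ 0 := by
    intro h0
    rw [← ha₀', h0] at ne₀
    exact ne₀ (by simp)
  have haL0 : aL ≠ 0 := by
    intro h0
    rw [← haL', h0] at neL
    exact neL (by simp)
  refine ⟨aL / a₀, div_ne_zero haL0 ha₀0, ?_, fun χ hχ => ?_⟩
  · have e1 : |a₀| = Pool.Agent.RSK.hA S₀ T₀ * regS S₀ (bu b₀) := by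
      rw [ha₀, abs_mul, abs_pow, abs_neg, abs_one, one_pow, one_mul, abs_of_pos (by positivity)]
    have e2 : |aL| = Pool.Agent.RSK.hA (ovr L S₀) (ovr L T₀) * regS (ovr L S₀) (bu bL) := by
      rw [haL, abs_mul, abs_pow, abs_neg, abs_one, one_pow, one_mul, abs_of_pos (by positivity)]
    rw [← e1, ← e2, abs_div, div_mul_cancel₀ _ (abs_ne_zero.2 ha₀0)]
  · refine ⟨fun s => ZL s / Z₀ s, hZL.div hZ₀, fun s hs => (hlst χ hχ s hs).symm, ?_⟩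
    rw [← haL'] at hZL2
    rw [← ha₀'] at hZ₀2
    have h1 := hZL2.div hZ₀2 (Complex.ofReal_ne_zero.2 ha₀0)
    rw [show (((aL / a₀ : ℝ)) : ℂ) = (aL : ℂ) / (a₀ : ℂ) by push_cast; rfl]
    refine h1.congr' ?_
    filter_upwards [self_mem_nhdsWithin] with s hs
    have hs' : s ≠ 0 := hs
    have h6 : s ^ n₀ ≠ 0 := pow_ne_zero _ hs'
    rw [Pi.div_apply, hr, pow_add, div_div_div_eq, mul_comm (ZL s), mul_comm (s ^ n₀ * s ^ r),
      div_div, mul_comm (Z₀ s) (s ^ n₀ * s ^ r), mul_assoc, mul_div_mul_left _ _ h6, mul_comm (s ^ r)]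

end AFF

end Pool.Agent.RSK
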