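import Pool.Agent.Lib_helper17.RS.Bas
import Pool.Agent.Lib_helper17.RS.P_IA
/-!
# Rubin-Stark: block IB (`idx_two`)
-/

namespace Pool.Agent.RSK

set_option linter.unusedSectionVars false

open Module

section GRing

variable {G : Type} [CommGroup G] [Fintype G]

theorem ib_evZ_single (χ : G →* ℂˣ) (g : G) (c : ℤ) :
    evZ χ (MonoidAlgebra.single g c) = (c : ℂ) * (χ g : ℂ) := by
  show evQ χ (toQ G (MonoidAlgebra.single g c)) = _
  have h : toQ G (MonoidAlgebra.single g c) = MonoidAlgebra.single g (c : ℚ) := by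
    simp [toQ]
  rw [h, evQ, MonoidAlgebra.lift_single]
  simp [Algebra.smul_def]

theorem ib_expand (x : MonoidAlgebra ℤ G) :
    x = ∑ g : G, MonoidAlgebra.single g (x.coeff g) := by
  classical
  ext h
  rw [MonoidAlgebra.coeff_sum]
  simp [MonoidAlgebra.coeff_single]

theorem ib_ev (χ : G →* ℂˣ) (x : MonoidAlgebra ℤ G) :
    evZ χ x = ∑ g : G, (x.coeff g : ℂ) * (χ g : ℂ) := by
  conv_lhs => rw [ib_expand x]
  rw [map_sum]
  exact Finset.sum_congr rfl fun g _ => ib_evZ_single χ g _

theorem ib_aug {x : MonoidAlgebra ℤ G} (hx : nrm G * x = 0) : ∑ g : G, x.coeff g = 0 := by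
  have h := congrArg (evZ (1 : G →* ℂˣ)) hx
  rw [map_mul, map_zero, ib_ev _ x] at h
  have h1 : evZ (1 : G →* ℂˣ) (nrm G) = (Fintype.card G : ℂ) := by
    unfold nrm
    rw [map_sum, Finset.sum_congr rfl fun g _ => ib_evZ_single 1 g 1]
    simp
  rw [h1] at h
  rcases mul_eq_zero.1 h with h2 | h2
  · exact absurd h2 (by exact_mod_cast Fintype.card_ne_zero)
  · simp only [MonoidHom.one_apply, Units.val_one, mul_one] at h2
    exact_mod_cast h2

variable {p : ℕ}

theorem ib_nrm_sub (hp : p.Prime) (hG : Nat.card G = p) {g : G} (hg : g ≠ 1) :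
    nrm G * (MonoidAlgebra.single g (1 : ℤ) - 1) = 0 := by
  rw [ia_nrm hp hG hg, geom_sum_mul, MonoidAlgebra.single_pow, one_pow,
    show g ^ p = 1 by rw [← hG]; exact pow_card_eq_one', MonoidAlgebra.one_def, sub_self]

/-- the elements killed by the norm are the multiples of `g - 1` -/
theorem ib_dvd (hp : p.Prime) (hG : Nat.card G = p) {g : G} (hg : g ≠ 1)
    {x : MonoidAlgebra ℤ G} (hx : nrm G * x = 0) :
    (MonoidAlgebra.single g (1 : ℤ) - 1) ∣ x := by
  have hfact : Fact p.Prime := ⟨hp⟩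
  have h1 : x = ∑ h : G, MonoidAlgebra.single 1 (x.coeff h) *
      (MonoidAlgebra.single h (1 : ℤ) - 1) := by
    have h2 : ∑ h : G, MonoidAlgebra.single (1 : G) (x.coeff h) = 0 :=
      (map_sum (MonoidAlgebra.singleAddHom (1 : G)) (fun h => x.coeff h) Finset.univ).symm.trans
        (by rw [ib_aug hx, map_zero])
    simp only [mul_sub, MonoidAlgebra.single_mul_single, one_mul, mul_one, Finset.sum_sub_distrib,
      h2, sub_zero]
    exact ib_expand x
  rw [h1]
  refine Finset.dvd_sum fun h _ => Dvd.dvd.mul_left ?_ _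
  obtain ⟨n, rfl⟩ : h ∈ Submonoid.powers g := mem_powers_of_prime_card hG hg
  have h3 := sub_dvd_pow_sub_pow (MonoidAlgebra.single g (1 : ℤ)) 1 n
  rwa [MonoidAlgebra.single_pow, one_pow, one_pow] at h3

/-- the coefficients outside `1` -/
noncomputable def ibCoef (G : Type) [CommGroup G] [Fintype G] :
    iaN G (MonoidAlgebra ℤ G) →ₗ[ℤ] ({g : G // g ≠ 1} → ℤ) where
  toFun x g := x.1.coeff g.1
  map_add' x y := rfl
  map_smul' c x := by
    ext g
    show (c • x.1).coeff g.1 = c • x.1.coeff g.1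
    rw [MonoidAlgebra.coeff_smul_apply]

theorem ib_coef_bij (hp : p.Prime) (hG : Nat.card G = p) : Function.Bijective (ibCoef G) := by
  classical
  constructor
  · rw [injective_iff_map_eq_zero]
    rintro ⟨x, hx⟩ h
    have h1 : ∀ g : G, g ≠ 1 → x.coeff g = 0 := fun g hg => congrFun h ⟨g, hg⟩
    have h2 := ib_aug (x := x) hx
    rw [Finset.sum_eq_single 1 (fun g _ hg => h1 g hg) (fun h => absurd (Finset.mem_univ _) h)] at h2
    apply Subtype.ext
    show x = 0
    ext g
    by_cases hg : g = 1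
    · rw [hg, h2]; rfl
    · rw [h1 g hg]; rfl
  · intro c
    refine ⟨⟨∑ g : {g : G // g ≠ 1}, c g • (MonoidAlgebra.single g.1 (1 : ℤ) - 1), ?_⟩, ?_⟩
    · show nrm G * _ = 0
      rw [Finset.mul_sum]
      refine Finset.sum_eq_zero fun g _ => ?_
      rw [mul_smul_comm, ib_nrm_sub hp hG g.2, smul_zero]
    · ext h
      show (∑ g : {g : G // g ≠ 1}, c g • (MonoidAlgebra.single g.1 (1 : ℤ) - 1)).coeff h.1 = c h
      rw [MonoidAlgebra.coeff_sum, Finsupp.finsetSum_apply, Finset.sum_eq_single h]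
      · rw [MonoidAlgebra.coeff_smul_apply, MonoidAlgebra.coeff_sub, MonoidAlgebra.coeff_single,
          MonoidAlgebra.one_def, MonoidAlgebra.coeff_single, Finsupp.sub_apply,
          Finsupp.single_eq_same, Finsupp.single_eq_of_ne h.2, sub_zero, smul_eq_mul, mul_one]
      · intro g _ hgh
        have hgh' : h.1 ≠ g.1 := fun e => hgh (Subtype.ext e.symm)
        rw [MonoidAlgebra.coeff_smul_apply, MonoidAlgebra.coeff_sub, MonoidAlgebra.coeff_single,
          MonoidAlgebra.one_def, MonoidAlgebra.coeff_single, Finsupp.sub_apply,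
          Finsupp.single_eq_of_ne hgh', Finsupp.single_eq_of_ne h.2, sub_zero, smul_zero]
      · intro hh
        exact absurd (Finset.mem_univ _) hh

/-- the basis of the augmentation ideal -/
noncomputable def ibBasis (hp : p.Prime) (hG : Nat.card G = p) :
    Basis {g : G // g ≠ 1} ℤ (iaN G (MonoidAlgebra ℤ G)) :=
  Basis.ofEquivFun (LinearEquiv.ofBijective (ibCoef G) (ib_coef_bij hp hG))

theorem ib_basis_repr (hp : p.Prime) (hG : Nat.card G = p) (x : iaN G (MonoidAlgebra ℤ G))
    (g : {g : G // g ≠ 1}) : (ibBasis hp hG).repr x g = x.1.coeff g.1 := rfl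

theorem ib_basis_apply (hp : p.Prime) (hG : Nat.card G = p) (g : {g : G // g ≠ 1}) :
    ((ibBasis hp hG g : iaN G (MonoidAlgebra ℤ G)) : MonoidAlgebra ℤ G) =
      MonoidAlgebra.single g.1 (1 : ℤ) - 1 := by
  classical
  have h : ibBasis hp hG g = ⟨MonoidAlgebra.single g.1 (1 : ℤ) - 1, ib_nrm_sub hp hG g.2⟩ := by
    apply (ibBasis hp hG).repr.injective
    rw [Basis.repr_self]
    ext h
    rw [ib_basis_repr]
    show _ = (MonoidAlgebra.single g.1 (1 : ℤ) - 1 : MonoidAlgebra ℤ G).coeff h.1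
    rw [MonoidAlgebra.coeff_sub, MonoidAlgebra.coeff_single, MonoidAlgebra.one_def,
      MonoidAlgebra.coeff_single, Finsupp.sub_apply, Finsupp.single_eq_of_ne h.2, sub_zero,
      Finsupp.single_apply, Finsupp.single_apply]
    simp only [Subtype.ext_iff]
  rw [h]

/-- there are as many nontrivial characters as nontrivial elements -/
theorem ib_equiv (hp : p.Prime) (hG : Nat.card G = p) :
    Nonempty ({g : G // g ≠ 1} ≃ {χ : G →* ℂˣ // χ ≠ 1}) := by
  classical
  have h1 : Nat.card (G →* ℂˣ) = Nat.card G :=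
    CommGroup.card_monoidHom_of_hasEnoughRootsOfUnity G ℂ
  have hf : Finite (G →* ℂˣ) := by
    apply Nat.finite_of_card_ne_zero
    rw [h1, hG]
    exact hp.ne_zero
  have := Fintype.ofFinite (G →* ℂˣ)
  rw [Nat.card_eq_fintype_card, Nat.card_eq_fintype_card] at h1
  refine ⟨Fintype.equivOfCardEq ?_⟩
  rw [Fintype.card_subtype_compl, Fintype.card_subtype_compl, h1]
  simp

/-- the determinant of multiplication by `x` on the augmentation ideal -/
theorem ib_det_one (hp : p.Prime) (hG : Nat.card G = p) (x : MonoidAlgebra ℤ G) :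
    ((LinearMap.det (iaMul (iaN G (MonoidAlgebra ℤ G)) x) : ℤ) : ℂ) =
      pX (fun χ : G →* ℂˣ => evZ χ x) := by
  classical
  obtain ⟨e⟩ := ib_equiv hp hG
  set b := ibBasis hp hG with hb
  set m := LinearMap.toMatrix b b (iaMul (iaN G (MonoidAlgebra ℤ G)) x) with hm
  let V : Matrix {g : G // g ≠ 1} {g : G // g ≠ 1} ℂ :=
    Matrix.of fun a h => ((e a).1 h.1 : ℂ) - 1
  have hV : ∀ (χ : G →* ℂˣ) (h : {g : G // g ≠ 1}), evZ χ (b h).1 = (χ h.1 : ℂ) - 1 := fun χ h => by
    rw [hb, ib_basis_apply, map_sub, map_one, ib_evZ_single]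
    simp
  have hm1 : ∀ h, x * (b h).1 = ∑ g, m g h • (b g).1 := fun h => by
    have h1 := b.sum_repr (iaMul (iaN G (MonoidAlgebra ℤ G)) x (b h))
    have h2 := congrArg (iaN G (MonoidAlgebra ℤ G)).subtype.toAddMonoidHom h1
    rw [map_sum] at h2
    refine Eq.trans ?_ (h2.symm.trans (Finset.sum_congr rfl fun g _ => ?_))
    · rfl
    · rw [map_zsmul, hm, LinearMap.toMatrix_apply]
      rfl
  have key : V * m.map (Int.cast : ℤ → ℂ) = Matrix.diagonal (fun a => evZ (e a).1 x) * V := by
    ext a h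
    rw [Matrix.mul_apply, Matrix.diagonal_mul]
    have h1 := congrArg (evZ (e a).1) (hm1 h)
    rw [map_mul, hV, map_sum] at h1
    show _ = evZ (e a).1 x * (((e a).1 h.1 : ℂ) - 1)
    rw [h1]
    refine Finset.sum_congr rfl fun g _ => ?_
    rw [map_zsmul, hV, zsmul_eq_mul, mul_comm]
    rfl
  have hdet : V.det ≠ 0 := by
    intro h0
    obtain ⟨c, hc, hc0⟩ := Matrix.exists_vecMul_eq_zero_iff.2 h0
    apply hc
    have hli : LinearIndependent ℂ (fun i : Option {g : G // g ≠ 1} =>
        (fun f : G →* ℂ => (f : G → ℂ))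
          (Option.elim i 1 fun a => (Units.coeHom ℂ).comp (e a).1)) := by
      refine (linearIndependent_monoidHom G ℂ).comp _ ?_
      have hinj : ∀ χ ψ : G →* ℂˣ, (Units.coeHom ℂ).comp χ = (Units.coeHom ℂ).comp ψ → χ = ψ := by
        intro χ ψ h
        ext g
        exact DFunLike.congr_fun h g
      have h1 : (1 : G →* ℂ) = (Units.coeHom ℂ).comp 1 := by ext g; rfl
      rintro (_ | a) (_ | a') h
      · rfl
      · exfalso
        exact (e a').2 (hinj _ _ (h1.symm.trans h)).symm
      · exfalso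
        exact (e a).2 (hinj _ _ (h.trans h1))
      · exact congrArg some (e.injective (Subtype.ext (hinj _ _ h)))
    rw [Fintype.linearIndependent_iff] at hli
    have h2 := hli (fun i => Option.elim i (-∑ a, c a) c) ?_
    · ext a
      exact h2 (some a)
    · rw [Fintype.sum_option]
      ext g
      simp only [Option.elim_none, Option.elim_some, Pi.add_apply, Pi.smul_apply, smul_eq_mul,
        Finset.sum_apply, MonoidHom.one_apply, mul_one, MonoidHom.comp_apply, Units.coeHom_apply,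
        Pi.zero_apply]
      by_cases hg : g = 1
      · rw [hg]
        simp
      · have h3 := congrFun hc0 ⟨g, hg⟩
        rw [Matrix.vecMul, dotProduct] at h3
        simp only [Pi.zero_apply] at h3
        have h4 : ∀ a, c a * V a ⟨g, hg⟩ = c a * ((e a).1 g : ℂ) - c a := fun a => by
          show c a * (((e a).1 g : ℂ) - 1) = _
          ring
        rw [Finset.sum_congr rfl fun a _ => h4 a, Finset.sum_sub_distrib] at h3
        linear_combination h3
  have h5 := congrArg Matrix.det key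
  rw [Matrix.det_mul, Matrix.det_mul, Matrix.det_diagonal, mul_comm] at h5
  have h6 := mul_right_cancel₀ hdet h5
  rw [← LinearMap.det_toMatrix b, ← hm]
  have h7 : (m.map (Int.cast : ℤ → ℂ)).det = ((m.det : ℤ) : ℂ) := by
    have := (Int.castRingHom ℂ).map_det m
    exact this.symm
  have := Fintype.ofEquiv _ e
  rw [← h7, h6, pX, finprod_eq_prod_of_fintype,
    ← Equiv.prod_comp e (fun χ : {χ : G →* ℂˣ // χ ≠ 1} => evZ χ.1 x)]

/-- the map given by a matrix -/
noncomputable def ibMat (N : Type) [AddCommGroup N] [Module (MonoidAlgebra ℤ G) N] {r : ℕ}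
    (A : Matrix (Fin r) (Fin r) (MonoidAlgebra ℤ G)) : (Fin r → N) →ₗ[ℤ] (Fin r → N) where
  toFun v i := ∑ j, A i j • v j
  map_add' v w := by
    ext i
    simp [smul_add, Finset.sum_add_distrib]
  map_smul' c v := by
    ext i
    simp only [Pi.smul_apply, RingHom.id_apply, Finset.smul_sum]
    exact Finset.sum_congr rfl fun j _ => smul_comm _ _ _

theorem ib_det (hp : p.Prime) (hG : Nat.card G = p) {r : ℕ}
    (A : Matrix (Fin r) (Fin r) (MonoidAlgebra ℤ G)) :
    ((LinearMap.det (ibMat (iaN G (MonoidAlgebra ℤ G)) A) : ℤ) : ℂ) =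
      pX (fun χ : G →* ℂˣ => evZ χ A.det) := by
  classical
  rw [← ib_det_one hp hG]
  congr 1
  set b := ibBasis hp hG with hb
  let f : MonoidAlgebra ℤ G →+* Matrix {g : G // g ≠ 1} {g : G // g ≠ 1} ℤ :=
    ((LinearMap.toMatrixAlgEquiv b : _ ≃ₐ[ℤ] _) : _ →+* _).comp (iaMul (iaN G (MonoidAlgebra ℤ G)))
  have hf : ∀ x, f x = LinearMap.toMatrix b b (iaMul (iaN G (MonoidAlgebra ℤ G)) x) := fun x => rfl
  rw [← LinearMap.det_toMatrix b, ← hf, Matrix.det_det A f]
  let B : Basis (Fin r × {g : G // g ≠ 1}) ℤ (Fin r → iaN G (MonoidAlgebra ℤ G)) :=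
    (Pi.basis (fun _ : Fin r => b)).reindex (Equiv.sigmaEquivProd _ _)
  rw [← LinearMap.det_toMatrix B]
  congr 1
  ext ⟨i, g⟩ ⟨j, h⟩
  rw [LinearMap.toMatrix_apply]
  have h1 : B (j, h) = Pi.single j (b h) := by
    simp only [B, Basis.reindex_apply, Equiv.sigmaEquivProd_symm_apply, Pi.basis_apply]
  have h2 : ∀ v : Fin r → iaN G (MonoidAlgebra ℤ G), B.repr v (i, g) = b.repr (v i) g := fun v => by
    show ((Pi.basis (fun _ : Fin r => b)).reindex (Equiv.sigmaEquivProd _ _)).repr v (i, g) = _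
    rw [Basis.repr_reindex_apply, Equiv.sigmaEquivProd_symm_apply, Pi.basis_repr]
  rw [h2, h1]
  have h3 : ibMat (iaN G (MonoidAlgebra ℤ G)) A (Pi.single j (b h)) i = A i j • b h := by
    show ∑ k, A i k • (Pi.single j (b h) : Fin r → iaN G (MonoidAlgebra ℤ G)) k = _
    rw [Finset.sum_eq_single j]
    · rw [Pi.single_eq_same]
    · intro k _ hk
      rw [Pi.single_eq_of_ne hk, smul_zero]
    · intro hh
      exact absurd (Finset.mem_univ _) hh
  rw [h3]
  show _ = f (A i j) g h
  rw [hf, LinearMap.toMatrix_apply]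
  rfl

end GRing

section IDX

variable {G : Type} [CommGroup G] [Fintype G] {M : Type} [AddCommGroup M]
  [Module (MonoidAlgebra ℤ G) M]

theorem ib_map_range (N : Submodule (MonoidAlgebra ℤ G) M) (x : MonoidAlgebra ℤ G) :
    (DistribSMul.toAddMonoidHom N x).range.map N.subtype.toAddMonoidHom =
    N.toAddSubgroup.map (DistribSMul.toAddMonoidHom M x) := by
  ext u
  constructor
  · rintro ⟨_, ⟨y, rfl⟩, rfl⟩
    exact ⟨y, y.2, rfl⟩
  · rintro ⟨y, hy, rfl⟩
    exact ⟨_, ⟨⟨y, hy⟩, rfl⟩, rfl⟩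

theorem ib_relIndex (N : Submodule (MonoidAlgebra ℤ G) M) (H : AddSubgroup N) :
    (H.map N.subtype.toAddMonoidHom).relIndex N.toAddSubgroup = H.index := by
  have h : (⊤ : AddSubgroup N).map N.subtype.toAddMonoidHom = N.toAddSubgroup := by
    ext u
    constructor
    · rintro ⟨x, -, rfl⟩
      exact x.2
    · intro hu
      exact ⟨⟨u, hu⟩, trivial, rfl⟩
  rw [← h, AddSubgroup.relIndex_map_map_of_injective _ _ (Subtype.val_injective),
    AddSubgroup.relIndex_top_right]

variable [Module.Finite ℤ M] [Module.IsTorsionFree ℤ M]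

/-- the index of `(g-1) B` in `M⁻` -/
theorem ib_index {p : ℕ} (hp : p.Prime) (hG : Nat.card G = p) {g : G} (hg : g ≠ 1) {r : ℕ}
    (hr : Module.finrank ℤ (mMinus G M) = r * (p - 1)) (b : Fin r → M)
    (hb : ∀ j, b j ∈ mMinus G M) :
    ((mSpn G b).map (DistribSMul.toAddMonoidHom M
      (MonoidAlgebra.single g (1 : ℤ) - 1 : MonoidAlgebra ℤ G))).relIndex (mMinus G M) =
      p ^ r * (mSpn G b).relIndex (mMinus G M) := by
  set N : Submodule (MonoidAlgebra ℤ G) M :=
    Submodule.span (MonoidAlgebra ℤ G) (Set.range b) with hN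
  have hspn : N ≤ iaN G M := by
    rw [hN, Submodule.span_le]
    rintro _ ⟨j, rfl⟩
    exact hb j
  have hle : (mSpn G b).map (DistribSMul.toAddMonoidHom M
      (MonoidAlgebra.single g (1 : ℤ) - 1 : MonoidAlgebra ℤ G)) ≤ mSpn G b := by
    rintro _ ⟨u, hu, rfl⟩
    exact N.smul_mem _ hu
  have hle2 : mSpn G b ≤ mMinus G M := hspn
  by_cases h0 : (mSpn G b).relIndex (mMinus G M) = 0
  · rw [h0, mul_zero]
    exact AddSubgroup.relIndex_eq_zero_of_le_left hle h0
  · rw [← AddSubgroup.relIndex_mul_relIndex _ _ _ hle hle2]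
    congr 1
    have := ia_finite N
    have := ia_free N
    have := ia_finite (iaN G M)
    have := ia_free (iaN G M)
    show (N.toAddSubgroup.map _).relIndex N.toAddSubgroup = _
    rw [← ib_map_range, ib_relIndex]
    refine ia_pi hp hG hg ?_ fun u => Subtype.ext (hspn u.2)
    rw [← hr, ← ia_finrank]
    apply le_antisymm
    · let i : N →ₗ[ℤ] iaN G M :=
        ({ toFun := fun u => ⟨u.1, hspn u.2⟩
           map_zero' := rfl
           map_add' := fun _ _ => rfl } : N →+ iaN G M).toIntLinearMap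
      refine LinearMap.finrank_le_finrank_of_injective (f := i) fun u v h => ?_
      have h1 : u.1 = v.1 := congrArg (fun z : iaN G M => z.1) h
      exact Subtype.ext h1
    · let n := (mSpn G b).relIndex (mMinus G M)
      have hmem : ∀ u : iaN G M, n • u.1 ∈ N := fun u =>
        (mSpn G b).nsmul_relIndex_mem (K := mMinus G M) u.2
      let i : iaN G M →ₗ[ℤ] N :=
        ({ toFun := fun u => ⟨n • u.1, hmem u⟩
           map_zero' := Subtype.ext (smul_zero _)
           map_add' := fun u v => Subtype.ext (smul_add _ _ _) } : iaN G M →+ N).toIntLinearMap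
      refine LinearMap.finrank_le_finrank_of_injective (f := i) fun u v h => ?_
      have h1 : n • u.1 = n • v.1 := congrArg Subtype.val h
      have h2 : (n : ℤ) • (u.1 - v.1) = 0 := by
        rw [smul_sub, natCast_zsmul, natCast_zsmul, h1, sub_self]
      rcases smul_eq_zero.1 h2 with h3 | h3
      · exact absurd h3 (by exact_mod_cast h0)
      · exact Subtype.ext (sub_eq_zero.1 h3)

theorem idx_two {p : ℕ} (hp : p.Prime) (hG : Nat.card G = p) {r : ℕ}
    (hr : Module.finrank ℤ (mMinus G M) = r * (p - 1)) (b : Fin r → M)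
    (hb : ∀ j, b j ∈ mMinus G M)
    (ψ : Fin r → (M →ₗ[MonoidAlgebra ℤ G] MonoidAlgebra ℤ G)) :
    ∃ t : ℤ, pX (fun χ => evZ χ (Matrix.det (Matrix.of fun i j => ψ i (b j)))) =
      t * ((p : ℂ) ^ r * ((mSpn G b).relIndex (mMinus G M) : ℂ)) := by
  classical
  have hfact : Fact p.Prime := ⟨hp⟩
  obtain ⟨g, hg⟩ : ∃ g : G, g ≠ 1 := by
    have : Nontrivial G := by
      rw [← Finite.one_lt_card_iff_nontrivial, hG]
      exact hp.one_lt
    exact exists_ne 1
  set A : Matrix (Fin r) (Fin r) (MonoidAlgebra ℤ G) := Matrix.of fun i j => ψ i (b j) with hA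
  set N := iaN G (MonoidAlgebra ℤ G) with hN
  have f1 := ia_finite (iaN G M)
  have f2 := ia_free (iaN G M)
  have bN := ibBasis (G := G) hp hG
  have f3 : Module.Finite ℤ N := Module.Finite.of_basis bN
  have f4 : Module.Free ℤ N := Module.Free.of_basis bN
  have hcard : Module.finrank ℤ N = p - 1 := by
    rw [Module.finrank_eq_card_basis bN, Fintype.card_subtype_compl, ← Nat.card_eq_fintype_card, hG]
    simp
  have hfr : Module.finrank ℤ (iaN G M) = Module.finrank ℤ (Fin r → N) := by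
    rw [ia_finrank, hr, Module.finrank_pi_fintype, Finset.sum_const, hcard, Finset.card_univ,
      Fintype.card_fin, smul_eq_mul]
  let e : iaN G M ≃ₗ[ℤ] (Fin r → N) := LinearEquiv.ofFinrankEq _ _ hfr
  let β : (Fin r → N) →ₗ[ℤ] iaN G M :=
    ({ toFun := fun v => ∑ j, (v j).1 • (⟨b j, hb j⟩ : iaN G M)
       map_zero' := by simp
       map_add' := fun v w => by
        rw [← Finset.sum_add_distrib]
        exact Finset.sum_congr rfl fun j _ => add_smul _ _ _ } :
        (Fin r → N) →+ iaN G M).toIntLinearMap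
  have hβ : ∀ v, ((β v : iaN G M) : M) = ∑ j, (v j).1 • b j := fun v => by
    show (iaN G M).subtype (∑ j, (v j).1 • (⟨b j, hb j⟩ : iaN G M)) = _
    rw [map_sum]
    rfl
  have hΨ0 : ∀ (u : iaN G M) (i : Fin r), nrm G * ψ i u.1 = 0 := fun u i => by
    rw [← smul_eq_mul, ← map_smul, show nrm G • u.1 = 0 from u.2, map_zero]
  let Ψ : iaN G M →ₗ[ℤ] (Fin r → N) :=
    ({ toFun := fun u i => ⟨ψ i u.1, hΨ0 u i⟩
       map_zero' := by
        ext i : 1
        exact Subtype.ext (map_zero (ψ i))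
       map_add' := fun u v => by
        ext i : 1
        exact Subtype.ext (map_add (ψ i) u.1 v.1) } : iaN G M →+ (Fin r → N)).toIntLinearMap
  have hcomp : (Ψ ∘ₗ e.symm.toLinearMap) ∘ₗ (e.toLinearMap ∘ₗ β) = ibMat N A := by
    refine LinearMap.ext fun v => ?_
    ext i : 1
    apply Subtype.ext
    have h1 : ((Ψ ∘ₗ e.symm.toLinearMap) ∘ₗ (e.toLinearMap ∘ₗ β)) v = Ψ (β v) := by
      simp only [LinearMap.comp_apply, LinearEquiv.coe_coe, LinearEquiv.symm_apply_apply]
    rw [h1]
    show ψ i ((β v : iaN G M) : M) = N.subtype (∑ j, A i j • v j)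
    rw [hβ, map_sum, map_sum]
    refine Finset.sum_congr rfl fun j _ => ?_
    rw [map_smul, smul_eq_mul, mul_comm]
    rfl
  have hdet := ib_det hp hG A
  rw [← hN, ← hcomp, LinearMap.det_comp] at hdet
  have hidx : (LinearMap.det (e.toLinearMap ∘ₗ β)).natAbs =
      p ^ r * (mSpn G b).relIndex (mMinus G M) := by
    rw [← ia_index_range, ← ib_index hp hG hg hr b hb]
    have h1 : (LinearMap.range (e.toLinearMap ∘ₗ β)).toAddSubgroup.comap
        e.toLinearMap.toAddMonoidHom = (LinearMap.range β).toAddSubgroup := by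
      ext u
      constructor
      · rintro ⟨v, hv⟩
        exact ⟨v, e.injective hv⟩
      · rintro ⟨v, rfl⟩
        exact ⟨v, rfl⟩
    have h2 := AddSubgroup.index_comap_of_surjective
      (LinearMap.range (e.toLinearMap ∘ₗ β)).toAddSubgroup
      (f := e.toLinearMap.toAddMonoidHom) e.surjective
    rw [← h2, h1, ← ia_relIndex]
    congr 1
    ext u
    constructor
    · rintro ⟨_, ⟨v, rfl⟩, rfl⟩
      have h3 : ∀ j, ∃ y, (v j).1 = (MonoidAlgebra.single g (1 : ℤ) - 1) * y := fun j =>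
        ib_dvd hp hG hg (v j).2
      choose y hy using h3
      refine ⟨∑ j, y j • b j, ?_, ?_⟩
      · exact Submodule.sum_mem _ fun j _ =>
          Submodule.smul_mem _ _ (Submodule.subset_span ⟨j, rfl⟩)
      · show (MonoidAlgebra.single g (1 : ℤ) - 1 : MonoidAlgebra ℤ G) • ∑ j, y j • b j =
          ((β v : iaN G M) : M)
        rw [hβ, Finset.smul_sum]
        refine Finset.sum_congr rfl fun j _ => ?_
        rw [hy j, mul_smul]
    · rintro ⟨w, hw, rfl⟩
      obtain ⟨y, rfl⟩ := (Submodule.mem_span_range_iff_exists_fun (MonoidAlgebra ℤ G)).1 hw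
      refine ⟨β fun j => ⟨(MonoidAlgebra.single g (1 : ℤ) - 1) * y j, ?_⟩, ⟨_, rfl⟩, ?_⟩
      · show nrm G * _ = 0
        rw [← mul_assoc, ib_nrm_sub hp hG hg, zero_mul]
      · show ((β _ : iaN G M) : M) =
          (MonoidAlgebra.single g (1 : ℤ) - 1 : MonoidAlgebra ℤ G) • ∑ j, y j • b j
        rw [hβ, Finset.smul_sum]
        exact Finset.sum_congr rfl fun j _ => mul_smul _ _ _
  rw [← hdet]
  rcases Int.natAbs_eq (LinearMap.det (e.toLinearMap ∘ₗ β)) with h | h
  · refine ⟨LinearMap.det (Ψ ∘ₗ e.symm.toLinearMap), ?_⟩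
    rw [h, hidx]
    push_cast
    ring
  · refine ⟨-LinearMap.det (Ψ ∘ₗ e.symm.toLinearMap), ?_⟩
    rw [h, hidx]
    push_cast
    ring

end IDX

end Pool.Agent.RSK
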