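import Pool.Agent.Lib_helper17.RS.Bas
import Pool.Agent.Lib_helper17.RS.P_PH
import Pool.Agent.Lib_helper17.RS.P_EF
import Pool.Agent.Lib_helper17.RS.P_EG
import Pool.Agent.Lib_helper17.RS.P_PX1
import Pool.Agent.Lib_helper17.RS.P_CN
import Pool.Agent.Lib_helper17.RS.P_UR
/-!
# Rubin-Stark: block LN (the product of the leading terms)
-/

namespace Pool.Agent.RSK

set_option linter.unusedSectionVars false

open NumberField NumberField.InfinitePlace NumberField.Units IsDedekindDomain Filter Topology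
  Complex

section PXM

variable {G : Type} [CommGroup G] [Fintype G]

theorem ln_mero (Λ : (G →* ℂˣ) → ℂ → ℂ) (h : ∀ χ, χ ≠ 1 → MeromorphicOn (Λ χ) Set.univ) :
    MeromorphicOn (fun s => pX (fun χ => Λ χ s)) Set.univ := by
  have hf : Finite (G →* ℂˣ) := dual_finite
  have : Fintype {χ : G →* ℂˣ // χ ≠ 1} := Fintype.ofFinite _
  have h1 : (fun s => pX (fun χ => Λ χ s)) =
      fun s => ∏ χ : {χ : G →* ℂˣ // χ ≠ 1}, Λ χ.1 s := by
    funext s
    exact finprod_eq_prod_of_fintype _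
  rw [h1]
  exact MeromorphicOn.fun_prod fun χ _ => h χ.1 χ.2

theorem ln_pX_mul_pow {p : ℕ} (hG : Nat.card G = p) (φ : (G →* ℂˣ) → ℂ) (z : ℂ) (hz : z ≠ 0) :
    pX (fun χ => φ χ / z) * z ^ (p - 1) = pX φ := by
  rw [← pX_const hG z, ← pX_mul]
  congr 1
  funext χ
  rw [div_mul_cancel₀ _ hz]

end PXM

section DEGP

variable {F H : Type} [Field F] [NumberField F] [Field H] [NumberField H] [Algebra F H]
  [IsGalois F H] {G : Type} [CommGroup G] [Fintype G] {p : ℕ} {ι : G ≃* (H ≃ₐ[F] H)}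
  {S T : Finset (HeightOneSpectrum (𝓞 F))} {r : ℕ} {w : Fin r → Pl H}
  {fr : HeightOneSpectrum (𝓞 F) → G}

/-- the ranks -/
theorem ln_rank (hp : p.Prime) (hG : Nat.card G = p) (hD : Data ι S T r w fr) {nF nH : ℕ}
    (hnF : nF + 1 = Fintype.card (PS S)) (hnH : nH + 1 = Fintype.card (PS (ovr H S))) :
    nH = nF + r * (p - 1) := by
  obtain ⟨m, eH, eF, -⟩ := places_HF hp hG hD
  have h1 := Fintype.card_congr eH
  have h2 := Fintype.card_congr eF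
  have hG' : Fintype.card G = p := by rw [← Nat.card_eq_fintype_card, hG]
  rw [Fintype.card_sum, Fintype.card_prod, Fintype.card_fin, Fintype.card_fin, hG'] at h1
  rw [Fintype.card_sum, Fintype.card_fin, Fintype.card_fin] at h2
  have h3 : r * p = r + r * (p - 1) := by
    obtain ⟨q, hq⟩ : ∃ q, p = q + 1 := ⟨p - 1, by have := hp.pos; omega⟩
    subst hq
    rw [Nat.add_sub_cancel]
    ring
  omega

/-- `ζ_H = ζ_F ∏_{χ ≠ 1} Λ_χ` -/
theorem ln_prod (hp : p.Prime) (hG : Nat.card G = p) (hD : Data ι S T r w fr)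
    {s : ℂ} (hs : 1 < s.re) (Λ : (G →* ℂˣ) → ℂ → ℂ)
    (hΛ : ∀ χ, χ ≠ 1 → Λ χ s = LST S T fr χ s) :
    zST (ovr H S) (ovr H T) s = zST S T s * pX (fun χ => Λ χ s) := by
  rw [← lst_prod hp hG hD.disj hD.unram hD.frob hs, finprod_pX, lst_one]
  congr 1
  exact pX_congr fun χ hχ => (hΛ χ hχ).symm

theorem lead_norm (hp : p.Prime) (hG : Nat.card G = p) (hD : Data ι S T r w fr)
    {c : (G →* ℂˣ) → ℂ} (hc : LeadX S T r fr c) {nF nH : ℕ}
    (bF : Module.Basis (Fin nF) ℤ (Additive (Un S T)))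
    (bH : Module.Basis (Fin nH) ℤ (Additive (Un (ovr H S) (ovr H T)))) :
    ‖pX c‖ * (hA S T * regS S (bu bF)) = hA (ovr H S) (ovr H T) * regS (ovr H S) (bu bH) := by
  obtain ⟨htH, hdH⟩ := tf_H hD
  have htF : TFree S T := tf_F (H := H) htH
  obtain ⟨hnF, hrF, hhF, ZF, hZF, hZF1, hZF2⟩ := cnf hD.disj htF bF
  obtain ⟨hnH, hrH, hhH, ZH, hZH, hZH1, hZH2⟩ := cnf hdH htH bH
  have hn := ln_rank hp hG hD hnF hnH
  -- choose the continuations
  have hch : ∀ χ : G →* ℂˣ, ∃ Λ : ℂ → ℂ, χ ≠ 1 → MeromorphicOn Λ Set.univ ∧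
      (∀ s : ℂ, 1 < s.re → Λ s = LST S T fr χ s) ∧
      Tendsto (fun s : ℂ => Λ s / s ^ r) (𝓝[≠] 0) (𝓝 (c χ)) := by
    intro χ
    by_cases h : χ = 1
    · exact ⟨0, fun h' => absurd h h'⟩
    · obtain ⟨Λ, hΛ⟩ := hc χ h
      exact ⟨Λ, fun _ => hΛ⟩
  choose Λ hΛ using hch
  have h1 : ∀ᶠ s in 𝓝[≠] (0 : ℂ), ZH s = ZF s * pX (fun χ => Λ χ s) := by
    refine mero_ext hZH (hZF.mul (ln_mero Λ fun χ hχ => (hΛ χ hχ).1)) (fun s hs => ?_) 0
    show ZH s = ZF s * pX (fun χ => Λ χ s)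
    rw [hZH1 s hs, hZF1 s hs]
    exact ln_prod hp hG hD hs Λ fun χ hχ => (hΛ χ hχ).2.1 s hs
  have h2 : Tendsto (fun s : ℂ => ZF s / s ^ nF * pX (fun χ => Λ χ s / s ^ r)) (𝓝[≠] 0)
      (𝓝 ((-1) ^ (T.card + 1) * ((hA S T * regS S (bu bF) : ℝ) : ℂ) * pX c)) :=
    hZF2.mul (pX_tendsto fun χ hχ => (hΛ χ hχ).2.2)
  have h3 : (fun s : ℂ => ZH s / s ^ nH) =ᶠ[𝓝[≠] 0]
      fun s : ℂ => ZF s / s ^ nF * pX (fun χ => Λ χ s / s ^ r) := by
    filter_upwards [h1, self_mem_nhdsWithin] with s hs hs0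
    have hs0' : s ≠ 0 := hs0
    have hsr : s ^ r ≠ 0 := pow_ne_zero _ hs0'
    rw [hs, hn, ← ln_pX_mul_pow hG (fun χ => Λ χ s) (s ^ r) hsr, pow_add, pow_mul]
    have h5 : s ^ nF ≠ 0 := pow_ne_zero _ hs0'
    have h6 : (s ^ r) ^ (p - 1) ≠ 0 := pow_ne_zero _ hsr
    field_simp
  have h4 := tendsto_nhds_unique hZH2 (h2.congr' h3.symm)
  have h5 := congrArg norm h4
  rw [norm_mul, norm_mul, norm_mul, _root_.norm_pow, _root_.norm_pow, norm_neg, norm_one, one_pow,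
    one_pow, one_mul, one_mul, Complex.norm_real, Complex.norm_real, Real.norm_of_nonneg,
    Real.norm_of_nonneg] at h5
  · rw [h5]
    ring
  · positivity
  · positivity

end DEGP

end Pool.Agent.RSK
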