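import Pool.Agent.Lib_helper17.RS.Bas
import Pool.Agent.Lib_helper17.RS.P_AD1
import Pool.Agent.Lib_helper17.RS.P_PX1
/-!
# Rubin-Stark: block RA (helper75): minors of block circulant matrices
-/

namespace Pool.Agent.RSK

set_option linter.unusedSectionVars false

open Filter Topology Complex
open scoped TensorProduct Kronecker

section RAaux

variable {G : Type} [CommGroup G] [Fintype G]

theorem ra_order {p : ℕ} (hp : p.Prime) (hG : Nat.card G = p) {σ : G} (hσ : σ ≠ 1) :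
    orderOf σ = p := by
  have h1 : orderOf σ ∣ p := hG ▸ orderOf_dvd_natCard σ
  rcases (Nat.dvd_prime hp).mp h1 with h | h
  · exact absurd (orderOf_eq_one_iff.mp h) hσ
  · exact h

theorem ra_gen {p : ℕ} (hp : p.Prime) (hG : Nat.card G = p) {σ : G} (hσ : σ ≠ 1) (g : G) :
    ∃ k : ℤ, σ ^ k = g := by
  have h : g ∈ Subgroup.zpowers σ := by
    have : Fact p.Prime := ⟨hp⟩
    exact mem_zpowers_of_prime_card hG hσ
  exact Subgroup.mem_zpowers_iff.mp h

/-- the elements `σ^(k+1)` -/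
theorem ra_gm {p : ℕ} (hp : p.Prime) (hG : Nat.card G = p) {σ : G} (hσ : σ ≠ 1) :
    ∃ e : Fin (p - 1) ≃ {γ : G // γ ≠ 1}, ∀ k, (e k).1 = σ ^ ((k : ℕ) + 1) := by
  classical
  have ho := ra_order hp hG hσ
  have hne : ∀ k : Fin (p - 1), σ ^ ((k : ℕ) + 1) ≠ 1 := by
    intro k h
    have h1 := orderOf_dvd_of_pow_eq_one h
    rw [ho] at h1
    have := Nat.le_of_dvd (by omega) h1
    have := k.2
    omega
  let φ : Fin (p - 1) → {γ : G // γ ≠ 1} := fun k => ⟨σ ^ ((k : ℕ) + 1), hne k⟩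
  have hinj : Function.Injective φ := by
    intro a b hab
    have h1 : σ ^ ((a : ℕ) + 1) = σ ^ ((b : ℕ) + 1) := congrArg Subtype.val hab
    have h2 : Set.InjOn (fun n : ℕ => σ ^ n) (Set.Iio (orderOf σ)) := pow_injOn_Iio_orderOf
    have := a.2
    have := b.2
    have h3 := h2 (Set.mem_Iio.mpr (by omega)) (Set.mem_Iio.mpr (by omega)) h1
    apply Fin.ext
    omega
  have hcard : Fintype.card (Fin (p - 1)) = Fintype.card {γ : G // γ ≠ 1} := by
    rw [Fintype.card_fin, Fintype.card_subtype_compl (fun γ : G => γ = 1), Fintype.card_subtype_eq,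
      ← Nat.card_eq_fintype_card, hG]
  refine ⟨Equiv.ofBijective φ ((Fintype.bijective_iff_injective_and_card φ).mpr ⟨hinj, hcard⟩), ?_⟩
  intro k
  rfl

/-- enumeration of the nontrivial characters -/
theorem ra_ch {p : ℕ} (hG : Nat.card G = p) :
    Nonempty (Fin (p - 1) ≃ {χ : G →* ℂˣ // χ ≠ 1}) := by
  classical
  have : Finite (G →* ℂˣ) := dual_finite
  have : Fintype (G →* ℂˣ) := Fintype.ofFinite _
  have hc : Nat.card (G →* ℂˣ) = p := by
    rw [CommGroup.card_monoidHom_of_hasEnoughRootsOfUnity, hG]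
  have hcard : Fintype.card {χ : G →* ℂˣ // χ ≠ 1} = p - 1 := by
    rw [Fintype.card_subtype_compl (fun χ : G →* ℂˣ => χ = 1), Fintype.card_subtype_eq,
      ← Nat.card_eq_fintype_card, hc]
  exact ⟨(Fintype.equivFinOfCardEq hcard).symm⟩

theorem ra_pX {p : ℕ} (e : Fin (p - 1) ≃ {χ : G →* ℂˣ // χ ≠ 1}) (φ : (G →* ℂˣ) → ℂ) :
    pX φ = ∏ a : Fin (p - 1), φ (e a).1 := by
  unfold pX
  rw [← finprod_eq_prod_of_fintype]
  exact (finprod_eq_of_bijective e e.bijective (fun a => rfl)).symm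

/-- the values at the generator -/
theorem ra_vals {p : ℕ} (hp : p.Prime) (hG : Nat.card G = p) {σ : G} (hσ : σ ≠ 1)
    (e : Fin (p - 1) ≃ {χ : G →* ℂˣ // χ ≠ 1}) :
    Function.Injective (fun a => (((e a).1 σ : ℂˣ) : ℂ)) ∧
      ∏ a : Fin (p - 1), (1 - (((e a).1 σ : ℂˣ) : ℂ)) = p := by
  classical
  have : Fact p.Prime := ⟨hp⟩
  have hinj : Function.Injective (fun a => (((e a).1 σ : ℂˣ) : ℂ)) := by
    intro a b hab
    have h1 : (e a).1 σ = (e b).1 σ := Units.ext hab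
    apply e.injective
    apply Subtype.ext
    ext g
    obtain ⟨k, rfl⟩ := ra_gen hp hG hσ g
    rw [map_zpow, map_zpow, h1]
  refine ⟨hinj, ?_⟩
  have hprim : ∀ a : Fin (p - 1), IsPrimitiveRoot (((e a).1 σ : ℂˣ) : ℂ) p := by
    intro a
    rw [IsPrimitiveRoot.coe_units_iff]
    have hσp : σ ^ p = 1 := by
      have h := pow_orderOf_eq_one σ
      rwa [ra_order hp hG hσ] at h
    have h1 : ((e a).1 σ) ^ p = 1 := by
      rw [← map_pow, hσp, map_one]
    have h2 : (e a).1 σ ≠ 1 := by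
      intro h
      apply (e a).2
      ext g
      obtain ⟨k, rfl⟩ := ra_gen hp hG hσ g
      rw [map_zpow, h, one_zpow]
      rfl
    have h3 := IsPrimitiveRoot.orderOf ((e a).1 σ)
    rwa [orderOf_eq_prime h1 h2] at h3
  have himg : (Finset.univ : Finset (Fin (p - 1))).image (fun a => (((e a).1 σ : ℂˣ) : ℂ))
      = primitiveRoots p ℂ := by
    apply Finset.eq_of_subset_of_card_le
    · intro z hz
      rw [Finset.mem_image] at hz
      obtain ⟨a, -, rfl⟩ := hz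
      exact (mem_primitiveRoots hp.pos).mpr (hprim a)
    · rw [Finset.card_image_of_injective _ hinj, Finset.card_univ, Fintype.card_fin]
      have h0 : IsPrimitiveRoot (Complex.exp (2 * Real.pi * Complex.I / p)) p :=
        Complex.isPrimitiveRoot_exp p hp.ne_zero
      rw [h0.card_primitiveRoots, Nat.totient_prime hp]
  have h0 : IsPrimitiveRoot (Complex.exp (2 * Real.pi * Complex.I / p)) p :=
    Complex.isPrimitiveRoot_exp p hp.ne_zero
  have h1 : Polynomial.eval 1 (Polynomial.cyclotomic p ℂ) = p := Polynomial.eval_one_cyclotomic_prime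
  rw [Polynomial.cyclotomic_eq_prod_X_sub_primitiveRoots h0, Polynomial.eval_prod, ← himg,
    Finset.prod_image (fun a _ b _ h => hinj h)] at h1
  rw [← h1]
  apply Finset.prod_congr rfl
  intro a _
  simp

/-- the triangular transformation -/
theorem ra_A1 {n : ℕ} (x : Fin n → ℂ) :
    (Matrix.of fun a m : Fin n => x a ^ ((m : ℕ) + 1) - 1) =
      Matrix.diagonal (fun a => x a - 1) * (Matrix.vandermonde x *
        (Matrix.of fun k m : Fin n => if k ≤ m then (1 : ℂ) else 0)) := by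
  ext a m
  rw [Matrix.diagonal_mul, Matrix.mul_apply, Matrix.of_apply]
  have h1 : ∑ k : Fin n, Matrix.vandermonde x a k *
      (Matrix.of (fun k m : Fin n => if k ≤ m then (1 : ℂ) else 0)) k m
      = ∑ k ∈ Finset.range ((m : ℕ) + 1), x a ^ k := by
    simp only [Matrix.vandermonde_apply, Matrix.of_apply, mul_ite, mul_one, mul_zero]
    rw [← Finset.sum_filter]
    apply Finset.sum_bij (fun (k : Fin n) _ => (k : ℕ))
    · intro k hk
      rw [Finset.mem_filter] at hk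
      rw [Finset.mem_range]
      have := Fin.le_def.mp hk.2
      omega
    · intro a _ b _ h
      exact Fin.ext h
    · intro b hb
      rw [Finset.mem_range] at hb
      have hm := m.2
      refine ⟨⟨b, by omega⟩, ?_, rfl⟩
      rw [Finset.mem_filter]
      refine ⟨Finset.mem_univ _, ?_⟩
      rw [Fin.le_def]
      simp only
      omega
    · intro k _
      rfl
  rw [h1, mul_comm, geom_sum_mul]

theorem ra_detA1 {n : ℕ} (x : Fin n → ℂ) :
    (Matrix.of fun a m : Fin n => x a ^ ((m : ℕ) + 1) - 1).det =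
      (∏ a, (x a - 1)) * (Matrix.vandermonde x).det := by
  rw [ra_A1, Matrix.det_mul, Matrix.det_diagonal, Matrix.det_mul]
  have h : (Matrix.of fun k m : Fin n => if k ≤ m then (1 : ℂ) else 0).det = 1 := by
    rw [Matrix.det_of_isUpperTriangular]
    · simp
    · intro i j hij
      have hij' : j < i := hij
      rw [Matrix.of_apply, if_neg (not_le.mpr hij')]
  rw [h, mul_one]

theorem ra_sum {p : ℕ} {σ : G} (e : Fin (p - 1) ≃ {γ : G // γ ≠ 1})
    (he : ∀ k, (e k).1 = σ ^ ((k : ℕ) + 1)) (χ : G →* ℂˣ) (h : G → ℝ) (hh : ∑ γ, h γ = 0) (k : ℕ) :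
    ∑ m : Fin (p - 1), (((χ σ : ℂˣ) : ℂ) ^ ((m : ℕ) + 1) - 1) * (h ((σ ^ k)⁻¹ * σ ^ ((m : ℕ) + 1)) : ℂ)
      = (∑ γ, (h γ : ℂ) * (χ γ : ℂ)) * ((χ σ : ℂˣ) : ℂ) ^ k := by
  classical
  have h1 : ∑ m : Fin (p - 1), (((χ σ : ℂˣ) : ℂ) ^ ((m : ℕ) + 1) - 1) *
        (h ((σ ^ k)⁻¹ * σ ^ ((m : ℕ) + 1)) : ℂ)
      = ∑ γ : {γ : G // γ ≠ 1}, (((χ γ.1 : ℂˣ) : ℂ) - 1) * (h ((σ ^ k)⁻¹ * γ.1) : ℂ) := by
    rw [← Equiv.sum_comp e]
    apply Finset.sum_congr rfl
    intro m _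
    rw [he, map_pow, Units.val_pow_eq_pow_val]
  have h2 : ∑ γ : {γ : G // γ ≠ 1}, (((χ γ.1 : ℂˣ) : ℂ) - 1) * (h ((σ ^ k)⁻¹ * γ.1) : ℂ)
      = ∑ γ : G, (((χ γ : ℂˣ) : ℂ) - 1) * (h ((σ ^ k)⁻¹ * γ) : ℂ) := by
    rw [← Finset.sum_subtype (Finset.univ.filter (fun γ : G => γ ≠ 1)) (fun x => by simp)
      (fun γ : G => (((χ γ : ℂˣ) : ℂ) - 1) * (h ((σ ^ k)⁻¹ * γ) : ℂ))]
    apply Finset.sum_subset (Finset.filter_subset _ _)
    intro γ _ hγ
    have hγ1 : γ = 1 := by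
      by_contra hc
      exact hγ (Finset.mem_filter.mpr ⟨Finset.mem_univ _, hc⟩)
    rw [hγ1, map_one]
    simp
  have h3 : ∑ γ : G, (((χ γ : ℂˣ) : ℂ) - 1) * (h ((σ ^ k)⁻¹ * γ) : ℂ)
      = ∑ γ : G, (((χ (σ ^ k * γ) : ℂˣ) : ℂ) - 1) * (h γ : ℂ) := by
    rw [← Equiv.sum_comp (Equiv.mulLeft (σ ^ k))]
    apply Finset.sum_congr rfl
    intro γ _
    rw [Equiv.coe_mulLeft, inv_mul_cancel_left]
  have h4 : ∑ γ : G, (h γ : ℂ) = 0 := by
    rw [← Complex.ofReal_sum, hh, Complex.ofReal_zero]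
  rw [h1, h2, h3]
  simp_rw [sub_mul, one_mul]
  rw [Finset.sum_sub_distrib, h4, sub_zero, Finset.sum_mul]
  apply Finset.sum_congr rfl
  intro γ _
  rw [map_mul, map_pow, Units.val_mul, Units.val_pow_eq_pow_val]
  ring

/-- the determinant identity over the complex numbers -/
theorem ra_det {p : ℕ} (hp : p.Prime) (hG : Nat.card G = p) {σ : G} (hσ : σ ≠ 1) {r : ℕ}
    (f : Fin r → Fin r → G → ℝ) (hf : ∀ i j, ∑ γ, f i j γ = 0)
    (e : Fin (p - 1) ≃ {γ : G // γ ≠ 1}) (he : ∀ k, (e k).1 = σ ^ ((k : ℕ) + 1))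
    (e' : Fin (p - 1) ≃ {χ : G →* ℂˣ // χ ≠ 1}) :
    (∏ a : Fin (p - 1), ((((e' a).1 σ : ℂˣ) : ℂ) - 1)) ^ r *
      (Matrix.of fun i j : Fin r × Fin (p - 1) =>
        (f i.1 j.1 ((σ ^ (j.2 : ℕ))⁻¹ * σ ^ ((i.2 : ℕ) + 1)) : ℂ)).det =
      ∏ a : Fin (p - 1), (Matrix.of fun i j : Fin r => ∑ γ, (f i j γ : ℂ) * ((e' a).1 γ : ℂ)).det := by
  classical
  set x : Fin (p - 1) → ℂ := fun a => (((e' a).1 σ : ℂˣ) : ℂ) with hx
  have hinj : Function.Injective x := (ra_vals hp hG hσ e').1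
  set M : Matrix (Fin r × Fin (p - 1)) (Fin r × Fin (p - 1)) ℂ :=
    Matrix.of fun i j => (f i.1 j.1 ((σ ^ (j.2 : ℕ))⁻¹ * σ ^ ((i.2 : ℕ) + 1)) : ℂ) with hM
  set D : Fin (p - 1) → Matrix (Fin r) (Fin r) ℂ :=
    fun a => Matrix.of fun i j => ∑ γ, (f i j γ : ℂ) * ((e' a).1 γ : ℂ) with hD
  set A₁ : Matrix (Fin (p - 1)) (Fin (p - 1)) ℂ :=
    Matrix.of fun a m => x a ^ ((m : ℕ) + 1) - 1 with hA₁
  have hid : ((1 : Matrix (Fin r) (Fin r) ℂ) ⊗ₖ A₁) * M =
      Matrix.blockDiagonal D * ((1 : Matrix (Fin r) (Fin r) ℂ) ⊗ₖ Matrix.vandermonde x) := by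
    ext ⟨i, a⟩ ⟨j, k⟩
    rw [Matrix.mul_apply, Matrix.mul_apply, Fintype.sum_prod_type, Fintype.sum_prod_type]
    have hL : ∀ i' : Fin r, ∑ m : Fin (p - 1), ((1 : Matrix (Fin r) (Fin r) ℂ) ⊗ₖ A₁) (i, a) (i', m) *
          M (i', m) (j, k) = if i = i' then D a i j * x a ^ (k : ℕ) else 0 := by
      intro i'
      by_cases hii : i = i'
      · subst hii
        rw [if_pos rfl]
        have h := ra_sum (σ := σ) e he (e' a).1 (f i j) (hf i j) (k : ℕ)
        rw [hD]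
        simp only [Matrix.of_apply]
        rw [← h]
        apply Finset.sum_congr rfl
        intro m _
        rw [Matrix.kroneckerMap_apply, Matrix.one_apply_eq, one_mul, hA₁, hM, Matrix.of_apply,
          Matrix.of_apply]
      · rw [if_neg hii]
        apply Finset.sum_eq_zero
        intro m _
        rw [Matrix.kroneckerMap_apply, Matrix.one_apply_ne hii]
        ring
    have hR : ∀ i' : Fin r, ∑ a' : Fin (p - 1), Matrix.blockDiagonal D (i, a) (i', a') *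
          ((1 : Matrix (Fin r) (Fin r) ℂ) ⊗ₖ Matrix.vandermonde x) (i', a') (j, k)
        = if i' = j then D a i j * x a ^ (k : ℕ) else 0 := by
      intro i'
      by_cases hij : i' = j
      · subst hij
        rw [if_pos rfl, Finset.sum_eq_single a]
        · rw [Matrix.blockDiagonal_apply_eq, Matrix.kroneckerMap_apply, Matrix.one_apply_eq, one_mul,
            Matrix.vandermonde_apply]
        · intro a' _ ha'
          rw [Matrix.blockDiagonal_apply_ne _ _ _ (Ne.symm ha'), zero_mul]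
        · intro h
          exact absurd (Finset.mem_univ a) h
      · rw [if_neg hij]
        apply Finset.sum_eq_zero
        intro a' _
        rw [Matrix.kroneckerMap_apply, Matrix.one_apply_ne hij]
        ring
    rw [Finset.sum_congr rfl (fun i' _ => hL i'), Finset.sum_congr rfl (fun i' _ => hR i')]
    simp
  have hdet := congrArg Matrix.det hid
  rw [Matrix.det_mul, Matrix.det_mul, Matrix.det_kronecker, Matrix.det_kronecker, Matrix.det_one,
    one_pow, one_mul, one_mul, Matrix.det_blockDiagonal, Fintype.card_fin, hA₁, ra_detA1,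
    mul_pow] at hdet
  have hV : (Matrix.vandermonde x).det ≠ 0 := Matrix.det_vandermonde_ne_zero_iff.mpr hinj
  have hV' : (Matrix.vandermonde x).det ^ r ≠ 0 := pow_ne_zero r hV
  apply mul_right_cancel₀ hV'
  linear_combination hdet

end RAaux

open scoped Classical in
/-- minors of block circulant matrices -/
theorem circ_minor {G : Type} [CommGroup G] [Fintype G] {p : ℕ} (hp : p.Prime) (hG : Nat.card G = p) {σ : G} (hσ : σ ≠ 1) {r : ℕ}
    (f : Fin r → Fin r → G → ℝ) (hf : ∀ i j, ∑ γ, f i j γ = 0) :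
    adet (fun (P : Fin r × {γ : G // γ ≠ 1}) (j : Fin r × Fin (p - 1)) =>
      f P.1 j.1 ((σ ^ (j.2 : ℕ))⁻¹ * P.2.1)) * (p : ℝ) ^ r =
      ‖pX (fun χ : G →* ℂˣ => Matrix.det (Matrix.of fun i j : Fin r =>
        ∑ γ, (f i j γ : ℂ) * (χ γ : ℂ)))‖ := by
  obtain ⟨e, he⟩ := ra_gm hp hG hσ
  obtain ⟨e'⟩ := ra_ch hG
  have h := ra_det hp hG hσ f hf e he e'
  rw [ra_pX e', ← h, norm_mul, norm_pow]
  have h1 : ‖∏ a : Fin (p - 1), ((((e' a).1 σ : ℂˣ) : ℂ) - 1)‖ = p := by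
    have h2 := (ra_vals hp hG hσ e').2
    have h3 : ∏ a : Fin (p - 1), ((((e' a).1 σ : ℂˣ) : ℂ) - 1)
        = (-1) ^ (p - 1) * ∏ a : Fin (p - 1), (1 - (((e' a).1 σ : ℂˣ) : ℂ)) := by
      have h4 : ∀ a : Fin (p - 1), (((e' a).1 σ : ℂˣ) : ℂ) - 1 = (-1) * (1 - (((e' a).1 σ : ℂˣ) : ℂ)) := by
        intro a
        ring
      simp_rw [h4]
      rw [Finset.prod_mul_distrib, Finset.prod_const, Finset.card_univ, Fintype.card_fin]
    rw [h3, h2, norm_mul, norm_pow, norm_neg, norm_one, one_pow, one_mul]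
    simp
  have h5 : (Matrix.of fun i j : Fin r × Fin (p - 1) =>
        (f i.1 j.1 ((σ ^ (j.2 : ℕ))⁻¹ * σ ^ ((i.2 : ℕ) + 1)) : ℂ)).det
      = (((Matrix.of fun i j : Fin r × Fin (p - 1) =>
        f i.1 j.1 ((σ ^ (j.2 : ℕ))⁻¹ * σ ^ ((i.2 : ℕ) + 1))).det : ℝ) : ℂ) := by
    have h6 := RingHom.map_det Complex.ofRealHom (Matrix.of fun i j : Fin r × Fin (p - 1) =>
        f i.1 j.1 ((σ ^ (j.2 : ℕ))⁻¹ * σ ^ ((i.2 : ℕ) + 1)))
    rw [Complex.ofRealHom_eq_coe] at h6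
    rw [h6]
    rfl
  rw [h1, h5, Complex.norm_real, Real.norm_eq_abs,
    adet_eq _ (Equiv.prodCongr (Equiv.refl (Fin r)) e)]
  rw [mul_comm]
  congr 3
  apply congrArg
  ext i j
  simp only [Matrix.of_apply, Equiv.prodCongr_apply, Prod.map, Equiv.refl_apply, he]

end Pool.Agent.RSK
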