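import Pool.Agent.Lib_helper17.RS.Bas
import Pool.Agent.Lib_helper17.RS.P_AD1
import Pool.Agent.Lib_helper17.RS.P_AD2
import Pool.Agent.Lib_helper17.RS.P_RA
/-!
# Rubin-Stark: block RB, the determinant identity
-/

namespace Pool.Agent.RSK

set_option linter.unusedSectionVars false

open Filter Topology Complex

section RB

variable {G : Type} [CommGroup G] [Fintype G]

/-- the rows -/
def rb_row {r m : ℕ} :
    (Fin r × {γ : G // γ ≠ 1}) ⊕ (Fin r ⊕ Fin m) → (Fin r × G) ⊕ Fin m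
  | Sum.inl P => Sum.inl (P.1, P.2.1)
  | Sum.inr (Sum.inl i) => Sum.inl (i, 1)
  | Sum.inr (Sum.inr q) => Sum.inr q

theorem rb_row_bij {r m : ℕ} : Function.Bijective (rb_row (G := G) (r := r) (m := m)) := by
  constructor
  · rintro (⟨i, γ, hγ⟩ | (i | q)) (⟨i', γ', hγ'⟩ | (i' | q')) h
    · simp only [rb_row, Sum.inl.injEq, Prod.mk.injEq] at h
      simp [h.1, h.2]
    · simp only [rb_row, Sum.inl.injEq, Prod.mk.injEq] at h
      exact absurd h.2 hγ
    · simp [rb_row] at h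
    · simp only [rb_row, Sum.inl.injEq, Prod.mk.injEq] at h
      exact absurd h.2.symm hγ'
    · simp only [rb_row, Sum.inl.injEq, Prod.mk.injEq] at h
      simp [h.1]
    · simp [rb_row] at h
    · simp [rb_row] at h
    · simp [rb_row] at h
    · simp only [rb_row, Sum.inr.injEq] at h
      simp [h]
  · rintro (⟨i, γ⟩ | q)
    · by_cases hγ : γ = 1
      · exact ⟨Sum.inr (Sum.inl i), by simp [rb_row, hγ]⟩
      · exact ⟨Sum.inl (i, ⟨γ, hγ⟩), rfl⟩
    · exact ⟨Sum.inr (Sum.inr q), rfl⟩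

/-- the columns -/
def rb_col {X Q : Type} : X ⊕ Option Q → Option (Q ⊕ X)
  | Sum.inl x => some (Sum.inr x)
  | Sum.inr none => none
  | Sum.inr (some j) => some (Sum.inl j)

theorem rb_col_bij {X Q : Type} : Function.Bijective (rb_col (X := X) (Q := Q)) := by
  constructor
  · rintro (x | (_ | j)) (x' | (_ | j')) h <;> simp_all [rb_col]
  · rintro (_ | (j | x))
    · exact ⟨Sum.inr none, rfl⟩
    · exact ⟨Sum.inr (some j), rfl⟩
    · exact ⟨Sum.inl x, rfl⟩

open scoped Classical in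
theorem rb_main {p : ℕ} (hG : Nat.card G = p) {σ : G} {r m : ℕ}
    {Q : Type} [Fintype Q] (α : Q → Fin r → ℝ)
    (β : Q → Fin m → ℝ)
    (f : Fin r → Fin r → G → ℝ) (hf : ∀ i j, ∑ γ, f i j γ = 0) :
    adet (hmat p σ α β f) =
      adet (fun (P : Fin r × {γ : G // γ ≠ 1}) (j : Fin r × Fin (p - 1)) =>
        f P.1 j.1 ((σ ^ (j.2 : ℕ))⁻¹ * P.2.1)) *
      adet (fun (i : Fin r ⊕ Fin m) (j : Option Q) => j.elim (Sum.elim (fun _ => (p : ℝ)) (fun _ => 1) i)
        (fun j => Sum.elim (fun i => (p : ℝ) * α j i) (fun q => (p : ℝ) * β j q) i)) := by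
  have hGc : Fintype.card G = p := by rw [← Nat.card_eq_fintype_card, hG]
  rw [← adet_reindex (Equiv.ofBijective _ (rb_row_bij (G := G) (r := r) (m := m)))
    (Equiv.ofBijective _ (rb_col_bij (X := Fin r × Fin (p - 1)) (Q := Q))) (hmat p σ α β f)]
  set M : (Fin r × {γ : G // γ ≠ 1}) ⊕ (Fin r ⊕ Fin m) → (Fin r × Fin (p - 1)) ⊕ Option Q → ℝ :=
    fun i j => hmat p σ α β f (rb_row i) (rb_col j) with hM
  have h0 : adet (fun i j => hmat p σ α β f
      ((Equiv.ofBijective _ (rb_row_bij (G := G) (r := r) (m := m))) i)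
      ((Equiv.ofBijective _ (rb_col_bij (X := Fin r × Fin (p - 1)) (Q := Q))) j)) = adet M := rfl
  rw [h0]
  set N : Matrix ((Fin r × {γ : G // γ ≠ 1}) ⊕ (Fin r ⊕ Fin m))
      ((Fin r × {γ : G // γ ≠ 1}) ⊕ (Fin r ⊕ Fin m)) ℝ :=
    Matrix.fromBlocks 1 0 (Matrix.of fun i P => Sum.elim (fun i => if i = P.1 then 1 else 0)
      (fun _ => 0) i) 1 with hN
  have hdet : N.det = 1 := by
    rw [hN, Matrix.det_fromBlocks_zero₁₂, Matrix.det_one, Matrix.det_one, mul_one]
  have h1 := adet_mul' N M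
  rw [hdet, abs_one, one_mul] at h1
  rw [← h1]
  have hrow1 : ∀ P j, ∑ l, N (Sum.inl P) l * M l j = M (Sum.inl P) j := by
    intro P j
    rw [Fintype.sum_sum_type]
    simp [hN, Matrix.one_apply]
  have hrow2 : ∀ q j, ∑ l, N (Sum.inr (Sum.inr q)) l * M l j = M (Sum.inr (Sum.inr q)) j := by
    intro q j
    rw [Fintype.sum_sum_type]
    simp [hN, Matrix.one_apply]
  have hrow3 : ∀ (i : Fin r) j, ∑ l, N (Sum.inr (Sum.inl i)) l * M l j =
      ∑ γ : G, hmat p σ α β f (Sum.inl (i, γ)) (rb_col j) := by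
    intro i j
    rw [Fintype.sum_sum_type]
    have e1 : ∑ x : Fin r ⊕ Fin m, N (Sum.inr (Sum.inl i)) (Sum.inr x) * M (Sum.inr x) j =
        hmat p σ α β f (Sum.inl (i, 1)) (rb_col j) := by
      simp [hN, hM, Matrix.one_apply, rb_row]
    have e2 : ∑ x : Fin r × {γ : G // γ ≠ 1}, N (Sum.inr (Sum.inl i)) (Sum.inl x) * M (Sum.inl x) j =
        ∑ γ : {γ : G // γ ≠ 1}, hmat p σ α β f (Sum.inl (i, γ.1)) (rb_col j) := by
      rw [Fintype.sum_prod_type]
      rw [Finset.sum_eq_single i]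
      · refine Finset.sum_congr rfl fun γ _ => ?_
        simp [hN, hM, rb_row]
      · intro b _ hb
        refine Finset.sum_eq_zero fun γ _ => ?_
        simp [hN, Ne.symm hb]
      · intro h
        exact absurd (Finset.mem_univ i) h
    rw [e1, e2]
    rw [← Fintype.sum_subtype_add_sum_subtype (fun γ : G => γ ≠ 1)
      (fun γ => hmat p σ α β f (Sum.inl (i, γ)) (rb_col j))]
    congr 1
    symm
    have : Unique {γ : G // ¬ γ ≠ 1} := ⟨⟨⟨1, by simp⟩⟩, fun x => Subtype.ext (by simpa using x.2)⟩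
    rw [Fintype.sum_unique]
    have hd : (default : {γ : G // ¬ γ ≠ 1}).1 = 1 := by
      simpa using (default : {γ : G // ¬ γ ≠ 1}).2
    rw [hd]
  have hblock := adet_block (fun i j => ∑ l, N i l * M l j) ?_ ?_
  · rw [hblock]
    congr 1
    · congr 1
      funext P j
      rw [hrow1]
      rfl
    · congr 1
      funext i j
      rcases i with i | q
      · rw [hrow3]
        rcases j with _ | j
        · simp [rb_col, hmat, hGc]
        · simp [rb_col, hmat, hGc]
      · rw [hrow2]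
        rcases j with _ | j
        · simp [hM, rb_row, rb_col, hmat]
        · simp [hM, rb_row, rb_col, hmat]
  · rintro (i | q) j
    · rw [hrow3]
      have h2 := hf i j.1
      rw [← h2]
      exact Fintype.sum_equiv (Equiv.mulLeft ((σ ^ (j.2 : ℕ))⁻¹)) _ _ (fun γ => rfl)
    · rw [hrow2]
      rfl
  · simp only [Fintype.card_prod, Fintype.card_fin, Fintype.card_subtype_compl,
      Fintype.card_subtype_eq, hGc, ne_eq]

theorem reg_id {p : ℕ} (hp : p.Prime) (hG : Nat.card G = p) {σ : G} (hσ : σ ≠ 1) {r m : ℕ}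
    (hm : 0 < m) {Q : Type} [Fintype Q] (hQ : Fintype.card Q + 1 = r + m) (α : Q → Fin r → ℝ)
    (β : Q → Fin m → ℝ) (hs : ∀ j, ∑ i, α j i + ∑ q, β j q = 0)
    (f : Fin r → Fin r → G → ℝ) (hf : ∀ i j, ∑ γ, f i j γ = 0) :
    adet (hmat p σ α β f) / (p * r + m) = (p : ℝ) ^ (m - 1) * (adet (fmat α β) / (r + m)) *
      ‖pX (fun χ : G →* ℂˣ => Matrix.det (Matrix.of fun i j : Fin r =>
        ∑ γ, (f i j γ : ℂ) * (χ γ : ℂ)))‖ := by
  classical
  have hp0 : (0 : ℝ) < p := by exact_mod_cast hp.pos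
  have hm0 : (0 : ℝ) < m := by exact_mod_cast hm
  have hr0 : (0 : ℝ) ≤ r := by positivity
  have h1 := rb_main (σ := σ) hG α β f hf
  have h2 := circ_minor hp hG hσ f hf
  have h3 := adet_col (fun (i : Fin r ⊕ Fin m) (j : Q) =>
      Sum.elim (fun i => (p : ℝ) * α j i) (fun q => (p : ℝ) * β j q) i)
    (by
      intro j
      rw [Fintype.sum_sum_type]
      simp only [Sum.elim_inl, Sum.elim_inr]
      rw [← Finset.mul_sum, ← Finset.mul_sum, ← mul_add, hs j, mul_zero])
    (by simp [hQ])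
    (Sum.elim (fun _ => (p : ℝ)) (fun _ => 1))
  have h4 := adet_scale (fmat α β) (fun j : Option Q => j.elim 1 (fun _ => (p : ℝ)))
  have h5 : adet (fun (i : Fin r ⊕ Fin m) (j : Option Q) => j.elim (1 : ℝ)
      (fun j => Sum.elim (fun i => (p : ℝ) * α j i) (fun q => (p : ℝ) * β j q) i)) =
      (p : ℝ) ^ (r + m - 1) * adet (fmat α β) := by
    have e1 : (fun (i : Fin r ⊕ Fin m) (j : Option Q) => j.elim (1 : ℝ)
      (fun j => Sum.elim (fun i => (p : ℝ) * α j i) (fun q => (p : ℝ) * β j q) i)) =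
      fun i j => (fun j : Option Q => j.elim (1 : ℝ) (fun _ => (p : ℝ))) j * fmat α β i j := by
      funext i j
      rcases i with i | q <;> rcases j with _ | j <;> simp [fmat]
    rw [e1, h4, Fintype.prod_option]
    have hc : Fintype.card Q = r + m - 1 := by omega
    simp [hc]
  have h6 : ∑ i : Fin r ⊕ Fin m, (Sum.elim (fun _ => (p : ℝ)) (fun _ => 1) i : ℝ) = p * r + m := by
    rw [Fintype.sum_sum_type]
    simp [mul_comm]
  have h7 : (Fintype.card (Fin r ⊕ Fin m) : ℝ) = r + m := by simp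
  rw [h5, h6, h7, abs_of_pos (by positivity)] at h3
  rw [h1, ← h2]
  have hpm : (p : ℝ) ^ (r + m - 1) = (p : ℝ) ^ (m - 1) * (p : ℝ) ^ r := by
    rw [← pow_add]
    congr 1
    omega
  rw [hpm] at h3
  have hne : ((r : ℝ) + m) ≠ 0 := by positivity
  have hne2 : ((p : ℝ) * r + m) ≠ 0 := by positivity
  field_simp
  linear_combination (adet (fun (P : Fin r × {γ : G // γ ≠ 1}) (j : Fin r × Fin (p - 1)) =>
        f P.1 j.1 ((σ ^ (j.2 : ℕ))⁻¹ * P.2.1))) * h3

end RB

end Pool.Agent.RSK
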