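import Pool.Agent.Lib_helper17.RS.Bas
import Pool.Agent.Lib_helper17.RS.P_PX1
import Pool.Agent.Lib_helper17.RS.P_CN
import Pool.Agent.Lib_helper17.RS.P_UR
import Pool.Agent.Lib_helper17.RS.P_RF1
import Pool.Agent.Lib_helper17.RS.P_RF2
import Pool.Agent.Lib_helper17.RS.P_LN
/-!
# Rubin-Stark: block NM1 (the norm formula)
-/

namespace Pool.Agent.RSK

set_option linter.unusedSectionVars false

open NumberField NumberField.InfinitePlace NumberField.Units IsDedekindDomain Filter Topology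
  Complex

section DEGP

variable {F H : Type} [Field F] [NumberField F] [Field H] [NumberField H] [Algebra F H]
  [IsGalois F H] {G : Type} [CommGroup G] [Fintype G] {p : ℕ} {ι : G ≃* (H ≃ₐ[F] H)}
  {S T : Finset (HeightOneSpectrum (𝓞 F))} {r : ℕ} {w : Fin r → Pl H}
  {fr : HeightOneSpectrum (𝓞 F) → G}

theorem nm1_sigma (hp : p.Prime) (hG : Nat.card G = p) : ∃ σ : G, σ ≠ 1 := by
  have h : 1 < Nat.card G := by rw [hG]; exact hp.one_lt
  have := (Finite.one_lt_card_iff_nontrivial).1 h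
  exact exists_ne 1

theorem norm_x (hp : p.Prime) (hG : Nat.card G = p) (hD : Data ι S T r w fr)
    {m : ℕ} (hm : Fintype.card (PS S) = r + m + 1)
    {c : (G →* ℂˣ) → ℂ} (hc : LeadX S T r fr c) {b : Fin r → UM ι S T} {x : MonoidAlgebra ℚ G}
    (hco : Core ι S T w c b x) :
    ‖pX (fun χ => evQ χ x)‖ * (hA S T * (mPlus G (UM ι S T) ⊔ mSpn G b).index) =
      (p : ℝ) ^ m * hA (ovr H S) (ovr H T) := by
  obtain ⟨σ, hσ⟩ := nm1_sigma hp hG
  obtain ⟨htH, hdH⟩ := tf_H hD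
  have htF : TFree S T := tf_F (H := H) htH
  obtain ⟨nF, ⟨bF⟩⟩ := un_exists hD.disj htF
  obtain ⟨nH, ⟨bH⟩⟩ := un_exists hdH htH
  obtain ⟨hnF, hrF, hhF, -⟩ := cnf hD.disj htF bF
  obtain ⟨hnH, hrH, hhH, -⟩ := cnf hdH htH bH
  have h1 := reg_idx hp hG hD hσ bF bH b hco.minus
  have h2 := reg_HF hp hG hD hσ hm hnF (bu bF) (fun j => Subtype.prop _) b hco.minus
  have h3 := lead_norm hp hG hD hc bF bH
  have h4 : ‖pX (fun χ => evQ χ x)‖ * ‖pX (fun χ : G →* ℂˣ => evR χ (wmat ι S T w b).det)‖ =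
      ‖pX c‖ := by
    rw [← norm_mul, ← pX_mul, ← pX_inv c]
    congr 1
    exact pX_congr fun χ hχ => hco.value χ hχ
  have h5 : (p : ℝ) ^ m * regS S (bu bF) * ‖pX (fun χ : G →* ℂˣ => evR χ (wmat ι S T w b).det)‖ =
      (mPlus G (UM ι S T) ⊔ mSpn G b).index * regS (ovr H S) (bu bH) := by
    rw [← h1, h2]
  refine mul_right_cancel₀ hrH.ne' ?_
  calc ‖pX (fun χ => evQ χ x)‖ * (hA S T * (mPlus G (UM ι S T) ⊔ mSpn G b).index) *
        regS (ovr H S) (bu bH)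
      = ‖pX (fun χ => evQ χ x)‖ * hA S T *
        ((mPlus G (UM ι S T) ⊔ mSpn G b).index * regS (ovr H S) (bu bH)) := by ring
    _ = ‖pX (fun χ => evQ χ x)‖ * hA S T * ((p : ℝ) ^ m * regS S (bu bF) *
        ‖pX (fun χ : G →* ℂˣ => evR χ (wmat ι S T w b).det)‖) := by rw [h5]
    _ = (p : ℝ) ^ m * ((‖pX (fun χ => evQ χ x)‖ *
        ‖pX (fun χ : G →* ℂˣ => evR χ (wmat ι S T w b).det)‖) * (hA S T * regS S (bu bF))) := by
        ring
    _ = (p : ℝ) ^ m * (‖pX c‖ * (hA S T * regS S (bu bF))) := by rw [h4]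
    _ = (p : ℝ) ^ m * (hA (ovr H S) (ovr H T) * regS (ovr H S) (bu bH)) := by rw [h3]
    _ = (p : ℝ) ^ m * hA (ovr H S) (ovr H T) * regS (ovr H S) (bu bH) := by ring

end DEGP

end Pool.Agent.RSK
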