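import Pool.Agent.Lib_helper17.RS.Bas
import Pool.Agent.Lib_helper17.RS.P_UP2
import Pool.Agent.Lib_helper17.RS.P_TW
import Pool.Agent.Lib_helper17.RS.P_PX2
set_option autoImplicit false

namespace Pool.Agent.RSK

set_option linter.unusedSectionVars false

open NumberField NumberField.InfinitePlace NumberField.Units IsDedekindDomain Filter Topology
  Complex

section RD1

variable {F₀ F L H : Type} [Field F₀] [NumberField F₀] [Field F] [NumberField F] [Field L]
  [NumberField L] [Field H] [NumberField H] [Algebra F₀ F] [Algebra F₀ L] [Algebra F₀ H]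
  [Algebra F H] [Algebra L H] [IsScalarTower F₀ F H] [IsScalarTower F₀ L H] [IsGalois F₀ H]
  [IsGalois F₀ F] [IsGalois F H] [IsGalois L H] {G : Type} [CommGroup G] [Fintype G] {p : ℕ}
  {ι : G ≃* (H ≃ₐ[F] H)} {S₀ T₀ : Finset (HeightOneSpectrum (𝓞 F₀))} {r : ℕ}
  {w : Fin r → Pl H} {fr : HeightOneSpectrum (𝓞 F) → G}

/-- conjugation of `Gal(H/F)` by an element of `Gal(H/L)`, on places -/
theorem rd1_conj (F₀ : Type) [Field F₀] [NumberField F₀] [Algebra F₀ F] [Algebra F₀ L] [Algebra F₀ H]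
    [IsScalarTower F₀ F H] [IsScalarTower F₀ L H] [IsGalois F₀ F] (δ : H ≃ₐ[L] H) (σ : H ≃ₐ[F] H) :
    ∃ τ : H ≃ₐ[F] H, (∀ W : Pl H, act σ (act δ W) = act δ (act τ W)) ∧ (τ = 1 → σ = 1) := by
  set δ₀ : H ≃ₐ[F₀] H := δ.restrictScalars F₀ with hδ₀
  set σ₀ : H ≃ₐ[F₀] H := σ.restrictScalars F₀ with hσ₀
  set τ₀ : H ≃ₐ[F₀] H := δ₀⁻¹ * σ₀ * δ₀ with hτ₀
  have hfix : ∀ x : F, τ₀ (algebraMap F H x) = algebraMap F H x := by
    intro x
    have h1 : δ₀ (algebraMap F H x) = algebraMap F H (AlgEquiv.restrictNormal δ₀ F x) :=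
      (AlgEquiv.restrictNormal_commutes δ₀ F x).symm
    show δ₀⁻¹ (σ₀ (δ₀ (algebraMap F H x))) = _
    rw [h1]
    have h2 : σ₀ (algebraMap F H (AlgEquiv.restrictNormal δ₀ F x)) =
        algebraMap F H (AlgEquiv.restrictNormal δ₀ F x) := σ.commutes _
    rw [h2, ← h1]
    exact δ₀.symm_apply_apply _
  set τ : H ≃ₐ[F] H := AlgEquiv.ofRingEquiv (f := τ₀.toRingEquiv) hfix with hτ
  have hττ : τ.restrictScalars F₀ = τ₀ := by
    ext x
    rfl
  refine ⟨τ, ?_, ?_⟩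
  · intro W
    rw [← act_restrict (F₀ := F₀) σ, ← act_restrict (F₀ := F₀) δ, ← act_restrict (F₀ := F₀) δ,
      ← act_restrict (F₀ := F₀) τ, hττ, ← hδ₀, ← hσ₀, ← act_mul, ← act_mul, hτ₀]
    congr 1
    group
  · intro h
    have h1 : τ₀ = 1 := by
      rw [← hττ, h]
      rfl
    have h2 : σ₀ = 1 := by
      have h3 : σ₀ = δ₀ * τ₀ * δ₀⁻¹ := by
        rw [hτ₀]
        group
      rw [h3, h1]
      group
    ext x
    have h3 := congrArg (fun f : H ≃ₐ[F₀] H => f x) h2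
    exact h3

theorem rd1_inS (V : Pl F) : InS (ovr F S₀) V ↔ InS S₀ (dn F₀ V) := by
  rcases V with v | v
  · exact Iff.rfl
  · show v ∈ ovr F S₀ ↔ v.under (𝓞 F₀) ∈ S₀
    exact mem_ovr

/-- `Gal(H/L)` permutes the split places -/
theorem perm_w (hA : Afn F₀ F L H ι p) (hD : Data ι (ovr F S₀) (ovr F T₀) r w fr)
    (δ : H ≃ₐ[L] H) :
    ∃ (π : Equiv.Perm (Fin r)) (g : Fin r → G), ∀ i, act δ (w i) = act (ι (g i)) (w (π i)) := by
  have h1 : ∀ i, ∃ i' : Fin r, dn F (act δ (w i)) = dn F (w i') := by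
    intro i
    apply hD.all
    · rw [rd1_inS, dn_dn, ← act_restrict (F₀ := F₀) δ, dn_act, ← dn_dn (F := F), ← rd1_inS]
      exact hD.mem i
    · intro σ hσ
      obtain ⟨τ, hτ, hτ1⟩ := rd1_conj F₀ δ σ
      apply hτ1
      apply hD.split i
      rw [hτ] at hσ
      have h2 := congrArg (act δ⁻¹) hσ
      rw [← act_mul, ← act_mul, inv_mul_cancel, act_one, act_one] at h2
      exact h2
  choose π hπ using h1
  have hg : ∀ i, ∃ g : G, act δ (w i) = act (ι g) (w (π i)) := by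
    intro i
    obtain ⟨σ, hσ⟩ := act_trans (F := F) (hπ i).symm
    refine ⟨ι.symm σ, ?_⟩
    rw [MulEquiv.apply_symm_apply, hσ]
  choose g hg using hg
  have hinj : Function.Injective π := by
    intro i j hij
    apply hD.inj
    have h2 : dn F (act δ (w i)) = dn F (act δ (w j)) := by
      rw [hπ i, hπ j, hij]
    obtain ⟨σ, hσ⟩ := act_trans (F := F) h2
    obtain ⟨τ, hτ, _⟩ := rd1_conj F₀ δ σ
    rw [hτ] at hσ
    have h3 := congrArg (act δ⁻¹) hσ
    rw [← act_mul, ← act_mul, inv_mul_cancel, act_one, act_one] at h3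
    rw [← h3, dn_act]
  exact ⟨Equiv.ofBijective π (Finite.injective_iff_bijective.1 hinj), g, hg⟩

/-- symmetry of determinants -/
theorem det_sym {r : ℕ} (c : MulAut G) (π : Equiv.Perm (Fin r)) (g : Fin r → G)
    (f : Fin r → Fin r → G → ℚ) (hf : ∀ i j γ, f i j γ = f (π i) j (c γ * g i)) :
    ∃ (h : G) (ε : ℤ), (ε = 1 ∨ ε = -1) ∧
      MonoidAlgebra.mapDomain c (Matrix.det (Matrix.of fun i j : Fin r =>
        ∑ γ : G, MonoidAlgebra.single γ (f i j γ))) =
      MonoidAlgebra.single h (ε : ℚ) * Matrix.det (Matrix.of fun i j : Fin r =>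
        ∑ γ : G, MonoidAlgebra.single γ (f i j γ)) := by
  set M : Matrix (Fin r) (Fin r) (MonoidAlgebra ℚ G) := Matrix.of fun i j : Fin r =>
        ∑ γ : G, MonoidAlgebra.single γ (f i j γ) with hM
  have h1 : MonoidAlgebra.mapDomain c M.det = (MonoidAlgebra.mapDomainRingHom ℚ (c : G →* G)) M.det := rfl
  have h2 : (MonoidAlgebra.mapDomainRingHom ℚ (c : G →* G)).mapMatrix M =
      Matrix.of fun i j => (MonoidAlgebra.single (g i)⁻¹ (1 : ℚ)) * (M.submatrix π id) i j := by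
    ext1 i j
    show (MonoidAlgebra.mapDomainRingHom ℚ (c : G →* G)) (∑ γ : G, MonoidAlgebra.single γ (f i j γ)) =
      (MonoidAlgebra.single (g i)⁻¹ (1 : ℚ)) * ∑ γ : G, MonoidAlgebra.single γ (f (π i) j γ)
    rw [map_sum, Finset.mul_sum]
    have h3 : ∀ γ : G, (MonoidAlgebra.mapDomainRingHom ℚ (c : G →* G)) (MonoidAlgebra.single γ (f i j γ)) =
        MonoidAlgebra.single (c γ) (f i j γ) := fun γ => MonoidAlgebra.mapDomain_single
    simp only [h3, MonoidAlgebra.single_mul_single, one_mul]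
    refine Fintype.sum_equiv (c.toEquiv.trans (Equiv.mulRight (g i))) _ _ fun γ => ?_
    show MonoidAlgebra.single (c γ) (f i j γ) = MonoidAlgebra.single ((g i)⁻¹ * (c γ * g i)) (f (π i) j (c γ * g i))
    rw [← hf i j γ]
    congr 1
    rw [mul_comm (c γ), inv_mul_cancel_left]
  have h4 : (∏ i, (MonoidAlgebra.single (g i)⁻¹ (1 : ℚ) : MonoidAlgebra ℚ G)) =
      MonoidAlgebra.single (∏ i, (g i)⁻¹) 1 := by
    have h5 := map_prod (MonoidAlgebra.of ℚ G) (fun i => (g i)⁻¹) Finset.univ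
    exact h5.symm
  refine ⟨∏ i, (g i)⁻¹, (Equiv.Perm.sign π : ℤ), ?_, ?_⟩
  · rcases Int.units_eq_one_or (Equiv.Perm.sign π) with h | h <;> simp [h]
  · rw [h1, RingHom.map_det, h2, Matrix.det_mul_column, Matrix.det_permute, h4, ← mul_assoc]
    congr 1
    rcases Int.units_eq_one_or (Equiv.Perm.sign π) with h | h
    · simp [h]
    · rw [h]
      simp

theorem rd1_evQ_map (χ : G →* ℂˣ) (e : MulAut G) (x : MonoidAlgebra ℚ G) :
    evQ χ (MonoidAlgebra.mapDomain e x) = evQ (χ.comp (e : G →* G)) x := by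
  have h1 : MonoidAlgebra.mapDomain e x = (MonoidAlgebra.mapDomainRingHom ℚ (e : G →* G)) x := rfl
  have h2 : (evQ χ : MonoidAlgebra ℚ G →+* ℂ).comp (MonoidAlgebra.mapDomainRingHom ℚ (e : G →* G)) =
      (evQ (χ.comp (e : G →* G)) : MonoidAlgebra ℚ G →+* ℂ) := by
    apply MonoidAlgebra.ringHom_ext
    · intro q
      simp [evQ]
    · intro g
      simp [evQ]
  rw [h1]
  exact congrArg (fun f : MonoidAlgebra ℚ G →+* ℂ => f x) h2

theorem inv_sym {x Y : MonoidAlgebra ℚ G} (hx : toQ G (nrm G) * x = 0) {q : ℚ} (hq : q ≠ 0)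
    (hxY : ∀ χ : G →* ℂˣ, χ ≠ 1 → evQ χ x * evQ χ Y = q)
    (hY : ∀ e : MulAut G, ∃ (g : G) (ε : ℤ), (ε = 1 ∨ ε = -1) ∧
        MonoidAlgebra.mapDomain e Y = MonoidAlgebra.single g (ε : ℚ) * Y) :
    ∀ e : MulAut G, ∃ (g : G) (ε : ℤ), (ε = 1 ∨ ε = -1) ∧
        MonoidAlgebra.mapDomain e x = MonoidAlgebra.single g (ε : ℚ) * x := by
  intro e
  obtain ⟨g, ε, hε, he⟩ := hY e
  have hev : ∀ (χ : G →* ℂˣ) (h : G) (t : ℚ), evQ χ (MonoidAlgebra.single h t) = (t : ℂ) * (χ h : ℂ) := by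
    intro χ h t
    simp [evQ, MonoidAlgebra.lift_single, Algebra.smul_def]
  have hε2 : (ε : ℂ) * (ε : ℂ) = 1 := by
    rcases hε with h | h <;> simp [h]
  refine ⟨g⁻¹, ε, hε, ?_⟩
  apply evQ_inj
  intro χ
  rw [rd1_evQ_map, map_mul, hev]
  by_cases hχ : χ = 1
  · subst hχ
    have h1 : evQ (1 : G →* ℂˣ) x = 0 := (evQ_one_nrm x).1 hx
    have h2 : (1 : G →* ℂˣ).comp (e : G →* G) = 1 := by
      ext y
      rfl
    rw [h2, h1, mul_zero]
  · have hχ' : χ.comp (e : G →* G) ≠ 1 := by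
      intro h
      apply hχ
      ext y
      have h1 := congrArg (fun f : G →* ℂˣ => f (e.symm y)) h
      simp only [MonoidHom.comp_apply, MonoidHom.one_apply] at h1
      have h2 : (e : G →* G) (e.symm y) = y := MulEquiv.apply_symm_apply e y
      rw [h2] at h1
      rw [h1]
      rfl
    have h1 := hxY χ hχ
    have h2 := hxY _ hχ'
    rw [← rd1_evQ_map χ e Y, he, map_mul, hev] at h2
    have hqc : (q : ℂ) ≠ 0 := by exact_mod_cast hq
    have hY0 : evQ χ Y ≠ 0 := by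
      intro h
      rw [h, mul_zero] at h1
      exact hqc h1.symm
    have h3 : evQ (χ.comp (e : G →* G)) x * ((ε : ℂ) * (χ g : ℂ)) = evQ χ x := by
      apply mul_right_cancel₀ hY0
      rw [h1, ← h2]
      push_cast
      ring
    rw [← h3]
    have h4 : ((χ g⁻¹ : ℂˣ) : ℂ) * (χ g : ℂ) = 1 := by
      rw [← Units.val_mul, ← map_mul]
      simp
    push_cast
    calc evQ (χ.comp (e : G →* G)) x = ((ε : ℂ) * (ε : ℂ)) * (((χ g⁻¹ : ℂˣ) : ℂ) * (χ g : ℂ)) * evQ (χ.comp (e : G →* G)) x := by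
          rw [hε2, h4, one_mul, one_mul]
      _ = _ := by ring

end RD1

example : type_of% @perm_w := @perm_w
example : type_of% @det_sym := @det_sym
example : type_of% @inv_sym := @inv_sym

end Pool.Agent.RSK
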