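import Pool.Agent.Lib_helper17.RS.Bas
/-!
# Rubin-Stark, block RC: comparison of regulators
-/

namespace Pool.Agent.RSK

open Matrix

/-- a real solution of rational linear equations is a real combination of rational solutions -/
theorem ker_span {P Z : Type} [Fintype P] [Fintype Z] (A : Matrix Z P ℚ) (f : P → ℝ)
    (hf : A.map (algebraMap ℚ ℝ) *ᵥ f = 0) :
    f ∈ Submodule.span ℝ ((fun (g : P → ℚ) i => (g i : ℝ)) '' {g | A *ᵥ g = 0}) := by
  classical
  let V : Submodule ℚ ℝ := Submodule.span ℚ (Set.range f)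
  have : Module.Finite ℚ V := Module.Finite.span_of_finite ℚ (Set.finite_range f)
  let b := Module.finBasis ℚ V
  let v : P → V := fun i => ⟨f i, Submodule.subset_span ⟨i, rfl⟩⟩
  let c : Fin (Module.finrank ℚ V) → P → ℚ := fun l i => b.repr (v i) l
  have hf' : f = ∑ l, (b l : ℝ) • (fun i => (c l i : ℝ)) := by
    funext i
    have h1 := congrArg Subtype.val (b.sum_repr (v i))
    rw [Submodule.coe_sum] at h1
    rw [Finset.sum_apply]
    have h2 : f i = ∑ l, (((b.repr (v i) l) • b l : V) : ℝ) := h1.symm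
    rw [h2]
    refine Finset.sum_congr rfl fun l _ => ?_
    rw [Submodule.coe_smul, Pi.smul_apply, smul_eq_mul, Rat.smul_def, mul_comm]
  have hc : ∀ l, A *ᵥ c l = 0 := by
    intro l
    funext z
    have h1 : ∑ i, A z i • v i = 0 := by
      apply Subtype.ext
      rw [Submodule.coe_sum]
      have h2 := congrFun hf z
      simp only [Matrix.mulVec, dotProduct, Matrix.map_apply, Pi.zero_apply] at h2
      rw [ZeroMemClass.coe_zero, ← h2]
      refine Finset.sum_congr rfl fun i _ => ?_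
      rw [Submodule.coe_smul, Rat.smul_def]
      rfl
    have h3 := congrArg (fun x => b.repr x l) h1
    simp only [map_sum, map_smul, map_zero, Finsupp.coe_zero, Pi.zero_apply,
      Finsupp.coe_finsetSum, Finset.sum_apply, Finsupp.coe_smul, Pi.smul_apply,
      smul_eq_mul] at h3
    simpa [Matrix.mulVec, dotProduct, c] using h3
  rw [hf']
  exact Submodule.sum_mem _ fun l _ => Submodule.smul_mem _ _
    (Submodule.subset_span ⟨c l, hc l, rfl⟩)

/-- coefficients with respect to a basis of the rational solutions -/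
theorem rc_coef {P Z : Type} [Fintype P] [Fintype Z] (A : Matrix Z P ℚ) {I : Type} [Fintype I]
    (v : I → P → ℚ) (hv : ∀ g, A *ᵥ g = 0 → g ∈ Submodule.span ℚ (Set.range v)) (f : P → ℝ)
    (hf : A.map (algebraMap ℚ ℝ) *ᵥ f = 0) :
    ∃ c : I → ℝ, ∀ i, f i = ∑ l, c l * (v l i : ℝ) := by
  classical
  have h1 := ker_span A f hf
  have h2 : Submodule.span ℝ ((fun (g : P → ℚ) i => (g i : ℝ)) '' {g | A *ᵥ g = 0}) ≤
      Submodule.span ℝ (Set.range fun (l : I) i => (v l i : ℝ)) := by
    rw [Submodule.span_le]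
    rintro _ ⟨g, hg, rfl⟩
    obtain ⟨c, hc⟩ := (Submodule.mem_span_range_iff_exists_fun ℚ).1 (hv g hg)
    rw [SetLike.mem_coe, Submodule.mem_span_range_iff_exists_fun]
    refine ⟨fun l => (c l : ℝ), ?_⟩
    funext i
    rw [← hc]
    simp [Finset.sum_apply, smul_eq_mul]
  obtain ⟨c, hc⟩ := (Submodule.mem_span_range_iff_exists_fun ℝ).1 (h2 h1)
  refine ⟨c, fun i => ?_⟩
  rw [← hc]
  simp [Finset.sum_apply, smul_eq_mul]

theorem rc_card {I J : Type} [Fintype I] [Fintype J] [DecidableEq J] (C : Matrix I J ℝ)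
    (h : ∀ x : J → ℝ, C *ᵥ x = 0 → x = 0) : Fintype.card J ≤ Fintype.card I := by
  classical
  have h1 : Function.Injective C.mulVecLin := by
    rw [← LinearMap.ker_eq_bot, LinearMap.ker_eq_bot']
    intro x hx
    exact h x hx
  have h2 := LinearMap.finrank_le_finrank_of_injective h1
  simpa using h2

theorem rc_main {P Q Zp Zm : Type} [Fintype P] [Fintype Q] [DecidableEq Q] [Fintype Zp]
    [Fintype Zm] {r : ℕ} (Ap : Matrix Zp P ℚ) (Am : Matrix Zm P ℚ) (ρ : Q ⊕ Fin r → P)
    (ρ₀ : Q → P) (v : Q → P → ℚ) (y : Fin r → P → ℚ)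
    (hv : ∀ g, Ap *ᵥ g = 0 → g ∈ Submodule.span ℚ (Set.range v))
    (hy : ∀ g, Am *ᵥ g = 0 → g ∈ Submodule.span ℚ (Set.range y))
    (hy0 : ∀ j, Am *ᵥ y j = 0)
    (a : Q → P → ℝ) (b : Fin r → P → ℝ) (ha : ∀ j, Ap.map (algebraMap ℚ ℝ) *ᵥ a j = 0)
    (hb : ∀ j, Am.map (algebraMap ℚ ℝ) *ᵥ b j = 0)
    (hdet₀ : Matrix.det (Matrix.of fun i j => a j (ρ₀ i)) ≠ 0) :
    ∃ (y : Fin r → P → ℚ) (C : Matrix (Fin r) (Fin r) ℝ) (q : ℚ), (∀ j, Am *ᵥ y j = 0) ∧
      (∀ j i, b j i = ∑ l, C l j * (y l i : ℝ)) ∧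
      |Matrix.det (Matrix.of fun i j => Sum.elim a b j (ρ i))| =
        q * |Matrix.det (Matrix.of fun i j => a j (ρ₀ i))| * |C.det| := by
  classical
  choose A' hA' using fun j => rc_coef Ap v hv (a j) (ha j)
  choose C' hC' using fun j => rc_coef Am y hy (b j) (hb j)
  let A1 : Matrix Q Q ℝ := Matrix.of fun l j => A' j l
  let C1 : Matrix (Fin r) (Fin r) ℝ := Matrix.of fun l j => C' j l
  let D1 : Matrix (Q ⊕ Fin r) (Q ⊕ Fin r) ℚ := Matrix.of fun i j => Sum.elim v y j (ρ i)
  let D0 : Matrix Q Q ℚ := Matrix.of fun i j => v j (ρ₀ i)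
  have e0 : (Matrix.of fun i j => a j (ρ₀ i)) = D0.map (algebraMap ℚ ℝ) * A1 := by
    ext i j
    rw [Matrix.mul_apply, Matrix.of_apply, hA' j]
    refine Finset.sum_congr rfl fun l _ => ?_
    simp [D0, A1, mul_comm]
  have e1 : (Matrix.of fun i j => Sum.elim a b j (ρ i)) =
      D1.map (algebraMap ℚ ℝ) * Matrix.fromBlocks A1 0 0 C1 := by
    ext i j
    rw [Matrix.mul_apply, Fintype.sum_sum_type, Matrix.of_apply]
    rcases j with j | j
    · rw [Sum.elim_inl, hA' j]
      simp [D1, A1, mul_comm]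
    · rw [Sum.elim_inr, hC' j]
      simp [D1, C1, mul_comm]
  have d0 : Matrix.det (Matrix.of fun i j => a j (ρ₀ i)) = (D0.det : ℝ) * A1.det := by
    rw [e0, Matrix.det_mul]
    congr 1
    exact (RingHom.map_det (algebraMap ℚ ℝ) D0).symm
  have d1 : Matrix.det (Matrix.of fun i j => Sum.elim a b j (ρ i)) =
      (D1.det : ℝ) * (A1.det * C1.det) := by
    rw [e1, Matrix.det_mul, Matrix.det_fromBlocks_zero₂₁]
    congr 1
    exact (RingHom.map_det (algebraMap ℚ ℝ) D1).symm
  have hD0 : (D0.det : ℝ) ≠ 0 := by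
    intro h
    exact hdet₀ (by rw [d0, h, zero_mul])
  refine ⟨y, C1, |D1.det| / |D0.det|, hy0, fun j i => by rw [hC' j i]; rfl, ?_⟩
  rw [d0, d1, Rat.cast_div, Rat.cast_abs, Rat.cast_abs, abs_mul, abs_mul, abs_mul]
  have h3 : |(D0.det : ℝ)| ≠ 0 := abs_ne_zero.2 hD0
  field_simp

theorem rat_form {P Q Zp Zm : Type} [Fintype P] [Fintype Q] [DecidableEq Q] [Fintype Zp]
    [Fintype Zm] {r : ℕ} (Ap : Matrix Zp P ℚ) (Am : Matrix Zm P ℚ) (ρ : Q ⊕ Fin r → P)
    (ρ₀ : Q → P)
    (hinj : ∀ f g : P → ℚ, Ap *ᵥ f = 0 → Am *ᵥ g = 0 → (∀ i, f (ρ i) + g (ρ i) = 0) →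
      f = 0 ∧ g = 0)
    (a : Q → P → ℝ) (b : Fin r → P → ℝ) (ha : ∀ j, Ap.map (algebraMap ℚ ℝ) *ᵥ a j = 0)
    (hb : ∀ j, Am.map (algebraMap ℚ ℝ) *ᵥ b j = 0)
    (hdet : Matrix.det (Matrix.of fun i j => Sum.elim a b j (ρ i)) ≠ 0)
    (hdet₀ : Matrix.det (Matrix.of fun i j => a j (ρ₀ i)) ≠ 0) :
    ∃ (y : Fin r → P → ℚ) (C : Matrix (Fin r) (Fin r) ℝ) (q : ℚ), (∀ j, Am *ᵥ y j = 0) ∧
      (∀ j i, b j i = ∑ l, C l j * (y l i : ℝ)) ∧
      |Matrix.det (Matrix.of fun i j => Sum.elim a b j (ρ i))| =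
        q * |Matrix.det (Matrix.of fun i j => a j (ρ₀ i))| * |C.det| := by
  classical
  let V : Submodule ℚ (P → ℚ) := LinearMap.ker Ap.mulVecLin
  let W : Submodule ℚ (P → ℚ) := LinearMap.ker Am.mulVecLin
  have hVmem : ∀ g : P → ℚ, Ap *ᵥ g = 0 → g ∈ V := fun g hg => by
    rw [LinearMap.mem_ker]; exact hg
  have hWmem : ∀ g : P → ℚ, Am *ᵥ g = 0 → g ∈ W := fun g hg => by
    rw [LinearMap.mem_ker]; exact hg
  -- dimension bound
  have hdim : Module.finrank ℚ V + Module.finrank ℚ W ≤ Fintype.card Q + r := by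
    let Φ : (V × W) →ₗ[ℚ] (Q ⊕ Fin r → ℚ) :=
      { toFun := fun fg i => (fg.1 : P → ℚ) (ρ i) + (fg.2 : P → ℚ) (ρ i)
        map_add' := fun x y => by
          funext i
          simp only [Prod.fst_add, Prod.snd_add, Submodule.coe_add, Pi.add_apply]
          ring
        map_smul' := fun c x => by
          funext i
          simp only [Prod.smul_fst, Prod.smul_snd, Submodule.coe_smul, Pi.smul_apply,
            smul_eq_mul, RingHom.id_apply]
          ring }
    have hΦ : Function.Injective Φ := by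
      rw [← LinearMap.ker_eq_bot, LinearMap.ker_eq_bot']
      rintro ⟨f, g⟩ hfg
      have h1 := hinj (f : P → ℚ) (g : P → ℚ) f.2 g.2 (fun i => congrFun hfg i)
      exact Prod.ext (Subtype.ext h1.1) (Subtype.ext h1.2)
    have h2 := LinearMap.finrank_le_finrank_of_injective hΦ
    rw [Module.finrank_prod] at h2
    simpa using h2
  let bv := Module.finBasis ℚ V
  let bw := Module.finBasis ℚ W
  have hvspan : ∀ g, Ap *ᵥ g = 0 →
      g ∈ Submodule.span ℚ (Set.range fun l => (bv l : P → ℚ)) := by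
    intro g hg
    rw [Submodule.mem_span_range_iff_exists_fun]
    refine ⟨fun l => bv.repr ⟨g, hVmem g hg⟩ l, ?_⟩
    have h1 := congrArg Subtype.val (bv.sum_repr ⟨g, hVmem g hg⟩)
    rw [Submodule.coe_sum] at h1
    simpa using h1
  have hwspan : ∀ g, Am *ᵥ g = 0 →
      g ∈ Submodule.span ℚ (Set.range fun l => (bw l : P → ℚ)) := by
    intro g hg
    rw [Submodule.mem_span_range_iff_exists_fun]
    refine ⟨fun l => bw.repr ⟨g, hWmem g hg⟩ l, ?_⟩
    have h1 := congrArg Subtype.val (bw.sum_repr ⟨g, hWmem g hg⟩)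
    rw [Submodule.coe_sum] at h1
    simpa using h1
  have hQ : Fintype.card Q ≤ Module.finrank ℚ V := by
    choose A' hA' using fun j => rc_coef Ap (fun l => (bv l : P → ℚ)) hvspan (a j) (ha j)
    have := rc_card (Matrix.of fun l j => A' j l) (fun x hx => by
      refine Matrix.eq_zero_of_mulVec_eq_zero hdet₀ ?_
      funext i
      simp only [Matrix.mulVec, dotProduct, Matrix.of_apply, Pi.zero_apply]
      have h1 : ∀ l, ∑ j, A' j l * x j = 0 := fun l => by
        have := congrFun hx l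
        simpa [Matrix.mulVec, dotProduct] using this
      calc ∑ j, a j (ρ₀ i) * x j
          = ∑ j, ∑ l, (A' j l * x j) * ((bv l : P → ℚ) (ρ₀ i) : ℝ) := by
            refine Finset.sum_congr rfl fun j _ => ?_
            rw [hA' j, Finset.sum_mul]
            refine Finset.sum_congr rfl fun l _ => ?_
            ring
        _ = ∑ l, (∑ j, A' j l * x j) * ((bv l : P → ℚ) (ρ₀ i) : ℝ) := by
            rw [Finset.sum_comm]
            refine Finset.sum_congr rfl fun l _ => ?_
            rw [Finset.sum_mul]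
        _ = 0 := by simp [h1])
    simpa using this
  have hR : r ≤ Module.finrank ℚ W := by
    choose C' hC' using fun j => rc_coef Am (fun l => (bw l : P → ℚ)) hwspan (b j) (hb j)
    have := rc_card (Matrix.of fun l j => C' j l) (fun x hx => by
      have h1 : ∀ l, ∑ j, C' j l * x j = 0 := fun l => by
        have := congrFun hx l
        simpa [Matrix.mulVec, dotProduct] using this
      have h2 : Sum.elim (0 : Q → ℝ) x = 0 := by
        refine Matrix.eq_zero_of_mulVec_eq_zero hdet ?_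
        funext i
        simp only [Matrix.mulVec, dotProduct, Matrix.of_apply, Pi.zero_apply,
          Fintype.sum_sum_type, Sum.elim_inl, Sum.elim_inr, mul_zero, Finset.sum_const_zero,
          zero_add]
        calc ∑ j, b j (ρ i) * x j
            = ∑ j, ∑ l, (C' j l * x j) * ((bw l : P → ℚ) (ρ i) : ℝ) := by
              refine Finset.sum_congr rfl fun j _ => ?_
              rw [hC' j, Finset.sum_mul]
              refine Finset.sum_congr rfl fun l _ => ?_
              ring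
          _ = ∑ l, (∑ j, C' j l * x j) * ((bw l : P → ℚ) (ρ i) : ℝ) := by
              rw [Finset.sum_comm]
              refine Finset.sum_congr rfl fun l _ => ?_
              rw [Finset.sum_mul]
          _ = 0 := by simp [h1]
      funext j
      exact congrFun h2 (Sum.inr j))
    simpa using this
  have hV : Module.finrank ℚ V = Fintype.card Q := by omega
  have hW : Module.finrank ℚ W = r := by omega
  let eV : Q ≃ Fin (Module.finrank ℚ V) := Fintype.equivOfCardEq (by simp [hV])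
  let eW : Fin r ≃ Fin (Module.finrank ℚ W) := finCongr hW.symm
  refine rc_main Ap Am ρ ρ₀ (fun q => (bv (eV q) : P → ℚ)) (fun l => (bw (eW l) : P → ℚ))
    ?_ ?_ ?_ a b ha hb hdet₀
  · intro g hg
    have h1 := hvspan g hg
    have h2 : (Set.range fun q => (bv (eV q) : P → ℚ)) = Set.range fun l => (bv l : P → ℚ) :=
      eV.surjective.range_comp (fun l => (bv l : P → ℚ))
    rw [h2]
    exact h1
  · intro g hg
    have h1 := hwspan g hg
    have h2 : (Set.range fun q => (bw (eW q) : P → ℚ)) = Set.range fun l => (bw l : P → ℚ) :=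
      eW.surjective.range_comp (fun l => (bw l : P → ℚ))
    rw [h2]
    exact h1
  · intro j
    exact (bw (eW j)).2

end Pool.Agent.RSK
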