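import Pool.Agent.Lib_helper17.RS.Bas
import Pool.Agent.Lib_helper17.RS.P_AD1
import Pool.Agent.Lib_helper17.RS.P_AD2
import Pool.Agent.Lib_helper17.RS.P_PF
import Pool.Agent.Lib_helper17.RS.P_UP1
/-! RS block RE: evaluation of regulators of a subfield at places of `H`. -/

namespace Pool.Agent.RSK

open NumberField IsDedekindDomain Filter Topology Complex

section RE

variable {L H : Type} [Field L] [NumberField L] [Field H] [NumberField H] [Algebra L H]

theorem re_place (S : Finset (HeightOneSpectrum (𝓞 L))) (P : PS S) :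
    ∃ W : PS (ovr H S), dn L W.pl = P.pl := by
  obtain ⟨W, hW⟩ := dn_surj (H := H) P.pl
  rcases W with w | w
  · exact ⟨Sum.inl w, hW⟩
  · have h1 : w.under (𝓞 L) ∈ S := by
      rcases P with v | v
      · have h2 : (Sum.inr (w.under (𝓞 L)) : Pl L) = Sum.inl v := hW
        cases h2
      · have h2 : (Sum.inr (w.under (𝓞 L)) : Pl L) = Sum.inr v.1 := hW
        rw [Sum.inr_injective h2]
        exact v.2
    exact ⟨Sum.inr ⟨w, mem_ovr.2 h1⟩, hW⟩

theorem reg_eval (S : Finset (HeightOneSpectrum (𝓞 L))) {Q : Type} [Fintype Q] [DecidableEq Q]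
    (hQ : Fintype.card (PS S) = Fintype.card Q + 1) :
    ∃ (P₀ : PS S) (ρ : Q → PS (ovr H S)) (N : ℕ), 0 < N ∧
      (∀ P : PS S, P ≠ P₀ → ∃ i, dn L (ρ i).pl = P.pl) ∧
      ∀ (T : Finset (HeightOneSpectrum (𝓞 L))) (u : Q → Lˣ), (∀ j, u j ∈ Un S T) →
        N * regS S u = |Matrix.det (Matrix.of fun i j =>
          lg (ρ i).pl (algebraMap L H (u j : L)))| := by
  classical
  obtain ⟨P₀⟩ : Nonempty (PS S) := ⟨Sum.inl (Classical.arbitrary (InfinitePlace L))⟩
  have hcard : Fintype.card Q = Fintype.card {P : PS S // P ≠ P₀} := by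
    have h1 := Fintype.card_subtype_compl (fun P : PS S => P = P₀)
    rw [Fintype.card_subtype_eq] at h1
    have h2 : Fintype.card {P : PS S // P ≠ P₀} = Fintype.card (PS S) - 1 := h1
    omega
  obtain ⟨e⟩ : Nonempty (Q ≃ {P : PS S // P ≠ P₀}) := ⟨Fintype.equivOfCardEq hcard⟩
  choose W hW using re_place (H := H) S
  choose n hn0 hn using fun i : Q => lg_up (F := L) (W (e i).1).pl
  refine ⟨P₀, fun i => W (e i).1, ∏ i, n i, Finset.prod_pos fun i _ => hn0 i, ?_, ?_⟩
  · intro P hP
    refine ⟨e.symm ⟨P, hP⟩, ?_⟩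
    show dn L (W (e (e.symm ⟨P, hP⟩)).1).pl = P.pl
    rw [e.apply_symm_apply]
    exact hW P
  · intro T u hu
    have h1 : lmat S u = fun (P : PS S) (j : Option Q) => j.elim 1
        ((fun (P : PS S) (j : Q) => lg P.pl (u j : L)) P) := by
      funext P j
      cases j <;> rfl
    have h2 := adet_minor (fun (P : PS S) (j : Q) => lg P.pl (u j : L))
      (fun j => sum_lg (hu j)) hQ P₀
    have hpos : (0 : ℝ) < Fintype.card (PS S) := by
      rw [hQ]
      positivity
    have h3 : regS S u = |Matrix.det (Matrix.of fun i j : Q => lg (e i).1.pl (u j : L))| := by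
      unfold regS
      rw [h1, ← h2, mul_div_assoc, div_self hpos.ne', mul_one]
      exact adet_eq (fun (i : {P : PS S // P ≠ P₀}) (j : Q) => lg i.1.pl (u j : L)) e
    have h4 : (Matrix.of fun i j => lg (W (e i).1).pl (algebraMap L H (u j : L)) : Matrix Q Q ℝ) =
        Matrix.of fun i j => (n i : ℝ) * (Matrix.of fun i j : Q => lg (e i).1.pl (u j : L)) i j := by
      ext i j
      simp only [Matrix.of_apply]
      rw [hn i, hW]
    rw [h3, h4, Matrix.det_mul_column, abs_mul]
    congr 1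
    rw [← Nat.cast_prod, Nat.abs_cast]

end RE


end Pool.Agent.RSK
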