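import Pool.Agent.Lib_helper17.RS.Bas
import Pool.Agent.Lib_helper17.RS.P_PF
import Pool.Agent.Lib_helper17.RS.P_UP1
import Pool.Agent.Lib_helper17.RS.P_UP2
import Pool.Agent.Lib_helper17.RS.P_TW
import Pool.Agent.Lib_helper17.RS.P_RE
import Pool.Agent.Lib_helper17.RS.P_RC
import Pool.Agent.Lib_helper17.RS.P_GC
import Pool.Agent.Lib_helper17.RS.P_RD1
/-! Rubin-Stark, block RD2: rationality of the determinant -/

namespace Pool.Agent.RSK

set_option linter.unusedSectionVars false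

open NumberField NumberField.InfinitePlace NumberField.Units IsDedekindDomain Filter Topology
  Complex

/-! ### places as a subtype -/

section A

variable {k : Type} [Field k] [NumberField k]

/-- the places in `S` -/
abbrev rd2_P (S : Finset (HeightOneSpectrum (𝓞 k))) : Type := {W : Pl k // InS S W}

theorem rd2_inS {S : Finset (HeightOneSpectrum (𝓞 k))} (P : PS S) : InS S P.pl := by
  rcases P with w | v
  · trivial
  · exact v.2

theorem rd2_cast {S S' : Finset (HeightOneSpectrum (𝓞 k))} (h : S = S') {W : Pl k}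
    (hW : InS S W) : InS S' W := by
  subst h
  exact hW

/-- the comparison -/
def rd2_map (S : Finset (HeightOneSpectrum (𝓞 k))) (P : PS S) : rd2_P S := ⟨P.pl, rd2_inS P⟩

theorem rd2_bij (S : Finset (HeightOneSpectrum (𝓞 k))) : Function.Bijective (rd2_map S) := by
  constructor
  · rintro (w | v) (w' | v') h
    · have h1 : (Sum.inl w : Pl k) = Sum.inl w' := congrArg Subtype.val h
      rw [Sum.inl.inj h1]
    · have h1 : (Sum.inl w : Pl k) = Sum.inr v'.1 := congrArg Subtype.val h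
      cases h1
    · have h1 : (Sum.inr v.1 : Pl k) = Sum.inl w' := congrArg Subtype.val h
      cases h1
    · have h1 : (Sum.inr v.1 : Pl k) = Sum.inr v'.1 := congrArg Subtype.val h
      rw [Subtype.ext (Sum.inr.inj h1)]
  · rintro ⟨w | v, h⟩
    · exact ⟨Sum.inl w, rfl⟩
    · exact ⟨Sum.inr ⟨v, h⟩, rfl⟩

noncomputable instance rd2_fin (S : Finset (HeightOneSpectrum (𝓞 k))) : Fintype (rd2_P S) :=
  Fintype.ofEquiv (PS S) (Equiv.ofBijective _ (rd2_bij S))

theorem rd2_sum (S : Finset (HeightOneSpectrum (𝓞 k))) (f : Pl k → ℝ) :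
    ∑ P : rd2_P S, f P.1 = ∑ P : PS S, f P.pl :=
  (Fintype.sum_bijective _ (rd2_bij S) _ _ (fun _ => rfl)).symm

end A

section B

variable {F H : Type} [Field F] [NumberField F] [Field H] [NumberField H] [Algebra F H]

theorem rd2_inS_ovr {S : Finset (HeightOneSpectrum (𝓞 F))} {W : Pl H} :
    InS (ovr H S) W ↔ InS S (dn F W) := by
  rcases W with w | v
  · exact Iff.rfl
  · exact mem_ovr

/-- the sum of the logarithms over an orbit -/
theorem rd2_orbit {G : Type} [CommGroup G] [Fintype G] (ι : G ≃* (H ≃ₐ[F] H))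
    {S T : Finset (HeightOneSpectrum (𝓞 F))} (u : UM ι S T) (hu : nrm G • u = 0) (W : Pl H) :
    ∑ γ : G, lg (act (ι γ) W) (u.val : H) = 0 := by
  have h1 : ∀ a : MonoidAlgebra ℤ G, wl ι S T W (a • u) = a • wl ι S T W u := fun a => map_smul _ _ _
  have h2 := h1 (nrm G)
  rw [hu, map_zero] at h2
  -- evaluate the trivial character
  have h3 : (evR (1 : G →* ℂˣ)) ((nrm G : MonoidAlgebra ℤ G) • wl ι S T W u) = 0 := by
    rw [← h2, map_zero]
  have h4 : ((nrm G : MonoidAlgebra ℤ G) • wl ι S T W u) = toR G (nrm G) * wl ι S T W u := rfl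
  have h5 : evR (1 : G →* ℂˣ) (toR G (nrm G)) = (Fintype.card G : ℂ) := by
    unfold nrm
    rw [map_sum, map_sum]
    simp [toR, evR, MonoidAlgebra.lift_single]
  have h6 : evR (1 : G →* ℂˣ) (wl ι S T W u) = ((∑ γ : G, lg (act (ι γ) W) (u.val : H) : ℝ) : ℂ) := by
    show evR (1 : G →* ℂˣ) (∑ γ : G, MonoidAlgebra.single γ (lg (act (ι γ) W) (u.val : H))) = _
    rw [map_sum]
    simp [evR, MonoidAlgebra.lift_single]
  rw [h4, map_mul, h5, h6, mul_eq_zero] at h3
  rcases h3 with h3 | h3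
  · exfalso
    have : Fintype.card G ≠ 0 := Fintype.card_ne_zero
    exact this (by exact_mod_cast h3)
  · exact_mod_cast h3

end B

/-! ### linear conditions -/

section LIN

open Matrix

open scoped Classical in
/-- `f (pm z x) = f x` and `∑ f = 0` -/
noncomputable def rd2_A {P Z : Type} (pm : Z → P → P) : Matrix ((Z × P) ⊕ Unit) P ℚ :=
  fun z x => match z with
  | Sum.inl (z, y) => (if x = pm z y then 1 else 0) - (if x = y then 1 else 0)
  | Sum.inr _ => 1

open scoped Classical in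
/-- `f (pm z x) = f x` and `∑_γ f (pg γ x) = 0` -/
noncomputable def rd2_B {P Z G : Type} [Fintype G] (pm : Z → P → P) (pg : G → P → P) :
    Matrix ((Z × P) ⊕ P) P ℚ :=
  fun z x => match z with
  | Sum.inl (z, y) => (if x = pm z y then 1 else 0) - (if x = y then 1 else 0)
  | Sum.inr y => ∑ γ : G, if x = pg γ y then 1 else 0

theorem rd2_A_iff {P Z : Type} [Fintype P] (pm : Z → P → P) {R : Type} [Field R] [Algebra ℚ R]
    (f : P → R) : (rd2_A pm).map (algebraMap ℚ R) *ᵥ f = 0 ↔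
      (∀ z x, f (pm z x) = f x) ∧ ∑ x, f x = 0 := by
  classical
  have h1 : ∀ z x, ((rd2_A pm).map (algebraMap ℚ R) *ᵥ f) (Sum.inl (z, x)) =
      f (pm z x) - f x := by
    intro z x
    simp only [rd2_A, Matrix.mulVec, dotProduct, Matrix.map_apply, map_sub, sub_mul,
      Finset.sum_sub_distrib]
    simp
  have h2 : ((rd2_A pm).map (algebraMap ℚ R) *ᵥ f) (Sum.inr ()) = ∑ x, f x := by
    simp [rd2_A, Matrix.mulVec, dotProduct]
  constructor
  · intro h
    refine ⟨fun z x => ?_, ?_⟩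
    · rw [← sub_eq_zero, ← h1, h]; rfl
    · rw [← h2, h]; rfl
  · rintro ⟨h3, h4⟩
    funext z
    rcases z with ⟨z, x⟩ | u
    · rw [h1, h3, sub_self]; rfl
    · rw [h2, h4]; rfl

theorem rd2_B_iff {P Z G : Type} [Fintype P] [Fintype G] (pm : Z → P → P) (pg : G → P → P)
    {R : Type} [Field R] [Algebra ℚ R]
    (f : P → R) : (rd2_B pm pg).map (algebraMap ℚ R) *ᵥ f = 0 ↔
      (∀ z x, f (pm z x) = f x) ∧ ∀ x, ∑ γ, f (pg γ x) = 0 := by
  classical
  have h1 : ∀ z x, ((rd2_B pm pg).map (algebraMap ℚ R) *ᵥ f) (Sum.inl (z, x)) =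
      f (pm z x) - f x := by
    intro z x
    simp only [rd2_B, Matrix.mulVec, dotProduct, Matrix.map_apply, map_sub, sub_mul,
      Finset.sum_sub_distrib]
    simp
  have h2 : ∀ x, ((rd2_B pm pg).map (algebraMap ℚ R) *ᵥ f) (Sum.inr x) = ∑ γ, f (pg γ x) := by
    intro x
    simp only [rd2_B, Matrix.mulVec, dotProduct, Matrix.map_apply, map_sum, Finset.sum_mul]
    rw [Finset.sum_comm]
    refine Finset.sum_congr rfl fun γ _ => ?_
    simp
  constructor
  · intro h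
    refine ⟨fun z x => ?_, fun x => ?_⟩
    · rw [← sub_eq_zero, ← h1, h]; rfl
    · rw [← h2, h]; rfl
  · rintro ⟨h3, h4⟩
    funext z
    rcases z with ⟨z, x⟩ | x
    · rw [h1, h3, sub_self]; rfl
    · rw [h2, h4]; rfl

theorem rd2_mapQ {P Z : Type} (A : Matrix Z P ℚ) : A.map (algebraMap ℚ ℚ) = A := by
  ext i j
  simp

theorem rd2_inj {P Z G D I : Type} [Fintype P] [Fintype G] [Nonempty G] (pm : Z → P → P)
    (pg : G → P → P) (hpg : ∀ g, Function.Bijective (pg g))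
    (d : P → D) (d₀ : D) (htr : ∀ x y, d x = d y → ∃ z, pm z x = y)
    (ρ : I → P) (hρ : ∀ x, d x ≠ d₀ → ∃ i, d (ρ i) = d x)
    (f g : P → ℚ) (hf1 : ∀ z x, f (pm z x) = f x) (hf2 : ∀ γ x, f (pg γ x) = f x)
    (hf3 : ∑ x, f x = 0)
    (hg1 : ∀ z x, g (pm z x) = g x) (hg2 : ∀ x, ∑ γ, g (pg γ x) = 0)
    (h : ∀ i, f (ρ i) + g (ρ i) = 0) : f = 0 ∧ g = 0 := by
  classical
  have hG : (Fintype.card G : ℚ) ≠ 0 := by exact_mod_cast Fintype.card_ne_zero
  have hg3 : ∑ x, g x = 0 := by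
    have h1 : ∑ γ : G, ∑ x, g (pg γ x) = 0 := by
      rw [Finset.sum_comm]
      exact Finset.sum_eq_zero fun x _ => hg2 x
    have h2 : ∀ γ : G, ∑ x, g (pg γ x) = ∑ x, g x := fun γ =>
      Fintype.sum_bijective _ (hpg γ) _ _ fun _ => rfl
    rw [Finset.sum_congr rfl fun γ _ => h2 γ, Finset.sum_const, Finset.card_univ,
      nsmul_eq_mul] at h1
    exact (mul_eq_zero.mp h1).resolve_left hG
  have hh1 : ∀ x y, d x = d y → f y + g y = f x + g x := by
    intro x y hxy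
    obtain ⟨z, hz⟩ := htr x y hxy
    rw [← hz, hf1, hg1]
  have hh2 : ∀ x, d x ≠ d₀ → f x + g x = 0 := by
    intro x hx
    obtain ⟨i, hi⟩ := hρ x hx
    rw [hh1 _ _ hi, h]
  have hh3 : ∀ x, f x + g x = 0 := by
    intro x
    by_cases hx : d x = d₀
    · have h1 : ∑ y, (f y + g y) = 0 := by rw [Finset.sum_add_distrib, hf3, hg3, add_zero]
      have h2 : ∑ y, (f y + g y) = ∑ y ∈ Finset.univ.filter (fun y => d y = d₀), (f y + g y) := by
        rw [Finset.sum_filter]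
        refine Finset.sum_congr rfl fun y _ => ?_
        split_ifs with h3
        · rfl
        · exact hh2 y h3
      have h3 : ∀ y ∈ Finset.univ.filter (fun y => d y = d₀), f y + g y = f x + g x := by
        intro y hy
        rw [Finset.mem_filter] at hy
        exact hh1 x y (by rw [hx, hy.2])
      rw [h2, Finset.sum_congr rfl h3, Finset.sum_const, nsmul_eq_mul] at h1
      have h4 : ((Finset.univ.filter (fun y => d y = d₀)).card : ℚ) ≠ 0 := by
        have : x ∈ Finset.univ.filter (fun y => d y = d₀) := by simp [hx]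
        exact_mod_cast (Finset.card_pos.mpr ⟨x, this⟩).ne'
      exact (mul_eq_zero.mp h1).resolve_left h4
    · exact hh2 x hx
  have hf : ∀ x, f x = 0 := by
    intro x
    have h1 : ∑ γ : G, f (pg γ x) = 0 := by
      have h2 : ∀ γ : G, f (pg γ x) = -g (pg γ x) := fun γ => by
        have := hh3 (pg γ x)
        linarith
      rw [Finset.sum_congr rfl fun γ _ => h2 γ, Finset.sum_neg_distrib, hg2, neg_zero]
    rw [Finset.sum_congr rfl fun γ _ => hf2 γ x, Finset.sum_const, Finset.card_univ,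
      nsmul_eq_mul] at h1
    exact (mul_eq_zero.mp h1).resolve_left hG
  refine ⟨funext hf, funext fun x => ?_⟩
  have := hh3 x
  rw [hf x, zero_add] at this
  exact this

end LIN

/-! ### the action on the places above `S₀` -/

section ACT

variable {F₀ K H : Type} [Field F₀] [NumberField F₀] [Field K] [NumberField K] [Field H]
  [NumberField H] [Algebra F₀ K] [Algebra K H] [Algebra F₀ H] [IsScalarTower F₀ K H]
  {S₀ T₀ : Finset (HeightOneSpectrum (𝓞 F₀))}

/-- the action on the places above `S₀` -/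
noncomputable def rd2_act (σ : H ≃ₐ[K] H) (P : rd2_P (ovr H S₀)) : rd2_P (ovr H S₀) :=
  ⟨act σ P.1, by
    have h1 : InS S₀ (dn F₀ P.1) := rd2_inS_ovr.mp P.2
    rw [rd2_inS_ovr, ← dn_dn (F := K), dn_act, dn_dn]
    exact h1⟩

theorem rd2_act_bij (σ : H ≃ₐ[K] H) : Function.Bijective (rd2_act (S₀ := S₀) σ) := by
  refine Function.bijective_iff_has_inverse.mpr ⟨rd2_act σ⁻¹, fun P => ?_, fun P => ?_⟩
  · apply Subtype.ext
    show act σ⁻¹ (act σ P.1) = P.1
    rw [← act_mul, inv_mul_cancel, act_one]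
  · apply Subtype.ext
    show act σ (act σ⁻¹ P.1) = P.1
    rw [← act_mul, mul_inv_cancel, act_one]

theorem rd2_lg_inv (σ : H ≃ₐ[K] H) (W : Pl H) (x : K) :
    lg (act σ W) (algebraMap K H x) = lg W (algebraMap K H x) := by
  have h := lg_act σ W (algebraMap K H x)
  rwa [AlgEquiv.commutes] at h

theorem rd2_lg_inv₀ (σ : H ≃ₐ[K] H) (W : Pl H) (x : F₀) :
    lg (act σ W) (algebraMap F₀ H x) = lg W (algebraMap F₀ H x) := by
  rw [IsScalarTower.algebraMap_apply F₀ K H]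
  exact rd2_lg_inv σ W _

end ACT

section MAIN

variable {F₀ F L H : Type} [Field F₀] [NumberField F₀] [Field F] [NumberField F] [Field L]
  [NumberField L] [Field H] [NumberField H] [Algebra F₀ F] [Algebra F₀ L] [Algebra F₀ H]
  [Algebra F H] [Algebra L H] [IsScalarTower F₀ F H] [IsScalarTower F₀ L H] [IsGalois F₀ H]
  [IsGalois F₀ F] [IsGalois F H] [IsGalois L H] {G : Type} [CommGroup G] [Fintype G] {p : ℕ}
  {ι : G ≃* (H ≃ₐ[F] H)} {S₀ T₀ : Finset (HeightOneSpectrum (𝓞 F₀))} {r : ℕ}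
  {w : Fin r → Pl H} {fr : HeightOneSpectrum (𝓞 F) → G}

omit [IsGalois F₀ H] [IsGalois F₀ F] [IsGalois F H] [IsGalois L H] [Fintype G] in
theorem rd2_comm (F₀ : Type) [Field F₀] [NumberField F₀] [Algebra F₀ F] [Algebra F₀ L]
    [Algebra F₀ H] [IsScalarTower F₀ F H] [IsScalarTower F₀ L H] (c : (H ≃ₐ[L] H) →* MulAut G)
    (hc : ∀ (δ : H ≃ₐ[L] H) (g : G) (x : H), δ (ι g x) = ι (c δ g) (δ x)) (δ : H ≃ₐ[L] H) (g : G)
    (W : Pl H) : act (ι (c δ g)) (act δ W) = act δ (act (ι g) W) := by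
  rw [← act_restrict (F₀ := F₀) (ι (c δ g)), ← act_restrict (F₀ := F₀) δ, ← act_mul,
    ← act_restrict (F₀ := F₀) δ, ← act_restrict (F₀ := F₀) (ι g), ← act_mul]
  congr 1
  ext x
  exact (hc δ g x).symm

open Matrix

/-- block RD2 -/
theorem rat_D (hA : Afn F₀ F L H ι p) (hD : Data ι (ovr F S₀) (ovr F T₀) r w fr) {n₀ : ℕ}
    (b₀ : Module.Basis (Fin n₀) ℤ (Additive (Un S₀ T₀))) (β : Fin r → Lˣ)
    (b : Fin r → UM ι (ovr F S₀) (ovr F T₀))
    (hβ : ∀ j, β j ∈ Un (ovr L S₀) (ovr L T₀))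
    (hbβ : ∀ j, (b j).val = Units.map (algebraMap L H : L →* H) (β j))
    (hb : ∀ j, nrm G • b j = 0) (hn : n₀ + 1 = Fintype.card (PS S₀))
    (hL : n₀ + r + 1 = Fintype.card (PS (ovr L S₀)))
    (h₀ : regS S₀ (bu b₀) ≠ 0) (h₁ : regS (ovr L S₀) (Sum.elim
      (fun j => Units.map (algebraMap F₀ L : F₀ →* L) (bu b₀ j)) β) ≠ 0) :
    ∃ (Y : MonoidAlgebra ℚ G) (κ : ℝ) (q : ℚ), q ≠ 0 ∧
      (wmat ι (ovr F S₀) (ovr F T₀) w b).det = MonoidAlgebra.single 1 κ * qToR G Y ∧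
      regS (ovr L S₀) (Sum.elim
        (fun j => Units.map (algebraMap F₀ L : F₀ →* L) (bu b₀ j)) β) =
          q * regS S₀ (bu b₀) * |κ| ∧
      ∀ e : MulAut G, ∃ (g : G) (ε : ℤ), (ε = 1 ∨ ε = -1) ∧
        MonoidAlgebra.mapDomain e Y = MonoidAlgebra.single g (ε : ℚ) * Y := by
  classical
  -- the points
  obtain ⟨P₀, ρL, N, hN, hex, hval⟩ := reg_eval (L := L) (H := H) (ovr L S₀)
    (Q := Fin n₀ ⊕ Fin r) (by rw [← hL]; simp)
  obtain ⟨_, ρF, N₀, hN₀, _, hval₀⟩ := reg_eval (L := F₀) (H := H) S₀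
    (Q := Fin n₀) (by rw [← hn]; simp)
  have hovr : ovr H (ovr L S₀) = ovr H S₀ := ovr_ovr (F := L) (H := H) S₀
  let ρ : Fin n₀ ⊕ Fin r → rd2_P (ovr H S₀) := fun i => ⟨(ρL i).pl, rd2_cast hovr (rd2_inS (ρL i))⟩
  let ρ₀ : Fin n₀ → rd2_P (ovr H S₀) := fun i => rd2_map _ (ρF i)
  let pm : (H ≃ₐ[L] H) → rd2_P (ovr H S₀) → rd2_P (ovr H S₀) := fun δ => rd2_act δ
  let pg : G → rd2_P (ovr H S₀) → rd2_P (ovr H S₀) := fun g => rd2_act (ι g)
  let pa : (H ≃ₐ[L] H) ⊕ G → rd2_P (ovr H S₀) → rd2_P (ovr H S₀) := Sum.elim pm pg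
  let _ : Fintype (H ≃ₐ[L] H) := Fintype.ofFinite _
  let wP : Fin r → rd2_P (ovr H S₀) := fun i => ⟨w i, by
    have h2 := rd2_inS_ovr.mp (hD.mem i)
    rwa [dn_dn, ← rd2_inS_ovr] at h2⟩
  -- the functions
  let a : Fin n₀ → rd2_P (ovr H S₀) → ℝ := fun j x => lg x.1 (algebraMap F₀ H (bu b₀ j : F₀))
  let b' : Fin r → rd2_P (ovr H S₀) → ℝ := fun j x => lg x.1 (algebraMap L H (β j : L))
  have hbu : ∀ j, bu b₀ j ∈ Un S₀ T₀ := fun j => Subtype.prop _
  have hbval : ∀ j, ((b j).val : H) = algebraMap L H (β j : L) := by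
    intro j
    rw [hbβ j]
    rfl
  have ha1 : ∀ j, (∀ z x, a j (pa z x) = a j x) ∧ ∑ x, a j x = 0 := by
    intro j
    refine ⟨?_, ?_⟩
    · rintro (δ | g) x
      · exact rd2_lg_inv₀ δ x.1 _
      · exact rd2_lg_inv₀ (ι g) x.1 _
    · have h1 := rd2_sum (ovr H S₀) (fun W => lg W (algebraMap F₀ H (bu b₀ j : F₀)))
      have h2 := sum_lg (S := ovr H S₀) (T := ovr H T₀)
        (u := Units.map (algebraMap F₀ H : F₀ →* H) (bu b₀ j)) ((un_map _).mpr (hbu j))
      exact h1.trans h2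
  have hb1 : ∀ j, (∀ z x, b' j (pm z x) = b' j x) ∧ ∀ x, ∑ γ, b' j (pg γ x) = 0 := by
    intro j
    refine ⟨fun δ x => rd2_lg_inv δ x.1 _, fun x => ?_⟩
    have h1 := rd2_orbit ι (b j) (hb j) x.1
    rw [hbval j] at h1
    exact h1
  -- the determinants
  have hu : ∀ j, (Sum.elim (fun j => Units.map (algebraMap F₀ L : F₀ →* L) (bu b₀ j)) β j : Lˣ) ∈
      Un (ovr L S₀) (ovr L T₀) := by
    rintro (j | j)
    · exact (un_map _).mpr (hbu j)
    · exact hβ j
  have hdetL := hval (ovr L T₀) _ hu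
  have hdet₀ := hval₀ T₀ (bu b₀) hbu
  have hmL : (Matrix.of fun i j => lg (ρL i).pl (algebraMap L H
      ((Sum.elim (fun j => Units.map (algebraMap F₀ L : F₀ →* L) (bu b₀ j)) β j : Lˣ) : L))) =
      Matrix.of fun i j => Sum.elim a b' j (ρ i) := by
    ext i j
    rcases j with j | j
    · show lg (ρL i).pl (algebraMap L H (algebraMap F₀ L (bu b₀ j : F₀))) =
        lg (ρL i).pl (algebraMap F₀ H (bu b₀ j : F₀))
      rw [← IsScalarTower.algebraMap_apply F₀ L H]
    · rfl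
  rw [hmL] at hdetL
  have hm₀ : (Matrix.of fun i j => lg (ρF i).pl (algebraMap F₀ H (bu b₀ j : F₀))) =
      Matrix.of fun i j => a j (ρ₀ i) := rfl
  rw [hm₀] at hdet₀
  have hNr : (N : ℝ) ≠ 0 := by exact_mod_cast hN.ne'
  have hNr₀ : (N₀ : ℝ) ≠ 0 := by exact_mod_cast hN₀.ne'
  have hdL : Matrix.det (Matrix.of fun i j => Sum.elim a b' j (ρ i)) ≠ 0 := by
    intro h
    rw [h, abs_zero] at hdetL
    exact mul_ne_zero hNr h₁ hdetL
  have hd₀ : Matrix.det (Matrix.of fun i j => a j (ρ₀ i)) ≠ 0 := by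
    intro h
    rw [h, abs_zero] at hdet₀
    exact mul_ne_zero hNr₀ h₀ hdet₀
  have : Nonempty G := ⟨1⟩
  -- the rational form
  obtain ⟨y, C, q, hy, hyb, hq⟩ := rat_form (rd2_A pa) (rd2_B pm pg) ρ ρ₀ (by
      intro f g hf hg hfg
      have hf' : (rd2_A pa).map (algebraMap ℚ ℚ) *ᵥ f = 0 := by rw [rd2_mapQ]; exact hf
      have hg' : (rd2_B pm pg).map (algebraMap ℚ ℚ) *ᵥ g = 0 := by rw [rd2_mapQ]; exact hg
      obtain ⟨hf1, hf2⟩ := (rd2_A_iff pa f).mp hf'
      obtain ⟨hg1, hg2⟩ := (rd2_B_iff pm pg g).mp hg'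
      refine rd2_inj pm pg (fun g => rd2_act_bij (ι g)) (fun x => dn L x.1) P₀.pl ?_ ρ ?_ f g
        (fun z x => hf1 (Sum.inl z) x) (fun z x => hf1 (Sum.inr z) x) hf2 hg1 hg2 hfg
      · intro x x' hx
        obtain ⟨σ, hσ⟩ := act_trans (F := L) hx
        exact ⟨σ, Subtype.ext hσ⟩
      · intro x hx
        have h2 : InS (ovr L S₀) (dn L x.1) := by
          rw [rd2_inS_ovr, dn_dn, ← rd2_inS_ovr]
          exact x.2
        obtain ⟨Q, hQ⟩ := (rd2_bij (ovr L S₀)).2 ⟨dn L x.1, h2⟩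
        have hQ' : Q.pl = dn L x.1 := congrArg Subtype.val hQ
        obtain ⟨i, hi⟩ := hex Q (fun h => hx (by rw [← h]; exact hQ'.symm))
        exact ⟨i, hi.trans hQ'⟩) a b'
    (fun j => (rd2_A_iff pa (a j)).mpr (ha1 j)) (fun j => (rd2_B_iff pm pg (b' j)).mpr (hb1 j))
    hdL hd₀
  have hy1 : ∀ j, (∀ z x, y j (pm z x) = y j x) ∧ ∀ x, ∑ γ, y j (pg γ x) = 0 := by
    intro j
    have h1 : (rd2_B pm pg).map (algebraMap ℚ ℚ) *ᵥ (y j) = 0 := by rw [rd2_mapQ]; exact hy j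
    exact (rd2_B_iff pm pg (y j)).mp h1
  have hreg : regS (ovr L S₀) (Sum.elim
        (fun j => Units.map (algebraMap F₀ L : F₀ →* L) (bu b₀ j)) β) =
          ((q * N₀ / N : ℚ) : ℝ) * regS S₀ (bu b₀) * |C.det| := by
    have h1 : (N : ℝ) * regS (ovr L S₀) (Sum.elim
        (fun j => Units.map (algebraMap F₀ L : F₀ →* L) (bu b₀ j)) β) =
        q * (N₀ * regS S₀ (bu b₀)) * |C.det| := by
      rw [hdetL, hdet₀]
      exact hq
    push_cast
    field_simp
    linarith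
  refine ⟨Matrix.det (Matrix.of fun i j : Fin r =>
      ∑ γ : G, MonoidAlgebra.single γ (y j (pg γ (wP i)))), C.det, q * N₀ / N, ?_, ?_, hreg, ?_⟩
  · intro h
    rw [h] at hreg
    apply h₁
    rw [hreg]
    simp
  · have h1 : wmat ι (ovr F S₀) (ovr F T₀) w b =
        ((qToR G).mapMatrix (Matrix.of fun i j : Fin r =>
          ∑ γ : G, MonoidAlgebra.single γ (y j (pg γ (wP i))))) *
          ((MonoidAlgebra.singleOneRingHom (R := ℝ) (M := G)).mapMatrix C) := by
      ext1 i j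
      rw [Matrix.mul_apply]
      show ∑ γ : G, MonoidAlgebra.single γ (lg (act (ι γ) (w i)) ((b j).val : H)) =
        ∑ l, qToR G (∑ γ : G, MonoidAlgebra.single γ (y l (pg γ (wP i)))) *
          MonoidAlgebra.single 1 (C l j)
      have h2 : ∀ γ, lg (act (ι γ) (w i)) ((b j).val : H) =
          ∑ l, C l j * (y l (pg γ (wP i)) : ℝ) := by
        intro γ
        rw [hbval j]
        exact hyb j (pg γ (wP i))
      have h3 : ∀ l, qToR G (∑ γ : G, MonoidAlgebra.single γ (y l (pg γ (wP i)))) *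
          MonoidAlgebra.single 1 (C l j) =
          ∑ γ : G, MonoidAlgebra.single γ (C l j * (y l (pg γ (wP i)) : ℝ)) := by
        intro l
        rw [map_sum, Finset.sum_mul]
        refine Finset.sum_congr rfl fun γ _ => ?_
        have h4 : qToR G (MonoidAlgebra.single γ (y l (pg γ (wP i)))) =
            MonoidAlgebra.single γ ((y l (pg γ (wP i)) : ℚ) : ℝ) := by
          simp [qToR]
        rw [h4, MonoidAlgebra.single_mul_single, mul_one, mul_comm]
      rw [Finset.sum_congr rfl fun l _ => h3 l, Finset.sum_comm]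
      refine Finset.sum_congr rfl fun γ _ => ?_
      rw [h2 γ]
      exact map_sum (AddMonoidHom.mk' (fun x : ℝ => (MonoidAlgebra.single γ x : MonoidAlgebra ℝ G))
        (fun a b => MonoidAlgebra.single_add γ a b)) _ _
    rw [h1, Matrix.det_mul, ← RingHom.map_det, ← RingHom.map_det, mul_comm]
    rfl
  · intro e
    obtain ⟨c, hcb, hc, _⟩ := conj_exists hA
    obtain ⟨δ, rfl⟩ := hcb.2 e
    obtain ⟨π, g, hg⟩ := perm_w hA hD δ
    refine det_sym (c δ) π g (fun i j γ => y j (pg γ (wP i))) ?_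
    intro i j γ
    have h1 : pg (c δ γ * g i) (wP (π i)) = pm δ (pg γ (wP i)) := by
      apply Subtype.ext
      show act (ι (c δ γ * g i)) (w (π i)) = act δ (act (ι γ) (w i))
      rw [map_mul, act_mul, ← hg i]
      exact rd2_comm F₀ c hc δ γ (w i)
    rw [h1, (hy1 j).1]

end MAIN

end Pool.Agent.RSK
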