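import Pool.Agent.Lib_helper17.RS.Bas
import Pool.Agent.Lib_helper17.RS.BasZ
import Pool.Agent.Lib_helper17.RS.P_TW
import Pool.Agent.Lib_helper17.RS.P_PX1
import Pool.Agent.Lib_helper17.RS.P_PX2
import Pool.Agent.Lib_helper17.RS.P_IA
import Pool.Agent.Lib_helper17.RS.P_IC
import Pool.Agent.Lib_helper17.RS.P_AA
import Pool.Agent.Lib_helper17.RS.P_AB
import Pool.Agent.Lib_helper17.RS.P_AC
import Pool.Agent.Lib_helper17.RS.P_CN
import Pool.Agent.Lib_helper17.RS.P_UR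
import Pool.Agent.Lib_helper17.RS.P_RF1
import Pool.Agent.Lib_helper17.RS.P_RF2
import Pool.Agent.Lib_helper17.RS.P_NM2
import Pool.Agent.Lib_helper17.RS.P_GC
import Pool.Agent.Lib_helper17.RS.P_LL
import Pool.Agent.Lib_helper17.RS.P_BE
import Pool.Agent.Lib_helper17.RS.P_BD
import Pool.Agent.Lib_helper17.RS.P_RD1
import Pool.Agent.Lib_helper17.RS.P_RD2
/-!
# Rubin-Stark: block CS (stable `S` and `T`)
-/

namespace Pool.Agent.RSK

set_option linter.unusedSectionVars false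

open NumberField NumberField.InfinitePlace NumberField.Units IsDedekindDomain Filter Topology
  Complex

section CSaux

variable {G : Type} [CommGroup G] [Fintype G]

theorem cs_evR_single (χ : G →* ℂˣ) (κ : ℝ) :
    evR χ (MonoidAlgebra.single 1 κ) = (κ : ℂ) := by
  rw [evR, MonoidAlgebra.lift_single]
  simp

theorem cs_evQ_single (χ : G →* ℂˣ) (q : ℚ) :
    evQ χ (MonoidAlgebra.single 1 q) = (q : ℂ) := by
  rw [evQ, MonoidAlgebra.lift_single]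
  simp [Algebra.smul_def]

theorem cs_evR_qToR (χ : G →* ℂˣ) (Y : MonoidAlgebra ℚ G) :
    evR χ (qToR G Y) = evQ χ Y := by
  have h : ((evR χ : MonoidAlgebra ℝ G →+* ℂ).comp (qToR G)) = (evQ χ : MonoidAlgebra ℚ G →+* ℂ) := by
    refine MonoidAlgebra.ringHom_ext (fun q => ?_) (fun g => ?_)
    · show evR χ (qToR G (MonoidAlgebra.single 1 q)) = evQ χ (MonoidAlgebra.single 1 q)
      have h1 : qToR G (MonoidAlgebra.single 1 q) = MonoidAlgebra.single 1 (q : ℝ) := by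
        simp [qToR]
      rw [h1, cs_evR_single, cs_evQ_single]
      simp
    · show evR χ (qToR G (MonoidAlgebra.single g 1)) = evQ χ (MonoidAlgebra.single g 1)
      have h1 : qToR G (MonoidAlgebra.single g 1) = MonoidAlgebra.single g (1 : ℝ) := by
        simp [qToR]
      rw [h1, evR, evQ, MonoidAlgebra.lift_single, MonoidAlgebra.lift_single]
      simp
  exact congrArg (fun f : MonoidAlgebra ℚ G →+* ℂ => f Y) h

end CSaux

section CSdisj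

variable {F H : Type} [Field F] [NumberField F] [Field H] [NumberField H] [Algebra F H]

theorem cs_disj {S T : Finset (HeightOneSpectrum (𝓞 F))} (h : Disjoint S T) :
    Disjoint (ovr H S) (ovr H T) := by
  rw [Finset.disjoint_left] at h ⊢
  intro w hw hw'
  rw [mem_ovr] at hw hw'
  exact h hw hw'

end CSdisj

section AFF

variable {F₀ F L H : Type} [Field F₀] [NumberField F₀] [Field F] [NumberField F] [Field L]
  [NumberField L] [Field H] [NumberField H] [Algebra F₀ F] [Algebra F₀ L] [Algebra F₀ H]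
  [Algebra F H] [Algebra L H] [IsScalarTower F₀ F H] [IsScalarTower F₀ L H] [IsGalois F₀ H]
  [IsGalois F₀ F] [IsGalois F H] [IsGalois L H] {G : Type} [CommGroup G] [Fintype G] {p : ℕ}
  {ι : G ≃* (H ≃ₐ[F] H)} {S₀ T₀ : Finset (HeightOneSpectrum (𝓞 F₀))} {r : ℕ}
  {w : Fin r → Pl H} {fr : HeightOneSpectrum (𝓞 F) → G}

theorem core_stable (hA : Afn F₀ F L H ι p) (hST : Disjoint S₀ T₀)
    (hD : Data ι (ovr F S₀) (ovr F T₀) r w fr) {σ : G} (hσ : σ ≠ 1) {m : ℕ} (hm : 0 < m)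
    (hS : Fintype.card (PS (ovr F S₀)) = r + m + 1) :
    ∃ c : (G →* ℂˣ) → ℂ, LeadX (ovr F S₀) (ovr F T₀) r fr c ∧ (∀ χ, χ ≠ 1 → c χ ≠ 0) ∧
      ∃ (b : Fin r → UM ι (ovr F S₀) (ovr F T₀)) (x : MonoidAlgebra ℚ G),
        Core ι (ovr F S₀) (ovr F T₀) w c b x ∧
        ∀ ψ : Fin r → (UM ι (ovr F S₀) (ovr F T₀) →ₗ[MonoidAlgebra ℤ G] MonoidAlgebra ℤ G),
          ∃ a : MonoidAlgebra ℤ G, x * toQ G (pmat ψ b).det =
            toQ G ((MonoidAlgebra.single σ 1 - 1) ^ m * a) := by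
  have hp : p.Prime := hA.prime
  have hG : Nat.card G = p := hA.cardG
  -- torsion-freeness
  obtain ⟨htH, hdH⟩ := tf_H hD
  have htF : TFree (ovr F S₀) (ovr F T₀) := tf_F (H := H) htH
  have htH' := htH
  rw [ovr_ovr, ovr_ovr] at htH'
  have ht₀ : TFree S₀ T₀ := tf_F (H := H) htH'
  have htL : TFree (ovr L S₀) (ovr L T₀) := by
    refine tf_F (H := H) ?_
    rw [ovr_ovr, ovr_ovr]
    exact htH'
  -- bases
  obtain ⟨n₀, ⟨b₀⟩⟩ := un_exists hST ht₀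
  obtain ⟨nL, ⟨bL⟩⟩ := un_exists (cs_disj (H := L) hST) htL
  obtain ⟨nF, ⟨bF⟩⟩ := un_exists (cs_disj (H := F) hST) htF
  obtain ⟨nH, ⟨bH⟩⟩ := un_exists hdH htH
  obtain ⟨hn₀, hr₀, hh₀, -⟩ := cnf hST ht₀ b₀
  obtain ⟨hnL, hrL, hhL, -⟩ := cnf (cs_disj (H := L) hST) htL bL
  obtain ⟨hnF, hrF, hhF, -⟩ := cnf (cs_disj (H := F) hST) htF bF
  obtain ⟨hnH, hrH, hhH, -⟩ := cnf hdH htH bH
  obtain ⟨hnr, c₀, hc₀, hcL, hlead⟩ := lead_L hA hST hD b₀ bL
  obtain ⟨β, b, hβ, hbβ, hb, hgen, i, hi, hreg⟩ := b_exists hA hST hD hnr b₀ bL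
  have hreg' : regS (ovr L S₀) (Sum.elim
      (fun j => Units.map (algebraMap F₀ L : F₀ →* L) (bu b₀ j)) β) ≠ 0 := by
    rw [hreg]
    exact mul_ne_zero (Nat.cast_ne_zero.2 hi) hrL.ne'
  obtain ⟨Y, κ, q, hq, hdet, hregq, hsym⟩ := rat_D hA hD b₀ β b hβ hbβ hb hn₀
    (by rw [← hnr]; exact hnL) hr₀.ne' hreg'
  -- the constant `c₀` is rational multiple of `κ`
  obtain ⟨q', hq', hc₀κ⟩ : ∃ q' : ℚ, q' ≠ 0 ∧ c₀ = q' * κ := by
    have e1 : (i : ℝ) * regS (ovr L S₀) (bu bL) = q * regS S₀ (bu b₀) * |κ| := by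
      rw [← hreg, hregq]
    have hi' : (i : ℝ) ≠ 0 := Nat.cast_ne_zero.2 hi
    have hh₀' : (Pool.Agent.RSK.hA S₀ T₀ : ℝ) ≠ 0 := Nat.cast_ne_zero.2 hh₀.ne'
    have hhL' : (Pool.Agent.RSK.hA (ovr L S₀) (ovr L T₀) : ℝ) ≠ 0 := Nat.cast_ne_zero.2 hhL.ne'
    have e2 : |c₀| = ((Pool.Agent.RSK.hA (ovr L S₀) (ovr L T₀) : ℝ) * q /
        ((Pool.Agent.RSK.hA S₀ T₀ : ℝ) * i)) * |κ| := by
      have h3 : |c₀| * ((Pool.Agent.RSK.hA S₀ T₀ : ℝ) * i) * regS S₀ (bu b₀) =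
          (Pool.Agent.RSK.hA (ovr L S₀) (ovr L T₀) : ℝ) * q * |κ| * regS S₀ (bu b₀) := by
        calc |c₀| * ((Pool.Agent.RSK.hA S₀ T₀ : ℝ) * i) * regS S₀ (bu b₀) =
            (|c₀| * ((Pool.Agent.RSK.hA S₀ T₀ : ℝ) * regS S₀ (bu b₀))) * i := by ring
          _ = ((Pool.Agent.RSK.hA (ovr L S₀) (ovr L T₀) : ℝ) * regS (ovr L S₀) (bu bL)) * i := by
              rw [hcL]
          _ = (Pool.Agent.RSK.hA (ovr L S₀) (ovr L T₀) : ℝ) * (i * regS (ovr L S₀) (bu bL)) := by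
              ring
          _ = (Pool.Agent.RSK.hA (ovr L S₀) (ovr L T₀) : ℝ) * q * |κ| * regS S₀ (bu b₀) := by
              rw [e1]
              ring
      have h4 := mul_right_cancel₀ hr₀.ne' h3
      rw [div_mul_eq_mul_div, eq_div_iff (mul_ne_zero hh₀' hi'), h4]
    set Q : ℚ := (Pool.Agent.RSK.hA (ovr L S₀) (ovr L T₀) : ℚ) * q /
      ((Pool.Agent.RSK.hA S₀ T₀ : ℚ) * i) with hQ
    have hQ0 : Q ≠ 0 := by
      rw [hQ]
      refine div_ne_zero (mul_ne_zero (Nat.cast_ne_zero.2 hhL.ne') hq)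
        (mul_ne_zero (Nat.cast_ne_zero.2 hh₀.ne') (Nat.cast_ne_zero.2 hi))
    have e3 : |c₀| = (Q : ℝ) * |κ| := by
      rw [e2, hQ]
      push_cast
      ring
    rcases abs_choice c₀ with h | h <;> rcases abs_choice κ with h' | h'
    · exact ⟨Q, hQ0, by rw [← h, e3, h']⟩
    · refine ⟨-Q, neg_ne_zero.2 hQ0, ?_⟩
      rw [← h, e3, h']
      push_cast
      ring
    · refine ⟨-Q, neg_ne_zero.2 hQ0, ?_⟩
      rw [h, h'] at e3
      push_cast
      linarith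
    · refine ⟨Q, hQ0, ?_⟩
      rw [h, h'] at e3
      linarith
  have hκ : κ ≠ 0 := by
    rintro rfl
    exact hc₀ (by rw [hc₀κ, mul_zero])
  -- the module
  have hfin : Module.Finite ℤ (UM ι (ovr F S₀) (ovr F T₀)) := um_finite hD
  have htf : Module.IsTorsionFree ℤ (UM ι (ovr F S₀) (ovr F T₀)) := um_tf hD
  have hrk : Module.finrank ℤ (mMinus G (UM ι (ovr F S₀) (ovr F T₀))) = r * (p - 1) :=
    um_rank hp hG hD
  obtain ⟨cj, -, hcj, hcinj⟩ := conj_exists hA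
  obtain ⟨A, hA1, hA2⟩ := dact_exists (S₀ := S₀) (T₀ := T₀) hA cj hcj
  have hbm : ∀ j, b j ∈ mMinus G (UM ι (ovr F S₀) (ovr F T₀)) := fun j => hb j
  have : FiniteDimensional L H := inferInstance
  obtain ⟨e, he⟩ := idx_pow hp hG A cj hcinj hA2 b hbm (fun u hu hδ => hgen u hu fun δ => by
    rw [← hA1, hδ δ])
  have hidx : (mPlus G (UM ι (ovr F S₀) (ovr F T₀)) ⊔ mSpn G b).index ≠ 0 := by
    have h1 := idx_one hp hG hσ hrk b hbm
    rw [he] at h1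
    intro h0
    rw [h0, zero_mul] at h1
    exact (mul_ne_zero (pow_ne_zero _ hp.ne_zero) (pow_ne_zero _ hp.ne_zero)) h1.symm
  have hpX : pX (fun χ : G →* ℂˣ => evR χ (wmat ι (ovr F S₀) (ovr F T₀) w b).det) ≠ 0 := by
    have h1 := reg_idx hp hG hD hσ bF bH b hb
    have h2 := reg_HF hp hG hD hσ hS hnF (bu bF) (fun j => Subtype.prop _) b hb
    rw [h1] at h2
    intro h0
    rw [h0, norm_zero, mul_zero] at h2
    exact (mul_ne_zero (Nat.cast_ne_zero.2 hidx) hrH.ne') h2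
  have hval : ∀ χ : G →* ℂˣ, evR χ (wmat ι (ovr F S₀) (ovr F T₀) w b).det = κ * evQ χ Y := by
    intro χ
    rw [hdet, map_mul, cs_evR_single, cs_evR_qToR]
  have hY : ∀ χ : G →* ℂˣ, χ ≠ 1 → evQ χ Y ≠ 0 := by
    intro χ hχ h0
    refine pX_ne_zero.1 hpX χ hχ ?_
    show evR χ (wmat ι (ovr F S₀) (ovr F T₀) w b).det = 0
    rw [hval, h0, mul_zero]
  obtain ⟨x, hx0, hx⟩ := div_exists hp hG (MonoidAlgebra.single 1 q') Y hY
  have hxY : ∀ χ : G →* ℂˣ, χ ≠ 1 → evQ χ x * evQ χ Y = q' := fun χ hχ => by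
    rw [hx χ hχ, cs_evQ_single]
  have hco : Core ι (ovr F S₀) (ovr F T₀) w (fun _ => (c₀ : ℂ)) b x := by
    refine ⟨hb, hx0, fun χ hχ => ?_⟩
    rw [hval, mul_left_comm, hxY χ hχ, hc₀κ]
    push_cast
    ring
  refine ⟨fun _ => (c₀ : ℂ), hlead, fun χ _ => Complex.ofReal_ne_zero.2 hc₀, b, x, hco, fun ψ => ?_⟩
  -- integrality
  have hy0 : toQ G (nrm G) * (x * toQ G (pmat ψ b).det) = 0 := by
    rw [← mul_assoc, hx0, zero_mul]
  obtain ⟨k, a, hka⟩ := alg_away hp hG x hx0 (inv_sym hx0 hq' hxY hsym)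
    (rs_norm_pow hp hG hD hS hlead hco ⟨e, he⟩)
  refine alg_glue hp hG hσ _ hy0 hm ?_ ?_
  · exact alg_at hp hG hσ _ hy0 hm (norm_dvd hp hG hD hS hlead hco ψ)
  · intro l hl hlp
    refine ⟨p ^ k, a * (pmat ψ b).det, fun h => ?_, ?_⟩
    · exact hlp ((Nat.prime_dvd_prime_iff_eq hl hp).1 (hl.dvd_of_dvd_pow h))
    · rw [map_mul, ← hka, ← mul_assoc]
      push_cast
      rfl

end AFF

end Pool.Agent.RSK
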