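import Pool.Agent.Lib_helper17.RS.Bas
import Pool.Agent.Lib_helper17.RS.P_UP1
import Pool.Agent.Lib_helper17.RS.P_AB
import Pool.Agent.Lib_helper17.RS.P_AC
import Pool.Agent.Lib_helper17.RS.P_NM2
import Pool.Agent.Lib_helper17.RS.P_CS
import Pool.Agent.Lib_helper17.RS.P_CH
import Pool.Agent.Lib_helper17.RS.P_UQ
import Pool.Agent.Lib_helper17.RS.P_CB
namespace Pool.Agent.RSK

set_option linter.unusedSectionVars false

open NumberField NumberField.InfinitePlace NumberField.Units IsDedekindDomain Filter Topology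
  Complex

section AFG

variable {F₀ F L H : Type} [Field F₀] [NumberField F₀] [Field F] [NumberField F] [Field L]
  [NumberField L] [Field H] [NumberField H] [Algebra F₀ F] [Algebra F₀ L] [Algebra F₀ H]
  [Algebra F H] [Algebra L H] [IsScalarTower F₀ F H] [IsScalarTower F₀ L H] [IsGalois F₀ H]
  [IsGalois F₀ F] [IsGalois F H] [IsGalois L H] {G : Type} [CommGroup G] [Fintype G] {p : ℕ}
  {ι : G ≃* (H ≃ₐ[F] H)} {S T : Finset (HeightOneSpectrum (𝓞 F))} {r : ℕ}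
  {w : Fin r → Pl H} {fr : HeightOneSpectrum (𝓞 F) → G}

theorem cg_L (hp2 : p ≠ 2) (hA : Afn F₀ F L H ι p) (hD : Data ι S T r w fr) {σ : G} (hσ : σ ≠ 1) {m : ℕ}
    (hm : 0 < m) (hS : Fintype.card (PS S) = r + m + 1) {l : ℕ} (hl : l.Prime) (hlp : l ≠ p) :
    LCore ι S T w fr l := by
  classical
  set S₀ : Finset (HeightOneSpectrum (𝓞 F₀)) := S.image (fun v => v.under (𝓞 F₀)) with hS₀
  obtain ⟨v₀, hv₀, hv⟩ := cheb hp2 hA (S₀ ∪ T.image (fun v => v.under (𝓞 F₀))) hl hlp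
  rw [Finset.mem_union, not_or] at hv₀
  have hm1 : ∀ v : HeightOneSpectrum (𝓞 F), v ∈ ovr F {v₀} ↔ v.under (𝓞 F₀) = v₀ := fun v => by
    rw [mem_ovr, Finset.mem_singleton]
  have hSS : S ⊆ ovr F S₀ := fun v hvS => by
    rw [mem_ovr]
    exact Finset.mem_image_of_mem _ hvS
  have hd0 : Disjoint S₀ {v₀} := Finset.disjoint_singleton_right.2 hv₀.1
  have hd1 : Disjoint (ovr F S₀) (ovr F {v₀}) := by
    rw [Finset.disjoint_left]
    intro v h1 h2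
    rw [hm1] at h2
    rw [mem_ovr, h2] at h1
    exact hv₀.1 h1
  have hdS : Disjoint S (ovr F {v₀}) := Finset.disjoint_of_subset_left hSS hd1
  have hdT : Disjoint T (ovr F {v₀}) := by
    rw [Finset.disjoint_left]
    intro v h1 h2
    rw [hm1] at h2
    apply hv₀.2
    rw [← h2]
    exact Finset.mem_image_of_mem _ h1
  obtain ⟨v₁, hv₁⟩ : ∃ v₁ : HeightOneSpectrum (𝓞 F), v₁ ∈ ovr F {v₀} := by
    obtain ⟨W, hW⟩ := dn_surj (F := F₀) (H := F) (Sum.inr v₀)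
    rcases W with W | W
    · exact absurd hW (by simp [dn])
    · refine ⟨W, ?_⟩
      rw [hm1]
      simpa [dn] using hW
  have hD1 : Data ι S (ovr F {v₀}) r w fr :=
    { disj := hdS
      unram := hD.unram
      tors := Or.inr ⟨v₁, hv₁, (hv v₁ hv₁).1⟩
      mem := hD.mem
      split := hD.split
      inj := hD.inj
      all := hD.all
      card := hD.card
      frob := hD.frob }
  have hT1 : ∀ v ∈ ovr F {v₀}, fr v ≠ 1 ∧ ¬ l ∣ ∑ i ∈ Finset.range p, nv v ^ i := fun v h =>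
    ⟨(hv v h).2.2 _ (hD.frob v (fun h' => Finset.disjoint_left.1 hdS h' h)), (hv v h).2.1⟩
  refine chain_T hA.prime hA.cardG hl hdT hD hD1 hT1 ?_
  have hcs := Finset.card_le_card hSS
  refine chain_S hA.prime hA.cardG hl hlp hd1 ((ovr F S₀).card - S.card) hD1 hSS (by omega) ?_
  intro r₁ w₁ hD₂ hcard
  obtain ⟨m₁, hm₁, h₁⟩ : ∃ m₁, 0 < m₁ ∧ Fintype.card (PS (ovr F S₀)) = r₁ + m₁ + 1 :=
    ⟨Fintype.card (PS (ovr F S₀)) - r₁ - 1, by omega, by omega⟩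
  obtain ⟨c, hc, hc0, b, x, hco, hint⟩ := core_stable hA hd0 hD₂ hσ hm₁ h₁
  refine ⟨c, hc, hc0, b, x, hco, fun ψ => ?_⟩
  obtain ⟨a, ha⟩ := hint ψ
  refine ⟨1, (MonoidAlgebra.single σ 1 - 1) ^ m₁ * a, hl.one_lt.ne' ∘ Nat.dvd_one.1, ?_⟩
  rw [ha, Nat.cast_one, ← MonoidAlgebra.one_def, one_mul]

theorem core_gen (hp2 : p ≠ 2) (hA : Afn F₀ F L H ι p) (hD : Data ι S T r w fr) {σ : G} (hσ : σ ≠ 1) {m : ℕ}
    (hm : 0 < m) (hS : Fintype.card (PS S) = r + m + 1) :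
    ∃ c : (G →* ℂˣ) → ℂ, LeadX S T r fr c ∧ (∀ χ, χ ≠ 1 → c χ ≠ 0) ∧
      ∃ (b : Fin r → UM ι S T) (x : MonoidAlgebra ℚ G), Core ι S T w c b x ∧
        ∀ ψ : Fin r → (UM ι S T →ₗ[MonoidAlgebra ℤ G] MonoidAlgebra ℤ G),
          ∃ a : MonoidAlgebra ℤ G, x * toQ G (pmat ψ b).det =
            toQ G ((MonoidAlgebra.single σ 1 - 1) ^ m * a) := by
  obtain ⟨c, hc, hc0, b, x, hco, -⟩ := cg_L hp2 hA hD hσ hm hS Nat.prime_two (Ne.symm hp2)
  refine ⟨c, hc, hc0, b, x, hco, fun ψ => ?_⟩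
  have hy : toQ G (nrm G) * (x * toQ G (pmat ψ b).det) = 0 := by
    rw [← mul_assoc, hco.xminus, zero_mul]
  refine alg_glue hA.prime hA.cardG hσ _ hy hm
    (alg_at hA.prime hA.cardG hσ _ hy hm (norm_dvd hA.prime hA.cardG hD hS hc hco ψ)) ?_
  intro l hl hlp
  obtain ⟨c', hc', hc0', b', x', hco', hint'⟩ := cg_L hp2 hA hD hσ hm hS hl hlp
  rw [core_uniq hA.prime hA.cardG hD (leadx_uniq hc hc') hc0 hco hco' ψ]
  exact hint' ψ

end AFG

end Pool.Agent.RSK
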