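import Pool.Agent.Lib_helper17.RS.Bas
import Pool.Agent.Lib_helper17.RS.BasZ
import Pool.Agent.Lib_helper17.RS.P_UP1
namespace Pool.Agent.RSK

set_option linter.unusedSectionVars false

open NumberField NumberField.InfinitePlace NumberField.Units IsDedekindDomain Filter Topology
  Complex

section QU

variable {F K H : Type} [Field F] [NumberField F] [Field K] [NumberField K] [Field H]
  [NumberField H] [Algebra F K] [Algebra F H] [Algebra K H] [IsScalarTower F K H]
  [IsGalois F H] [IsGalois F K] [IsGalois K H]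
  {G G' : Type} [CommGroup G] [Fintype G] [CommGroup G'] [Fintype G'] {ι : G ≃* (H ≃ₐ[F] H)}
  {ι' : G' ≃* (K ≃ₐ[F] K)} {π : G →* G'} {p : ℕ}
  {S T : Finset (HeightOneSpectrum (𝓞 F))} {r : ℕ} {w : Fin r → Pl H}
  {fr : HeightOneSpectrum (𝓞 F) → G}

theorem qu1_symm (hq : Quo ι ι' π) (g : G) (x : K) :
    (ι g).symm (algebraMap K H x) = algebraMap K H ((ι' (π g)).symm x) := by
  rw [AlgEquiv.symm_apply_eq, ← hq.compat, AlgEquiv.apply_symm_apply]

theorem qu1_int (hq : Quo ι ι' π) (g : G) (x : 𝓞 K) :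
    algebraMap (𝓞 K) (𝓞 H) (RingOfIntegers.mapRingEquiv (ι' (π g)).toRingEquiv x) =
      RingOfIntegers.mapRingEquiv (ι g).toRingEquiv (algebraMap (𝓞 K) (𝓞 H) x) := by
  apply RingOfIntegers.ext
  exact hq.compat g (x : K)

theorem qu1_int_symm (hq : Quo ι ι' π) (g : G) (x : 𝓞 K) :
    (RingOfIntegers.mapRingEquiv (ι g).toRingEquiv).symm (algebraMap (𝓞 K) (𝓞 H) x) =
      algebraMap (𝓞 K) (𝓞 H) ((RingOfIntegers.mapRingEquiv (ι' (π g)).toRingEquiv).symm x) := by
  rw [RingEquiv.symm_apply_eq, ← qu1_int hq, RingEquiv.apply_symm_apply]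

theorem quo_fr (hq : Quo ι ι' π) {v : HeightOneSpectrum (𝓞 F)} {g : G} (hg : IsFr v (ι g)) :
    IsFr v (ι' (π g)) := by
  intro w hw x
  obtain ⟨W, hW⟩ := dn_surj (F := K) (H := H) (Sum.inr w)
  rcases W with W | W
  · exact absurd hW (by simp [dn])
  · have hW' : W.under (𝓞 K) = w := Sum.inr_injective hW
    have hF : W.under (𝓞 F) = v := by
      rw [← hw, ← hW']
      ext y
      show algebraMap (𝓞 F) (𝓞 H) y ∈ W.asIdeal ↔
        algebraMap (𝓞 K) (𝓞 H) (algebraMap (𝓞 F) (𝓞 K) y) ∈ W.asIdeal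
      have : algebraMap (𝓞 K) (𝓞 H) (algebraMap (𝓞 F) (𝓞 K) y) = algebraMap (𝓞 F) (𝓞 H) y := by
        apply RingOfIntegers.ext
        exact (IsScalarTower.algebraMap_apply F K H (y : F)).symm
      rw [this]
    have h := hg W hF (algebraMap (𝓞 K) (𝓞 H) x)
    rw [← hW']
    show algebraMap (𝓞 K) (𝓞 H) _ ∈ W.asIdeal
    rw [map_sub, map_pow, qu1_int hq]
    exact h

theorem quo_act (hq : Quo ι ι' π) (g : G) (W : Pl H) :
    dn K (act (ι g) W) = act (ι' (π g)) (dn K W) := by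
  rcases W with w | w
  · show Sum.inl ((ι g • w).comap (algebraMap K H)) =
      Sum.inl (ι' (π g) • w.comap (algebraMap K H))
    congr 1
    ext x
    rw [InfinitePlace.comap_apply, InfinitePlace.smul_apply, InfinitePlace.smul_apply,
      InfinitePlace.comap_apply, qu1_symm hq]
  · show Sum.inr _ = Sum.inr _
    congr 1
    ext x
    show (RingOfIntegers.mapRingEquiv (ι g).toRingEquiv).symm (algebraMap (𝓞 K) (𝓞 H) x) ∈
      w.asIdeal ↔ algebraMap (𝓞 K) (𝓞 H)
        ((RingOfIntegers.mapRingEquiv (ι' (π g)).toRingEquiv).symm x) ∈ w.asIdeal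
    rw [qu1_int_symm hq]

end QU

end Pool.Agent.RSK
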