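import Pool.Agent.Lib_helper17.RS.Bas
import Pool.Agent.Lib_helper17.RS.P_UP1
import Pool.Agent.Lib_helper17.RS.P_UP2
import Pool.Agent.Lib_helper17.RS.P_TW
import Pool.Agent.Lib_helper17.RS.P_LE
import Pool.Agent.Lib_helper17.RS.P_CB
import Pool.Agent.Lib_helper17.RS.P_CG
import Pool.Agent.Lib_helper17.RS.P_QU1
/-!
# RS block QU2 (helper37): the two cases for a subextension.
Uses: QU1 (quo_fr, quo_act), UP2 (act_trans), UP1 (dn_surj), TW (dn_dn, act_restrict), CB (cheb),
CG (core_gen), LE (leadx_non).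
-/

namespace Pool.Agent.RSK

set_option linter.unusedSectionVars false

open NumberField NumberField.InfinitePlace NumberField.Units IsDedekindDomain Filter Topology
  Complex

section QU

variable {F K H : Type} [Field F] [NumberField F] [Field K] [NumberField K] [Field H]
  [NumberField H] [Algebra F K] [Algebra F H] [Algebra K H] [IsScalarTower F K H]
  [IsGalois F H] [IsGalois F K] [IsGalois K H]
  {G G' : Type} [CommGroup G] [Fintype G] [CommGroup G'] [Fintype G'] {ι : G ≃* (H ≃ₐ[F] H)}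
  {ι' : G' ≃* (K ≃ₐ[F] K)} {π : G →* G'} {p : ℕ}
  {S T : Finset (HeightOneSpectrum (𝓞 F))} {r : ℕ} {w : Fin r → Pl H}
  {fr : HeightOneSpectrum (𝓞 F) → G}

/-- the places below split places split -/
theorem qu2_split (hq : Quo ι ι' π) {W : Pl H} (hW : ∀ σ : H ≃ₐ[F] H, act σ W = W → σ = 1)
    (σ' : K ≃ₐ[F] K) (hσ' : act σ' (dn K W) = dn K W) : σ' = 1 := by
  obtain ⟨g, hg⟩ := hq.surj (ι'.symm σ')
  have hσg : ι' (π g) = σ' := by rw [hg, MulEquiv.apply_symm_apply]
  have h1 : dn K (act (ι g) W) = dn K W := by rw [quo_act hq, hσg, hσ']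
  obtain ⟨τ, hτ⟩ := act_trans (F := K) h1
  have h2 : act (τ.restrictScalars F * ι g) W = W := by rw [act_mul, act_restrict, hτ]
  have h3 := hW _ h2
  ext x
  have h4 : ι g (algebraMap K H x) = algebraMap K H x := by
    have h5 : τ (ι g (algebraMap K H x)) = algebraMap K H x := by
      have h6 := congrArg (fun σ : H ≃ₐ[F] H => σ (algebraMap K H x)) h3
      exact h6
    exact τ.injective (h5.trans (τ.commutes x).symm)
  refine (algebraMap K H).injective ?_
  rw [← hσg, hq.compat, h4]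
  rfl

theorem qu2_unram {W : HeightOneSpectrum (𝓞 K)}
    (h : ∀ W' : HeightOneSpectrum (𝓞 H), W'.under (𝓞 F) = W.under (𝓞 F) →
      Algebra.IsUnramifiedAt (𝓞 F) W'.asIdeal) : Algebra.IsUnramifiedAt (𝓞 F) W.asIdeal := by
  obtain ⟨W', hW'⟩ := dn_surj (H := H) (Sum.inr W : Pl K)
  rcases W' with W' | W'
  · exact absurd hW' (by simp [dn])
  · have h1 : W'.under (𝓞 K) = W := Sum.inr_injective hW'
    have h2 := dn_dn (F₀ := F) (F := K) (Sum.inr W' : Pl H)
    have h3 : W'.under (𝓞 F) = W.under (𝓞 F) := by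
      rw [← h1]
      exact (Sum.inr_injective h2).symm
    have h4 := h W' h3
    have h5 : W'.asIdeal.LiesOver W.asIdeal := ⟨by rw [← h1]; rfl⟩
    exact Algebra.IsUnramifiedAt.of_liesOver (𝓞 F) W.asIdeal W'.asIdeal

/-- the Frobenius automorphism fixes the places -/
theorem qu2_fr_fix {v : HeightOneSpectrum (𝓞 F)} {σ : K ≃ₐ[F] K} (hσ : IsFr v σ)
    {W : HeightOneSpectrum (𝓞 K)} (hW : W.under (𝓞 F) = v) :
    act σ (Sum.inr W : Pl K) = Sum.inr W := by
  have h0 : nv v ≠ 0 := by
    intro h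
    exact HeightOneSpectrum.absNorm_ne_zero v (by unfold nv at h; exact_mod_cast h)
  have h1 : HeightOneSpectrum.equivOfRingEquiv
      (RingOfIntegers.mapRingEquiv σ.symm.toRingEquiv) W = W := by
    refine HeightOneSpectrum.ext ?_
    ext x
    have h1 : x ∈ (HeightOneSpectrum.equivOfRingEquiv
        (RingOfIntegers.mapRingEquiv σ.symm.toRingEquiv) W).asIdeal ↔
        RingOfIntegers.mapRingEquiv σ.toRingEquiv x ∈ W.asIdeal := Iff.rfl
    rw [h1]
    have h2 := hσ W hW x
    constructor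
    · intro h
      have h3 : x ^ nv v ∈ W.asIdeal := by
        have h4 := W.asIdeal.sub_mem h h2
        rwa [sub_sub_cancel] at h4
      exact W.isPrime.mem_of_pow_mem _ h3
    · intro h
      have h3 : x ^ nv v ∈ W.asIdeal := Ideal.pow_mem_of_mem _ h _ (Nat.pos_of_ne_zero h0)
      have h4 := W.asIdeal.add_mem h2 h3
      rwa [sub_add_cancel] at h4
  have h2 : act σ⁻¹ (Sum.inr W : Pl K) = Sum.inr W := congrArg Sum.inr h1
  conv_lhs => rw [← h2]
  rw [← act_mul, mul_inv_cancel, act_one]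

theorem qu2_inS {S : Finset (HeightOneSpectrum (𝓞 F))} (P : PS S) : InS S P.pl := by
  rcases P with P | P
  · trivial
  · exact P.2

theorem qu2_of_inS {S : Finset (HeightOneSpectrum (𝓞 F))} {v : Pl F} (h : InS S v) :
    ∃ P : PS S, P.pl = v := by
  rcases v with v | v
  · exact ⟨Sum.inl v, rfl⟩
  · exact ⟨Sum.inr ⟨v, h⟩, rfl⟩

theorem qu2_pl_inj {S : Finset (HeightOneSpectrum (𝓞 F))} {P P' : PS S} (h : P.pl = P'.pl) :
    P = P' := by
  rcases P with P | P <;> rcases P' with P' | P'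
  · have h' : (Sum.inl P : Pl F) = Sum.inl P' := h
    rw [Sum.inl_injective h']
  · exact absurd (show (Sum.inl P : Pl F) = Sum.inr P'.1 from h) (by simp)
  · exact absurd (show (Sum.inr P.1 : Pl F) = Sum.inl P' from h) (by simp)
  · have h' : (Sum.inr P.1 : Pl F) = Sum.inr P'.1 := h
    have h'' : P = P' := Subtype.ext (Sum.inr_injective h')
    rw [h'']

/-- the split places -/
theorem qu2_enum (F K : Type) [Field F] [NumberField F] [Field K] [NumberField K] [Algebra F K]
    (S : Finset (HeightOneSpectrum (𝓞 F))) :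
    ∃ (r' : ℕ) (w' : Fin r' → Pl K), r' ≤ Fintype.card (PS S) ∧ (∀ i, InS S (dn F (w' i))) ∧
      (∀ i, ∀ σ : K ≃ₐ[F] K, act σ (w' i) = w' i → σ = 1) ∧
      (∀ i j, dn F (w' i) = dn F (w' j) → i = j) ∧
      ∀ W : Pl K, InS S (dn F W) → (∀ σ : K ≃ₐ[F] K, act σ W = W → σ = 1) →
        ∃ i, dn F W = dn F (w' i) := by
  classical
  let A : Type := {P : PS S // ∃ W : Pl K, dn F W = P.pl ∧ ∀ σ : K ≃ₐ[F] K, act σ W = W → σ = 1}
  let e : A ≃ Fin (Fintype.card A) := Fintype.equivFin A
  refine ⟨Fintype.card A, fun i => (e.symm i).2.choose, Fintype.card_subtype_le _, ?_, ?_, ?_, ?_⟩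
  · intro i
    rw [(e.symm i).2.choose_spec.1]
    exact qu2_inS _
  · intro i
    exact (e.symm i).2.choose_spec.2
  · intro i j h
    rw [(e.symm i).2.choose_spec.1, (e.symm j).2.choose_spec.1] at h
    exact e.symm.injective (Subtype.ext (qu2_pl_inj h))
  · intro W hW hs
    obtain ⟨P, hP⟩ := qu2_of_inS hW
    refine ⟨e ⟨P, W, hP.symm, hs⟩, ?_⟩
    rw [(e.symm (e ⟨P, W, hP.symm, hs⟩)).2.choose_spec.1, Equiv.symm_apply_apply, hP]

theorem qu2_lead {Γ : Type} [CommGroup Γ] {S T : Finset (HeightOneSpectrum (𝓞 F))} {r r' : ℕ}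
    {fr : HeightOneSpectrum (𝓞 F) → Γ} {c : (Γ →* ℂˣ) → ℂ} (h : LeadX S T r' fr c) (hr : r < r') :
    LeadX S T r fr (fun _ => 0) := by
  intro χ hχ
  obtain ⟨Λ, h1, h2, h3⟩ := h χ hχ
  refine ⟨Λ, h1, h2, ?_⟩
  have h4 : Tendsto (fun s : ℂ => s ^ (r' - r)) (𝓝[≠] 0) (𝓝 0) := by
    have h5 : Tendsto (fun s : ℂ => s ^ (r' - r)) (𝓝 0) (𝓝 (0 ^ (r' - r))) :=
      (continuous_pow (r' - r)).tendsto 0
    rw [zero_pow (by omega)] at h5
    exact h5.mono_left nhdsWithin_le_nhds
  have h5 := h3.mul h4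
  rw [mul_zero] at h5
  refine h5.congr' ?_
  filter_upwards [self_mem_nhdsWithin] with s hs
  have hs' : s ≠ 0 := hs
  have e : s ^ r' = s ^ r * s ^ (r' - r) := by rw [← pow_add]; congr 1; omega
  have h6 : s ^ r ≠ 0 := pow_ne_zero _ hs'
  have h7 : s ^ (r' - r) ≠ 0 := pow_ne_zero _ hs'
  rw [e]
  field_simp

/-- Either exactly the places `v_1, …, v_r` of `S` split in `K`, or the characters of `G'` have
`L^{(r)}_{S,T}(χ, 0) = 0`. -/
theorem case_K {F₀ L : Type} [Field F₀] [NumberField F₀] [Field L] [NumberField L]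
    [Algebra F₀ F] [Algebra F₀ L] [Algebra F₀ K] [Algebra L K] [IsScalarTower F₀ F K]
    [IsScalarTower F₀ L K] [IsGalois F₀ K] [IsGalois F₀ F] [IsGalois L K] (hp2 : p ≠ 2)
    (hq : Quo ι ι' π)
    (hA : Afn F₀ F L K ι' p) (hD : Data ι S T r w fr)
    (hS : r + 2 ≤ Fintype.card (InfinitePlace F) + S.card) :
    Data ι' S T r (fun i => dn K (w i)) (fun v => π (fr v)) ∨
      LeadX S T r (fun v => π (fr v)) (fun _ => 0) := by
  classical
  by_cases hall : ∀ W : Pl K, InS S (dn F W) → (∀ σ : K ≃ₐ[F] K, act σ W = W → σ = 1) →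
      ∃ i, dn F W = dn F (w i)
  · left
    refine ⟨hD.disj, ?_, hD.tors, ?_, ?_, ?_, ?_, ?_, ?_⟩
    · intro W hW
      exact qu2_unram (H := H) fun W' hW' => hD.unram W' (by rw [hW']; exact hW)
    · intro i
      rw [dn_dn]
      exact hD.mem i
    · intro i
      exact qu2_split hq (hD.split i)
    · intro i j h
      rw [dn_dn, dn_dn] at h
      exact hD.inj i j h
    · intro W h1 h2
      obtain ⟨i, hi⟩ := hall W h1 h2
      exact ⟨i, by rw [dn_dn, hi]⟩
    · exact hD.card
    · intro v hv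
      exact quo_fr hq (hD.frob v hv)
  · right
    push Not at hall
    obtain ⟨W, hWS, hWs, hW⟩ := hall
    obtain ⟨r', w', hr', hmem, hsp, hinj, hal⟩ := qu2_enum F K S
    have hcardS : Fintype.card (PS S) = Fintype.card (InfinitePlace F) + S.card := by
      rw [Fintype.card_sum, Fintype.card_coe]
    -- `r < r'`
    have hrr : r < r' := by
      have h1 : ∀ j : Option (Fin r), ∃ i, dn F (j.elim W (fun i => dn K (w i))) = dn F (w' i) := by
        intro j
        rcases j with _ | j
        · exact hal W hWS hWs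
        · refine hal (dn K (w j)) ?_ (qu2_split hq (hD.split j))
          rw [dn_dn]
          exact hD.mem j
      choose φ hφ using h1
      have h2 : Function.Injective φ := by
        intro j j' h
        have h3 : dn F (j.elim W (fun i => dn K (w i))) =
            dn F (j'.elim W (fun i => dn K (w i))) := by rw [hφ, hφ, h]
        rcases j with _ | j <;> rcases j' with _ | j'
        · rfl
        · exact absurd (show dn F W = dn F (dn K (w j')) from h3) (by rw [dn_dn]; exact hW j')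
        · exact absurd (show dn F W = dn F (dn K (w j)) from h3.symm) (by rw [dn_dn]; exact hW j)
        · have h4 : dn F (dn K (w j)) = dn F (dn K (w j')) := h3
          rw [dn_dn, dn_dn] at h4
          rw [hD.inj j j' h4]
      have h3 := Fintype.card_le_of_injective φ h2
      rw [Fintype.card_option, Fintype.card_fin, Fintype.card_fin] at h3
      exact h3
    -- the two additional places
    have hp := hA.prime
    obtain ⟨l, hl, hlp⟩ : ∃ l : ℕ, l.Prime ∧ l ≠ p := ⟨2, Nat.prime_two, fun h => hp2 h.symm⟩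
    set B : Finset (HeightOneSpectrum (𝓞 F₀)) := (S ∪ T).image (fun v => v.under (𝓞 F₀)) with hB
    have hex : ∀ v₀ : HeightOneSpectrum (𝓞 F₀), ∃ v : HeightOneSpectrum (𝓞 F),
        v.under (𝓞 F₀) = v₀ := by
      intro v₀
      obtain ⟨v, hv⟩ := dn_surj (H := F) (Sum.inr v₀ : Pl F₀)
      rcases v with v | v
      · exact absurd hv (by simp [dn])
      · exact ⟨v, Sum.inr_injective hv⟩
    obtain ⟨v₀, hv₀B, hv₀⟩ := cheb hp2 hA B hl hlp
    obtain ⟨v₁, hv₁B, hv₁⟩ := cheb hp2 hA (insert v₀ B) hl hlp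
    obtain ⟨v, hv⟩ := hex v₀
    obtain ⟨v', hv'⟩ := hex v₁
    have hvS : v ∉ S := fun h => hv₀B (by
      rw [← hv]; exact Finset.mem_image_of_mem _ (Finset.mem_union_left _ h))
    have hvT : v ∉ T := fun h => hv₀B (by
      rw [← hv]; exact Finset.mem_image_of_mem _ (Finset.mem_union_right _ h))
    have hvS' : v' ∉ S := fun h => hv₁B (Finset.mem_insert_of_mem (by
      rw [← hv']; exact Finset.mem_image_of_mem _ (Finset.mem_union_left _ h)))
    have hvT' : v' ∉ T := fun h => hv₁B (Finset.mem_insert_of_mem (by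
      rw [← hv']; exact Finset.mem_image_of_mem _ (Finset.mem_union_right _ h)))
    have hvv : v' ≠ v := fun h => hv₁B (by
      rw [← hv', h, hv]; exact Finset.mem_insert_self _ _)
    have hv'c : v' ∉ Finset.cons v S hvS := by
      rw [Finset.mem_cons, not_or]
      exact ⟨hvv, hvS'⟩
    have hns : ∀ g : G', IsFr v (ι' g) → g ≠ 1 := (hv₀ v (by
      rw [mem_ovr, hv]; exact Finset.mem_singleton_self _)).2.2
    have hns' : ∀ g : G', IsFr v' (ι' g) → g ≠ 1 := (hv₁ v' (by
      rw [mem_ovr, hv']; exact Finset.mem_singleton_self _)).2.2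
    have hfrv : ∀ u, u ∉ S → IsFr u (ι' (π (fr u))) := fun u hu => quo_fr hq (hD.frob u hu)
    have hnosplit : ∀ u : HeightOneSpectrum (𝓞 F), u ∉ S → (∀ g : G', IsFr u (ι' g) → g ≠ 1) →
        ∀ W : HeightOneSpectrum (𝓞 K), W.under (𝓞 F) = u →
        ¬ ∀ σ : K ≃ₐ[F] K, act σ (Sum.inr W : Pl K) = Sum.inr W → σ = 1 := by
      intro u hu hg W hWu h
      have h1 := h _ (qu2_fr_fix (hfrv u hu) hWu)
      exact hg _ (hfrv u hu) ((map_eq_one_iff ι' ι'.injective).1 h1)
    set S₂ : Finset (HeightOneSpectrum (𝓞 F)) := Finset.cons v' (Finset.cons v S hvS) hv'c with hS₂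
    have hSS₂ : ∀ u, u ∉ S₂ → u ∉ S := fun u hu h => hu (by
      rw [hS₂, Finset.mem_cons, Finset.mem_cons]; exact Or.inr (Or.inr h))
    have hcard₂ : S₂.card = S.card + 2 := by
      rw [hS₂, Finset.card_cons, Finset.card_cons]
    have hinS₂ : ∀ P : Pl F, InS S P → InS S₂ P := by
      intro P hP
      rcases P with P | P
      · trivial
      · show P ∈ S₂
        by_contra h
        exact hSS₂ P h hP
    have hD' : Data ι' S₂ T r' w' (fun v => π (fr v)) := by
      refine ⟨?_, ?_, hD.tors, ?_, hsp, hinj, ?_, ?_, ?_⟩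
      · rw [Finset.disjoint_left]
        intro u hu
        rw [hS₂, Finset.mem_cons, Finset.mem_cons] at hu
        rcases hu with rfl | rfl | hu
        · exact hvT'
        · exact hvT
        · exact Finset.disjoint_left.1 hD.disj hu
      · intro W hW
        exact qu2_unram (H := H) fun W' hW' => hD.unram W' (by rw [hW']; exact hSS₂ _ hW)
      · intro i
        exact hinS₂ _ (hmem i)
      · intro W hW hs
        refine hal W ?_ hs
        rcases W with W | W
        · trivial
        · have h1 : W.under (𝓞 F) ∈ S₂ := hW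
          rw [hS₂, Finset.mem_cons, Finset.mem_cons] at h1
          rcases h1 with h1 | h1 | h1
          · exact absurd hs (hnosplit v' hvS' hns' W h1)
          · exact absurd hs (hnosplit v hvS hns W h1)
          · exact h1
      · rw [hcard₂]
        omega
      · intro u hu
        exact hfrv u (hSS₂ u hu)
    have hntr : Nontrivial G' := by
      rw [← Finite.one_lt_card_iff_nontrivial, hA.cardG]
      exact hp.one_lt
    obtain ⟨σ, hσ⟩ := exists_ne (1 : G')
    have hcardS₂ : Fintype.card (PS S₂) = r' + (Fintype.card (PS S) + 1 - r') + 1 := by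
      rw [Fintype.card_sum, Fintype.card_coe, hcard₂, hcardS]
      rw [hcardS] at hr'
      omega
    obtain ⟨c, hc, -⟩ := core_gen hp2 hA hD' hσ
      (m := Fintype.card (PS S) + 1 - r') (by omega) hcardS₂
    have hf1 : (fun v => π (fr v)) v' ≠ 1 := hns' (π (fr v')) (hfrv v' hvS')
    have hf2 : (fun v => π (fr v)) v ≠ 1 := hns (π (fr v)) (hfrv v hvS)
    have h1 := leadx_non (fr := fun v => π (fr v)) hp hA.cardG hv'c hf1 hc
    have h2 := leadx_non (fr := fun v => π (fr v)) hp hA.cardG hvS hf2 h1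
    exact qu2_lead h2 hrr

end QU

end Pool.Agent.RSK
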