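import Pool.Agent.Lib_helper17.RS.Bas
import Pool.Agent.Lib_helper17.RS.P_UP2
import Pool.Agent.Lib_helper17.RS.P_QU1
namespace Pool.Agent.RSK

set_option linter.unusedSectionVars false

open NumberField NumberField.InfinitePlace NumberField.Units IsDedekindDomain Filter Topology
  Complex

section QU

variable {F K H : Type} [Field F] [NumberField F] [Field K] [NumberField K] [Field H]
  [NumberField H] [Algebra F K] [Algebra F H] [Algebra K H] [IsScalarTower F K H]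
  [IsGalois F H] [IsGalois F K] [IsGalois K H]
  {G G' : Type} [CommGroup G] [Fintype G] [CommGroup G'] [Fintype G'] {ι : G ≃* (H ≃ₐ[F] H)}
  {ι' : G' ≃* (K ≃ₐ[F] K)} {π : G →* G'} {p : ℕ}
  {S T : Finset (HeightOneSpectrum (𝓞 F))} {r : ℕ} {w : Fin r → Pl H}
  {fr : HeightOneSpectrum (𝓞 F) → G}

theorem tr1_restrict (σ : H ≃ₐ[K] H) (W : Pl H) : act (σ.restrictScalars F) W = act σ W := by
  rcases W with w | w
  · rfl
  · rfl

theorem tr1_one {W : Pl H} (hW : ∀ σ : H ≃ₐ[F] H, act σ W = W → σ = 1) (τ : H ≃ₐ[F] H)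
    (σ : H ≃ₐ[K] H) (h : act σ (act τ W) = act τ W) : σ = 1 := by
  have h1 : act (τ⁻¹ * σ.restrictScalars F * τ) W = W := by
    rw [act_mul, act_mul, tr1_restrict, h, ← act_mul, inv_mul_cancel, act_one]
  have h2 := hW _ h1
  have h3 : σ.restrictScalars F = 1 := by
    have : σ.restrictScalars F = τ * (τ⁻¹ * σ.restrictScalars F * τ) * τ⁻¹ := by group
    rw [this, h2]
    group
  ext x
  exact DFunLike.congr_fun h3 x

theorem tr1_lg {W : Pl H} (hW : ∀ σ : H ≃ₐ[F] H, act σ W = W → σ = 1) (τ : H ≃ₐ[F] H) (x : K) :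
    lg (act τ W) (algebraMap K H x) = lg (dn K (act τ W)) x := by
  rw [lg_gal (F := K)]
  have : Nat.card {σ : H ≃ₐ[K] H // act σ (act τ W) = act τ W} = 1 := by
    rw [Nat.card_eq_one_iff_unique]
    refine ⟨⟨fun a b => ?_⟩, ⟨⟨1, act_one _⟩⟩⟩
    apply Subtype.ext
    rw [tr1_one hW τ a.1 a.2, tr1_one hW τ b.1 b.2]
  rw [this, Nat.cast_one, one_mul]

theorem tr1_evR (χ : G →* ℂˣ) (W : Pl H) (u : UM ι S T) :
    evR χ (wl ι S T W u) = ∑ γ : G, ((lg (act (ι γ) W) (u.val : H) : ℝ) : ℂ) * (χ γ : ℂ) := by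
  show evR χ (∑ γ : G, MonoidAlgebra.single γ (lg (act (ι γ) W) (u.val : H))) = _
  rw [map_sum]
  refine Finset.sum_congr rfl fun γ _ => ?_
  unfold evR
  rw [MonoidAlgebra.lift_single]
  simp

theorem tr1_sum (hπ : Function.Surjective π) (f : G' → ℂ) :
    ∑ γ : G, f (π γ) = (Nat.card π.ker : ℂ) * ∑ γ' : G', f γ' := by
  classical
  rw [Finset.mul_sum, ← Finset.sum_fiberwise_of_maps_to (s := Finset.univ) (t := Finset.univ)
    (g := π) (fun _ _ => Finset.mem_univ _)]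
  refine Finset.sum_congr rfl fun γ' _ => ?_
  have h1 : ∀ γ ∈ Finset.univ.filter (fun γ : G => π γ = γ'), f (π γ) = f γ' := by
    intro γ hγ
    rw [(Finset.mem_filter.1 hγ).2]
  rw [Finset.sum_congr rfl h1, Finset.sum_const, nsmul_eq_mul]
  congr 1
  obtain ⟨γ₀, hγ₀⟩ := hπ γ'
  have h2 : (Finset.univ.filter (fun γ : G => π γ = γ')).card = Nat.card π.ker := by
    rw [Nat.card_eq_fintype_card, Fintype.card_subtype]
    refine Finset.card_bij (fun γ _ => γ₀⁻¹ * γ) ?_ ?_ ?_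
    · intro γ hγ
      rw [Finset.mem_filter] at hγ ⊢
      refine ⟨Finset.mem_univ _, ?_⟩
      rw [MonoidHom.mem_ker, map_mul, map_inv, hγ₀, hγ.2, inv_mul_cancel]
    · intro a _ b _ hab
      exact mul_left_cancel hab
    · intro b hb
      rw [Finset.mem_filter] at hb
      refine ⟨γ₀ * b, ?_, by group⟩
      rw [Finset.mem_filter]
      refine ⟨Finset.mem_univ _, ?_⟩
      rw [map_mul, hγ₀, MonoidHom.mem_ker.1 hb.2, mul_one]
  rw [h2]

theorem wl_up (hq : Quo ι ι' π) {W : Pl H} (hW : ∀ σ : H ≃ₐ[F] H, act σ W = W → σ = 1)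
    (u : UM ι S T) (u' : UM ι' S T)
    (hu : u.val = Units.map (algebraMap K H : K →* H) u'.val) (χ' : G' →* ℂˣ) :
    evR (χ'.comp π) (wl ι S T W u) =
      (Nat.card π.ker : ℂ) * evR χ' (wl ι' S T (dn K W) u') := by
  rw [tr1_evR, tr1_evR, ← tr1_sum hq.surj
    (fun γ' => ((lg (act (ι' γ') (dn K W)) (u'.val : K) : ℝ) : ℂ) * (χ' γ' : ℂ))]
  refine Finset.sum_congr rfl fun γ _ => ?_
  have h1 : (u.val : H) = algebraMap K H (u'.val : K) := by
    rw [hu]
    rfl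
  rw [h1, tr1_lg hW, quo_act hq]
  rfl

end QU

end Pool.Agent.RSK
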