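import Pool.Agent.Lib_helper17.RS.Bas
import Pool.Agent.Lib_helper17.RS.BasZ
import Pool.Agent.Lib_helper17.RS.P_UP1
import Pool.Agent.Lib_helper17.RS.P_TW
import Pool.Agent.Lib_helper17.RS.P_TR1
/-!
# Rubin-Stark, block TR2: transport from a subextension
-/

namespace Pool.Agent.RSK

set_option linter.unusedSectionVars false

open NumberField NumberField.InfinitePlace NumberField.Units IsDedekindDomain Filter Topology
  Complex

/-! ## Group rings -/

section TR2alg

variable {G G' : Type} [CommGroup G] [Fintype G] [CommGroup G'] [Fintype G'] (π : G →* G')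

theorem tr2_ind {k M : Type} [Semiring k] {P : MonoidAlgebra k M → Prop} (x : MonoidAlgebra k M)
    (h0 : P 0) (h1 : ∀ g c, P (MonoidAlgebra.single g c)) (h2 : ∀ a b, P a → P b → P (a + b)) :
    P x := by
  rw [← MonoidAlgebra.sum_coeff_single x, Finsupp.sum]
  exact Finset.sum_induction _ P h2 h0 fun g _ => h1 g _

open Classical in
/-- the sum of the elements of the kernel of `π` -/
noncomputable def tr2N (k : Type) [CommRing k] : MonoidAlgebra k G :=
  ∑ g ∈ Finset.univ.filter (fun g : G => π g = 1), MonoidAlgebra.single g 1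

variable {π}

theorem tr2N_mul (k : Type) [CommRing k] {a b : G} (h : π a = π b) (c : k) :
    tr2N π k * MonoidAlgebra.single a c = tr2N π k * MonoidAlgebra.single b c := by
  classical
  unfold tr2N
  rw [Finset.sum_mul, Finset.sum_mul]
  refine Finset.sum_bij (fun g _ => g * a * b⁻¹) ?_ ?_ ?_ ?_
  · intro g hg
    rw [Finset.mem_filter] at hg ⊢
    refine ⟨Finset.mem_univ _, ?_⟩
    rw [map_mul, map_mul, map_inv, hg.2, h, one_mul, mul_inv_cancel]
  · intro g _ g' _ hgg
    exact mul_right_cancel (mul_right_cancel hgg)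
  · intro g hg
    rw [Finset.mem_filter] at hg
    refine ⟨g * b * a⁻¹, ?_, by group⟩
    rw [Finset.mem_filter]
    refine ⟨Finset.mem_univ _, ?_⟩
    rw [map_mul, map_mul, map_inv, hg.2, h, one_mul, mul_inv_cancel]
  · intro g _
    rw [MonoidAlgebra.single_mul_single, MonoidAlgebra.single_mul_single]
    congr 1
    group

variable (π) in
/-- the pull back -/
noncomputable def tr2P (s : G' → G) (k : Type) [CommRing k] (x : MonoidAlgebra k G') :
    MonoidAlgebra k G :=
  tr2N π k * MonoidAlgebra.mapDomain s x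

theorem tr2P_add (s : G' → G) (k : Type) [CommRing k] (x y : MonoidAlgebra k G') :
    tr2P π s k (x + y) = tr2P π s k x + tr2P π s k y := by
  unfold tr2P
  rw [MonoidAlgebra.mapDomain_add, mul_add]

theorem tr2P_zero (s : G' → G) (k : Type) [CommRing k] :
    tr2P π s k (0 : MonoidAlgebra k G') = 0 := by
  unfold tr2P
  rw [MonoidAlgebra.mapDomain_zero, mul_zero]

theorem tr2P_mul {s : G' → G} (hs : ∀ g, π (s g) = g) (k : Type) [CommRing k]
    (x : MonoidAlgebra k G') (z : MonoidAlgebra k G) :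
    tr2P π s k x * z = tr2P π s k (x * MonoidAlgebra.mapDomainRingHom k π z) := by
  induction x using tr2_ind with
  | h0 => rw [tr2P_zero, zero_mul, zero_mul, tr2P_zero]
  | h2 a b ha hb => rw [tr2P_add, add_mul, add_mul, tr2P_add, ha, hb]
  | h1 g c =>
    induction z using tr2_ind with
    | h0 => rw [mul_zero, map_zero, mul_zero, tr2P_zero]
    | h2 a b ha hb => rw [mul_add, map_add, mul_add, tr2P_add, ha, hb]
    | h1 h d =>
      have e1 : MonoidAlgebra.mapDomainRingHom k π (MonoidAlgebra.single h d) =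
          MonoidAlgebra.single (π h) d := by
        show MonoidAlgebra.mapDomain π (MonoidAlgebra.single h d) = _
        rw [MonoidAlgebra.mapDomain_single]
      rw [e1, MonoidAlgebra.single_mul_single]
      unfold tr2P
      rw [MonoidAlgebra.mapDomain_single, MonoidAlgebra.mapDomain_single, mul_assoc,
        MonoidAlgebra.single_mul_single]
      apply tr2N_mul
      rw [map_mul, hs, hs]

theorem tr2_toQ (s : G' → G) (x : MonoidAlgebra ℤ G') :
    tr2P π s ℚ (toQ G' x) = toQ G (tr2P π s ℤ x) := by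
  unfold tr2P
  rw [map_mul]
  congr 1
  · unfold tr2N toQ
    rw [map_sum]
    refine Finset.sum_congr rfl fun g _ => ?_
    simp
  · induction x using tr2_ind with
    | h0 => rw [map_zero, MonoidAlgebra.mapDomain_zero, MonoidAlgebra.mapDomain_zero, map_zero]
    | h2 a b ha hb =>
      rw [map_add, MonoidAlgebra.mapDomain_add, MonoidAlgebra.mapDomain_add, map_add, ha, hb]
    | h1 g c =>
      rw [MonoidAlgebra.mapDomain_single]
      unfold toQ
      simp

theorem tr2_toQ_map (z : MonoidAlgebra ℤ G) :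
    MonoidAlgebra.mapDomainRingHom ℚ π (toQ G z) =
      toQ G' (MonoidAlgebra.mapDomainRingHom ℤ π z) := by
  induction z using tr2_ind with
  | h0 => simp
  | h2 a b ha hb => rw [map_add, map_add, map_add, map_add, ha, hb]
  | h1 g c =>
    have e1 : ∀ (k : Type) [CommRing k] (c : k),
        MonoidAlgebra.mapDomainRingHom k π (MonoidAlgebra.single g c) =
          MonoidAlgebra.single (π g) c := fun k _ c => by
      show MonoidAlgebra.mapDomain π (MonoidAlgebra.single g c) = _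
      rw [MonoidAlgebra.mapDomain_single]
    rw [e1]
    unfold toQ
    simp only [MonoidAlgebra.mapRingHom_single]
    exact e1 ℚ _

open Classical in
theorem tr2_card : (Finset.univ.filter (fun g : G => π g = 1)).card = Nat.card π.ker := by
  rw [← Fintype.card_subtype, ← Nat.card_eq_fintype_card]
  exact Nat.card_congr (Equiv.subtypeEquivRight fun g => by rw [MonoidHom.mem_ker])

theorem tr2_ev {s : G' → G} (hs : ∀ g, π (s g) = g) (χ' : G' →* ℂˣ) (x : MonoidAlgebra ℚ G') :
    evQ (χ'.comp π) (tr2P π s ℚ x) = (Nat.card π.ker : ℂ) * evQ χ' x := by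
  classical
  unfold tr2P
  rw [map_mul]
  congr 1
  · unfold tr2N
    rw [map_sum, ← tr2_card, Finset.card_eq_sum_ones, Nat.cast_sum]
    refine Finset.sum_congr rfl fun g hg => ?_
    rw [Finset.mem_filter] at hg
    unfold evQ
    rw [MonoidAlgebra.lift_single]
    simp [hg.2]
  · induction x using tr2_ind with
    | h0 => rw [MonoidAlgebra.mapDomain_zero, map_zero, map_zero]
    | h2 a b ha hb => rw [MonoidAlgebra.mapDomain_add, map_add, map_add, ha, hb]
    | h1 g c =>
      rw [MonoidAlgebra.mapDomain_single]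
      unfold evQ
      rw [MonoidAlgebra.lift_single, MonoidAlgebra.lift_single]
      simp [hs]

theorem tr2_ev_zero {s : G' → G} (hsurj : Function.Surjective π) (χ : G →* ℂˣ)
    (hχ : ¬ ∃ χ' : G' →* ℂˣ, χ = χ'.comp π) (x : MonoidAlgebra ℚ G') :
    evQ χ (tr2P π s ℚ x) = 0 := by
  classical
  obtain ⟨n₀, hn₀, hχn⟩ : ∃ n₀ : G, π n₀ = 1 ∧ χ n₀ ≠ 1 := by
    by_contra hcon
    push Not at hcon
    apply hχ
    have hker : π.ker ≤ χ.ker := fun g hg => hcon g hg
    refine ⟨(QuotientGroup.lift π.ker χ hker).comp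
      (QuotientGroup.quotientKerEquivOfSurjective π hsurj).symm.toMonoidHom, ?_⟩
    ext g
    have : (QuotientGroup.quotientKerEquivOfSurjective π hsurj).symm (π g) =
        (QuotientGroup.mk g : G ⧸ π.ker) := by
      rw [MulEquiv.symm_apply_eq]
      rfl
    simp only [MonoidHom.comp_apply]
    show ((χ g : ℂˣ) : ℂ) = ((QuotientGroup.lift π.ker χ hker
      ((QuotientGroup.quotientKerEquivOfSurjective π hsurj).symm (π g)) : ℂˣ) : ℂ)
    rw [this]
    rfl
  unfold tr2P
  rw [map_mul]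
  have e0 : tr2N π ℚ * MonoidAlgebra.single n₀ 1 = tr2N π ℚ := by
    have := tr2N_mul ℚ (π := π) (a := n₀) (b := 1) (by rw [hn₀, map_one]) 1
    rw [this, ← MonoidAlgebra.one_def, mul_one]
  have e1 : evQ χ (tr2N π ℚ) * (χ n₀ : ℂ) = evQ χ (tr2N π ℚ) := by
    conv_rhs => rw [← e0, map_mul]
    congr 1
    unfold evQ
    rw [MonoidAlgebra.lift_single]
    simp
  have e2 : evQ χ (tr2N π ℚ) = 0 := by
    have h3 : evQ χ (tr2N π ℚ) * ((χ n₀ : ℂ) - 1) = 0 := by rw [mul_sub, e1, mul_one, sub_self]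
    rcases mul_eq_zero.mp h3 with h | h
    · exact h
    · exfalso
      apply hχn
      ext
      rw [Units.val_one]
      exact sub_eq_zero.mp h
  rw [e2, zero_mul]

/-- invariant elements -/
theorem tr2_inv {s : G' → G} (hs : ∀ g, π (s g) = g) (y : MonoidAlgebra ℤ G)
    (hy : ∀ n : G, π n = 1 → MonoidAlgebra.single n (1 : ℤ) * y = y) :
    MonoidAlgebra.mapDomainRingHom ℤ π y =
      (Nat.card π.ker : ℤ) • ∑ g' : G', MonoidAlgebra.single g' (y.coeff (s g')) := by
  classical
  have hc : ∀ a b : G, π a = π b → y.coeff a = y.coeff b := by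
    intro a b hab
    have h1 := hy (b * a⁻¹) (by rw [map_mul, map_inv, hab, mul_inv_cancel])
    have h2 : (MonoidAlgebra.single (b * a⁻¹) (1 : ℤ) * y).coeff b = y.coeff b := by rw [h1]
    rw [MonoidAlgebra.coeff_single_mul_apply] at h2
    rw [← h2, one_mul]
    congr 1
    group
  have e1 : y = ∑ g : G, MonoidAlgebra.single g (y.coeff g) := by
    conv_lhs => rw [← MonoidAlgebra.sum_coeff_single y, Finsupp.sum]
    refine Finset.sum_subset (Finset.subset_univ _) fun g _ hg => ?_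
    rw [Finsupp.notMem_support_iff] at hg
    rw [hg, MonoidAlgebra.single_zero]
  conv_lhs => rw [e1, map_sum]
  have e2 : ∀ g : G, MonoidAlgebra.mapDomainRingHom ℤ π (MonoidAlgebra.single g (y.coeff g)) =
      MonoidAlgebra.single (π g) (y.coeff (s (π g))) := by
    intro g
    have h1 : MonoidAlgebra.mapDomainRingHom ℤ π (MonoidAlgebra.single g (y.coeff g)) =
        MonoidAlgebra.single (π g) (y.coeff g) := by
      show MonoidAlgebra.mapDomain π (MonoidAlgebra.single g (y.coeff g)) = _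
      rw [MonoidAlgebra.mapDomain_single]
    rw [h1, hc g (s (π g)) (by rw [hs])]
  rw [Finset.sum_congr rfl (fun g _ => e2 g), Finset.smul_sum,
    ← Finset.sum_fiberwise_of_maps_to (t := Finset.univ) (g := π) (fun g _ => Finset.mem_univ _)]
  refine Finset.sum_congr rfl fun g' _ => ?_
  have e3 : ∀ g ∈ Finset.univ.filter (fun g : G => π g = g'),
      MonoidAlgebra.single (π g) (y.coeff (s (π g))) =
        MonoidAlgebra.single g' (y.coeff (s g')) := by
    intro g hg
    rw [(Finset.mem_filter.mp hg).2]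
  rw [Finset.sum_congr rfl e3, Finset.sum_const]
  have e4 : (Finset.univ.filter (fun g : G => π g = g')).card = Nat.card π.ker := by
    rw [← tr2_card]
    refine Finset.card_bij (fun g _ => g * (s g')⁻¹) ?_ ?_ ?_
    · intro g hg
      rw [Finset.mem_filter] at hg ⊢
      refine ⟨Finset.mem_univ _, ?_⟩
      rw [map_mul, map_inv, hs, hg.2, mul_inv_cancel]
    · intro a _ b _ hab
      exact mul_right_cancel hab
    · intro b hb
      rw [Finset.mem_filter] at hb
      refine ⟨b * s g', ?_, by group⟩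
      rw [Finset.mem_filter]
      refine ⟨Finset.mem_univ _, ?_⟩
      rw [map_mul, hs, hb.2, one_mul]
  rw [e4]
  norm_cast

end TR2alg

section TR2

variable {F K H : Type} [Field F] [NumberField F] [Field K] [NumberField K] [Field H]
  [NumberField H] [Algebra F K] [Algebra F H] [Algebra K H] [IsScalarTower F K H]
  [IsGalois F H] [IsGalois F K] [IsGalois K H]
  {G G' : Type} [CommGroup G] [Fintype G] [CommGroup G'] [Fintype G'] {ι : G ≃* (H ≃ₐ[F] H)}
  {ι' : G' ≃* (K ≃ₐ[F] K)} {π : G →* G'} {p : ℕ}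
  {S T : Finset (HeightOneSpectrum (𝓞 F))} {r : ℕ} {w : Fin r → Pl H}
  {fr : HeightOneSpectrum (𝓞 F) → G}

variable (ι ι' S T) in
/-- the map `U_{S,T}(K) → U_{S,T}(H)` -/
noncomputable def tr2U : UM ι' S T →+ UM ι S T where
  toFun u := UM.mk (Units.map (algebraMap K H : K →* H) u.val) (by
    have h := (un_map (F := K) (H := H) (S := ovr K S) (T := ovr K T) u.val).mpr u.val_mem
    rwa [ovr_ovr, ovr_ovr] at h)
  map_zero' := UM.ext (by rw [UM.val_mk, UM.val_zero, UM.val_zero, map_one])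
  map_add' u v := UM.ext (by
    rw [UM.val_mk, UM.val_add, UM.val_add, UM.val_mk, UM.val_mk, map_mul])

theorem tr2U_val (u : UM ι' S T) :
    (tr2U ι ι' S T u).val = Units.map (algebraMap K H : K →* H) u.val := rfl

theorem tr2U_smul (hq : Quo ι ι' π) (g : G) (u : UM ι' S T) :
    MonoidAlgebra.single g (1 : ℤ) • tr2U ι ι' S T u =
      tr2U ι ι' S T (MonoidAlgebra.single (π g) (1 : ℤ) • u) := by
  apply UM.ext
  rw [um_single_smul, tr2U_val, tr2U_val, um_single_smul]
  apply Units.ext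
  show ι g (algebraMap K H (u.val : K)) = algebraMap K H (ι' (π g) (u.val : K))
  exact (hq.compat g _).symm

theorem tr2_inv_psi (hq : Quo ι ι' π) (ψ : UM ι S T →ₗ[MonoidAlgebra ℤ G] MonoidAlgebra ℤ G)
    (u : UM ι' S T) (n : G) (hn : π n = 1) :
    MonoidAlgebra.single n (1 : ℤ) * ψ (tr2U ι ι' S T u) = ψ (tr2U ι ι' S T u) := by
  rw [← smul_eq_mul, ← map_smul, tr2U_smul hq, hn, ← MonoidAlgebra.one_def, one_smul]

/-- the map induced by `ψ` -/
noncomputable def tr2A (s : G' → G) (ψ : UM ι S T →ₗ[MonoidAlgebra ℤ G] MonoidAlgebra ℤ G) :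
    UM ι' S T →+ MonoidAlgebra ℤ G' where
  toFun u := ∑ g' : G', MonoidAlgebra.single g' ((ψ (tr2U ι ι' S T u)).coeff (s g'))
  map_zero' := by
    refine Finset.sum_eq_zero fun g' _ => ?_
    rw [map_zero, map_zero, MonoidAlgebra.coeff_zero, Finsupp.zero_apply, MonoidAlgebra.single_zero]
  map_add' u v := by
    rw [← Finset.sum_add_distrib]
    refine Finset.sum_congr rfl fun g' _ => ?_
    rw [map_add, map_add, MonoidAlgebra.coeff_add, Finsupp.add_apply, MonoidAlgebra.single_add]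

theorem tr2A_key (hq : Quo ι ι' π) {s : G' → G} (hs : ∀ g, π (s g) = g)
    (ψ : UM ι S T →ₗ[MonoidAlgebra ℤ G] MonoidAlgebra ℤ G) (u : UM ι' S T) :
    MonoidAlgebra.mapDomainRingHom ℤ π (ψ (tr2U ι ι' S T u)) =
      (Nat.card π.ker : ℤ) • tr2A s ψ u :=
  tr2_inv hs _ (tr2_inv_psi hq ψ u)

theorem tr2_cancel {ν : ℤ} (hν : ν ≠ 0) {x y : MonoidAlgebra ℤ G'} (h : ν • x = ν • y) : x = y := by
  ext g
  have h1 : (ν • x).coeff g = (ν • y).coeff g := by rw [h]
  rw [MonoidAlgebra.coeff_smul, MonoidAlgebra.coeff_smul, Finsupp.smul_apply, Finsupp.smul_apply,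
    smul_eq_mul, smul_eq_mul] at h1
  exact mul_left_cancel₀ hν h1

theorem tr2A_smul (hq : Quo ι ι' π) {s : G' → G} (hs : ∀ g, π (s g) = g)
    (ψ : UM ι S T →ₗ[MonoidAlgebra ℤ G] MonoidAlgebra ℤ G) (a : MonoidAlgebra ℤ G')
    (u : UM ι' S T) : tr2A s ψ (a • u) = a * tr2A s ψ u := by
  have hν : (Nat.card π.ker : ℤ) ≠ 0 := by exact_mod_cast Nat.card_pos.ne'
  induction a using MonoidAlgebra.induction_on with
  | of g =>
    have h : MonoidAlgebra.of ℤ G' g = MonoidAlgebra.single g 1 := rfl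
    rw [h]
    apply tr2_cancel hν
    rw [← tr2A_key hq hs]
    have hg : g = π (s g) := (hs g).symm
    conv_lhs => rw [hg, ← tr2U_smul hq, map_smul, smul_eq_mul, map_mul, tr2A_key hq hs]
    have e1 : MonoidAlgebra.mapDomainRingHom ℤ π (MonoidAlgebra.single (s g) 1) =
        MonoidAlgebra.single g (1 : ℤ) := by
      show MonoidAlgebra.mapDomain π (MonoidAlgebra.single (s g) 1) = _
      rw [MonoidAlgebra.mapDomain_single, hs]
    rw [e1, mul_smul_comm]
  | add a b ha hb => rw [add_smul, map_add, add_mul, ha, hb]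
  | smul c a ha => rw [smul_assoc, map_zsmul, ha, smul_mul_assoc]

/-- the induced map as a linear map -/
noncomputable def tr2L (hq : Quo ι ι' π) {s : G' → G} (hs : ∀ g, π (s g) = g)
    (ψ : UM ι S T →ₗ[MonoidAlgebra ℤ G] MonoidAlgebra ℤ G) :
    UM ι' S T →ₗ[MonoidAlgebra ℤ G'] MonoidAlgebra ℤ G' where
  toFun := tr2A s ψ
  map_add' := map_add _
  map_smul' := fun a u => tr2A_smul hq hs ψ a u

theorem transport (hq : Quo ι ι' π) (hw : ∀ i, ∀ σ : H ≃ₐ[F] H, act σ (w i) = w i → σ = 1)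
    (b : Fin r → UM ι' S T) (x : MonoidAlgebra ℚ G') :
    ∃ (b₁ : Fin r → UM ι S T) (x₁ : MonoidAlgebra ℚ G),
      (∀ χ' : G' →* ℂˣ, evQ (χ'.comp π) x₁ * (Nat.card π.ker : ℂ) ^ r = evQ χ' x) ∧
      (∀ χ : G →* ℂˣ, (¬ ∃ χ' : G' →* ℂˣ, χ = χ'.comp π) → evQ χ x₁ = 0) ∧
      (∀ χ' : G' →* ℂˣ, evQ (χ'.comp π) x₁ * evR (χ'.comp π) (wmat ι S T w b₁).det =
        evQ χ' x * evR χ' (wmat ι' S T (fun i => dn K (w i)) b).det) ∧
      ∀ ψ : Fin r → (UM ι S T →ₗ[MonoidAlgebra ℤ G] MonoidAlgebra ℤ G),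
        ∃ ψ' : Fin r → (UM ι' S T →ₗ[MonoidAlgebra ℤ G'] MonoidAlgebra ℤ G'),
          ∀ a' : MonoidAlgebra ℤ G', x * toQ G' (pmat ψ' b).det =
              toQ G' (MonoidAlgebra.single 1 (Nat.card π.ker : ℤ) * a') →
            ∃ a : MonoidAlgebra ℤ G, x₁ * toQ G (pmat ψ b₁).det = toQ G a := by
  obtain ⟨s, hs⟩ : ∃ s : G' → G, ∀ g, π (s g) = g :=
    ⟨Function.surjInv hq.surj, Function.surjInv_eq hq.surj⟩
  set ν : ℕ := Nat.card π.ker with hν
  have hν0 : (ν : ℂ) ≠ 0 := by exact_mod_cast Nat.card_pos.ne'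
  have hν1 : (ν : ℚ) ≠ 0 := by exact_mod_cast Nat.card_pos.ne'
  have ev1 : ∀ χ : G →* ℂˣ, ∀ c : ℚ, evQ χ (MonoidAlgebra.single 1 c) = (c : ℂ) := by
    intro χ c
    unfold evQ
    rw [MonoidAlgebra.lift_single, map_one, Algebra.smul_def, mul_one]
    rfl
  have hx : ∀ χ' : G' →* ℂˣ, evQ (χ'.comp π) (MonoidAlgebra.single 1 (((ν : ℚ) ^ (r + 1))⁻¹) *
      tr2P π s ℚ x) * (ν : ℂ) ^ r = evQ χ' x := by
    intro χ'
    rw [map_mul, ev1, tr2_ev hs, ← hν]
    push_cast
    rw [pow_succ]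
    field_simp
  refine ⟨fun j => tr2U ι ι' S T (b j), MonoidAlgebra.single 1 (((ν : ℚ) ^ (r + 1))⁻¹) *
    tr2P π s ℚ x, hx, ?_, ?_, ?_⟩
  · intro χ hχ
    rw [map_mul, tr2_ev_zero hq.surj χ hχ, mul_zero]
  · intro χ'
    have e1 : evR (χ'.comp π) (wmat ι S T w fun j => tr2U ι ι' S T (b j)).det =
        (ν : ℂ) ^ r * evR χ' (wmat ι' S T (fun i => dn K (w i)) b).det := by
      rw [AlgHom.map_det, AlgHom.map_det]
      have e2 : (evR (χ'.comp π)).mapMatrix (wmat ι S T w fun j => tr2U ι ι' S T (b j)) =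
          (ν : ℂ) • (evR χ').mapMatrix (wmat ι' S T (fun i => dn K (w i)) b) := by
        ext i j
        exact wl_up hq (hw i) _ (b j) (tr2U_val (b j)) χ'
      rw [e2, Matrix.det_smul, Fintype.card_fin]
    rw [e1, ← mul_assoc, hx]
  · intro ψ
    refine ⟨fun i => tr2L hq hs (ψ i), fun a' ha' => ?_⟩
    refine ⟨tr2P π s ℤ a', ?_⟩
    set D := (pmat ψ fun j => tr2U ι ι' S T (b j)).det with hD
    have e1 : MonoidAlgebra.mapDomainRingHom ℤ π D = (ν : ℤ) ^ r •
        (pmat (fun i => tr2L hq hs (ψ i)) b).det := by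
      rw [hD, RingHom.map_det]
      have e2 : (MonoidAlgebra.mapDomainRingHom ℤ π).mapMatrix
          (pmat ψ fun j => tr2U ι ι' S T (b j)) = (ν : ℤ) •
          (pmat (fun i => tr2L hq hs (ψ i)) b) := by
        apply Matrix.ext
        intro i j
        exact tr2A_key hq hs (ψ i) (b j)
      rw [e2, Matrix.det_smul_of_tower, Fintype.card_fin]
    have hP : ∀ (c : ℤ) (y : MonoidAlgebra ℚ G'), tr2P π s ℚ (c • y) = c • tr2P π s ℚ y := by
      intro c y
      exact map_zsmul (AddMonoidHom.mk' (tr2P π s ℚ) (tr2P_add s ℚ)) c y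
    have e3 : MonoidAlgebra.single 1 (ν : ℤ) * a' = (ν : ℤ) • a' := by
      rw [zsmul_eq_mul, MonoidAlgebra.intCast_def]
      simp
    rw [mul_assoc, tr2P_mul hs, tr2_toQ_map, e1, map_zsmul, mul_smul_comm, ha', e3, map_zsmul, hP,
      hP, tr2_toQ, smul_smul, zsmul_eq_mul, ← mul_assoc]
    have e4 : (MonoidAlgebra.single 1 (((ν : ℚ) ^ (r + 1))⁻¹) : MonoidAlgebra ℚ G) *
        (((ν : ℤ) ^ r * (ν : ℤ) : ℤ) : MonoidAlgebra ℚ G) = 1 := by
      rw [MonoidAlgebra.intCast_def, MonoidAlgebra.single_mul_single, MonoidAlgebra.one_def]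
      congr 1
      · rw [one_mul]
      · push_cast
        rw [← pow_succ, inv_mul_cancel₀ (pow_ne_zero _ hν1)]
    rw [e4, one_mul]

end TR2

end Pool.Agent.RSK
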