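import Pool.Agent.Lib_helper17.RS.Defs

/-!
# Rubin's conjecture, stated for a `ℤ[G]`-module isomorphic to `U_{S,T}`
-/

namespace Pool.Agent.RSK

open NumberField IsDedekindDomain Filter Topology Complex
open scoped TensorProduct

section M

variable {R M A B : Type} [CommRing R] [AddCommGroup M] [Module R M] [CommRing A] [Algebra R A]
  [Module ℚ A] [CommRing B] [Module ℚ B] {r : ℕ}

/-- In the application `R = ℤ[G]`, `A = ℝ[G]`, `B = ℚ[G]` and `j : R → B` is the inclusion. The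
element `u ∈ ℚ ⊗ ⋀^r_R M` is killed by `I`, all maps `ψ_1 ∧ … ∧ ψ_r` with `ψ_i ∈ Hom_R(M, R)` map
`u` to `R`, and `l_1 ∧ … ∧ l_r` maps `u` to `Θ`. -/
structure IsRub (j : R →+* B) (l : Fin r → (M →ₗ[R] A)) (I : Set R) (Θ : A)
    (u : (⋀[R]^r M) ⊗[ℤ] ℚ) : Prop where
  /-- `ψ_1 ∧ … ∧ ψ_r` maps `u` to `R`, for all `ψ_i ∈ Hom_R(M, R)` -/
  integral : ∀ ψ : Fin r → (M →ₗ[R] R), ∃ a : R,
    extQ (j.toAddMonoidHom.comp (detMap ψ).toAddMonoidHom) u = j a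
  /-- `I` annihilates `u` -/
  er : ∀ a ∈ I, a • u = 0
  /-- `(l_1 ∧ … ∧ l_r)(u) = Θ` -/
  value : extQ (detMap l).toAddMonoidHom u = Θ

/-- Such an element `u` exists. -/
def HasRub (j : R →+* B) (l : Fin r → (M →ₗ[R] A)) (I : Set R) (Θ : A) : Prop :=
  ∃ u, IsRub j l I Θ u

end M

section R

variable {F H : Type} [Field F] [NumberField F] [Field H] [NumberField H] [Algebra F H]
variable {G : Type} [CommGroup G] [Fintype G]

/-- `x ∈ Hˣ` lies in `U_{S,T}`: it is a unit at all finite places of `H` which do not lie above `S`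
and congruent to `1` modulo all places above `T`. -/
def IsU (S T : Finset (HeightOneSpectrum (𝓞 F))) (x : Hˣ) : Prop :=
  ∀ W : HeightOneSpectrum (𝓞 H), (W.under (𝓞 F) ∉ S → W.valuation H (x : H) = 1) ∧
    (W.under (𝓞 F) ∈ T → W.valuation H ((x : H) - 1) < 1)

/-- `e` is an isomorphism from the `ℤ[G]`-module `M` (written additively) to `U_{S,T}`, and the
`ℤ[G]`-linear maps `l_i` are the maps `m ↦ w_i^*(λ(e m)) = ∑_γ log|e m|_{γ w_i} γ`. -/
structure IsMod (ι : G ≃* (H ≃ₐ[F] H)) (S T : Finset (HeightOneSpectrum (𝓞 F))) {r : ℕ}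
    (w : Fin r → Pl H) {M : Type} [AddCommGroup M] [Module (MonoidAlgebra ℤ G) M]
    (e : M → Hˣ) (l : Fin r → (M →ₗ[MonoidAlgebra ℤ G] MonoidAlgebra ℝ G)) : Prop where
  /-- `e` is injective -/
  inj : Function.Injective e
  /-- the image of `e` is `U_{S,T}` -/
  range : ∀ x : Hˣ, (∃ m, e m = x) ↔ IsU S T x
  /-- `e (m + n) = e m * e n` -/
  add : ∀ m n : M, e (m + n) = e m * e n
  /-- `e (g m) = g (e m)` for `g ∈ G` -/
  smul : ∀ (g : G) (m : M), e (MonoidAlgebra.single g (1 : ℤ) • m) = ι g • e m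
  /-- `l_i(m) = ∑_γ log|e m|_{γ w_i} γ` -/
  log : ∀ (i : Fin r) (m : M),
    l i m = ∑ γ : G, MonoidAlgebra.single γ (lg (act (ι γ) (w i)) (e m : H))

/-- The conclusion of Rubin's conjecture. With `c χ = lim_{s → 0} s^{-r} L_{S,T}(χ, s)` and
`Θ ∈ ℝ[G]` given by `χ(Θ) = c(χ⁻¹)`, there is an element `u` of Rubin's lattice of the
`ℤ[G]`-module `M ≅ U_{S,T}` with `(w_1^* ∧ … ∧ w_r^*)(λ(u)) = Θ`. Here `u = e_r u` means that `u`
is killed by all `a ∈ ℤ[G]` with `χ(a) = 0` for all `χ` with `c χ ≠ 0`. -/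
def Rubin (ι : G ≃* (H ≃ₐ[F] H)) (S T : Finset (HeightOneSpectrum (𝓞 F))) {r : ℕ}
    (w : Fin r → Pl H) (fr : HeightOneSpectrum (𝓞 F) → G) : Prop :=
  ∃ (c : (G →* ℂˣ) → ℂ) (Θ : MonoidAlgebra ℝ G), Lead S T r fr c ∧ (∀ χ, evR χ Θ = c χ⁻¹) ∧
    ∃ (M : Type) (_ : AddCommGroup M) (_ : Module (MonoidAlgebra ℤ G) M) (e : M → Hˣ)
      (l : Fin r → (M →ₗ[MonoidAlgebra ℤ G] MonoidAlgebra ℝ G)), IsMod ι S T w e l ∧
        HasRub (toQ G) l {a | ∀ χ, c χ ≠ 0 → evZ χ a = 0} Θ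

theorem isU_iff (S T : Finset (HeightOneSpectrum (𝓞 F))) (x : Hˣ) :
    x ∈ Un (ovr H S) (ovr H T) ↔ IsU S T x := by
  constructor
  · intro h W
    exact ⟨fun hW => h.1 W (fun h' => hW (mem_ovr.1 h')), fun hW => h.2 W (mem_ovr.2 hW)⟩
  · intro h
    exact ⟨fun W hW => (h W).1 (fun h' => hW (mem_ovr.2 h')), fun W hW => (h W).2 (mem_ovr.1 hW)⟩

theorem rubin_of (ι : G ≃* (H ≃ₐ[F] H)) (S T : Finset (HeightOneSpectrum (𝓞 F))) {r : ℕ}
    (w : Fin r → Pl H) (fr : HeightOneSpectrum (𝓞 F) → G) (h : RubinStark ι S T w fr) :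
    Rubin ι S T w fr := by
  obtain ⟨c, hc, u, hu⟩ := h
  refine ⟨c, extQ (detMap (fun i => wl ι S T (w i))).toAddMonoidHom u, hc, hu.value,
    UM ι S T, inferInstance, inferInstance, fun m => m.val, fun i => wl ι S T (w i),
    ⟨?_, ?_, ?_, ?_, ?_⟩, u, ?_⟩
  · intro m n hmn
    exact UM.ext hmn
  · intro x
    rw [← isU_iff]
    constructor
    · rintro ⟨m, rfl⟩
      exact m.val_mem
    · intro hx
      exact ⟨UM.mk x hx, UM.val_mk x hx⟩
  · intro m n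
    exact UM.val_add m n
  · intro g m
    exact um_single_smul ι S T g m
  · intro i m
    rfl
  · exact ⟨hu.integral, hu.er, rfl⟩

end R

end Pool.Agent.RSK
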