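import Pool.Agent.Lib_helper17.RS.Bas
/-!
# Rubin-Stark, block EX: existence of the affine extension
-/

namespace Pool.Agent.RSK

open NumberField

/-! ## A group generated by a subgroup and an element which normalises it -/

section Grp

variable {A : Type} [Group A]

theorem ex_comm {N : Subgroup A} {τ : A} {n : ℕ} (h : ∀ s ∈ N, τ * s = s ^ n * τ) (k : ℕ) :
    ∀ s ∈ N, τ ^ k * s = s ^ (n ^ k) * τ ^ k := by
  induction k with
  | zero => intro s _; simp
  | succ k ih =>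
    intro s hs
    rw [pow_succ' τ k, mul_assoc, ih s hs, ← mul_assoc, h _ (N.pow_mem hs _), mul_assoc, ← pow_mul,
      pow_succ n k]

/-- the group of the `s τ^k` -/
def exG (N : Subgroup A) (τ : A) (n e : ℕ) (he : 1 ≤ e) (hτ : τ ^ e = 1)
    (h : ∀ s ∈ N, τ * s = s ^ n * τ) : Subgroup A where
  carrier := {γ | ∃ s ∈ N, ∃ k : ℕ, γ = s * τ ^ k}
  one_mem' := ⟨1, N.one_mem, 0, by simp⟩
  mul_mem' := by
    rintro a b ⟨s, hs, k, rfl⟩ ⟨t, ht, l, rfl⟩
    refine ⟨s * t ^ (n ^ k), N.mul_mem hs (N.pow_mem ht _), k + l, ?_⟩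
    have := ex_comm h k t ht
    rw [pow_add]
    calc s * τ ^ k * (t * τ ^ l) = s * (τ ^ k * t) * τ ^ l := by group
      _ = s * (t ^ (n ^ k) * τ ^ k) * τ ^ l := by rw [this]
      _ = _ := by group
  inv_mem' := by
    rintro a ⟨s, hs, k, rfl⟩
    refine ⟨(s⁻¹) ^ (n ^ (k * (e - 1))), N.pow_mem (N.inv_mem hs) _, k * (e - 1), ?_⟩
    rw [← ex_comm h _ _ (N.inv_mem hs), mul_inv_rev]
    congr 1
    rw [inv_eq_iff_mul_eq_one, ← pow_add]
    have : k + k * (e - 1) = e * k := by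
      obtain ⟨d, rfl⟩ : ∃ d, e = d + 1 := ⟨e - 1, by omega⟩
      simp
      ring
    rw [this, pow_mul, hτ, one_pow]

end Grp

section EA

variable {F K : Type} [Field F] [NumberField F] [Field K] [NumberField K] [Algebra F K]
  [IsGalois F K] {G : Type} [CommGroup G] [Fintype G] {p : ℕ} {ι : G ≃* (K ≃ₐ[F] K)}

/-- an automorphism over `F` as a ring automorphism -/
def exR (F K : Type) [Field F] [Field K] [Algebra F K] : (K ≃ₐ[F] K) →* RingAut K where
  toFun σ := σ.toRingEquiv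
  map_one' := rfl
  map_mul' _ _ := rfl

theorem exR_apply (σ : K ≃ₐ[F] K) (x : K) : exR F K σ x = σ x := rfl

theorem exR_inj : Function.Injective (exR F K) := by
  intro a b h
  ext x
  exact DFunLike.congr_fun h x

theorem exR_fin : Finite (RingAut K) :=
  Finite.of_injective (fun σ : RingAut K => (σ : K ≃+* K).toRingHom) fun a b h => by
    ext x
    exact DFunLike.congr_fun h x

theorem ex_iter (τ : K ≃+* K) (k : ℕ) (x : K) : ((τ : RingAut K) ^ k) x = (τ : K → K)^[k] x := by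
  induction k generalizing x with
  | zero => rfl
  | succ k ih =>
    rw [pow_succ, Function.iterate_succ_apply, ← ih]
    rfl

theorem afn_exists (hp : p.Prime) (hG : Nat.card G = p) (h : Aff p F K) :
    ∃ (F₀ L : Type) (_ : Field F₀) (_ : NumberField F₀) (_ : Field L) (_ : NumberField L)
      (_ : Algebra F₀ F) (_ : Algebra F₀ L) (_ : Algebra F₀ K) (_ : Algebra L K)
      (_ : IsScalarTower F₀ F K) (_ : IsScalarTower F₀ L K) (_ : IsGalois F₀ K)
      (_ : IsGalois F₀ F) (_ : IsGalois L K), Afn F₀ F L K ι p := by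
  obtain ⟨τ, n, h1, h2, h3⟩ := h
  have hfact : Fact p.Prime := ⟨hp⟩
  have hfinA : Finite (RingAut K) := exR_fin
  set t : RingAut K := τ with ht
  have hp1 : 1 ≤ p - 1 := by have := hp.two_le; omega
  have htp : t ^ (p - 1) = 1 := by
    ext x
    rw [ex_iter]
    exact h1 x
  set N : Subgroup (RingAut K) := (exR F K).range with hN
  have hNp : ∀ s ∈ N, s ^ p = 1 := by
    rintro s ⟨σ, rfl⟩
    rw [← map_pow]
    have : σ ^ p = 1 := by
      have h4 : Nat.card (K ≃ₐ[F] K) = p := by rw [← hG]; exact (Nat.card_congr ι.toEquiv).symm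
      rw [← h4]
      exact pow_card_eq_one'
    rw [this, map_one]
  have hcomm : ∀ s ∈ N, t * s = s ^ n * t := by
    rintro s ⟨σ, rfl⟩
    rw [← map_pow]
    ext x
    exact h3 σ x
  have hk := ex_comm hcomm
  -- an element of order `p`
  have hord : ∀ s ∈ N, s ≠ 1 → ∀ k : ℕ, s ^ (n ^ k) = s → (p - 1) ∣ k := by
    intro s hs hs1 k hsk
    have h4 : orderOf s = p := orderOf_eq_prime (hNp s hs) hs1
    have h5 : s ^ (n ^ k) = s ^ 1 := by rw [hsk, pow_one]
    rw [pow_eq_pow_iff_modEq, h4, ← ZMod.natCast_eq_natCast_iff] at h5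
    push_cast at h5
    rw [← h2]
    exact orderOf_dvd_of_pow_eq_one h5
  obtain ⟨s₀, hs₀, hs₀1⟩ : ∃ s ∈ N, s ≠ 1 := by
    have h4 : Nat.card (K ≃ₐ[F] K) = p := by rw [← hG]; exact (Nat.card_congr ι.toEquiv).symm
    have h5 : Nontrivial (K ≃ₐ[F] K) := by
      have : Finite (K ≃ₐ[F] K) := Nat.finite_of_card_ne_zero (by rw [h4]; exact hp.ne_zero)
      rw [← Finite.one_lt_card_iff_nontrivial, h4]
      exact hp.one_lt
    obtain ⟨σ, hσ⟩ := exists_ne (1 : K ≃ₐ[F] K)
    exact ⟨exR F K σ, ⟨σ, rfl⟩, fun hc => hσ (exR_inj (by rw [hc, map_one]))⟩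
  have hordt : orderOf t = p - 1 := by
    apply Nat.dvd_antisymm (orderOf_dvd_of_pow_eq_one htp)
    apply hord s₀ hs₀ hs₀1
    have := hk (orderOf t) s₀ hs₀
    rw [pow_orderOf_eq_one, one_mul, mul_one] at this
    exact this.symm
  set Γ : Subgroup (RingAut K) := exG N t n (p - 1) hp1 htp hcomm with hΓ
  set Z : Subgroup (RingAut K) := Subgroup.zpowers t with hZ
  have hNΓ : ∀ s ∈ N, s ∈ Γ := fun s hs => ⟨s, hs, 0, by simp⟩
  have htΓ : ∀ k : ℕ, t ^ k ∈ Γ := fun k => ⟨1, N.one_mem, k, by simp⟩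
  have hZΓ : ∀ z ∈ Z, z ∈ Γ := by
    intro z hz
    rw [hZ] at hz
    exact (Subgroup.zpowers_le.mpr (by simpa using htΓ 1)) hz
  -- elements of `Z` are powers
  have hZk : ∀ z ∈ Z, ∃ k : ℕ, z = t ^ k := by
    intro z hz
    have hfin : IsOfFinOrder t := isOfFinOrder_of_finite t
    have := hfin.mem_powers_iff_mem_zpowers.mpr hz
    obtain ⟨k, hk⟩ := this
    exact ⟨k, hk.symm⟩
  let F₀ : Subfield K := FixedPoints.subfield Γ K
  let L : Subfield K := FixedPoints.subfield Z K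
  have memF : ∀ x : K, x ∈ F₀ ↔ ∀ γ ∈ Γ, γ x = x := fun x =>
    ⟨fun hx γ hγ => hx ⟨γ, hγ⟩, fun hx γ => hx γ.1 γ.2⟩
  have memL : ∀ x : K, x ∈ L ↔ ∀ γ ∈ Z, γ x = x := fun x =>
    ⟨fun hx γ hγ => hx ⟨γ, hγ⟩, fun hx γ => hx γ.1 γ.2⟩
  have hFL : F₀ ≤ L := fun x hx => (memL x).mpr fun γ hγ => (memF x).mp hx γ (hZΓ γ hγ)
  have hFR : F₀ ≤ (algebraMap F K).fieldRange := by
    intro x hx
    rw [RingHom.mem_fieldRange]
    have := (IsGalois.mem_range_algebraMap_iff_fixed (F := F) (E := K) x).mpr fun σ =>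
      (memF x).mp hx _ (hNΓ _ ⟨σ, rfl⟩)
    exact this
  -- the automorphisms in `Γ` map `F` to `F`
  have hst : ∀ γ ∈ Γ, ∀ y : F, ∃ y' : F, γ (algebraMap F K y) = algebraMap F K y' := by
    rintro γ ⟨s, ⟨σ, rfl⟩, k, rfl⟩ y
    have h4 : ∀ k : ℕ, (t ^ k) (algebraMap F K y) ∈ Set.range (algebraMap F K) := by
      intro k
      rw [IsGalois.mem_range_algebraMap_iff_fixed]
      intro σ'
      -- `σ' = σ₁ ^ (n ^ k)`
      have hcop : Nat.Coprime p (n ^ k) := by
        rw [hp.coprime_iff_not_dvd]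
        intro hd
        have h5 : (n : ZMod p) = 0 := by
          rw [ZMod.natCast_eq_zero_iff]
          exact hp.dvd_of_dvd_pow hd
        rw [h5] at h2
        rw [orderOf_eq_zero_iff'.mpr] at h2
        · omega
        · intro m hm hm0
          rw [zero_pow hm.ne'] at hm0
          exact zero_ne_one hm0
      have h6 : Nat.Coprime (Nat.card (K ≃ₐ[F] K)) (n ^ k) := by
        have h7 : Nat.card (K ≃ₐ[F] K) = p := by
          rw [← hG]; exact (Nat.card_congr ι.toEquiv).symm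
        rw [h7]; exact hcop
      obtain ⟨σ₁, hσ₁⟩ := (powCoprime h6).surjective σ'
      have h8 : σ₁ ^ (n ^ k) = σ' := hσ₁
      have h9 := hk k (exR F K σ₁) ⟨σ₁, rfl⟩
      have h10 := DFunLike.congr_fun h9 (algebraMap F K y)
      have h11 : (t ^ k) (exR F K σ₁ (algebraMap F K y)) =
          (exR F K σ₁ ^ (n ^ k)) ((t ^ k) (algebraMap F K y)) := h10
      rw [← map_pow, h8, exR_apply, exR_apply, σ₁.commutes] at h11
      exact h11.symm
    obtain ⟨y', hy'⟩ := h4 k
    refine ⟨y', ?_⟩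
    show σ ((t ^ k) (algebraMap F K y)) = _
    rw [← hy', σ.commutes]
  -- the maps
  let e : F ≃+* (algebraMap F K).fieldRange := RingEquiv.ofBijective (algebraMap F K).rangeRestrictField
    ⟨fun a b hab => (algebraMap F K).injective (congrArg Subtype.val hab),
      fun y => by
        obtain ⟨x, hx⟩ := y.2
        exact ⟨x, Subtype.ext hx⟩⟩
  have he : ∀ x, algebraMap F K (e.symm x) = x := fun x => by
    have h4 : (e (e.symm x)) = x := e.apply_symm_apply x
    exact congrArg Subtype.val h4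
  let φ : F₀ →+* F := (e.symm : _ →+* F).comp (Subfield.inclusion hFR)
  have hφ : ∀ x : F₀, algebraMap F K (φ x) = x := fun x => he _
  let i1 : Algebra F₀ F := φ.toAlgebra
  let i2 : Algebra F₀ L := (Subfield.inclusion hFL).toAlgebra
  have i3 : IsScalarTower F₀ F K := IsScalarTower.of_algebraMap_eq fun x => (hφ x).symm
  have i4 : IsScalarTower F₀ L K := IsScalarTower.of_algebraMap_eq fun x => rfl
  have i5 : IsGalois F₀ K := IsGalois.of_fixed_field K Γ
  have i6 : IsGalois L K := IsGalois.of_fixed_field K Z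
  -- automorphisms over `F₀` and over `L`
  have autF : ∀ γ : K ≃ₐ[F₀] K, ∃ g ∈ Γ, ∀ x, γ x = g x := by
    intro γ
    obtain ⟨g, hg⟩ := (FixedPoints.toAlgAut_bijective Γ K).surjective γ
    exact ⟨g.1, g.2, fun x => (DFunLike.congr_fun hg x).symm⟩
  have autL : ∀ γ : K ≃ₐ[L] K, ∃ g ∈ Z, ∀ x, γ x = g x := by
    intro γ
    obtain ⟨g, hg⟩ := (FixedPoints.toAlgAut_bijective Z K).surjective γ
    exact ⟨g.1, g.2, fun x => (DFunLike.congr_fun hg x).symm⟩
  have i7 : IsGalois F₀ F := by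
    have hnorm : Normal F₀ (IsScalarTower.toAlgHom F₀ F K).fieldRange := by
      rw [IntermediateField.normal_iff_forall_map_le']
      intro γ x hx
      rw [IntermediateField.mem_map] at hx
      obtain ⟨z, hz, rfl⟩ := hx
      obtain ⟨y, rfl⟩ := hz
      obtain ⟨g, hg, hgx⟩ := autF γ
      obtain ⟨y', hy'⟩ := hst g hg y
      refine ⟨y', ?_⟩
      show algebraMap F K y' = γ (algebraMap F K y)
      rw [hgx, hy']
    have hn2 : Normal F₀ F := Normal.of_algEquiv (IsScalarTower.toAlgHom F₀ F K).equivFieldRange.symm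
    exact ⟨⟩
  refine ⟨F₀, L, inferInstance, NumberField.of_subfield F₀, inferInstance, NumberField.of_subfield L,
    i1, i2, inferInstance, inferInstance, i3, i4, i5, i7, i6, ?_⟩
  refine ⟨hp, hG, ?_, ?_, ?_, ?_⟩
  · rw [← Nat.card_congr (FixedPoints.toAlgAutMulEquiv Z K).toEquiv, hZ, Nat.card_zpowers, hordt]
  · intro γ
    obtain ⟨g, ⟨s, ⟨σ, rfl⟩, k, rfl⟩, hgx⟩ := autF γ
    refine ⟨ι.symm σ, MulSemiringAction.toAlgAut Z L K ⟨t ^ k, Subgroup.npow_mem_zpowers t k⟩,
      fun x => ?_⟩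
    rw [hgx, MulEquiv.apply_symm_apply]
    rfl
  · intro g hg
    set δ : K ≃ₐ[L] K := AlgEquiv.ofRingEquiv (f := (ι g).toRingEquiv) hg with hδ
    obtain ⟨z, hz, hzx⟩ := autL δ
    have h4 : exR F K (ι g) = z := by
      ext x
      exact hzx x
    obtain ⟨k, rfl⟩ := hZk z hz
    have h5 : (exR F K (ι g)) ^ p = 1 := hNp _ ⟨ι g, rfl⟩
    have h6 : (exR F K (ι g)) ^ (p - 1) = 1 := by
      rw [h4, ← pow_mul, mul_comm, pow_mul, htp, one_pow]
    have h7 : exR F K (ι g) = 1 := by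
      have h8 : p = (p - 1) + 1 := by omega
      rw [h8, pow_succ, h6, one_mul] at h5
      exact h5
    have h8 : ι g = 1 := exR_inj (by rw [h7, map_one])
    exact ι.injective (by rw [h8, map_one])
  · intro δ hδ
    obtain ⟨z, hz, hzx⟩ := autL δ
    obtain ⟨k, rfl⟩ := hZk z hz
    obtain ⟨σ, hσ⟩ := hs₀
    have h4 : t ^ k * s₀ = s₀ * t ^ k := by
      ext x
      show (t ^ k) (s₀ x) = s₀ ((t ^ k) x)
      have h5 := hδ (ι.symm σ) x
      rw [MulEquiv.apply_symm_apply, hzx, hzx] at h5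
      rw [← hσ]
      exact h5
    rw [hk k s₀ ⟨σ, hσ⟩] at h4
    have h5 := mul_right_cancel h4
    obtain ⟨m, rfl⟩ := hord s₀ ⟨σ, hσ⟩ hs₀1 k h5
    ext x
    rw [hzx, pow_mul, htp, one_pow]
    rfl

end EA

end Pool.Agent.RSK
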