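import Pool.Agent.Lib_helper17.RS.Bas
import Pool.Agent.Lib_helper17.RS.P_PX2
namespace Pool.Agent.RSK

set_option linter.unusedSectionVars false

open Filter Topology Complex
open scoped TensorProduct

section WRAP

open NumberField IsDedekindDomain

variable {F H : Type} [Field F] [NumberField F] [Field H] [NumberField H] [Algebra F H]
variable {G : Type} [CommGroup G] [Fintype G]

/-- `x b_1 ∧ … ∧ b_r` -/
noncomputable def waU {ι : G ≃* (H ≃ₐ[F] H)} {S T : Finset (HeightOneSpectrum (𝓞 F))} {r : ℕ}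
    (b : Fin r → UM ι S T) (x : MonoidAlgebra ℚ G) :
    (⋀[MonoidAlgebra ℤ G]^r (UM ι S T)) ⊗[ℤ] ℚ :=
  ∑ γ : G, (MonoidAlgebra.single γ (1 : ℤ) • exteriorPower.ιMulti (MonoidAlgebra ℤ G) r b) ⊗ₜ[ℤ]
    (x.coeff γ)

theorem wa_zero {ι : G ≃* (H ≃ₐ[F] H)} {S T : Finset (HeightOneSpectrum (𝓞 F))} {r : ℕ}
    (b : Fin r → UM ι S T) : waU b 0 = 0 :=
  Finset.sum_eq_zero fun γ _ => by
    have : (0 : MonoidAlgebra ℚ G).coeff γ = 0 := rfl
    rw [this, TensorProduct.tmul_zero]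

theorem wa_add {ι : G ≃* (H ≃ₐ[F] H)} {S T : Finset (HeightOneSpectrum (𝓞 F))} {r : ℕ}
    (b : Fin r → UM ι S T) (x y : MonoidAlgebra ℚ G) : waU b (x + y) = waU b x + waU b y := by
  unfold waU
  rw [← Finset.sum_add_distrib]
  refine Finset.sum_congr rfl fun γ _ => ?_
  have : (x + y).coeff γ = x.coeff γ + y.coeff γ := rfl
  rw [this, TensorProduct.tmul_add]

theorem wa_zsmul {ι : G ≃* (H ≃ₐ[F] H)} {S T : Finset (HeightOneSpectrum (𝓞 F))} {r : ℕ}
    (b : Fin r → UM ι S T) (n : ℤ) (x : MonoidAlgebra ℚ G) : waU b (n • x) = n • waU b x := by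
  let f : MonoidAlgebra ℚ G →+ (⋀[MonoidAlgebra ℤ G]^r (UM ι S T)) ⊗[ℤ] ℚ :=
    { toFun := waU b
      map_zero' := wa_zero b
      map_add' := wa_add b }
  exact map_zsmul f n x

theorem wa_single {ι : G ≃* (H ≃ₐ[F] H)} {S T : Finset (HeightOneSpectrum (𝓞 F))} {r : ℕ}
    (b : Fin r → UM ι S T) (g : G) (x : MonoidAlgebra ℚ G) :
    (MonoidAlgebra.single g (1 : ℤ)) • waU b x = waU b (MonoidAlgebra.single g (1 : ℚ) * x) := by
  unfold waU
  rw [Finset.smul_sum]
  refine Fintype.sum_equiv (Equiv.mulLeft g) _ _ fun γ => ?_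
  rw [TensorProduct.smul_tmul', ← mul_smul, MonoidAlgebra.single_mul_single, one_mul,
    Equiv.coe_mulLeft]
  congr 1
  rw [MonoidAlgebra.coeff_single_mul_apply, one_mul, inv_mul_cancel_left]

theorem wa_smul {ι : G ≃* (H ≃ₐ[F] H)} {S T : Finset (HeightOneSpectrum (𝓞 F))} {r : ℕ}
    (b : Fin r → UM ι S T) (a : MonoidAlgebra ℤ G) (x : MonoidAlgebra ℚ G) :
    a • waU b x = waU b (toQ G a * x) := by
  induction a using MonoidAlgebra.induction_on with
  | of g =>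
    have h : MonoidAlgebra.of ℤ G g = MonoidAlgebra.single g 1 := rfl
    rw [h, wa_single]
    congr 2
    simp [toQ]
  | add a b' ha hb => rw [add_smul, ha, hb, map_add, add_mul, wa_add]
  | smul n a ha =>
    have h : (n • a) • waU b x = n • (a • waU b x) := smul_assoc n a _
    rw [h, ha, map_zsmul, smul_mul_assoc, wa_zsmul]

theorem wa_sum (x : MonoidAlgebra ℚ G) : x = ∑ γ : G, MonoidAlgebra.single γ (x.coeff γ) := by
  classical
  apply MonoidAlgebra.ext
  apply Finsupp.ext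
  intro g
  rw [MonoidAlgebra.coeff_sum]
  rw [Finsupp.finsetSum_apply, Finset.sum_eq_single g]
  · rw [MonoidAlgebra.coeff_single, Finsupp.single_eq_same]
  · intro b _ hb
    rw [MonoidAlgebra.coeff_single, Finsupp.single_eq_of_ne hb.symm]
  · intro h
    exact absurd (Finset.mem_univ _) h

theorem wa_int {ι : G ≃* (H ≃ₐ[F] H)} {S T : Finset (HeightOneSpectrum (𝓞 F))} {r : ℕ}
    (b : Fin r → UM ι S T) (x : MonoidAlgebra ℚ G)
    (ψ : Fin r → (UM ι S T →ₗ[MonoidAlgebra ℤ G] MonoidAlgebra ℤ G)) :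
    extQ ((toQ G).toAddMonoidHom.comp (detMap ψ).toAddMonoidHom) (waU b x) =
      x * toQ G (pmat ψ b).det := by
  unfold waU
  rw [map_sum]
  conv_rhs => rw [wa_sum x, Finset.sum_mul]
  refine Finset.sum_congr rfl fun γ _ => ?_
  rw [extQ_tmul]
  have h1 : ((toQ G).toAddMonoidHom.comp (detMap ψ).toAddMonoidHom)
      (MonoidAlgebra.single γ (1 : ℤ) • exteriorPower.ιMulti (MonoidAlgebra ℤ G) r b) =
      MonoidAlgebra.single γ (1 : ℚ) * toQ G (pmat ψ b).det := by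
    show toQ G (detMap ψ (MonoidAlgebra.single γ (1 : ℤ) • exteriorPower.ιMulti (MonoidAlgebra ℤ G) r b)) = _
    rw [map_smul, detMap_ι, smul_eq_mul, map_mul]
    congr 1
    simp [toQ]
  rw [h1, ← smul_mul_assoc]
  congr 1
  rw [MonoidAlgebra.smul_single, smul_eq_mul, mul_one]

theorem wa_val (ι : G ≃* (H ≃ₐ[F] H)) (S T : Finset (HeightOneSpectrum (𝓞 F))) {r : ℕ}
    (w : Fin r → Pl H) (b : Fin r → UM ι S T) (x : MonoidAlgebra ℚ G) (χ : G →* ℂˣ) :
    evR χ (extQ (detMap (fun i => wl ι S T (w i))).toAddMonoidHom (waU b x)) =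
      evQ χ x * evR χ (wmat ι S T w b).det := by
  unfold waU
  rw [map_sum, map_sum]
  conv_rhs => rw [wa_sum x, map_sum, Finset.sum_mul]
  refine Finset.sum_congr rfl fun γ _ => ?_
  rw [extQ_tmul]
  have h1 : (detMap (fun i => wl ι S T (w i))).toAddMonoidHom
      (MonoidAlgebra.single γ (1 : ℤ) • exteriorPower.ιMulti (MonoidAlgebra ℤ G) r b) =
      toR G (MonoidAlgebra.single γ (1 : ℤ)) * (wmat ι S T w b).det := by
    show detMap (fun i => wl ι S T (w i))
      (MonoidAlgebra.single γ (1 : ℤ) • exteriorPower.ιMulti (MonoidAlgebra ℤ G) r b) = _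
    rw [map_smul, detMap_ι]
    rfl
  rw [h1]
  have h2 : toR G (MonoidAlgebra.single γ (1 : ℤ)) = MonoidAlgebra.single γ (1 : ℝ) := by
    simp [toR]
  rw [h2, ← smul_mul_assoc, map_mul]
  congr 1
  have h3 : (x.coeff γ) • MonoidAlgebra.single γ (1 : ℝ) =
      MonoidAlgebra.single γ ((x.coeff γ : ℚ) : ℝ) := by
    rw [MonoidAlgebra.smul_single]
    congr 1
    rw [Rat.smul_def, mul_one]
  rw [h3]
  unfold evR evQ
  rw [MonoidAlgebra.lift_single, MonoidAlgebra.lift_single]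
  simp [Algebra.smul_def]

theorem wrap (ι : G ≃* (H ≃ₐ[F] H)) (S T : Finset (HeightOneSpectrum (𝓞 F))) {r : ℕ}
    (w : Fin r → Pl H) (c : (G →* ℂˣ) → ℂ) {K : Type} [Fintype K]
    (b : K → Fin r → UM ι S T) (x : K → MonoidAlgebra ℚ G)
    (hval : ∀ χ : G →* ℂˣ, ∑ k, evQ χ (x k) *
      evR χ (wmat ι S T w (b k)).det = c χ⁻¹)
    (her : ∀ (χ : G →* ℂˣ) (k : K), c χ = 0 → evQ χ (x k) = 0)
    (hint : ∀ ψ : Fin r → (UM ι S T →ₗ[MonoidAlgebra ℤ G] MonoidAlgebra ℤ G),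
      ∃ a : MonoidAlgebra ℤ G,
        ∑ k, x k * toQ G (pmat ψ (b k)).det = toQ G a) :
    ∃ u, IsRubin ι S T w c u := by
  refine ⟨∑ k, waU (b k) (x k), ?_, ?_, ?_⟩
  · intro ψ
    obtain ⟨a, ha⟩ := hint ψ
    refine ⟨a, ?_⟩
    rw [map_sum, ← ha]
    exact Finset.sum_congr rfl fun k _ => wa_int _ _ _
  · intro a ha
    rw [Finset.smul_sum]
    refine Finset.sum_eq_zero fun k _ => ?_
    rw [wa_smul]
    have h : toQ G a * x k = 0 := by
      apply evQ_inj
      intro χ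
      rw [map_mul, map_zero]
      by_cases h0 : c χ = 0
      · rw [her χ k h0, mul_zero]
      · have := ha χ h0
        have e : evQ χ (toQ G a) = 0 := this
        rw [e, zero_mul]
    rw [h, wa_zero]
  · intro χ
    rw [map_sum, map_sum, ← hval χ]
    exact Finset.sum_congr rfl fun k _ => wa_val _ _ _ _ _ _ _

end WRAP

end Pool.Agent.RSK
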