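import Pool.Agent.Lib_helper17.RS.Defs

/-!
# Rubin's integral refinement of the Stark conjectures: auxiliary definitions
-/

namespace Pool.Agent.RSK

set_option linter.unusedSectionVars false

open NumberField IsDedekindDomain Filter Topology Complex
open scoped TensorProduct

/-! ## Determinants and regulators -/

open scoped Classical in
/-- The absolute value of the determinant of a matrix whose rows and columns are indexed by two
types of the same cardinality (`0` if the cardinalities differ). -/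
noncomputable def adet {P Q : Type} [Fintype P] [Fintype Q] (M : P → Q → ℝ) : ℝ :=
  if h : Nonempty (P ≃ Q) then |Matrix.det (Matrix.of fun i j : Q => M (h.some.symm i) j)| else 0

section Reg

variable {k : Type} [Field k] [NumberField k]

/-- the matrix of the logarithms of the `u_j`, with an additional column of ones -/
noncomputable def lmat (S : Finset (HeightOneSpectrum (𝓞 k))) {Q : Type} (u : Q → kˣ) :
    PS S → Option Q → ℝ
  | P, some j => lg P.pl (u j : k)
  | _, none => 1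

/-- The regulator of the family `u` of `S`-units, indexed by a type with `#S - 1` elements. -/
noncomputable def regS (S : Finset (HeightOneSpectrum (𝓞 k))) {Q : Type} [Fintype Q]
    (u : Q → kˣ) : ℝ :=
  adet (lmat S u) / Fintype.card (PS S)

/-! ## Divisors -/

/-- `ord_v(x)` -/
noncomputable def ordv (v : HeightOneSpectrum (𝓞 k)) (x : k) : ℤ :=
  -WithZero.log (v.valuation k x)

theorem ordv_one (v : HeightOneSpectrum (𝓞 k)) : ordv v (1 : k) = 0 := by
  simp [ordv]

theorem ordv_mul (v : HeightOneSpectrum (𝓞 k)) (x y : kˣ) :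
    ordv v ((x * y : kˣ) : k) = ordv v (x : k) + ordv v (y : k) := by
  unfold ordv
  rw [Units.val_mul, map_mul, WithZero.log_mul ((map_ne_zero _).2 x.ne_zero)
    ((map_ne_zero _).2 y.ne_zero)]
  ring

theorem ordv_inv (v : HeightOneSpectrum (𝓞 k)) (x : kˣ) :
    ordv v ((x⁻¹ : kˣ) : k) = -ordv v (x : k) := by
  have h := ordv_mul v x x⁻¹
  rw [mul_inv_cancel, Units.val_one, ordv_one] at h
  linarith

/-- the divisors with zero components at `T` -/
def Dv (T : Finset (HeightOneSpectrum (𝓞 k))) : AddSubgroup (HeightOneSpectrum (𝓞 k) →₀ ℤ) where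
  carrier := {D | ∀ v ∈ T, D v = 0}
  zero_mem' := fun v _ => rfl
  add_mem' := fun {a b} ha hb v hv => by rw [Finsupp.add_apply, ha v hv, hb v hv, add_zero]
  neg_mem' := fun {a} ha v hv => by rw [Finsupp.neg_apply, ha v hv, neg_zero]

/-- the divisors which agree outside `S` with the divisor of some `x ≡ 1 mod T` -/
def Pr (S T : Finset (HeightOneSpectrum (𝓞 k))) :
    AddSubgroup (HeightOneSpectrum (𝓞 k) →₀ ℤ) where
  carrier := {D | (∀ v ∈ T, D v = 0) ∧ ∃ x ∈ KT T, ∀ v, v ∉ S → D v = ordv v (x : k)}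
  zero_mem' := ⟨fun v _ => rfl, 1, (KT T).one_mem, fun v _ => by
    rw [Units.val_one, ordv_one]; rfl⟩
  add_mem' := by
    rintro a b ⟨ha, x, hx, hax⟩ ⟨hb, y, hy, hby⟩
    refine ⟨(Dv T).add_mem ha hb, x * y, (KT T).mul_mem hx hy, fun v hv => ?_⟩
    rw [Finsupp.add_apply, hax v hv, hby v hv, ordv_mul]
  neg_mem' := by
    rintro a ⟨ha, x, hx, hax⟩
    refine ⟨(Dv T).neg_mem ha, x⁻¹, (KT T).inv_mem hx, fun v hv => ?_⟩
    rw [Finsupp.neg_apply, hax v hv, ordv_inv]

/-- the order of the `(S,T)`-class group (`0` if it is infinite) -/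
noncomputable def hA (S T : Finset (HeightOneSpectrum (𝓞 k))) : ℕ := (Pr S T).relIndex (Dv T)

/-- The zeta function `ζ_{k,S,T}(s)` for `Re s > 1`. -/
noncomputable def zST (S T : Finset (HeightOneSpectrum (𝓞 k))) (s : ℂ) : ℂ :=
  (∏ v ∈ T, (1 - (nv v : ℂ) ^ (1 - s))) *
    ∏' v : {v : HeightOneSpectrum (𝓞 k) // v ∉ S}, (1 - (nv v.1 : ℂ) ^ (-s))⁻¹

/-- the elements of `kˣ` given by a basis of `U_{S,T}` -/
noncomputable def bu {S T : Finset (HeightOneSpectrum (𝓞 k))} {n : ℕ}
    (b : Module.Basis (Fin n) ℤ (Additive (Un S T))) (i : Fin n) : kˣ :=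
  ((Additive.toMul (b i) : Un S T) : kˣ)

/-- `U_{S,T}` is torsion-free -/
def TFree (S T : Finset (HeightOneSpectrum (𝓞 k))) : Prop :=
  ∀ x ∈ Un S T, ∀ n : ℕ, 0 < n → x ^ n = 1 → x = 1

end Reg

/-! ## Group rings and modules -/

section Alg

variable {G : Type} [CommGroup G]

/-- the product over the nontrivial characters of `G` -/
noncomputable def pX (φ : (G →* ℂˣ) → ℂ) : ℂ := ∏ᶠ χ : {χ : G →* ℂˣ // χ ≠ 1}, φ χ.1

/-- the norm element `∑_g g` -/
noncomputable def nrm (G : Type) [CommGroup G] [Fintype G] : MonoidAlgebra ℤ G :=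
  ∑ g : G, MonoidAlgebra.single g 1

variable {M : Type} [AddCommGroup M] [Module (MonoidAlgebra ℤ G) M]

/-- the invariants -/
noncomputable def mPlus (G M : Type) [CommGroup G] [AddCommGroup M] [Module (MonoidAlgebra ℤ G) M] :
    AddSubgroup M where
  carrier := {u | ∀ g : G, MonoidAlgebra.single g (1 : ℤ) • u = u}
  zero_mem' := fun g => smul_zero _
  add_mem' := fun {a b} ha hb g => by rw [smul_add, ha g, hb g]
  neg_mem' := fun {a} ha g => by rw [smul_neg, ha g]

/-- the kernel of the norm element -/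
noncomputable def mMinus (G M : Type) [CommGroup G] [Fintype G] [AddCommGroup M]
    [Module (MonoidAlgebra ℤ G) M] : AddSubgroup M where
  carrier := {u | nrm G • u = 0}
  zero_mem' := smul_zero _
  add_mem' := fun {a b} ha hb => by
    show nrm G • (a + b) = 0
    rw [smul_add, show nrm G • a = 0 from ha, show nrm G • b = 0 from hb, add_zero]
  neg_mem' := fun {a} ha => by
    show nrm G • (-a) = 0
    rw [smul_neg, show nrm G • a = 0 from ha, neg_zero]

/-- the image of `g - 1` -/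
noncomputable def mSub (M : Type) [AddCommGroup M] [Module (MonoidAlgebra ℤ G) M] (g : G) :
    AddSubgroup M :=
  (DistribSMul.toAddMonoidHom M (MonoidAlgebra.single g (1 : ℤ) - 1 : MonoidAlgebra ℤ G)).range

/-- the `ℤ[G]`-span of a family -/
noncomputable def mSpn (G : Type) {M : Type} [CommGroup G] [AddCommGroup M]
    [Module (MonoidAlgebra ℤ G) M] {r : ℕ} (b : Fin r → M) : AddSubgroup M :=
  (Submodule.span (MonoidAlgebra ℤ G) (Set.range b)).toAddSubgroup

end Alg

/-! ## Elements of the minus part -/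

section CoreDef

variable {F H : Type} [Field F] [NumberField F] [Field H] [NumberField H] [Algebra F H]
variable {G : Type} [CommGroup G] [Fintype G]

/-- the matrix `(W_i^*(λ(b_j)))` -/
noncomputable def wmat (ι : G ≃* (H ≃ₐ[F] H)) (S T : Finset (HeightOneSpectrum (𝓞 F))) {r : ℕ}
    (w : Fin r → Pl H) (b : Fin r → UM ι S T) : Matrix (Fin r) (Fin r) (MonoidAlgebra ℝ G) :=
  Matrix.of fun i j => wl ι S T (w i) (b j)

/-- the matrix `(ψ_i(b_j))` -/
noncomputable def pmat {ι : G ≃* (H ≃ₐ[F] H)} {S T : Finset (HeightOneSpectrum (𝓞 F))} {r : ℕ}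
    (ψ : Fin r → (UM ι S T →ₗ[MonoidAlgebra ℤ G] MonoidAlgebra ℤ G)) (b : Fin r → UM ι S T) :
    Matrix (Fin r) (Fin r) (MonoidAlgebra ℤ G) :=
  Matrix.of fun i j => ψ i (b j)

/-- `x b_1 ∧ … ∧ b_r` is the element of the minus part with values `c χ⁻¹`. -/
structure Core (ι : G ≃* (H ≃ₐ[F] H)) (S T : Finset (HeightOneSpectrum (𝓞 F))) {r : ℕ}
    (w : Fin r → Pl H) (c : (G →* ℂˣ) → ℂ) (b : Fin r → UM ι S T) (x : MonoidAlgebra ℚ G) :
    Prop where
  minus : ∀ j, nrm G • b j = 0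
  xminus : toQ G (nrm G) * x = 0
  value : ∀ χ : G →* ℂˣ, χ ≠ 1 → evQ χ x * evR χ (wmat ι S T w b).det = c χ⁻¹

/-- `c χ = lim_{s → 0} s^{-r} L_{S,T}(χ, s)` for every nontrivial character `χ` of `G`. -/
def LeadX (S T : Finset (HeightOneSpectrum (𝓞 F))) (r : ℕ) (fr : HeightOneSpectrum (𝓞 F) → G)
    (c : (G →* ℂˣ) → ℂ) : Prop :=
  ∀ χ : G →* ℂˣ, χ ≠ 1 → ∃ Λ : ℂ → ℂ, MeromorphicOn Λ Set.univ ∧
    (∀ s : ℂ, 1 < s.re → Λ s = LST S T fr χ s) ∧
    Tendsto (fun s : ℂ => Λ s / s ^ r) (𝓝[≠] 0) (𝓝 (c χ))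

end CoreDef

/-! ## Affine extensions -/

/-- `H/F₀` is a Galois extension with group the affine group of the field with `p` elements:
`G = Gal(H/F)` is the subgroup of order `p` and `Gal(H/L)` is a complement. -/
structure Afn (F₀ F L H : Type) [Field F₀] [Field F] [Field L] [Field H] [Algebra F₀ F]
    [Algebra F₀ L] [Algebra F₀ H] [Algebra F H] [Algebra L H]
    {G : Type} [CommGroup G] (ι : G ≃* (H ≃ₐ[F] H)) (p : ℕ) : Prop where
  prime : p.Prime
  cardG : Nat.card G = p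
  cardD : Nat.card (H ≃ₐ[L] H) = p - 1
  dec : ∀ γ : H ≃ₐ[F₀] H, ∃ (g : G) (δ : H ≃ₐ[L] H), ∀ x, γ x = ι g (δ x)
  triv : ∀ g : G, (∀ x : L, ι g (algebraMap L H x) = algebraMap L H x) → g = 1
  cent : ∀ δ : H ≃ₐ[L] H, (∀ g : G, ∀ x, δ (ι g x) = ι g (δ x)) → δ = 1


/-! ## Class numbers -/

section Cls

variable {k : Type} [Field k] [NumberField k]

/-- the units congruent to `1` modulo `T`, as a subgroup of `(𝓞 k)ˣ` -/
def ET (T : Finset (HeightOneSpectrum (𝓞 k))) : Subgroup (𝓞 k)ˣ :=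
  (KT T).comap (Units.map (algebraMap (𝓞 k) k : 𝓞 k →* k))

/-- `kˣ_{(T)}`: the `x` with `ord_v(x) = 0` for `v ∈ T` -/
def K0 (T : Finset (HeightOneSpectrum (𝓞 k))) : Subgroup kˣ where
  carrier := {x | ∀ v ∈ T, v.valuation k (x : k) = 1}
  one_mem' := fun v _ => by simp
  mul_mem' := fun {x y} hx hy v hv => by rw [Units.val_mul, map_mul, hx v hv, hy v hv, mul_one]
  inv_mem' := fun {x} hx v hv => by rw [Units.val_inv_eq_inv_val, map_inv₀, hx v hv, inv_one]

/-- the map `x ↦ div(x)` -/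
noncomputable def dvx (x : kˣ) (v : HeightOneSpectrum (𝓞 k)) : ℤ := ordv v (x : k)

/-- the divisors of the elements prime to `T` -/
def P0 (T : Finset (HeightOneSpectrum (𝓞 k))) : AddSubgroup (HeightOneSpectrum (𝓞 k) →₀ ℤ) where
  carrier := {D | (∀ v ∈ T, D v = 0) ∧ ∃ x ∈ K0 T, ∀ v, D v = ordv v (x : k)}
  zero_mem' := ⟨fun v _ => rfl, 1, (K0 T).one_mem, fun v => by
    rw [Units.val_one, ordv_one]; rfl⟩
  add_mem' := by
    rintro a b ⟨ha, x, hx, hax⟩ ⟨hb, y, hy, hby⟩
    refine ⟨(Dv T).add_mem ha hb, x * y, (K0 T).mul_mem hx hy, fun v => ?_⟩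
    rw [Finsupp.add_apply, hax v, hby v, ordv_mul]
  neg_mem' := by
    rintro a ⟨ha, x, hx, hax⟩
    refine ⟨(Dv T).neg_mem ha, x⁻¹, (K0 T).inv_mem hx, fun v => ?_⟩
    rw [Finsupp.neg_apply, hax v, ordv_inv]

end Cls

/-! ## Matrices -/

/-- the matrix of the logarithms of the family `(a, σ^k b)` of units of `H` -/
def hmat {G : Type} [CommGroup G] (p : ℕ) (σ : G) {r m : ℕ} {Q : Type} (α : Q → Fin r → ℝ)
    (β : Q → Fin m → ℝ) (f : Fin r → Fin r → G → ℝ) :
    (Fin r × G) ⊕ Fin m → Option (Q ⊕ (Fin r × Fin (p - 1))) → ℝ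
  | _, none => 1
  | Sum.inl P, some (Sum.inl j) => α j P.1
  | Sum.inr q, some (Sum.inl j) => p * β j q
  | Sum.inl P, some (Sum.inr j) => f P.1 j.1 ((σ ^ (j.2 : ℕ))⁻¹ * P.2)
  | Sum.inr _, some (Sum.inr _) => 0

/-- the matrix of the logarithms of the family `a` of units of `F` -/
def fmat {r m : ℕ} {Q : Type} (α : Q → Fin r → ℝ) (β : Q → Fin m → ℝ) :
    Fin r ⊕ Fin m → Option Q → ℝ
  | _, none => 1
  | Sum.inl i, some j => α j i
  | Sum.inr q, some j => β j q


/-! ## Local integrality -/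

section LocInt

variable {F H : Type} [Field F] [NumberField F] [Field H] [NumberField H] [Algebra F H]
variable {G : Type} [CommGroup G] [Fintype G]

/-- `L_{S,T}` has an element of the minus part which is integral at `l`. -/
def LCore (ι : G ≃* (H ≃ₐ[F] H)) (S T : Finset (HeightOneSpectrum (𝓞 F))) {r : ℕ}
    (w : Fin r → Pl H) (fr : HeightOneSpectrum (𝓞 F) → G) (l : ℕ) : Prop :=
  ∃ c : (G →* ℂˣ) → ℂ, LeadX S T r fr c ∧ (∀ χ, χ ≠ 1 → c χ ≠ 0) ∧
    ∃ (b : Fin r → UM ι S T) (x : MonoidAlgebra ℚ G), Core ι S T w c b x ∧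
      ∀ ψ : Fin r → (UM ι S T →ₗ[MonoidAlgebra ℤ G] MonoidAlgebra ℤ G),
        ∃ (k : ℕ) (a : MonoidAlgebra ℤ G), ¬ l ∣ k ∧
          MonoidAlgebra.single 1 (k : ℚ) * (x * toQ G (pmat ψ b).det) = toQ G a

end LocInt

/-! ## Subextensions -/

/-- `K` is a subfield of `H` and `π : G → G'` is the restriction to `K`. -/
structure Quo {F K H : Type} [Field F] [NumberField F] [Field K] [NumberField K] [Field H]
    [NumberField H] [Algebra F K] [Algebra F H] [Algebra K H] {G G' : Type} [CommGroup G]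
    [CommGroup G'] (ι : G ≃* (H ≃ₐ[F] H)) (ι' : G' ≃* (K ≃ₐ[F] K)) (π : G →* G') : Prop where
  surj : Function.Surjective π
  compat : ∀ (g : G) (x : K), algebraMap K H (ι' (π g) x) = ι g (algebraMap K H x)

end Pool.Agent.RSK
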