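import Mathlib

/-!
# Rubin's integral refinement of the Stark conjectures (MP_dd9835_nt): definitions
-/

namespace Pool.Agent.RSK

set_option linter.unusedSectionVars false

open NumberField IsDedekindDomain Filter Topology Complex
open scoped TensorProduct

/-! ## Places -/

section Places

variable {k : Type} [Field k] [NumberField k]

/-- The places of a number field `k`: the archimedean and the finite ones. -/
abbrev Pl (k : Type) [Field k] [NumberField k] : Type :=
  InfinitePlace k ⊕ HeightOneSpectrum (𝓞 k)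

/-- `log |x|_w`, where `|x|_w = |x|`, `|x|²`, `(N w) ^ (-ord_w x)` for `w` real, complex, finite. -/
noncomputable def lg : Pl k → k → ℝ
  | Sum.inl w, x => w.mult * Real.log (w x)
  | Sum.inr v, x => Real.log (HeightOneSpectrum.adicAbv k v x)

/-- the norm `q_v` of a finite place -/
noncomputable def nv (v : HeightOneSpectrum (𝓞 k)) : ℕ := Ideal.absNorm v.asIdeal

/-- The places in `S`: all archimedean places and the finite places of the set `S`. -/
abbrev PS (S : Finset (HeightOneSpectrum (𝓞 k))) : Type := InfinitePlace k ⊕ S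

/-- the underlying place -/
def PS.pl {S : Finset (HeightOneSpectrum (𝓞 k))} : PS S → Pl k
  | Sum.inl w => Sum.inl w
  | Sum.inr v => Sum.inr v.1

/-- the place `w` lies in `S` -/
def InS (S : Finset (HeightOneSpectrum (𝓞 k))) : Pl k → Prop
  | Sum.inl _ => True
  | Sum.inr v => v ∈ S

/-- The group `{x ∈ kˣ : x ≡ 1 mod v for all v ∈ T}`. -/
def KT (T : Finset (HeightOneSpectrum (𝓞 k))) : Subgroup kˣ where
  carrier := {x | ∀ v ∈ T, v.valuation k ((x : k) - 1) < 1}
  one_mem' := fun v _ => by simp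
  mul_mem' := by
    intro x y hx hy v hv
    have h1 := hx v hv
    have h2 := hy v hv
    have e : ((x * y : kˣ) : k) - 1 = ((x : k) - 1) * ((y : k) - 1) + (((x : k) - 1) + ((y : k) - 1)) := by
      push_cast
      ring
    rw [e]
    refine Valuation.map_add_lt _ ?_ (Valuation.map_add_lt _ h1 h2)
    rw [map_mul]
    exact mul_lt_one_of_lt_of_le h1 h2.le
  inv_mem' := by
    intro x hx v hv
    have h1 := hx v hv
    have hx1 : v.valuation k (x : k) = 1 := by
      have e : (x : k) = ((x : k) - 1) + 1 := by ring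
      rw [e, Valuation.map_add_eq_of_lt_right _ (by rw [map_one]; exact h1), map_one]
    have e : ((x⁻¹ : kˣ) : k) - 1 = -(((x : k) - 1) * (x : k)⁻¹) := by
      have := x.ne_zero
      rw [Units.val_inv_eq_inv_val]
      field_simp
      ring
    rw [e, Valuation.map_neg, map_mul, map_inv₀, hx1, inv_one, mul_one]
    exact h1

/-- The group `U_{S,T}` of the `x ∈ kˣ` which are units at every finite place outside `S` and
congruent to `1` modulo every place of `T`. -/
def Un (S T : Finset (HeightOneSpectrum (𝓞 k))) : Subgroup kˣ where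
  carrier := {x | (∀ v : HeightOneSpectrum (𝓞 k), v ∉ S → v.valuation k (x : k) = 1) ∧
    x ∈ KT T}
  one_mem' := ⟨fun v _ => by simp, (KT T).one_mem⟩
  mul_mem' := fun hx hy => ⟨fun v hv => by
    rw [Units.val_mul, map_mul, hx.1 v hv, hy.1 v hv, mul_one], (KT T).mul_mem hx.2 hy.2⟩
  inv_mem' := fun hx => ⟨fun v hv => by
    rw [Units.val_inv_eq_inv_val, map_inv₀, hx.1 v hv, inv_one], (KT T).inv_mem hx.2⟩

end Places

/-! ## Extensions -/

section Ext

variable {F H : Type} [Field F] [NumberField F] [Field H] [NumberField H] [Algebra F H]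

/-- the place of `F` below a place of `H` -/
noncomputable def dn (F : Type) {H : Type} [Field F] [NumberField F] [Field H] [NumberField H]
    [Algebra F H] : Pl H → Pl F
  | Sum.inl w => Sum.inl (w.comap (algebraMap F H))
  | Sum.inr w => Sum.inr (w.under (𝓞 F))

theorem ovr_finite (S : Finset (HeightOneSpectrum (𝓞 F))) :
    {w : HeightOneSpectrum (𝓞 H) | w.under (𝓞 F) ∈ S}.Finite := by
  have h : {w : HeightOneSpectrum (𝓞 H) | w.under (𝓞 F) ∈ S} ⊆
      ⋃ v ∈ S, {w : HeightOneSpectrum (𝓞 H) | w.asIdeal ∈ v.asIdeal.primesOver (𝓞 H)} := by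
    intro w hw
    simp only [Set.mem_iUnion]
    refine ⟨w.under (𝓞 F), hw, ?_⟩
    exact ⟨w.isPrime, ⟨rfl⟩⟩
  refine Set.Finite.subset ?_ h
  refine Set.Finite.biUnion S.finite_toSet fun v _ => ?_
  have : v.asIdeal.IsMaximal := v.isMaximal
  exact Set.Finite.preimage (fun a _ b _ hab => HeightOneSpectrum.ext hab)
    (IsDedekindDomain.primesOver_finite v.asIdeal (𝓞 H))

/-- the finite places of `H` above the places of `S` -/
noncomputable def ovr (H : Type) [Field H] [NumberField H] [Algebra F H]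
    (S : Finset (HeightOneSpectrum (𝓞 F))) : Finset (HeightOneSpectrum (𝓞 H)) :=
  (ovr_finite (H := H) S).toFinset

theorem mem_ovr {S : Finset (HeightOneSpectrum (𝓞 F))} {w : HeightOneSpectrum (𝓞 H)} :
    w ∈ ovr H S ↔ w.under (𝓞 F) ∈ S := by
  simp [ovr]

/-- the action of the Galois group on the places of `H`: `|x|_{σ w} = |σ⁻¹ x|_w` -/
noncomputable def act (σ : H ≃ₐ[F] H) : Pl H → Pl H
  | Sum.inl w => Sum.inl (σ • w)
  | Sum.inr w => Sum.inr (HeightOneSpectrum.equivOfRingEquiv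
      (RingOfIntegers.mapRingEquiv σ.toRingEquiv) w)

/-- `σ` is the Frobenius automorphism of `H/F` at (all places above) `v`. -/
def IsFr (v : HeightOneSpectrum (𝓞 F)) (σ : H ≃ₐ[F] H) : Prop :=
  ∀ w : HeightOneSpectrum (𝓞 H), w.under (𝓞 F) = v →
    ∀ x : 𝓞 H, RingOfIntegers.mapRingEquiv σ.toRingEquiv x - x ^ nv v ∈ w.asIdeal

theorem intVal_equiv {R : Type} [CommRing R] [IsDedekindDomain R] (e : R ≃+* R)
    (w : HeightOneSpectrum R) (x : R) :
    (HeightOneSpectrum.equivOfRingEquiv e w).intValuation (e x) = w.intValuation x := by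
  have hmem : ∀ n : ℕ, e x ∈ (HeightOneSpectrum.equivOfRingEquiv e w).asIdeal ^ n ↔
      x ∈ w.asIdeal ^ n := fun n => by
    have h1 : (HeightOneSpectrum.equivOfRingEquiv e w).asIdeal ^ n =
        (w.asIdeal ^ n).map (e : R →+* R) := by
      rw [Ideal.map_pow]
      congr 1
      show Ideal.comap (e.symm : R →+* R) w.asIdeal = _
      exact Ideal.comap_symm e
    rw [h1]
    have h2 : (w.asIdeal ^ n).map (e : R →+* R) = (w.asIdeal ^ n).comap (e.symm : R →+* R) :=
      (Ideal.comap_symm e).symm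
    rw [h2, Ideal.mem_comap]
    simp
  refine le_antisymm ?_ ?_
  · by_cases hx : x = 0
    · simp [hx]
    · obtain ⟨n, hn⟩ : ∃ n : ℕ, w.intValuation x = WithZero.exp (-(n : ℤ)) :=
        ⟨_, w.intValuation_if_neg hx⟩
      rw [hn, HeightOneSpectrum.intValuation_le_pow_iff_mem, hmem,
        ← HeightOneSpectrum.intValuation_le_pow_iff_mem, hn]
  · by_cases hx : x = 0
    · simp [hx]
    · have hx' : e x ≠ 0 := by simpa using hx
      obtain ⟨n, hn⟩ : ∃ n : ℕ, (HeightOneSpectrum.equivOfRingEquiv e w).intValuation (e x) =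
        WithZero.exp (-(n : ℤ)) := ⟨_, HeightOneSpectrum.intValuation_if_neg _ hx'⟩
      rw [hn, HeightOneSpectrum.intValuation_le_pow_iff_mem, ← hmem,
        ← HeightOneSpectrum.intValuation_le_pow_iff_mem, hn]

theorem val_equiv (e : H ≃+* H) (w : HeightOneSpectrum (𝓞 H)) (x : H) :
    (HeightOneSpectrum.equivOfRingEquiv (RingOfIntegers.mapRingEquiv e) w).valuation H (e x) =
      w.valuation H x := by
  obtain ⟨a, b, hb, rfl⟩ := IsFractionRing.div_surjective (A := 𝓞 H) x
  have h : ∀ a : 𝓞 H, (HeightOneSpectrum.equivOfRingEquiv (RingOfIntegers.mapRingEquiv e) w).valuation H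
      (e (algebraMap (𝓞 H) H a)) = w.valuation H (algebraMap (𝓞 H) H a) := fun a => by
    have h1 : e (algebraMap (𝓞 H) H a) = algebraMap (𝓞 H) H (RingOfIntegers.mapRingEquiv e a) := rfl
    rw [h1, HeightOneSpectrum.valuation_of_algebraMap, HeightOneSpectrum.valuation_of_algebraMap,
      intVal_equiv]
  rw [map_div₀, map_div₀, map_div₀, h, h]

theorem under_equiv (σ : H ≃ₐ[F] H) (w : HeightOneSpectrum (𝓞 H)) :
    (HeightOneSpectrum.equivOfRingEquiv (RingOfIntegers.mapRingEquiv σ.toRingEquiv) w).under (𝓞 F) =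
      w.under (𝓞 F) := by
  ext x
  show (RingOfIntegers.mapRingEquiv σ.toRingEquiv).symm (algebraMap (𝓞 F) (𝓞 H) x) ∈ w.asIdeal ↔
    algebraMap (𝓞 F) (𝓞 H) x ∈ w.asIdeal
  have h : (RingOfIntegers.mapRingEquiv σ.toRingEquiv).symm (algebraMap (𝓞 F) (𝓞 H) x) =
      algebraMap (𝓞 F) (𝓞 H) x := by
    rw [RingEquiv.symm_apply_eq]
    ext
    show ((algebraMap (𝓞 F) (𝓞 H) x : 𝓞 H) : H) = σ ((algebraMap (𝓞 F) (𝓞 H) x : 𝓞 H) : H)
    exact (σ.commutes (x : F)).symm
  rw [h]

theorem un_smul {S T : Finset (HeightOneSpectrum (𝓞 F))} (σ : H ≃ₐ[F] H) {x : Hˣ}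
    (hx : x ∈ Un (ovr H S) (ovr H T)) : σ • x ∈ Un (ovr H S) (ovr H T) := by
  have key : ∀ (w : HeightOneSpectrum (𝓞 H)) (y : H), w.valuation H (σ y) =
      (HeightOneSpectrum.equivOfRingEquiv (RingOfIntegers.mapRingEquiv σ.symm.toRingEquiv) w).valuation
        H y := fun w y => by
    have h := val_equiv σ.symm.toRingEquiv w (σ y)
    have h2 : σ.symm.toRingEquiv (σ y) = y := σ.symm_apply_apply y
    rw [h2] at h
    exact h.symm
  have hs : ((σ • x : Hˣ) : H) = σ (x : H) := rfl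
  refine ⟨fun w hw => ?_, fun w hw => ?_⟩
  · rw [hs, key]
    refine hx.1 _ ?_
    rw [mem_ovr, under_equiv]
    rwa [mem_ovr] at hw
  · have e : ((σ • x : Hˣ) : H) - 1 = σ ((x : H) - 1) := by rw [hs, map_sub, map_one]
    rw [e, key]
    refine hx.2 _ ?_
    rw [mem_ovr, under_equiv]
    rwa [mem_ovr] at hw

/-! ## L-functions -/

/-- The Euler product `L_{S,T}(χ, s)` for `Re s > 1`; `fr v` is the Frobenius at `v`. -/
noncomputable def LST {G : Type} [CommGroup G] (S T : Finset (HeightOneSpectrum (𝓞 F)))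
    (fr : HeightOneSpectrum (𝓞 F) → G) (χ : G →* ℂˣ) (s : ℂ) : ℂ :=
  (∏ v ∈ T, (1 - (χ (fr v) : ℂ) * (nv v : ℂ) ^ (1 - s))) *
    ∏' v : {v : HeightOneSpectrum (𝓞 F) // v ∉ S}, (1 - (χ (fr v) : ℂ) * (nv v.1 : ℂ) ^ (-s))⁻¹

end Ext

/-! ## Group rings -/

section GR

variable {G : Type} [CommGroup G]

/-- `ℤ[G] → ℚ[G]` -/
noncomputable def toQ (G : Type) [CommGroup G] : MonoidAlgebra ℤ G →+* MonoidAlgebra ℚ G :=
  MonoidAlgebra.mapRingHom G (Int.castRingHom ℚ)

/-- `ℤ[G] → ℝ[G]` -/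
noncomputable def toR (G : Type) [CommGroup G] : MonoidAlgebra ℤ G →+* MonoidAlgebra ℝ G :=
  MonoidAlgebra.mapRingHom G (Int.castRingHom ℝ)

/-- `ℚ[G] → ℝ[G]` -/
noncomputable def qToR (G : Type) [CommGroup G] : MonoidAlgebra ℚ G →+* MonoidAlgebra ℝ G :=
  MonoidAlgebra.mapRingHom G (algebraMap ℚ ℝ)

noncomputable instance : Algebra (MonoidAlgebra ℤ G) (MonoidAlgebra ℚ G) := (toQ G).toAlgebra

noncomputable instance : Algebra (MonoidAlgebra ℤ G) (MonoidAlgebra ℝ G) := (toR G).toAlgebra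

/-- the value `χ(a)` of a character at `a ∈ ℝ[G]` -/
noncomputable def evR (χ : G →* ℂˣ) : MonoidAlgebra ℝ G →ₐ[ℝ] ℂ :=
  MonoidAlgebra.lift ℝ ℂ G ((Units.coeHom ℂ).comp χ)

/-- the value `χ(a)` of a character at `a ∈ ℚ[G]` -/
noncomputable def evQ (χ : G →* ℂˣ) : MonoidAlgebra ℚ G →ₐ[ℚ] ℂ :=
  MonoidAlgebra.lift ℚ ℂ G ((Units.coeHom ℂ).comp χ)

/-- the value `χ(a)` of a character at `a ∈ ℤ[G]` -/
noncomputable def evZ (χ : G →* ℂˣ) : MonoidAlgebra ℤ G →+* ℂ :=
  (evQ χ : MonoidAlgebra ℚ G →+* ℂ).comp (toQ G)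

end GR

/-! ## The lattice `U_{S,T}` as a `ℤ[G]`-module -/

section Lat

variable {F H : Type} [Field F] [NumberField F] [Field H] [NumberField H] [Algebra F H]
variable {G : Type} [CommGroup G]

/-- `U_{S,T}` for `H/F`, written additively; `G` is identified with `Gal(H/F)` by `ι`. -/
def UM (_ι : G ≃* (H ≃ₐ[F] H)) (S T : Finset (HeightOneSpectrum (𝓞 F))) : Type :=
  Additive (Un (ovr H S) (ovr H T))

variable (ι : G ≃* (H ≃ₐ[F] H)) (S T : Finset (HeightOneSpectrum (𝓞 F)))

noncomputable instance : AddCommGroup (UM ι S T) :=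
  inferInstanceAs (AddCommGroup (Additive (Un (ovr H S) (ovr H T))))

/-- the underlying element of `Hˣ` -/
def UM.val {ι : G ≃* (H ≃ₐ[F] H)} {S T : Finset (HeightOneSpectrum (𝓞 F))} (u : UM ι S T) : Hˣ :=
  (Additive.toMul (α := Un (ovr H S) (ovr H T)) u : Un (ovr H S) (ovr H T))

/-- the element of `U_{S,T}` given by `x` -/
def UM.mk {ι : G ≃* (H ≃ₐ[F] H)} {S T : Finset (HeightOneSpectrum (𝓞 F))} (x : Hˣ)
    (hx : x ∈ Un (ovr H S) (ovr H T)) : UM ι S T :=
  Additive.ofMul (α := Un (ovr H S) (ovr H T)) ⟨x, hx⟩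

theorem UM.ext {ι : G ≃* (H ≃ₐ[F] H)} {S T : Finset (HeightOneSpectrum (𝓞 F))} {u v : UM ι S T}
    (h : u.val = v.val) : u = v := Subtype.ext h

theorem UM.val_add {ι : G ≃* (H ≃ₐ[F] H)} {S T : Finset (HeightOneSpectrum (𝓞 F))}
    (u v : UM ι S T) : (u + v).val = u.val * v.val := rfl

theorem UM.val_zero {ι : G ≃* (H ≃ₐ[F] H)} {S T : Finset (HeightOneSpectrum (𝓞 F))} :
    (0 : UM ι S T).val = 1 := rfl

theorem UM.val_neg {ι : G ≃* (H ≃ₐ[F] H)} {S T : Finset (HeightOneSpectrum (𝓞 F))}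
    (u : UM ι S T) : (-u).val = u.val⁻¹ := rfl

theorem UM.val_mem {ι : G ≃* (H ≃ₐ[F] H)} {S T : Finset (HeightOneSpectrum (𝓞 F))}
    (u : UM ι S T) : u.val ∈ Un (ovr H S) (ovr H T) := Subtype.prop _

theorem UM.val_mk {ι : G ≃* (H ≃ₐ[F] H)} {S T : Finset (HeightOneSpectrum (𝓞 F))} (x : Hˣ)
    (hx : x ∈ Un (ovr H S) (ovr H T)) : (UM.mk (ι := ι) x hx).val = x := rfl

/-- the action of `g ∈ G` on `U_{S,T}` -/
noncomputable def umEnd (g : G) : Module.End ℤ (UM ι S T) :=
  AddMonoidHom.toIntLinearMap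
    { toFun := fun u => UM.mk (ι g • u.val) (un_smul (ι g) u.val_mem)
      map_zero' := UM.ext (by rw [UM.val_mk, UM.val_zero, smul_one])
      map_add' := fun u v => UM.ext (by
        rw [UM.val_mk, UM.val_add, UM.val_add, UM.val_mk, UM.val_mk, smul_mul']) }

theorem umEnd_val (g : G) (u : UM ι S T) : (umEnd ι S T g u).val = ι g • u.val := rfl

/-- the representation of `G` on `U_{S,T}` -/
noncomputable def umRep : G →* Module.End ℤ (UM ι S T) where
  toFun := umEnd ι S T
  map_one' := LinearMap.ext fun u => UM.ext (by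
    rw [umEnd_val, map_one, one_smul]
    rfl)
  map_mul' := fun g h => LinearMap.ext fun u => UM.ext (by
    rw [umEnd_val, map_mul, mul_smul]
    rfl)

/-- `U_{S,T}` is a `ℤ[G]`-module. -/
noncomputable instance : Module (MonoidAlgebra ℤ G) (UM ι S T) :=
  Module.compHom _ (MonoidAlgebra.lift ℤ (Module.End ℤ (UM ι S T)) G (umRep ι S T)).toRingHom

theorem um_single_smul (g : G) (u : UM ι S T) :
    (MonoidAlgebra.single g (1 : ℤ) • u).val = ι g • u.val := by
  have h : (MonoidAlgebra.single g (1 : ℤ) • u : UM ι S T) =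
      MonoidAlgebra.lift ℤ (Module.End ℤ (UM ι S T)) G (umRep ι S T)
        (MonoidAlgebra.single g (1 : ℤ)) u := rfl
  rw [h, MonoidAlgebra.lift_single, one_smul]
  rfl

end Lat

/-! ## The Galois action and the logarithms -/

section Act
variable {F H : Type} [Field F] [NumberField F] [Field H] [NumberField H] [Algebra F H]

theorem act_one (W : Pl H) : act (1 : H ≃ₐ[F] H) W = W := by
  rcases W with w | w
  · show Sum.inl ((1 : H ≃ₐ[F] H) • w) = _
    rw [one_smul]
  · rfl

theorem act_mul (σ τ : H ≃ₐ[F] H) (W : Pl H) : act (σ * τ) W = act σ (act τ W) := by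
  rcases W with w | w
  · show Sum.inl ((σ * τ) • w) = Sum.inl (σ • τ • w)
    rw [mul_smul]
  · rfl

theorem dn_act (σ : H ≃ₐ[F] H) (W : Pl H) : dn F (act σ W) = dn F W := by
  rcases W with w | w
  · show Sum.inl ((σ • w).comap (algebraMap F H)) = Sum.inl (w.comap (algebraMap F H))
    congr 1
    rw [InfinitePlace.comap_smul]
    congr 1
    ext x
    exact σ.symm.commutes x
  · show Sum.inr _ = Sum.inr _
    rw [under_equiv]

theorem nv_equiv (e : 𝓞 H ≃+* 𝓞 H) (w : HeightOneSpectrum (𝓞 H)) :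
    nv (HeightOneSpectrum.equivOfRingEquiv e w) = nv w := by
  unfold nv
  rw [Ideal.absNorm_apply, Ideal.absNorm_apply, Submodule.cardQuot_apply, Submodule.cardQuot_apply]
  refine Nat.card_congr (Ideal.quotientEquiv _ _ e ?_).toEquiv.symm
  exact (Ideal.comap_symm e)

theorem adicAbv_congr {w w' : HeightOneSpectrum (𝓞 H)} (hn : nv w = nv w') {x y : H}
    (h : w.valuation H x = w'.valuation H y) :
    HeightOneSpectrum.adicAbv H w x = HeightOneSpectrum.adicAbv H w' y := by
  unfold nv at hn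
  rw [HeightOneSpectrum.adicAbv_def, HeightOneSpectrum.adicAbv_def, h]
  have : ∀ (a b : NNReal) (ha : a ≠ 0) (hb : b ≠ 0) (hab : a = b),
    WithZeroMulInt.toNNReal ha (w'.valuation H y) = WithZeroMulInt.toNNReal hb (w'.valuation H y) := by
    intro a b ha hb hab
    subst hab
    rfl
  rw [this _ _ (HeightOneSpectrum.absNorm_ne_zero w) (HeightOneSpectrum.absNorm_ne_zero w') (by rw [hn])]

theorem lg_act (σ : H ≃ₐ[F] H) (W : Pl H) (x : H) : lg (act σ W) (σ x) = lg W x := by
  rcases W with w | w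
  · show ((σ • w).mult : ℝ) * Real.log ((σ • w) (σ x)) = w.mult * Real.log (w x)
    rw [InfinitePlace.smul_apply, AlgEquiv.symm_apply_apply]
    have hm : (σ • w).mult = w.mult := by
      rw [InfinitePlace.mult, InfinitePlace.mult]
      have := InfinitePlace.isReal_smul_iff (σ := σ) (w := w)
      by_cases h : w.IsReal
      · rw [if_pos h, if_pos (this.2 h)]
      · rw [if_neg h, if_neg (fun h' => h (this.1 h'))]
    rw [hm]
  · show Real.log _ = Real.log _
    congr 1
    refine adicAbv_congr (nv_equiv _ _) ?_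
    exact val_equiv σ.toRingEquiv w x

end Act

section WL
variable {F H : Type} [Field F] [NumberField F] [Field H] [NumberField H] [Algebra F H]
variable {G : Type} [CommGroup G] [Fintype G] (ι : G ≃* (H ≃ₐ[F] H))
  (S T : Finset (HeightOneSpectrum (𝓞 F)))

theorem lg_mul (W : Pl H) {x y : H} (hx : x ≠ 0) (hy : y ≠ 0) : lg W (x * y) = lg W x + lg W y := by
  rcases W with w | w
  · show w.mult * Real.log (w (x * y)) = w.mult * Real.log (w x) + w.mult * Real.log (w y)
    rw [map_mul, Real.log_mul ((map_ne_zero w).2 hx) ((map_ne_zero w).2 hy), mul_add]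
  · show Real.log _ = Real.log _ + Real.log _
    rw [map_mul, Real.log_mul ((map_ne_zero _).2 hx) ((map_ne_zero _).2 hy)]

theorem lg_one (W : Pl H) : lg W (1 : H) = 0 := by
  rcases W with w | w
  · show w.mult * Real.log (w 1) = 0
    rw [map_one, Real.log_one, mul_zero]
  · show Real.log _ = 0
    rw [map_one, Real.log_one]

/-- The additive map `u ↦ ∑_γ log|u|_{γ W} γ`. -/
noncomputable def wlAdd (W : Pl H) : UM ι S T →+ MonoidAlgebra ℝ G where
  toFun u := ∑ γ : G, MonoidAlgebra.single γ (lg (act (ι γ) W) (u.val : H))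
  map_zero' := by
    refine Finset.sum_eq_zero fun γ _ => ?_
    rw [UM.val_zero, Units.val_one, lg_one, MonoidAlgebra.single_zero]
  map_add' u v := by
    rw [← Finset.sum_add_distrib]
    refine Finset.sum_congr rfl fun γ _ => ?_
    rw [UM.val_add, Units.val_mul, lg_mul _ u.val.ne_zero v.val.ne_zero, MonoidAlgebra.single_add]

theorem wlAdd_single (W : Pl H) (g : G) (u : UM ι S T) :
    wlAdd ι S T W (MonoidAlgebra.single g (1 : ℤ) • u) =
      MonoidAlgebra.single g (1 : ℝ) * wlAdd ι S T W u := by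
  show ∑ γ : G, MonoidAlgebra.single γ (lg (act (ι γ) W)
    ((MonoidAlgebra.single g (1 : ℤ) • u : UM ι S T).val : H)) =
      MonoidAlgebra.single g (1 : ℝ) * ∑ γ : G, MonoidAlgebra.single γ (lg (act (ι γ) W) (u.val : H))
  rw [Finset.mul_sum, ← Equiv.sum_comp (Equiv.mulLeft g)]
  refine Finset.sum_congr rfl fun γ _ => ?_
  rw [Equiv.coe_mulLeft, MonoidAlgebra.single_mul_single, one_mul, um_single_smul, map_mul,
    act_mul]
  have h : ((ι g • u.val : Hˣ) : H) = ι g (u.val : H) := rfl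
  rw [h, lg_act]

/-- The map `u ↦ W^*(λ(u))`, where `λ(u) = ∑_w log|u|_w w` and `W^*(w) = ∑_{γ W = w} γ`, so that
`W^*(λ(u)) = ∑_γ log|u|_{γ W} γ`. -/
noncomputable def wl (W : Pl H) : UM ι S T →ₗ[MonoidAlgebra ℤ G] MonoidAlgebra ℝ G where
  toFun := wlAdd ι S T W
  map_add' := map_add _
  map_smul' a u := by
    show wlAdd ι S T W (a • u) = toR G a * wlAdd ι S T W u
    induction a using MonoidAlgebra.induction_on with
    | of g =>
      have h : MonoidAlgebra.of ℤ G g = MonoidAlgebra.single g 1 := rfl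
      rw [h, wlAdd_single]
      congr 1
      simp [toR]
    | add a b ha hb => rw [add_smul, map_add, map_add, add_mul, ha, hb]
    | smul c a ha =>
      have h : (c • a) • u = c • (a • u) := smul_assoc c a u
      rw [h, map_zsmul, ha, map_zsmul, smul_mul_assoc]

end WL
/-! ## Exterior powers -/

section Det

variable {R M A : Type} [CommRing R] [AddCommGroup M] [Module R M] [CommRing A] [Algebra R A]

/-- The alternating map `(m_1, …, m_r) ↦ det (f_i(m_j))`. -/
noncomputable def detAlt {r : ℕ} (f : Fin r → M →ₗ[R] A) : M [⋀^Fin r]→ₗ[R] A :=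
  AlternatingMap.mk
    (MultilinearMap.compLinearMap
      ((Matrix.detRowAlternating (n := Fin r) (R := A)).toMultilinearMap.restrictScalars R)
      (fun _ => LinearMap.pi f))
    (fun v i j h hij => by
      have h1 : (fun l => LinearMap.pi f (v l)) i = (fun l => LinearMap.pi f (v l)) j := by
        simp only [h]
      exact (Matrix.detRowAlternating (n := Fin r) (R := A)).map_eq_zero_of_eq _ h1 hij)

theorem detAlt_apply {r : ℕ} (f : Fin r → M →ₗ[R] A) (m : Fin r → M) :
    detAlt f m = Matrix.det (Matrix.of fun i j => f i (m j)) := by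
  rw [← Matrix.det_transpose]
  rfl

/-- The map `m_1 ∧ … ∧ m_r ↦ det (f_i(m_j))` on the exterior power over `R`. -/
noncomputable def detMap {r : ℕ} (f : Fin r → M →ₗ[R] A) : ⋀[R]^r M →ₗ[R] A :=
  exteriorPower.alternatingMapLinearEquiv (detAlt f)

theorem detMap_ι {r : ℕ} (f : Fin r → M →ₗ[R] A) (m : Fin r → M) :
    detMap f (exteriorPower.ιMulti R r m) = Matrix.det (Matrix.of fun i j => f i (m j)) := by
  rw [detMap, exteriorPower.alternatingMapLinearEquiv_apply_ιMulti, detAlt_apply]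

/-- `ℚ ⊗ N` for an abelian group `N`, and the extension of additive maps to it -/
noncomputable def extQ {N B : Type} [AddCommGroup N] [AddCommGroup B] [Module ℚ B]
    (f : N →+ B) : N ⊗[ℤ] ℚ →+ B :=
  (TensorProduct.lift (LinearMap.mk₂ ℤ (fun (n : N) (q : ℚ) => q • f n)
    (fun m n q => by simp only [map_add, smul_add])
    (fun c m q => by simp only [map_zsmul]; rw [smul_comm])
    (fun m q q' => by simp only [add_smul])
    (fun c m q => by simp only [smul_assoc]))).toAddMonoidHom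

theorem extQ_tmul {N B : Type} [AddCommGroup N] [AddCommGroup B] [Module ℚ B]
    (f : N →+ B) (n : N) (q : ℚ) : extQ f (n ⊗ₜ[ℤ] q) = q • f n := rfl

end Det

/-! ## Rubin's conjecture -/

section Rubin

variable {F H : Type} [Field F] [NumberField F] [Field H] [NumberField H] [Algebra F H]
variable {G : Type} [CommGroup G] [Fintype G]

/-- The data of Rubin's conjecture for the finite abelian extension `H/F`, whose Galois group is
identified with `G` by `ι`: the finite places in `S` and in `T` (`S` contains moreover all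
archimedean places), the rank `r`, the places `w_1, …, w_r` above the places of `S` which split
completely in `H`, and the Frobenius automorphisms `fr v` at the places outside `S`. -/
structure Data (ι : G ≃* (H ≃ₐ[F] H)) (S T : Finset (HeightOneSpectrum (𝓞 F))) (r : ℕ)
    (w : Fin r → Pl H) (fr : HeightOneSpectrum (𝓞 F) → G) : Prop where
  /-- `S` and `T` are disjoint -/
  disj : Disjoint S T
  /-- `S` contains the ramified places -/
  unram : ∀ W : HeightOneSpectrum (𝓞 H), W.under (𝓞 F) ∉ S →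
    Algebra.IsUnramifiedAt (𝓞 F) W.asIdeal
  /-- `T` contains two primes of different residue characteristics or one prime of residue
  characteristic `> [F : ℚ] + 1` -/
  tors : (∃ v ∈ T, ∃ v' ∈ T, ringChar (𝓞 F ⧸ v.asIdeal) ≠ ringChar (𝓞 F ⧸ v'.asIdeal)) ∨
    ∃ v ∈ T, Module.finrank ℚ F + 1 < ringChar (𝓞 F ⧸ v.asIdeal)
  /-- the `w_i` lie above places in `S` -/
  mem : ∀ i, InS S (dn F (w i))
  /-- which split completely in `H` -/
  split : ∀ i, ∀ σ : H ≃ₐ[F] H, act σ (w i) = w i → σ = 1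
  /-- and are pairwise distinct -/
  inj : ∀ i j, dn F (w i) = dn F (w j) → i = j
  /-- all places in `S` which split completely are obtained -/
  all : ∀ W : Pl H, InS S (dn F W) → (∀ σ : H ≃ₐ[F] H, act σ W = W → σ = 1) →
    ∃ i, dn F W = dn F (w i)
  /-- `#S ≥ r + 1` -/
  card : r + 1 ≤ Fintype.card (InfinitePlace F) + S.card
  /-- `fr v` is the Frobenius automorphism at `v` -/
  frob : ∀ v, v ∉ S → IsFr v (ι (fr v))

/-- `c χ = lim_{s → 0} s^{-r} L_{S,T}(χ, s)` for every character `χ` of `G`, where the L-function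
is continued meromorphically to `ℂ`. -/
def Lead (S T : Finset (HeightOneSpectrum (𝓞 F))) (r : ℕ) (fr : HeightOneSpectrum (𝓞 F) → G)
    (c : (G →* ℂˣ) → ℂ) : Prop :=
  ∀ χ : G →* ℂˣ, ∃ Λ : ℂ → ℂ, MeromorphicOn Λ Set.univ ∧
    (∀ s : ℂ, 1 < s.re → Λ s = LST S T fr χ s) ∧
    Tendsto (fun s : ℂ => Λ s / s ^ r) (𝓝[≠] 0) (𝓝 (c χ))

/-- `u ∈ ℚ ⊗ ⋀^r U_{S,T}` lies in Rubin's lattice and `w_1^* ∧ … ∧ w_r^*` maps `λ(u)` to the element
`Θ` with `χ(Θ) = c(χ⁻¹)`. -/
structure IsRubin (ι : G ≃* (H ≃ₐ[F] H)) (S T : Finset (HeightOneSpectrum (𝓞 F))) {r : ℕ}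
    (w : Fin r → Pl H) (c : (G →* ℂˣ) → ℂ)
    (u : (⋀[MonoidAlgebra ℤ G]^r (UM ι S T)) ⊗[ℤ] ℚ) : Prop where
  /-- `ψ_1 ∧ … ∧ ψ_r` maps `u` to `ℤ[G]`, for all `ψ_i ∈ Hom_{ℤ[G]}(U_{S,T}, ℤ[G])` -/
  integral : ∀ ψ : Fin r → (UM ι S T →ₗ[MonoidAlgebra ℤ G] MonoidAlgebra ℤ G),
    ∃ a : MonoidAlgebra ℤ G,
      extQ ((toQ G).toAddMonoidHom.comp (detMap ψ).toAddMonoidHom) u = toQ G a
  /-- `u = e_r u`: the elements `a` of `ℤ[G]` with `χ(a) = 0` for all `χ` with
  `L^{(r)}_{S,T}(χ, 0) ≠ 0` annihilate `u` -/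
  er : ∀ a : MonoidAlgebra ℤ G, (∀ χ, c χ ≠ 0 → evZ χ a = 0) → a • u = 0
  /-- `(w_1^* ∧ … ∧ w_r^*)(λ(u)) = Θ` -/
  value : ∀ χ : G →* ℂˣ,
    evR χ (extQ (detMap (fun i => wl ι S T (w i))).toAddMonoidHom u) = c χ⁻¹

/-- The conclusion of Rubin's conjecture: there is an element `u` of Rubin's lattice with
`(w_1^* ∧ … ∧ w_r^*)(λ(u)) = Θ^{(r)}_{S,T}(H/F, 0)`. -/
def RubinStark (ι : G ≃* (H ≃ₐ[F] H)) (S T : Finset (HeightOneSpectrum (𝓞 F))) {r : ℕ}
    (w : Fin r → Pl H) (fr : HeightOneSpectrum (𝓞 F) → G) : Prop :=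
  ∃ c : (G →* ℂˣ) → ℂ, Lead S T r fr c ∧ ∃ u, IsRubin ι S T w c u

end Rubin

/-! ## Subextensions of degree `p` -/

section Fix

variable {F H : Type} [Field F] [NumberField F] [Field H] [NumberField H] [Algebra F H]
  {G : Type} [CommGroup G] (ι : G ≃* (H ≃ₐ[F] H))

/-- the fixed field of the subgroup `N` of `G` -/
def Kf (N : Subgroup G) : IntermediateField F H :=
  IntermediateField.fixedField (N.map ι.toMonoidHom)

end Fix

/-- The condition on a cyclic extension `K/F` of degree `p`: there is an automorphism `τ` of the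
field `K` with `τ ^ (p - 1) = 1` such that conjugation by `τ` is a generator of the automorphism
group of `Gal(K/F)`. -/
def Aff (p : ℕ) (F K : Type) [Field F] [Field K] [Algebra F K] : Prop :=
  ∃ (τ : K ≃+* K) (n : ℕ), (∀ x, (τ : K → K)^[p - 1] x = x) ∧ orderOf (n : ZMod p) = p - 1 ∧
    ∀ (σ : K ≃ₐ[F] K) (x : K), τ (σ x) = (σ ^ n) (τ x)

end Pool.Agent.RSK
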