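import Pool.Agent.Lib_helper17.RS.Bas
import Pool.Agent.Lib_helper17.RS.P_PX2
import Pool.Agent.Lib_helper17.RS.P_AC
import Pool.Agent.Lib_helper17.RS.P_WA
import Pool.Agent.Lib_helper17.RS.P_LF
import Pool.Agent.Lib_helper17.RS.P_CG
import Pool.Agent.Lib_helper17.RS.P_QU2
import Pool.Agent.Lib_helper17.RS.P_TR2
import Pool.Agent.Lib_helper17.RS.P_IF
import Pool.Agent.Lib_helper17.RS.P_EX
namespace Pool.Agent.RSK

set_option linter.unusedSectionVars false

open NumberField NumberField.InfinitePlace NumberField.Units IsDedekindDomain Filter Topology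
  Complex

section FT

variable {F H : Type} [Field F] [NumberField F] [Field H] [NumberField H] [Algebra F H]
  [IsGalois F H] {G : Type} [CommGroup G] [Fintype G] {p : ℕ} {ι : G ≃* (H ≃ₐ[F] H)}
  {S T : Finset (HeightOneSpectrum (𝓞 F))} {r : ℕ} {w : Fin r → Pl H}
  {fr : HeightOneSpectrum (𝓞 F) → G}

/-- the data provided by the subgroup `N` -/
structure FtP (ι : G ≃* (H ≃ₐ[F] H)) (S T : Finset (HeightOneSpectrum (𝓞 F))) {r : ℕ}
    (w : Fin r → Pl H) (fr : HeightOneSpectrum (𝓞 F) → G) (N : Subgroup G)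
    (c : (G ⧸ N →* ℂˣ) → ℂ) (b : Fin r → UM ι S T) (x : MonoidAlgebra ℚ G) : Prop where
  lead : ∀ χ : G ⧸ N →* ℂˣ, χ ≠ 1 → ∃ Λ : ℂ → ℂ, MeromorphicOn Λ Set.univ ∧
    (∀ s : ℂ, 1 < s.re → Λ s = LST S T fr (χ.comp (QuotientGroup.mk' N)) s) ∧
    Tendsto (fun s : ℂ => Λ s / s ^ r) (𝓝[≠] 0) (𝓝 (c χ))
  off : ∀ χ : G →* ℂˣ, (¬ ∃ χ' : G ⧸ N →* ℂˣ, χ = χ'.comp (QuotientGroup.mk' N)) → evQ χ x = 0
  one : evQ (1 : G →* ℂˣ) x = 0
  val : ∀ χ' : G ⧸ N →* ℂˣ, χ' ≠ 1 → evQ (χ'.comp (QuotientGroup.mk' N)) x *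
    evR (χ'.comp (QuotientGroup.mk' N)) (wmat ι S T w b).det = c χ'⁻¹
  van : ∀ χ' : G ⧸ N →* ℂˣ, χ' ≠ 1 → c χ' = 0 → evQ (χ'.comp (QuotientGroup.mk' N)) x = 0
  int : ∀ ψ : Fin r → (UM ι S T →ₗ[MonoidAlgebra ℤ G] MonoidAlgebra ℤ G),
    ∃ a : MonoidAlgebra ℤ G, x * toQ G (pmat ψ b).det = toQ G a

theorem ft_N (hp : p.Prime) (hp2 : p ≠ 2) {k : ℕ} (hG : Nat.card G = p ^ k)
    (N : Subgroup G) (hN : N.index = p) (hτ : Aff p F (Kf ι N)) (hD : Data ι S T r w fr)
    (hS : r + 2 + (k - 1) * (p - 1) ≤ Fintype.card (InfinitePlace F) + S.card) :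
    ∃ (c : (G ⧸ N →* ℂˣ) → ℂ) (b : Fin r → UM ι S T) (x : MonoidAlgebra ℚ G),
      FtP ι S T w fr N c b x := by
  classical
  haveI := kf_galois ι N
  obtain ⟨ι', hq⟩ := kf_quo ι N
  haveI : Fintype (G ⧸ N) := Fintype.ofFinite _
  have hG' : Nat.card (G ⧸ N) = p := hN
  obtain ⟨F₀, L, i1, i2, i3, i4, i5, i6, i7, i8, i9, i10, i11, i12, i13, hA⟩ :=
    afn_exists (ι := ι') hp hG' hτ
  have hS2 : r + 2 ≤ Fintype.card (InfinitePlace F) + S.card := by omega
  rcases case_K hp2 hq hA hD hS2 with hK | hK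
  · obtain ⟨m, hm⟩ : ∃ m, Fintype.card (PS S) = r + m + 1 := by
      refine ⟨Fintype.card (InfinitePlace F) + S.card - r - 1, ?_⟩
      have : Fintype.card (PS S) = Fintype.card (InfinitePlace F) + S.card := by
        simp [PS]
      rw [this]
      omega
    have hcard : Fintype.card (PS S) = Fintype.card (InfinitePlace F) + S.card := by
      simp [PS]
    have hmk : (p - 1) * (k - 1) + 1 ≤ m := by
      have : (p - 1) * (k - 1) = (k - 1) * (p - 1) := mul_comm _ _
      omega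
    have hm0 : 0 < m := by omega
    obtain ⟨σ, hσ⟩ : ∃ σ : G ⧸ N, σ ≠ 1 := by
      have h1 : 1 < Nat.card (G ⧸ N) := by rw [hG']; exact hp.one_lt
      haveI := Finite.one_lt_card_iff_nontrivial.1 h1
      exact exists_ne 1
    obtain ⟨c, hc, hc0, b, x, hco, hint⟩ := core_gen hp2 hA hK hσ hm0 hm
    obtain ⟨b₁, x₁, h1, h2, h3, h4⟩ := transport hq hD.split b x
    have hcomp1 : (1 : G ⧸ N →* ℂˣ).comp (QuotientGroup.mk' N) = 1 := by
      ext g; rfl
    have hker : Nat.card (QuotientGroup.mk' N).ker = p ^ (k - 1) ∧ 1 ≤ k := by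
      rw [QuotientGroup.ker_mk']
      have e := N.card_mul_index
      rw [hN, hG] at e
      have hk : 1 ≤ k := by
        by_contra h
        have : k = 0 := by omega
        rw [this, pow_zero] at e
        exact hp.one_lt.ne' (Nat.eq_one_of_mul_eq_one_left e)
      refine ⟨?_, hk⟩
      obtain ⟨l, rfl⟩ : ∃ l, k = l + 1 := ⟨k - 1, by omega⟩
      rw [pow_succ] at e
      rw [Nat.add_sub_cancel]
      exact Nat.eq_of_mul_eq_mul_right hp.pos e
    refine ⟨c, b₁, x₁, ?_, h2, ?_, ?_, ?_, ?_⟩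
    · intro χ hχ
      exact hc χ hχ
    · have := h1 1
      rw [hcomp1, (evQ_one_nrm x).1 hco.xminus] at this
      rcases mul_eq_zero.1 this with h | h
      · exact h
      · exfalso
        rw [hker.1] at h
        exact pow_ne_zero _ (by exact_mod_cast (pow_pos hp.pos _).ne') h
    · intro χ' hχ'
      rw [h3, hco.value χ' hχ']
    · intro χ' hχ' h0
      exact absurd h0 (hc0 χ' hχ')
    · intro ψ
      obtain ⟨ψ', hψ'⟩ := h4 ψ
      obtain ⟨a, ha⟩ := hint ψ'
      obtain ⟨a₀, ha₀⟩ := pi_pow hp hG' hσ (k - 1)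
      refine hψ' ((MonoidAlgebra.single σ 1 - 1) * a₀ *
        (MonoidAlgebra.single σ 1 - 1) ^ (m - ((p - 1) * (k - 1) + 1)) * a) ?_
      rw [ha, hker.1]
      congr 1
      have : (MonoidAlgebra.single σ (1 : ℤ) - 1) ^ m =
          (MonoidAlgebra.single σ (1 : ℤ) - 1) ^ ((p - 1) * (k - 1) + 1) *
          (MonoidAlgebra.single σ (1 : ℤ) - 1) ^ (m - ((p - 1) * (k - 1) + 1)) := by
        rw [← pow_add]
        congr 1
        omega
      rw [this, ha₀]
      push_cast
      ring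
  · refine ⟨fun _ => 0, fun _ => 0, 0, ?_, ?_, ?_, ?_, ?_, ?_⟩
    · intro χ hχ
      exact hK χ hχ
    · intro χ _
      exact map_zero _
    · exact map_zero _
    · intro χ' _
      rw [map_zero, zero_mul]
    · intro χ' _ _
      exact map_zero _
    · intro ψ
      exact ⟨0, by rw [zero_mul, map_zero]⟩

/-- Rubin's conjecture for elementary abelian extensions. -/
theorem rubin_elem (hp : p.Prime) (hp2 : p ≠ 2) {k : ℕ} (hG : Nat.card G = p ^ k) (hexp : ∀ g : G, g ^ p = 1)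
    (hτ : ∀ N : Subgroup G, N.index = p → Aff p F (Kf ι N)) (hD : Data ι S T r w fr)
    (hS : r + 2 + (k - 1) * (p - 1) ≤ Fintype.card (InfinitePlace F) + S.card) :
    RubinStark ι S T w fr := by
  classical
  have hall : ∀ N : Subgroup G, N.index = p → ∃ (c : (G ⧸ N →* ℂˣ) → ℂ) (b : Fin r → UM ι S T)
      (x : MonoidAlgebra ℚ G), FtP ι S T w fr N c b x := fun N hN =>
    ft_N hp hp2 hG N hN (hτ N hN) hD hS
  choose C B X hP using hall
  -- the kernel of a nontrivial character has index `p`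
  have hker : ∀ χ : G →* ℂˣ, χ ≠ 1 → χ.ker.index = p := by
    intro χ hχ
    have h1 : χ.ker.index ≠ 1 := by
      rw [Ne, Subgroup.index_eq_one]
      intro h
      apply hχ
      ext g
      have : g ∈ χ.ker := by rw [h]; trivial
      rw [MonoidHom.mem_ker] at this
      rw [this]; rfl
    have h2 : Nat.card χ.range = χ.ker.index := by
      rw [Subgroup.index_ker]
    rw [← h2]
    -- the range is a finite subgroup of `ℂˣ`, so cyclic, of exponent `p`
    haveI : Finite χ.range := Set.finite_range χ |>.to_subtype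
    haveI : IsCyclic χ.range := inferInstance
    have hexp' : Monoid.exponent χ.range = Nat.card χ.range := IsCyclic.exponent_eq_card
    have hdvd : Monoid.exponent χ.range ∣ p := by
      apply Monoid.exponent_dvd_of_forall_pow_eq_one
      rintro ⟨_, g, rfl⟩
      apply Subtype.ext
      show χ g ^ p = 1
      rw [← map_pow, hexp, map_one]
    rw [hexp'] at hdvd
    rcases (Nat.dvd_prime hp).1 hdvd with h | h
    · exact absurd (h2.symm.trans h) h1
    · exact h
  let lft : ∀ (N : Subgroup G) (χ : G →* ℂˣ), N ≤ χ.ker → (G ⧸ N →* ℂˣ) := fun N χ h =>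
    QuotientGroup.lift N χ (fun x hx => h hx)
  have hlft : ∀ N χ (h : N ≤ χ.ker), (lft N χ h).comp (QuotientGroup.mk' N) = χ := by
    intro N χ h
    ext g
    rfl
  have hlft1 : ∀ N χ (h : N ≤ χ.ker), χ ≠ 1 → lft N χ h ≠ 1 := by
    intro N χ h hχ h1
    apply hχ
    rw [← hlft N χ h, h1]
    ext g
    rfl
  have huniq : ∀ N (χ' : G ⧸ N →* ℂˣ) (h : N ≤ (χ'.comp (QuotientGroup.mk' N)).ker),
      lft N (χ'.comp (QuotientGroup.mk' N)) h = χ' := by
    intro N χ' h
    apply MonoidHom.ext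
    intro g
    obtain ⟨g, rfl⟩ := QuotientGroup.mk_surjective g
    rfl
  let c : (G →* ℂˣ) → ℂ := fun χ =>
    if h : χ ≠ 1 then C χ.ker (hker χ h) (lft χ.ker χ le_rfl) else 0
  have hc : ∀ N (hN : N.index = p) (χ : G →* ℂˣ) (h : N ≤ χ.ker), χ ≠ 1 →
      c χ = C N hN (lft N χ h) := by
    intro N hN χ h hχ
    have e : N = χ.ker := by
      have h1 : N.relIndex χ.ker * χ.ker.index = N.index := Subgroup.relIndex_mul_index h
      rw [hN, hker χ hχ] at h1
      have h2 : N.relIndex χ.ker = 1 := by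
        have := Nat.eq_of_mul_eq_mul_right hp.pos (h1.trans (one_mul p).symm)
        exact this
      exact le_antisymm h (Subgroup.relIndex_eq_one.1 h2)
    subst e
    simp only [c]
    rw [dif_pos hχ]
  have hlead : LeadX S T r fr c := by
    intro χ hχ
    obtain ⟨Λ, h1, h2, h3⟩ := (hP χ.ker (hker χ hχ)).lead (lft χ.ker χ le_rfl) (hlft1 _ _ _ hχ)
    refine ⟨Λ, h1, ?_, ?_⟩
    · intro s hs
      rw [h2 s hs, hlft]
    · rw [hc _ (hker χ hχ) χ le_rfl hχ]
      exact h3
  obtain ⟨c', hL, hcc, hc1⟩ := lead_full hD hlead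
  have hc1' : c' 1 = 0 := hc1 (by omega)
  refine ⟨c', hL, ?_⟩
  let K := {N : Subgroup G // N.index = p}
  haveI : Fintype K := Fintype.ofFinite K
  -- characters which factor through `N`
  have hfac : ∀ (N : Subgroup G) (hN : N.index = p) (χ : G →* ℂˣ), χ ≠ 1 →
      (∃ χ' : G ⧸ N →* ℂˣ, χ = χ'.comp (QuotientGroup.mk' N)) → N = χ.ker := by
    rintro N hN χ hχ ⟨χ', rfl⟩
    have h : N ≤ (χ'.comp (QuotientGroup.mk' N)).ker := by
      intro x hx
      rw [MonoidHom.mem_ker]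
      show χ' (QuotientGroup.mk' N x) = 1
      have : (QuotientGroup.mk' N x) = 1 := by
        rw [← MonoidHom.mem_ker, QuotientGroup.ker_mk']
        exact hx
      rw [this, map_one]
    have h1 := Subgroup.relIndex_mul_index h
    rw [hN, hker _ hχ] at h1
    have h2 : N.relIndex (χ'.comp (QuotientGroup.mk' N)).ker = 1 :=
      Nat.eq_of_mul_eq_mul_right hp.pos (h1.trans (one_mul p).symm)
    exact le_antisymm h (Subgroup.relIndex_eq_one.1 h2)
  refine wrap ι S T w c' (K := K) (fun N => B N.1 N.2) (fun N => X N.1 N.2) ?_ ?_ ?_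
  · intro χ
    by_cases hχ : χ = 1
    · subst hχ
      have e1 : (1 : G →* ℂˣ)⁻¹ = 1 := by
        apply MonoidHom.ext
        intro g
        show ((1 : G →* ℂˣ) g)⁻¹ = 1
        rw [MonoidHom.one_apply, inv_one]
      rw [e1, hc1']
      refine Finset.sum_eq_zero fun N _ => ?_
      rw [(hP N.1 N.2).one, zero_mul]
    · have hχi : χ⁻¹ ≠ 1 := by
        intro h
        apply hχ
        apply MonoidHom.ext
        intro g
        have h2 : χ⁻¹ g = 1 := by rw [h]; rfl
        have h3 : (χ g)⁻¹ = 1 := h2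
        rw [inv_eq_one] at h3
        exact h3
      rw [Finset.sum_eq_single ⟨χ.ker, hker χ hχ⟩]
      · have h := (hP χ.ker (hker χ hχ)).val (lft χ.ker χ le_rfl) (hlft1 _ _ _ hχ)
        rw [hlft] at h
        rw [h, hcc _ hχi]
        have hle : χ.ker ≤ χ⁻¹.ker := by
          intro g hg
          rw [MonoidHom.mem_ker] at hg ⊢
          rw [MonoidHom.inv_apply, hg, inv_one]
        rw [hc χ.ker (hker χ hχ) χ⁻¹ hle hχi]
        congr 1
        apply MonoidHom.ext
        intro g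
        obtain ⟨g, rfl⟩ := QuotientGroup.mk_surjective g
        rfl
      · intro N _ hN
        have : ¬ ∃ χ' : G ⧸ N.1 →* ℂˣ, χ = χ'.comp (QuotientGroup.mk' N.1) := fun h =>
          hN (Subtype.ext (hfac N.1 N.2 χ hχ h))
        rw [(hP N.1 N.2).off χ this, zero_mul]
      · intro h
        exact absurd (Finset.mem_univ _) h
  · intro χ N h0
    by_cases hχ : χ = 1
    · subst hχ
      exact (hP N.1 N.2).one
    · by_cases hf : ∃ χ' : G ⧸ N.1 →* ℂˣ, χ = χ'.comp (QuotientGroup.mk' N.1)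
      · have e := hfac N.1 N.2 χ hχ hf
        have hle : N.1 ≤ χ.ker := e.le
        have h1 := (hP N.1 N.2).van (lft N.1 χ hle) (hlft1 _ _ _ hχ)
        rw [hlft] at h1
        apply h1
        rw [← hc N.1 N.2 χ hle hχ, ← hcc χ hχ]
        exact h0
      · exact (hP N.1 N.2).off χ hf
  · intro ψ
    have h : ∀ N : K, ∃ a : MonoidAlgebra ℤ G, X N.1 N.2 * toQ G (pmat ψ (B N.1 N.2)).det =
        toQ G a := fun N => (hP N.1 N.2).int ψ
    choose a ha using h
    refine ⟨∑ N, a N, ?_⟩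
    rw [map_sum]
    exact Finset.sum_congr rfl fun N _ => ha N

end FT

end Pool.Agent.RSK
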